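import Mathlib

/-!
Definitions for the proof of the main theorem on modules over polycyclic groups
(`MP_9e8505_al`): every finitely generated module over a polycyclic group has bounded
periodicity exponents.  See /team-store/polc_blueprint.md for the mathematics.
-/

set_option autoImplicit false

namespace Pool.Agent.Polc

/-! ### Polycyclic groups -/

/-- polycyclic group: solvable, and all subgroups are finitely generated -/
structure PC (G : Type) [Group G] : Prop where
  solv : Group.IsSolvable G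
  fg : ∀ H : Subgroup G, H.FG

/-- `K` is obtained from `H` by adding one element that normalises `H` -/
def CStep {G : Type} [Group G] (H K : Subgroup G) : Prop :=
  ∃ g : G, (∀ h : G, h ∈ H ↔ g * h * g⁻¹ ∈ H) ∧ K = H ⊔ Subgroup.zpowers g

/-- chain of cyclic steps -/
def CChain {G : Type} [Group G] (H K : Subgroup G) : Prop :=
  Relation.ReflTransGen CStep H K

/-- `HL n G`: every chain of subgroups with infinite consecutive indices has length at most `n`
(Hirsch length at most `n`) -/
def HL : ℕ → ∀ (G : Type) [Group G], Prop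
  | 0, G, _ => Finite G
  | n + 1, G, _ => ∀ H : Subgroup G, H.index = 0 → HL n H

/-- the Hirsch length (junk value `0` if there is no bound) -/
noncomputable def hl (G : Type) [Group G] : ℕ := sInf {n | HL n G}

/-- the verbal subgroup generated by `k`-th powers of elements of `N` -/
def pw {G : Type} [Group G] (N : Subgroup G) (k : ℕ) : Subgroup G :=
  Subgroup.closure {g | ∃ v ∈ N, g = v ^ k}

/-- torsion-free group, concretely -/
def TF (G : Type) [Group G] : Prop := ∀ (g : G) (n : ℕ), 0 < n → g ^ n = 1 → g = 1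

/-- commutator -/
def cm {G : Type} [Group G] (a b : G) : G := a * b * a⁻¹ * b⁻¹

/-- see `ucs` -/
def ucsAux {G : Type} [Group G] (N U : Subgroup G) [hU : U.Normal] [hN : N.Normal] :
    ℕ → {H : Subgroup G // H.Normal}
  | 0 => ⟨U, hU⟩
  | j + 1 =>
    ⟨{ carrier := {n | n ∈ N ∧ ∀ g ∈ N, cm n g ∈ (ucsAux N U j).1}
       one_mem' := by
        refine ⟨N.one_mem, fun g _ => ?_⟩
        have : cm 1 g = 1 := by simp [cm]
        rw [this]; exact Subgroup.one_mem _
       mul_mem' := by
        rintro a b ⟨ha, ha'⟩ ⟨hb, hb'⟩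
        refine ⟨N.mul_mem ha hb, fun g hg => ?_⟩
        have h1 : cm (a * b) g = a * cm b g * a⁻¹ * cm a g := by
          simp only [cm]; group
        rw [h1]
        exact Subgroup.mul_mem _ ((ucsAux N U j).2.conj_mem _ (hb' g hg) a) (ha' g hg)
       inv_mem' := by
        rintro a ⟨ha, ha'⟩
        refine ⟨N.inv_mem ha, fun g hg => ?_⟩
        have h1 : cm a⁻¹ g = a⁻¹ * (cm a g)⁻¹ * a⁻¹⁻¹ := by
          simp only [cm]; group
        rw [h1]
        exact (ucsAux N U j).2.conj_mem _ (Subgroup.inv_mem _ (ha' g hg)) a⁻¹ }, by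
      refine ⟨?_⟩
      rintro n ⟨hn, hn'⟩ γ
      refine ⟨hN.conj_mem _ hn γ, fun g hg => ?_⟩
      have h1 : cm (γ * n * γ⁻¹) g = γ * cm n (γ⁻¹ * g * γ⁻¹⁻¹) * γ⁻¹ := by
        simp only [cm]; group
      rw [h1]
      exact (ucsAux N U j).2.conj_mem _ (hn' _ (hN.conj_mem _ hg γ⁻¹)) γ⟩

/-- `ucs N U j`: preimage in `N` of the `j`-th term of the upper central series of `N / U`
(for `U ≤ N` normal) -/
def ucs {G : Type} [Group G] (N U : Subgroup G) [U.Normal] [N.Normal] (j : ℕ) : Subgroup G :=
  (ucsAux N U j).1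

/-! ### Modules (additive groups with a group acting) -/

section mod

variable {G M : Type} [Group G] [AddCommGroup M] [DistribMulAction G M]

/-- the endomorphism of `M` given by a group element -/
abbrev ac (M : Type) [AddCommGroup M] {G : Type} [Group G] [DistribMulAction G M] :
    G →* AddMonoid.End M := DistribMulAction.toAddMonoidEnd G M

/-- the additive subgroup spanned by `H • F` -/
def gspan (H : Subgroup G) (F : Set M) : AddSubgroup M :=
  AddSubgroup.closure {m | ∃ h ∈ H, ∃ f ∈ F, m = h • f}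

/-- `V` is `H`-stable -/
def Stb (H : Subgroup G) (V : AddSubgroup M) : Prop := ∀ h ∈ H, ∀ v ∈ V, h • v ∈ V

/-- `V` is finitely generated as an `H`-module -/
def FGM (H : Subgroup G) (V : AddSubgroup M) : Prop := ∃ F : Set M, F.Finite ∧ V = gspan H F

/-- `Δ(H) V` -/
def dmul (H : Subgroup G) (V : AddSubgroup M) : AddSubgroup M :=
  AddSubgroup.closure {m | ∃ h ∈ H, ∃ v ∈ V, m = h • v - v}

/-- `Δ(H)^n V` -/
def dpow (H : Subgroup G) : ℕ → AddSubgroup M → AddSubgroup M
  | 0, V => V
  | n + 1, V => dmul H (dpow H n V)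

/-- the periodicity condition for the pair `(H, W / K)` -/
def GoodOn (H : Subgroup G) (W K : AddSubgroup M) : Prop :=
  ∃ e h : ℕ, 0 < e ∧ ∀ x ∈ H, ∀ m ∈ W, ∀ n r : ℕ, 0 < n →
    ((ac M (x ^ n) - 1) ^ r) m ∈ K → ((ac M (x ^ e) - 1) ^ h) m ∈ K

/-- `M` is torsion-free (`c = 0`), or killed by the prime `c` -/
def Char (c : ℕ) (M : Type) [AddCommGroup M] : Prop :=
  (c = 0 ∧ ∀ (n : ℕ) (m : M), 0 < n → n • m = 0 → m = 0) ∨ (c.Prime ∧ ∀ m : M, c • m = 0)

/-- `m` satisfies a polynomial identity (nonzero mod `c`) with respect to `b` -/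
def Alg (c : ℕ) (b : G) (m : M) : Prop :=
  ∃ f : Polynomial ℤ, f.map (Int.castRingHom (ZMod c)) ≠ 0 ∧
    (Polynomial.aeval (ac M b) f : AddMonoid.End M) m = 0

end mod

/-- the pair satisfies the periodicity condition -/
def Good (G M : Type) [Group G] [AddCommGroup M] [DistribMulAction G M] : Prop :=
  GoodOn (⊤ : Subgroup G) (⊤ : AddSubgroup M) ⊥

/-- induction hypothesis: the main theorem for groups of Hirsch length at most `n` -/
def IH (n : ℕ) : Prop :=
  ∀ (G : Type) [Group G], PC G → HL n G → ∀ (M : Type) [AddCommGroup M] [DistribMulAction G M],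
    FGM (⊤ : Subgroup G) (⊤ : AddSubgroup M) → Good G M

/-- totally bad modules -/
structure TBad (n : ℕ) (G M : Type) [Group G] [AddCommGroup M] [DistribMulAction G M] : Prop where
  pc : PC G
  hl : HL (n + 1) G
  tf : TF G
  fg : FGM (⊤ : Subgroup G) (⊤ : AddSubgroup M)
  nz : Nontrivial M
  bad : ∀ G1 : Subgroup G, G1.FiniteIndex → ∀ W : AddSubgroup M, W ≠ ⊥ → Stb G1 W →
    ¬ GoodOn G1 W ⊥

end Pool.Agent.Polc
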