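import Mathlib
import Pool.Agent.Polc.Defs

/-!
# Almost normalising extensions of Noetherian rings (Hilbert basis theorem)

Module AN of the proof for `MP_9e8505_al`: `adjoin_noeth`.  Also `grpRing`, the subring generated
by a subring and the image of a subgroup, and its Noetherianity under cyclic steps.
-/

set_option autoImplicit false

namespace Pool.Agent.Polc

namespace HB

variable {S : Type*} [Ring S] (R : Subring S) (y : S) {M : Type*} [AddCommGroup M] [Module S M]

/-- `fil n = sum over j < n of y^j M0`. -/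
def fil (M0 : Submodule R M) : ℕ → AddSubgroup M
  | 0 => ⊥
  | n + 1 => fil M0 n ⊔ M0.toAddSubgroup.map (DistribSMul.toAddMonoidHom M (y ^ n))

variable {R y}

theorem fil_le_succ (M0 : Submodule R M) (n : ℕ) : fil R y M0 n ≤ fil R y M0 (n + 1) :=
  le_sup_left

theorem fil_mono (M0 : Submodule R M) : Monotone (fil R y M0) :=
  monotone_nat_of_le_succ (fil_le_succ M0)

theorem pow_smul_mem (M0 : Submodule R M) (n : ℕ) {m : M} (hm : m ∈ M0) :
    y ^ n • m ∈ fil R y M0 (n + 1) := by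
  refine AddSubgroup.mem_sup_right ?_
  exact ⟨m, hm, rfl⟩

theorem mem_succ {M0 : Submodule R M} {n : ℕ} {x : M} (hx : x ∈ fil R y M0 (n + 1)) :
    ∃ z ∈ fil R y M0 n, ∃ m ∈ M0, x = z + y ^ n • m := by
  obtain ⟨z, hz, w, hw, h⟩ := AddSubgroup.mem_sup.mp hx
  obtain ⟨m, hm, rfl⟩ := hw
  exact ⟨z, hz, m, hm, h.symm⟩

theorem y_smul_mem (M0 : Submodule R M) (n : ℕ) {x : M} (hx : x ∈ fil R y M0 n) :
    y • x ∈ fil R y M0 (n + 1) := by
  induction n generalizing x with
  | zero =>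
    have : x = 0 := by simpa [fil] using hx
    subst this
    simp [zero_mem]
  | succ n ih =>
    obtain ⟨z, hz, m, hm, rfl⟩ := mem_succ hx
    rw [smul_add, smul_smul, ← pow_succ']
    exact add_mem (fil_le_succ M0 _ (ih hz)) (pow_smul_mem M0 _ hm)

theorem r_smul_mem (h2 : ∀ r ∈ R, ∃ r1 ∈ R, ∃ r0 ∈ R, r * y = y * r1 + r0)
    (M0 : Submodule R M) (n : ℕ) {x : M} (hx : x ∈ fil R y M0 n) {r : S} (hr : r ∈ R) :
    r • x ∈ fil R y M0 n := by
  have key : ∀ (j : ℕ) (r : S), r ∈ R → ∀ m ∈ M0, r • y ^ j • m ∈ fil R y M0 (j + 1) := by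
    intro j
    induction j with
    | zero =>
      intro r hr m hm
      have : r • m ∈ M0 := M0.smul_mem (⟨r, hr⟩ : R) hm
      simpa using pow_smul_mem (y := y) M0 0 this
    | succ j ih =>
      intro r hr m hm
      obtain ⟨r1, hr1, r0, hr0, h⟩ := h2 r hr
      have e : r • y ^ (j + 1) • m = y • (r1 • y ^ j • m) + r0 • y ^ j • m := by
        rw [pow_succ', mul_smul, smul_smul r y, h, add_smul, mul_smul]
      rw [e]
      exact add_mem (y_smul_mem M0 _ (ih r1 hr1 m hm)) (fil_le_succ M0 _ (ih r0 hr0 m hm))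
  induction n generalizing x with
  | zero =>
    have : x = 0 := by simpa [fil] using hx
    subst this
    simp [zero_mem]
  | succ n ih =>
    obtain ⟨z, hz, m, hm, rfl⟩ := mem_succ hx
    rw [smul_add]
    exact add_mem (fil_le_succ M0 _ (ih hz)) (key n r hr m hm)

theorem comm_mem (h1 : ∀ r ∈ R, ∃ r1 ∈ R, ∃ r0 ∈ R, y * r = r1 * y + r0)
    (h2 : ∀ r ∈ R, ∃ r1 ∈ R, ∃ r0 ∈ R, r * y = y * r1 + r0)
    (M0 : Submodule R M) (n : ℕ) {r : S} (hr : r ∈ R) :
    ∃ r' ∈ R, ∀ m ∈ M0, y ^ n • r • m - r' • y ^ n • m ∈ fil R y M0 n := by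
  induction n with
  | zero =>
    refine ⟨r, hr, fun m hm => ?_⟩
    simp [zero_mem]
  | succ n ih =>
    obtain ⟨r', hr', h⟩ := ih
    obtain ⟨r1, hr1, r0, hr0, e⟩ := h1 r' hr'
    refine ⟨r1, hr1, fun m hm => ?_⟩
    have e2 : y ^ (n + 1) • r • m - r1 • y ^ (n + 1) • m
        = y • (y ^ n • r • m - r' • y ^ n • m) + r0 • y ^ n • m := by
      rw [smul_sub, smul_smul y r', e, add_smul, mul_smul, pow_succ', mul_smul, mul_smul]
      abel
    rw [e2]
    refine add_mem (y_smul_mem M0 _ (h m hm)) ?_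
    exact r_smul_mem h2 M0 _ (pow_smul_mem M0 _ hm) hr0

/-- Leading coefficients. -/
def lead (h1 : ∀ r ∈ R, ∃ r1 ∈ R, ∃ r0 ∈ R, y * r = r1 * y + r0)
    (h2 : ∀ r ∈ R, ∃ r1 ∈ R, ∃ r0 ∈ R, r * y = y * r1 + r0)
    (M0 : Submodule R M) (N : Submodule S M) (n : ℕ) : Submodule R M0 where
  carrier := {m | y ^ n • (m : M) ∈ N.toAddSubgroup ⊔ fil R y M0 n}
  zero_mem' := by simp [zero_mem]
  add_mem' := by
    intro a b ha hb
    simp only [Set.mem_ofPred_eq, Submodule.coe_add, smul_add] at *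
    exact add_mem ha hb
  smul_mem' := by
    rintro ⟨r, hr⟩ m hm
    simp only [Set.mem_ofPred_eq] at *
    obtain ⟨r', hr', h⟩ := comm_mem h1 h2 M0 n hr
    have e : y ^ n • (((⟨r, hr⟩ : R) • m : M0) : M)
        = (y ^ n • r • (m : M) - r' • y ^ n • (m : M)) + r' • y ^ n • (m : M) := by
      have : (((⟨r, hr⟩ : R) • m : M0) : M) = r • (m : M) := rfl
      rw [this]; abel
    rw [e]
    refine add_mem (AddSubgroup.mem_sup_right (h m m.2)) ?_
    obtain ⟨a, ha, b, hb, hab⟩ := AddSubgroup.mem_sup.mp hm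
    rw [← hab, smul_add]
    exact add_mem (AddSubgroup.mem_sup_left (N.smul_mem r' ha))
      (AddSubgroup.mem_sup_right (r_smul_mem h2 M0 _ hb hr'))

theorem mem_lead {h1 : ∀ r ∈ R, ∃ r1 ∈ R, ∃ r0 ∈ R, y * r = r1 * y + r0}
    {h2 : ∀ r ∈ R, ∃ r1 ∈ R, ∃ r0 ∈ R, r * y = y * r1 + r0}
    {M0 : Submodule R M} {N : Submodule S M} {n : ℕ} {m : M0} :
    m ∈ lead h1 h2 M0 N n ↔ y ^ n • (m : M) ∈ N.toAddSubgroup ⊔ fil R y M0 n := Iff.rfl

theorem lead_succ (h1 : ∀ r ∈ R, ∃ r1 ∈ R, ∃ r0 ∈ R, y * r = r1 * y + r0)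
    (h2 : ∀ r ∈ R, ∃ r1 ∈ R, ∃ r0 ∈ R, r * y = y * r1 + r0)
    (M0 : Submodule R M) (N : Submodule S M) (n : ℕ) :
    lead h1 h2 M0 N n ≤ lead h1 h2 M0 N (n + 1) := by
  intro m hm
  rw [mem_lead] at *
  obtain ⟨a, ha, b, hb, hab⟩ := AddSubgroup.mem_sup.mp hm
  rw [pow_succ', mul_smul, ← hab, smul_add]
  exact add_mem (AddSubgroup.mem_sup_left (N.smul_mem y ha))
    (AddSubgroup.mem_sup_right (y_smul_mem M0 _ hb))

theorem lead_le (h1 : ∀ r ∈ R, ∃ r1 ∈ R, ∃ r0 ∈ R, y * r = r1 * y + r0)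
    (h2 : ∀ r ∈ R, ∃ r1 ∈ R, ∃ r0 ∈ R, r * y = y * r1 + r0)
    (M0 : Submodule R M) {N N' : Submodule S M} (h : N ≤ N') (n : ℕ) :
    lead h1 h2 M0 N n ≤ lead h1 h2 M0 N' n := by
  intro m hm
  rw [mem_lead] at *
  exact (sup_le_sup_right (show N.toAddSubgroup ≤ N'.toAddSubgroup from h) _) hm

theorem iUnion_fil (h2 : ∀ r ∈ R, ∃ r1 ∈ R, ∃ r0 ∈ R, r * y = y * r1 + r0)
    (hS : Subring.closure ((R : Set S) ∪ {y}) = ⊤)
    (M0 : Submodule R M) (hgen : Submodule.span S (M0 : Set M) = ⊤) (x : M) :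
    ∃ n, x ∈ fil R y M0 n := by
  have hsm : ∀ s : S, ∀ x : M, (∃ n, x ∈ fil R y M0 n) → ∃ n, s • x ∈ fil R y M0 n := by
    intro s
    have hs : s ∈ Subring.closure ((R : Set S) ∪ {y}) := by rw [hS]; trivial
    induction hs using Subring.closure_induction with
    | mem s hs =>
      rintro x ⟨n, hx⟩
      rcases hs with hs | hs
      · exact ⟨n, r_smul_mem h2 M0 n hx hs⟩
      · rw [Set.mem_singleton_iff] at hs
        subst hs
        exact ⟨n + 1, y_smul_mem M0 n hx⟩
    | zero => intro x _; exact ⟨0, by simp [zero_mem]⟩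
    | one => intro x hx; simpa using hx
    | add a b _ _ ha hb =>
      intro x hx
      obtain ⟨n, hn⟩ := ha x hx
      obtain ⟨k, hk⟩ := hb x hx
      refine ⟨max n k, ?_⟩
      rw [add_smul]
      exact add_mem (fil_mono M0 (le_max_left _ _) hn) (fil_mono M0 (le_max_right _ _) hk)
    | neg a _ ha =>
      intro x hx
      obtain ⟨n, hn⟩ := ha x hx
      exact ⟨n, by rw [neg_smul]; exact neg_mem hn⟩
    | mul a b _ _ ha hb =>
      intro x hx
      rw [mul_smul]
      exact ha _ (hb x hx)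
  have hx : x ∈ Submodule.span S (M0 : Set M) := by rw [hgen]; trivial
  induction hx using Submodule.span_induction with
  | mem m hm => exact ⟨1, by simpa using pow_smul_mem (y := y) M0 0 hm⟩
  | zero => exact ⟨0, zero_mem _⟩
  | add a b _ _ ha hb =>
    obtain ⟨n, hn⟩ := ha
    obtain ⟨k, hk⟩ := hb
    exact ⟨max n k, add_mem (fil_mono M0 (le_max_left _ _) hn) (fil_mono M0 (le_max_right _ _) hk)⟩
  | smul s a _ ha => exact hsm s a ha

theorem eq_of_lead_eq (h1 : ∀ r ∈ R, ∃ r1 ∈ R, ∃ r0 ∈ R, y * r = r1 * y + r0)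
    (h2 : ∀ r ∈ R, ∃ r1 ∈ R, ∃ r0 ∈ R, r * y = y * r1 + r0)
    (hS : Subring.closure ((R : Set S) ∪ {y}) = ⊤)
    (M0 : Submodule R M) (hgen : Submodule.span S (M0 : Set M) = ⊤)
    {N N' : Submodule S M} (hle : N ≤ N')
    (h : ∀ n, lead h1 h2 M0 N' n ≤ lead h1 h2 M0 N n) : N' ≤ N := by
  have key : ∀ n, ∀ x ∈ N', x ∈ fil R y M0 n → x ∈ N := by
    intro n
    induction n with
    | zero =>
      intro x _ hx
      have : x = 0 := by simpa [fil] using hx
      subst this; exact zero_mem _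
    | succ n ih =>
      intro x hxN hx
      obtain ⟨z, hz, m, hm, rfl⟩ := mem_succ hx
      have hm' : (⟨m, hm⟩ : M0) ∈ lead h1 h2 M0 N' n := by
        rw [mem_lead]
        have : y ^ n • m = (z + y ^ n • m) - z := by abel
        change y ^ n • m ∈ _
        rw [this]
        exact sub_mem (AddSubgroup.mem_sup_left hxN) (AddSubgroup.mem_sup_right hz)
      obtain ⟨a, ha, b, hb, hab⟩ := AddSubgroup.mem_sup.mp (mem_lead.mp (h n hm'))
      have ha' : a ∈ N := ha
      have e : z + y ^ n • m = a + (z + b) := by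
        have : y ^ n • m = a + b := hab.symm
        rw [this]; abel
      rw [e] at hxN ⊢
      have h3 : z + b ∈ N' := by
        have := sub_mem hxN (hle ha')
        simpa using this
      exact add_mem ha' (ih _ h3 (add_mem hz hb))
  intro x hx
  obtain ⟨n, hn⟩ := iUnion_fil h2 hS M0 hgen x
  exact key n x hx hn

end HB

open HB in
/-- **Almost normalising extensions.** -/
theorem isNoetherian_of_almost_normalising {S : Type*} [Ring S] (R : Subring S) (y : S)
    {M : Type*} [AddCommGroup M] [Module S M]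
    (h1 : ∀ r ∈ R, ∃ r1 ∈ R, ∃ r0 ∈ R, y * r = r1 * y + r0)
    (h2 : ∀ r ∈ R, ∃ r1 ∈ R, ∃ r0 ∈ R, r * y = y * r1 + r0)
    (hS : Subring.closure ((R : Set S) ∪ {y}) = ⊤)
    (M0 : Submodule R M) [hM0 : IsNoetherian R M0] (hgen : Submodule.span S (M0 : Set M) = ⊤) :
    IsNoetherian S M := by
  rw [← monotone_stabilizes_iff_noetherian]
  intro f
  have hmono2 : ∀ k, Monotone (lead h1 h2 M0 (f k)) := fun k =>
    monotone_nat_of_le_succ (lead_succ h1 h2 M0 (f k))
  have hmono1 : ∀ n, Monotone (fun k => lead h1 h2 M0 (f k) n) := fun n a b hab =>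
    lead_le h1 h2 M0 (f.monotone hab) n
  -- the diagonal stabilises
  let d : ℕ →o Submodule R M0 := ⟨fun n => lead h1 h2 M0 (f n) n, by
    intro a b hab
    exact (hmono2 a hab).trans (hmono1 b hab)⟩
  obtain ⟨n0, hn0⟩ := monotone_stabilizes_iff_noetherian.mpr hM0 d
  have hrow : ∀ n, ∃ k0, ∀ k, k0 ≤ k → lead h1 h2 M0 (f k0) n = lead h1 h2 M0 (f k) n := by
    intro n
    exact monotone_stabilizes_iff_noetherian.mpr hM0 ⟨_, hmono1 n⟩
  choose kk hkk using hrow
  let K := max n0 ((Finset.range n0).sup kk)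
  refine ⟨K, fun k hk => ?_⟩
  refine le_antisymm (f.monotone hk) ?_
  refine eq_of_lead_eq h1 h2 hS M0 hgen (f.monotone hk) ?_
  intro n
  by_cases hn : n < n0
  · have hK : kk n ≤ K := le_trans (Finset.le_sup (Finset.mem_range.mpr hn)) (le_max_right _ _)
    rw [← hkk n K hK, ← hkk n k (hK.trans hk)]
  · push Not at hn
    -- both are equal to the diagonal value
    have hKn0 : n0 ≤ K := le_max_left _ _
    have e1 : d n0 ≤ lead h1 h2 M0 (f K) n :=
      (hmono2 n0 hn).trans (hmono1 n hKn0)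
    have e2 : lead h1 h2 M0 (f k) n ≤ d (max k n) :=
      (hmono2 k (le_max_right k n)).trans (hmono1 _ (le_max_left _ _))
    have e3 : d n0 = d (max k n) := hn0 _ (le_trans hn (le_max_right _ _))
    exact e2.trans (e3 ▸ e1)



/-- Ring version, for subrings of an ambient ring. -/
theorem isNoetherianRing_closure_insert {S : Type*} [Ring S] (R : Subring S) (y : S)
    [IsNoetherianRing R]
    (h1 : ∀ r ∈ R, ∃ r1 ∈ R, ∃ r0 ∈ R, y * r = r1 * y + r0)
    (h2 : ∀ r ∈ R, ∃ r1 ∈ R, ∃ r0 ∈ R, r * y = y * r1 + r0) :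
    IsNoetherianRing (Subring.closure ((R : Set S) ∪ {y})) := by
  set T := Subring.closure ((R : Set S) ∪ {y}) with hT
  have hRT : R ≤ T := by
    intro r hr
    exact Subring.subset_closure (Or.inl hr)
  have hyT : y ∈ T := Subring.subset_closure (Or.inr rfl)
  let φ : R →+* T := Subring.inclusion hRT
  let R' : Subring T := φ.range
  have hmem : ∀ t : T, t ∈ R' ↔ (t : S) ∈ R := by
    intro t
    constructor
    · rintro ⟨r, rfl⟩
      exact r.2
    · intro h
      exact ⟨⟨t, h⟩, rfl⟩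
  let y' : T := ⟨y, hyT⟩
  have hN : IsNoetherianRing R' := isNoetherianRing_range φ
  have hcl : Subring.closure ((R' : Set T) ∪ {y'}) = ⊤ := by
    rw [eq_top_iff]
    rintro ⟨t, ht⟩ -
    have key : ∀ t (ht : t ∈ T), (⟨t, ht⟩ : T) ∈ Subring.closure ((R' : Set T) ∪ {y'}) := by
      intro t ht
      induction ht using Subring.closure_induction with
      | mem s hs =>
        rcases hs with hs | hs
        · exact Subring.subset_closure (Or.inl ((hmem _).mpr hs))
        · rw [Set.mem_singleton_iff] at hs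
          subst hs
          exact Subring.subset_closure (Or.inr rfl)
      | zero => exact zero_mem _
      | one => exact one_mem _
      | add a b ha hb iha ihb => exact add_mem iha ihb
      | neg a ha iha => exact neg_mem iha
      | mul a b ha hb iha ihb => exact mul_mem iha ihb
    exact key t ht
  let M0 : Submodule R' T := Submodule.span R' {1}
  have hfg : IsNoetherian R' M0 :=
    isNoetherian_of_fg_of_noetherian M0 (Submodule.fg_span_singleton 1)
  refine @isNoetherian_of_almost_normalising T _ R' y' T _ _ ?_ ?_ hcl M0 hfg ?_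
  · intro r hr
    obtain ⟨r1, hr1, r0, hr0, h⟩ := h1 r ((hmem r).mp hr)
    exact ⟨⟨r1, hRT hr1⟩, (hmem _).mpr hr1, ⟨r0, hRT hr0⟩, (hmem _).mpr hr0, Subtype.ext h⟩
  · intro r hr
    obtain ⟨r1, hr1, r0, hr0, h⟩ := h2 r ((hmem r).mp hr)
    exact ⟨⟨r1, hRT hr1⟩, (hmem _).mpr hr1, ⟨r0, hRT hr0⟩, (hmem _).mpr hr0, Subtype.ext h⟩
  · rw [eq_top_iff]
    intro t _
    have h1 : (1 : T) ∈ Submodule.span T (M0 : Set T) :=
      Submodule.subset_span (Submodule.subset_span rfl)
    simpa using (Submodule.span T (M0 : Set T)).smul_mem t h1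


/-- Hilbert basis theorem for almost normalising extensions -/
theorem adjoin_noeth {A : Type} [Ring A] (R S : Subring A) (X : A)
    (hR : IsNoetherianRing R) (hS : S = Subring.closure ((R : Set A) ∪ {X}))
    (h1 : ∀ r ∈ R, ∃ r1 ∈ R, ∃ r2 ∈ R, X * r = r1 * X + r2)
    (h2 : ∀ r ∈ R, ∃ r1 ∈ R, ∃ r2 ∈ R, r * X = X * r1 + r2) : IsNoetherianRing S := by
  subst hS
  exact isNoetherianRing_closure_insert R X h1 h2

/-- The subring generated by a subring `k` and the image of a subgroup `H`. -/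
def grpRing {S : Type*} [Ring S] {G : Type*} [Group G] (k : Subring S) (ρ : G →* S)
    (H : Subgroup G) : Subring S :=
  Subring.closure ((k : Set S) ∪ ρ '' (H : Set G))

section grpRing

variable {S : Type*} [Ring S] {G : Type*} [Group G] (k : Subring S) (ρ : G →* S)

theorem le_grpRing (H : Subgroup G) : k ≤ grpRing k ρ H := fun _ hx =>
  Subring.subset_closure (Or.inl hx)

theorem map_mem_grpRing {H : Subgroup G} {g : G} (hg : g ∈ H) : ρ g ∈ grpRing k ρ H :=
  Subring.subset_closure (Or.inr ⟨g, hg, rfl⟩)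

theorem grpRing_le {H : Subgroup G} {T : Subring S} (hk : k ≤ T) (hH : ∀ g ∈ H, ρ g ∈ T) :
    grpRing k ρ H ≤ T := by
  refine Subring.closure_le.mpr ?_
  rintro x (hx | ⟨g, hg, rfl⟩)
  · exact hk hx
  · exact hH g hg

theorem grpRing_mono {H K : Subgroup G} (h : H ≤ K) : grpRing k ρ H ≤ grpRing k ρ K :=
  grpRing_le k ρ (le_grpRing k ρ K) fun _ hg => map_mem_grpRing k ρ (h hg)

theorem grpRing_bot : grpRing k ρ ⊥ = k := by
  refine le_antisymm (grpRing_le k ρ le_rfl ?_) (le_grpRing k ρ _)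
  intro g hg
  rw [Subgroup.mem_bot] at hg
  subst hg
  simp

/-- Conjugation by an element normalising `k` and `H` preserves the ring. -/
theorem conj_mem_grpRing {H : Subgroup G} {y : G}
    (hk : ∀ a ∈ k, ρ y * a * ρ y⁻¹ ∈ k) (hH : ∀ g ∈ H, y * g * y⁻¹ ∈ H)
    {r : S} (hr : r ∈ grpRing k ρ H) : ρ y * r * ρ y⁻¹ ∈ grpRing k ρ H := by
  have hyy : ρ y⁻¹ * ρ y = 1 := by rw [← map_mul]; simp
  unfold grpRing at hr
  induction hr using Subring.closure_induction with
  | mem s hs =>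
    rcases hs with hs | ⟨g, hg, rfl⟩
    · exact le_grpRing k ρ H (hk s hs)
    · rw [← map_mul, ← map_mul]
      exact map_mem_grpRing k ρ (hH g hg)
  | zero => simp [zero_mem]
  | one =>
    have : ρ y * 1 * ρ y⁻¹ = 1 := by rw [mul_one, ← map_mul]; simp
    rw [this]; exact one_mem _
  | add a b _ _ ha hb =>
    rw [mul_add, add_mul]; exact add_mem ha hb
  | neg a _ ha =>
    rw [mul_neg, neg_mul]; exact neg_mem ha
  | mul a b _ _ ha hb =>
    have : ρ y * (a * b) * ρ y⁻¹ = (ρ y * a * ρ y⁻¹) * (ρ y * b * ρ y⁻¹) := by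
      calc ρ y * (a * b) * ρ y⁻¹ = ρ y * a * 1 * b * ρ y⁻¹ := by noncomm_ring
        _ = ρ y * a * (ρ y⁻¹ * ρ y) * b * ρ y⁻¹ := by rw [hyy]
        _ = _ := by noncomm_ring
    rw [this]; exact mul_mem ha hb

/-- Adding one normalising group element keeps the ring Noetherian. -/
theorem isNoetherianRing_grpRing_step {H : Subgroup G} (y : G)
    (hk : ∀ a ∈ k, ρ y * a * ρ y⁻¹ ∈ k) (hk' : ∀ a ∈ k, ρ y⁻¹ * a * ρ y ∈ k)
    (hH : ∀ g ∈ H, y * g * y⁻¹ ∈ H) (hH' : ∀ g ∈ H, y⁻¹ * g * y ∈ H)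
    [hN : IsNoetherianRing (grpRing k ρ H)] :
    IsNoetherianRing (grpRing k ρ (H ⊔ Subgroup.zpowers y)) := by
  have hyy : ρ y⁻¹ * ρ y = 1 := by rw [← map_mul]; simp
  have hyy' : ρ y * ρ y⁻¹ = 1 := by rw [← map_mul]; simp
  have c1 : ∀ r ∈ grpRing k ρ H, ρ y * r * ρ y⁻¹ ∈ grpRing k ρ H := fun r hr =>
    conj_mem_grpRing k ρ hk hH hr
  have c2 : ∀ r ∈ grpRing k ρ H, ρ y⁻¹ * r * ρ y ∈ grpRing k ρ H := fun r hr => by
    have := conj_mem_grpRing k ρ (H := H) (y := y⁻¹) (by simpa using hk') (by simpa using hH') hr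
    simpa using this
  -- first step
  set T1 := Subring.closure ((grpRing k ρ H : Set S) ∪ {ρ y}) with hT1
  have hN1 : IsNoetherianRing T1 := by
    refine isNoetherianRing_closure_insert (grpRing k ρ H) (ρ y) ?_ ?_
    · intro r hr
      refine ⟨_, c1 r hr, 0, zero_mem _, ?_⟩
      rw [mul_assoc, mul_assoc, hyy]; simp
    · intro r hr
      refine ⟨_, c2 r hr, 0, zero_mem _, ?_⟩
      rw [← mul_assoc, ← mul_assoc, hyy']; simp
  have hyT1 : ρ y ∈ T1 := Subring.subset_closure (Or.inr rfl)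
  have hHT1 : grpRing k ρ H ≤ T1 := fun x hx => Subring.subset_closure (Or.inl hx)
  have d1 : ∀ r ∈ T1, ρ y * r * ρ y⁻¹ ∈ T1 := by
    intro r hr
    induction hr using Subring.closure_induction with
    | mem s hs =>
      rcases hs with hs | hs
      · exact hHT1 (c1 s hs)
      · rw [Set.mem_singleton_iff] at hs
        subst hs
        rw [mul_assoc, hyy', mul_one]; exact hyT1
    | zero => simp [zero_mem]
    | one => rw [mul_one, hyy']; exact one_mem _
    | add a b _ _ ha hb => rw [mul_add, add_mul]; exact add_mem ha hb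
    | neg a _ ha => rw [mul_neg, neg_mul]; exact neg_mem ha
    | mul a b _ _ ha hb =>
      have : ρ y * (a * b) * ρ y⁻¹ = (ρ y * a * ρ y⁻¹) * (ρ y * b * ρ y⁻¹) := by
        calc ρ y * (a * b) * ρ y⁻¹ = ρ y * a * 1 * b * ρ y⁻¹ := by noncomm_ring
          _ = ρ y * a * (ρ y⁻¹ * ρ y) * b * ρ y⁻¹ := by rw [hyy]
          _ = _ := by noncomm_ring
      rw [this]; exact mul_mem ha hb
  have d2 : ∀ r ∈ T1, ρ y⁻¹ * r * ρ y ∈ T1 := by
    intro r hr
    induction hr using Subring.closure_induction with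
    | mem s hs =>
      rcases hs with hs | hs
      · exact hHT1 (c2 s hs)
      · rw [Set.mem_singleton_iff] at hs
        subst hs
        rw [hyy, one_mul]; exact hyT1
    | zero => simp [zero_mem]
    | one => rw [mul_one, hyy]; exact one_mem _
    | add a b _ _ ha hb => rw [mul_add, add_mul]; exact add_mem ha hb
    | neg a _ ha => rw [mul_neg, neg_mul]; exact neg_mem ha
    | mul a b _ _ ha hb =>
      have : ρ y⁻¹ * (a * b) * ρ y = (ρ y⁻¹ * a * ρ y) * (ρ y⁻¹ * b * ρ y) := by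
        calc ρ y⁻¹ * (a * b) * ρ y = ρ y⁻¹ * a * 1 * b * ρ y := by noncomm_ring
          _ = ρ y⁻¹ * a * (ρ y * ρ y⁻¹) * b * ρ y := by rw [hyy']
          _ = _ := by noncomm_ring
      rw [this]; exact mul_mem ha hb
  set T2 := Subring.closure ((T1 : Set S) ∪ {ρ y⁻¹}) with hT2
  have hN2 : IsNoetherianRing T2 := by
    refine isNoetherianRing_closure_insert T1 (ρ y⁻¹) ?_ ?_
    · intro r hr
      refine ⟨_, d2 r hr, 0, zero_mem _, ?_⟩
      rw [mul_assoc, mul_assoc, hyy']; simp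
    · intro r hr
      refine ⟨_, d1 r hr, 0, zero_mem _, ?_⟩
      rw [← mul_assoc, ← mul_assoc, hyy]; simp
  have hT1T2 : T1 ≤ T2 := fun x hx => Subring.subset_closure (Or.inl hx)
  have heq : grpRing k ρ (H ⊔ Subgroup.zpowers y) = T2 := by
    apply le_antisymm
    · refine grpRing_le k ρ ((le_grpRing k ρ H).trans (hHT1.trans hT1T2)) ?_
      have : H ⊔ Subgroup.zpowers y ≤
          { carrier := {g : G | ρ g ∈ T2 ∧ ρ g⁻¹ ∈ T2}
            mul_mem' := by
              rintro a b ⟨ha, ha'⟩ ⟨hb, hb'⟩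
              refine ⟨by rw [map_mul]; exact mul_mem ha hb, ?_⟩
              rw [mul_inv_rev, map_mul]; exact mul_mem hb' ha'
            one_mem' := by simp [one_mem]
            inv_mem' := by
              rintro a ⟨ha, ha'⟩
              exact ⟨ha', by simpa using ha⟩ : Subgroup G } := by
        refine sup_le ?_ ?_
        · intro g hg
          exact ⟨hT1T2 (hHT1 (map_mem_grpRing k ρ hg)),
            hT1T2 (hHT1 (map_mem_grpRing k ρ (inv_mem hg)))⟩
        · rw [Subgroup.zpowers_le]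
          exact ⟨hT1T2 hyT1, Subring.subset_closure (Or.inr rfl)⟩
      intro g hg
      exact (this hg).1
    · refine Subring.closure_le.mpr ?_
      have hle : T1 ≤ grpRing k ρ (H ⊔ Subgroup.zpowers y) := by
        refine Subring.closure_le.mpr ?_
        rintro x (hx | hx)
        · exact grpRing_mono k ρ le_sup_left hx
        · rw [Set.mem_singleton_iff] at hx
          subst hx
          exact map_mem_grpRing k ρ (Subgroup.mem_sup_right (Subgroup.mem_zpowers y))
      rintro x (hx | hx)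
      · exact hle hx
      · rw [Set.mem_singleton_iff] at hx
        subst hx
        exact map_mem_grpRing k ρ
          (Subgroup.mem_sup_right (inv_mem (Subgroup.mem_zpowers y)))
  rw [heq]; exact hN2

end grpRing


end Pool.Agent.Polc
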