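import Pool.Agent.Polc.Defs

/-!
Basic facts on polycyclic groups (`MP_9e8505_al`, module PCB1): subgroups, quotients, countability,
chains of cyclic steps.
-/

set_option autoImplicit false

namespace Pool.Agent.Polc

open scoped commutatorElement

theorem PC.sub {G : Type} [Group G] (h : PC G) (H : Subgroup G) : PC H := by
  refine ⟨?_, ?_⟩
  · have := h.solv
    exact Group.isSolvable_of_isSolvable_injective (f := H.subtype) H.subtype_injective
  · intro K
    have h1 : Group.FG (K.map H.subtype) := (Group.fg_iff_subgroup_fg _).2 (h.fg _)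
    have e : K ≃* K.map H.subtype := K.equivMapOfInjective H.subtype H.subtype_injective
    rw [← Group.fg_iff_subgroup_fg]
    exact Group.fg_of_surjective (f := e.symm.toMonoidHom) e.symm.surjective

theorem PC.surj {G G' : Type} [Group G] [Group G'] (h : PC G) (f : G →* G')
    (hf : Function.Surjective f) : PC G' := by
  refine ⟨?_, ?_⟩
  · have := h.solv
    exact Group.isSolvable_of_surjective hf
  · intro K
    have h1 : Group.FG (K.comap f) := (Group.fg_iff_subgroup_fg _).2 (h.fg _)
    rw [← Group.fg_iff_subgroup_fg]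
    have h2 : Function.Surjective (f.subgroupComap K) := by
      rintro ⟨y, hy⟩
      obtain ⟨x, rfl⟩ := hf y
      exact ⟨⟨x, hy⟩, rfl⟩
    exact Group.fg_of_surjective h2

theorem PC.countable {G : Type} [Group G] (h : PC G) : Countable G := by
  have h1 : Group.FG G := Group.fg_def.2 (h.fg ⊤)
  obtain ⟨S, hS, φ, hφ⟩ := Group.fg_iff_exists_freeGroup_hom_surjective.1 h1
  have hS' : Countable S := hS.countable.to_subtype
  have : Countable (FreeGroup S) := by
    unfold FreeGroup
    infer_instance
  exact hφ.countable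

/-- elementary normality: it is enough to map `H` into itself by `g` and `g⁻¹` -/
theorem cstep_of {G : Type} [Group G] (H : Subgroup G) (g : G)
    (h1 : ∀ h ∈ H, g * h * g⁻¹ ∈ H) (h2 : ∀ h ∈ H, g⁻¹ * h * g ∈ H) :
    CStep H (H ⊔ Subgroup.zpowers g) := by
  refine ⟨g, fun h => ⟨h1 h, fun hh => ?_⟩, rfl⟩
  have := h2 _ hh
  have e : g⁻¹ * (g * h * g⁻¹) * g = h := by group
  rwa [e] at this

/-- abelian step -/
theorem cchain_abel {G : Type} [Group G] (A B : Subgroup G) (hB : B.FG)
    (hn : ∀ g ∈ B, ∀ a ∈ A, g * a * g⁻¹ ∈ A) (hc : ∀ g ∈ B, ∀ g' ∈ B, g * g' * g⁻¹ * g'⁻¹ ∈ A) :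
    CChain A (A ⊔ B) := by
  classical
  obtain ⟨S, rfl⟩ := hB
  have key : ∀ F : Finset G, F ⊆ S → CChain A (A ⊔ Subgroup.closure (F : Set G)) := by
    intro F
    induction F using Finset.induction_on with
    | empty =>
      intro _
      simp only [Finset.coe_empty, Subgroup.closure_empty, sup_bot_eq]
      exact Relation.ReflTransGen.refl
    | insert g F hg ih =>
      intro hF
      have hgS : g ∈ Subgroup.closure (S : Set G) :=
        Subgroup.subset_closure (hF (Finset.mem_insert_self _ _))
      have hFS : F ⊆ S := fun x hx => hF (Finset.mem_insert_of_mem hx)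
      have ih' := ih hFS
      have hstab : ∀ x ∈ Subgroup.closure (S : Set G),
          ∀ c ∈ A ⊔ Subgroup.closure (F : Set G), x * c * x⁻¹ ∈ A ⊔ Subgroup.closure (F : Set G) := by
        intro x hx
        have hle : A ⊔ Subgroup.closure (F : Set G) ≤
            (A ⊔ Subgroup.closure (F : Set G)).comap (MulAut.conj x).toMonoidHom := by
          refine sup_le ?_ ?_
          · intro a ha
            exact (le_sup_left : A ≤ _) (hn x hx a ha)
          · rw [Subgroup.closure_le]
            intro f hf
            have hf1 : f ∈ Subgroup.closure (S : Set G) := Subgroup.subset_closure (hFS hf)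
            have h1 : x * f * x⁻¹ * f⁻¹ ∈ A ⊔ Subgroup.closure (F : Set G) :=
              (le_sup_left : A ≤ _) (hc x hx f hf1)
            have h2 : f ∈ A ⊔ Subgroup.closure (F : Set G) :=
              (le_sup_right : Subgroup.closure (F : Set G) ≤ _) (Subgroup.subset_closure hf)
            have h3 := Subgroup.mul_mem _ h1 h2
            have e : x * f * x⁻¹ * f⁻¹ * f = x * f * x⁻¹ := by group
            rw [e] at h3
            exact h3
        intro c hc'
        exact hle hc'
      refine Relation.ReflTransGen.tail ih' ?_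
      have e : A ⊔ Subgroup.closure ((insert g F : Finset G) : Set G) =
          (A ⊔ Subgroup.closure (F : Set G)) ⊔ Subgroup.zpowers g := by
        rw [Finset.coe_insert, Set.insert_eq, Subgroup.closure_union, Subgroup.zpowers_eq_closure,
          sup_assoc, sup_comm (Subgroup.closure {g})]
      rw [e]
      refine cstep_of _ g (hstab g hgS) ?_
      intro h hh
      have := hstab g⁻¹ (Subgroup.inv_mem _ hgS) h hh
      simpa using this
  exact key S (Finset.Subset.refl _)

theorem PC.cchain {G : Type} [Group G] (h : PC G) (H K : Subgroup G) (hHK : H ≤ K)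
    (hn : ∀ k ∈ K, ∀ x ∈ H, k * x * k⁻¹ ∈ H) : CChain H K := by
  have hsolv : Group.IsSolvable K := (h.sub K).solv
  obtain ⟨n, hn0⟩ := hsolv.solvable
  let D : ℕ → Subgroup G := fun j => (derivedSeries K j).map K.subtype
  have hD0 : D 0 = K := by
    simp only [D, derivedSeries_zero]
    rw [← MonoidHom.range_eq_map, Subgroup.range_subtype]
  have hDn : D n = ⊥ := by
    simp only [D, hn0, Subgroup.map_bot]
  have hDle : ∀ j, D j ≤ K := by
    intro j x hx
    obtain ⟨y, _, rfl⟩ := hx
    exact y.2
  have hDanti : ∀ j, D (j + 1) ≤ D j := by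
    intro j
    exact Subgroup.map_mono (derivedSeries_antitone K (Nat.le_succ j))
  have hDnorm : ∀ j, ∀ k ∈ K, ∀ x ∈ D j, k * x * k⁻¹ ∈ D j := by
    rintro j k hk x ⟨y, hy, rfl⟩
    refine ⟨⟨k, hk⟩ * y * ⟨k, hk⟩⁻¹, (derivedSeries_normal K j).conj_mem y hy _, ?_⟩
    simp
  have hDcomm : ∀ j, ∀ x ∈ D j, ∀ x' ∈ D j, x * x' * x⁻¹ * x'⁻¹ ∈ D (j + 1) := by
    rintro j x ⟨y, hy, rfl⟩ x' ⟨y', hy', rfl⟩
    refine ⟨⁅y, y'⁆, ?_, ?_⟩
    · rw [derivedSeries_succ]
      exact Subgroup.commutator_mem_commutator hy hy'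
    · simp [commutatorElement_def]
  have hstep : ∀ j, CChain (H ⊔ D (j + 1)) (H ⊔ D j) := by
    intro j
    have h1 := cchain_abel (H ⊔ D (j + 1)) (D j) (h.fg _) ?_ ?_
    · have e : H ⊔ D (j + 1) ⊔ D j = H ⊔ D j := by
        rw [sup_assoc, sup_eq_right.2 (hDanti j)]
      rwa [e] at h1
    · intro g hg
      have hgK : g ∈ K := hDle j hg
      have hle : H ⊔ D (j + 1) ≤ (H ⊔ D (j + 1)).comap (MulAut.conj g).toMonoidHom := by
        refine sup_le ?_ ?_
        · intro a ha
          exact (le_sup_left : H ≤ _) (hn g hgK a ha)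
        · intro a ha
          exact (le_sup_right : D (j + 1) ≤ _) (hDnorm (j + 1) g hgK a ha)
      intro a ha
      exact hle ha
    · intro g hg g' hg'
      exact (le_sup_right : D (j + 1) ≤ _) (hDcomm j g hg g' hg')
  have hall : ∀ m, CChain (H ⊔ D m) (H ⊔ D 0) := by
    intro m
    induction m with
    | zero => exact Relation.ReflTransGen.refl
    | succ m ih => exact Relation.ReflTransGen.trans (hstep m) ih
  have := hall n
  rwa [hDn, hD0, sup_bot_eq, sup_eq_right.2 hHK] at this

theorem PC.cchain_bot {G : Type} [Group G] (h : PC G) (K : Subgroup G) : CChain ⊥ K := by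
  refine h.cchain ⊥ K bot_le ?_
  intro k _ x hx
  rw [Subgroup.mem_bot] at hx
  subst hx
  simp

end Pool.Agent.Polc
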