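import Mathlib
import Pool.Agent.Polc.Defs
import Pool.Agent.Polc.AN
import Pool.Agent.Polc.PCB1

/-!
# Module NOETH: finitely generated modules over polycyclic groups are noetherian (P. Hall)
-/

set_option autoImplicit false

namespace Pool.Agent.Polc

section mod
variable {G M : Type} [Group G] [AddCommGroup M] [DistribMulAction G M]

/-- the ring of operators on `M` generated by `H` -/
abbrev opRing (M : Type) [AddCommGroup M] [DistribMulAction G M] (H : Subgroup G) :
    Subring (AddMonoid.End M) := grpRing ⊥ (ac M) H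

theorem opRing_noeth {H : Subgroup G} (hc : CChain ⊥ H) : IsNoetherianRing (opRing M H) := by
  induction hc with
  | refl =>
    unfold opRing
    rw [grpRing_bot]
    have h0 : (⊥ : Subring (AddMonoid.End M)) = (Int.castRingHom (AddMonoid.End M)).range := by
      ext x
      rw [Subring.mem_bot, RingHom.mem_range]
      simp
    rw [h0]
    infer_instance
  | @tail K L _ hs ih =>
    obtain ⟨g, hg, rfl⟩ := hs
    have := ih
    refine isNoetherianRing_grpRing_step ⊥ (ac M) g ?_ ?_ ?_ ?_
    · intro a ha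
      obtain ⟨n, rfl⟩ := Subring.mem_bot.mp ha
      have : ac M g * (n : AddMonoid.End M) * ac M g⁻¹ = (n : AddMonoid.End M) := by
        rw [(Int.cast_commute n (ac M g)).symm.eq, mul_assoc, ← map_mul, mul_inv_cancel,
          map_one, mul_one]
      rw [this]
      exact ha
    · intro a ha
      obtain ⟨n, rfl⟩ := Subring.mem_bot.mp ha
      have : ac M g⁻¹ * (n : AddMonoid.End M) * ac M g = (n : AddMonoid.End M) := by
        rw [(Int.cast_commute n (ac M g⁻¹)).symm.eq, mul_assoc, ← map_mul, inv_mul_cancel,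
          map_one, mul_one]
      rw [this]
      exact ha
    · intro h hh
      exact (hg h).mp hh
    · intro h hh
      rw [hg]
      simpa [mul_assoc] using hh

theorem Stb.op {H : Subgroup G} {V : AddSubgroup M} (hV : Stb H V) {r : AddMonoid.End M}
    (hr : r ∈ opRing M H) : ∀ v ∈ V, r v ∈ V := by
  unfold opRing grpRing at hr
  induction hr using Subring.closure_induction with
  | mem s hs =>
    intro v hv
    rcases hs with hs | ⟨g, hg, rfl⟩
    · obtain ⟨n, rfl⟩ := Subring.mem_bot.mp hs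
      have : (n : AddMonoid.End M) v = n • v := by
        simp [AddMonoid.End.intCast_apply]
      rw [this]
      exact V.zsmul_mem hv n
    · exact hV g hg v hv
  | zero => intro v _; exact V.zero_mem
  | one => intro v hv; exact hv
  | add a b _ _ ha hb => intro v hv; exact V.add_mem (ha v hv) (hb v hv)
  | neg a _ ha => intro v hv; exact V.neg_mem (ha v hv)
  | mul a b _ _ ha hb => intro v hv; exact ha _ (hb v hv)

/-- stable subgroups are submodules over the operator ring -/
def Stb.toSub {H : Subgroup G} {V : AddSubgroup M} (hV : Stb H V) : Submodule (opRing M H) M where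
  carrier := V
  zero_mem' := V.zero_mem
  add_mem' := V.add_mem
  smul_mem' := fun r _ hv => hV.op r.2 _ hv

theorem Stb.mem_toSub {H : Subgroup G} {V : AddSubgroup M} (hV : Stb H V) {v : M} :
    v ∈ hV.toSub ↔ v ∈ V := Iff.rfl

theorem stb_sub {H : Subgroup G} (W : Submodule (opRing M H) M) : Stb H W.toAddSubgroup := by
  intro h hh v hv
  exact W.smul_mem (⟨ac M h, map_mem_grpRing ⊥ (ac M) hh⟩ : opRing M H) hv

theorem noeth_gspan_stb (H : Subgroup G) (F : Set M) : Stb H (gspan H F) := by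
  intro h hh v hv
  unfold gspan at hv ⊢
  induction hv using AddSubgroup.closure_induction with
  | mem x hx =>
    obtain ⟨k, hk, f, hf, rfl⟩ := hx
    exact AddSubgroup.subset_closure ⟨h * k, H.mul_mem hh hk, f, hf, (mul_smul h k f).symm⟩
  | zero => rw [smul_zero]; exact AddSubgroup.zero_mem _
  | add x y _ _ hx hy => rw [smul_add]; exact AddSubgroup.add_mem _ hx hy
  | neg x _ hx => rw [smul_neg]; exact AddSubgroup.neg_mem _ hx

theorem noeth_subset_gspan (H : Subgroup G) (F : Set M) : F ⊆ gspan H F := fun f hf =>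
  AddSubgroup.subset_closure ⟨1, H.one_mem, f, hf, (one_smul G f).symm⟩

theorem noeth_gspan_le {H : Subgroup G} {F : Set M} {V : AddSubgroup M} (hV : Stb H V)
    (hF : F ⊆ V) : gspan H F ≤ V := by
  refine (AddSubgroup.closure_le V).mpr ?_
  rintro m ⟨h, hh, f, hf, rfl⟩
  exact hV h hh f (hF hf)

theorem noeth_fgm_stb {H : Subgroup G} {V : AddSubgroup M} (hV : FGM H V) : Stb H V := by
  obtain ⟨F, _, rfl⟩ := hV
  exact noeth_gspan_stb H F

theorem noeth_gspan_eq_span (H : Subgroup G) (F : Set M) :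
    gspan H F = (Submodule.span (opRing M H) F).toAddSubgroup := by
  refine le_antisymm (noeth_gspan_le (stb_sub _) Submodule.subset_span) ?_
  have : Submodule.span (opRing M H) F ≤ (noeth_gspan_stb H F).toSub :=
    Submodule.span_le.mpr (noeth_subset_gspan H F)
  exact fun x hx => this hx

theorem toSub_fg {H : Subgroup G} {V : AddSubgroup M} (hV : Stb H V) :
    hV.toSub.FG ↔ FGM H V := by
  constructor
  · rintro ⟨F, hF⟩
    refine ⟨F, F.finite_toSet, ?_⟩
    rw [noeth_gspan_eq_span, hF]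
    rfl
  · rintro ⟨F, hF, rfl⟩
    refine Submodule.fg_def.mpr ⟨F, hF, ?_⟩
    apply SetLike.coe_injective
    have := noeth_gspan_eq_span H F
    have h2 : ((gspan H F : AddSubgroup M) : Set M) = (Submodule.span (opRing M H) F : Set M) := by
      rw [this]; rfl
    exact h2.symm

/-- version of `noeth` with an explicit chain -/
theorem noeth_of_chain {H : Subgroup G} (hc : CChain ⊥ H) {V V' : AddSubgroup M} (hV : FGM H V)
    (hs : Stb H V') (hle : V' ≤ V) : FGM H V' := by
  have := opRing_noeth (M := M) hc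
  have h1 : (noeth_fgm_stb hV).toSub.FG := (toSub_fg (noeth_fgm_stb hV)).mpr hV
  have h2 : IsNoetherian (opRing M H) (noeth_fgm_stb hV).toSub := isNoetherian_of_fg_of_noetherian _ h1
  have h3 : hs.toSub ≤ (noeth_fgm_stb hV).toSub := fun x hx => hle hx
  exact (toSub_fg hs).mp (isNoetherian_submodule.mp h2 _ h3)

theorem noeth_max_of_chain {H : Subgroup G} (hc : CChain ⊥ H) {V : AddSubgroup M} (hV : FGM H V)
    (P : AddSubgroup M → Prop) (hP : ∃ W, P W ∧ Stb H W ∧ W ≤ V) :
    ∃ W, (P W ∧ Stb H W ∧ W ≤ V) ∧ ∀ W', P W' → Stb H W' → W' ≤ V → W ≤ W' → W' = W := by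
  have := opRing_noeth (M := M) hc
  have h1 : (noeth_fgm_stb hV).toSub.FG := (toSub_fg (noeth_fgm_stb hV)).mpr hV
  have h2 : IsNoetherian (opRing M H) (noeth_fgm_stb hV).toSub := isNoetherian_of_fg_of_noetherian _ h1
  have hwf : WellFounded
      ((· > ·) : Submodule (opRing M H) (noeth_fgm_stb hV).toSub → Submodule (opRing M H) (noeth_fgm_stb hV).toSub →
        Prop) := wellFounded_gt
  -- the submodule of `V` attached to a stable `W`
  let c : Submodule (opRing M H) (noeth_fgm_stb hV).toSub → AddSubgroup M := fun W =>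
    (W.map (noeth_fgm_stb hV).toSub.subtype).toAddSubgroup
  have hc1 : ∀ W : AddSubgroup M, ∀ hW : Stb H W, W ≤ V →
      c (hW.toSub.comap (noeth_fgm_stb hV).toSub.subtype) = W := by
    intro W hW hWV
    ext x
    constructor
    · rintro ⟨y, hy, rfl⟩
      exact hy
    · intro hx
      exact ⟨⟨x, hWV hx⟩, hx, rfl⟩
  obtain ⟨W0, hW0, hW0s, hW0V⟩ := hP
  obtain ⟨W, hW, hmax⟩ := hwf.has_min {W | P (c W)}
    ⟨hW0s.toSub.comap (noeth_fgm_stb hV).toSub.subtype, by
      change P (c _)
      rw [hc1 W0 hW0s hW0V]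
      exact hW0⟩
  refine ⟨c W, ⟨hW, stb_sub _, ?_⟩, ?_⟩
  · rintro x ⟨y, _, rfl⟩
    exact y.2
  · intro W' hW' hs' hV' hle
    have h3 : ¬ (hs'.toSub.comap (noeth_fgm_stb hV).toSub.subtype > W) := by
      refine hmax _ ?_
      change P (c _)
      rw [hc1 W' hs' hV']
      exact hW'
    have h4 : W ≤ hs'.toSub.comap (noeth_fgm_stb hV).toSub.subtype := by
      intro y hy
      exact hle ⟨y, hy, rfl⟩
    have h5 : hs'.toSub.comap (noeth_fgm_stb hV).toSub.subtype = W := by
      by_contra hne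
      exact h3 (lt_of_le_of_ne h4 (Ne.symm hne))
    rw [← hc1 W' hs' hV', h5]

/-- Hall: finitely generated modules over polycyclic groups are noetherian -/
theorem noeth (h : PC G) (H : Subgroup G) (V V' : AddSubgroup M) (hV : FGM H V)
    (hs : Stb H V') (hle : V' ≤ V) : FGM H V' :=
  noeth_of_chain (h.cchain_bot H) hV hs hle

/-- maximal elements -/
theorem noeth_max (h : PC G) (H : Subgroup G) (V : AddSubgroup M) (hV : FGM H V)
    (P : AddSubgroup M → Prop) (hP : ∃ W, P W ∧ Stb H W ∧ W ≤ V) :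
    ∃ W, (P W ∧ Stb H W ∧ W ≤ V) ∧ ∀ W', P W' → Stb H W' → W' ≤ V → W ≤ W' → W' = W :=
  noeth_max_of_chain (h.cchain_bot H) hV P hP

/-- passing to a subgroup of finite index -/
theorem FGM.fi (H K : Subgroup G) (hHK : H ≤ K) (hi : H.relIndex K ≠ 0) (V : AddSubgroup M)
    (hV : FGM K V) : FGM H V := by
  obtain ⟨F, hF, rfl⟩ := hV
  have hfin : (H.subgroupOf K).FiniteIndex := ⟨hi⟩
  have : Finite (K ⧸ H.subgroupOf K) := inferInstance
  let T : Set G := Set.range fun q : K ⧸ H.subgroupOf K => (((Quotient.out q : K) : G))⁻¹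
  have hT : T.Finite := Set.finite_range _
  have hTK : ∀ t ∈ T, t ∈ K := by
    rintro t ⟨q, rfl⟩
    exact K.inv_mem (Quotient.out q : K).2
  have hTc : ∀ k ∈ K, ∃ h ∈ H, ∃ t ∈ T, k = h * t := by
    intro k hk
    let k' : K := ⟨k⁻¹, K.inv_mem hk⟩
    obtain ⟨h, hh⟩ := QuotientGroup.mk_out_eq_mul (H.subgroupOf K) k'
    refine ⟨((h : K) : G), h.2, _, ⟨(QuotientGroup.mk k' : K ⧸ H.subgroupOf K), rfl⟩, ?_⟩
    have e : ((Quotient.out (QuotientGroup.mk k' : K ⧸ H.subgroupOf K) : K) : G)
        = k⁻¹ * ((h : K) : G) := by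
      rw [hh]; rfl
    change k = ((h : K) : G) * (((Quotient.out (QuotientGroup.mk k' : K ⧸ H.subgroupOf K) : K)
      : G))⁻¹
    rw [e]
    group
  refine ⟨(fun p : G × M => p.1 • p.2) '' (T ×ˢ F), (hT.prod hF).image _, ?_⟩
  refine le_antisymm ?_ ?_
  · refine (AddSubgroup.closure_le _).mpr ?_
    rintro m ⟨k, hk, f, hf, rfl⟩
    obtain ⟨h, hh, t, ht, rfl⟩ := hTc k hk
    rw [mul_smul]
    exact AddSubgroup.subset_closure ⟨h, hh, t • f, ⟨(t, f), ⟨ht, hf⟩, rfl⟩, rfl⟩
  · refine noeth_gspan_le (fun h hh v hv => noeth_gspan_stb K F h (hHK hh) v hv) ?_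
    rintro m ⟨⟨t, f⟩, ⟨ht, hf⟩, rfl⟩
    exact noeth_gspan_stb K F t (hTK t ht) f (noeth_subset_gspan K F hf)

end mod

end Pool.Agent.Polc
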