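import Pool.Agent.Polc.Defs
import Pool.Agent.Polc.NOETH

/-!
Modules ALGU and LP of the proof of `MP_9e8505_al`: central algebraic elements have finite order
modulo `p`, and the submodule of vectors which are periodic modulo `p`.
-/

set_option autoImplicit false

namespace Pool.Agent.Polc

section mod
variable {G M : Type} [Group G] [AddCommGroup M] [DistribMulAction G M]

namespace AlgULp

/-- `m` lies in `p M` -/
def InP (M : Type) [AddCommGroup M] (p : ℕ) : AddSubgroup M where
  carrier := {m | ∃ m', m = p • m'}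
  zero_mem' := ⟨0, by simp⟩
  add_mem' := by
    rintro _ _ ⟨a, rfl⟩ ⟨b, rfl⟩
    exact ⟨a + b, by rw [smul_add]⟩
  neg_mem' := by
    rintro _ ⟨a, rfl⟩
    exact ⟨-a, by rw [smul_neg]⟩

theorem mem_InP {p : ℕ} {m : M} : m ∈ InP M p ↔ ∃ m', m = p • m' := Iff.rfl

theorem smul_nsmul' (g : G) (n : ℕ) (m : M) : g • (n • m) = n • (g • m) :=
  map_nsmul (ac M g) n m

theorem end_mul (f g : AddMonoid.End M) (m : M) : (f * g) m = f (g m) := rfl

theorem end_add (f g : AddMonoid.End M) (m : M) : (f + g) m = f m + g m := rfl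

theorem C_dvd_of_map {p : ℕ} {f : Polynomial ℤ}
    (hf : f.map (Int.castRingHom (ZMod p)) = 0) : Polynomial.C (p : ℤ) ∣ f := by
  rw [Polynomial.C_dvd_iff_dvd_coeff]
  intro i
  have h := congrArg (fun q => q.coeff i) hf
  simp only [Polynomial.coeff_map, Polynomial.coeff_zero] at h
  exact (ZMod.intCast_zmod_eq_zero_iff_dvd (f.coeff i) p).1 h

theorem InP_smul {p : ℕ} (g : G) {m : M} (hm : m ∈ InP M p) : g • m ∈ InP M p := by
  obtain ⟨m', rfl⟩ := hm
  exact ⟨g • m', smul_nsmul' g p m'⟩

theorem InP_self {p : ℕ} (m : M) : p • m ∈ InP M p := ⟨m, rfl⟩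

/-- if `W` is stable under `g` and contains `g m - m` then it contains `g^k m - m` -/
theorem pow_smul_sub_mem (W : AddSubgroup M) (g : G) (hW : ∀ w ∈ W, g • w ∈ W) (m : M)
    (hm : g • m - m ∈ W) (k : ℕ) : g ^ k • m - m ∈ W := by
  induction k with
  | zero => simp
  | succ k ih =>
    have h1 : g ^ (k + 1) • m - m = g • (g ^ k • m - m) + (g • m - m) := by
      rw [pow_succ', mul_smul, smul_sub]; abel
    rw [h1]
    exact W.add_mem (hW _ ih) hm

theorem step_aux (c : G) (A m t : M) (j : ℕ) (h : c • m = t + m) :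
    c • A - m - (j + 1) • t = c • (A - m - j • t) + j • (c • t - t) := by
  rw [smul_sub, smul_sub, smul_nsmul', nsmul_sub, h, add_nsmul, one_nsmul]
  abel

end AlgULp

open AlgULp

/-- `L_p = {m : some b^k, uniformly in b ∈ B, fixes m mod p}` : no further periodic vectors -/
theorem lp (h : PC G) (hfg : FGM (⊤ : Subgroup G) (⊤ : AddSubgroup M)) (B : Subgroup G)
    (hB : B.Normal) (p : ℕ) (hp : p.Prime) :
    ∃ L : AddSubgroup M, (∀ m, m ∈ L ↔ ∃ k, 0 < k ∧ ∀ b ∈ B, ∃ m', b ^ k • m - m = p • m') ∧
      Stb (⊤ : Subgroup G) L ∧ ∀ (m : M) (k : ℕ), 0 < k → (∀ b ∈ B, b ^ k • m - m ∈ L) → m ∈ L := by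
  classical
  -- uniform enlargement of exponents
  have enl : ∀ (m : M) (k k' : ℕ), (∀ b ∈ B, b ^ k • m - m ∈ InP M p) →
      ∀ b ∈ B, b ^ (k * k') • m - m ∈ InP M p := by
    intro m k k' hk b hb
    rw [pow_mul]
    exact pow_smul_sub_mem _ _ (fun w hw => InP_smul _ hw) _ (hk b hb) k'
  let L : AddSubgroup M :=
    { carrier := {m | ∃ k, 0 < k ∧ ∀ b ∈ B, b ^ k • m - m ∈ InP M p}
      zero_mem' := ⟨1, one_pos, fun b _ => by simp⟩
      add_mem' := by
        rintro a a' ⟨k, hk, h1⟩ ⟨k', hk', h2⟩
        refine ⟨k * k', Nat.mul_pos hk hk', fun b hb => ?_⟩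
        have h3 := enl a k k' h1 b hb
        have h4 := enl a' k' k h2 b hb
        rw [mul_comm k' k] at h4
        have h5 : b ^ (k * k') • (a + a') - (a + a') =
            (b ^ (k * k') • a - a) + (b ^ (k * k') • a' - a') := by
          rw [smul_add]; abel
        rw [h5]
        exact (InP M p).add_mem h3 h4
      neg_mem' := by
        rintro a ⟨k, hk, h1⟩
        refine ⟨k, hk, fun b hb => ?_⟩
        have h5 : b ^ k • (-a) - (-a) = -(b ^ k • a - a) := by
          rw [smul_neg]; abel
        rw [h5]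
        exact (InP M p).neg_mem (h1 b hb) }
  have hL : ∀ m, m ∈ L ↔ ∃ k, 0 < k ∧ ∀ b ∈ B, b ^ k • m - m ∈ InP M p := fun m => Iff.rfl
  -- conjugation
  have conj : ∀ (g : G) (m : M) (k : ℕ), (∀ b ∈ B, b ^ k • m - m ∈ InP M p) →
      ∀ b ∈ B, b ^ k • g • m - g • m ∈ InP M p := by
    intro g m k hk b hb
    have h1 : g⁻¹ * b * g ∈ B := by
      have := hB.conj_mem b hb g⁻¹
      simpa using this
    have h2 := InP_smul g (hk _ h1)
    have h3 : (g⁻¹ * b * g) ^ k = g⁻¹ * b ^ k * g := by
      have := conj_pow (a := g⁻¹) (b := b) (i := k)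
      simpa using this
    have h4 : g • ((g⁻¹ * b * g) ^ k • m - m) = b ^ k • g • m - g • m := by
      rw [h3, smul_sub, ← mul_smul, ← mul_smul]
      congr 2
      group
    rwa [h4] at h2
  have hstb : Stb (⊤ : Subgroup G) L := by
    rintro g - m ⟨k, hk, h1⟩
    exact ⟨k, hk, conj g m k h1⟩
  refine ⟨L, ?_, hstb, ?_⟩
  · intro m
    rw [hL]
    constructor
    · rintro ⟨k, hk, h1⟩
      exact ⟨k, hk, fun b hb => h1 b hb⟩
    · rintro ⟨k, hk, h1⟩
      exact ⟨k, hk, fun b hb => h1 b hb⟩
  · intro m k hk hmk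
    obtain ⟨F, hF, hLF⟩ := noeth h ⊤ ⊤ L hfg hstb le_top
    -- uniform exponent on `L`
    have hFk : ∃ k0, 0 < k0 ∧ ∀ f ∈ F, ∀ b ∈ B, b ^ k0 • f - f ∈ InP M p := by
      have hF' : ∀ f ∈ F, f ∈ L := by
        intro f hf
        rw [hLF]
        exact AddSubgroup.subset_closure ⟨1, trivial, f, hf, by simp⟩
      clear hLF
      induction F, hF using Set.Finite.induction_on with
      | empty => exact ⟨1, one_pos, fun f hf => absurd hf (Set.notMem_empty f)⟩
      | @insert a S _ _ ih =>
        obtain ⟨k0, hk0, h0⟩ := ih (fun f hf => hF' f (Set.mem_insert_of_mem _ hf))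
        obtain ⟨k1, hk1, h1⟩ := hF' a (Set.mem_insert _ _)
        refine ⟨k0 * k1, Nat.mul_pos hk0 hk1, fun f hf b hb => ?_⟩
        rcases Set.mem_insert_iff.1 hf with rfl | hf
        · rw [mul_comm]
          exact enl _ k1 k0 h1 b hb
        · exact enl f k0 k1 (h0 f hf) b hb
    obtain ⟨k0, hk0, h0⟩ := hFk
    have hunif : ∀ l ∈ L, ∀ b ∈ B, b ^ k0 • l - l ∈ InP M p := by
      intro l hl
      rw [hLF] at hl
      refine AddSubgroup.closure_induction (p := fun l _ => ∀ b ∈ B, b ^ k0 • l - l ∈ InP M p)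
        ?_ ?_ ?_ ?_ hl
      · rintro _ ⟨g, -, f, hf, rfl⟩
        exact conj g f k0 (h0 f hf)
      · intro b _
        simp
      · intro x y _ _ hx hy b hb
        have h5 : b ^ k0 • (x + y) - (x + y) = (b ^ k0 • x - x) + (b ^ k0 • y - y) := by
          rw [smul_add]; abel
        rw [h5]
        exact (InP M p).add_mem (hx b hb) (hy b hb)
      · intro x _ hx b hb
        have h5 : b ^ k0 • (-x) - (-x) = -(b ^ k0 • x - x) := by
          rw [smul_neg]; abel
        rw [h5]
        exact (InP M p).neg_mem (hx b hb)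
    refine ⟨k * k0 * p, Nat.mul_pos (Nat.mul_pos hk hk0) hp.pos, fun b hb => ?_⟩
    have hbk : b ^ k ∈ B := B.pow_mem hb k
    set c : G := b ^ (k * k0) with hc
    have hc' : c = (b ^ k) ^ k0 := by rw [hc, pow_mul]
    set t : M := c • m - m with ht
    have htL : t ∈ L := by
      rw [ht, hc']
      exact pow_smul_sub_mem L _ (fun w hw => hstb _ trivial w hw) m (hmk b hb) k0
    have hct : c • t - t ∈ InP M p := by
      rw [hc']
      exact hunif t htL _ hbk
    have key : ∀ j : ℕ, c ^ j • m - m - j • t ∈ InP M p := by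
      intro j
      induction j with
      | zero => simp
      | succ j ih =>
        have h6 := step_aux c (c ^ j • m) m t j (by rw [ht]; abel)
        rw [pow_succ', mul_smul, h6]
        exact (InP M p).add_mem (InP_smul _ ih) ((InP M p).nsmul_mem hct j)
    have h7 := (InP M p).add_mem (key p) (InP_self t)
    rw [show b ^ (k * k0 * p) = c ^ p by rw [hc, ← pow_mul]]
    simpa using h7

/-- central algebraic elements have finite order modulo `p` -/
theorem algu (h : PC G) (c : ℕ) (hc : Char c M) (U : Subgroup G)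
    (hcen : ∀ u ∈ U, ∀ g : G, g * u = u * g) (halg : ∀ u ∈ U, ∀ m : M, Alg c u m)
    (hfg : FGM (⊤ : Subgroup G) (⊤ : AddSubgroup M)) (p : ℕ) (hp : p.Prime)
    (hpc : c = 0 ∨ p = c) :
    ∃ k, 0 < k ∧ ∀ u ∈ U, ∀ m : M, ∃ m' : M, u ^ k • m - m = p • m' := by
  classical
  have := Fact.mk hp
  -- a polynomial killing `M`, nonzero modulo `p`
  have hpoly : ∀ u ∈ U, ∃ f : Polynomial ℤ, f.map (Int.castRingHom (ZMod p)) ≠ 0 ∧
      ∀ m : M, (Polynomial.aeval (ac M u) f : AddMonoid.End M) m = 0 := by
    intro u hu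
    obtain ⟨F, hF, hMF⟩ := hfg
    -- a polynomial killing the generators
    have h1 : ∃ f : Polynomial ℤ, f.map (Int.castRingHom (ZMod c)) ≠ 0 ∧
        ∀ m ∈ F, (Polynomial.aeval (ac M u) f : AddMonoid.End M) m = 0 := by
      clear hMF
      induction F, hF using Set.Finite.induction_on with
      | empty =>
        refine ⟨1, ?_, fun m hm => absurd hm (Set.notMem_empty m)⟩
        rw [Polynomial.map_one]
        rcases hc with ⟨rfl, -⟩ | ⟨h2, -⟩
        · exact one_ne_zero
        · have := Fact.mk h2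
          exact one_ne_zero
      | @insert a S _ _ ih =>
        obtain ⟨f, hf, hfS⟩ := ih
        obtain ⟨g, hg, hga⟩ := halg u hu a
        refine ⟨f * g, ?_, ?_⟩
        · rw [Polynomial.map_mul]
          rcases hc with ⟨rfl, -⟩ | ⟨h2, -⟩
          · exact mul_ne_zero hf hg
          · have := Fact.mk h2
            exact mul_ne_zero hf hg
        · intro m hm
          rcases Set.mem_insert_iff.1 hm with rfl | hm
          · rw [map_mul, end_mul, hga, map_zero]
          · rw [mul_comm, map_mul, end_mul, hfS m hm, map_zero]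
    obtain ⟨f, hf, hfF⟩ := h1
    -- it kills everything
    have hcomm : ∀ g : G, Commute (ac M g) (Polynomial.aeval (ac M u) f) := by
      intro g
      refine Polynomial.induction_on' (motive := fun f =>
        Commute (ac M g) (Polynomial.aeval (ac M u) f)) f ?_ ?_
      · intro a b ha hb
        rw [map_add]
        exact ha.add_right hb
      · intro n a
        rw [Polynomial.aeval_monomial]
        refine Commute.mul_right (Algebra.commutes' (R := ℤ) a (ac M g)).symm ?_
        refine Commute.pow_right ?_ n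
        change ac M g * ac M u = ac M u * ac M g
        rw [← map_mul, ← map_mul, hcen u hu g]
    have h2 : ∀ m : M, (Polynomial.aeval (ac M u) f : AddMonoid.End M) m = 0 := by
      intro m
      have hm : m ∈ gspan (⊤ : Subgroup G) F := by rw [← hMF]; trivial
      refine AddSubgroup.closure_induction
        (p := fun m _ => (Polynomial.aeval (ac M u) f : AddMonoid.End M) m = 0) ?_ ?_ ?_ ?_ hm
      · rintro _ ⟨g, -, w, hw, rfl⟩
        have h3 := congrArg (fun φ : AddMonoid.End M => φ w) (hcomm g).eq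
        simp only [end_mul] at h3
        rw [hfF w hw, map_zero] at h3
        exact h3.symm
      · exact map_zero _
      · intro x y _ _ hx hy
        rw [map_add, hx, hy, add_zero]
      · intro x _ hx
        rw [map_neg, hx, neg_zero]
    rcases hpc with rfl | rfl
    · -- characteristic zero: divide by the content
      rcases hc with ⟨-, htf⟩ | ⟨h3, -⟩
      · have hf0 : f ≠ 0 := by
          rintro rfl
          exact hf (Polynomial.map_zero _)
        refine ⟨f.primPart, ?_, ?_⟩
        · intro h4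
          have h5 : Polynomial.C (p : ℤ) ∣ f.primPart := C_dvd_of_map h4
          have h6 := (f.isPrimitive_primPart) _ h5
          have h7 : IsUnit ((p : ℤ)) := h6
          exact (Nat.prime_iff_prime_int.1 hp).not_isUnit h7
        · intro m
          have h4 := h2 m
          rw [f.eq_C_content_mul_primPart, map_mul, Polynomial.aeval_C,
            end_mul] at h4
          have h5 : f.content ≠ 0 := by
            rwa [Ne, Polynomial.content_eq_zero_iff]
          set y : M := (Polynomial.aeval (ac M u) f.primPart : AddMonoid.End M) m with hy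
          have h6 : (algebraMap ℤ (AddMonoid.End M) f.content) y = f.content • y := by
            simp
          rw [h6] at h4
          have h7 : f.content.natAbs • y = 0 := by
            rcases Int.natAbs_eq f.content with h8 | h8
            · rw [h8, natCast_zsmul] at h4
              exact h4
            · rw [h8, neg_smul, natCast_zsmul, neg_eq_zero] at h4
              exact h4
          exact htf _ _ (Int.natAbs_pos.2 h5) h7
      · exact absurd h3 Nat.not_prime_zero
    · exact ⟨f, hf, h2⟩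
  -- finite order modulo `p`
  have hord : ∀ u ∈ U, ∃ k, 0 < k ∧ ∀ m : M, u ^ k • m - m ∈ InP M p := by
    intro u hu
    obtain ⟨f, hf, hfM⟩ := hpoly u hu
    set fb : Polynomial (ZMod p) := f.map (Int.castRingHom (ZMod p)) with hfb
    have hfin : Finite (AdjoinRoot fb) := by
      have : Module.Finite (ZMod p) (AdjoinRoot fb) := (AdjoinRoot.powerBasis hf).finite
      exact Module.finite_of_finite (ZMod p)
    obtain ⟨i, j, hij, hroot⟩ :=
      Finite.exists_ne_map_eq_of_infinite (fun i : ℕ => (AdjoinRoot.root fb) ^ i)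
    wlog hlt : i < j generalizing i j
    · exact this j i hij.symm hroot.symm (lt_of_le_of_ne (not_lt.1 hlt) hij.symm)
    have hdvd : fb ∣ Polynomial.X ^ j - Polynomial.X ^ i := by
      rw [← AdjoinRoot.mk_eq_zero, map_sub, map_pow, map_pow, AdjoinRoot.mk_X]
      rw [hroot, sub_self]
    obtain ⟨gb, hgb⟩ := hdvd
    obtain ⟨g, rfl⟩ := Polynomial.map_surjective (Int.castRingHom (ZMod p))
      (ZMod.intCast_surjective) gb
    have hdvd2 : Polynomial.C (p : ℤ) ∣ (Polynomial.X ^ j - Polynomial.X ^ i - f * g) := by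
      apply C_dvd_of_map
      rw [Polynomial.map_sub, Polynomial.map_sub, Polynomial.map_mul, Polynomial.map_pow,
        Polynomial.map_pow, Polynomial.map_X, ← hfb, hgb, sub_self]
    obtain ⟨r, hr⟩ := hdvd2
    have hr' : (Polynomial.X ^ j : Polynomial ℤ) = Polynomial.X ^ i + g * f +
        Polynomial.C (p : ℤ) * r := by
      rw [← hr]; ring
    refine ⟨j - i, Nat.sub_pos_of_lt hlt, fun m => ?_⟩
    have h3 := congrArg (fun q : Polynomial ℤ =>
      (Polynomial.aeval (ac M u) q : AddMonoid.End M) m) hr'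
    simp only [map_add, map_mul, map_pow, Polynomial.aeval_X, end_mul,
      end_add, Polynomial.aeval_C] at h3
    rw [hfM m, map_zero, add_zero] at h3
    have h4 : (ac M u ^ j) m = u ^ j • m := by
      rw [← map_pow]; rfl
    have h5 : (ac M u ^ i) m = u ^ i • m := by
      rw [← map_pow]; rfl
    rw [h4, h5] at h3
    set y : M := (Polynomial.aeval (ac M u) r : AddMonoid.End M) m with hy
    have h6 : (algebraMap ℤ (AddMonoid.End M) (p : ℤ)) y = p • y := by
      simp
    rw [h6] at h3
    have h7 : u ^ (j - i) • m - m = (u ^ i)⁻¹ • (p • y) := by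
      have h8 : p • y = u ^ i • (u ^ (j - i) • m - m) := by
        rw [smul_sub, ← mul_smul, ← pow_add, Nat.add_sub_cancel' hlt.le, h3]
        abel
      rw [h8, inv_smul_smul]
    rw [h7]
    exact InP_smul _ (InP_self y)
  -- uniformity
  obtain ⟨S, hS⟩ := h.fg U
  have hSU : ∀ s ∈ S, s ∈ U := fun s hs => by
    rw [← hS]; exact Subgroup.subset_closure hs
  have hk : ∃ k, 0 < k ∧ ∀ s ∈ S, ∀ m : M, s ^ k • m - m ∈ InP M p := by
    clear hS
    induction S using Finset.induction_on with
    | empty => exact ⟨1, one_pos, fun s hs => absurd hs (Finset.notMem_empty s)⟩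
    | @insert a S _ ih =>
      obtain ⟨k0, hk0, h0⟩ := ih (fun s hs => hSU s (Finset.mem_insert_of_mem hs))
      obtain ⟨k1, hk1, h1⟩ := hord a (hSU a (Finset.mem_insert_self _ _))
      refine ⟨k0 * k1, Nat.mul_pos hk0 hk1, fun s hs m => ?_⟩
      rcases Finset.mem_insert.1 hs with rfl | hs
      · rw [mul_comm, pow_mul]
        exact pow_smul_sub_mem _ _ (fun w hw => InP_smul _ hw) _ (h1 m) k0
      · rw [pow_mul]
        exact pow_smul_sub_mem _ _ (fun w hw => InP_smul _ hw) _ (h0 s hs m) k1
  obtain ⟨k, hk, hkS⟩ := hk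
  refine ⟨k, hk, ?_⟩
  intro u hu
  have hu' : u ∈ Subgroup.closure (S : Set G) := by rw [hS]; exact hu
  suffices hh : u ∈ U ∧ ∀ m : M, u ^ k • m - m ∈ InP M p from fun m => hh.2 m
  refine Subgroup.closure_induction
    (p := fun u _ => u ∈ U ∧ ∀ m : M, u ^ k • m - m ∈ InP M p) ?_ ?_ ?_ ?_ hu'
  · intro s hs
    exact ⟨hSU s hs, hkS s hs⟩
  · refine ⟨U.one_mem, fun m => ?_⟩
    simp
  · rintro a b _ _ ⟨ha, ha'⟩ ⟨hb, hb'⟩
    refine ⟨U.mul_mem ha hb, fun m => ?_⟩
    have h1 : (a * b) ^ k = a ^ k * b ^ k := (show Commute a b from hcen b hb a).mul_pow k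
    have h2 : (a * b) ^ k • m - m = a ^ k • (b ^ k • m - m) + (a ^ k • m - m) := by
      rw [h1, mul_smul, smul_sub]; abel
    rw [h2]
    exact (InP M p).add_mem (InP_smul _ (hb' m)) (ha' m)
  · rintro a _ ⟨ha, ha'⟩
    refine ⟨U.inv_mem ha, fun m => ?_⟩
    have h2 : a⁻¹ ^ k • m - m = -((a ^ k)⁻¹ • (a ^ k • m - m)) := by
      rw [smul_sub, inv_smul_smul, inv_pow]; abel
    rw [h2]
    exact (InP M p).neg_mem (InP_smul _ (ha' m))

end mod

end Pool.Agent.Polc
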