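import Pool.Agent.Polc.Defs

/-!
# Elementary facts on `dpow`
-/

set_option autoImplicit false

namespace Pool.Agent.Polc

section mod
variable {G M : Type} [Group G] [AddCommGroup M] [DistribMulAction G M]

theorem dmul_mem (H : Subgroup G) (V : AddSubgroup M) {h : G} (hh : h ∈ H) {v : M} (hv : v ∈ V) :
    h • v - v ∈ dmul H V :=
  AddSubgroup.subset_closure ⟨h, hh, v, hv, rfl⟩

theorem dmul_stb (H : Subgroup G) (V : AddSubgroup M) : Stb H (dmul H V) := by
  intro h hh m hm
  induction hm using AddSubgroup.closure_induction with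
  | mem x hx =>
    obtain ⟨k, hk, v, hv, rfl⟩ := hx
    have h1 : h • (k • v - v) = ((h * k) • v - v) - (h • v - v) := by
      rw [smul_sub, mul_smul]; abel
    rw [h1]
    exact sub_mem (dmul_mem H V (H.mul_mem hh hk) hv) (dmul_mem H V hh hv)
  | zero => rw [smul_zero]; exact zero_mem _
  | add x y _ _ hx hy => rw [smul_add]; exact add_mem hx hy
  | neg x _ hx => rw [smul_neg]; exact neg_mem hx

theorem dmul_le (H : Subgroup G) (V : AddSubgroup M) (hV : Stb H V) : dmul H V ≤ V := by
  refine (AddSubgroup.closure_le _).2 ?_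
  rintro _ ⟨h, hh, v, hv, rfl⟩
  exact sub_mem (hV h hh v hv) hv

theorem dmul_mono (H H' : Subgroup G) (V V' : AddSubgroup M) (hH : H ≤ H') (hV : V ≤ V') :
    dmul H V ≤ dmul H' V' := by
  refine (AddSubgroup.closure_le _).2 ?_
  rintro _ ⟨h, hh, v, hv, rfl⟩
  exact dmul_mem H' V' (hH hh) (hV hv)

theorem dpow_stb (H : Subgroup G) (V : AddSubgroup M) (hV : Stb H V) (n : ℕ) :
    Stb H (dpow H n V) := by
  cases n with
  | zero => exact hV
  | succ n => exact dmul_stb H _

theorem dpow_le (H : Subgroup G) (V : AddSubgroup M) (hV : Stb H V) (n : ℕ) :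
    dpow H n V ≤ V := by
  induction n with
  | zero => exact le_rfl
  | succ n ih => exact (dmul_le H _ (dpow_stb H V hV n)).trans ih

theorem dpow_anti (H : Subgroup G) (V : AddSubgroup M) (hV : Stb H V) (n k : ℕ) (hnk : n ≤ k) :
    dpow H k V ≤ dpow H n V := by
  induction k, hnk using Nat.le_induction with
  | base => exact le_rfl
  | succ k _ ih => exact (dmul_le H _ (dpow_stb H V hV k)).trans ih

theorem dpow_mono (H H' : Subgroup G) (V V' : AddSubgroup M) (hH : H ≤ H') (hV : V ≤ V') (n : ℕ) :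
    dpow H n V ≤ dpow H' n V' := by
  induction n with
  | zero => exact hV
  | succ n ih => exact dmul_mono H H' _ _ hH ih

theorem dpow_add (H : Subgroup G) (V : AddSubgroup M) (a b : ℕ) :
    dpow H a (dpow H b V) = dpow H (a + b) V := by
  induction a with
  | zero => rw [Nat.zero_add]; rfl
  | succ a ih =>
    rw [Nat.succ_add]
    show dmul H (dpow H a (dpow H b V)) = dmul H (dpow H (a + b) V)
    rw [ih]

/-- equivariance: `γ Δ(H)^n V = Δ(H)^n (γ V)` for `H` normal -/
theorem dpow_smul (H : Subgroup G) (hH : H.Normal) (γ : G) (n : ℕ) (V V' : AddSubgroup M)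
    (hVV' : ∀ v ∈ V, γ • v ∈ V') (m : M) (hm : m ∈ dpow H n V) : γ • m ∈ dpow H n V' := by
  induction n generalizing m with
  | zero => exact hVV' m hm
  | succ n ih =>
    have hm' : m ∈ dmul H (dpow H n V) := hm
    show γ • m ∈ dmul H (dpow H n V')
    induction hm' using AddSubgroup.closure_induction with
    | mem x hx =>
      obtain ⟨h, hh, v, hv, rfl⟩ := hx
      have h1 : γ • (h • v - v) = (γ * h * γ⁻¹) • (γ • v) - γ • v := by
        rw [smul_sub, mul_smul, mul_smul, inv_smul_smul]
      rw [h1]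
      exact dmul_mem H _ (hH.conj_mem h hh γ) (ih v hv)
    | zero => rw [smul_zero]; exact zero_mem _
    | add x y hx' hy' hx hy => rw [smul_add]; exact add_mem (hx hx') (hy hy')
    | neg x hx' hx => rw [smul_neg]; exact neg_mem (hx hx')

theorem dpow_sub_one_pow (H : Subgroup G) (V : AddSubgroup M) {w : G} (hw : w ∈ H) (n : ℕ) {v : M}
    (hv : v ∈ V) : ((ac M w - 1) ^ n) v ∈ dpow H n V := by
  induction n with
  | zero =>
    rw [pow_zero]
    exact hv
  | succ n ih =>
    rw [pow_succ']
    have h1 : ((ac M w - 1) * (ac M w - 1) ^ n) v =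
        w • (((ac M w - 1) ^ n) v) - ((ac M w - 1) ^ n) v := rfl
    rw [h1]
    exact dmul_mem H _ hw ih

theorem sub_one_pow_char (p : ℕ) (hp : p.Prime) (hM : ∀ m : M, p • m = 0) (a : AddMonoid.End M)
    (s : ℕ) : (a - 1) ^ (p ^ s) = a ^ (p ^ s) - 1 := by
  rcases subsingleton_or_nontrivial M with hs | hn
  · ext m
    exact Subsingleton.elim _ _
  · have hp0 : (p : AddMonoid.End M) = 0 := by
      ext m
      exact hM m
    have hnt : Nontrivial (AddMonoid.End M) := by
      obtain ⟨x, hx⟩ := exists_ne (0 : M)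
      refine ⟨1, 0, fun h => hx ?_⟩
      exact DFunLike.congr_fun h x
    have hchar : CharP (AddMonoid.End M) p := (CharP.charP_iff_prime_eq_zero hp).2 hp0
    have hfact : Fact p.Prime := ⟨hp⟩
    have := sub_pow_char_pow_of_commute p s (Commute.one_right a)
    rw [this, one_pow]

/-- `v ^ (p^s) - 1 ∈ Δ(H)^(p^s)` in characteristic `p` -/
theorem dpow_pow (p : ℕ) (hp : p.Prime) (hM : ∀ m : M, p • m = 0) (H : Subgroup G)
    (V : AddSubgroup M) (hV : Stb H V) (s : ℕ) (g : G)
    (hg : g ∈ Subgroup.closure {k | ∃ v ∈ H, k = v ^ (p ^ s)}) (v : M) (hv : v ∈ V) :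
    g • v - v ∈ dpow H (p ^ s) V := by
  have hle : Subgroup.closure {k | ∃ v ∈ H, k = v ^ (p ^ s)} ≤ H := by
    refine (Subgroup.closure_le _).2 ?_
    rintro _ ⟨w, hw, rfl⟩
    exact H.pow_mem hw _
  have hst := dpow_stb H V hV (p ^ s)
  induction hg using Subgroup.closure_induction generalizing v with
  | mem x hx =>
    obtain ⟨w, hw, rfl⟩ := hx
    have h1 := dpow_sub_one_pow H V hw (p ^ s) hv
    rw [sub_one_pow_char p hp hM, ← map_pow] at h1
    exact h1
  | one => rw [one_smul, sub_self]; exact zero_mem _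
  | mul x y hx' hy' hx hy =>
    have h1 : (x * y) • v - v = x • (y • v - v) + (x • v - v) := by
      rw [smul_sub, mul_smul]; abel
    rw [h1]
    exact add_mem (hst x (hle hx') _ (hy v hv)) (hx v hv)
  | inv x hx' hx =>
    have h1 : x⁻¹ • v - v = -(x⁻¹ • (x • v - v)) := by
      rw [smul_sub, inv_smul_smul]; abel
    rw [h1]
    exact neg_mem (hst x⁻¹ (H.inv_mem (hle hx')) _ (hx v hv))

end mod

end Pool.Agent.Polc
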