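import Mathlib
import Pool.Agent.Polc.Defs

/-!
# From `∀ n, IH n` to stunted + eremitic submodules (MP_9e8505_al, S02491)
-/

set_option autoImplicit false

namespace Pool.Agent.Polc

section ded

variable {G M : Type} [Group G] [AddCommGroup M] [DistribMulAction G M]

/-- the commutator operator -/
theorem ac_sub_one_apply (x : G) (m : M) : (ac M x - 1) m = x • m - m := rfl

theorem ac_comm (x : G) (n k : ℕ) :
    Commute (ac M (x ^ n) - 1) (ac M (x ^ k) - 1) := by
  have h : Commute (ac M (x ^ n)) (ac M (x ^ k)) := by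
    rw [Commute, SemiconjBy, ← map_mul, ← map_mul, ← pow_add, ← pow_add, add_comm]
  exact (h.sub_right (Commute.one_right _)).sub_left
    ((Commute.one_left _).sub_right (Commute.one_left _))

/-- `z - 1` divides `z ^ n - 1`. -/
theorem end_geom (z : AddMonoid.End M) (n : ℕ) :
    z ^ n - 1 = (∑ i ∈ Finset.range n, z ^ i) * (z - 1) := (geom_sum_mul z n).symm

/-- In `End M`, `z ^ n - 1 = (n + (z - 1) * g) * (z - 1)`, with everything commuting. -/
theorem end_expand (z : AddMonoid.End M) (n : ℕ) :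
    ∃ g : AddMonoid.End M, Commute g z ∧
      z ^ n - 1 = ((n : AddMonoid.End M) + g * (z - 1)) * (z - 1) := by
  induction n with
  | zero => exact ⟨0, Commute.zero_left _, by simp⟩
  | succ n ih =>
    obtain ⟨g, hg, h⟩ := ih
    refine ⟨g + ((n : AddMonoid.End M) + g * (z - 1)), ?_, ?_⟩
    · refine hg.add_left ((Nat.cast_commute n z).add_left (hg.mul_left ?_))
      exact (Commute.refl z).sub_left (Commute.one_left z)
    · have e : z ^ (n + 1) - 1 = (z ^ n - 1) * (z - 1) + (z ^ n - 1) + (z - 1) := by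
        rw [pow_succ]; noncomm_ring
      rw [e, h]
      push_cast
      noncomm_ring

/-- unipotent and `(z^n - 1)`-killed implies killed by lower powers, torsion-free case -/
theorem tf_unip (htf : ∀ (n : ℕ) (m : M), 0 < n → n • m = 0 → m = 0) (z : AddMonoid.End M)
    (n : ℕ) (hn : 0 < n) (r : ℕ) (k : ℕ) (m : M) (hk : ((z - 1) ^ (r + k)) m = 0)
    (h : ((z ^ n - 1) ^ r) m = 0) : ((z - 1) ^ r) m = 0 := by
  -- descend on `k`
  induction k with
  | zero => simpa using hk
  | succ k ih =>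
    apply ih
    -- put w = (z-1)^(r+k) m ; (z - 1) w = 0
    obtain ⟨g, hg, he⟩ := end_expand z n
    have hgz : Commute g (z - 1) := hg.sub_right (Commute.one_right g)
    have hcz : Commute ((n : AddMonoid.End M) + g * (z - 1)) (z - 1) :=
      (Nat.cast_commute n (z - 1)).add_left (hgz.mul_left (Commute.refl _))
    have e1 : (z ^ n - 1) ^ r = ((n : AddMonoid.End M) + g * (z - 1)) ^ r * (z - 1) ^ r := by
      rw [he, hcz.mul_pow]
    -- (n + g (z-1))^r * (z-1)^(r+k) m = 0
    have e2 : (((n : AddMonoid.End M) + g * (z - 1)) ^ r * (z - 1) ^ (r + k)) m = 0 := by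
      have : ((n : AddMonoid.End M) + g * (z - 1)) ^ r * (z - 1) ^ (r + k)
          = (z - 1) ^ k * (z ^ n - 1) ^ r := by
        rw [e1, pow_add, ← mul_assoc, ← mul_assoc]
        have c1 : Commute ((z - 1) ^ k) (((n : AddMonoid.End M) + g * (z - 1)) ^ r * (z - 1) ^ r) :=
          ((hcz.symm.pow_pow k r)).mul_right ((Commute.refl _).pow_pow k r)
        rw [← c1.eq, mul_assoc]
      rw [this]
      change ((z - 1) ^ k) (((z ^ n - 1) ^ r) m) = 0
      rw [h, map_zero]
    set w := ((z - 1) ^ (r + k)) m with hw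
    have hzw : (z - 1) w = 0 := by
      have : (z - 1) w = ((z - 1) ^ (r + (k + 1))) m := by
        rw [hw, ← add_assoc, pow_succ']; rfl
      rw [this]; exact hk
    have e3 : ∀ j : ℕ, (((n : AddMonoid.End M) + g * (z - 1)) ^ j) w = n ^ j • w := by
      intro j
      induction j with
      | zero => simp
      | succ j ihj =>
        rw [pow_succ']
        change ((n : AddMonoid.End M) + g * (z - 1)) ((((n : AddMonoid.End M) + g * (z - 1)) ^ j) w)
          = _
        rw [ihj, map_nsmul]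
        have : ((n : AddMonoid.End M) + g * (z - 1)) w = n • w := by
          change (n : AddMonoid.End M) w + g ((z - 1) w) = _
          rw [hzw, map_zero, add_zero]
          exact AddMonoid.End.natCast_apply n w
        rw [this, smul_smul, pow_succ]
    have e4 : n ^ r • w = 0 := by
      rw [← e3 r]
      exact e2
    exact htf _ _ (pow_pos hn r) e4

end ded


/-! ### elements of a cyclic step -/

theorem cstep_zpow_mem {G : Type} [Group G] {C : Subgroup G} {g : G}
    (hg : ∀ h : G, h ∈ C ↔ g * h * g⁻¹ ∈ C) (i : ℤ) {c : G} (hc : c ∈ C) :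
    g ^ i * c * g ^ (-i) ∈ C := by
  have h1 : ∀ n : ℕ, ∀ c ∈ C, g ^ n * c * (g ^ n)⁻¹ ∈ C := by
    intro n
    induction n with
    | zero => intro c hc; simpa using hc
    | succ n ih =>
      intro c hc
      have := (hg _).mp (ih c hc)
      have e : g ^ (n + 1) * c * (g ^ (n + 1))⁻¹ = g * (g ^ n * c * (g ^ n)⁻¹) * g⁻¹ := by
        rw [pow_succ']; group
      rw [e]; exact this
  have h2 : ∀ n : ℕ, ∀ c ∈ C, (g ^ n)⁻¹ * c * g ^ n ∈ C := by
    intro n
    induction n with
    | zero => intro c hc; simpa using hc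
    | succ n ih =>
      intro c hc
      have h3 : g⁻¹ * c * g ∈ C := by
        rw [hg]
        have : g * (g⁻¹ * c * g) * g⁻¹ = c := by group
        rw [this]; exact hc
      have := ih _ h3
      have e : (g ^ (n + 1))⁻¹ * c * g ^ (n + 1) = (g ^ n)⁻¹ * (g⁻¹ * c * g) * g ^ n := by
        rw [pow_succ']; group
      rw [e]; exact this
  rcases Int.eq_nat_or_neg i with ⟨n, rfl | rfl⟩
  · simpa using h1 n c hc
  · simpa using h2 n c hc

theorem cstep_mem_iff {G : Type} [Group G] {C C' : Subgroup G} {g : G}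
    (hg : ∀ h : G, h ∈ C ↔ g * h * g⁻¹ ∈ C) (hC' : C' = C ⊔ Subgroup.zpowers g) (x : G) :
    x ∈ C' ↔ ∃ c ∈ C, ∃ i : ℤ, x = c * g ^ i := by
  constructor
  · let T : Subgroup G :=
      { carrier := {x | ∃ c ∈ C, ∃ i : ℤ, x = c * g ^ i}
        one_mem' := ⟨1, one_mem _, 0, by simp⟩
        mul_mem' := by
          rintro a b ⟨c, hc, i, rfl⟩ ⟨c', hc', j, rfl⟩
          refine ⟨c * (g ^ i * c' * g ^ (-i)), mul_mem hc (cstep_zpow_mem hg i hc'), i + j, ?_⟩
          rw [zpow_add, zpow_neg]; group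
        inv_mem' := by
          rintro a ⟨c, hc, i, rfl⟩
          refine ⟨g ^ (-i) * c⁻¹ * g ^ (- -i), cstep_zpow_mem hg (-i) (inv_mem hc), -i, ?_⟩
          rw [zpow_neg, neg_neg]; group }
    have hle : C' ≤ T := by
      rw [hC']
      refine sup_le (fun c hc => ⟨c, hc, 0, by simp⟩) ?_
      rw [Subgroup.zpowers_le]
      exact ⟨1, one_mem _, 1, by simp⟩
    intro hx
    exact hle hx
  · rintro ⟨c, hc, i, rfl⟩
    rw [hC']
    exact mul_mem (Subgroup.mem_sup_left hc)
      (Subgroup.mem_sup_right (Subgroup.zpow_mem_zpowers g i))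

/-- A cyclic step intersected with a subgroup is a cyclic step. -/
theorem cstep_inf {G : Type} [Group G] {C C' : Subgroup G} (h : CStep C C') (H : Subgroup G) :
    ∃ g0 ∈ H ⊓ C', (∀ x : G, x ∈ H ⊓ C ↔ g0 * x * g0⁻¹ ∈ H ⊓ C) ∧
      ∀ x ∈ H ⊓ C', ∃ k ∈ H ⊓ C, ∃ j : ℤ, x = k * g0 ^ j := by
  obtain ⟨g, hg, hC'⟩ := h
  let I : AddSubgroup ℤ :=
    { carrier := {i | ∃ c ∈ C, c * g ^ i ∈ H}
      zero_mem' := ⟨1, one_mem _, by simp [one_mem]⟩
      add_mem' := by
        rintro i j ⟨c, hc, hi⟩ ⟨c', hc', hj⟩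
        refine ⟨c * (g ^ i * c' * g ^ (-i)), mul_mem hc (cstep_zpow_mem hg i hc'), ?_⟩
        have : c * (g ^ i * c' * g ^ (-i)) * g ^ (i + j) = (c * g ^ i) * (c' * g ^ j) := by
          rw [zpow_add, zpow_neg]; group
        rw [this]; exact mul_mem hi hj
      neg_mem' := by
        rintro i ⟨c, hc, hi⟩
        refine ⟨g ^ (-i) * c⁻¹ * g ^ (- -i), cstep_zpow_mem hg (-i) (inv_mem hc), ?_⟩
        have : g ^ (-i) * c⁻¹ * g ^ (- -i) * g ^ (-i) = (c * g ^ i)⁻¹ := by
          rw [neg_neg, zpow_neg]; group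
        rw [this]; exact inv_mem hi }
  obtain ⟨d, hd⟩ := Int.subgroup_cyclic I
  have hdI : d ∈ I := by rw [hd]; exact AddSubgroup.subset_closure rfl
  obtain ⟨c0, hc0, hc0H⟩ := hdI
  have hg0C' : c0 * g ^ d ∈ C' := (cstep_mem_iff hg hC' _).mpr ⟨c0, hc0, d, rfl⟩
  have hnorm : ∀ y ∈ C', ∀ x ∈ C, y * x * y⁻¹ ∈ C := by
    intro y hy x hx
    obtain ⟨c, hc, i, rfl⟩ := (cstep_mem_iff hg hC' y).mp hy
    have : c * g ^ i * x * (c * g ^ i)⁻¹ = c * (g ^ i * x * g ^ (-i)) * c⁻¹ := by
      rw [zpow_neg]; group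
    rw [this]
    exact mul_mem (mul_mem hc (cstep_zpow_mem hg i hx)) (inv_mem hc)
  refine ⟨c0 * g ^ d, ⟨hc0H, hg0C'⟩, ?_, ?_⟩
  · intro x
    constructor
    · rintro ⟨hxH, hxC⟩
      exact ⟨H.mul_mem (H.mul_mem hc0H hxH) (H.inv_mem hc0H), hnorm _ hg0C' x hxC⟩
    · rintro ⟨hxH, hxC⟩
      have e : x = (c0 * g ^ d)⁻¹ * ((c0 * g ^ d) * x * (c0 * g ^ d)⁻¹) * ((c0 * g ^ d)⁻¹)⁻¹ := by
        group
      refine ⟨?_, ?_⟩
      · rw [e]
        exact H.mul_mem (H.mul_mem (H.inv_mem hc0H) hxH) (H.inv_mem (H.inv_mem hc0H))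
      · rw [e]
        exact hnorm _ (inv_mem hg0C') _ hxC
  · rintro x ⟨hxH, hxC'⟩
    obtain ⟨c, hc, i, rfl⟩ := (cstep_mem_iff hg hC' x).mp hxC'
    have hi : i ∈ I := ⟨c, hc, hxH⟩
    rw [hd, AddSubgroup.mem_closure_singleton] at hi
    obtain ⟨j, hj⟩ := hi
    have hj' : i = j * d := by rw [← hj]; simp
    -- g0 ^ j = c' * g ^ (d * j)
    have hpow : ∀ j : ℤ, ∃ c' ∈ C, (c0 * g ^ d) ^ j = c' * g ^ (j * d) := by
      have hnat : ∀ n : ℕ, ∃ c' ∈ C, (c0 * g ^ d) ^ n = c' * g ^ ((n : ℤ) * d) := by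
        intro n
        induction n with
        | zero => exact ⟨1, one_mem _, by simp⟩
        | succ n ih =>
          obtain ⟨c', hc', h⟩ := ih
          refine ⟨c' * (g ^ ((n : ℤ) * d) * c0 * g ^ (-((n : ℤ) * d))),
            mul_mem hc' (cstep_zpow_mem hg _ hc0), ?_⟩
          rw [pow_succ, h]
          have : (((n + 1 : ℕ) : ℤ) * d) = (n : ℤ) * d + d := by push_cast; ring
          rw [this, zpow_add, zpow_neg]; group
      intro j
      rcases Int.eq_nat_or_neg j with ⟨n, rfl | rfl⟩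
      · simpa using hnat n
      · obtain ⟨c', hc', h⟩ := hnat n
        refine ⟨g ^ (-((n : ℤ) * d)) * c'⁻¹ * g ^ (- -((n : ℤ) * d)),
          cstep_zpow_mem hg _ (inv_mem hc'), ?_⟩
        rw [zpow_neg, zpow_natCast, h]
        have : (-(n : ℤ)) * d = -((n : ℤ) * d) := by ring
        rw [this, neg_neg, zpow_neg]; group
    obtain ⟨c', hc', hcj⟩ := hpow j
    refine ⟨c * c'⁻¹, ⟨?_, C.mul_mem hc (C.inv_mem hc')⟩, j, ?_⟩
    · have : c * c'⁻¹ = (c * g ^ i) * ((c0 * g ^ d) ^ j)⁻¹ := by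
        rw [hcj, ← hj']; group
      rw [this]
      exact H.mul_mem hxH (H.inv_mem (H.zpow_mem hc0H j))
    · rw [hcj, ← hj']; group

section stunted

variable {G M : Type} [Group G] [AddCommGroup M] [DistribMulAction G M]

/-- the finite hypercentral series of `H` on `M` -/
def zc (H : Subgroup G) : ℕ → AddSubgroup M
  | 0 => ⊥
  | n + 1 =>
    { carrier := {m | ∀ x ∈ H, x • m - m ∈ zc H n}
      zero_mem' := by intro x _; simp [zero_mem]
      add_mem' := by
        intro a b ha hb x hx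
        have : x • (a + b) - (a + b) = (x • a - a) + (x • b - b) := by rw [smul_add]; abel
        rw [this]; exact add_mem (ha x hx) (hb x hx)
      neg_mem' := by
        intro a ha x hx
        have : x • (-a) - (-a) = -(x • a - a) := by rw [smul_neg]; abel
        rw [this]; exact neg_mem (ha x hx) }

theorem mem_zc_succ {H : Subgroup G} {n : ℕ} {m : M} :
    m ∈ zc H (n + 1) ↔ ∀ x ∈ H, x • m - m ∈ zc H n := Iff.rfl

theorem mem_zc_zero {H : Subgroup G} {m : M} : m ∈ zc H 0 ↔ m = 0 := by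
  simp [zc]

theorem zc_succ_le (H : Subgroup G) (n : ℕ) : (zc H n : AddSubgroup M) ≤ zc H (n + 1) := by
  induction n with
  | zero =>
    intro m hm
    rw [mem_zc_zero] at hm
    subst hm; exact zero_mem _
  | succ n ih =>
    intro m hm
    rw [mem_zc_succ] at *
    exact fun x hx => ih (hm x hx)

theorem zc_mono (H : Subgroup G) : Monotone (fun n => (zc H n : AddSubgroup M)) :=
  monotone_nat_of_le_succ (zc_succ_le H)

theorem zc_list (H : Subgroup G) (n : ℕ) (m : M) :
    (∀ l : List G, l.length = n → (∀ x ∈ l, x ∈ H) →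
      l.foldl (fun (b : M) (x : G) => x • b - b) m = 0) ↔ m ∈ zc H n := by
  induction n generalizing m with
  | zero =>
    rw [mem_zc_zero]
    constructor
    · intro h
      simpa using h [] rfl (by simp)
    · rintro rfl l hl _
      rw [List.length_eq_zero_iff] at hl
      subst hl; rfl
  | succ n ih =>
    rw [mem_zc_succ]
    constructor
    · intro h x hx
      rw [← ih]
      intro l hl hlH
      have := h (x :: l) (by simp [hl]) (by
        intro y hy
        rcases List.mem_cons.mp hy with rfl | hy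
        · exact hx
        · exact hlH y hy)
      simpa using this
    · intro h l hl hlH
      match l, hl with
      | x :: l', hl =>
        rw [List.foldl_cons]
        exact (ih _).mpr (h x (hlH x (by simp))) l' (by simpa using hl)
          (fun y hy => hlH y (by simp [hy]))

/-- `zc K n` is stable under elements normalising `K`. -/
theorem zc_stable {K : Subgroup G} {g : G} (hg : ∀ x ∈ K, g⁻¹ * x * g ∈ K) (n : ℕ) {m : M}
    (hm : m ∈ zc K n) : g • m ∈ zc K n := by
  induction n generalizing m with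
  | zero =>
    rw [mem_zc_zero] at *
    subst hm; simp
  | succ n ih =>
    rw [mem_zc_succ] at *
    intro x hx
    have : x • g • m - g • m = g • ((g⁻¹ * x * g) • m - m) := by
      rw [smul_sub, smul_smul, smul_smul]; congr 2; group
    rw [this]
    exact ih (hm _ (hg x hx))

/-- stability of additive subgroups under powers -/
theorem zpow_sub_mem {V : AddSubgroup M} {g : G} (h1 : ∀ v ∈ V, g • v ∈ V)
    (h2 : ∀ v ∈ V, g⁻¹ • v ∈ V) (j : ℤ) {w : M} (hw : w ∈ V) :
    g ^ j • w ∈ V ∧ ∃ w' ∈ V, g ^ j • w - w = g • w' - w' := by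
  have hn1 : ∀ n : ℕ, ∀ w ∈ V, g ^ n • w ∈ V := by
    intro n
    induction n with
    | zero => intro w hw; simpa using hw
    | succ n ih => intro w hw; rw [pow_succ', mul_smul]; exact h1 _ (ih w hw)
  have hn2 : ∀ n : ℕ, ∀ w ∈ V, (g ^ n)⁻¹ • w ∈ V := by
    intro n
    induction n with
    | zero => intro w hw; simpa using hw
    | succ n ih => intro w hw; rw [pow_succ, mul_inv_rev, mul_smul]; exact h2 _ (ih w hw)
  have hz : ∀ j : ℤ, ∀ w ∈ V, g ^ j • w ∈ V := by
    intro j w hw
    rcases Int.eq_nat_or_neg j with ⟨n, rfl | rfl⟩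
    · simpa using hn1 n w hw
    · simpa using hn2 n w hw
  have hd : ∀ n : ℕ, ∀ w ∈ V, ∃ w' ∈ V, g ^ n • w - w = g • w' - w' := by
    intro n
    induction n with
    | zero => intro w hw; exact ⟨0, zero_mem _, by simp⟩
    | succ n ih =>
      intro w hw
      obtain ⟨w', hw', h⟩ := ih w hw
      refine ⟨g ^ n • w + w', add_mem (hn1 n w hw) hw', ?_⟩
      rw [pow_succ', mul_smul, smul_add]
      have : g • g ^ n • w - w = (g • g ^ n • w - g ^ n • w) + (g ^ n • w - w) := by abel
      rw [this, h]; abel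
  refine ⟨hz j w hw, ?_⟩
  rcases Int.eq_nat_or_neg j with ⟨n, rfl | rfl⟩
  · simpa using hd n w hw
  · obtain ⟨w', hw', h⟩ := hd n (g ^ (-(n : ℤ)) • w) (hz _ w hw)
    refine ⟨-w', neg_mem hw', ?_⟩
    rw [smul_neg]
    have e : g ^ n • g ^ (-(n : ℤ)) • w = w := by
      rw [smul_smul, ← zpow_natCast, ← zpow_add]; simp
    rw [e] at h
    have : g ^ (-(n : ℤ)) • w - w = -(w - g ^ (-(n : ℤ)) • w) := by abel
    rw [this, h]; abel

/-- The key uniformity: bounded unipotency of elements bounds the hypercentral height. -/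
theorem zc_step (h1 : ℕ) {K K' : Subgroup G} (V : AddSubgroup M)
    (hV : ∀ x ∈ K', ∀ v ∈ V, x • v ∈ V)
    (hu : ∀ x ∈ K', ∀ v ∈ V, ((ac M x - 1) ^ h1) v = 0)
    (hKK' : K ≤ K')
    (g0 : G) (hg0 : g0 ∈ K') (hnorm : ∀ x : G, x ∈ K ↔ g0 * x * g0⁻¹ ∈ K)
    (hgen : ∀ x ∈ K', ∃ k ∈ K, ∃ j : ℤ, x = k * g0 ^ j) (i : ℕ) :
    V ⊓ zc K i ≤ zc K' (h1 * i) := by
  have hn1 : ∀ x ∈ K, g0⁻¹ * x * g0 ∈ K := by
    intro x hx
    rw [hnorm]
    have : g0 * (g0⁻¹ * x * g0) * g0⁻¹ = x := by group
    rw [this]; exact hx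
  have hn2 : ∀ x ∈ K, (g0⁻¹)⁻¹ * x * g0⁻¹ ∈ K := by
    intro x hx
    have := (hnorm x).mp hx
    simpa using this
  induction i with
  | zero =>
    rintro m ⟨_, hm⟩
    have : m = 0 := mem_zc_zero.mp hm
    subst this; exact zero_mem _
  | succ i ih =>
    -- the sets U_t
    have s1 : ∀ v ∈ V ⊓ zc K (i + 1), g0 • v ∈ V ⊓ zc K (i + 1) := fun v hv =>
      ⟨hV g0 hg0 v hv.1, zc_stable hn1 _ hv.2⟩
    have s2 : ∀ v ∈ V ⊓ zc K (i + 1), g0⁻¹ • v ∈ V ⊓ zc K (i + 1) := fun v hv =>
      ⟨hV _ (inv_mem hg0) v hv.1, zc_stable hn2 _ hv.2⟩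
    have s1' : ∀ v ∈ V ⊓ zc K i, g0 • v ∈ V ⊓ zc K i := fun v hv =>
      ⟨hV g0 hg0 v hv.1, zc_stable hn1 _ hv.2⟩
    have s2' : ∀ v ∈ V ⊓ zc K i, g0⁻¹ • v ∈ V ⊓ zc K i := fun v hv =>
      ⟨hV _ (inv_mem hg0) v hv.1, zc_stable hn2 _ hv.2⟩
    have hle : V ⊓ zc K i ≤ V ⊓ zc K (i + 1) := fun v hv => ⟨hv.1, zc_succ_le K i hv.2⟩
    have spow : ∀ t : ℕ, ∀ v ∈ V ⊓ zc K (i + 1), ((ac M g0 - 1) ^ t) v ∈ V ⊓ zc K (i + 1) := by
      intro t
      induction t with
      | zero => intro v hv; simpa using hv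
      | succ t iht =>
        intro v hv
        rw [pow_succ']
        change (ac M g0 - 1) (((ac M g0 - 1) ^ t) v) ∈ _
        rw [ac_sub_one_apply]
        exact sub_mem (s1 _ (iht v hv)) (iht v hv)
    let U : ℕ → Set M := fun t => {u | ∃ w ∈ V ⊓ zc K (i + 1), ∃ w0 ∈ V ⊓ zc K i,
      u = ((ac M g0 - 1) ^ t) w + w0}
    have hUmem : ∀ t, ∀ u ∈ U t, u ∈ V ⊓ zc K (i + 1) := by
      rintro t u ⟨w, hw, w0, hw0, rfl⟩
      exact add_mem (spow t w hw) (hle hw0)
    have hcomm : ∀ (t : ℕ) (j : ℤ) (w : M),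
        g0 ^ j • (((ac M g0 - 1) ^ t : AddMonoid.End M) w)
        = ((ac M g0 - 1) ^ t : AddMonoid.End M) (g0 ^ j • w) := by
      intro t j w
      have hc : Commute (ac M (g0 ^ j)) (ac M g0 - 1) := by
        refine Commute.sub_right ?_ (Commute.one_right _)
        rw [Commute, SemiconjBy, ← map_mul, ← map_mul]
        congr 1
        rw [← zpow_add_one, zpow_one_add g0 j |>.symm, add_comm]
      have := (hc.pow_right t).eq
      exact DFunLike.congr_fun this w
    have hstep : ∀ t, ∀ x ∈ K', ∀ u ∈ U t, x • u - u ∈ U (t + 1) := by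
      intro t x hx u hu
      have huV := hUmem t u hu
      obtain ⟨w, hw, w0, hw0, rfl⟩ := hu
      obtain ⟨k, hk, j, rfl⟩ := hgen x hx
      obtain ⟨w', hw', e1⟩ := (zpow_sub_mem s1 s2 j hw).2
      have hgu := (zpow_sub_mem s1 s2 j huV).1
      have b1 : k • g0 ^ j • (((ac M g0 - 1) ^ t) w + w0)
          - g0 ^ j • (((ac M g0 - 1) ^ t) w + w0) ∈ V ⊓ zc K i := by
        refine ⟨V.sub_mem (hV k (hKK' hk) _ hgu.1) hgu.1, ?_⟩
        exact mem_zc_succ.mp hgu.2 k hk
      have b2 : g0 ^ j • w0 - w0 ∈ V ⊓ zc K i :=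
        sub_mem (zpow_sub_mem s1' s2' j hw0).1 hw0
      refine ⟨w', hw', _, add_mem b1 b2, ?_⟩
      have e2 : ((ac M g0 - 1) ^ (t + 1)) w' = ((ac M g0 - 1) ^ t) (g0 ^ j • w - w) := by
        rw [pow_succ, e1]; rfl
      rw [e2, map_sub, ← hcomm, mul_smul, smul_add (g0 ^ j)]
      abel
    have hUend : ∀ u ∈ U h1, u ∈ V ⊓ zc K i := by
      rintro u ⟨w, hw, w0, hw0, rfl⟩
      rw [hu g0 hg0 w hw.1, zero_add]
      exact hw0
    have hdown : ∀ t, t ≤ h1 → ∀ u ∈ U (h1 - t), u ∈ zc K' (h1 * i + t) := by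
      intro t
      induction t with
      | zero =>
        intro _ u hu
        exact ih (hUend u hu)
      | succ t iht =>
        intro ht u hu
        rw [← add_assoc, mem_zc_succ]
        intro x hx
        have := hstep _ x hx u hu
        have e : h1 - (t + 1) + 1 = h1 - t := by omega
        rw [e] at this
        exact iht (by omega) _ this
    intro m hm
    have h0 : m ∈ U (h1 - h1) := by
      refine ⟨m, hm, 0, zero_mem _, ?_⟩
      simp
    have := hdown h1 le_rfl m h0
    rw [mul_add, mul_one]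
    exact this

/-- uniform hypercentral height -/
theorem zc_uniform (hc : CChain (⊥ : Subgroup G) ⊤) (h1 : ℕ)
    (hu : ∀ (x : G) (m : M), (∃ k : ℕ, ((ac M x - 1) ^ k : AddMonoid.End M) m = 0) →
      ((ac M x - 1) ^ h1 : AddMonoid.End M) m = 0) :
    ∃ h, ∀ (H : Subgroup G) (n : ℕ), (zc H n : AddSubgroup M) ≤ zc H h := by
  have key : ∀ C : Subgroup G, CChain ⊥ C → ∃ a, ∀ (H : Subgroup G) (n : ℕ),
      (zc H n : AddSubgroup M) ≤ zc (H ⊓ C) a := by
    intro C hC
    unfold CChain at hC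
    induction hC with
    | refl =>
      refine ⟨1, fun H n m _ => ?_⟩
      rw [mem_zc_succ]
      intro x hx
      have : x = 1 := by simpa using hx.2
      subst this
      simp [zero_mem]
    | tail _ hstep ih =>
      rename_i C1 C2 _
      obtain ⟨a, ha⟩ := ih
      refine ⟨h1 * a, fun H n => ?_⟩
      obtain ⟨g0, hg0, hnorm, hgen⟩ := cstep_inf hstep H
      have hC12 : C1 ≤ C2 := by
        obtain ⟨g, _, rfl⟩ := hstep
        exact le_sup_left
      -- V = union of zc H n
      have hpow : ∀ x ∈ H, ∀ k : ℕ, ∀ v ∈ (zc H k : AddSubgroup M), ((ac M x - 1) ^ k) v = 0 := by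
        intro x hx k
        induction k with
        | zero =>
          intro v hv
          rw [mem_zc_zero] at hv
          subst hv; simp
        | succ k ihk =>
          intro v hv
          rw [pow_succ]
          change ((ac M x - 1) ^ k) ((ac M x - 1) v) = 0
          exact ihk _ (by rw [ac_sub_one_apply]; exact mem_zc_succ.mp hv x hx)
      have := zc_step (K := H ⊓ C1) (K' := H ⊓ C2) h1 (zc H n)
        (fun x hx v hv => zc_stable (fun y hy => mul_mem (mul_mem (inv_mem hx.1) hy) hx.1) n hv)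
        (fun x hx v hv => hu x v ⟨n, hpow x hx.1 n v hv⟩)
        (inf_le_inf_left H hC12) g0 hg0 hnorm hgen a
      intro m hm
      exact this ⟨hm, ha H n hm⟩
  obtain ⟨h, hh⟩ := key ⊤ hc
  refine ⟨h, fun H n => ?_⟩
  have := hh H n
  rwa [inf_top_eq] at this

end stunted


section final

variable {G M : Type} [Group G] [AddCommGroup M] [DistribMulAction G M]

theorem end_pow_char (p : ℕ) (hp : p.Prime) (hM : ∀ m : M, p • m = 0) (z : AddMonoid.End M)
    (j : ℕ) : (z - 1) ^ (p ^ j) = z ^ (p ^ j) - 1 := by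
  have hp0 : (p : AddMonoid.End M) = 0 := by
    ext m
    rw [AddMonoid.End.natCast_apply]
    simpa using hM m
  have h := Commute.add_pow_prime_pow_eq hp
    (show Commute (z - 1) (1 : AddMonoid.End M) from Commute.one_right _) j
  rw [sub_add_cancel, one_pow, hp0, zero_mul, zero_mul, zero_mul, add_zero] at h
  rw [h]; abel

/-- bounded unipotency and bounded periods from goodness -/
theorem good_bounds (c : ℕ) (hc : Char c M) (hg : Good G M) :
    (∃ h1 : ℕ, ∀ (x : G) (m : M), (∃ k : ℕ, ((ac M x - 1) ^ k : AddMonoid.End M) m = 0) →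
      ((ac M x - 1) ^ h1 : AddMonoid.End M) m = 0) ∧
    (∃ e : ℕ, 0 < e ∧ ∀ (x : G) (n : ℕ), 0 < n → ∀ m : M, x ^ n • m = m → x ^ e • m = m) := by
  obtain ⟨e, h, he, hgood⟩ := hg
  have hgood' : ∀ (x : G) (m : M) (n r : ℕ), 0 < n → ((ac M (x ^ n) - 1) ^ r) m = 0 →
      ((ac M (x ^ e) - 1) ^ h) m = 0 := by
    intro x m n r hn hm
    have := hgood x trivial m trivial n r hn (by simpa using hm)
    simpa using this
  rcases hc with ⟨_, htf⟩ | ⟨hp, hM⟩
  · constructor
    · refine ⟨h, fun x m hk => ?_⟩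
      obtain ⟨k, hk⟩ := hk
      have h1 : ((ac M (x ^ 1) - 1) ^ k) m = 0 := by simpa using hk
      have h2 := hgood' x m 1 k one_pos h1
      rw [map_pow] at h2
      refine tf_unip htf (ac M x) e he h k m ?_ h2
      rw [pow_add]
      change ((ac M x - 1) ^ h) (((ac M x - 1) ^ k) m) = 0
      rw [hk, map_zero]
    · refine ⟨e, he, fun x n hn m hm => ?_⟩
      have h1 : ((ac M (x ^ n) - 1) ^ 1 : AddMonoid.End M) m = 0 := by
        rw [pow_one, ac_sub_one_apply, hm, sub_self]
      have h2 := hgood' x m n 1 hn h1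
      -- apply tf_unip to z = x^e, with z^n m = m
      have h3 : (((ac M (x ^ e)) ^ n - 1) ^ 1 : AddMonoid.End M) m = 0 := by
        rw [pow_one, ← map_pow, ac_sub_one_apply, ← pow_mul, mul_comm, pow_mul]
        have : ∀ i : ℕ, (x ^ n) ^ i • m = m := by
          intro i
          induction i with
          | zero => simp
          | succ i ih => rw [pow_succ, mul_smul, hm, ih]
        rw [this, sub_self]
      have h4 : ((ac M (x ^ e) - 1) ^ (1 + h)) m = 0 := by
        rw [pow_add]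
        change ((ac M (x ^ e) - 1) ^ 1 : AddMonoid.End M) (((ac M (x ^ e) - 1) ^ h) m) = 0
        rw [h2, map_zero]
      have h5 := tf_unip htf (ac M (x ^ e)) n hn 1 h m h4 h3
      rw [pow_one, ac_sub_one_apply, sub_eq_zero] at h5
      exact h5
  · -- characteristic p
    obtain ⟨j, hj⟩ : ∃ j, h ≤ c ^ j := ⟨h, (Nat.lt_pow_self hp.one_lt).le⟩
    have hfix : ∀ (x : G) (m : M) (n r : ℕ), 0 < n → ((ac M (x ^ n) - 1) ^ r) m = 0 →
        x ^ (e * c ^ j) • m = m := by
      intro x m n r hn hm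
      have h2 := hgood' x m n r hn hm
      have h3 : ((ac M (x ^ e) - 1) ^ (c ^ j)) m = 0 := by
        obtain ⟨d, hd⟩ := Nat.exists_eq_add_of_le' hj
        rw [hd, pow_add]
        change ((ac M (x ^ e) - 1) ^ d) (((ac M (x ^ e) - 1) ^ h) m) = 0
        rw [h2, map_zero]
      rw [end_pow_char c hp hM, ← map_pow, ac_sub_one_apply, sub_eq_zero, ← pow_mul] at h3
      exact h3
    constructor
    · refine ⟨e * c ^ j, fun x m hk => ?_⟩
      obtain ⟨k, hk⟩ := hk
      have h1 : ((ac M (x ^ 1) - 1) ^ k) m = 0 := by simpa using hk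
      have h2 := hfix x m 1 k one_pos h1
      -- x ^ (c^k) m = m
      have h3 : x ^ (c ^ k) • m = m := by
        have : ((ac M x - 1) ^ (c ^ k)) m = 0 := by
          obtain ⟨d, hd⟩ := Nat.exists_eq_add_of_le' (Nat.lt_pow_self (n := k) hp.one_lt).le
          rw [hd, pow_add]
          change ((ac M x - 1) ^ d) (((ac M x - 1) ^ k) m) = 0
          rw [hk, map_zero]
        rw [end_pow_char c hp hM, ← map_pow, ac_sub_one_apply, sub_eq_zero] at this
        exact this
      have p1 : Function.IsPeriodicPt (fun y : M => x • y) (e * c ^ j) m := by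
        unfold Function.IsPeriodicPt Function.IsFixedPt
        rw [smul_iterate]; exact h2
      have p2 : Function.IsPeriodicPt (fun y : M => x • y) (c ^ k) m := by
        unfold Function.IsPeriodicPt Function.IsFixedPt
        rw [smul_iterate]; exact h3
      have p3 := p1.gcd p2
      have p4 : x ^ ((e * c ^ j).gcd (c ^ k)) • m = m := by
        have := p3
        unfold Function.IsPeriodicPt Function.IsFixedPt at this
        rw [smul_iterate] at this; exact this
      obtain ⟨i, -, hi⟩ := (Nat.dvd_prime_pow hp).mp (Nat.gcd_dvd_right (e * c ^ j) (c ^ k))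
      have hle : c ^ i ≤ e * c ^ j := by
        rw [← hi]
        exact Nat.le_of_dvd (Nat.mul_pos he (pow_pos hp.pos j)) (Nat.gcd_dvd_left _ _)
      rw [hi] at p4
      have h5 : ((ac M x - 1) ^ (c ^ i)) m = 0 := by
        rw [end_pow_char c hp hM, ← map_pow, ac_sub_one_apply, sub_eq_zero]
        exact p4
      obtain ⟨d, hd⟩ := Nat.exists_eq_add_of_le' hle
      rw [hd, pow_add]
      change ((ac M x - 1) ^ d) (((ac M x - 1) ^ (c ^ i)) m) = 0
      rw [h5, map_zero]
    · refine ⟨e * c ^ j, Nat.mul_pos he (pow_pos hp.pos j), fun x n hn m hm => ?_⟩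
      refine hfix x m n 1 hn ?_
      rw [pow_one, ac_sub_one_apply, hm, sub_self]

end final

/-- restriction of goodness to a stable additive subgroup -/
theorem Good.restr {G M : Type} [Group G] [AddCommGroup M] [DistribMulAction G M]
    (hg : Good G M) (Y : AddSubgroup M) [DistribMulAction G Y]
    (hY : ∀ (g : G) (y : Y), ((g • y : Y) : M) = g • (y : M)) : Good G Y := by
  obtain ⟨e, h, he, hgood⟩ := hg
  have hcoe : ∀ (g : G) (r : ℕ) (y : Y), ((((ac Y g - 1) ^ r) y : Y) : M)
      = ((ac M g - 1) ^ r) (y : M) := by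
    intro g r
    induction r with
    | zero => intro y; simp
    | succ r ih =>
      intro y
      rw [pow_succ, pow_succ]
      change ((((ac Y g - 1) ^ r) ((ac Y g - 1) y) : Y) : M)
        = ((ac M g - 1) ^ r) ((ac M g - 1) (y : M))
      rw [ih, ac_sub_one_apply, ac_sub_one_apply, AddSubgroup.coe_sub, hY]
  refine ⟨e, h, he, fun x _ m _ n r hn hm => ?_⟩
  have h1 : ((ac M (x ^ n) - 1) ^ r) (m : M) ∈ (⊥ : AddSubgroup M) := by
    rw [← hcoe]
    have : ((ac Y (x ^ n) - 1) ^ r) m = 0 := by simpa using hm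
    rw [this]; simp
  have h2 := hgood x trivial (m : M) trivial n r hn h1
  rw [← hcoe] at h2
  have : (((ac Y (x ^ e) - 1) ^ h) m : Y) = 0 := by
    apply Subtype.ext
    simpa using h2
  rw [this]; exact zero_mem _

/-- **From the main theorem to stunted and eremitic submodules.** -/
theorem deduce (hcchain : ∀ (G : Type) [Group G], PC G → CChain (⊥ : Subgroup G) ⊤)
    (hHL : ∀ (G : Type) [Group G], PC G → ∃ n, HL n G) (hIH : ∀ n, IH n)
    (Γ : Type) [Group Γ] (hs : Group.IsSolvable Γ) (hfg : ∀ H : Subgroup Γ, H.FG)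
    (A : Type) [AddCommGroup A] [DistribMulAction Γ A]
    (hA : ∃ S : Finset A, AddSubgroup.closure {a : A | ∃ g : Γ, ∃ s ∈ S, a = g • s} = ⊤)
    (hnt : Nontrivial A) :
    ∃ Y : AddSubgroup A, Y ≠ ⊥ ∧ (∀ g : Γ, ∀ y ∈ Y, g • y ∈ Y) ∧
      (∃ h : ℕ, ∀ H : Subgroup Γ, ∀ y ∈ Y,
        (∃ n : ℕ, ∀ l : List Γ, l.length = n → (∀ x ∈ l, x ∈ H) →
            l.foldl (fun (b : A) (x : Γ) => x • b - b) y = 0) →
        ∀ l : List Γ, l.length = h → (∀ x ∈ l, x ∈ H) →
            l.foldl (fun (b : A) (x : Γ) => x • b - b) y = 0) ∧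
      (∃ e : ℕ, 0 < e ∧ ∀ x : Γ, ∀ n : ℕ, 0 < n → ∀ y ∈ Y,
        x ^ n • y = y → x ^ e • y = y) := by
  have hpc : PC Γ := ⟨hs, hfg⟩
  obtain ⟨n, hn⟩ := hHL Γ hpc
  have hgood : Good Γ A := by
    refine hIH n Γ hpc hn A ?_
    obtain ⟨S, hS⟩ := hA
    refine ⟨(S : Set A), S.finite_toSet, ?_⟩
    rw [← hS]
    unfold gspan
    congr 1
    ext a
    constructor
    · rintro ⟨g, s, hs, rfl⟩; exact ⟨g, trivial, s, hs, rfl⟩
    · rintro ⟨g, _, s, hs, rfl⟩; exact ⟨g, s, hs, rfl⟩
  -- choice of Y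
  have hY : ∃ (c : ℕ) (Y : AddSubgroup A), Y ≠ ⊥ ∧ (∀ g : Γ, ∀ y ∈ Y, g • y ∈ Y) ∧ Char c Y := by
    by_cases htf : ∀ (n : ℕ) (m : A), 0 < n → n • m = 0 → m = 0
    · refine ⟨0, ⊤, ?_, fun _ _ _ => trivial, Or.inl ⟨rfl, ?_⟩⟩
      · exact top_ne_bot
      · intro n m hn h
        apply Subtype.ext
        apply htf n m hn
        have := congrArg (Subtype.val) h
        simpa using this
    · push Not at htf
      obtain ⟨n, m, hn, hnm, hm⟩ := htf
      -- an element of prime order
      have hfin : IsOfFinAddOrder m := isOfFinAddOrder_iff_nsmul_eq_zero.mpr ⟨n, hn, hnm⟩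
      have hord : addOrderOf m ≠ 1 := by
        rw [Ne, AddMonoid.addOrderOf_eq_one_iff]; exact hm
      obtain ⟨p, hp, hpd⟩ := Nat.exists_prime_and_dvd hord
      refine ⟨p, { carrier := {a | p • a = 0}
                   zero_mem' := by simp
                   add_mem' := by
                    intro a b ha hb
                    rw [Set.mem_ofPred_eq] at *
                    rw [smul_add, ha, hb, add_zero]
                   neg_mem' := by
                    intro a ha
                    rw [Set.mem_ofPred_eq] at *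
                    rw [smul_neg, ha, neg_zero] }, ?_, ?_, Or.inr ⟨hp, ?_⟩⟩
      · intro hbot
        obtain ⟨k, hk⟩ := hpd
        have hk0 : k • m ≠ 0 := by
          intro h0
          have h1 : addOrderOf m ∣ k := addOrderOf_dvd_of_nsmul_eq_zero h0
          have hpos : 0 < addOrderOf m := addOrderOf_pos_iff.mpr hfin
          have hkpos : 0 < k := by
            rcases Nat.eq_zero_or_pos k with h | h
            · rw [h, Nat.mul_zero] at hk; omega
            · exact h
          have h2 := Nat.le_of_dvd hkpos h1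
          rw [hk] at h2
          have := hp.two_le
          nlinarith
        have hmem : k • m ∈ (⊥ : AddSubgroup A) := by
          rw [← hbot]
          change p • (k • m) = 0
          rw [smul_smul, ← hk, addOrderOf_nsmul_eq_zero]
        exact hk0 (by simpa using hmem)
      · intro g y hy
        change p • (g • y) = 0
        have hy' : p • y = 0 := hy
        have e1 : p • g • y = g • p • y := by
          have := (map_nsmul (DistribSMul.toAddMonoidHom A g) p y).symm
          exact this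
        rw [e1, hy', smul_zero]
      · rintro ⟨y, hy⟩
        apply Subtype.ext
        simpa using hy
  obtain ⟨c, Y, hY0, hYs, hYc⟩ := hY
  let inst : DistribMulAction Γ Y :=
    { smul := fun g y => ⟨g • (y : A), hYs g y y.2⟩
      one_smul := fun y => Subtype.ext (one_smul _ _)
      mul_smul := fun a b y => Subtype.ext (mul_smul _ _ _)
      smul_zero := fun g => Subtype.ext (smul_zero _)
      smul_add := fun g a b => Subtype.ext (smul_add _ _ _) }
  have hcoe : ∀ (g : Γ) (y : Y), ((g • y : Y) : A) = g • (y : A) := fun _ _ => rfl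
  have hgY : Good Γ Y := Good.restr hgood Y hcoe
  obtain ⟨⟨h1, hh1⟩, ⟨e, he, hper⟩⟩ := good_bounds c hYc hgY
  obtain ⟨h, hh⟩ := zc_uniform (M := Y) (hcchain Γ hpc) h1 hh1
  have hfold : ∀ (l : List Γ) (y : Y),
      ((l.foldl (fun (b : Y) (x : Γ) => x • b - b) y : Y) : A)
        = l.foldl (fun (b : A) (x : Γ) => x • b - b) (y : A) := by
    intro l
    induction l with
    | nil => intro y; rfl
    | cons x l ih =>
      intro y
      rw [List.foldl_cons, List.foldl_cons, ih, AddSubgroup.coe_sub, hcoe]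
  refine ⟨Y, hY0, hYs, ⟨h, ?_⟩, ⟨e, he, ?_⟩⟩
  · intro H y hy hn l hl hlH
    obtain ⟨n, hn⟩ := hn
    have h2 : (⟨y, hy⟩ : Y) ∈ zc H n := by
      rw [← zc_list]
      intro l hl hlH
      apply Subtype.ext
      rw [hfold]
      simpa using hn l hl hlH
    have h3 := (zc_list H h (⟨y, hy⟩ : Y)).mpr (hh H n h2) l hl hlH
    have h4 := congrArg (Subtype.val) h3
    rw [hfold] at h4
    simpa using h4
  · intro x n hn y hy hxy
    have := hper x n hn ⟨y, hy⟩ (Subtype.ext hxy)
    exact congrArg Subtype.val this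

end Pool.Agent.Polc
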