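import Pool.Agent.Polc.PCB1

set_option autoImplicit false

/-! # Module HLM: Hirsch length -/

namespace Pool.Agent.Polc


theorem HL.equiv {G G' : Type} [Group G] [Group G'] {n : ℕ} (h : HL n G) (e : G ≃* G') :
    HL n G' := by
  induction n generalizing G G' with
  | zero =>
    have h0 : Finite G := h
    exact (Finite.of_equiv G e.toEquiv : Finite G')
  | succ n ih =>
    intro H hH
    have h1 : (H.map (e.symm : G' →* G)).index = 0 := by
      rw [Subgroup.index_map_equiv]
      exact hH
    have h2 : HL n (H.map (e.symm : G' →* G)) := h _ h1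
    exact ih h2 (e.symm.subgroupMap H).symm

theorem HL.sub {G : Type} [Group G] {n : ℕ} (h : HL n G) (H : Subgroup G) : HL n H := by
  cases n with
  | zero =>
    have h0 : Finite G := h
    exact (inferInstance : Finite H)
  | succ n =>
    intro A hA
    have h1 : (A.map H.subtype).index = 0 := by
      rw [Subgroup.index_map_subtype, hA, zero_mul]
    have h2 : HL n (A.map H.subtype) := h _ h1
    exact h2.equiv (A.equivMapOfInjective H.subtype H.subtype_injective).symm

theorem HL.succ {G : Type} [Group G] {n : ℕ} (h : HL n G) : HL (n + 1) G := by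
  induction n generalizing G with
  | zero =>
    intro H hH
    have h0 : Finite G := h
    exact absurd hH Subgroup.index_ne_zero_of_finite
  | succ n ih =>
    intro H hH
    exact ih (h H hH)

theorem HL.mono {G : Type} [Group G] {n m : ℕ} (h : HL n G) (hnm : n ≤ m) : HL m G := by
  induction hnm with
  | refl => exact h
  | step _ ih => exact ih.succ

theorem HL.quot {G : Type} [Group G] {n : ℕ} (h : HL (n + 1) G) (K : Subgroup G) [K.Normal]
    (hK : Infinite K) : HL n (G ⧸ K) := by
  induction n generalizing G with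
  | zero =>
    have h1 : K.index ≠ 0 := by
      intro h0
      have h2 : Finite K := h K h0
      exact not_finite K
    exact (Subgroup.finiteIndex_iff_finite_quotient (H := K)).1 ⟨h1⟩
  | succ n ih =>
    intro B hB
    set H : Subgroup G := B.comap (QuotientGroup.mk' K) with hH
    have h1 : H.index = 0 := by
      rw [hH, Subgroup.index_comap_of_surjective _ (QuotientGroup.mk'_surjective K)]
      exact hB
    have h2 : HL (n + 1) H := h H h1
    have hKH : K ≤ H := by
      intro k hk
      rw [hH, Subgroup.mem_comap]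
      have : QuotientGroup.mk' K k = 1 := by
        rw [QuotientGroup.mk'_apply, QuotientGroup.eq_one_iff]
        exact hk
      rw [this]
      exact B.one_mem
    have h3 : Infinite (K.subgroupOf H) :=
      (Subgroup.subgroupOfEquivOfLe hKH).toEquiv.infinite_iff.2 hK
    have h4 : HL n (H ⧸ K.subgroupOf H) := ih h2 (K.subgroupOf H) h3
    -- the map `H → B`
    let f : H →* B := ((QuotientGroup.mk' K).comp H.subtype).codRestrict B (fun x => x.2)
    have hf : Function.Surjective f := by
      rintro ⟨b, hb⟩
      obtain ⟨g, rfl⟩ := QuotientGroup.mk'_surjective K b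
      exact ⟨⟨g, hb⟩, rfl⟩
    have hker : f.ker = K.subgroupOf H := by
      ext x
      rw [MonoidHom.mem_ker, Subgroup.mem_subgroupOf]
      rw [← Subtype.coe_inj]
      change QuotientGroup.mk' K (x : G) = 1 ↔ _
      rw [QuotientGroup.mk'_apply, QuotientGroup.eq_one_iff]
    exact h4.equiv ((QuotientGroup.quotientMulEquivOfEq hker.symm).trans
      (QuotientGroup.quotientKerEquivOfSurjective f hf))

/-- the two ways to see `A ⊓ B`. -/
noncomputable def subEquiv {G : Type} [Group G] (A B : Subgroup G) :
    A.subgroupOf B ≃* B.subgroupOf A :=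
  ((MulEquiv.subgroupCongr (Subgroup.inf_subgroupOf_right A B).symm).trans
    (Subgroup.subgroupOfEquivOfLe (inf_le_right : A ⊓ B ≤ B))).trans
  ((MulEquiv.subgroupCongr (Subgroup.inf_subgroupOf_left B A).symm).trans
    (Subgroup.subgroupOfEquivOfLe (inf_le_left : A ⊓ B ≤ A))).symm

theorem finite_of_fi {G : Type} [Group G] (H : Subgroup G) (hH : H.FiniteIndex)
    (h0 : Finite H) : Finite G := by
  have h1 : Nat.card H * H.index = Nat.card G := H.card_mul_index
  have h2 : Nat.card G ≠ 0 := by
    rw [← h1]
    exact mul_ne_zero Nat.card_pos.ne' hH.index_ne_zero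
  exact (Nat.card_ne_zero.1 h2).2

theorem HL.of_fi {G : Type} [Group G] {n : ℕ} (H : Subgroup G) (hH : H.FiniteIndex) (h : HL n H) :
    HL n G := by
  induction n generalizing G with
  | zero =>
    have h0 : Finite H := h
    exact finite_of_fi H hH h0
  | succ n ih =>
    intro A hA
    have h1 : A.relIndex H = 0 := by
      by_contra hne
      have e1 := Subgroup.relIndex_mul_index (inf_le_right : A ⊓ H ≤ H)
      rw [Subgroup.inf_relIndex_right] at e1
      have h2 : (A ⊓ H).index ≠ 0 := by
        rw [← e1]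
        exact mul_ne_zero hne hH.index_ne_zero
      have h3 := Subgroup.relIndex_mul_index (inf_le_left : A ⊓ H ≤ A)
      rw [hA, mul_zero] at h3
      exact h2 h3.symm
    have h2 : HL n (A.subgroupOf H) := h _ h1
    have h3 : (H.subgroupOf A).FiniteIndex := by
      refine ⟨?_⟩
      intro h0
      have := H.index_eq_zero_of_relIndex_eq_zero h0
      exact hH.index_ne_zero this
    exact ih (H.subgroupOf A) h3 (h2.equiv (subEquiv A H))

theorem relIndex_sup_ne {G : Type} [Group G] (A N : Subgroup G) [N.Normal]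
    (h : A.relIndex N ≠ 0) : A.relIndex (N ⊔ A) ≠ 0 := by
  have hfin : Finite (N ⧸ A.subgroupOf N) := (Subgroup.finiteIndex_iff_finite_quotient).1 ⟨h⟩
  have hf2 : Finite ((N ⊔ A : Subgroup G) ⧸ A.subgroupOf (N ⊔ A)) := by
    refine Finite.of_surjective (Subgroup.quotientSubgroupOfEmbeddingOfLE A
      (le_sup_left : N ≤ N ⊔ A)) ?_
    intro q
    induction q using QuotientGroup.induction_on with
    | H x =>
      obtain ⟨x, hx⟩ := x
      have hx' : x ∈ ((N ⊔ A : Subgroup G) : Set G) := hx
      rw [Subgroup.normal_mul] at hx'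
      obtain ⟨n, hn, a, ha, rfl⟩ := hx'
      refine ⟨QuotientGroup.mk ⟨n, hn⟩, ?_⟩
      rw [Subgroup.quotientSubgroupOfEmbeddingOfLE_apply_mk]
      rw [QuotientGroup.eq, Subgroup.mem_subgroupOf]
      simpa using ha
  exact ((Subgroup.finiteIndex_iff_finite_quotient).2 hf2).index_ne_zero

theorem HL.ext {G : Type} [Group G] (N : Subgroup G) [N.Normal] (a b : ℕ) (h1 : HL a N)
    (h2 : HL b (G ⧸ N)) : HL (a + b) G := by
  obtain ⟨k, hk⟩ : ∃ k, k = a + b := ⟨_, rfl⟩
  induction k generalizing G a b with
  | zero =>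
    obtain ⟨rfl, rfl⟩ : a = 0 ∧ b = 0 := by omega
    have f1 : Finite N := h1
    have f2 : Finite (G ⧸ N) := h2
    exact finite_of_fi N (Subgroup.finiteIndex_iff_finite_quotient.2 f2) f1
  | succ k ih =>
    rw [← hk]
    intro A hA
    -- `A / (A ∩ N)` is isomorphic to the image of `A`
    set B : Subgroup (G ⧸ N) := A.map (QuotientGroup.mk' N) with hB
    have e1 : (A ⧸ N.subgroupOf A) ≃* B := by
      let f : A →* B := (QuotientGroup.mk' N).subgroupMap A
      have hf : Function.Surjective f := (QuotientGroup.mk' N).subgroupMap_surjective A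
      have hker : f.ker = N.subgroupOf A := by
        ext x
        rw [MonoidHom.mem_ker, Subgroup.mem_subgroupOf]
        rw [← Subtype.coe_inj]
        change QuotientGroup.mk' N (x : G) = 1 ↔ _
        rw [QuotientGroup.mk'_apply, QuotientGroup.eq_one_iff]
      exact (QuotientGroup.quotientMulEquivOfEq hker.symm).trans
        (QuotientGroup.quotientKerEquivOfSurjective f hf)
    by_cases hc : A.relIndex N = 0
    · -- infinite index in `N`
      cases a with
      | zero =>
        have f1 : Finite N := h1
        exact absurd hc Subgroup.index_ne_zero_of_finite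
      | succ a =>
        have h3 : HL a (A.subgroupOf N) := h1 _ hc
        have h4 : HL a (N.subgroupOf A) := h3.equiv (subEquiv A N)
        have h5 : HL b (A ⧸ N.subgroupOf A) := (h2.sub B).equiv e1.symm
        have hka : k = a + b := by omega
        rw [hka]
        exact ih (N.subgroupOf A) a b h4 h5 hka
    · -- infinite index in the quotient
      cases b with
      | zero =>
        have f2 : Finite (G ⧸ N) := h2
        exfalso
        have h3 := relIndex_sup_ne A N hc
        have h4 := Subgroup.relIndex_mul_index (le_sup_right : A ≤ N ⊔ A)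
        rw [hA] at h4
        rcases mul_eq_zero.1 h4 with h | h
        · exact h3 h
        · have h5 := Subgroup.relIndex_mul_index (le_sup_left : N ≤ N ⊔ A)
          rw [h, mul_zero] at h5
          exact (Subgroup.index_ne_zero_of_finite (H := N)) h5.symm
      | succ b =>
        have h3 : B.index = 0 := by
          by_contra hne
          have h4 : (A ⊔ (QuotientGroup.mk' N).ker).index ≠ 0 := by
            have h5 := Subgroup.index_map (H := A) (QuotientGroup.mk' N)
            rw [← hB] at h5
            intro h0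
            rw [h0, zero_mul] at h5
            exact hne h5
          rw [QuotientGroup.ker_mk', sup_comm] at h4
          have h3 := relIndex_sup_ne A N hc
          have h5 := Subgroup.relIndex_mul_index (le_sup_right : A ≤ N ⊔ A)
          rw [hA] at h5
          rcases mul_eq_zero.1 h5 with h | h
          · exact h3 h
          · exact h4 h
        have h4 : HL b B := h2 _ h3
        have h5 : HL b (A ⧸ N.subgroupOf A) := h4.equiv e1.symm
        have h6 : HL a (N.subgroupOf A) := (h1.sub (A.subgroupOf N)).equiv (subEquiv A N)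
        have hka : k = a + b := by omega
        rw [hka]
        exact ih (N.subgroupOf A) a b h6 h5 hka

theorem HL.cyclic {Q : Type} [Group Q] (g : Q) (hg : Subgroup.zpowers g = ⊤) : HL 1 Q := by
  intro H hH
  by_contra hinf
  have hinf' : ¬ Finite H := hinf
  have hne : ∃ x ∈ H, x ≠ 1 := by
    by_contra hcon
    push Not at hcon
    apply hinf'
    have : H = ⊥ := by
      rw [eq_bot_iff]
      intro x hx
      rw [Subgroup.mem_bot]
      exact hcon x hx
    rw [this]
    infer_instance
  obtain ⟨x, hx, hx1⟩ := hne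
  have hxg : x ∈ Subgroup.zpowers g := by rw [hg]; trivial
  obtain ⟨k, rfl⟩ := Subgroup.mem_zpowers_iff.1 hxg
  have hk : k ≠ 0 := by
    rintro rfl
    simp at hx1
  -- finitely many cosets
  have hN : H.Normal := by
    refine ⟨fun y hy z => ?_⟩
    have hyg : y ∈ Subgroup.zpowers g := by rw [hg]; trivial
    have hzg : z ∈ Subgroup.zpowers g := by rw [hg]; trivial
    obtain ⟨a, rfl⟩ := Subgroup.mem_zpowers_iff.1 hyg
    obtain ⟨b, rfl⟩ := Subgroup.mem_zpowers_iff.1 hzg
    have : g ^ b * g ^ a * (g ^ b)⁻¹ = g ^ a := by group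
    rw [this]
    exact hy
  have hfin : Finite (Q ⧸ H) := by
    let q : Q ⧸ H := QuotientGroup.mk' H g
    have hq : q ^ k = 1 := by
      have : q ^ k = QuotientGroup.mk' H (g ^ k) := by
        rw [map_zpow]
      rw [this, QuotientGroup.mk'_apply, QuotientGroup.eq_one_iff]
      exact hx
    have hfo : IsOfFinOrder q := isOfFinOrder_iff_zpow_eq_one.2 ⟨k, hk, hq⟩
    have hall : Subgroup.zpowers q = ⊤ := by
      rw [eq_top_iff]
      intro y _
      obtain ⟨z, rfl⟩ := QuotientGroup.mk'_surjective H y
      have hzg : z ∈ Subgroup.zpowers g := by rw [hg]; trivial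
      obtain ⟨b, rfl⟩ := Subgroup.mem_zpowers_iff.1 hzg
      exact Subgroup.mem_zpowers_iff.2 ⟨b, by rw [map_zpow]⟩
    have h1 : (Subgroup.zpowers q : Set (Q ⧸ H)).Finite := hfo.finite_zpowers
    rw [hall] at h1
    exact Set.finite_univ_iff.1 (by simpa using h1)
  exact (Subgroup.index_ne_zero_of_finite (H := H)) hH

theorem exists_HL_step {G : Type} [Group G] {H K : Subgroup G} (hs : CStep H K)
    (h : ∃ n, HL n H) : ∃ n, HL n K := by
  obtain ⟨g, hg, rfl⟩ := hs
  obtain ⟨n, hn⟩ := h
  set K := H ⊔ Subgroup.zpowers g with hK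
  have hHK : H ≤ K := le_sup_left
  have hgK : g ∈ K := (le_sup_right : Subgroup.zpowers g ≤ K) (Subgroup.mem_zpowers g)
  -- `H` is normalised by `K`
  have hle : K ≤ Subgroup.normalizer (H : Set G) := by
    rw [hK]
    refine sup_le Subgroup.le_normalizer ?_
    rw [Subgroup.zpowers_le, Subgroup.mem_normalizer_iff]
    exact hg
  have hN : (H.subgroupOf K).Normal := Subgroup.normal_subgroupOf_of_le_normalizer hle
  have h1 : HL n (H.subgroupOf K) := hn.equiv (Subgroup.subgroupOfEquivOfLe hHK).symm
  have h2 : HL 1 (K ⧸ H.subgroupOf K) := by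
    refine HL.cyclic (QuotientGroup.mk' (H.subgroupOf K) ⟨g, hgK⟩) ?_
    rw [eq_top_iff]
    intro y _
    obtain ⟨⟨z, hz⟩, rfl⟩ := QuotientGroup.mk'_surjective (H.subgroupOf K) y
    have hz' : z ∈ ((H ⊔ Subgroup.zpowers g : Subgroup G) : Set G) := hz
    have hle2 : Subgroup.zpowers g ≤ Subgroup.normalizer (H : Set G) :=
      (le_sup_right : Subgroup.zpowers g ≤ K).trans hle
    rw [sup_comm, Subgroup.coe_mul_of_left_le_normalizer_right _ _ hle2] at hz'
    obtain ⟨a, ha, b, hb, hab⟩ := hz'
    obtain ⟨i, rfl⟩ := Subgroup.mem_zpowers_iff.1 ha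
    rw [Subgroup.mem_zpowers_iff]
    refine ⟨i, ?_⟩
    rw [← map_zpow, QuotientGroup.mk'_apply, QuotientGroup.mk'_apply, QuotientGroup.eq,
      Subgroup.mem_subgroupOf]
    have hab' : z = g ^ i * b := hab.symm
    have : ((((⟨g, hgK⟩ : K) ^ i)⁻¹ * ⟨z, hz⟩ : K) : G) = b := by
      simp [hab']
    rw [this]
    exact hb
  exact ⟨n + 1, HL.ext (H.subgroupOf K) n 1 h1 h2⟩

theorem PC.exists_HL {G : Type} [Group G] (h : PC G) : ∃ n, HL n G := by
  have hc : CChain (⊥ : Subgroup G) ⊤ := h.cchain_bot ⊤
  have key : ∀ K : Subgroup G, CChain ⊥ K → ∃ n, HL n K := by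
    intro K hK
    induction hK with
    | refl => exact ⟨0, (inferInstance : Finite (⊥ : Subgroup G))⟩
    | tail _ hs ih => exact exists_HL_step hs ih
  obtain ⟨n, hn⟩ := key ⊤ hc
  exact ⟨n, hn.equiv Subgroup.topEquiv⟩

theorem PC.hl_spec {G : Type} [Group G] (h : PC G) : HL (hl G) G :=
  Nat.sInf_mem (s := {n | HL n G}) h.exists_HL

theorem hl_le {G : Type} [Group G] {n : ℕ} (h : HL n G) : hl G ≤ n :=
  Nat.sInf_le (s := {n | HL n G}) h

theorem PC.hl_lt {G : Type} [Group G] (h : PC G) (H K : Subgroup G) (hHK : H ≤ K)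
    (hi : H.relIndex K = 0) : hl H < hl K := by
  have h1 : HL (hl K) K := (h.sub K).hl_spec
  cases hm : hl K with
  | zero =>
    rw [hm] at h1
    have f1 : Finite K := h1
    exact absurd hi Subgroup.index_ne_zero_of_finite
  | succ m =>
    rw [hm] at h1
    have h2 : HL m (H.subgroupOf K) := h1 _ hi
    have h3 : HL m H := h2.equiv (Subgroup.subgroupOfEquivOfLe hHK)
    exact Nat.lt_succ_of_le (hl_le h3)

theorem PC.hl_equiv {G G' : Type} [Group G] [Group G'] (e : G ≃* G') : hl G = hl G' := by
  unfold hl
  congr 1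
  ext n
  exact ⟨fun h => HL.equiv h e, fun h => HL.equiv h e.symm⟩

theorem PC.hl_fi {G : Type} [Group G] (h : PC G) (H K : Subgroup G) (hHK : H ≤ K)
    (hi : H.relIndex K ≠ 0) : hl H = hl K := by
  rw [← PC.hl_equiv (Subgroup.subgroupOfEquivOfLe hHK)]
  apply le_antisymm
  · exact hl_le ((h.sub K).hl_spec.sub (H.subgroupOf K))
  · exact hl_le (HL.of_fi (H.subgroupOf K) ⟨hi⟩ (((h.sub K).sub (H.subgroupOf K)).hl_spec))

end Pool.Agent.Polc
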