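import Mathlib
import Pool.Agent.Polc.Deduce
import Pool.Agent.Polc.PCB1
import Pool.Agent.Polc.HLM

/-!
# Module DED: `ih_zero` and the deduction of the frozen statement
-/

set_option autoImplicit false

namespace Pool.Agent.Polc

theorem ih_zero : IH 0 := by
  intro G _ _ hfin M _ _ _
  have hf : Finite G := hfin
  refine ⟨Nat.card G, 1, Nat.card_pos, fun x _ m _ n r _ _ => ?_⟩
  have hx : x ^ Nat.card G = 1 := pow_card_eq_one'
  rw [hx, map_one, sub_self, pow_one]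
  exact zero_mem _

theorem stunted_eremitic_of_ih (hall : ∀ n, IH n) :
    ∀ (Γ : Type) [Group Γ], IsSolvable Γ → (∀ H : Subgroup Γ, H.FG) →
      ∀ (A : Type) [AddCommGroup A] [DistribMulAction Γ A],
        (∃ S : Finset A, AddSubgroup.closure {a : A | ∃ g : Γ, ∃ s ∈ S, a = g • s} = ⊤) →
        Nontrivial A →
        ∃ Y : AddSubgroup A, Y ≠ ⊥ ∧ (∀ g : Γ, ∀ y ∈ Y, g • y ∈ Y) ∧
          (∃ h : ℕ, ∀ H : Subgroup Γ, ∀ y ∈ Y,
            (∃ n : ℕ, ∀ l : List Γ, l.length = n → (∀ x ∈ l, x ∈ H) →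
                l.foldl (fun (b : A) (x : Γ) => x • b - b) y = 0) →
            ∀ l : List Γ, l.length = h → (∀ x ∈ l, x ∈ H) →
                l.foldl (fun (b : A) (x : Γ) => x • b - b) y = 0) ∧
          (∃ e : ℕ, 0 < e ∧ ∀ x : Γ, ∀ n : ℕ, 0 < n → ∀ y ∈ Y,
            x ^ n • y = y → x ^ e • y = y) := by
  intro Γ _ hs hfg A _ _ hA hnt
  exact deduce (fun G _ h => PC.cchain_bot h ⊤) (fun G _ h => PC.exists_HL h) hall Γ hs hfg A hA hnt

end Pool.Agent.Polc
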