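import Pool.Agent.Polc.Defs

/-!
Definitions for the second part of the proof for `MP_9e8505_al`.
See /team-store/polc_blueprint2.md for the mathematics.
-/

set_option autoImplicit false

namespace Pool.Agent.Polc

section
variable {G : Type} [Group G]

/-- multi-commutators `[..[[v, z1], z2].., zk]` -/
def mc (z : List G) (v : G) : G := z.foldl cm v

/-- `V` is the abelian section `K / L` with the conjugation action, `cl` is the quotient map
(junk outside `K`) -/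
structure Sec (K L : Subgroup G) (V : Type) [AddCommGroup V] [DistribMulAction G V]
    (cl : G → V) : Prop where
  surj : ∀ v : V, ∃ a ∈ K, cl a = v
  add : ∀ a ∈ K, ∀ b ∈ K, cl (a * b) = cl a + cl b
  ker : ∀ a ∈ K, (cl a = 0 ↔ a ∈ L)
  conj : ∀ (g : G), ∀ a ∈ K, cl (g * a * g⁻¹) = g • cl a

/-- the group generated by multi-commutators of elements of `E` with `j` elements of `N`,
together with `U` -/
def Bsub (N U E : Subgroup G) (j : ℕ) : Subgroup G :=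
  Subgroup.closure {b | ∃ z : List G, z.length = j ∧ (∀ g ∈ z, g ∈ N) ∧ ∃ v ∈ E, b = mc z v} ⊔ U

/-- chain of cyclic steps from `H0` to `H` with commutators in `p`-th powers -/
def RChain (p : ℕ) (H0 H : Subgroup G) : Prop :=
  ∃ (n : ℕ) (c : ℕ → Subgroup G), c 0 = H0 ∧ c n = H ∧
    ∀ j < n, ∃ g : G, c (j + 1) = c j ⊔ Subgroup.zpowers g ∧
      ∀ h ∈ c j, cm g h ∈ Subgroup.closure {k | ∃ v ∈ c j, k = v ^ p} ⊔ c 0 ∧
        cm g⁻¹ h ∈ Subgroup.closure {k | ∃ v ∈ c j, k = v ^ p} ⊔ c 0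

end

section
variable (n c : ℕ) (G M : Type) [Group G] [AddCommGroup M] [DistribMulAction G M]

/-- totally bad module with a central algebraic subgroup `U` -/
structure UConf (U : Subgroup G) : Prop where
  tb : TBad n G M
  ch : Char c M
  cen : ∀ u ∈ U, ∀ g : G, g * u = u * g
  alg : ∀ u ∈ U, ∀ m : M, Alg c u m

end

/-- `k` bounds the Hirsch length of `U` in all configurations -/
def UMax (n c k : ℕ) : Prop :=
  ∀ (G M : Type) [Group G] [AddCommGroup M] [DistribMulAction G M] (U : Subgroup G),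
    UConf n c G M U → hl U ≤ k

/-- the situation after all choices -/
structure Stage (n c : ℕ) (G M : Type) [Group G] [AddCommGroup M] [DistribMulAction G M]
    (U N : Subgroup G) [U.Normal] [N.Normal] (x : G) (w : M) : Prop where
  uc : UConf n c G M U
  umax : UMax n c (hl U)
  utor : ∀ (g : G) (k : ℕ), 0 < k → g ^ k ∈ U → g ∈ U
  UN : U ≤ N
  ab : ∀ a b : G, cm a b ∈ N
  nil : ∃ j, ucs N U j = N
  xw : x • w = w
  wne : w ≠ 0
  gen : gspan (⊤ : Subgroup G) {w} = ⊤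
  xU : x ∉ U

/-- case 1: `x ∈ N` -/
structure Case1 {G : Type} [Group G] (U N : Subgroup G) [U.Normal] [N.Normal] (x : G) (j : ℕ) :
    Prop where
  mem : x ∈ ucs N U (j + 1)
  nmem : x ∉ ucs N U j
  min : ∀ G2 : Subgroup G, G2.FiniteIndex → ∃ k, 0 < k ∧ ∀ γ : G,
    (γ * x * γ⁻¹) ^ k ∈ Subgroup.closure {a | ∃ δ ∈ G2, a = δ * x * δ⁻¹} ⊔ ucs N U j

/-- case 2: `x` acts with infinite order on `ucs (j+1) / ucs j` -/
structure Case2 {G : Type} [Group G] (U N : Subgroup G) [U.Normal] [N.Normal] (x : G) (j : ℕ) :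
    Prop where
  ex : ∃ v ∈ ucs N U (j + 1), cm x v ∉ ucs N U j
  ker : ∀ k, 0 < k → ∀ v ∈ ucs N U (j + 1), cm (x ^ k) v ∈ ucs N U j → cm x v ∈ ucs N U j

/-- the subgroup `E` between `ucs j` and `ucs (j+1)` in case 1 -/
def E1 {G : Type} [Group G] (U N : Subgroup G) [U.Normal] [N.Normal] (x : G) (j : ℕ) :
    Subgroup G := Subgroup.closure {a | ∃ δ : G, a = δ * x * δ⁻¹} ⊔ ucs N U j

/-- the subgroup `E` between `ucs j` and `ucs (j+1)` in case 2 -/
def E2 {G : Type} [Group G] (U N : Subgroup G) [U.Normal] [N.Normal] (x : G) (j : ℕ) :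
    Subgroup G := Subgroup.closure {a | ∃ v ∈ ucs N U (j + 1), a = cm x v} ⊔ ucs N U j

/-- the level data -/
structure Lv (G M : Type) [Group G] [AddCommGroup M] [DistribMulAction G M]
    (U N B : Subgroup G) (x : G) (w : M) (V : Type) [AddCommGroup V] [DistribMulAction G V] where
  Q : ℕ → Type
  iQ : ∀ i, AddCommGroup (Q i)
  aQ : ∀ i, DistribMulAction G (Q i)
  π : ∀ i, M →+ Q i
  p : ℕ → ℕ
  H : ℕ → Subgroup G
  t : ℕ → ℕ
  κ : ℕ → ℕ
  equiv : ∀ i (g : G) (m : M), π i (g • m) = g • π i m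
  prime : ∀ i, (p i).Prime
  char : ∀ i (q : Q i), p i • q = 0
  Hn : ∀ i, (H i).Normal
  HN : ∀ i, H i ≤ N
  Hfi : ∀ i, (H i).relIndex N ≠ 0
  HU : ∀ i, ∀ u ∈ U ⊓ H i, ∀ q : Q i, u • q = q
  chain : ∀ i, RChain (p i) (U ⊓ H i) (H i)
  tpos : ∀ i, 0 < t i
  κpos : ∀ i, 0 < κ i
  κH : ∀ i, ∀ g ∈ N, g ^ κ i ∈ H i
  esc : ∀ m : M, m ≠ 0 → ∃ i0, ∀ i ≥ i0, π i m ≠ 0
  rf : ∀ (Φ : Finset G) (m : M), ∃ i0, ∀ i ≥ i0, π i m ≠ 0 →
    ∃ n, π i m ∉ dpow (H i) n (gspan N ((fun g => π i (g • w)) '' (Φ : Set G)))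
  comm : ∀ i s (g : G), cm (g * x ^ (t i * p i ^ s) * g⁻¹ * (x ^ (t i * p i ^ s))⁻¹)
      (x ^ (t i * p i ^ s)) ∈ Subgroup.closure {k | ∃ v ∈ H i, k = v ^ (p i ^ (2 * s))} ⊔ (U ⊓ H i)
  nofix : ∀ i k (q : Q i), 0 < k → (∀ b ∈ B, b ^ k • q = q) → q = 0
  deepN : ∀ i, ∀ g ∈ N, cm g (x ^ t i) ∈ H i
  deepx : x ∈ N → ∀ i, x ^ t i ∈ H i
  deepV : ∀ i, ∀ v : V, ∃ v' : V, x ^ t i • v = v + (p i ^ 2 * i.factorial * κ i) • v'

attribute [instance] Lv.iQ Lv.aQ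

section
variable {G M : Type} [Group G] [AddCommGroup M] [DistribMulAction G M]
    {U N B : Subgroup G} {x : G} {w : M} {V : Type} [AddCommGroup V] [DistribMulAction G V]

/-- `V_Φ` at level `i` -/
def Lv.VF (L : Lv G M U N B x w V) (i : ℕ) (Φ : Finset G) : AddSubgroup (L.Q i) :=
  gspan N ((fun g => L.π i (g • w)) '' (Φ : Set G))

/-- admissible families -/
def Lv.Fam (L : Lv G M U N B x w V) (v : ∀ i, ℕ → L.Q i) : Prop :=
  ∃ Φ : Finset G, ∀ i s, v i s ∈ L.VF i Φ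

/-- null families -/
def Lv.Null (L : Lv G M U N B x w V) (v : ∀ i, ℕ → L.Q i) : Prop :=
  ∃ Φ : Finset G, ∃ i0, ∀ i ≥ i0, ∀ C : ℕ, ∃ s0, ∀ s ≥ s0,
    v i s ∈ dpow (L.H i) (C * L.p i ^ s) (L.VF i Φ)

/-- the family `ξ` and its conjugates -/
def Lv.xi (L : Lv G M U N B x w V) (γ : G) : ℕ → ℕ → G :=
  fun i s => γ * x ^ (L.t i * L.p i ^ s) * γ⁻¹

/-- the group generated by the conjugates of `ξ` -/
def Lv.HH (L : Lv G M U N B x w V) : Subgroup (ℕ → ℕ → G) :=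
  Subgroup.closure (Set.range L.xi)

/-- `(g - 1) v` for families -/
def Lv.dl (L : Lv G M U N B x w V) (g : ℕ → ℕ → G) (v : ∀ i, ℕ → L.Q i) : ∀ i, ℕ → L.Q i :=
  fun i s => g i s • v i s - v i s

/-- property `PP` of an element `b`: at every large level some power of `b` fixes the family
`v` up to small terms -/
def Lv.PP (L : Lv G M U N B x w V) (v : ∀ i, ℕ → L.Q i) (b : G) : Prop :=
  ∃ Φ : Finset G, ∃ i0, ∀ i ≥ i0, ∃ K, 0 < K ∧ ∀ C : ℕ, ∃ s0, ∀ s ≥ s0,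
    b ^ (K * L.p i ^ s) ∈ L.H i ∧
      b ^ (K * L.p i ^ s) • v i s - v i s ∈ dpow (L.H i) (C * L.p i ^ s) (L.VF i Φ)

/-- what the symbol module argument produces -/
structure Lv.Sym (L : Lv G M U N B x w V) (v : ∀ i, ℕ → L.Q i) (G3 : Subgroup G) (γ0 : G) :
    Prop where
  fam : L.Fam v
  nnull : ¬ L.Null v
  fi : G3.FiniteIndex
  nor : G3.Normal
  xi : L.Null (L.dl (L.xi γ0) v)
  conj : ∀ g ∈ L.HH, ∀ γ ∈ G3, L.Null (L.dl g v) →
    L.Null (L.dl (fun i s => γ * g i s * γ⁻¹) v)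

end

end Pool.Agent.Polc
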