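import Pool.Agent.Polc.FL
import Pool.Agent.Polc.Defs2

set_option autoImplicit false

namespace Pool.Agent.Polc

/-! ############ MODULE PADIC ############ -/

/-- commutative algebra version of the geometric estimate -/
theorem padic_aux {R : Type*} [CommRing R] (p : ℕ) (e : R) (s : ℕ) :
    ∃ w : R, (1 + (p : R) ^ 2 * e) ^ (p ^ s) - 1 =
      ((p : R) ^ 2 * e) * (p : R) ^ s * (1 + (p : R) * w) := by
  induction s with
  | zero => exact ⟨0, by ring⟩
  | succ s ih =>
    obtain ⟨w, hw⟩ := ih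
    set a : R := (1 + (p : R) ^ 2 * e) ^ (p ^ s) with ha
    -- a = 1 + p^2 z
    have hz : ∃ z : R, a = 1 + (p : R) ^ 2 * z := by
      refine ⟨e * (p : R) ^ s * (1 + (p : R) * w), ?_⟩
      have := eq_add_of_sub_eq hw
      rw [this]; ring
    obtain ⟨z, hz⟩ := hz
    have hpow : ∀ i : ℕ, ∃ y : R, a ^ i = 1 + (p : R) ^ 2 * y := by
      intro i
      induction i with
      | zero => exact ⟨0, by ring⟩
      | succ i ih =>
        obtain ⟨y, hy⟩ := ih
        refine ⟨y + z + (p : R) ^ 2 * y * z, ?_⟩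
        rw [pow_succ, hy, hz]; ring
    choose y hy using hpow
    have hgeom : a ^ p - 1 = (a - 1) * ((p : R) + (p : R) ^ 2 * ∑ i ∈ Finset.range p, y i) := by
      have h1 : (∑ i ∈ Finset.range p, a ^ i) * (a - 1) = a ^ p - 1 := geom_sum_mul a p
      rw [← h1]
      have h2 : (∑ i ∈ Finset.range p, a ^ i) = (p : R) + (p : R) ^ 2 * ∑ i ∈ Finset.range p, y i := by
        rw [Finset.sum_congr rfl (fun i _ => hy i), Finset.sum_add_distrib, Finset.mul_sum]
        simp
      rw [h2]; ring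
    refine ⟨w + ∑ i ∈ Finset.range p, y i + (p : R) * w * ∑ i ∈ Finset.range p, y i, ?_⟩
    have h3 : (1 + (p : R) ^ 2 * e) ^ (p ^ (s + 1)) = a ^ p := by
      rw [ha, ← pow_mul, ← pow_succ]
    rw [h3, hgeom, hw]; ring

theorem padic_closure {V : Type} [AddCommGroup V] (ε : AddMonoid.End V) (v : V)
    (f : Polynomial ℤ) :
    (Polynomial.aeval ε f : AddMonoid.End V) v ∈
      AddSubgroup.closure {u : V | ∃ k : ℕ, u = (ε ^ k) v} := by
  induction f using Polynomial.induction_on' with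
  | add p q hp hq =>
    rw [map_add]
    exact AddSubgroup.add_mem _ hp hq
  | monomial n a =>
    rw [Polynomial.aeval_monomial]
    have : ((algebraMap ℤ (AddMonoid.End V) a * ε ^ n : AddMonoid.End V)) v = a • ((ε ^ n) v) := by
      rw [← Algebra.smul_def]; rfl
    rw [this]
    have h1 : (ε ^ n) v ∈ {u : V | ∃ k : ℕ, u = (ε ^ k) v} := ⟨n, rfl⟩
    exact AddSubgroup.zsmul_mem _ (AddSubgroup.subset_closure h1) a

/-- `p`-adic closure lemma -/
theorem padic {V : Type} [AddCommGroup V] (p : ℕ) (hp : p.Prime) (τ ε : AddMonoid.End V)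
    (hτ : τ = 1 + (p ^ 2) • ε) (s T : ℕ) (v : V) :
    ∃ v1 ∈ AddSubgroup.closure {u : V | ∃ k : ℕ, u = (ε ^ k) v}, ∃ v2 : V,
      p ^ s • ((τ - 1) v) = (τ ^ (p ^ s) - 1) v1 + p ^ (s + T) • ((τ - 1) v2) := by
  obtain ⟨w, hw⟩ := padic_aux (R := Polynomial ℤ) p Polynomial.X s
  set t : Polynomial ℤ := 1 + (p : Polynomial ℤ) ^ 2 * Polynomial.X with ht
  set r : Polynomial ℤ := ∑ l ∈ Finset.range T, (-(p : Polynomial ℤ) * w) ^ l with hr
  have hrr : (1 + (p : Polynomial ℤ) * w) * r = 1 - (p : Polynomial ℤ) ^ T * (-w) ^ T := by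
    have h1 := mul_neg_geom_sum (-(p : Polynomial ℤ) * w) T
    rw [← hr] at h1
    have h2 : (1 - -(p : Polynomial ℤ) * w) = 1 + (p : Polynomial ℤ) * w := by ring
    rw [h2] at h1
    rw [h1, ← mul_pow]; ring
  have key : (p : Polynomial ℤ) ^ s * (t - 1) =
      (t ^ (p ^ s) - 1) * r + (p : Polynomial ℤ) ^ (s + T) * ((t - 1) * (-w) ^ T) := by
    rw [hw]
    have h3 : (p : Polynomial ℤ) ^ 2 * Polynomial.X * (p : Polynomial ℤ) ^ s *
        (1 + (p : Polynomial ℤ) * w) * r = (p : Polynomial ℤ) ^ 2 * Polynomial.X *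
          (p : Polynomial ℤ) ^ s * ((1 + (p : Polynomial ℤ) * w) * r) := by ring
    rw [h3, hrr, ht]; ring
  have haev : Polynomial.aeval ε t = τ := by
    rw [ht, hτ, map_add, map_mul, map_pow, map_natCast, map_one, Polynomial.aeval_X, nsmul_eq_mul]
    push_cast
    rfl
  refine ⟨(Polynomial.aeval ε r : AddMonoid.End V) v, padic_closure ε v r,
    (Polynomial.aeval ε ((-w) ^ T) : AddMonoid.End V) v, ?_⟩
  have h4 := congrArg (fun f : AddMonoid.End V => f v) (congrArg (Polynomial.aeval ε) key)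
  simp only [map_add, map_mul, map_pow, map_sub, map_one, map_natCast, haev] at h4
  have hn : ∀ (n : ℕ) (f : AddMonoid.End V) (u : V), ((n : AddMonoid.End V) * f) u = n • f u := by
    intro n f u
    rw [← nsmul_eq_mul]; rfl
  have h5 : (((p : AddMonoid.End V) ^ s) * (τ - 1)) v = p ^ s • ((τ - 1) v) := by
    rw [← Nat.cast_pow, hn]
  have h6 : (((p : AddMonoid.End V) ^ (s + T)) * ((τ - 1) * (Polynomial.aeval ε (-w)) ^ T)) v
      = p ^ (s + T) • ((τ - 1) (((Polynomial.aeval ε (-w)) ^ T : AddMonoid.End V) v)) := by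
    rw [← Nat.cast_pow, hn]; rfl
  rw [map_pow, ← h5, ← h6, h4]
  rfl

/-! ### inj_fi, im_fi -/

/-- an injective endomorphism of a finitely generated torsion-free group has finite cokernel -/
theorem inj_fi {V : Type} [AddCommGroup V] (hV : Module.Finite ℤ V)
    (htf : ∀ (k : ℕ) (w : V), 0 < k → k • w = 0 → w = 0) (φ : AddMonoid.End V)
    (hφ : Function.Injective φ) : ∃ k, 0 < k ∧ ∀ v : V, ∃ v' : V, k • v = φ v' := by
  haveI := hV
  haveI : Module.IsTorsionFree ℤ V := by
    refine ⟨fun r hr a b hab => ?_⟩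
    have hr0 : r ≠ 0 := hr.ne_zero
    have h1 : r • (a - b) = 0 := by
      rw [smul_sub]; exact sub_eq_zero.2 hab
    have h2 : r.natAbs • (a - b) = 0 := by
      rcases Int.natAbs_eq r with h | h
      · rw [h, natCast_zsmul] at h1; exact h1
      · rw [h, neg_smul, natCast_zsmul, neg_eq_zero] at h1; exact h1
    exact sub_eq_zero.1 (htf _ _ (Int.natAbs_pos.2 hr0) h2)
  haveI : Module.Free ℤ V := inferInstance
  set f : V →ₗ[ℤ] V := φ.toIntLinearMap with hf
  have hfr : Module.finrank ℤ (LinearMap.range f) = Module.finrank ℤ V :=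
    LinearMap.finrank_range_of_inj hφ
  haveI : Finite (V ⧸ LinearMap.range f) := Submodule.finiteQuotientOfFreeOfRankEq _ hfr
  haveI : Fintype (V ⧸ LinearMap.range f) := Fintype.ofFinite _
  refine ⟨Fintype.card (V ⧸ LinearMap.range f), Fintype.card_pos, fun v => ?_⟩
  have h1 : Fintype.card (V ⧸ LinearMap.range f) • (Submodule.Quotient.mk v : V ⧸ LinearMap.range f) = 0 :=
    card_nsmul_eq_zero
  rw [← Submodule.Quotient.mk_smul, Submodule.Quotient.mk_eq_zero] at h1
  obtain ⟨v', hv'⟩ := h1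
  exact ⟨v', hv'.symm⟩

/-- if `ker (θ^t - 1) = ker (θ - 1)` then `im (θ^t - 1)` has finite index in `im (θ - 1)` -/
theorem im_fi {V : Type} [AddCommGroup V] (hV : Module.Finite ℤ V)
    (htf : ∀ (k : ℕ) (w : V), 0 < k → k • w = 0 → w = 0) (θ : AddMonoid.End V) (t : ℕ)
    (ht : 0 < t) (hker : ∀ v : V, (θ ^ t) v = v → θ v = v) :
    ∃ k, 0 < k ∧ ∀ v : V, ∃ v' : V, k • (θ v - v) = (θ ^ t) v' - v' := by
  haveI := hV
  set ψ : AddMonoid.End V := ∑ i ∈ Finset.range t, θ ^ i with hψ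
  have hg : ψ * (θ - 1) = θ ^ t - 1 := by rw [hψ]; exact geom_sum_mul θ t
  have hg' : (θ - 1) * ψ = θ ^ t - 1 := by rw [hψ]; exact mul_geom_sum θ t
  -- the image of θ - 1
  set W : AddSubgroup V := AddMonoidHom.range (θ - 1 : AddMonoid.End V) with hW
  have hWfg : Module.Finite ℤ W := by
    have : Module.Finite ℤ (AddSubgroup.toIntSubmodule W) := inferInstance
    exact this
  have hstab : ∀ w : W, ψ (w : V) ∈ W := by
    rintro ⟨w, v, rfl⟩
    refine ⟨ψ v, ?_⟩
    have h1 := congrArg (fun f : AddMonoid.End V => f v) (hg'.trans hg.symm)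
    exact h1
  set φ : AddMonoid.End W := (ψ.comp W.subtype).codRestrict W hstab with hφ
  have hinj : Function.Injective φ := by
    rw [injective_iff_map_eq_zero]
    rintro ⟨w, v, rfl⟩ h0
    have h1 : ψ ((θ - 1 : AddMonoid.End V) v) = 0 := congrArg Subtype.val h0
    have h2 : (θ ^ t - 1 : AddMonoid.End V) v = 0 := by rw [← hg]; exact h1
    have h3 : (θ ^ t) v = v := by
      have : (θ ^ t) v - v = 0 := h2
      exact sub_eq_zero.1 this
    apply Subtype.ext
    show θ v - v = 0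
    rw [hker v h3, sub_self]
  have htfW : ∀ (k : ℕ) (w : W), 0 < k → k • w = 0 → w = 0 := by
    intro k w hk hw
    apply Subtype.ext
    exact htf k w hk (by simpa using congrArg Subtype.val hw)
  obtain ⟨k, hk, hk'⟩ := inj_fi hWfg htfW φ hinj
  refine ⟨k, hk, fun v => ?_⟩
  obtain ⟨⟨w', v', rfl⟩, hv'⟩ := hk' ⟨(θ - 1 : AddMonoid.End V) v, v, rfl⟩
  refine ⟨v', ?_⟩
  have h1 := congrArg Subtype.val hv'
  have h2 : ψ ((θ - 1 : AddMonoid.End V) v') = (θ ^ t) v' - v' := by
    have := congrArg (fun f : AddMonoid.End V => f v') hg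
    exact this
  rw [← h2]
  exact h1

/-! ############ MODULE ESC (uses FL) ############ -/

section mod
variable {G M : Type} [Group G] [AddCommGroup M] [DistribMulAction G M]

theorem esc_end_add (f g : AddMonoid.End M) (z : M) : (f + g) z = f z + g z := rfl
theorem esc_end_sub (f g : AddMonoid.End M) (z : M) : (f - g) z = f z - g z := rfl

theorem esc_mem (b : G) (m : M) (y : M) (hy : y ∈ gspan (Subgroup.zpowers b) {m}) :
    ∃ (l : ℕ) (f : Polynomial ℤ), (b ^ l) • y = (Polynomial.aeval (ac M b) f : AddMonoid.End M) m := by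
  have hX : ∀ (n : ℕ) (f : Polynomial ℤ) (z : M),
      (Polynomial.aeval (ac M b) (Polynomial.X ^ n * f) : AddMonoid.End M) z =
        b ^ n • (Polynomial.aeval (ac M b) f : AddMonoid.End M) z := by
    intro n f z
    rw [map_mul, map_pow, Polynomial.aeval_X, ← map_pow]
    rfl
  unfold gspan at hy
  induction hy using AddSubgroup.closure_induction with
  | mem y hy =>
    obtain ⟨h, ⟨k, rfl⟩, f, hf, rfl⟩ := hy
    rw [Set.mem_singleton_iff] at hf
    subst hf
    refine ⟨k.natAbs, Polynomial.X ^ (k.natAbs + k).toNat, ?_⟩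
    have h1 : (((k.natAbs + k).toNat : ℕ) : ℤ) = k.natAbs + k := by
      apply Int.toNat_of_nonneg; omega
    have h2 : b ^ k.natAbs * b ^ k = b ^ (k.natAbs + k).toNat := by
      rw [← zpow_natCast b (k.natAbs + k).toNat, h1, zpow_add, zpow_natCast]
    show b ^ k.natAbs • b ^ k • f = _
    rw [smul_smul, h2, ← mul_one (Polynomial.X ^ (k.natAbs + k).toNat), hX]
    simp
  | zero => exact ⟨0, 0, by simp⟩
  | add y z _ _ hy hz =>
    obtain ⟨l1, f1, h1⟩ := hy
    obtain ⟨l2, f2, h2⟩ := hz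
    refine ⟨l1 + l2, Polynomial.X ^ l2 * f1 + Polynomial.X ^ l1 * f2, ?_⟩
    rw [map_add, esc_end_add, hX, hX, ← h1, ← h2, smul_smul, smul_smul, ← pow_add,
      ← pow_add, smul_add, add_comm l1 l2]
  | neg y _ hy =>
    obtain ⟨l, f, h⟩ := hy
    exact ⟨l, -f, by rw [smul_neg, h, map_neg]; rfl⟩

/-- if `b` is not algebraic on `m` then `m` is not periodic modulo almost all primes -/
theorem esc (h : PC G) (hc : Char 0 M) (hfg : FGM (⊤ : Subgroup G) (⊤ : AddSubgroup M))
    (b : G) (hb : CChain (Subgroup.zpowers b) (⊤ : Subgroup G)) (m : M) (hm : ¬ Alg 0 b m) :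
    ∃ p0 : ℕ, ∀ p ≥ p0, p.Prime → ∀ k, 0 < k → ∀ m' : M, b ^ k • m - m ≠ p • m' := by
  have htf : ∀ (n : ℕ) (m : M), 0 < n → n • m = 0 → m = 0 := by
    rcases hc with ⟨_, h⟩ | ⟨h, _⟩
    · exact h
    · exact absurd h (by norm_num)
  -- the scalar submonoid
  let T : Submonoid (AddMonoid.End M) :=
    { carrier := {a | ∃ n : ℕ, 0 < n ∧ a = (n : AddMonoid.End M)}
      one_mem' := ⟨1, one_pos, by simp⟩
      mul_mem' := by
        rintro a a' ⟨n, hn, rfl⟩ ⟨n', hn', rfl⟩
        exact ⟨n * n', Nat.mul_pos hn hn', by push_cast; rfl⟩ }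
  have happ : ∀ (n : ℕ) (x : M), (n : AddMonoid.End M) x = n • x := by
    intro n x
    have : (n : AddMonoid.End M) = n • (1 : AddMonoid.End M) := by simp
    rw [this]; rfl
  obtain ⟨a, ⟨n, hn, rfl⟩, ha⟩ := fl h T
    (by rintro a ⟨n, _, rfl⟩ a' ⟨n', _, rfl⟩; exact (Nat.cast_commute n (n' : AddMonoid.End M)).eq)
    (by rintro a ⟨n, _, rfl⟩ g; exact (Nat.cast_commute n _).eq)
    (Subgroup.zpowers b) ⊤ hb
    (by rintro a ⟨n, _, rfl⟩ W _ w hw; rw [happ]; exact AddSubgroup.nsmul_mem _ hw n)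
    (gspan (Subgroup.zpowers b) {m}) ⊤ ⟨{m}, Set.finite_singleton m, rfl⟩ hfg
  refine ⟨n + 1, fun p hpn hp k hk m' hkm => hm ?_⟩
  set Y : AddSubgroup M := gspan (Subgroup.zpowers b) {m} with hY
  have hYm : ∀ g ∈ Subgroup.zpowers b, g • m ∈ Y := by
    intro g hg
    exact AddSubgroup.subset_closure ⟨g, hg, m, rfl, rfl⟩
  have hpm : p • m' ∈ Y := by
    rw [← hkm]
    refine AddSubgroup.sub_mem _ (hYm _ (Subgroup.pow_mem _ (Subgroup.mem_zpowers b) k)) ?_
    have := hYm 1 (Subgroup.one_mem _)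
    rwa [one_smul] at this
  obtain ⟨l, hl⟩ := ha m' trivial ⟨(p : AddMonoid.End M), ⟨p, hp.pos, rfl⟩, by rw [happ]; exact hpm⟩
  rw [← Nat.cast_pow, happ] at hl
  have hcop : Nat.Coprime p (n ^ l) := by
    apply Nat.Coprime.pow_right
    exact (Nat.Prime.coprime_iff_not_dvd hp).2 (fun hd => by
      have := Nat.le_of_dvd hn hd; omega)
  have hm' : m' ∈ Y := by
    have hbez := Nat.isCoprime_iff_coprime.2 hcop
    obtain ⟨u, v, huv⟩ := hbez
    have h1 : m' = u • (p • m') + v • (n ^ l • m') := by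
      have : m' = (u * (p : ℤ) + v * ((n ^ l : ℕ) : ℤ)) • m' := by rw [huv, one_smul]
      nth_rewrite 1 [this]
      rw [add_smul, mul_smul, mul_smul, natCast_zsmul, natCast_zsmul]
    rw [h1]
    exact AddSubgroup.add_mem _ (AddSubgroup.zsmul_mem _ hpm u) (AddSubgroup.zsmul_mem _ hl v)
  obtain ⟨l', f, hf⟩ := esc_mem b m m' hm'
  refine ⟨Polynomial.X ^ l' * (Polynomial.X ^ k - 1) - (p : Polynomial ℤ) * f, ?_, ?_⟩
  · intro h0
    have h1 := congrArg (fun q => Polynomial.coeff q (l' + k)) h0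
    simp only [Polynomial.coeff_map, Polynomial.coeff_zero, Polynomial.coeff_sub] at h1
    have h2 : (Polynomial.X ^ l' * (Polynomial.X ^ k - 1) : Polynomial ℤ).coeff (l' + k) = 1 := by
      rw [Polynomial.coeff_X_pow_mul', if_pos (Nat.le_add_right _ _), Nat.add_sub_cancel_left,
        Polynomial.coeff_sub, Polynomial.coeff_X_pow, if_pos rfl, Polynomial.coeff_one,
        if_neg (by omega), sub_zero]
    have h3 : ((p : Polynomial ℤ) * f).coeff (l' + k) = p * f.coeff (l' + k) := by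
      rw [← Polynomial.C_eq_natCast, Polynomial.coeff_C_mul]
    rw [h2, h3] at h1
    have h4 : (1 : ℤ) - p * f.coeff (l' + k) = 0 := by
      have : Function.Injective (Int.castRingHom (ZMod 0)) := by
        intro x y hxy
        exact hxy
      exact this (by rw [h1]; simp)
    have h5 : (p : ℤ) ∣ 1 := ⟨f.coeff (l' + k), by linarith⟩
    have h6 := Int.isUnit_iff_natAbs_eq.1 (isUnit_of_dvd_one h5)
    simp at h6
    exact hp.one_lt.ne' h6
  · have hX : ∀ (n : ℕ) (f : Polynomial ℤ) (z : M),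
        (Polynomial.aeval (ac M b) (Polynomial.X ^ n * f) : AddMonoid.End M) z =
          b ^ n • (Polynomial.aeval (ac M b) f : AddMonoid.End M) z := by
      intro n f z
      rw [map_mul, map_pow, Polynomial.aeval_X, ← map_pow]
      rfl
    have h1 : (Polynomial.aeval (ac M b) (Polynomial.X ^ k - 1 : Polynomial ℤ) : AddMonoid.End M) m
        = b ^ k • m - m := by
      rw [map_sub, esc_end_sub, ← mul_one (Polynomial.X ^ k), hX]
      simp
    rw [map_sub, esc_end_sub, hX, h1, map_mul, map_natCast, hkm]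
    have h2 : ((p : AddMonoid.End M) * (Polynomial.aeval (ac M b) f : AddMonoid.End M)) m =
        p • (Polynomial.aeval (ac M b) f : AddMonoid.End M) m := by
      rw [← happ]; rfl
    rw [h2, ← hf, smul_comm, sub_self]

end mod

end Pool.Agent.Polc
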