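import Pool.Agent.Polc.Defs

set_option autoImplicit false

/-!
Module EMB: a module embedded with finite supports in a sum of good modules over stabilisers
is good.
-/

namespace Pool.Agent.Polc

namespace Emb

variable {G M : Type} [Group G] [AddCommGroup M] [DistribMulAction G M]

theorem ac_apply (g : G) (m : M) : ac M g m = g • m := rfl

/-- the ring of endomorphisms preserving `K` -/
def stSub (K : AddSubgroup M) : Subring (AddMonoid.End M) where
  carrier := {a | ∀ m ∈ K, a m ∈ K}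
  mul_mem' := by
    intro a b ha hb m hm
    exact ha _ (hb _ hm)
  one_mem' := by
    intro m hm
    exact hm
  add_mem' := by
    intro a b ha hb m hm
    exact K.add_mem (ha _ hm) (hb _ hm)
  zero_mem' := by
    intro m _
    exact K.zero_mem
  neg_mem' := by
    intro a ha m hm
    exact K.neg_mem (ha _ hm)

theorem mem_stSub {K : AddSubgroup M} {a : AddMonoid.End M} :
    a ∈ stSub K ↔ ∀ m ∈ K, a m ∈ K := Iff.rfl

theorem pow_fact (a : AddMonoid.End M) (k r : ℕ) :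
    (a ^ k - 1) ^ r = (∑ i ∈ Finset.range k, a ^ i) ^ r * (a - 1) ^ r := by
  rw [← geom_sum_mul, Commute.mul_pow]
  refine Commute.sum_left _ _ _ (fun i _ => ?_)
  exact ((Commute.refl a).pow_left i).sub_right (Commute.one_right _)

/-- enlarging exponents -/
theorem enlarge {K : AddSubgroup M} {x : G} (hx : ac M x ∈ stSub K) {n r : ℕ} {m : M}
    (h : ((ac M (x ^ n) - 1) ^ r) m ∈ K) (k s : ℕ) :
    ((ac M (x ^ (n * k)) - 1) ^ (r + s)) m ∈ K := by
  have hxn : ac M (x ^ n) ∈ stSub K := by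
    rw [map_pow]; exact pow_mem hx n
  have e1 : (ac M (x ^ (n * k)) - 1) ^ (r + s)
      = ((ac M (x ^ (n * k)) - 1) ^ s * (∑ i ∈ Finset.range k, (ac M (x ^ n)) ^ i) ^ r)
        * (ac M (x ^ n) - 1) ^ r := by
    rw [mul_assoc, ← pow_fact, pow_mul, map_pow, ← pow_add, add_comm]
  rw [e1]
  have e2 : (ac M (x ^ (n * k)) - 1) ^ s * (∑ i ∈ Finset.range k, (ac M (x ^ n)) ^ i) ^ r
      ∈ stSub K := by
    refine mul_mem (pow_mem (sub_mem ?_ (one_mem _)) s) (pow_mem (sum_mem (fun i _ => ?_)) r)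
    · rw [map_pow]; exact pow_mem hx _
    · exact pow_mem hxn i
  exact e2 _ h

/-- conjugation -/
theorem conj_pw (g x : G) (n r : ℕ) (m : M) :
    g • (((ac M (x ^ n) - 1) ^ r) m) = ((ac M ((g * x * g⁻¹) ^ n) - 1) ^ r) (g • m) := by
  have h1 : ac M g * (ac M (x ^ n) - 1) = (ac M ((g * x * g⁻¹) ^ n) - 1) * ac M g := by
    rw [_root_.conj_pow, mul_sub, sub_mul, ← map_mul, ← map_mul, mul_one, one_mul,
      inv_mul_cancel_right]
  have h2 : ∀ r : ℕ, ac M g * (ac M (x ^ n) - 1) ^ r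
      = (ac M ((g * x * g⁻¹) ^ n) - 1) ^ r * ac M g := by
    intro r
    exact (SemiconjBy.pow_right (a := ac M g) (x := ac M (x ^ n) - 1)
      (y := ac M ((g * x * g⁻¹) ^ n) - 1) h1 r)
  have h3 := congrArg (fun f : AddMonoid.End M => f m) (h2 r)
  exact h3

theorem pw_of_dvd {x : G} {S : Subgroup G} {d n : ℕ} (h : x ^ d ∈ S) (hd : d ∣ n) : x ^ n ∈ S := by
  obtain ⟨k, rfl⟩ := hd
  rw [pow_mul]; exact S.pow_mem h k

/-- EMB, with ROOT as a hypothesis. -/
theorem emb_of (hroot : ∀ S : Subgroup G, ∃ d, 0 < d ∧ ∀ x : G, (∃ n, 0 < n ∧ x ^ n ∈ S) → x ^ d ∈ S)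
    (Ω : Type) [MulAction G Ω] (K : Ω → AddSubgroup M)
    (hK : ∀ (g : G) (ω : Ω) (m : M), m ∈ K ω ↔ g • m ∈ K (g • ω))
    (hfin : ∀ m : M, {ω | m ∉ K ω}.Finite) (hint : ∀ m : M, (∀ ω, m ∈ K ω) → m = 0)
    (R : Set Ω) (hRf : R.Finite) (hR : ∀ ω, ∃ g : G, ∃ ρ ∈ R, ω = g • ρ)
    (hg : ∀ ρ ∈ R, GoodOn (MulAction.stabilizer G ρ) ⊤ (K ρ)) : Good G M := by
  classical
  -- stabilisers preserve `K ω`
  have hst : ∀ (ω : Ω) (x : G), x ∈ MulAction.stabilizer G ω → ac M x ∈ stSub (K ω) := by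
    intro ω x hx m hm
    have h1 := (hK x ω m).1 hm
    rw [MulAction.mem_stabilizer_iff.1 hx] at h1
    exact h1
  -- common exponents on R
  obtain ⟨T, hT⟩ : ∃ T : Finset Ω, ∀ ρ, ρ ∈ T ↔ ρ ∈ R := ⟨hRf.toFinset, fun ρ => by simp⟩
  have hg' : ∀ ρ : Ω, ∃ e h : ℕ, 0 < e ∧ (ρ ∈ R → ∀ x ∈ MulAction.stabilizer G ρ, ∀ m : M,
      ∀ n r : ℕ, 0 < n → ((ac M (x ^ n) - 1) ^ r) m ∈ K ρ →
        ((ac M (x ^ e) - 1) ^ h) m ∈ K ρ) := by
    intro ρ
    by_cases hρ : ρ ∈ R
    · obtain ⟨e, h, he, H⟩ := hg ρ hρ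
      exact ⟨e, h, he, fun _ x hx m n r hn hm => H x hx m trivial n r hn hm⟩
    · exact ⟨1, 0, one_pos, fun h => absurd h hρ⟩
  choose e h he H using hg'
  have hr' : ∀ ρ : Ω, ∃ d, 0 < d ∧ ∀ x : G,
      (∃ n, 0 < n ∧ x ^ n ∈ MulAction.stabilizer G ρ) → x ^ d ∈ MulAction.stabilizer G ρ :=
    fun ρ => hroot _
  choose d hd hdr using hr'
  set e0 : ℕ := ∏ ρ ∈ T, e ρ with he0
  set h0 : ℕ := ∑ ρ ∈ T, h ρ with hh0
  set d0 : ℕ := ∏ ρ ∈ T, d ρ with hd0
  have he0p : 0 < e0 := Finset.prod_pos (fun ρ _ => he ρ)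
  have hd0p : 0 < d0 := Finset.prod_pos (fun ρ _ => hd ρ)
  -- statement (A)
  have hA : ∀ (ω : Ω), ∀ x ∈ MulAction.stabilizer G ω, ∀ m : M, ∀ n r : ℕ, 0 < n →
      ((ac M (x ^ n) - 1) ^ r) m ∈ K ω → ((ac M (x ^ e0) - 1) ^ h0) m ∈ K ω := by
    intro ω x hx m n r hn hm
    obtain ⟨g, ρ, hρ, rfl⟩ := hR ω
    have hρT : ρ ∈ T := (hT ρ).2 hρ
    -- transport to ρ
    set x' : G := g⁻¹ * x * g with hx'
    have hxx : x = g * x' * g⁻¹ := by rw [hx']; group
    have hx's : x' ∈ MulAction.stabilizer G ρ := by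
      rw [MulAction.mem_stabilizer_iff] at hx ⊢
      rw [hx', mul_smul, mul_smul, hx, inv_smul_smul]
    set m' : M := g⁻¹ • m with hm'
    have hmm : m = g • m' := by rw [hm', smul_inv_smul]
    have h1 : ((ac M (x' ^ n) - 1) ^ r) m' ∈ K ρ := by
      rw [hK g ρ, conj_pw, ← hxx, ← hmm]
      exact hm
    have h2 := H ρ hρ x' hx's m' n r hn h1
    obtain ⟨k, hk⟩ : e ρ ∣ e0 := Finset.dvd_prod_of_mem _ hρT
    obtain ⟨s, hs⟩ : ∃ s, h0 = h ρ + s := by
      have : h ρ ≤ h0 := Finset.single_le_sum (f := h) (fun _ _ => Nat.zero_le _) hρT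
      exact ⟨h0 - h ρ, by omega⟩
    have h3 := enlarge (hst ρ x' hx's) h2 k s
    rw [← hk, ← hs, hK g ρ, conj_pw, ← hxx, ← hmm] at h3
    exact h3
  -- statement (B)
  have hB : ∀ (ω : Ω) (x : G) (n : ℕ), 0 < n → x ^ n ∈ MulAction.stabilizer G ω →
      x ^ d0 ∈ MulAction.stabilizer G ω := by
    intro ω x n hn hx
    obtain ⟨g, ρ, hρ, rfl⟩ := hR ω
    have hρT : ρ ∈ T := (hT ρ).2 hρ
    have key : ∀ k : ℕ, (x ^ k ∈ MulAction.stabilizer G (g • ρ) ↔
        (g⁻¹ * x * g) ^ k ∈ MulAction.stabilizer G ρ) := by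
      intro k
      have e1 : (g⁻¹ * x * g) ^ k = g⁻¹ * x ^ k * g := by
        have := _root_.conj_pow (i := k) (a := g⁻¹) (b := x)
        rwa [inv_inv] at this
      rw [e1, MulAction.mem_stabilizer_iff, MulAction.mem_stabilizer_iff, mul_smul, mul_smul,
        inv_smul_eq_iff]
    rw [key] at hx ⊢
    exact pw_of_dvd (hdr ρ _ ⟨n, hn, hx⟩) (Finset.dvd_prod_of_mem _ hρT)
  refine ⟨d0 * e0, h0, Nat.mul_pos hd0p he0p, ?_⟩
  intro x _ m _ n r hn hm
  rw [AddSubgroup.mem_bot] at hm ⊢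
  apply hint
  intro ω
  by_cases hj : ∃ j, 0 < j ∧ x ^ j ∈ MulAction.stabilizer G ω
  · obtain ⟨j, hj0, hj⟩ := hj
    have hxd := hB ω x j hj0 hj
    have h1 : ((ac M ((x ^ d0) ^ n) - 1) ^ r) m ∈ K ω := by
      have h2 : ((ac M (x ^ n) - 1) ^ r) m ∈ (⊥ : AddSubgroup M) := by
        rw [hm]; exact AddSubgroup.zero_mem _
      have h3 : ac M x ∈ stSub (⊥ : AddSubgroup M) := by
        intro m' hm'
        rw [AddSubgroup.mem_bot] at hm' ⊢
        rw [hm', map_zero]
      have h4 := enlarge h3 h2 d0 0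
      rw [AddSubgroup.mem_bot] at h4
      have h5 : (x ^ d0) ^ n = x ^ (n * d0) := by rw [← pow_mul, mul_comm]
      rw [h5]
      rw [add_zero] at h4
      rw [h4]
      exact (K ω).zero_mem
    have h6 := hA ω (x ^ d0) hxd m n r hn h1
    rw [← pow_mul] at h6
    exact h6
  · push Not at hj
    -- the intersection along the orbit
    let Ki : AddSubgroup M := ⨅ i : ℤ, K (x ^ i • ω)
    have memKi : ∀ m' : M, m' ∈ Ki ↔ ∀ i : ℤ, m' ∈ K (x ^ i • ω) := by
      intro m'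
      exact AddSubgroup.mem_iInf
    have hKix : ac M x ∈ stSub Ki := by
      intro m' hm'
      rw [memKi] at hm' ⊢
      intro i
      have h1 := (hK x (x ^ (i - 1) • ω) m').1 (hm' (i - 1))
      rw [smul_smul, ← zpow_one_add] at h1
      have : 1 + (i - 1) = i := by ring
      rw [this] at h1
      exact h1
    have hinj : ∀ i j : ℤ, x ^ i • ω = x ^ j • ω → i = j := by
      have aux : ∀ i j : ℤ, i < j → x ^ i • ω = x ^ j • ω → False := by
        intro i j hij h1
        have h2 : x ^ (j - i) • ω = ω := by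
          have h3 : x ^ (j - i) = (x ^ i)⁻¹ * x ^ j := by
            rw [← zpow_neg, ← zpow_add]; congr 1; ring
          rw [h3, mul_smul, ← h1, inv_smul_smul]
        have h4 : x ^ (j - i).toNat ∈ MulAction.stabilizer G ω := by
          rw [MulAction.mem_stabilizer_iff, ← zpow_natCast, Int.toNat_of_nonneg (by omega)]
          exact h2
        exact hj _ (by omega) h4
      intro i j h1
      rcases lt_trichotomy i j with h | h | h
      · exact (aux i j h h1).elim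
      · exact h
      · exact (aux j i h h1.symm).elim
    have hstep : ∀ m' : M, (ac M (x ^ n) - 1) m' ∈ Ki → m' ∈ Ki := by
      intro m' hm'
      by_contra hne
      rw [memKi] at hne
      push Not at hne
      obtain ⟨i, hi⟩ := hne
      have h1 : ∀ k : ℕ, (ac M (x ^ (n * k)) - 1) m' ∈ Ki := by
        intro k
        have := enlarge hKix (n := n) (r := 1) (m := m') (by rw [pow_one]; exact hm') k 0
        rwa [pow_one] at this
      have h2 : ∀ k : ℕ, m' ∉ K (x ^ (i - (n * k : ℕ)) • ω) := by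
        intro k hk
        apply hi
        have h3 := (hK (x ^ (n * k)) _ m').1 hk
        rw [smul_smul, ← zpow_natCast, ← zpow_add] at h3
        have e1 : (((n * k : ℕ) : ℤ) + (i - (n * k : ℕ))) = i := by ring
        rw [e1] at h3
        have h4 := (memKi _).1 (h1 k) i
        have h5 : (ac M (x ^ (n * k)) - 1) m' = x ^ (n * k) • m' - m' := rfl
        rw [h5] at h4
        rw [zpow_natCast] at h3
        have h6 := (K (x ^ i • ω)).sub_mem h3 h4
        have h7 : x ^ (n * k) • m' - (x ^ (n * k) • m' - m') = m' := by abel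
        rw [h7] at h6
        exact h6
      have h8 : Set.Infinite {ω | m' ∉ K ω} := by
        refine Set.infinite_of_injective_forall_mem
          (f := fun k : ℕ => x ^ (i - (n * k : ℕ)) • ω) ?_ h2
        intro a b hab
        have h9 := hinj _ _ hab
        have h10 : ((n * a : ℕ) : ℤ) = ((n * b : ℕ) : ℤ) := by omega
        have h11 : n * a = n * b := by exact_mod_cast h10
        exact Nat.eq_of_mul_eq_mul_left hn h11
      exact h8 (hfin m')
    have hall : ∀ r : ℕ, ∀ m' : M, ((ac M (x ^ n) - 1) ^ r) m' ∈ Ki → m' ∈ Ki := by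
      intro r
      induction r with
      | zero => intro m' h; exact h
      | succ r ih =>
        intro m' h
        rw [pow_succ] at h
        exact hstep _ (ih _ h)
    have hmK : m ∈ Ki := hall r m (by rw [hm]; exact Ki.zero_mem)
    have h1 : (ac M (x ^ (d0 * e0)) - 1) ^ h0 ∈ stSub Ki := by
      refine pow_mem (sub_mem ?_ (one_mem _)) _
      rw [map_pow]; exact pow_mem hKix _
    have h2 := (memKi _).1 (h1 m hmK) 0
    rwa [zpow_zero, one_smul] at h2

end Emb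

end Pool.Agent.Polc
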