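import Pool.Agent.Polc.AN
import Pool.Agent.Polc.DPOW

set_option autoImplicit false

/-!
# Artin-Rees for modules in characteristic `p` with a Rees chain
-/

namespace Pool.Agent.Polc

/-! ### commutation with one element: closure arguments -/

section closure

variable {A : Type} [Ring A]

theorem left_closure (R : Subring A) (Y : Set A) (X : A) (hY : Subring.closure Y ≤ R)
    (h : ∀ y ∈ Y, ∃ r1 ∈ R, ∃ r2 ∈ R, X * y = r1 * X + r2) (r : A)
    (hr : r ∈ Subring.closure Y) : ∃ r1 ∈ R, ∃ r2 ∈ R, X * r = r1 * X + r2 := by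
  induction hr using Subring.closure_induction with
  | mem x hx => exact h x hx
  | zero => exact ⟨0, R.zero_mem, 0, R.zero_mem, by simp⟩
  | one => exact ⟨1, R.one_mem, 0, R.zero_mem, by simp⟩
  | add x y _ _ hx hy =>
    obtain ⟨a1, ha1, a2, ha2, ha⟩ := hx
    obtain ⟨b1, hb1, b2, hb2, hb⟩ := hy
    exact ⟨a1 + b1, R.add_mem ha1 hb1, a2 + b2, R.add_mem ha2 hb2, by
      rw [mul_add, ha, hb, add_mul]; abel⟩
  | neg x _ hx =>
    obtain ⟨a1, ha1, a2, ha2, ha⟩ := hx
    exact ⟨-a1, R.neg_mem ha1, -a2, R.neg_mem ha2, by rw [mul_neg, ha, neg_mul]; abel⟩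
  | mul x y _ hy' hx hy =>
    obtain ⟨a1, ha1, a2, ha2, ha⟩ := hx
    obtain ⟨b1, hb1, b2, hb2, hb⟩ := hy
    refine ⟨a1 * b1, R.mul_mem ha1 hb1, a1 * b2 + a2 * y,
      R.add_mem (R.mul_mem ha1 hb2) (R.mul_mem ha2 (hY hy')), ?_⟩
    rw [← mul_assoc, ha, add_mul, mul_assoc a1 X y, hb]
    noncomm_ring

theorem right_closure (R : Subring A) (Y : Set A) (X : A) (hY : Subring.closure Y ≤ R)
    (h : ∀ y ∈ Y, ∃ r1 ∈ R, ∃ r2 ∈ R, y * X = X * r1 + r2) (r : A)
    (hr : r ∈ Subring.closure Y) : ∃ r1 ∈ R, ∃ r2 ∈ R, r * X = X * r1 + r2 := by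
  induction hr using Subring.closure_induction with
  | mem x hx => exact h x hx
  | zero => exact ⟨0, R.zero_mem, 0, R.zero_mem, by simp⟩
  | one => exact ⟨1, R.one_mem, 0, R.zero_mem, by simp⟩
  | add x y _ _ hx hy =>
    obtain ⟨a1, ha1, a2, ha2, ha⟩ := hx
    obtain ⟨b1, hb1, b2, hb2, hb⟩ := hy
    exact ⟨a1 + b1, R.add_mem ha1 hb1, a2 + b2, R.add_mem ha2 hb2, by
      rw [add_mul, ha, hb, mul_add]; abel⟩
  | neg x _ hx =>
    obtain ⟨a1, ha1, a2, ha2, ha⟩ := hx
    exact ⟨-a1, R.neg_mem ha1, -a2, R.neg_mem ha2, by rw [neg_mul, ha, mul_neg]; abel⟩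
  | mul x y hx' _ hx hy =>
    obtain ⟨a1, ha1, a2, ha2, ha⟩ := hx
    obtain ⟨b1, hb1, b2, hb2, hb⟩ := hy
    refine ⟨a1 * b1, R.mul_mem ha1 hb1, a2 * b1 + x * b2,
      R.add_mem (R.mul_mem ha2 hb1) (R.mul_mem (hY hx') hb2), ?_⟩
    rw [mul_assoc, hb, mul_add, ← mul_assoc x X b1, ha]
    noncomm_ring

theorem id_mul (x y Y : A) (h : y * Y = Y * y) :
    (x * y - 1) * Y = (x - 1) * Y * y + (y - 1) * Y := by
  rw [mul_assoc _ Y, ← h]; noncomm_ring

theorem id_inv (x z Y : A) (h : z * x = 1) : (z - 1) * Y = -(z * ((x - 1) * Y)) := by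
  have : z * ((x - 1) * Y) = z * x * Y - z * Y := by noncomm_ring
  rw [this, h]; noncomm_ring

theorem pow_sub_one_char (p : ℕ) (hp : p.Prime) (h0 : (p : A) = 0) (x : A) (s : ℕ) :
    (x - 1) ^ p ^ s = x ^ p ^ s - 1 := by
  by_cases hs : Subsingleton A
  · exact Subsingleton.elim _ _
  · rw [not_subsingleton_iff_nontrivial] at hs
    have : Fact p.Prime := ⟨hp⟩
    have : CharP A p := ringChar.of_eq (CharP.ringChar_of_prime_eq_zero hp h0)
    rw [sub_pow_char_pow_of_commute p s (Commute.one_right x), one_pow]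

/-- `X h` for `X = (g - 1) t`, `g h = h' g`, `h' = k h` -/
theorem id_left1 (g h h' k t : A) (h1 : g * h = h' * g) (h2 : h' = k * h)
    (ht : h * t = t * h) :
    (g - 1) * t * h = h' * ((g - 1) * t) + (k - 1) * t * h := by
  calc (g - 1) * t * h = (g - 1) * (t * h) := mul_assoc _ _ _
    _ = (g - 1) * (h * t) := by rw [ht]
    _ = (g * h) * t - h * t := by noncomm_ring
    _ = h' * g * t - h * t := by rw [h1]
    _ = h' * ((g - 1) * t) + (h' - h) * t := by noncomm_ring
    _ = h' * ((g - 1) * t) + (k * h - h) * t := by rw [← h2]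
    _ = h' * ((g - 1) * t) + (k - 1) * (h * t) := by noncomm_ring
    _ = h' * ((g - 1) * t) + (k - 1) * (t * h) := by rw [ht]
    _ = _ := by noncomm_ring

theorem id_left2 (g h h' k t : A) (h1 : g * h = h' * g) (h2 : h' = k * h) (ht : h * t = t * h)
    (gt : g * t = t * g) :
    (g - 1) * t * ((h - 1) * t) = (h' - 1) * t * ((g - 1) * t) + (k - 1) * (t * t) * h := by
  have e1 : t * ((h - 1) * t) = (h - 1) * (t * t) := by
    calc t * ((h - 1) * t) = (t * h) * t - t * t := by noncomm_ring
      _ = (h * t) * t - t * t := by rw [ht]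
      _ = _ := by noncomm_ring
  have e2 : t * ((g - 1) * t) = (g - 1) * (t * t) := by
    calc t * ((g - 1) * t) = (t * g) * t - t * t := by noncomm_ring
      _ = (g * t) * t - t * t := by rw [gt]
      _ = _ := by noncomm_ring
  have e3 : (t * t) * h = h * (t * t) := by
    rw [mul_assoc, ← ht, ← mul_assoc, ← ht, mul_assoc]
  rw [mul_assoc, e1, mul_assoc (h' - 1), e2, mul_assoc (k - 1), e3]
  calc (g - 1) * ((h - 1) * (t * t)) = (g * h - g - h + 1) * (t * t) := by noncomm_ring
    _ = (h' * g - g - h + 1) * (t * t) := by rw [h1]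
    _ = (h' - 1) * ((g - 1) * (t * t)) + (h' - h) * (t * t) := by noncomm_ring
    _ = (h' - 1) * ((g - 1) * (t * t)) + (k * h - h) * (t * t) := by rw [← h2]
    _ = _ := by noncomm_ring

theorem id_right1 (g h h' k t : A) (h1 : h * g = g * h') (h2 : h' = k * h)
    (ht : h * t = t * h) (ht' : h' * t = t * h') :
    h * ((g - 1) * t) = (g - 1) * t * h' + (k - 1) * t * h := by
  calc h * ((g - 1) * t) = h * g * t - h * t := by noncomm_ring
    _ = g * h' * t - h * t := by rw [h1]
    _ = (g - 1) * (h' * t) + (h' - h) * t := by noncomm_ring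
    _ = (g - 1) * (t * h') + (k * h - h) * t := by rw [ht', ← h2]
    _ = (g - 1) * t * h' + (k - 1) * (h * t) := by noncomm_ring
    _ = (g - 1) * t * h' + (k - 1) * (t * h) := by rw [ht]
    _ = _ := by noncomm_ring

theorem id_right2 (g h h' k t : A) (h1 : h * g = g * h') (h2 : h' = k * h) (ht : h * t = t * h)
    (gt : g * t = t * g) (ht' : h' * t = t * h') :
    (h - 1) * t * ((g - 1) * t) = (g - 1) * t * ((h' - 1) * t) + (k - 1) * (t * t) * h := by
  have e1 : t * ((h' - 1) * t) = (h' - 1) * (t * t) := by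
    calc t * ((h' - 1) * t) = (t * h') * t - t * t := by noncomm_ring
      _ = (h' * t) * t - t * t := by rw [ht']
      _ = _ := by noncomm_ring
  have e2 : t * ((g - 1) * t) = (g - 1) * (t * t) := by
    calc t * ((g - 1) * t) = (t * g) * t - t * t := by noncomm_ring
      _ = (g * t) * t - t * t := by rw [gt]
      _ = _ := by noncomm_ring
  have e3 : (t * t) * h = h * (t * t) := by
    rw [mul_assoc, ← ht, ← mul_assoc, ← ht, mul_assoc]
  rw [mul_assoc (h - 1), e2, mul_assoc (g - 1), e1, mul_assoc (k - 1), e3]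
  calc (h - 1) * ((g - 1) * (t * t)) = (h * g - g - h + 1) * (t * t) := by noncomm_ring
    _ = (g * h' - g - h + 1) * (t * t) := by rw [h1]
    _ = (g - 1) * ((h' - 1) * (t * t)) + (h' - h) * (t * t) := by noncomm_ring
    _ = (g - 1) * ((h' - 1) * (t * t)) + (k * h - h) * (t * t) := by rw [← h2]
    _ = _ := by noncomm_ring

theorem id_comm (x y : A) (h : x * y = y * x) : (x - 1) * (y - 1) = (y - 1) * (x - 1) := by
  calc (x - 1) * (y - 1) = x * y - x - y + 1 := by noncomm_ring
    _ = y * x - x - y + 1 := by rw [h]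
    _ = _ := by noncomm_ring

theorem id_pow (v t : A) (vt : v * t = t * v) (n : ℕ) :
    (v - 1) ^ (n + 2) * (t * t) = (v - 1) ^ n * ((v - 1) * t * ((v - 1) * t)) := by
  have e1 : t * ((v - 1) * t) = (v - 1) * (t * t) := by
    calc t * ((v - 1) * t) = (t * v) * t - t * t := by noncomm_ring
      _ = (v * t) * t - t * t := by rw [vt]
      _ = _ := by noncomm_ring
  rw [mul_assoc (v - 1), e1, pow_add, pow_two]
  simp only [mul_assoc]

end closure

section mod
variable {G M : Type} [Group G] [AddCommGroup M] [DistribMulAction G M]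

/-- the hypothesis under which the Rees ring of `H` over `F_p` is noetherian -/
def ReesChain (p : ℕ) (H : Subgroup G) (M : Type) [AddCommGroup M] [DistribMulAction G M] : Prop :=
  ∃ (n : ℕ) (c : ℕ → Subgroup G), (∀ g ∈ c 0, ∀ m : M, g • m = m) ∧ c n = H ∧
    ∀ j < n, ∃ g : G, c (j + 1) = c j ⊔ Subgroup.zpowers g ∧
      ∀ h ∈ c j, cm g h ∈ Subgroup.closure {k | ∃ v ∈ c j, k = v ^ p} ⊔ c 0 ∧
        cm g⁻¹ h ∈ Subgroup.closure {k | ∃ v ∈ c j, k = v ^ p} ⊔ c 0

/-! ### operators on sequences -/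

/-- coefficientwise action -/
def cw (M : Type) [AddCommGroup M] : AddMonoid.End M →+* AddMonoid.End (ℕ → M) where
  toFun a :=
    { toFun := fun f i => a (f i)
      map_zero' := by funext i; simp
      map_add' := fun f g => by funext i; simp }
  map_one' := by ext f i; rfl
  map_mul' a b := by ext f i; rfl
  map_zero' := by ext f i; rfl
  map_add' a b := by ext f i; rfl

/-- the shift -/
def sh (M : Type) [AddCommGroup M] : AddMonoid.End (ℕ → M) where
  toFun f i := match i with
    | 0 => 0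
    | i + 1 => f i
  map_zero' := by funext i; cases i <;> rfl
  map_add' f g := by funext i; cases i <;> simp

theorem cw_sh (a : AddMonoid.End M) : cw M a * sh M = sh M * cw M a := by
  ext f i
  cases i with
  | zero => show a 0 = 0; simp
  | succ i => rfl

/-- the action of a group element on sequences -/
def gm (M : Type) [AddCommGroup M] [DistribMulAction G M] (g : G) : AddMonoid.End (ℕ → M) :=
  cw M (ac M g)

theorem gm_apply (g : G) (f : ℕ → M) (i : ℕ) : gm M g f i = g • f i := rfl

theorem gm_mul (g h : G) : gm M (g * h) = gm M g * gm M h := by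
  unfold gm; rw [map_mul, map_mul]

theorem gm_one : gm M (1 : G) = 1 := by
  unfold gm; rw [map_one, map_one]

theorem gm_inv_mul (g : G) : gm M g⁻¹ * gm M g = 1 := by rw [← gm_mul, inv_mul_cancel, gm_one]

theorem gm_mul_inv (g : G) : gm M g * gm M g⁻¹ = 1 := by rw [← gm_mul, mul_inv_cancel, gm_one]

theorem gm_sh (g : G) : gm M g * sh M = sh M * gm M g := cw_sh _

/-- generators of the Rees ring of `C` -/
def gens (M : Type) [AddCommGroup M] [DistribMulAction G M] (C : Subgroup G) :
    Set (AddMonoid.End (ℕ → M)) :=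
  {x | ∃ h ∈ C, x = gm M h ∨ x = (gm M h - 1) * sh M}

/-- the Rees ring of `C` -/
def RR (M : Type) [AddCommGroup M] [DistribMulAction G M] (C : Subgroup G) :
    Subring (AddMonoid.End (ℕ → M)) := Subring.closure (gens M C)

theorem gm_mem {C : Subgroup G} {h : G} (hh : h ∈ C) : gm M h ∈ RR M C :=
  Subring.subset_closure ⟨h, hh, Or.inl rfl⟩

theorem gt_mem {C : Subgroup G} {h : G} (hh : h ∈ C) : (gm M h - 1) * sh M ∈ RR M C :=
  Subring.subset_closure ⟨h, hh, Or.inr rfl⟩

theorem RR_mono {C C' : Subgroup G} (h : C ≤ C') : RR M C ≤ RR M C' := by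
  refine Subring.closure_mono ?_
  rintro x ⟨g, hg, hx⟩
  exact ⟨g, h hg, hx⟩

/-- elements `h` with `(h - 1) Y` in a subring containing the group -/
theorem sub_one_mem (R : Subring (AddMonoid.End (ℕ → M))) (C : Subgroup G)
    (hC : ∀ h ∈ C, gm M h ∈ R) (Y : AddMonoid.End (ℕ → M)) (hY : ∀ h : G, gm M h * Y = Y * gm M h)
    (K : Set G) (hK : K ⊆ C) (hKY : ∀ k ∈ K, (gm M k - 1) * Y ∈ R) (k : G)
    (hk : k ∈ Subgroup.closure K) : (gm M k - 1) * Y ∈ R := by
  induction hk using Subgroup.closure_induction with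
  | mem x hx => exact hKY x hx
  | one => rw [gm_one, sub_self, zero_mul]; exact R.zero_mem
  | mul x y _ hy' hx hy =>
    have hyC : y ∈ C := (Subgroup.closure_le C).2 hK hy'
    rw [gm_mul, id_mul _ _ _ (hY y)]
    exact R.add_mem (R.mul_mem hx (hC y hyC)) hy
  | inv x hx' hx =>
    have hxC : x ∈ C := (Subgroup.closure_le C).2 hK hx'
    rw [id_inv _ _ Y (gm_inv_mul x)]
    exact R.neg_mem (R.mul_mem (hC _ (C.inv_mem hxC)) hx)

theorem natCast_end (p : ℕ) (hM : ∀ m : M, p • m = 0) : (p : AddMonoid.End (ℕ → M)) = 0 := by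
  ext f i
  have : ((p : AddMonoid.End (ℕ → M)) f) = p • f := rfl
  rw [this]
  exact hM (f i)

theorem natCast_end' (p : ℕ) (hM : ∀ m : M, p • m = 0) : (p : AddMonoid.End M) = 0 := by
  ext m
  exact hM m

theorem gm_pow (g : G) (n : ℕ) : gm M (g ^ n) = gm M g ^ n := by
  unfold gm; rw [map_pow, map_pow]

/-- `(k - 1) t^2` for `k` in the subgroup of powers -/
theorem pow_mem (p : ℕ) (hp : p.Prime) (hM : ∀ m : M, p • m = 0) (C C0 : Subgroup G) (hC0 : C0 ≤ C)
    (h0 : ∀ g ∈ C0, ∀ m : M, g • m = m) (k : G)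
    (hk : k ∈ Subgroup.closure {k | ∃ v ∈ C, k = v ^ p} ⊔ C0) :
    k ∈ C ∧ (gm M k - 1) * (sh M * sh M) ∈ RR M C := by
  have hk' : k ∈ Subgroup.closure ({k | ∃ v ∈ C, k = v ^ p} ∪ (C0 : Set G)) := by
    rwa [Subgroup.closure_union, Subgroup.closure_eq]
  have hsub : {k | ∃ v ∈ C, k = v ^ p} ∪ (C0 : Set G) ⊆ C := by
    rintro x (⟨v, hv, rfl⟩ | hx)
    · exact C.pow_mem hv p
    · exact hC0 hx
  refine ⟨(Subgroup.closure_le C).2 hsub hk', ?_⟩
  refine sub_one_mem (RR M C) C (fun h hh => gm_mem hh) _ ?_ _ hsub ?_ k hk'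
  · intro h
    rw [← mul_assoc, gm_sh, mul_assoc, gm_sh, ← mul_assoc]
  · rintro x (⟨v, hv, rfl⟩ | hx)
    · have h1 := pow_sub_one_char p hp (natCast_end p hM) (gm M v) 1
      rw [pow_one] at h1
      rw [gm_pow, ← h1]
      obtain ⟨n, hn⟩ : ∃ n, p = n + 2 := ⟨p - 2, by have := hp.two_le; omega⟩
      rw [hn, id_pow _ _ (gm_sh v)]
      have h2 : gm M v - 1 ∈ RR M C := (RR M C).sub_mem (gm_mem hv) (RR M C).one_mem
      exact (RR M C).mul_mem ((RR M C).pow_mem h2 n) ((RR M C).mul_mem (gt_mem hv) (gt_mem hv))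
    · have : gm M x = 1 := by
        ext f i
        exact h0 x hx (f i)
      rw [this, sub_self, zero_mul]
      exact (RR M C).zero_mem

/-- one step of the chain -/
theorem rees_step (p : ℕ) (hp : p.Prime) (hM : ∀ m : M, p • m = 0) (C C0 : Subgroup G)
    (hC0 : C0 ≤ C) (h0 : ∀ g ∈ C0, ∀ m : M, g • m = m) (g : G)
    (hg : ∀ h ∈ C, cm g h ∈ Subgroup.closure {k | ∃ v ∈ C, k = v ^ p} ⊔ C0 ∧
        cm g⁻¹ h ∈ Subgroup.closure {k | ∃ v ∈ C, k = v ^ p} ⊔ C0)
    (hR : IsNoetherianRing (RR M C)) : IsNoetherianRing (RR M (C ⊔ Subgroup.zpowers g)) := by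
  have c1 : ∀ h ∈ C, cm g h ∈ C := fun h hh => (pow_mem p hp hM C C0 hC0 h0 _ (hg h hh).1).1
  have c2 : ∀ h ∈ C, cm g⁻¹ h ∈ C := fun h hh => (pow_mem p hp hM C C0 hC0 h0 _ (hg h hh).2).1
  have n1 : ∀ h ∈ C, g * h * g⁻¹ ∈ C := fun h hh => by
    have : g * h * g⁻¹ = cm g h * h := by unfold cm; group
    rw [this]; exact C.mul_mem (c1 h hh) hh
  have n2 : ∀ h ∈ C, g⁻¹ * h * g ∈ C := fun h hh => by
    have : g⁻¹ * h * g = cm g⁻¹ h * h := by unfold cm; group
    rw [this]; exact C.mul_mem (c2 h hh) hh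
  -- commutation identities
  have e1 : ∀ h : G, gm M g * gm M h = gm M (g * h * g⁻¹) * gm M g := fun h => by
    rw [← gm_mul, ← gm_mul]; congr 1; group
  have e2 : ∀ h : G, gm M h * gm M g = gm M g * gm M (g⁻¹ * h * g) := fun h => by
    rw [← gm_mul, ← gm_mul]; congr 1; group
  have e3 : ∀ h : G, gm M g⁻¹ * gm M h = gm M (g⁻¹ * h * g) * gm M g⁻¹ := fun h => by
    rw [← gm_mul, ← gm_mul]; congr 1; group
  have e4 : ∀ h : G, gm M h * gm M g⁻¹ = gm M g⁻¹ * gm M (g * h * g⁻¹) := fun h => by
    rw [← gm_mul, ← gm_mul]; congr 1; group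
  -- first extension
  set R1 := Subring.closure ((RR M C : Set (AddMonoid.End (ℕ → M))) ∪ {gm M g}) with hR1
  have le1 : RR M C ≤ R1 := fun x hx => Subring.subset_closure (Or.inl hx)
  have g1 : gm M g ∈ R1 := Subring.subset_closure (Or.inr rfl)
  have N1 : IsNoetherianRing R1 := by
    refine adjoin_noeth (RR M C) R1 (gm M g) hR hR1 ?_ ?_
    · refine left_closure (RR M C) (gens M C) _ le_rfl ?_
      rintro y ⟨h, hh, rfl | rfl⟩
      · exact ⟨_, gm_mem (n1 h hh), 0, (RR M C).zero_mem, by rw [e1, add_zero]⟩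
      · refine ⟨_, gt_mem (n1 h hh), 0, (RR M C).zero_mem, ?_⟩
        rw [add_zero, mul_assoc (_ - 1), ← gm_sh, ← mul_assoc, ← mul_assoc]
        congr 1
        rw [mul_sub, e1, sub_mul, mul_one, one_mul]
    · refine right_closure (RR M C) (gens M C) _ le_rfl ?_
      rintro y ⟨h, hh, rfl | rfl⟩
      · exact ⟨_, gm_mem (n2 h hh), 0, (RR M C).zero_mem, by rw [e2, add_zero]⟩
      · refine ⟨_, gt_mem (n2 h hh), 0, (RR M C).zero_mem, ?_⟩
        rw [add_zero, mul_assoc (_ - 1), ← gm_sh, ← mul_assoc, ← mul_assoc]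
        congr 1
        rw [mul_sub, sub_mul, e2, mul_one, one_mul]
  -- second extension
  set R2 := Subring.closure ((R1 : Set (AddMonoid.End (ℕ → M))) ∪ {gm M g⁻¹}) with hR2
  have le2 : R1 ≤ R2 := fun x hx => Subring.subset_closure (Or.inl hx)
  have g2 : gm M g⁻¹ ∈ R2 := Subring.subset_closure (Or.inr rfl)
  have N2 : IsNoetherianRing R2 := by
    refine adjoin_noeth R1 R2 (gm M g⁻¹) N1 hR2 ?_ ?_
    · refine left_closure R1 _ _ le_rfl ?_
      rintro y (hy | hy)
      · refine left_closure R1 (gens M C) _ le1 ?_ y hy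
        rintro y ⟨h, hh, rfl | rfl⟩
        · exact ⟨_, le1 (gm_mem (n2 h hh)), 0, R1.zero_mem, by rw [e3, add_zero]⟩
        · refine ⟨_, le1 (gt_mem (n2 h hh)), 0, R1.zero_mem, ?_⟩
          rw [add_zero, mul_assoc (_ - 1), ← gm_sh, ← mul_assoc, ← mul_assoc]
          congr 1
          rw [mul_sub, e3, sub_mul, mul_one, one_mul]
      · rw [Set.mem_singleton_iff] at hy
        subst hy
        exact ⟨_, g1, 0, R1.zero_mem, by rw [gm_inv_mul, gm_mul_inv, add_zero]⟩
    · refine right_closure R1 _ _ le_rfl ?_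
      rintro y (hy | hy)
      · refine right_closure R1 (gens M C) _ le1 ?_ y hy
        rintro y ⟨h, hh, rfl | rfl⟩
        · exact ⟨_, le1 (gm_mem (n1 h hh)), 0, R1.zero_mem, by rw [e4, add_zero]⟩
        · refine ⟨_, le1 (gt_mem (n1 h hh)), 0, R1.zero_mem, ?_⟩
          rw [add_zero, mul_assoc (_ - 1), ← gm_sh, ← mul_assoc, ← mul_assoc]
          congr 1
          rw [mul_sub, sub_mul, e4, mul_one, one_mul]
      · rw [Set.mem_singleton_iff] at hy
        subst hy
        exact ⟨_, g1, 0, R1.zero_mem, by rw [gm_inv_mul, gm_mul_inv, add_zero]⟩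
  -- third extension
  set X := (gm M g - 1) * sh M with hX
  set R3 := Subring.closure ((R2 : Set (AddMonoid.End (ℕ → M))) ∪ {X}) with hR3
  have le3 : R2 ≤ R3 := fun x hx => Subring.subset_closure (Or.inl hx)
  have lec : RR M C ≤ R2 := le1.trans le2
  have g3 : X ∈ R3 := Subring.subset_closure (Or.inr rfl)
  have Xg : X * gm M g = gm M g * X := by
    rw [hX, mul_assoc, ← gm_sh, ← mul_assoc, ← mul_assoc]
    congr 1
    rw [sub_mul, mul_sub, one_mul, mul_one]
  have Xg' : X * gm M g⁻¹ = gm M g⁻¹ * X := by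
    rw [hX, mul_assoc, ← gm_sh, ← mul_assoc, ← mul_assoc]
    congr 1
    rw [sub_mul, mul_sub, one_mul, mul_one, gm_inv_mul, gm_mul_inv]
  have N3 : IsNoetherianRing R3 := by
    refine adjoin_noeth R2 R3 X N2 hR3 ?_ ?_
    · refine left_closure R2 _ _ le_rfl ?_
      rintro y (hy | hy)
      · refine left_closure R2 _ _ le2 ?_ y hy
        rintro y (hy | hy)
        · refine left_closure R2 (gens M C) _ lec ?_ y hy
          rintro y ⟨h, hh, rfl | rfl⟩
          · refine ⟨_, lec (gm_mem (n1 h hh)), _, lec ?_,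
              id_left1 (gm M g) (gm M h) (gm M (g * h * g⁻¹)) (gm M (cm g h)) (sh M) (e1 h)
                ?_ (gm_sh h)⟩
            · exact (RR M C).mul_mem (gt_mem (c1 h hh)) (gm_mem hh)
            · rw [← gm_mul]; congr 1; unfold cm; group
          · refine ⟨_, lec (gt_mem (n1 h hh)), _, lec ?_,
              id_left2 (gm M g) (gm M h) (gm M (g * h * g⁻¹)) (gm M (cm g h)) (sh M) (e1 h)
                ?_ (gm_sh h) (gm_sh g)⟩
            · exact (RR M C).mul_mem (pow_mem p hp hM C C0 hC0 h0 _ (hg h hh).1).2 (gm_mem hh)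
            · rw [← gm_mul]; congr 1; unfold cm; group
        · rw [Set.mem_singleton_iff] at hy
          subst hy
          exact ⟨_, le2 g1, 0, R2.zero_mem, by rw [Xg, add_zero]⟩
      · rw [Set.mem_singleton_iff] at hy
        subst hy
        exact ⟨_, g2, 0, R2.zero_mem, by rw [Xg', add_zero]⟩
    · refine right_closure R2 _ _ le_rfl ?_
      rintro y (hy | hy)
      · refine right_closure R2 _ _ le2 ?_ y hy
        rintro y (hy | hy)
        · refine right_closure R2 (gens M C) _ lec ?_ y hy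
          rintro y ⟨h, hh, rfl | rfl⟩
          · refine ⟨_, lec (gm_mem (n2 h hh)), _, lec ?_,
              id_right1 (gm M g) (gm M h) (gm M (g⁻¹ * h * g)) (gm M (cm g⁻¹ h)) (sh M) (e2 h)
                ?_ (gm_sh h) (gm_sh _)⟩
            · exact (RR M C).mul_mem (gt_mem (c2 h hh)) (gm_mem hh)
            · rw [← gm_mul]; congr 1; unfold cm; group
          · refine ⟨_, lec (gt_mem (n2 h hh)), _, lec ?_,
              id_right2 (gm M g) (gm M h) (gm M (g⁻¹ * h * g)) (gm M (cm g⁻¹ h)) (sh M) (e2 h)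
                ?_ (gm_sh h) (gm_sh g) (gm_sh _)⟩
            · exact (RR M C).mul_mem (pow_mem p hp hM C C0 hC0 h0 _ (hg h hh).2).2 (gm_mem hh)
            · rw [← gm_mul]; congr 1; unfold cm; group
        · rw [Set.mem_singleton_iff] at hy
          subst hy
          exact ⟨_, le2 g1, 0, R2.zero_mem, by rw [Xg, add_zero]⟩
      · rw [Set.mem_singleton_iff] at hy
        subst hy
        exact ⟨_, g2, 0, R2.zero_mem, by rw [Xg', add_zero]⟩
  -- identification
  have hfin : R3 = RR M (C ⊔ Subgroup.zpowers g) := by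
    have hgC : g ∈ C ⊔ Subgroup.zpowers g :=
      Subgroup.mem_sup_right (Subgroup.mem_zpowers g)
    apply le_antisymm
    · refine Subring.closure_le.2 ?_
      rintro x (hx | hx)
      · revert x
        refine fun x hx => ?_
        have : R2 ≤ RR M (C ⊔ Subgroup.zpowers g) := by
          refine Subring.closure_le.2 ?_
          rintro x (hx | hx)
          · have : R1 ≤ RR M (C ⊔ Subgroup.zpowers g) := by
              refine Subring.closure_le.2 ?_
              rintro x (hx | hx)
              · exact RR_mono le_sup_left hx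
              · rw [Set.mem_singleton_iff] at hx
                rw [hx]; exact gm_mem hgC
            exact this hx
          · rw [Set.mem_singleton_iff] at hx
            rw [hx]; exact gm_mem (Subgroup.inv_mem _ hgC)
        exact this hx
      · rw [Set.mem_singleton_iff] at hx
        rw [hx]; exact gt_mem hgC
    · have hclo : C ⊔ Subgroup.zpowers g = Subgroup.closure ((C : Set G) ∪ {g}) := by
        rw [Subgroup.closure_union, Subgroup.closure_eq, Subgroup.zpowers_eq_closure]
      have a1 : ∀ h ∈ C ⊔ Subgroup.zpowers g, gm M h ∈ R3 := by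
        intro h hh
        rw [hclo] at hh
        induction hh using Subgroup.closure_induction'' with
        | mem x hx =>
          rcases hx with hx | hx
          · exact le3 (lec (gm_mem hx))
          · rw [Set.mem_singleton_iff] at hx
            rw [hx]; exact le3 (le2 g1)
        | inv_mem x hx =>
          rcases hx with hx | hx
          · exact le3 (lec (gm_mem (C.inv_mem hx)))
          · rw [Set.mem_singleton_iff] at hx
            rw [hx]; exact le3 g2
        | one => rw [gm_one]; exact R3.one_mem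
        | mul x y _ _ hx hy => rw [gm_mul]; exact R3.mul_mem hx hy
      refine Subring.closure_le.2 ?_
      rintro x ⟨h, hh, rfl | rfl⟩
      · exact a1 h hh
      · have hh' := hh
        rw [hclo] at hh'
        refine sub_one_mem R3 (C ⊔ Subgroup.zpowers g) a1 (sh M) (fun h => gm_sh h)
          ((C : Set G) ∪ {g}) ?_ ?_ h hh'
        · rintro x (hx | hx)
          · exact Subgroup.mem_sup_left hx
          · rw [Set.mem_singleton_iff] at hx
            rw [hx]; exact hgC
        · rintro x (hx | hx)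
          · exact le3 (lec (gt_mem hx))
          · rw [Set.mem_singleton_iff] at hx
            rw [hx]; exact g3
  rw [← hfin]
  exact N3

/-- the Rees ring of `H` is left noetherian -/
theorem rees_noeth (p : ℕ) (hp : p.Prime) (hM : ∀ m : M, p • m = 0) (H : Subgroup G)
    (hch : ReesChain p H M) : IsNoetherianRing (RR M H) := by
  obtain ⟨n, c, h0, rfl, hstep⟩ := hch
  have hmono : ∀ j ≤ n, c 0 ≤ c j := by
    intro j
    induction j with
    | zero => intro _; exact le_rfl
    | succ j ih =>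
      intro hj
      obtain ⟨g, hg, _⟩ := hstep j (by omega)
      rw [hg]
      exact (ih (by omega)).trans le_sup_left
  have hbase : IsNoetherianRing (RR M (c 0)) := by
    have hle : RR M (c 0) ≤ (Int.castRingHom (AddMonoid.End (ℕ → M))).range := by
      refine Subring.closure_le.2 ?_
      rintro x ⟨h, hh, hx⟩
      have h1 : gm M h = 1 := by
        ext f i
        exact h0 h hh (f i)
      rw [h1, sub_self, zero_mul] at hx
      rcases hx with rfl | rfl
      · exact Subring.one_mem _
      · exact Subring.zero_mem _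
    have hge : (Int.castRingHom (AddMonoid.End (ℕ → M))).range ≤ RR M (c 0) := by
      rintro _ ⟨k, rfl⟩
      exact intCast_mem _ k
    rw [le_antisymm hle hge]
    exact isNoetherianRing_range _
  have hall : ∀ j ≤ n, IsNoetherianRing (RR M (c j)) := by
    intro j
    induction j with
    | zero => intro _; exact hbase
    | succ j ih =>
      intro hj
      obtain ⟨g, hg, hg'⟩ := hstep j (by omega)
      rw [hg]
      exact rees_step p hp hM (c j) (c 0) (hmono j (by omega)) h0 g hg' (ih (by omega))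
  exact hall n le_rfl

/-- the graded module of a family `T i` with `(h - 1) T i ≤ T (i+1)` -/
def fam (H : Subgroup G) (T : ℕ → AddSubgroup M) (hs : ∀ i, Stb H (T i))
    (hst : ∀ i, ∀ h ∈ H, ∀ v ∈ T i, h • v - v ∈ T (i + 1)) : Submodule (RR M H) (ℕ → M) where
  carrier := {f | (∀ i, f i ∈ T i) ∧ ∃ N, ∀ i, N ≤ i → f i = 0}
  add_mem' := by
    rintro f g ⟨hf, N, hN⟩ ⟨hg, N', hN'⟩
    refine ⟨fun i => (T i).add_mem (hf i) (hg i), max N N', fun i hi => ?_⟩
    rw [Pi.add_apply, hN i (le_trans (le_max_left _ _) hi), hN' i (le_trans (le_max_right _ _) hi),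
      add_zero]
  zero_mem' := ⟨fun i => (T i).zero_mem, 0, fun i _ => rfl⟩
  smul_mem' := by
    rintro ⟨s, hsm⟩ f0 hf0
    show (s f0) ∈ {f : ℕ → M | (∀ i, f i ∈ T i) ∧ ∃ N, ∀ i, N ≤ i → f i = 0}
    unfold RR at hsm
    suffices hgen : ∀ f : ℕ → M, f ∈ {f : ℕ → M | (∀ i, f i ∈ T i) ∧ ∃ N, ∀ i, N ≤ i → f i = 0} →
        s f ∈ {f : ℕ → M | (∀ i, f i ∈ T i) ∧ ∃ N, ∀ i, N ≤ i → f i = 0} from hgen f0 hf0
    clear hf0 f0
    induction hsm using Subring.closure_induction with
    | mem x hx =>
      rintro f ⟨hf, N, hN⟩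
      obtain ⟨h, hh, rfl | rfl⟩ := hx
      · refine ⟨fun i => hs i h hh _ (hf i), N, fun i hi => ?_⟩
        rw [gm_apply, hN i hi, smul_zero]
      · refine ⟨fun i => ?_, N + 1, fun i hi => ?_⟩
        · cases i with
          | zero =>
            have : (((gm M h - 1) * sh M) f) 0 = h • (0 : M) - 0 := rfl
            rw [this, smul_zero, sub_zero]; exact (T 0).zero_mem
          | succ i => exact hst i h hh _ (hf i)
        · obtain ⟨j, rfl⟩ : ∃ j, i = j + 1 := ⟨i - 1, by omega⟩
          have : (((gm M h - 1) * sh M) f) (j + 1) = h • f j - f j := rfl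
          rw [this, hN j (by omega), smul_zero, sub_zero]
    | zero =>
      intro f _
      exact ⟨fun i => (T i).zero_mem, 0, fun i _ => rfl⟩
    | one => intro f hf; exact hf
    | add x y _ _ hx hy =>
      intro f hf
      obtain ⟨h1, N, hN⟩ := hx f hf
      obtain ⟨h2, N', hN'⟩ := hy f hf
      refine ⟨fun i => (T i).add_mem (h1 i) (h2 i), max N N', fun i hi => ?_⟩
      have : ((x + y) f) i = x f i + y f i := rfl
      rw [this, hN i (le_trans (le_max_left _ _) hi), hN' i (le_trans (le_max_right _ _) hi),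
        add_zero]
    | neg x _ hx =>
      intro f hf
      obtain ⟨h1, N, hN⟩ := hx f hf
      refine ⟨fun i => (T i).neg_mem (h1 i), N, fun i hi => ?_⟩
      have : ((-x) f) i = -(x f i) := rfl
      rw [this, hN i hi, neg_zero]
    | mul x y _ _ hx hy =>
      intro f hf
      exact hx _ (hy f hf)

theorem mem_fam {H : Subgroup G} {T : ℕ → AddSubgroup M} {hs : ∀ i, Stb H (T i)}
    {hst : ∀ i, ∀ h ∈ H, ∀ v ∈ T i, h • v - v ∈ T (i + 1)} {f : ℕ → M} :
    f ∈ fam H T hs hst ↔ (∀ i, f i ∈ T i) ∧ ∃ N, ∀ i, N ≤ i → f i = 0 := Iff.rfl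

theorem stb_dpow_step (H : Subgroup G) (V : AddSubgroup M) (i : ℕ) (h : G) (hh : h ∈ H) (v : M)
    (hv : v ∈ dpow H i V) : h • v - v ∈ dpow H (i + 1) V :=
  AddSubgroup.subset_closure ⟨h, hh, v, hv, rfl⟩

/-- lifting: a finitely generated family is eventually inside the filtration -/
theorem key (H : Subgroup G) (T : ℕ → AddSubgroup M) (E : AddSubgroup M) (hTE : ∀ i, T i ≤ E)
    (hE : Stb H E) (hs : ∀ i, Stb H (T i))
    (hst : ∀ i, ∀ h ∈ H, ∀ v ∈ T i, h • v - v ∈ T (i + 1)) (hfg : (fam H T hs hst).FG) :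
    ∃ c, ∀ n, T (n + c) ≤ dpow H n E := by
  obtain ⟨F, hF⟩ := hfg
  have hFm : ∀ f ∈ F, f ∈ fam H T hs hst := fun f hf => hF ▸ Submodule.subset_span hf
  -- common bound of the supports
  have hc : ∃ c, ∀ f ∈ F, ∀ i, c ≤ i → f i = 0 := by
    choose N hN using fun f : F => (mem_fam.1 (hFm f.1 f.2)).2
    refine ⟨F.attach.sup N, fun f hf i hi => hN ⟨f, hf⟩ i (le_trans ?_ hi)⟩
    exact Finset.le_sup (f := N) (Finset.mem_attach F ⟨f, hf⟩)
  obtain ⟨c, hc⟩ := hc
  -- the submodule of sequences in the filtration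
  have hst' : ∀ i, ∀ h ∈ H, ∀ v ∈ dpow H (i - c) E, h • v - v ∈ dpow H (i + 1 - c) E := by
    intro i h hh v hv
    exact dpow_anti H E hE _ _ (by omega) (stb_dpow_step H E (i - c) h hh v hv)
  have hle : fam H T hs hst ≤ fam H (fun i => dpow H (i - c) E)
      (fun i => dpow_stb H E hE (i - c)) hst' := by
    rw [← hF, Submodule.span_le]
    intro f hf
    refine ⟨fun i => ?_, (hFm f hf).2⟩
    by_cases hi : c ≤ i
    · rw [hc f hf i hi]; exact AddSubgroup.zero_mem _
    · have : i - c = 0 := by omega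
      show f i ∈ dpow H (i - c) E
      rw [this]
      exact hTE i ((hFm f hf).1 i)
  refine ⟨c, fun n v hv => ?_⟩
  have hm : (fun i => if i = n + c then v else 0) ∈ fam H T hs hst := by
    refine ⟨fun i => ?_, n + c + 1, fun i hi => ?_⟩
    · by_cases hi : i = n + c
      · simp only [hi, if_true]; exact hv
      · simp only [hi, if_false]; exact (T i).zero_mem
    · show (if i = n + c then v else 0) = 0
      rw [if_neg (by omega)]
  have := (hle hm).1 (n + c)
  simpa using this

/-- the Rees module is generated in degree zero -/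
theorem rees_gen (H : Subgroup G) (V : AddSubgroup M) (F : Set M) (hF : V = gspan H F)
    (hV : Stb H V) : fam H (fun i => dpow H i V) (dpow_stb H V hV)
      (fun i h hh v hv => stb_dpow_step H V i h hh v hv) ≤
      Submodule.span (RR M H) ((fun m : M => (Pi.single 0 m : ℕ → M)) '' F) := by
  have hsingle : ∀ i, ∀ v ∈ dpow H i V, (Pi.single i v : ℕ → M) ∈
      Submodule.span (RR M H) ((fun m : M => (Pi.single 0 m : ℕ → M)) '' F) := by
    intro i
    induction i with
    | zero =>
      intro v hv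
      change v ∈ V at hv
      rw [hF] at hv
      induction hv using AddSubgroup.closure_induction with
      | mem x hx =>
        obtain ⟨h, hh, f, hf, rfl⟩ := hx
        have : (Pi.single 0 (h • f) : ℕ → M) =
            (⟨gm M h, gm_mem hh⟩ : RR M H) • (Pi.single 0 f : ℕ → M) := by
          show _ = gm M h (Pi.single 0 f)
          funext j
          rw [gm_apply]
          by_cases hj : j = 0
          · subst hj; simp
          · simp [Pi.single_eq_of_ne hj]
        rw [this]
        exact Submodule.smul_mem _ _ (Submodule.subset_span ⟨f, hf, rfl⟩)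
      | zero => rw [Pi.single_zero]; exact Submodule.zero_mem _
      | add x y _ _ hx hy => rw [Pi.single_add]; exact Submodule.add_mem _ hx hy
      | neg x _ hx => rw [Pi.single_neg]; exact Submodule.neg_mem _ hx
    | succ i ih =>
      intro v hv
      change v ∈ dmul H (dpow H i V) at hv
      unfold dmul at hv
      induction hv using AddSubgroup.closure_induction with
      | mem x hx =>
        obtain ⟨h, hh, f, hf, rfl⟩ := hx
        have : (Pi.single (i + 1) (h • f - f) : ℕ → M) =
            (⟨(gm M h - 1) * sh M, gt_mem hh⟩ : RR M H) • (Pi.single i f : ℕ → M) := by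
          show _ = ((gm M h - 1) * sh M) (Pi.single i f)
          funext j
          cases j with
          | zero =>
            have h1 : (((gm M h - 1) * sh M) (Pi.single i f : ℕ → M)) 0 = h • (0 : M) - 0 := rfl
            rw [h1]; simp
          | succ j =>
            have h1 : (((gm M h - 1) * sh M) (Pi.single i f : ℕ → M)) (j + 1) =
              h • (Pi.single i f : ℕ → M) j - (Pi.single i f : ℕ → M) j := rfl
            rw [h1]
            by_cases hj : j = i
            · subst hj; simp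
            · have hj' : j + 1 ≠ i + 1 := by omega
              simp [Pi.single_eq_of_ne hj, Pi.single_eq_of_ne hj']
        rw [this]
        exact Submodule.smul_mem _ _ (ih f hf)
      | zero => rw [Pi.single_zero]; exact Submodule.zero_mem _
      | add x y _ _ hx hy => rw [Pi.single_add]; exact Submodule.add_mem _ hx hy
      | neg x _ hx => rw [Pi.single_neg]; exact Submodule.neg_mem _ hx
  rintro f ⟨hf, N, hN⟩
  have : f = ∑ i ∈ Finset.range N, (Pi.single i (f i) : ℕ → M) := by
    funext j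
    rw [Finset.sum_apply]
    by_cases hj : j < N
    · rw [Finset.sum_eq_single j]
      · simp
      · intro b _ hb
        rw [Pi.single_eq_of_ne (Ne.symm hb)]
      · intro h; exact absurd (Finset.mem_range.2 hj) h
    · rw [hN j (by omega), Finset.sum_eq_zero]
      intro b hb
      rw [Finset.mem_range] at hb
      rw [Pi.single_eq_of_ne (by omega)]
  rw [this]
  exact Submodule.sum_mem _ fun i _ => hsingle i (f i) (hf i)

theorem gspan_stb (H : Subgroup G) (F : Set M) : Stb H (gspan H F) := by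
  intro h hh v hv
  unfold gspan at hv ⊢
  induction hv using AddSubgroup.closure_induction with
  | mem x hx =>
    obtain ⟨k, hk, f, hf, rfl⟩ := hx
    exact AddSubgroup.subset_closure ⟨h * k, H.mul_mem hh hk, f, hf, (mul_smul h k f).symm⟩
  | zero => rw [smul_zero]; exact AddSubgroup.zero_mem _
  | add x y _ _ hx hy => rw [smul_add]; exact AddSubgroup.add_mem _ hx hy
  | neg x _ hx => rw [smul_neg]; exact AddSubgroup.neg_mem _ hx

theorem fam_noeth (H : Subgroup G) (hR : IsNoetherianRing (RR M H)) (V : AddSubgroup M) (F : Set M)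
    (hFf : F.Finite) (hF : V = gspan H F) (hV : Stb H V) :
    IsNoetherian (RR M H) (fam H (fun i => dpow H i V) (dpow_stb H V hV)
      (fun i h hh v hv => stb_dpow_step H V i h hh v hv)) := by
  have : IsNoetherian (RR M H)
      (Submodule.span (RR M H) ((fun m : M => (Pi.single 0 m : ℕ → M)) '' F)) :=
    isNoetherian_span_of_finite _ (hFf.image _)
  exact isNoetherian_of_le (rees_gen H V F hF hV)

theorem artin_rees (p : ℕ) (hp : p.Prime) (hM : ∀ m : M, p • m = 0) (H : Subgroup G)
    (hch : ReesChain p H M) (V E : AddSubgroup M) (hV : FGM H V) (hE : Stb H E) (_hEV : E ≤ V) :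
    ∃ c, ∀ n, dpow H (n + c) V ⊓ E ≤ dpow H n E := by
  obtain ⟨F, hFf, hF⟩ := hV
  have hVs : Stb H V := hF ▸ gspan_stb H F
  have hR := rees_noeth p hp hM H hch
  have hN := fam_noeth H hR V F hFf hF hVs
  have hs : ∀ i, Stb H (dpow H i V ⊓ E) := fun i h hh v hv =>
    ⟨dpow_stb H V hVs i h hh v hv.1, hE h hh v hv.2⟩
  have hst : ∀ i, ∀ h ∈ H, ∀ v ∈ dpow H i V ⊓ E, h • v - v ∈ dpow H (i + 1) V ⊓ E :=
    fun i h hh v hv => ⟨stb_dpow_step H V i h hh v hv.1, E.sub_mem (hE h hh v hv.2) hv.2⟩
  have hle : fam H (fun i => dpow H i V ⊓ E) hs hst ≤ fam H (fun i => dpow H i V)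
      (dpow_stb H V hVs) (fun i h hh v hv => stb_dpow_step H V i h hh v hv) :=
    fun f hf => ⟨fun i => (hf.1 i).1, hf.2⟩
  have hN' : IsNoetherian (RR M H) (fam H (fun i => dpow H i V ⊓ E) hs hst) :=
    isNoetherian_of_le hle
  have hfg : (fam H (fun i => dpow H i V ⊓ E) hs hst).FG :=
    (Submodule.fg_top _).1 (hN'.noetherian ⊤)
  exact key H (fun i => dpow H i V ⊓ E) E (fun i => inf_le_right) hE hs hst hfg

theorem ara (p : ℕ) (hp : p.Prime) (hM : ∀ m : M, p • m = 0) (H : Subgroup G)
    (hch : ReesChain p H M) (V : AddSubgroup M) (hV : FGM H V) (A : Set G) (hA : A.Finite)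
    (hAH : A ⊆ H) (hcomm : ∀ a ∈ A, ∀ h ∈ H, ∀ m : M, a • h • m = h • a • m)
    (hfix : ∀ v ∈ V, (∀ a ∈ A, a • v = v) → v = 0) :
    ∃ c, ∀ n, ∀ v ∈ V, (∀ a ∈ A, a • v - v ∈ dpow H (n + c) V) → v ∈ dpow H n V := by
  obtain ⟨F, hFf, hF⟩ := hV
  have hVs : Stb H V := hF ▸ gspan_stb H F
  have hR := rees_noeth p hp hM H hch
  have hN := fam_noeth H hR V F hFf hF hVs
  let T : ℕ → AddSubgroup M := fun n =>
    { carrier := {v | v ∈ V ∧ ∀ a ∈ A, a • v - v ∈ dpow H n V}
      add_mem' := by
        rintro x y ⟨hx, hx'⟩ ⟨hy, hy'⟩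
        refine ⟨V.add_mem hx hy, fun a ha => ?_⟩
        have : a • (x + y) - (x + y) = (a • x - x) + (a • y - y) := by rw [smul_add]; abel
        rw [this]
        exact AddSubgroup.add_mem _ (hx' a ha) (hy' a ha)
      zero_mem' := ⟨V.zero_mem, fun a _ => by rw [smul_zero, sub_zero]; exact AddSubgroup.zero_mem _⟩
      neg_mem' := by
        rintro x ⟨hx, hx'⟩
        refine ⟨V.neg_mem hx, fun a ha => ?_⟩
        have : a • (-x) - (-x) = -(a • x - x) := by rw [smul_neg]; abel
        rw [this]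
        exact AddSubgroup.neg_mem _ (hx' a ha) }
  have hT : ∀ n v, v ∈ T n ↔ v ∈ V ∧ ∀ a ∈ A, a • v - v ∈ dpow H n V := fun n v => Iff.rfl
  have hs : ∀ i, Stb H (T i) := by
    intro i h hh v hv
    refine ⟨hVs h hh v hv.1, fun a ha => ?_⟩
    rw [hcomm a ha h hh v, ← smul_sub]
    exact dpow_stb H V hVs i h hh _ (hv.2 a ha)
  have hst : ∀ i, ∀ h ∈ H, ∀ v ∈ T i, h • v - v ∈ T (i + 1) := by
    intro i h hh v hv
    refine ⟨V.sub_mem (hVs h hh v hv.1) hv.1, fun a ha => ?_⟩
    have : a • (h • v - v) - (h • v - v) = h • (a • v - v) - (a • v - v) := by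
      rw [smul_sub, smul_sub, hcomm a ha h hh v]; abel
    rw [this]
    exact stb_dpow_step H V i h hh _ (hv.2 a ha)
  -- embedding into a power of the Rees module
  have hcom : ∀ a ∈ A, ∀ s ∈ RR M H, gm M a * s = s * gm M a := by
    intro a ha s hsm
    have hg : ∀ h ∈ H, gm M a * gm M h = gm M h * gm M a := by
      intro h hh
      ext f i
      exact hcomm a ha h hh (f i)
    have hle : RR M H ≤ Subring.centralizer {gm M a} := by
      refine Subring.closure_le.2 ?_
      rintro x ⟨h, hh, hx⟩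
      rw [SetLike.mem_coe, Subring.mem_centralizer_iff]
      intro y hy
      rw [Set.mem_singleton_iff] at hy
      subst hy
      rcases hx with rfl | rfl
      · exact hg h hh
      · rw [mul_assoc, ← gm_sh, ← mul_assoc, ← mul_assoc]
        congr 1
        rw [mul_sub, hg h hh, sub_mul, mul_one, one_mul]
    exact (Subring.mem_centralizer_iff.1 (hle hsm)) _ rfl
  have hfinA : Finite A := hA
  let φ : (fam H T hs hst) →ₗ[RR M H] (A → fam H (fun i => dpow H i V) (dpow_stb H V hVs)
      (fun i h hh v hv => stb_dpow_step H V i h hh v hv)) :=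
    { toFun := fun f a => ⟨gm M (a : G) f.1 - f.1, fun i => (f.2.1 i).2 a a.2, by
        obtain ⟨N, hN⟩ := f.2.2
        refine ⟨N, fun i hi => ?_⟩
        have : (gm M (a : G) f.1 - f.1) i = (a : G) • f.1 i - f.1 i := rfl
        rw [this, hN i hi, smul_zero, sub_zero]⟩
      map_add' := by
        intro f g
        funext a
        apply Subtype.ext
        show gm M (a : G) (f.1 + g.1) - (f.1 + g.1) = (gm M (a : G) f.1 - f.1) +
          (gm M (a : G) g.1 - g.1)
        rw [map_add]; abel
      map_smul' := by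
        rintro ⟨s, hsm⟩ f
        funext a
        apply Subtype.ext
        show gm M (a : G) (s f.1) - s f.1 = s (gm M (a : G) f.1 - f.1)
        rw [map_sub]
        congr 1
        exact DFunLike.congr_fun (hcom a a.2 s hsm) f.1 }
  have hinj : Function.Injective φ := by
    rw [injective_iff_map_eq_zero]
    intro f hf
    apply Subtype.ext
    funext i
    show f.1 i = 0
    refine hfix _ (f.2.1 i).1 fun a ha => ?_
    have h1 := congrFun (congrArg Subtype.val (congrFun hf ⟨a, ha⟩)) i
    have h2 : a • f.1 i - f.1 i = 0 := h1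
    exact sub_eq_zero.1 h2
  have hN' : IsNoetherian (RR M H) (fam H T hs hst) :=
    isNoetherian_of_injective φ hinj
  have hfg : (fam H T hs hst).FG := (Submodule.fg_top _).1 (hN'.noetherian ⊤)
  obtain ⟨c, hc⟩ := key H T V (fun i v hv => hv.1) hVs hs hst hfg
  exact ⟨c, fun n v hv h => hc n ⟨hv, h⟩⟩

/-- product of the operators `a - 1` -/
def opl (M : Type) [AddCommGroup M] [DistribMulAction G M] (l : List G) : AddMonoid.End M :=
  (l.map fun a => ac M a - 1).prod

theorem opl_cons (a : G) (l : List G) (v : M) : opl M (a :: l) v = a • opl M l v - opl M l v := by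
  unfold opl
  rw [List.map_cons, List.prod_cons]
  rfl

theorem opl_mem (H : Subgroup G) (W : AddSubgroup M) (hW : Stb H W) (l : List G)
    (hl : ∀ a ∈ l, a ∈ H) (v : M) (hv : v ∈ W) : opl M l v ∈ W := by
  induction l with
  | nil => exact hv
  | cons a l ih =>
    rw [opl_cons]
    have h1 := ih fun b hb => hl b (List.mem_cons_of_mem _ hb)
    exact W.sub_mem (hW a (hl a List.mem_cons_self) _ h1) h1

omit [Group G] in
/-- pigeonhole: a long list contains some letter often -/
theorem exists_count (A : Finset G) [DecidableEq G] (q : ℕ) (l : List G) (hl : ∀ a ∈ l, a ∈ A)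
    (hlen : A.card * (q - 1) < l.length) : ∃ a ∈ A, q ≤ l.count a := by
  by_contra hcon
  push Not at hcon
  have h1 : l.length = ∑ a ∈ A, l.count a := by
    have h2 : (l : Multiset G).card = ∑ a ∈ A, (l : Multiset G).count a := by
      rw [Multiset.sum_count_eq_card]
      intro a ha
      exact hl a (by simpa using ha)
    simpa using h2
  have h3 : ∑ a ∈ A, l.count a ≤ ∑ _a ∈ A, (q - 1) :=
    Finset.sum_le_sum fun a ha => by have := hcon a ha; omega
  rw [Finset.sum_const, smul_eq_mul] at h3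
  omega

theorem ara_iter (p : ℕ) (hp : p.Prime) (hM : ∀ m : M, p • m = 0) (H : Subgroup G)
    (hch : ReesChain p H M) (V : AddSubgroup M) (hV : FGM H V) (A : Set G) (hA : A.Finite)
    (hAH : A ⊆ H) (hcomm : ∀ a ∈ A, ∀ h ∈ H, ∀ m : M, a • h • m = h • a • m)
    (hfix : ∀ v ∈ V, (∀ a ∈ A, a • v = v) → v = 0) :
    ∃ c, ∀ s n, ∀ v ∈ V, (∀ a ∈ A, a ^ (p ^ s) • v - v ∈ dpow H (n + c * p ^ s) V) →
      v ∈ dpow H n V := by
  classical
  obtain ⟨c, hc⟩ := ara p hp hM H hch V hV A hA hAH hcomm hfix
  have hVs : Stb H V := by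
    obtain ⟨F, _, rfl⟩ := hV
    exact gspan_stb H F
  set B := hA.toFinset with hB
  have hBA : ∀ a, a ∈ B ↔ a ∈ A := fun a => hA.mem_toFinset
  refine ⟨c * B.card, fun s n v hv hh => ?_⟩
  set q := p ^ s with hq
  have hq0 : 0 < q := pow_pos hp.pos s
  by_cases hr : B.card = 0
  · have : v = 0 := hfix v hv fun a ha => by
      rw [← hBA, Finset.card_eq_zero.1 hr] at ha
      exact absurd ha (Finset.notMem_empty a)
    rw [this]; exact AddSubgroup.zero_mem _
  set D := B.card * (q - 1) + 1 with hD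
  have hDle : D ≤ B.card * q := by
    have h1 : 1 ≤ B.card := Nat.one_le_iff_ne_zero.2 hr
    have h2 : B.card * q = B.card * (q - 1) + B.card := by
      rw [← Nat.mul_succ, Nat.succ_eq_add_one, Nat.sub_add_cancel hq0]
    omega
  set E := n + c * B.card * q with hE
  have hEq : ∀ a ∈ A, ((ac M a - 1) ^ q) v ∈ dpow H E V := by
    intro a ha
    rw [hq, pow_sub_one_char p hp (natCast_end' p hM), ← map_pow]
    exact hh a ha
  -- permuting
  have hperm : ∀ l l' : List G, l.Perm l' → (∀ a ∈ l, a ∈ A) → opl M l = opl M l' := by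
    intro l l' h hl
    induction h with
    | nil => rfl
    | cons a _ ih =>
      unfold opl at ih ⊢
      rw [List.map_cons, List.prod_cons, List.map_cons, List.prod_cons,
        ih fun b hb => hl b (List.mem_cons_of_mem _ hb)]
    | swap a b l =>
      have ha : a ∈ A := hl a (by simp)
      have hb : b ∈ A := hl b (by simp)
      unfold opl
      simp only [List.map_cons, List.prod_cons]
      rw [← mul_assoc, ← mul_assoc]
      congr 1
      refine id_comm _ _ ?_
      ext m
      exact (hcomm a ha b (hAH hb) m).symm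
    | trans h1 h2 ih1 ih2 =>
      rw [ih1 hl, ih2 fun a ha => hl a (h1.mem_iff.2 ha)]
  have hrep : ∀ (a : G) (k : ℕ), opl M (List.replicate k a) = (ac M a - 1) ^ k := by
    intro a k
    unfold opl
    rw [List.map_replicate, List.prod_replicate]
  have happ : ∀ l l' : List G, opl M (l ++ l') = opl M l * opl M l' := by
    intro l l'
    unfold opl
    rw [List.map_append, List.prod_append]
  -- top degree
  have htop : ∀ l : List G, (∀ a ∈ l, a ∈ A) → D ≤ l.length → opl M l v ∈ dpow H E V := by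
    intro l hl hlen
    obtain ⟨a, ha, hcount⟩ := exists_count B q l (fun a ha => (hBA a).2 (hl a ha)) (by omega)
    have hsub : List.Subperm (List.replicate q a) l := by
      rw [List.subperm_ext_iff]
      intro x hx
      rw [List.mem_replicate] at hx
      rw [hx.2, List.count_replicate_self]
      exact hcount
    obtain ⟨l1, hl1⟩ : ∃ l1, l.Perm (l1 ++ List.replicate q a) := by
      obtain ⟨l2, hl2, hl2'⟩ := hsub
      obtain ⟨l3, hl3⟩ := hl2'.exists_perm_append
      exact ⟨l3, hl3.trans ((List.perm_append_comm).trans (List.Perm.append_left _ hl2))⟩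
    rw [hperm l _ hl1 hl, happ, hrep]
    refine opl_mem H _ (dpow_stb H V hVs E) l1 (fun b hb => hAH (hl b ?_)) _
      (hEq a ((hBA a).1 ha))
    exact hl1.mem_iff.2 (List.mem_append_left _ hb)
  -- descending induction
  have hdesc : ∀ k ≤ D, ∀ l : List G, (∀ a ∈ l, a ∈ A) → l.length = D - k →
      opl M l v ∈ dpow H (E - c * k) V := by
    intro k
    induction k with
    | zero =>
      intro _ l hl hlen
      rw [Nat.mul_zero, Nat.sub_zero]
      exact htop l hl (by omega)
    | succ k ih =>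
      intro hk l hl hlen
      refine hc _ _ (opl_mem H V hVs l (fun a ha => hAH (hl a ha)) v hv) fun a ha => ?_
      rw [← opl_cons]
      have h1 := ih (by omega) (a :: l) (by
        intro b hb
        rcases List.mem_cons.1 hb with rfl | hb
        · exact ha
        · exact hl b hb) (by rw [List.length_cons]; omega)
      have h2 : c * (k + 1) ≤ E := by
        calc c * (k + 1) ≤ c * (B.card * q) := Nat.mul_le_mul_left c (by omega)
          _ = c * B.card * q := by ring
          _ ≤ E := Nat.le_add_left _ _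
      have h3 : E - c * k = E - c * (k + 1) + c := by
        have : c * (k + 1) = c * k + c := by ring
        omega
      rw [← h3]
      exact h1
  have hfinal := hdesc D le_rfl [] (by simp) (by simp)
  have h4 : n ≤ E - c * D := by
    have : c * D ≤ c * B.card * q := by
      calc c * D ≤ c * (B.card * q) := Nat.mul_le_mul_left c hDle
        _ = c * B.card * q := by ring
    omega
  exact dpow_anti H V hVs _ _ h4 hfinal

end mod

end Pool.Agent.Polc
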