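import Pool.Agent.Polc.Defs2
import Pool.Agent.Polc.DPOW
import Pool.Agent.Polc.REES
import Pool.Agent.Polc.NOETH

/-!
Modules F0 (the property `PP`) and F2 (the Artin-Rees contradiction) for `MP_9e8505_al`.
-/

set_option autoImplicit false

namespace Pool.Agent.Polc

section grp

variable {G : Type} [Group G]

theorem f0_ucs1 (N U : Subgroup G) [U.Normal] [N.Normal] (a : G) :
    a ∈ ucs N U 1 ↔ a ∈ N ∧ ∀ g ∈ N, cm a g ∈ U := Iff.rfl

theorem f0_comm {a b u : G} (hu : ∀ g : G, g * u = u * g) (h : b * a = a * b * u) (n : ℕ) :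
    b ^ n * a = a * b ^ n * u ^ n := by
  induction n with
  | zero => simp
  | succ n ih =>
    have e1 : u * b ^ n = b ^ n * u := (hu _).symm
    calc b ^ (n + 1) * a = b * (b ^ n * a) := by rw [pow_succ', mul_assoc]
      _ = (b * a) * b ^ n * u ^ n := by rw [ih]; simp only [mul_assoc]
      _ = a * b * (u * b ^ n) * u ^ n := by rw [h]; simp only [mul_assoc]
      _ = a * b ^ (n + 1) * u ^ (n + 1) := by
        rw [e1, pow_succ' b, pow_succ' u]; simp only [mul_assoc]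

/-- powers of a product of elements commuting modulo the central subgroup `U` -/
theorem f0_mul_pow {U : Subgroup G} (hc : ∀ u ∈ U, ∀ g : G, g * u = u * g) {a b : G}
    (hcm : cm a b ∈ U) (n : ℕ) : ∃ z ∈ U, (a * b) ^ n = a ^ n * b ^ n * z := by
  set u := (cm a b)⁻¹ with hu
  have huU : u ∈ U := U.inv_mem hcm
  have hba : b * a = a * b * u := by
    rw [hc u huU (a * b), hu, cm]
    group
  induction n with
  | zero => exact ⟨1, U.one_mem, by simp⟩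
  | succ n ih =>
    obtain ⟨z, hz, e⟩ := ih
    refine ⟨u ^ n * z, U.mul_mem (U.pow_mem huU n) hz, ?_⟩
    have e1 : z * (a * b) = (a * b) * z := (hc z hz _).symm
    have e2 := f0_comm (hc u huU) hba n
    have e3 : u ^ n * b = b * u ^ n := (hc _ (U.pow_mem huU n) b).symm
    calc (a * b) ^ (n + 1) = a ^ n * b ^ n * (z * (a * b)) := by
          rw [pow_succ, e]; simp only [mul_assoc]
      _ = a ^ n * (b ^ n * a) * b * z := by rw [e1]; simp only [mul_assoc]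
      _ = a ^ n * a * b ^ n * (u ^ n * b) * z := by rw [e2]; simp only [mul_assoc]
      _ = a ^ (n + 1) * b ^ (n + 1) * (u ^ n * z) := by
        rw [e3, pow_succ a, pow_succ b]; simp only [mul_assoc]

end grp

section mod

variable {G M : Type} [Group G] [AddCommGroup M] [DistribMulAction G M]

/-- the elements of `H` that fix `v` modulo `D` -/
def f0S (H : Subgroup G) (D : AddSubgroup M) (hD : Stb H D) (v : M) : Subgroup G where
  carrier := {g | g ∈ H ∧ g • v - v ∈ D}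
  mul_mem' := by
    rintro g h ⟨hg, hg'⟩ ⟨hh, hh'⟩
    refine ⟨H.mul_mem hg hh, ?_⟩
    have e : (g * h) • v - v = g • (h • v - v) + (g • v - v) := by
      rw [smul_sub, mul_smul]; abel
    rw [e]
    exact D.add_mem (hD g hg _ hh') hg'
  one_mem' := ⟨H.one_mem, by simp⟩
  inv_mem' := by
    rintro g ⟨hg, hg'⟩
    refine ⟨H.inv_mem hg, ?_⟩
    have e : g⁻¹ • v - v = -(g⁻¹ • (g • v - v)) := by
      rw [smul_sub, inv_smul_smul]; abel
    rw [e]
    exact D.neg_mem (hD _ (H.inv_mem hg) _ hg')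

theorem mem_f0S {H : Subgroup G} {D : AddSubgroup M} {hD : Stb H D} {v : M} {g : G} :
    g ∈ f0S H D hD v ↔ g ∈ H ∧ g • v - v ∈ D := Iff.rfl

theorem f0_gspan_mono (H : Subgroup G) {F F' : Set M} (h : F ⊆ F') : gspan H F ≤ gspan H F' := by
  refine AddSubgroup.closure_mono ?_
  rintro m ⟨g, hg, f, hf, rfl⟩
  exact ⟨g, hg, f, h hf, rfl⟩

end mod

section lv

variable {G M : Type} [Group G] [AddCommGroup M] [DistribMulAction G M]
    {U N B : Subgroup G} {x : G} {w : M} {V : Type} [AddCommGroup V] [DistribMulAction G V]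

theorem Lv.f0_mono (L : Lv G M U N B x w V) (i : ℕ) {Φ Ψ : Finset G} (h : Φ ⊆ Ψ) :
    L.VF i Φ ≤ L.VF i Ψ :=
  f0_gspan_mono N (Set.image_mono (by exact_mod_cast h))

theorem Lv.f0_stb (L : Lv G M U N B x w V) (i : ℕ) (Φ : Finset G) : Stb (L.H i) (L.VF i Φ) :=
  fun g hg v hv => gspan_stb N _ g (L.HN i hg) v hv

theorem Lv.f0_dstb (L : Lv G M U N B x w V) (i : ℕ) (Φ : Finset G) (n : ℕ) :
    Stb (L.H i) (dpow (L.H i) n (L.VF i Φ)) := dpow_stb _ _ (L.f0_stb i Φ) n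

theorem Lv.f0_pow_mem (L : Lv G M U N B x w V) (i : ℕ) {g : G} (hg : g ∈ N) {k : ℕ}
    (hk : L.κ i ∣ k) : g ^ k ∈ L.H i := by
  obtain ⟨l, rfl⟩ := hk
  rw [pow_mul]
  exact Subgroup.pow_mem _ (L.κH i g hg) l

/-- elements of `U ⊓ H i` belong to all the groups `f0S` -/
theorem Lv.f0_UH (L : Lv G M U N B x w V) (i : ℕ) {D : AddSubgroup (L.Q i)}
    (hD : Stb (L.H i) D) (v : L.Q i) {u : G} (hu : u ∈ U) (hu' : u ∈ L.H i) :
    u ∈ f0S (L.H i) D hD v := by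
  refine ⟨hu', ?_⟩
  rw [L.HU i u ⟨hu, hu'⟩, sub_self]
  exact D.zero_mem

/-! ############ MODULE F0 ############ -/

theorem Lv.PP_U (L : Lv G M U N B x w V) (hU : U ≤ N) (v : ∀ i, ℕ → L.Q i)
    (u : G) (hu : u ∈ U) : L.PP v u := by
  refine ⟨∅, 0, fun i _ => ⟨L.κ i, L.κpos i, fun C => ⟨0, fun s _ => ?_⟩⟩⟩
  have h1 : u ^ (L.κ i * L.p i ^ s) ∈ L.H i := L.f0_pow_mem i (hU hu) (dvd_mul_right _ _)
  refine ⟨h1, ?_⟩
  rw [L.HU i _ ⟨U.pow_mem hu _, h1⟩, sub_self]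
  exact AddSubgroup.zero_mem _

theorem Lv.PP_mul [U.Normal] [N.Normal] (L : Lv G M U N B x w V) (hU : U ≤ N)
    (hc : ∀ u ∈ U, ∀ g : G, g * u = u * g) (v : ∀ i, ℕ → L.Q i)
    (a b : G) (ha : a ∈ ucs N U 1) (hb : b ∈ ucs N U 1) (h1 : L.PP v a) (h2 : L.PP v b) :
    L.PP v (a * b) := by
  classical
  obtain ⟨Φ1, i1, h1⟩ := h1
  obtain ⟨Φ2, i2, h2⟩ := h2
  refine ⟨Φ1 ∪ Φ2, max i1 i2, fun i hi => ?_⟩
  obtain ⟨K1, hK1, h1⟩ := h1 i ((le_max_left _ _).trans hi)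
  obtain ⟨K2, hK2, h2⟩ := h2 i ((le_max_right _ _).trans hi)
  refine ⟨K1 * K2 * L.κ i, by have := L.κpos i; positivity, fun C => ?_⟩
  obtain ⟨s1, h1⟩ := h1 C
  obtain ⟨s2, h2⟩ := h2 C
  refine ⟨max s1 s2, fun s hs => ?_⟩
  obtain ⟨h1, h1'⟩ := h1 s ((le_max_left _ _).trans hs)
  obtain ⟨h2, h2'⟩ := h2 s ((le_max_right _ _).trans hs)
  have hD := L.f0_dstb i (Φ1 ∪ Φ2) (C * L.p i ^ s)
  have m1 : a ^ (K1 * L.p i ^ s) ∈ f0S (L.H i) _ hD (v i s) :=
    ⟨h1, dpow_mono _ _ _ _ le_rfl (L.f0_mono i Finset.subset_union_left) _ h1'⟩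
  have m2 : b ^ (K2 * L.p i ^ s) ∈ f0S (L.H i) _ hD (v i s) :=
    ⟨h2, dpow_mono _ _ _ _ le_rfl (L.f0_mono i Finset.subset_union_right) _ h2'⟩
  set n := K1 * K2 * L.κ i * L.p i ^ s with hn
  have m1' : a ^ n ∈ f0S (L.H i) _ hD (v i s) := by
    have e : n = (K1 * L.p i ^ s) * (K2 * L.κ i) := by rw [hn]; ring
    rw [e, pow_mul]
    exact Subgroup.pow_mem _ m1 _
  have m2' : b ^ n ∈ f0S (L.H i) _ hD (v i s) := by
    have e : n = (K2 * L.p i ^ s) * (K1 * L.κ i) := by rw [hn]; ring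
    rw [e, pow_mul]
    exact Subgroup.pow_mem _ m2 _
  obtain ⟨ha1, ha2⟩ := (f0_ucs1 N U a).1 ha
  obtain ⟨hb1, hb2⟩ := (f0_ucs1 N U b).1 hb
  obtain ⟨z, hz, e⟩ := f0_mul_pow hc (ha2 b hb1) n
  have hκ : L.κ i ∣ n := ⟨K1 * K2 * L.p i ^ s, by rw [hn]; ring⟩
  have hzH : z ∈ L.H i := by
    have e2 : z = (a ^ n * b ^ n)⁻¹ * (a * b) ^ n := by rw [e]; group
    rw [e2]
    exact Subgroup.mul_mem _ (Subgroup.inv_mem _ (Subgroup.mul_mem _ (L.f0_pow_mem i ha1 hκ)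
      (L.f0_pow_mem i hb1 hκ))) (L.f0_pow_mem i (N.mul_mem ha1 hb1) hκ)
  have m3 : (a * b) ^ n ∈ f0S (L.H i) _ hD (v i s) := by
    rw [e]
    exact Subgroup.mul_mem _ (Subgroup.mul_mem _ m1' m2') (L.f0_UH i hD _ hz hzH)
  exact m3

theorem Lv.PP_inv [U.Normal] [N.Normal] (L : Lv G M U N B x w V) (hU : U ≤ N)
    (v : ∀ i, ℕ → L.Q i) (a : G) (ha : a ∈ ucs N U 1) (h1 : L.PP v a) : L.PP v a⁻¹ := by
  obtain ⟨Φ, i0, h⟩ := h1
  refine ⟨Φ, i0, fun i hi => ?_⟩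
  obtain ⟨K, hK, h⟩ := h i hi
  refine ⟨K, hK, fun C => ?_⟩
  obtain ⟨s0, h⟩ := h C
  refine ⟨s0, fun s hs => ?_⟩
  have m : a ^ (K * L.p i ^ s) ∈ f0S (L.H i) _ (L.f0_dstb i Φ (C * L.p i ^ s)) (v i s) := h s hs
  rw [inv_pow]
  exact Subgroup.inv_mem _ m

theorem Lv.PP_root [U.Normal] [N.Normal] (L : Lv G M U N B x w V) (v : ∀ i, ℕ → L.Q i) (a : G)
    (k : ℕ) (hk : 0 < k) (h1 : L.PP v (a ^ k)) : L.PP v a := by
  obtain ⟨Φ, i0, h⟩ := h1
  refine ⟨Φ, i0, fun i hi => ?_⟩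
  obtain ⟨K, hK, h⟩ := h i hi
  refine ⟨k * K, by positivity, fun C => ?_⟩
  obtain ⟨s0, h⟩ := h C
  refine ⟨s0, fun s hs => ?_⟩
  rw [mul_assoc, pow_mul]
  exact h s hs

/-! ############ MODULE F2 ############ -/

theorem Lv.final2 [U.Normal] [N.Normal] (h : PC G) (L : Lv G M U N B x w V) (hU : U ≤ N)
    (hc : ∀ u ∈ U, ∀ g : G, g * u = u * g) (hB1 : B ≤ ucs N U 1)
    (v : ∀ i, ℕ → L.Q i) (hv : L.Fam v) (hPP : ∀ b ∈ B, L.PP v b) : L.Null v := by
  classical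
  obtain ⟨S, hS⟩ := h.fg B
  have hSB : ∀ b ∈ S, b ∈ B := fun b hb => hS ▸ Subgroup.subset_closure hb
  obtain ⟨Φ0, hv⟩ := hv
  choose! Φ1 i1 hP using fun b (hb : b ∈ S) => hPP b (hSB b hb)
  set Φ : Finset G := Φ0 ∪ S.biUnion Φ1 with hΦ
  refine ⟨Φ, S.sup i1, fun i hi => ?_⟩
  have hi' : ∀ b ∈ S, i1 b ≤ i := fun b hb => (Finset.le_sup hb).trans hi
  choose! K hK hP using fun b (hb : b ∈ S) => hP b hb i (hi' b hb)
  set H := L.H i with hH
  set p := L.p i with hp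
  set VV := L.VF i Φ with hVV
  have hpp : p.Prime := L.prime i
  have hchar : ∀ q : L.Q i, p • q = 0 := L.char i
  have hVstb : Stb H VV := L.f0_stb i Φ
  have hVfg : FGM H VV := by
    refine FGM.fi H N (L.HN i) (L.Hfi i) VV ⟨(fun g => L.π i (g • w)) '' (Φ : Set G), ?_, rfl⟩
    exact (Finset.finite_toSet Φ).image _
  set A : Set G := (fun b => b ^ (K b * L.κ i)) '' (S : Set G) with hA
  have hBN : ∀ b ∈ B, b ∈ N := fun b hb => ((f0_ucs1 N U b).1 (hB1 hb)).1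
  have hAH : A ⊆ H := by
    rintro _ ⟨b, hb, rfl⟩
    exact L.f0_pow_mem i (hBN b (hSB b hb)) (dvd_mul_left _ _)
  have hcommA : ∀ a ∈ A, ∀ g ∈ H, ∀ m : L.Q i, a • g • m = g • a • m := by
    rintro a haA g hg m
    have haH := hAH haA
    obtain ⟨b, hb, rfl⟩ := haA
    set a := b ^ (K b * L.κ i) with ha
    have ha1 : a ∈ ucs N U 1 := Subgroup.pow_mem _ (hB1 (hSB b hb)) _
    have h1 : cm a g ∈ U := ((f0_ucs1 N U a).1 ha1).2 g (L.HN i hg)
    have h2 : cm a g ∈ H := by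
      unfold cm
      exact H.mul_mem (H.mul_mem (H.mul_mem haH hg) (H.inv_mem haH)) (H.inv_mem hg)
    have h3 := L.HU i _ ⟨h1, h2⟩ ((g * a) • m)
    rw [← mul_smul, ← mul_smul]
    rw [← mul_smul] at h3
    have e : cm a g * (g * a) = a * g := by unfold cm; group
    rw [e] at h3
    exact h3
  have hchain : ReesChain p H (L.Q i) := by
    obtain ⟨n, c, c0, cn, hc'⟩ := L.chain i
    refine ⟨n, c, ?_, cn, hc'⟩
    intro g hg m
    rw [c0] at hg
    exact L.HU i g hg m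
  have hfix : ∀ q ∈ VV, (∀ a ∈ A, a • q = q) → q = 0 := by
    intro q _ hq
    set n := L.κ i * ∏ b ∈ S, (K b * L.κ i) with hn
    have hn0 : 0 < n := by
      refine Nat.mul_pos (L.κpos i) (Finset.prod_pos fun b hb => Nat.mul_pos (hK b hb) (L.κpos i))
    have hκn : L.κ i ∣ n := dvd_mul_right _ _
    refine L.nofix i n q hn0 ?_
    have key : ∀ b ∈ Subgroup.closure (S : Set G), b ∈ B ∧ b ^ n • q = q := by
      intro b hb
      induction hb using Subgroup.closure_induction with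
      | mem b hb =>
        refine ⟨hSB b hb, ?_⟩
        obtain ⟨l, hl⟩ : K b * L.κ i ∣ n :=
          (Finset.dvd_prod_of_mem (fun b => K b * L.κ i) hb).trans (dvd_mul_left _ _)
        have h1 : b ^ (K b * L.κ i) • q = q := hq _ ⟨b, hb, rfl⟩
        rw [hl, pow_mul]
        have h2 : b ^ (K b * L.κ i) ∈ MulAction.stabilizer G q := h1
        exact Subgroup.pow_mem _ h2 l
      | one => exact ⟨B.one_mem, by simp⟩
      | mul a b _ _ ha hb =>
        refine ⟨B.mul_mem ha.1 hb.1, ?_⟩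
        have haN := hBN a ha.1
        have hbN := hBN b hb.1
        obtain ⟨z, hz, e⟩ := f0_mul_pow hc (((f0_ucs1 N U a).1 (hB1 ha.1)).2 b hbN) n
        have hzH : z ∈ L.H i := by
          have e2 : z = (a ^ n * b ^ n)⁻¹ * (a * b) ^ n := by rw [e]; group
          rw [e2]
          exact Subgroup.mul_mem _ (Subgroup.inv_mem _ (Subgroup.mul_mem _
            (L.f0_pow_mem i haN hκn) (L.f0_pow_mem i hbN hκn)))
            (L.f0_pow_mem i (N.mul_mem haN hbN) hκn)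
        rw [e, mul_smul, mul_smul, L.HU i z ⟨hz, hzH⟩, hb.2, ha.2]
      | inv a _ ha =>
        refine ⟨B.inv_mem ha.1, ?_⟩
        have h2 : a ^ n ∈ MulAction.stabilizer G q := ha.2
        rw [inv_pow]
        exact Subgroup.inv_mem _ h2
    intro b hb
    rw [← hS] at hb
    exact (key b hb).2
  obtain ⟨c, hara⟩ := ara_iter p hpp hchar H hchain VV hVfg A
    ((Finset.finite_toSet S).image _) hAH hcommA hfix
  intro C
  choose! s1 hP using fun b (hb : b ∈ S) => hP b hb (C + c)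
  refine ⟨S.sup s1, fun s hs => ?_⟩
  have hvV : v i s ∈ VV := L.f0_mono i Finset.subset_union_left (hv i s)
  refine hara s (C * p ^ s) (v i s) hvV ?_
  rintro _ ⟨b, hb, rfl⟩
  obtain ⟨h1, h2⟩ := hP b hb s ((Finset.le_sup hb).trans hs)
  have e0 : C * p ^ s + c * p ^ s = (C + c) * p ^ s := by ring
  rw [e0]
  have hD := L.f0_dstb i Φ ((C + c) * L.p i ^ s)
  have hsub : Φ1 b ⊆ Φ :=
    (Finset.subset_biUnion_of_mem Φ1 hb).trans Finset.subset_union_right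
  have m1 : b ^ (K b * L.p i ^ s) ∈ f0S (L.H i) _ hD (v i s) :=
    ⟨h1, dpow_mono _ _ _ _ le_rfl (L.f0_mono i hsub) _ h2⟩
  have m2 : (b ^ (K b * L.κ i)) ^ (p ^ s) ∈ f0S (L.H i) _ hD (v i s) := by
    have e : (b ^ (K b * L.κ i)) ^ (p ^ s) = (b ^ (K b * L.p i ^ s)) ^ (L.κ i) := by
      rw [← pow_mul, ← pow_mul]
      congr 1
      ring
    rw [e]
    exact Subgroup.pow_mem _ m1 _
  exact m2.2

end lv

end Pool.Agent.Polc
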