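import Pool.Agent.Polc.Defs2
import Pool.Agent.Polc.DPOW

/-!
Module SYX: elementary facts on the level data `Lv` (the symbol module `X`).
See /team-store/polc_blueprint2.md.
-/

set_option autoImplicit false

namespace Pool.Agent.Polc

section lv
variable {G M : Type} [Group G] [AddCommGroup M] [DistribMulAction G M]
    {U N B : Subgroup G} {x : G} {w : M} {V : Type} [AddCommGroup V] [DistribMulAction G V]

theorem Lv.VF_mono (L : Lv G M U N B x w V) (i : ℕ) (Φ Ψ : Finset G) (h : Φ ⊆ Ψ) :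
    L.VF i Φ ≤ L.VF i Ψ := by
  unfold Lv.VF gspan
  apply AddSubgroup.closure_mono
  rintro m ⟨a, ha, f, ⟨γ, hγ, rfl⟩, rfl⟩
  exact ⟨a, ha, _, ⟨γ, h hγ, rfl⟩, rfl⟩

theorem Lv.VF_gen (L : Lv G M U N B x w V) (i : ℕ) (Φ : Finset G) (a γ : G) (ha : a ∈ N)
    (hγ : γ ∈ Φ) : L.π i ((a * γ) • w) ∈ L.VF i Φ := by
  rw [mul_smul, L.equiv]
  exact AddSubgroup.subset_closure ⟨a, ha, _, ⟨γ, hγ, rfl⟩, rfl⟩

/-- induction principle for `VF` -/
theorem Lv.VF_le (L : Lv G M U N B x w V) (i : ℕ) (Φ : Finset G) (W : AddSubgroup (L.Q i))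
    (h : ∀ a ∈ N, ∀ γ ∈ Φ, L.π i ((a * γ) • w) ∈ W) : L.VF i Φ ≤ W := by
  unfold Lv.VF gspan
  rw [AddSubgroup.closure_le]
  rintro m ⟨a, ha, f, ⟨γ, hγ, rfl⟩, rfl⟩
  have := h a ha γ hγ
  rw [mul_smul, L.equiv] at this
  exact this

/-- elements mapping `VF i Φ` to `VF i Ψ` -/
theorem Lv.VF_map (L : Lv G M U N B x w V) (i : ℕ) (Φ Ψ : Finset G) (g : G)
    (h : ∀ a ∈ N, ∀ γ ∈ Φ, ∃ b ∈ N, ∃ δ ∈ Ψ, (g * a * γ) • w = (b * δ) • w)
    (v : L.Q i) (hv : v ∈ L.VF i Φ) : g • v ∈ L.VF i Ψ := by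
  have : L.VF i Φ ≤ (L.VF i Ψ).comap (DistribSMul.toAddMonoidHom (L.Q i) g) := by
    apply L.VF_le
    intro a ha γ hγ
    obtain ⟨b, hb, δ, hδ, e⟩ := h a ha γ hγ
    rw [AddSubgroup.mem_comap]
    show g • L.π i ((a * γ) • w) ∈ _
    rw [← L.equiv, ← mul_smul, ← mul_assoc, e]
    exact L.VF_gen i Ψ b δ hb hδ
  exact this hv

theorem Lv.VF_stbN (L : Lv G M U N B x w V) (i : ℕ) (Φ : Finset G) : Stb N (L.VF i Φ) := by
  intro g hg v hv
  refine L.VF_map i Φ Φ g (fun a ha γ hγ => ⟨g * a, N.mul_mem hg ha, γ, hγ, rfl⟩) v hv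

theorem Lv.VF_stbx (L : Lv G M U N B x w V) (hN : N.Normal) (hab : ∀ a b : G, cm a b ∈ N)
    (g : G) (hg : g • w = w) (i : ℕ) (Φ : Finset G) (v : L.Q i) (hv : v ∈ L.VF i Φ) :
    g • v ∈ L.VF i Φ := by
  refine L.VF_map i Φ Φ g (fun a ha γ hγ => ⟨g * a * g⁻¹ * cm g γ,
    N.mul_mem (hN.conj_mem a ha g) (hab g γ), γ, hγ, ?_⟩) v hv
  have e : g * a * γ = g * a * g⁻¹ * cm g γ * γ * g := by simp only [cm]; group
  rw [e, mul_smul _ g w, hg]

/-- `VF i Φ` is stable under `N` and `x` -/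
theorem Lv.VF_stb (L : Lv G M U N B x w V) (hN : N.Normal) (hab : ∀ a b : G, cm a b ∈ N)
    (hx : x • w = w) (i : ℕ) (Φ : Finset G) : Stb (N ⊔ Subgroup.zpowers x) (L.VF i Φ) := by
  intro g hg v hv
  rw [Subgroup.mem_sup_of_normal_left] at hg
  obtain ⟨a, ha, b, hb, rfl⟩ := hg
  obtain ⟨k, rfl⟩ := Subgroup.mem_zpowers_iff.1 hb
  have hst : ∀ k : ℤ, x ^ k • w = w := by
    have : x ∈ MulAction.stabilizer G w := hx
    intro k
    exact (MulAction.stabilizer G w).zpow_mem this k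
  rw [mul_smul]
  exact L.VF_stbN i Φ a ha _ (L.VF_stbx hN hab _ (hst k) i Φ v hv)

theorem Lv.null_add (L : Lv G M U N B x w V) (hN : N.Normal) (v v' : ∀ i, ℕ → L.Q i)
    (h : L.Null v) (h' : L.Null v') : L.Null (fun i s => v i s + v' i s) := by
  classical
  obtain ⟨Φ, i0, h⟩ := h
  obtain ⟨Φ', i0', h'⟩ := h'
  refine ⟨Φ ∪ Φ', max i0 i0', fun i hi C => ?_⟩
  obtain ⟨s0, h⟩ := h i (le_trans (le_max_left _ _) hi) C
  obtain ⟨s0', h'⟩ := h' i (le_trans (le_max_right _ _) hi) C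
  refine ⟨max s0 s0', fun s hs => ?_⟩
  exact AddSubgroup.add_mem _
    (dpow_mono _ _ _ _ le_rfl (L.VF_mono i Φ _ Finset.subset_union_left) _
      (h s (le_trans (le_max_left _ _) hs)))
    (dpow_mono _ _ _ _ le_rfl (L.VF_mono i Φ' _ Finset.subset_union_right) _
      (h' s (le_trans (le_max_right _ _) hs)))

theorem Lv.null_neg (L : Lv G M U N B x w V) (v : ∀ i, ℕ → L.Q i)
    (h : L.Null v) : L.Null (fun i s => - v i s) := by
  obtain ⟨Φ, i0, h⟩ := h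
  refine ⟨Φ, i0, fun i hi C => ?_⟩
  obtain ⟨s0, h⟩ := h i hi C
  exact ⟨s0, fun s hs => AddSubgroup.neg_mem _ (h s hs)⟩

theorem Lv.fam_add (L : Lv G M U N B x w V) (v v' : ∀ i, ℕ → L.Q i)
    (h : L.Fam v) (h' : L.Fam v') : L.Fam (fun i s => v i s + v' i s) := by
  classical
  obtain ⟨Φ, h⟩ := h
  obtain ⟨Φ', h'⟩ := h'
  exact ⟨Φ ∪ Φ', fun i s => AddSubgroup.add_mem _
    (L.VF_mono i Φ _ Finset.subset_union_left (h i s))
    (L.VF_mono i Φ' _ Finset.subset_union_right (h' i s))⟩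

theorem Lv.null_smul (L : Lv G M U N B x w V) (hN : N.Normal) (hab : ∀ a b : G, cm a b ∈ N)
    (hx : x • w = w) (v : ∀ i, ℕ → L.Q i) (h : L.Null v) (f : ℕ → ℕ → G)
    (hf : ∀ i s, f i s ∈ N ⊔ Subgroup.zpowers x) : L.Null (fun i s => f i s • v i s) := by
  obtain ⟨Φ, i0, h⟩ := h
  refine ⟨Φ, i0, fun i hi C => ?_⟩
  obtain ⟨s0, h⟩ := h i hi C
  exact ⟨s0, fun s hs => dpow_smul _ (L.Hn i) _ _ _ _
    (fun q hq => L.VF_stb hN hab hx i Φ _ (hf i s) q hq) _ (h s hs)⟩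

theorem Lv.fam_smul (L : Lv G M U N B x w V) (hN : N.Normal) (hab : ∀ a b : G, cm a b ∈ N)
    (hx : x • w = w) (v : ∀ i, ℕ → L.Q i) (h : L.Fam v) (f : ℕ → ℕ → G)
    (hf : ∀ i s, f i s ∈ N ⊔ Subgroup.zpowers x) : L.Fam (fun i s => f i s • v i s) := by
  obtain ⟨Φ, h⟩ := h
  exact ⟨Φ, fun i s => L.VF_stb hN hab hx i Φ _ (hf i s) _ (h i s)⟩

theorem Lv.VF_act [DecidableEq G] (L : Lv G M U N B x w V) (hN : N.Normal) (i : ℕ)
    (Φ : Finset G) (g : G) (v : L.Q i) (hv : v ∈ L.VF i Φ) :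
    g • v ∈ L.VF i (Φ.image (fun γ => g * γ)) := by
  refine L.VF_map i Φ _ g (fun a ha γ hγ => ⟨g * a * g⁻¹, hN.conj_mem a ha g, g * γ,
    Finset.mem_image_of_mem _ hγ, ?_⟩) v hv
  congr 1
  group

theorem Lv.null_act (L : Lv G M U N B x w V) (hN : N.Normal) (v : ∀ i, ℕ → L.Q i)
    (h : L.Null v) (g : G) : L.Null (fun i s => g • v i s) := by
  classical
  obtain ⟨Φ, i0, h⟩ := h
  refine ⟨Φ.image (fun γ => g * γ), i0, fun i hi C => ?_⟩
  obtain ⟨s0, h⟩ := h i hi C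
  exact ⟨s0, fun s hs => dpow_smul _ (L.Hn i) _ _ _ _
    (fun q hq => L.VF_act hN i Φ g q hq) _ (h s hs)⟩

theorem Lv.fam_act (L : Lv G M U N B x w V) (hN : N.Normal) (v : ∀ i, ℕ → L.Q i)
    (h : L.Fam v) (g : G) : L.Fam (fun i s => g • v i s) := by
  classical
  obtain ⟨Φ, h⟩ := h
  exact ⟨Φ.image (fun γ => g * γ), fun i s => L.VF_act hN i Φ g _ (h i s)⟩

/-- conjugates of elements of `N ⊔ ⟨x⟩` -/
theorem syx_conj_mem_sup (hN : N.Normal) (hab : ∀ a b : G, cm a b ∈ N) (γ g : G)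
    (hg : g ∈ N ⊔ Subgroup.zpowers x) : γ * g * γ⁻¹ ∈ N ⊔ Subgroup.zpowers x := by
  have e : γ * g * γ⁻¹ = cm γ g * g := by simp only [cm]; group
  rw [e]
  exact Subgroup.mul_mem _ (Subgroup.mem_sup_left (hab γ g)) hg

theorem Lv.HH_mem (L : Lv G M U N B x w V) (hN : N.Normal) (hab : ∀ a b : G, cm a b ∈ N)
    (f : ℕ → ℕ → G) (hf : f ∈ L.HH) (i s : ℕ) : f i s ∈ N ⊔ Subgroup.zpowers x := by
  unfold Lv.HH at hf
  induction hf using Subgroup.closure_induction with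
  | mem y hy =>
    obtain ⟨γ, rfl⟩ := hy
    exact syx_conj_mem_sup hN hab γ _ (Subgroup.pow_mem _
      (Subgroup.mem_sup_right (Subgroup.mem_zpowers x)) _)
  | one => exact Subgroup.one_mem _
  | mul a b _ _ ha hb => exact Subgroup.mul_mem _ ha hb
  | inv a _ ha => exact Subgroup.inv_mem _ ha

/-- the families with values in `N ⊔ ⟨x⟩` acting trivially modulo null families -/
def Lv.Tr (L : Lv G M U N B x w V) (f : ℕ → ℕ → G) : Prop :=
  (∀ i s, f i s ∈ N ⊔ Subgroup.zpowers x) ∧ ∀ v : ∀ i, ℕ → L.Q i, L.Fam v → L.Null (L.dl f v)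

theorem Lv.Tr.one (L : Lv G M U N B x w V) : L.Tr 1 := by
  refine ⟨fun i s => Subgroup.one_mem _, fun v _ => ⟨∅, 0, fun i _ C => ⟨0, fun s _ => ?_⟩⟩⟩
  have : L.dl 1 v i s = 0 := by simp [Lv.dl]
  rw [this]
  exact AddSubgroup.zero_mem _

theorem Lv.Tr.mul (L : Lv G M U N B x w V) (hN : N.Normal) (hab : ∀ a b : G, cm a b ∈ N)
    (hx : x • w = w) {f g : ℕ → ℕ → G} (hf : L.Tr f) (hg : L.Tr g) : L.Tr (f * g) := by
  refine ⟨fun i s => Subgroup.mul_mem _ (hf.1 i s) (hg.1 i s), fun v hv => ?_⟩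
  have e : L.dl (f * g) v = fun i s => (f i s • L.dl g v i s) + L.dl f v i s := by
    funext i s
    simp only [Lv.dl, Pi.mul_apply, mul_smul, smul_sub]
    abel
  rw [e]
  exact L.null_add hN _ _ (L.null_smul hN hab hx _ (hg.2 v hv) f hf.1) (hf.2 v hv)

theorem Lv.Tr.inv (L : Lv G M U N B x w V) (hN : N.Normal) (hab : ∀ a b : G, cm a b ∈ N)
    (hx : x • w = w) {f : ℕ → ℕ → G} (hf : L.Tr f) : L.Tr f⁻¹ := by
  refine ⟨fun i s => Subgroup.inv_mem _ (hf.1 i s), fun v hv => ?_⟩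
  have e : L.dl f⁻¹ v = fun i s => - (f⁻¹ i s • L.dl f v i s) := by
    funext i s
    simp only [Lv.dl, Pi.inv_apply, smul_sub, inv_smul_smul]
    abel
  rw [e]
  exact L.null_neg _ (L.null_smul hN hab hx _ (hf.2 v hv) f⁻¹
    (fun i s => Subgroup.inv_mem _ (hf.1 i s)))

theorem Lv.Tr.conj (L : Lv G M U N B x w V) (hN : N.Normal) (hab : ∀ a b : G, cm a b ∈ N)
    (hx : x • w = w) {f h : ℕ → ℕ → G} (hf : L.Tr f)
    (hh : ∀ i s, h i s ∈ N ⊔ Subgroup.zpowers x) : L.Tr (h * f * h⁻¹) := by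
  refine ⟨fun i s => Subgroup.mul_mem _ (Subgroup.mul_mem _ (hh i s) (hf.1 i s))
    (Subgroup.inv_mem _ (hh i s)), fun v hv => ?_⟩
  have h1 : L.Fam (fun i s => h⁻¹ i s • v i s) :=
    L.fam_smul hN hab hx v hv h⁻¹ (fun i s => Subgroup.inv_mem _ (hh i s))
  have e : L.dl (h * f * h⁻¹) v =
      fun i s => h i s • L.dl f (fun i s => h⁻¹ i s • v i s) i s := by
    funext i s
    simp only [Lv.dl, Pi.mul_apply, Pi.inv_apply, mul_smul, smul_sub, smul_inv_smul]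
  rw [e]
  exact L.null_smul hN hab hx _ (hf.2 _ h1) h hh

theorem Lv.Tr.act (L : Lv G M U N B x w V) (hN : N.Normal) (hab : ∀ a b : G, cm a b ∈ N)
    {f : ℕ → ℕ → G} (hf : L.Tr f) (γ : G) :
    L.Tr (fun i s => γ * f i s * γ⁻¹) := by
  refine ⟨fun i s => syx_conj_mem_sup hN hab γ _ (hf.1 i s), fun v hv => ?_⟩
  have h1 : L.Fam (fun i s => γ⁻¹ • v i s) := L.fam_act hN v hv γ⁻¹
  have e : L.dl (fun i s => γ * f i s * γ⁻¹) v =
      fun i s => γ • L.dl f (fun i s => γ⁻¹ • v i s) i s := by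
    funext i s
    simp only [Lv.dl, mul_smul, smul_sub, smul_inv_smul]
  rw [e]
  exact L.null_act hN _ (hf.2 _ h1) γ

/-- elements of `⟨v^(p^(2s))⟩ ⊔ (U ⊓ H)` act trivially modulo `Δ(H)^(p^(2s))` -/
theorem Lv.deep_act (L : Lv G M U N B x w V) (i s : ℕ) (Φ : Finset G) (k : G)
    (hk : k ∈ Subgroup.closure {k | ∃ v ∈ L.H i, k = v ^ (L.p i ^ s)} ⊔ (U ⊓ L.H i))
    (q : L.Q i) (hq : q ∈ L.VF i Φ) :
    k • q - q ∈ dpow (L.H i) (L.p i ^ s) (L.VF i Φ) := by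
  have hst : Stb (L.H i) (L.VF i Φ) := fun h hh v hv => L.VF_stbN i Φ h (L.HN i hh) v hv
  have hHU := L.HU i
  have key : ∀ k ∈ Subgroup.closure {k | ∃ v ∈ L.H i, k = v ^ (L.p i ^ s)} ⊔ (U ⊓ L.H i),
      k ∈ L.H i ∧ ∀ q ∈ L.VF i Φ, k • q - q ∈ dpow (L.H i) (L.p i ^ s) (L.VF i Φ) := by
    intro k hk
    have hle : Subgroup.closure {k | ∃ v ∈ L.H i, k = v ^ (L.p i ^ s)} ≤ L.H i := by
      rw [Subgroup.closure_le]
      rintro _ ⟨v, hv, rfl⟩
      exact Subgroup.pow_mem _ hv _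
    rw [Subgroup.sup_eq_closure] at hk
    induction hk using Subgroup.closure_induction with
    | mem y hy =>
      rcases hy with hy | hy
      · refine ⟨hle hy, fun q hq => ?_⟩
        exact dpow_pow (L.p i) (L.prime i) (L.char i) (L.H i) _ hst s y hy q hq
      · refine ⟨hy.2, fun q _ => ?_⟩
        rw [hHU y hy q, sub_self]
        exact AddSubgroup.zero_mem _
    | one =>
      refine ⟨Subgroup.one_mem _, fun q _ => ?_⟩
      rw [one_smul, sub_self]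
      exact AddSubgroup.zero_mem _
    | mul a b _ _ ha hb =>
      refine ⟨Subgroup.mul_mem _ ha.1 hb.1, fun q hq => ?_⟩
      have e : (a * b) • q - q = a • (b • q - q) + (a • q - q) := by
        rw [mul_smul, smul_sub]; abel
      rw [e]
      exact AddSubgroup.add_mem _ (dpow_stb _ _ hst _ a ha.1 _ (hb.2 q hq)) (ha.2 q hq)
    | inv a _ ha =>
      refine ⟨Subgroup.inv_mem _ ha.1, fun q hq => ?_⟩
      have e : a⁻¹ • q - q = - (a⁻¹ • (a • q - q)) := by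
        rw [smul_sub, inv_smul_smul]; abel
      rw [e]
      exact AddSubgroup.neg_mem _ (dpow_stb _ _ hst _ _ (Subgroup.inv_mem _ ha.1) _ (ha.2 q hq))
  exact (key k hk).2 q hq

theorem Lv.Tr.xi_comm (L : Lv G M U N B x w V) (hN : N.Normal) (hab : ∀ a b : G, cm a b ∈ N)
    (γ δ : G) : L.Tr (fun i s => cm (L.xi γ i s) (L.xi δ i s)) := by
  have h0 : ∀ γ : G, L.Tr (fun i s => cm (γ * x ^ (L.t i * L.p i ^ s) * γ⁻¹ *
      (x ^ (L.t i * L.p i ^ s))⁻¹) (x ^ (L.t i * L.p i ^ s))) := by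
    intro γ
    refine ⟨fun i s => Subgroup.mem_sup_left (hab _ _), fun v hv => ?_⟩
    obtain ⟨Φ, hΦ⟩ := hv
    refine ⟨Φ, 0, fun i _ C => ⟨C, fun s hs => ?_⟩⟩
    have h1 := L.deep_act i (2 * s) Φ _ (L.comm i s γ) (v i s) (hΦ i s)
    have hst : Stb (L.H i) (L.VF i Φ) := fun h hh v hv => L.VF_stbN i Φ h (L.HN i hh) v hv
    refine dpow_anti _ _ hst _ _ ?_ h1
    have h2 : C ≤ L.p i ^ s := by
      calc C ≤ s := hs
        _ ≤ 2 ^ s := (Nat.lt_two_pow_self).le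
        _ ≤ L.p i ^ s := Nat.pow_le_pow_left (L.prime i).two_le s
    calc C * L.p i ^ s ≤ L.p i ^ s * L.p i ^ s := Nat.mul_le_mul_right _ h2
      _ = L.p i ^ (2 * s) := by rw [two_mul, pow_add]
  have h1 := Lv.Tr.act L hN hab (h0 (δ⁻¹ * γ)) δ
  have e : (fun i s => cm (L.xi γ i s) (L.xi δ i s)) = fun i s => δ * cm (δ⁻¹ * γ *
      x ^ (L.t i * L.p i ^ s) * (δ⁻¹ * γ)⁻¹ * (x ^ (L.t i * L.p i ^ s))⁻¹)
      (x ^ (L.t i * L.p i ^ s)) * δ⁻¹ := by
    funext i s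
    simp only [Lv.xi, cm]
    generalize x ^ (L.t i * L.p i ^ s) = y
    simp only [mul_inv_rev, inv_inv, mul_assoc, inv_mul_cancel_left, mul_inv_cancel_left]
  rw [e]
  exact h1

/-- if the commutators of generators are trivial modulo `K` then so are all commutators -/
theorem Lv.Tr.comm_of (L : Lv G M U N B x w V) (hN : N.Normal) (hab : ∀ a b : G, cm a b ∈ N)
    (hx : x • w = w) (S : Set (ℕ → ℕ → G)) (hS : ∀ f ∈ S, ∀ i s, f i s ∈ N ⊔ Subgroup.zpowers x)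
    (g : ℕ → ℕ → G) (h : ∀ f ∈ S, L.Tr (fun i s => cm (f i s) (g i s)))
    (f : ℕ → ℕ → G) (hf : f ∈ Subgroup.closure S) : L.Tr (fun i s => cm (f i s) (g i s)) := by
  have key : (∀ i s, f i s ∈ N ⊔ Subgroup.zpowers x) ∧ L.Tr (fun i s => cm (f i s) (g i s)) := by
    induction hf using Subgroup.closure_induction with
    | mem y hy => exact ⟨hS y hy, h y hy⟩
    | one =>
      refine ⟨fun i s => Subgroup.one_mem _, ?_⟩
      have e : (fun i s => cm ((1 : ℕ → ℕ → G) i s) (g i s)) = 1 := by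
        funext i s; simp [cm]
      rw [e]; exact Lv.Tr.one L
    | mul a b _ _ ha hb =>
      refine ⟨fun i s => Subgroup.mul_mem _ (ha.1 i s) (hb.1 i s), ?_⟩
      have e : (fun i s => cm ((a * b) i s) (g i s)) =
          (a * (fun i s => cm (b i s) (g i s)) * a⁻¹) * (fun i s => cm (a i s) (g i s)) := by
        funext i s
        simp only [cm, Pi.mul_apply, Pi.inv_apply]
        group
      rw [e]
      exact Lv.Tr.mul L hN hab hx (Lv.Tr.conj L hN hab hx hb.2 ha.1) ha.2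
    | inv a _ ha =>
      refine ⟨fun i s => Subgroup.inv_mem _ (ha.1 i s), ?_⟩
      have e : (fun i s => cm (a⁻¹ i s) (g i s)) =
          a⁻¹ * (fun i s => cm (a i s) (g i s))⁻¹ * a⁻¹⁻¹ := by
        funext i s
        simp only [cm, Pi.mul_apply, Pi.inv_apply]
        group
      rw [e]
      exact Lv.Tr.conj L hN hab hx (Lv.Tr.inv L hN hab hx ha.2)
        (fun i s => Subgroup.inv_mem _ (ha.1 i s))
  exact key.2

theorem Lv.Tr.symm (L : Lv G M U N B x w V) (hN : N.Normal) (hab : ∀ a b : G, cm a b ∈ N)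
    (hx : x • w = w) {f g : ℕ → ℕ → G} (h : L.Tr (fun i s => cm (f i s) (g i s))) :
    L.Tr (fun i s => cm (g i s) (f i s)) := by
  have e : (fun i s => cm (g i s) (f i s)) = (fun i s => cm (f i s) (g i s))⁻¹ := by
    funext i s
    simp only [cm, Pi.inv_apply]
    group
  rw [e]
  exact Lv.Tr.inv L hN hab hx h

/-- commutators of elements of `HH` act trivially modulo null families -/
theorem Lv.comm_tr (L : Lv G M U N B x w V) (hN : N.Normal) (hab : ∀ a b : G, cm a b ∈ N)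
    (hx : x • w = w) (f g : ℕ → ℕ → G) (hf : f ∈ L.HH) (hg : g ∈ L.HH) :
    L.Tr (fun i s => cm (f i s) (g i s)) := by
  have hS : ∀ f ∈ Set.range L.xi, ∀ i s, f i s ∈ N ⊔ Subgroup.zpowers x :=
    fun f hf => L.HH_mem hN hab f (Subgroup.subset_closure hf)
  have h1 : ∀ γ : G, L.Tr (fun i s => cm (f i s) (L.xi γ i s)) := by
    intro γ
    apply Lv.Tr.comm_of L hN hab hx (Set.range L.xi) hS (L.xi γ) _ f hf
    rintro _ ⟨δ, rfl⟩
    exact Lv.Tr.xi_comm L hN hab δ γ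
  apply Lv.Tr.symm L hN hab hx
  apply Lv.Tr.comm_of L hN hab hx (Set.range L.xi) hS f _ g hg
  rintro _ ⟨γ, rfl⟩
  exact Lv.Tr.symm L hN hab hx (h1 γ)

/-- families in the small subgroup act trivially modulo null families -/
theorem Lv.comm_null (L : Lv G M U N B x w V) (hN : N.Normal) (hab : ∀ a b : G, cm a b ∈ N)
    (hx : x • w = w) (f g : ℕ → ℕ → G) (hf : f ∈ L.HH) (hg : g ∈ L.HH) (v : ∀ i, ℕ → L.Q i)
    (hv : L.Fam v) : L.Null (L.dl (fun i s => cm (f i s) (g i s)) v) :=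
  (L.comm_tr hN hab hx f g hf hg).2 v hv

/-- constant families: nonzero constants are not null -/
theorem Lv.const_null (L : Lv G M U N B x w V) (hN : N.Normal) (m : M)
    (h : L.Null (fun i _ => L.π i m)) : m = 0 := by
  by_contra hm
  obtain ⟨Φ, i0, h⟩ := h
  obtain ⟨i1, h1⟩ := L.esc m hm
  obtain ⟨i2, h2⟩ := L.rf Φ m
  let i := max i0 (max i1 i2)
  have hi0 : i0 ≤ i := le_max_left _ _
  have hi1 : i1 ≤ i := le_trans (le_max_left _ _) (le_max_right _ _)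
  have hi2 : i2 ≤ i := le_trans (le_max_right _ _) (le_max_right _ _)
  obtain ⟨n, hn⟩ := h2 i hi2 (h1 i hi1)
  obtain ⟨s0, h3⟩ := h i hi0 n
  apply hn
  have hst : Stb (L.H i) (L.VF i Φ) := fun h hh v hv => L.VF_stbN i Φ h (L.HN i hh) v hv
  exact dpow_anti _ _ hst n (n * L.p i ^ s0)
    (Nat.le_mul_of_pos_right _ (pow_pos (L.prime i).pos _)) (h3 s0 le_rfl)

theorem Lv.const_fam (L : Lv G M U N B x w V) (hN : N.Normal)
    (gen : gspan (⊤ : Subgroup G) {w} = ⊤) (m : M) :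
    L.Fam (fun i _ => L.π i m) := by
  classical
  have key : ∀ m ∈ gspan (⊤ : Subgroup G) {w}, ∃ Φ : Finset G, ∀ i, L.π i m ∈ L.VF i Φ := by
    intro m hm
    unfold gspan at hm
    induction hm using AddSubgroup.closure_induction with
    | mem y hy =>
      obtain ⟨h, _, f, hf, rfl⟩ := hy
      rw [Set.mem_singleton_iff] at hf
      subst hf
      refine ⟨{h}, fun i => ?_⟩
      have := L.VF_gen i {h} 1 h N.one_mem (Finset.mem_singleton_self h)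
      rwa [one_mul] at this
    | zero => exact ⟨∅, fun i => by rw [map_zero]; exact AddSubgroup.zero_mem _⟩
    | add a b _ _ ha hb =>
      obtain ⟨Φ, ha⟩ := ha
      obtain ⟨Ψ, hb⟩ := hb
      refine ⟨Φ ∪ Ψ, fun i => ?_⟩
      rw [map_add]
      exact AddSubgroup.add_mem _ (L.VF_mono i Φ _ Finset.subset_union_left (ha i))
        (L.VF_mono i Ψ _ Finset.subset_union_right (hb i))
    | neg a _ ha =>
      obtain ⟨Φ, ha⟩ := ha
      exact ⟨Φ, fun i => by rw [map_neg]; exact AddSubgroup.neg_mem _ (ha i)⟩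
  obtain ⟨Φ, h⟩ := key m (by rw [gen]; trivial)
  exact ⟨Φ, fun i _ => h i⟩

end lv

end Pool.Agent.Polc
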