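import Pool.Agent.Polc.MCBSUB
import Pool.Agent.Polc.SYX
import Pool.Agent.Polc.F0F2

/-!
# Case 1: all elements of `B` have property `PP`
-/

set_option autoImplicit false

namespace Pool.Agent.Polc

section grp
variable {G : Type} [Group G] (N U : Subgroup G) [U.Normal] [N.Normal]

theorem F1A_U_le (hUN : U ≤ N) : U ≤ ucs N U 1 := by
  have h := ucs_mono N U hUN 0 1 (Nat.zero_le 1)
  rwa [ucs_zero] at h

theorem F1A_mc_ucs1 (hUN : U ≤ N) (j : ℕ) (z : List G) (hz : ∀ g ∈ z, g ∈ N) (hl : z.length = j)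
    (a : G) (ha : a ∈ ucs N U (j + 1)) : mc z a ∈ ucs N U 1 :=
  mc_mem N U hUN 1 j z hz hl a (by rw [add_comm]; exact ha)

theorem F1A_mc_U (hUN : U ≤ N) (j : ℕ) (z : List G) (hz : ∀ g ∈ z, g ∈ N) (hl : z.length = j)
    (a : G) (ha : a ∈ ucs N U j) : mc z a ∈ U := by
  have h := mc_mem N U hUN 0 j z hz hl a (by rw [zero_add]; exact ha)
  rwa [ucs_zero] at h

theorem F1A_one_mem (j : ℕ) : (1 : G) ∈ ucs N U j := Subgroup.one_mem _

/-- powers in the first argument -/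
theorem F1A_mc_vpow (hUN : U ≤ N) (j : ℕ) (z : List G) (hz : ∀ g ∈ z, g ∈ N) (hl : z.length = j)
    (a : G) (ha : a ∈ ucs N U (j + 1)) (n : ℕ) :
    ((mc z a) ^ n)⁻¹ * mc z (a ^ n) ∈ U := by
  induction n with
  | zero =>
    rw [pow_zero, pow_zero, inv_one, one_mul]
    exact F1A_mc_U N U hUN j z hz hl 1 (Subgroup.one_mem _)
  | succ n ih =>
    have h1 := mc_mul N U hUN j z hz hl (a ^ n) a (Subgroup.pow_mem _ ha n) ha
    have h2 : ((mc z a) ^ (n + 1))⁻¹ * mc z (a ^ (n + 1)) =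
        ((mc z a)⁻¹ * (((mc z a) ^ n)⁻¹ * mc z (a ^ n)) * mc z a) *
          ((mc z (a ^ n) * mc z a)⁻¹ * mc z (a ^ n * a)) := by
      rw [pow_succ (mc z a), pow_succ a]
      group
    rw [h2]
    refine U.mul_mem ?_ h1
    have h3 := (inferInstance : U.Normal).conj_mem _ ih (mc z a)⁻¹
    rwa [inv_inv] at h3

end grp

section lv
variable {G M : Type} [Group G] [AddCommGroup M] [DistribMulAction G M]
    {U N B : Subgroup G} {x : G} {w : M} {V : Type} [AddCommGroup V] [DistribMulAction G V]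

theorem Lv.F1A_mul (L : Lv G M U N B x w V) (hN : N.Normal) (hab : ∀ a b : G, cm a b ∈ N)
    (hx : x • w = w) (v : ∀ i, ℕ → L.Q i) (f g : ℕ → ℕ → G) (hf : f ∈ L.HH)
    (h1 : L.Null (L.dl f v)) (h2 : L.Null (L.dl g v)) : L.Null (L.dl (f * g) v) := by
  have h3 := L.null_smul hN hab hx _ h2 f (L.HH_mem hN hab f hf)
  have h4 := L.null_add hN _ _ h3 h1
  have h5 : L.dl (f * g) v = (fun i s => f i s • L.dl g v i s + L.dl f v i s) := by
    funext i s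
    simp only [Lv.dl, Pi.mul_apply, mul_smul, smul_sub]
    abel
  rw [h5]
  exact h4

theorem Lv.F1A_inv (L : Lv G M U N B x w V) (hN : N.Normal) (hab : ∀ a b : G, cm a b ∈ N)
    (hx : x • w = w) (v : ∀ i, ℕ → L.Q i) (f : ℕ → ℕ → G) (hf : f ∈ L.HH)
    (h1 : L.Null (L.dl f v)) : L.Null (L.dl f⁻¹ v) := by
  have h3 := L.null_smul hN hab hx _ h1 f⁻¹ (L.HH_mem hN hab f⁻¹ (L.HH.inv_mem hf))
  have h4 := L.null_neg _ h3
  have h5 : L.dl f⁻¹ v = (fun i s => - (f⁻¹ i s • L.dl f v i s)) := by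
    funext i s
    simp only [Lv.dl, Pi.inv_apply, smul_sub, inv_smul_smul, neg_sub]
  rw [h5]
  exact h4

theorem Lv.F1A_conj (L : Lv G M U N B x w V) (f : ℕ → ℕ → G) (hf : f ∈ L.HH) (γ : G) :
    (fun i s => γ * f i s * γ⁻¹) ∈ L.HH := by
  induction hf using Subgroup.closure_induction with
  | mem f hf =>
    obtain ⟨δ, rfl⟩ := hf
    refine Subgroup.subset_closure ⟨γ * δ, ?_⟩
    funext i s
    simp only [Lv.xi]
    group
  | one =>
    have h2 : (fun (i s : ℕ) => γ * (1 : ℕ → ℕ → G) i s * γ⁻¹) = (1 : ℕ → ℕ → G) := by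
      funext i s
      simp
    rw [h2]
    exact Subgroup.one_mem _
  | mul f g _ _ hf hg =>
    have h2 : (fun (i s : ℕ) => γ * (f * g) i s * γ⁻¹) =
        (fun (i s : ℕ) => γ * f i s * γ⁻¹) * (fun (i s : ℕ) => γ * g i s * γ⁻¹) := by
      funext i s
      simp only [Pi.mul_apply]
      group
    rw [h2]
    exact Subgroup.mul_mem _ hf hg
  | inv f _ hf =>
    have h2 : (fun (i s : ℕ) => γ * f⁻¹ i s * γ⁻¹) =
        (fun (i s : ℕ) => γ * f i s * γ⁻¹)⁻¹ := by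
      funext i s
      simp only [Pi.inv_apply]
      group
    rw [h2]
    exact Subgroup.inv_mem _ hf

/-- multi-commutators of a family fixing `v` with elements of `G3` fix `v` -/
theorem Lv.F1A_mc (L : Lv G M U N B x w V) (hN : N.Normal) (hab : ∀ a b : G, cm a b ∈ N)
    (hx : x • w = w) (v : ∀ i, ℕ → L.Q i) (G3 : Subgroup G) (γ0 : G) (hs : L.Sym v G3 γ0)
    (z : List G) (hz : ∀ g ∈ z, g ∈ G3) (f : ℕ → ℕ → G) (hf : f ∈ L.HH)
    (h1 : L.Null (L.dl f v)) :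
    (fun i s => mc z (f i s)) ∈ L.HH ∧ L.Null (L.dl (fun i s => mc z (f i s)) v) := by
  induction z generalizing f with
  | nil => exact ⟨hf, h1⟩
  | cons g z ih =>
    have hg : g ∈ G3 := hz g (by simp)
    have h2 : (fun i s => cm (f i s) g) = f * (fun i s => g * f⁻¹ i s * g⁻¹) := by
      funext i s
      simp only [cm, Pi.mul_apply, Pi.inv_apply]
      group
    have hf' : f⁻¹ ∈ L.HH := L.HH.inv_mem hf
    have h3 := L.F1A_conj f⁻¹ hf' g
    have h4 := hs.conj f⁻¹ hf' g hg (L.F1A_inv hN hab hx v f hf h1)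
    have h5 := L.F1A_mul hN hab hx v f _ hf h1 h4
    have h6 := L.HH.mul_mem hf h3
    rw [← h2] at h5 h6
    exact ih (fun g hg => hz g (by simp [hg])) _ h6 h5

/-- property `PP` from a family of powers -/
theorem Lv.F1A_PP (L : Lv G M U N B x w V) (hN : N.Normal) (hab : ∀ a b : G, cm a b ∈ N)
    (hx : x • w = w) (hU : U ≤ N) (hc : ∀ u ∈ U, ∀ g : G, g * u = u * g)
    (v : ∀ i, ℕ → L.Q i) (b : G) (hb : b ∈ N) (f : ℕ → ℕ → G)
    (hf : ∀ i s, (b ^ (L.t i * L.p i ^ s))⁻¹ * f i s ∈ U)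
    (h1 : L.Null (L.dl f v)) : L.PP v b := by
  obtain ⟨Φ, i0, h2⟩ := h1
  refine ⟨Φ, i0, fun i hi => ⟨L.t i * L.κ i, Nat.mul_pos (L.tpos i) (L.κpos i), fun C => ?_⟩⟩
  obtain ⟨s0, h3⟩ := h2 i hi C
  refine ⟨s0, fun s hs => ?_⟩
  have h4 := h3 s hs
  set q : ℕ := L.t i * L.p i ^ s with hq
  have e1 : L.t i * L.κ i * L.p i ^ s = q * L.κ i := by rw [hq]; ring
  rw [e1, pow_mul]
  have h5 : (b ^ q) ^ L.κ i ∈ L.H i := L.κH i _ (N.pow_mem hb q)
  refine ⟨h5, ?_⟩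
  set u : G := (b ^ q)⁻¹ * f i s with hu
  have huU : u ∈ U := hf i s
  have hfu : f i s = b ^ q * u := by rw [hu]; group
  have hcomm : Commute (b ^ q) u := hc u huU (b ^ q)
  have hfk : (f i s) ^ L.κ i = (b ^ q) ^ L.κ i * u ^ L.κ i := by
    rw [hfu, hcomm.mul_pow]
  have hu2 : u ^ L.κ i ∈ U ⊓ L.H i := ⟨U.pow_mem huU _, L.κH i _ (hU huU)⟩
  have hfN : f i s ∈ N := by rw [hfu]; exact N.mul_mem (N.pow_mem hb q) (hU huU)
  have h6 : (b ^ q) ^ L.κ i • v i s = (f i s) ^ L.κ i • v i s := by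
    rw [hfk, mul_smul, L.HU i _ hu2]
  rw [h6]
  have hst : ∀ m ∈ dpow (L.H i) (C * L.p i ^ s) (L.VF i Φ),
      f i s • m ∈ dpow (L.H i) (C * L.p i ^ s) (L.VF i Φ) := by
    intro m hm
    exact dpow_smul (L.H i) (L.Hn i) (f i s) _ (L.VF i Φ) (L.VF i Φ)
      (fun y hy => L.VF_stb hN hab hx i Φ (f i s) (Subgroup.mem_sup_left hfN) y hy) m hm
  have h7 : ∀ k : ℕ, (f i s) ^ k • v i s - v i s ∈ dpow (L.H i) (C * L.p i ^ s) (L.VF i Φ) := by
    intro k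
    induction k with
    | zero => rw [pow_zero, one_smul, sub_self]; exact zero_mem _
    | succ k ih =>
      have h8 : (f i s) ^ (k + 1) • v i s - v i s =
          f i s • ((f i s) ^ k • v i s - v i s) + (f i s • v i s - v i s) := by
        rw [pow_succ', mul_smul, smul_sub]
        abel
      rw [h8]
      exact add_mem (hst _ ih) h4
  exact h7 _

theorem Lv.final1a [U.Normal] [N.Normal] (_h : PC G) (L : Lv G M U N B x w V) (hU : U ≤ N)
    (hc : ∀ u ∈ U, ∀ g : G, g * u = u * g) (hab : ∀ a b : G, cm a b ∈ N) (hx : x • w = w)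
    (j : ℕ) (hcase : Case1 U N x j) (hB : B = Bsub N U (E1 U N x j) j)
    (v : ∀ i, ℕ → L.Q i) (G3 : Subgroup G) (γ0 : G) (hs : L.Sym v G3 γ0) :
    ∀ b ∈ B, L.PP v b := by
  have hN : N.Normal := inferInstance
  have hU1 : U ≤ ucs N U 1 := F1A_U_le N U hU
  -- closure properties of `PP (mc z ·)`
  have PPu : ∀ u ∈ U, L.PP v u := fun u hu => L.PP_U hU v u hu
  have PPmul : ∀ a ∈ ucs N U 1, ∀ b ∈ ucs N U 1, L.PP v a → L.PP v b → L.PP v (a * b) :=
    fun a ha b hb h1 h2 => L.PP_mul hU hc v a b ha hb h1 h2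
  have PPinv : ∀ a ∈ ucs N U 1, L.PP v a → L.PP v a⁻¹ := fun a ha h1 => L.PP_inv hU v a ha h1
  -- change modulo `U`
  have PPmod : ∀ a ∈ ucs N U 1, ∀ b : G, a⁻¹ * b ∈ U → L.PP v a → L.PP v b := by
    intro a ha b hab' h1
    have h2 : b = a * (a⁻¹ * b) := by group
    rw [h2]
    exact PPmul a ha _ (hU1 hab') h1 (PPu _ hab')
  have PPmod' : ∀ a ∈ ucs N U 1, ∀ b : G, a⁻¹ * b ∈ U → L.PP v b → L.PP v a := by
    intro a ha b hab' h1
    have hb : b ∈ ucs N U 1 := by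
      have h2 : b = a * (a⁻¹ * b) := by group
      rw [h2]
      exact Subgroup.mul_mem _ ha (hU1 hab')
    refine PPmod b hb a ?_ h1
    have h3 : b⁻¹ * a = (a⁻¹ * b)⁻¹ := by group
    rw [h3]
    exact U.inv_mem hab'
  have Pj : ∀ (z : List G), (∀ g ∈ z, g ∈ N) → z.length = j → ∀ a ∈ ucs N U j,
      L.PP v (mc z a) := fun z hz hl a ha => PPu _ (F1A_mc_U N U hU j z hz hl a ha)
  have Pmul : ∀ (z : List G), (∀ g ∈ z, g ∈ N) → z.length = j → ∀ a ∈ ucs N U (j + 1),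
      ∀ b ∈ ucs N U (j + 1), L.PP v (mc z a) → L.PP v (mc z b) → L.PP v (mc z (a * b)) := by
    intro z hz hl a ha b hb h1 h2
    have ha1 := F1A_mc_ucs1 N U hU j z hz hl a ha
    have hb1 := F1A_mc_ucs1 N U hU j z hz hl b hb
    exact PPmod _ (Subgroup.mul_mem _ ha1 hb1) _ (mc_mul N U hU j z hz hl a b ha hb)
      (PPmul _ ha1 _ hb1 h1 h2)
  have Pinv : ∀ (z : List G), (∀ g ∈ z, g ∈ N) → z.length = j → ∀ a ∈ ucs N U (j + 1),
      L.PP v (mc z a) → L.PP v (mc z a⁻¹) := by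
    intro z hz hl a ha h1
    have ha1 := F1A_mc_ucs1 N U hU j z hz hl a ha
    have ha' : a⁻¹ ∈ ucs N U (j + 1) := Subgroup.inv_mem _ ha
    have h2 := mc_mul N U hU j z hz hl a a⁻¹ ha ha'
    have h3 := F1A_mc_U N U hU j z hz hl (a * a⁻¹) (by rw [mul_inv_cancel]; exact Subgroup.one_mem _)
    refine PPmod (mc z a)⁻¹ (Subgroup.inv_mem _ ha1) _ ?_ (PPinv _ ha1 h1)
    have h4 : (mc z a)⁻¹⁻¹ * mc z a⁻¹ = mc z (a * a⁻¹) *
        ((mc z a * mc z a⁻¹)⁻¹ * mc z (a * a⁻¹))⁻¹ := by group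
    rw [h4]
    exact U.mul_mem h3 (U.inv_mem h2)
  have Ppow : ∀ (z : List G), (∀ g ∈ z, g ∈ N) → z.length = j → ∀ a ∈ ucs N U (j + 1),
      ∀ k, 0 < k → L.PP v (mc z (a ^ k)) → L.PP v (mc z a) := by
    intro z hz hl a ha k hk h1
    have ha1 := F1A_mc_ucs1 N U hU j z hz hl a ha
    have h2 := PPmod' _ (Subgroup.pow_mem _ ha1 k) _ (F1A_mc_vpow N U hU j z hz hl a ha k) h1
    exact L.PP_root v _ k hk h2
  -- conjugates of `x`
  have hxc : ∀ δ : G, δ * x * δ⁻¹ ∈ ucs N U (j + 1) := fun δ =>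
    (ucs_normal N U (j + 1)).conj_mem x hcase.mem δ
  have hfi : G3.FiniteIndex := hs.fi
  have hnor : G3.Normal := hs.nor
  -- first step: `z` in `N ⊓ G3`, `γ ∈ G3`
  have step1 : ∀ (z : List G), (∀ g ∈ z, g ∈ N) → (∀ g ∈ z, g ∈ G3) → z.length = j → ∀ γ ∈ G3,
      L.PP v (mc z ((γ * γ0) * x * (γ * γ0)⁻¹)) := by
    intro z hz hz3 hl γ hγ
    have hmem : L.xi γ0 ∈ L.HH := Subgroup.subset_closure ⟨γ0, rfl⟩
    have h1 := hs.conj _ hmem γ hγ hs.xi
    have h2 := L.F1A_conj _ hmem γ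
    obtain ⟨h3, h4⟩ := L.F1A_mc hN hab hx v G3 γ0 hs z hz3 _ h2 h1
    refine L.F1A_PP hN hab hx hU hc v _
      (ucs_le N U hU 1 (F1A_mc_ucs1 N U hU j z hz hl _ (hxc (γ * γ0)))) _ ?_ h4
    intro i s
    have h5 : γ * L.xi γ0 i s * γ⁻¹ = ((γ * γ0) * x * (γ * γ0)⁻¹) ^ (L.t i * L.p i ^ s) := by
      rw [conj_pow]
      simp only [Lv.xi]
      group
    rw [h5]
    exact F1A_mc_vpow N U hU j z hz hl _ (hxc (γ * γ0)) _
  -- second step: all conjugates of `x`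
  have step2 : ∀ (z : List G), (∀ g ∈ z, g ∈ N) → (∀ g ∈ z, g ∈ G3) → z.length = j → ∀ δ : G,
      L.PP v (mc z (δ * x * δ⁻¹)) := by
    intro z hz hz3 hl δ
    obtain ⟨k, hk, hk2⟩ := hcase.min G3 hfi
    refine Ppow z hz hl _ (hxc δ) k hk ?_
    have h1 := hk2 (γ0⁻¹ * δ)
    have h2 : (δ * x * δ⁻¹) ^ k = γ0 * ((γ0⁻¹ * δ) * x * (γ0⁻¹ * δ)⁻¹) ^ k * γ0⁻¹ := by
      rw [← conj_pow]
      congr 1
      group
    rw [h2]
    have key : ∀ a ∈ Subgroup.closure {a | ∃ δ ∈ G3, a = δ * x * δ⁻¹} ⊔ ucs N U j,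
        γ0 * a * γ0⁻¹ ∈ ucs N U (j + 1) ∧ L.PP v (mc z (γ0 * a * γ0⁻¹)) := by
      intro a ha
      have hcl : Subgroup.closure {a | ∃ δ ∈ G3, a = δ * x * δ⁻¹} ⊔ ucs N U j =
          Subgroup.closure ({a | ∃ δ ∈ G3, a = δ * x * δ⁻¹} ∪ (ucs N U j : Set G)) := by
        rw [Subgroup.closure_union, Subgroup.closure_eq]
      rw [hcl] at ha
      induction ha using Subgroup.closure_induction with
      | mem a ha =>
        rcases ha with ⟨η, hη, rfl⟩ | ha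
        · have h3 : γ0 * (η * x * η⁻¹) * γ0⁻¹ =
              ((γ0 * η * γ0⁻¹) * γ0) * x * ((γ0 * η * γ0⁻¹) * γ0)⁻¹ := by group
          rw [h3]
          exact ⟨hxc _, step1 z hz hz3 hl _ (hnor.conj_mem η hη γ0)⟩
        · have h3 : γ0 * a * γ0⁻¹ ∈ ucs N U j := (ucs_normal N U j).conj_mem a ha γ0
          exact ⟨ucs_mono N U hU j (j + 1) (Nat.le_succ j) h3, Pj z hz hl _ h3⟩
      | one =>
        rw [mul_one, mul_inv_cancel]
        exact ⟨Subgroup.one_mem _, Pj z hz hl _ (Subgroup.one_mem _)⟩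
      | mul a b _ _ ha hb =>
        have h3 : γ0 * (a * b) * γ0⁻¹ = (γ0 * a * γ0⁻¹) * (γ0 * b * γ0⁻¹) := by group
        rw [h3]
        exact ⟨Subgroup.mul_mem _ ha.1 hb.1, Pmul z hz hl _ ha.1 _ hb.1 ha.2 hb.2⟩
      | inv a _ ha =>
        have h3 : γ0 * a⁻¹ * γ0⁻¹ = (γ0 * a * γ0⁻¹)⁻¹ := by group
        rw [h3]
        exact ⟨Subgroup.inv_mem _ ha.1, Pinv z hz hl _ ha.1 ha.2⟩
    exact (key _ h1).2
  -- third step: all `z` in `N`
  have step3 : ∀ (z : List G), (∀ g ∈ z, g ∈ N) → z.length = j → ∀ δ : G,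
      L.PP v (mc z (δ * x * δ⁻¹)) := by
    intro z hz hl δ
    have hk3 : 0 < G3.index := Nat.pos_of_ne_zero hfi.index_ne_zero
    have h1 := step2 (z.map (fun g => g ^ G3.index))
      (by
        intro g hg
        obtain ⟨g', hg', rfl⟩ := List.mem_map.1 hg
        exact N.pow_mem (hz g' hg') _)
      (by
        intro g hg
        obtain ⟨g', hg', rfl⟩ := List.mem_map.1 hg
        exact G3.pow_index_mem g')
      (by rw [List.length_map, hl]) δ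
    have ha1 := F1A_mc_ucs1 N U hU j z hz hl _ (hxc δ)
    have h2 := PPmod' _ (Subgroup.pow_mem _ ha1 (G3.index ^ j)) _
      (mc_pow N U hU j z hz hl _ (hxc δ) G3.index) h1
    exact L.PP_root v _ _ (pow_pos hk3 j) h2
  -- `E1`
  have step4 : ∀ (z : List G), (∀ g ∈ z, g ∈ N) → z.length = j → ∀ a ∈ E1 U N x j,
      a ∈ ucs N U (j + 1) ∧ L.PP v (mc z a) := by
    intro z hz hl a ha
    have hcl : E1 U N x j =
        Subgroup.closure ({a | ∃ δ : G, a = δ * x * δ⁻¹} ∪ (ucs N U j : Set G)) := by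
      rw [Subgroup.closure_union, Subgroup.closure_eq]
      rfl
    rw [hcl] at ha
    induction ha using Subgroup.closure_induction with
    | mem a ha =>
      rcases ha with ⟨δ, rfl⟩ | ha
      · exact ⟨hxc _, step3 z hz hl δ⟩
      · exact ⟨ucs_mono N U hU j (j + 1) (Nat.le_succ j) ha, Pj z hz hl _ ha⟩
    | one => exact ⟨Subgroup.one_mem _, Pj z hz hl _ (Subgroup.one_mem _)⟩
    | mul a b _ _ ha hb =>
      exact ⟨Subgroup.mul_mem _ ha.1 hb.1, Pmul z hz hl _ ha.1 _ hb.1 ha.2 hb.2⟩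
    | inv a _ ha => exact ⟨Subgroup.inv_mem _ ha.1, Pinv z hz hl _ ha.1 ha.2⟩
  -- conclusion
  intro b hb
  have hBcl : B = Subgroup.closure
      ({b | ∃ z : List G, z.length = j ∧ (∀ g ∈ z, g ∈ N) ∧ ∃ v ∈ E1 U N x j, b = mc z v} ∪
        (U : Set G)) := by
    rw [Subgroup.closure_union, Subgroup.closure_eq, hB]
    rfl
  rw [hBcl] at hb
  have fin : b ∈ ucs N U 1 ∧ L.PP v b := by
    induction hb using Subgroup.closure_induction with
    | mem a ha =>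
      rcases ha with ⟨z, hl, hz, a', ha', rfl⟩ | ha
      · obtain ⟨h1, h2⟩ := step4 z hz hl a' ha'
        exact ⟨F1A_mc_ucs1 N U hU j z hz hl _ h1, h2⟩
      · exact ⟨hU1 ha, PPu _ ha⟩
    | one => exact ⟨Subgroup.one_mem _, PPu _ (Subgroup.one_mem _)⟩
    | mul a b _ _ ha hb => exact ⟨Subgroup.mul_mem _ ha.1 hb.1, PPmul _ ha.1 _ hb.1 ha.2 hb.2⟩
    | inv a _ ha => exact ⟨Subgroup.inv_mem _ ha.1, PPinv _ ha.1 ha.2⟩
  exact fin.2

end lv

end Pool.Agent.Polc
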