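import Pool.Agent.Polc.Defs2

/-!
Modules SEC and UCS of the proof for `MP_9e8505_al` (see /team-store/polc_blueprint2.md).
-/

set_option autoImplicit false

namespace Pool.Agent.Polc

/-! ############ MODULE SEC ############ -/

theorem exists_sec {G : Type} [Group G] (K L : Subgroup G) (hK : K.Normal) (hL : L.Normal)
    (hLK : L ≤ K) (hab : ∀ a ∈ K, ∀ b ∈ K, cm a b ∈ L) :
    ∃ (V : Type) (_ : AddCommGroup V) (_ : DistribMulAction G V) (cl : G → V),
      Sec K L V cl := by
  classical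
  haveI := hK
  haveI := hL
  letI ig : Group (K ⧸ (L.subgroupOf K)) := QuotientGroup.Quotient.group _
  have hcomm : ∀ a b : K ⧸ (L.subgroupOf K), a * b = b * a := by
    intro a b
    induction a using QuotientGroup.induction_on with
    | H a =>
    induction b using QuotientGroup.induction_on with
    | H b =>
    rw [← QuotientGroup.mk_mul, ← QuotientGroup.mk_mul, QuotientGroup.eq]
    rw [Subgroup.mem_subgroupOf]
    have h1 := hab _ (K.inv_mem b.2) _ (K.inv_mem a.2)
    have h2 : (((a * b)⁻¹ * (b * a) : K) : G) = cm ((b : G)⁻¹) ((a : G)⁻¹) := by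
      simp [cm, mul_assoc]
    rw [h2]; exact h1
  letI ic : CommGroup (K ⧸ (L.subgroupOf K)) := { ig with mul_comm := hcomm }
  -- conjugation
  let cj : G → (K ⧸ (L.subgroupOf K)) →* (K ⧸ (L.subgroupOf K)) := fun g =>
    QuotientGroup.map (L.subgroupOf K) (L.subgroupOf K) (MulAut.conjNormal g : K ≃* K).toMonoidHom
      (by
        intro a ha
        rw [Subgroup.mem_comap, Subgroup.mem_subgroupOf]
        rw [Subgroup.mem_subgroupOf] at ha
        simp only [MulEquiv.toMonoidHom_eq_coe, MonoidHom.coe_coe, MulAut.conjNormal_apply]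
        exact hL.conj_mem _ ha g)
  have cj_mk : ∀ (g : G) (a : K), cj g (a : K ⧸ (L.subgroupOf K)) =
      ((MulAut.conjNormal g a : K) : K ⧸ (L.subgroupOf K)) := fun g a => rfl
  let V := Additive (K ⧸ (L.subgroupOf K))
  letI iV : AddCommGroup V := Additive.addCommGroup
  letI iA : DistribMulAction G V :=
    { smul := fun g v => Additive.ofMul (cj g v.toMul)
      one_smul := by
        intro v
        show Additive.ofMul (cj 1 v.toMul) = v
        obtain ⟨a, ha⟩ := QuotientGroup.mk_surjective (v.toMul)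
        rw [← ha, cj_mk]
        simp only [map_one, MulAut.one_apply]
        rw [ha]; rfl
      mul_smul := by
        intro g h v
        show Additive.ofMul (cj (g * h) v.toMul) = Additive.ofMul (cj g (cj h v.toMul))
        obtain ⟨a, ha⟩ := QuotientGroup.mk_surjective (v.toMul)
        rw [← ha, cj_mk, cj_mk, cj_mk]
        simp only [map_mul, MulAut.mul_apply]
      smul_zero := by
        intro g
        show Additive.ofMul (cj g 1) = 0
        rw [map_one]; rfl
      smul_add := by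
        intro g v w
        show Additive.ofMul (cj g (v.toMul * w.toMul)) = _
        rw [map_mul]; rfl }
  let cl : G → V := fun a => if h : a ∈ K then
    Additive.ofMul (((⟨a, h⟩ : K)) : K ⧸ (L.subgroupOf K)) else 0
  have cl_of : ∀ (a : G) (h : a ∈ K), cl a = Additive.ofMul (((⟨a, h⟩ : K)) : K ⧸ (L.subgroupOf K)) :=
    fun a h => dif_pos h
  refine ⟨V, iV, iA, cl, ?_, ?_, ?_, ?_⟩
  · intro v
    obtain ⟨a, ha⟩ := QuotientGroup.mk_surjective (v.toMul)
    refine ⟨a, a.2, ?_⟩
    rw [cl_of _ a.2]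
    show Additive.ofMul ((a : K) : K ⧸ (L.subgroupOf K)) = v
    rw [ha]; rfl
  · intro a ha b hb
    rw [cl_of _ ha, cl_of _ hb, cl_of _ (K.mul_mem ha hb)]
    rfl
  · intro a ha
    rw [cl_of _ ha]
    constructor
    · intro h
      have h2 : (((⟨a, ha⟩ : K)) : K ⧸ (L.subgroupOf K)) = 1 := h
      rw [QuotientGroup.eq_one_iff, Subgroup.mem_subgroupOf] at h2
      exact h2
    · intro h
      have h2 : (((⟨a, ha⟩ : K)) : K ⧸ (L.subgroupOf K)) = 1 := by
        rw [QuotientGroup.eq_one_iff, Subgroup.mem_subgroupOf]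
        exact h
      rw [h2]; rfl
  · intro g a ha
    rw [cl_of _ (hK.conj_mem _ ha g), cl_of _ ha]
    rfl

/-- arithmetic of `cl` -/
theorem Sec.pow {G : Type} [Group G] {K L : Subgroup G} {V : Type} [AddCommGroup V]
    [DistribMulAction G V] {cl : G → V} (s : Sec K L V cl) (a : G) (ha : a ∈ K) (n : ℕ) :
    cl (a ^ n) = n • cl a := by
  induction n with
  | zero =>
    rw [pow_zero, zero_smul]
    exact (s.ker 1 K.one_mem).2 L.one_mem
  | succ n ih =>
    rw [pow_succ, s.add _ (K.pow_mem ha n) _ ha, ih, succ_nsmul]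

theorem Sec.inv {G : Type} [Group G] {K L : Subgroup G} {V : Type} [AddCommGroup V]
    [DistribMulAction G V] {cl : G → V} (s : Sec K L V cl) (a : G) (ha : a ∈ K) :
    cl a⁻¹ = - cl a := by
  have h1 := s.add a⁻¹ (K.inv_mem ha) a ha
  rw [inv_mul_cancel, (s.ker 1 K.one_mem).2 L.one_mem] at h1
  exact (neg_eq_of_add_eq_zero_left h1.symm).symm

theorem Sec.eq_iff {G : Type} [Group G] {K L : Subgroup G} {V : Type} [AddCommGroup V]
    [DistribMulAction G V] {cl : G → V} (s : Sec K L V cl) (a b : G) (ha : a ∈ K) (hb : b ∈ K) :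
    cl a = cl b ↔ a⁻¹ * b ∈ L := by
  rw [← s.ker _ (K.mul_mem (K.inv_mem ha) hb), s.add _ (K.inv_mem ha) _ hb, s.inv _ ha]
  constructor
  · intro h; rw [h]; simp
  · intro h
    have : cl b = cl a := by
      have := h
      rw [neg_add_eq_zero] at this
      exact this.symm
    exact this.symm

theorem Sec.finite {G : Type} [Group G] (h : PC G) {K L : Subgroup G} {V : Type} [AddCommGroup V]
    [DistribMulAction G V] {cl : G → V} (s : Sec K L V cl) : Module.Finite ℤ V := by
  classical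
  obtain ⟨S, hS⟩ := h.fg K
  have hSK : ∀ a ∈ S, a ∈ K := by
    intro a ha
    rw [← hS]
    exact Subgroup.subset_closure ha
  refine ⟨⟨S.image cl, ?_⟩⟩
  rw [eq_top_iff]
  rintro v -
  obtain ⟨a, ha, rfl⟩ := s.surj v
  have ha' : a ∈ Subgroup.closure (S : Set G) := by rw [hS]; exact ha
  clear ha
  induction ha' using Subgroup.closure_induction with
  | mem x hx =>
    apply Submodule.subset_span
    simp only [Finset.coe_image]
    exact ⟨x, hx, rfl⟩
  | one =>
    rw [(s.ker 1 K.one_mem).2 L.one_mem]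
    exact Submodule.zero_mem _
  | mul x y hx hy ihx ihy =>
    rw [hS] at hx hy
    rw [s.add _ hx _ hy]
    exact Submodule.add_mem _ ihx ihy
  | inv x hx ihx =>
    rw [hS] at hx
    rw [s.inv _ hx]
    exact Submodule.neg_mem _ ihx

/-! ############ MODULE UCS ############ -/

section ucs
variable {G : Type} [Group G] (N U : Subgroup G) [U.Normal] [N.Normal]

theorem ucs_zero : ucs N U 0 = U := rfl

theorem mem_ucs_succ (j : ℕ) (n : G) :
    n ∈ ucs N U (j + 1) ↔ n ∈ N ∧ ∀ g ∈ N, cm n g ∈ ucs N U j := Iff.rfl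

theorem ucs_normal (j : ℕ) : (ucs N U j).Normal := (ucsAux N U j).2

theorem ucs_le (hUN : U ≤ N) (j : ℕ) : ucs N U j ≤ N := by
  cases j with
  | zero => exact hUN
  | succ j => exact fun n hn => ((mem_ucs_succ N U j n).1 hn).1

theorem ucsaux_step (hUN : U ≤ N) (j : ℕ) : ucs N U j ≤ ucs N U (j + 1) := by
  intro n hn
  refine (mem_ucs_succ N U j n).2 ⟨ucs_le N U hUN j hn, fun g _ => ?_⟩
  have h1 : cm n g = n * (g * n⁻¹ * g⁻¹) := by simp only [cm]; group
  rw [h1]
  exact Subgroup.mul_mem _ hn ((ucs_normal N U j).conj_mem _ (Subgroup.inv_mem _ hn) g)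

theorem ucs_mono (hUN : U ≤ N) (i j : ℕ) (hij : i ≤ j) : ucs N U i ≤ ucs N U j := by
  induction hij with
  | refl => exact le_refl _
  | step _ ih => exact le_trans ih (ucsaux_step N U hUN _)

theorem ucsaux_pow (j : ℕ) (n g : G) (hn : n ∈ ucs N U (j + 2)) (hg : g ∈ N) (k : ℕ) :
    ∃ u ∈ ucs N U j, cm (n ^ k) g = u * (cm n g) ^ k := by
  have hnN : n ∈ N := ((mem_ucs_succ N U (j + 1) n).1 hn).1
  induction k with
  | zero => exact ⟨1, Subgroup.one_mem _, by simp [cm]⟩
  | succ k ih =>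
    obtain ⟨u, hu, hk⟩ := ih
    have hc : cm (n ^ k) g ∈ ucs N U (j + 1) :=
      ((mem_ucs_succ N U (j + 1) _).1 (Subgroup.pow_mem _ hn k)).2 g hg
    have hd : cm (cm (n ^ k) g) n ∈ ucs N U j := ((mem_ucs_succ N U j _).1 hc).2 n hnN
    refine ⟨(cm (cm (n ^ k) g) n)⁻¹ * u, Subgroup.mul_mem _ (Subgroup.inv_mem _ hd) hu, ?_⟩
    have h1 : cm (n ^ (k + 1)) g = (cm (cm (n ^ k) g) n)⁻¹ * cm (n ^ k) g * cm n g := by
      rw [pow_succ']
      generalize n ^ k = a
      simp only [cm]; group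
    rw [h1, pow_succ, mul_assoc, mul_assoc]
    congr 1
    rw [hk, mul_assoc]

/-- torsion-free factors -/
theorem ucs_tor (hUN : U ≤ N) (hU : ∀ (g : G) (k : ℕ), 0 < k → g ^ k ∈ U → g ∈ U) (j : ℕ) (n : G)
    (k : ℕ) (hk : 0 < k) (hn : n ∈ ucs N U (j + 1)) (hnk : n ^ k ∈ ucs N U j) :
    n ∈ ucs N U j := by
  induction j generalizing n with
  | zero => exact hU n k hk hnk
  | succ j ih =>
    refine (mem_ucs_succ N U j n).2 ⟨ucs_le N U hUN _ hn, fun g hg => ?_⟩
    refine ih (cm n g) (((mem_ucs_succ N U (j + 1) n).1 hn).2 g hg) ?_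
    obtain ⟨u, hu, h1⟩ := ucsaux_pow N U j n g hn hg k
    have h2 : cm (n ^ k) g ∈ ucs N U j := ((mem_ucs_succ N U j _).1 hnk).2 g hg
    have h3 : (cm n g) ^ k = u⁻¹ * cm (n ^ k) g := by rw [h1]; group
    rw [h3]
    exact Subgroup.mul_mem _ (Subgroup.inv_mem _ hu) h2

/-- a normal subgroup with a finite chain is nilpotent when `U` is central -/
theorem ucs_nilp (hUN : U ≤ N) (hc : ∀ u ∈ U, ∀ g : G, g * u = u * g) (h : ∃ j, ucs N U j = N) :
    Group.IsNilpotent N := by
  obtain ⟨c, hcN⟩ := h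
  rw [Subgroup.nilpotent_iff_finite_ascending_central_series]
  refine ⟨c + 1, fun i => match i with
    | 0 => ⊥
    | i + 1 => (ucs N U i).subgroupOf N, ⟨rfl, ?_⟩, ?_⟩
  · intro x n hx g
    match n, hx with
    | 0, hx =>
      have h1 : (x : G) ∈ U := hx
      show x * g * x⁻¹ * g⁻¹ = 1
      apply Subtype.ext
      have h2 := hc _ h1 (g : G)
      show (x : G) * g * (x : G)⁻¹ * (g : G)⁻¹ = 1
      rw [← h2]; group
    | n + 1, hx =>
      have h1 : (x : G) ∈ ucs N U (n + 1) := hx
      show (x : G) * g * (x : G)⁻¹ * (g : G)⁻¹ ∈ ucs N U n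
      exact ((mem_ucs_succ N U n _).1 h1).2 g g.2
  · show (ucs N U c).subgroupOf N = ⊤
    rw [hcN]; exact Subgroup.subgroupOf_self N

/-- a nilpotent normal subgroup has a finite chain -/
theorem nilp_ucs (hUN : U ≤ N) (h : Group.IsNilpotent N) : ∃ j, ucs N U j = N := by
  obtain ⟨c, hc⟩ := h.nilpotent'
  have key : ∀ i : ℕ, ∀ x : N, x ∈ Subgroup.upperCentralSeries N i → (x : G) ∈ ucs N U i := by
    intro i
    induction i with
    | zero =>
      intro x hx
      have hx1 : x = 1 := by simpa using hx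
      rw [hx1]; exact Subgroup.one_mem _
    | succ i ih =>
      intro x hx
      rw [Subgroup.mem_upperCentralSeries_succ_iff] at hx
      exact (mem_ucs_succ N U i _).2 ⟨x.2, fun g hg => ih _ (hx ⟨g, hg⟩)⟩
  refine ⟨c, le_antisymm (ucs_le N U hUN c) fun n hn => ?_⟩
  exact key c ⟨n, hn⟩ (by rw [hc]; trivial)

theorem ucsaux_cen (M : Subgroup G) (hM : M.Normal) (x y : G) (N : Subgroup G)
    (h1 : ∀ g ∈ N, cm x g ∈ M) (h2 : cm x y ∈ M) : ∀ g ∈ N ⊔ Subgroup.zpowers y, cm x g ∈ M := by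
  have key : ∀ g : G, g ∈ (Subgroup.centralizer {((x : G) : G ⧸ M)}).comap (QuotientGroup.mk' M) ↔
      cm x g ∈ M := by
    intro g
    rw [Subgroup.mem_comap, Subgroup.mem_centralizer_iff]
    simp only [Set.mem_singleton_iff, forall_eq, QuotientGroup.mk'_apply]
    rw [← QuotientGroup.mk_mul, ← QuotientGroup.mk_mul, eq_comm, QuotientGroup.eq]
    constructor
    · intro h
      have h3 : cm x g = (g * x) * ((g * x)⁻¹ * (x * g)) * (g * x)⁻¹ := by
        simp only [cm]; group
      rw [h3]; exact hM.conj_mem _ h _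
    · intro h
      have h3 : (g * x)⁻¹ * (x * g) = (g * x)⁻¹ * cm x g * (g * x)⁻¹⁻¹ := by
        simp only [cm]; group
      rw [h3]; exact hM.conj_mem _ h _
  intro g hg
  rw [← key]
  refine (sup_le ?_ ?_ : N ⊔ Subgroup.zpowers y ≤ _) hg
  · intro a ha; exact (key a).2 (h1 a ha)
  · rw [Subgroup.zpowers_le]; exact (key y).2 h2

/-- criterion for nilpotency of `N ⟨y⟩` -/
theorem ucs_adjoin (hUN : U ≤ N) (hc : ∀ u ∈ U, ∀ g : G, g * u = u * g)
    (h : ∃ j, ucs N U j = N) (y : G) (hy : ∀ j, ∀ v ∈ ucs N U (j + 1), cm y v ∈ ucs N U j)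
    (hab : ∀ a b : G, cm a b ∈ N) (N' : Subgroup G) (hN' : N' = N ⊔ Subgroup.zpowers y) :
    Group.IsNilpotent N' := by
  subst hN'
  obtain ⟨c, hcN⟩ := h
  rw [Subgroup.nilpotent_iff_finite_ascending_central_series]
  refine ⟨c + 2, fun i => match i with
    | 0 => ⊥
    | i + 1 => if i ≤ c then (ucs N U i).subgroupOf (N ⊔ Subgroup.zpowers y) else ⊤,
    ⟨rfl, ?_⟩, ?_⟩
  · intro x n hx g
    match n, hx with
    | 0, hx =>
      simp only [zero_le, if_true] at hx
      have h1 : (x : G) ∈ U := hx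
      show x * g * x⁻¹ * g⁻¹ = 1
      apply Subtype.ext
      have h2 := hc _ h1 (g : G)
      show (x : G) * g * (x : G)⁻¹ * (g : G)⁻¹ = 1
      rw [← h2]; group
    | n + 1, hx =>
      simp only at hx ⊢
      by_cases hn : n + 1 ≤ c
      · rw [if_pos hn] at hx
        rw [if_pos (by omega)]
        have h1 : (x : G) ∈ ucs N U (n + 1) := hx
        show cm (x : G) g ∈ ucs N U n
        refine ucsaux_cen (ucs N U n) (ucs_normal N U n) x y N
          ((mem_ucs_succ N U n _).1 h1).2 ?_ g g.2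
        have h2 : cm (x : G) y = (cm y x)⁻¹ := by simp only [cm]; group
        rw [h2]
        exact Subgroup.inv_mem _ (hy n _ h1)
      · by_cases hn' : n ≤ c
        · have : n = c := by omega
          subst this
          rw [if_pos (le_refl _)]
          show cm (x : G) g ∈ ucs N U n
          rw [hcN]; exact hab _ _
        · rw [if_neg hn']; trivial
  · show (if c + 1 ≤ c then _ else ⊤) = ⊤
    rw [if_neg (by omega)]

end ucs

end Pool.Agent.Polc
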