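import Pool.Agent.Polc.Defs2
import Pool.Agent.Polc.SECUCS

/-!
Module MC + BSUB (helper38) for `MP_9e8505_al`: multi-commutators and the subgroups
`Bsub`, `E1`, `E2`.
-/

set_option autoImplicit false

namespace Pool.Agent.Polc

section ucs
variable {G : Type} [Group G] (N U : Subgroup G) [U.Normal] [N.Normal]

theorem mc_nil (v : G) : mc [] v = v := rfl

theorem mc_cons (a : G) (z : List G) (v : G) : mc (a :: z) v = mc z (cm v a) := rfl

theorem mc_one (z : List G) : mc z (1 : G) = 1 := by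
  induction z with
  | nil => rfl
  | cons a z ih => rw [mc_cons]; simpa [cm] using ih

/-- elements of `ucs (k+1)` commute with `N` modulo `ucs k` -/
theorem mcq_comm (k : ℕ) (v g : G) (hv : v ∈ ucs N U (k + 1)) (hg : g ∈ N) :
    letI := ucs_normal N U k
    ((v : G ⧸ ucs N U k)) * (g : G ⧸ ucs N U k) = (g : G ⧸ ucs N U k) * (v : G ⧸ ucs N U k) := by
  let _ := ucs_normal N U k
  have h := ((mem_ucs_succ N U k v).1 hv).2 g hg
  have h1 : ((cm v g : G) : G ⧸ ucs N U k) = 1 := (QuotientGroup.eq_one_iff _).2 h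
  have h2 : ((v : G ⧸ ucs N U k)) * (g : G ⧸ ucs N U k) * (v : G ⧸ ucs N U k)⁻¹ *
      (g : G ⧸ ucs N U k)⁻¹ = 1 := by
    rw [← h1]; rfl
  rw [mul_inv_eq_one, mul_inv_eq_iff_eq_mul] at h2
  exact h2

theorem mcq_eq (k : ℕ) (a b : G) :
    letI := ucs_normal N U k
    ((a : G ⧸ ucs N U k) = (b : G ⧸ ucs N U k)) ↔ a⁻¹ * b ∈ ucs N U k := by
  let _ := ucs_normal N U k
  exact QuotientGroup.eq

/-- multi-commutators with `j` elements of `N` map `ucs (i+j)` to `ucs i` -/
theorem mc_mem (hUN : U ≤ N) (i j : ℕ) (z : List G) (hz : ∀ g ∈ z, g ∈ N) (hl : z.length = j)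
    (v : G) (hv : v ∈ ucs N U (i + j)) : mc z v ∈ ucs N U i := by
  induction z generalizing j v with
  | nil =>
    simp only [List.length_nil] at hl
    subst hl
    exact hv
  | cons a z ih =>
    simp only [List.length_cons] at hl
    subst hl
    rw [mc_cons]
    refine ih _ (fun g hg => hz g (List.mem_cons_of_mem _ hg)) rfl _ ?_
    exact ((mem_ucs_succ N U (i + z.length) v).1 hv).2 a (hz a List.mem_cons_self)

/-- multiplicativity in `v`, general version -/
theorem mc_mul_gen (hUN : U ≤ N) (i : ℕ) (z : List G) (hz : ∀ g ∈ z, g ∈ N) :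
    letI := ucs_normal N U i
    ∀ v v' : G, v ∈ ucs N U (i + z.length + 1) → v' ∈ ucs N U (i + z.length + 1) →
      ((mc z (v * v') : G) : G ⧸ ucs N U i) = (mc z v : G) * (mc z v' : G) := by
  let _ := ucs_normal N U i
  induction z with
  | nil => intro v v' _ _; rfl
  | cons a z ih =>
    intro v v' hv hv'
    have hz' : ∀ g ∈ z, g ∈ N := fun g hg => hz g (List.mem_cons_of_mem _ hg)
    have ha : a ∈ N := hz a List.mem_cons_self
    have hIH := ih hz'
    let _ := ucs_normal N U (i + z.length)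
    simp only [List.length_cons] at hv hv'
    have hvN : v ∈ N := ucs_le N U hUN _ hv
    have hP : cm v a ∈ ucs N U (i + z.length + 1) := ((mem_ucs_succ N U _ v).1 hv).2 a ha
    have hP' : cm v' a ∈ ucs N U (i + z.length + 1) := ((mem_ucs_succ N U _ v').1 hv').2 a ha
    have hPN : cm v a ∈ N := ucs_le N U hUN _ hP
    have hPN' : cm v' a ∈ N := ucs_le N U hUN _ hP'
    have hd : (cm v a * cm v' a)⁻¹ * cm (v * v') a ∈ ucs N U (i + z.length) := by
      rw [← mcq_eq N U]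
      have e1 : cm (v * v') a = v * cm v' a * v⁻¹ * cm v a := by simp only [cm]; group
      rw [e1]
      have c1 := mcq_comm N U (i + z.length) (cm v' a) v hP' hvN
      have c2 := mcq_comm N U (i + z.length) (cm v' a) (cm v a) hP' hPN
      simp only [QuotientGroup.mk_mul, QuotientGroup.mk_inv] at c1 c2 ⊢
      rw [← c1, mul_inv_cancel_right, c2]
    rw [mc_cons, mc_cons, mc_cons]
    have e2 : cm (v * v') a = (cm v a * cm v' a) * ((cm v a * cm v' a)⁻¹ * cm (v * v') a) := by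
      group
    rw [e2, hIH _ _ (Subgroup.mul_mem _ hP hP') (ucs_mono N U hUN _ _ (Nat.le_succ _) hd),
      hIH _ _ hP hP']
    have e3 : ((mc z ((cm v a * cm v' a)⁻¹ * cm (v * v') a) : G) : G ⧸ ucs N U i) = 1 := by
      rw [QuotientGroup.eq_one_iff]
      exact mc_mem N U hUN i z.length z hz' rfl _ hd
    rw [e3, mul_one]

theorem mc_powv_gen (hUN : U ≤ N) (i : ℕ) (z : List G) (hz : ∀ g ∈ z, g ∈ N) :
    letI := ucs_normal N U i
    ∀ v : G, v ∈ ucs N U (i + z.length + 1) → ∀ k : ℕ,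
      ((mc z (v ^ k) : G) : G ⧸ ucs N U i) = ((mc z v : G) : G ⧸ ucs N U i) ^ k := by
  let _ := ucs_normal N U i
  intro v hv k
  induction k with
  | zero => rw [pow_zero, pow_zero, mc_one]; rfl
  | succ k ih =>
    rw [pow_succ, mc_mul_gen N U hUN i z hz _ _ (Subgroup.pow_mem _ hv k) hv, ih, pow_succ]

theorem mc_pow_gen (hUN : U ≤ N) (i : ℕ) (k : ℕ) (z : List G) (hz : ∀ g ∈ z, g ∈ N) :
    letI := ucs_normal N U i
    ∀ v : G, v ∈ ucs N U (i + z.length + 1) →
      ((mc (z.map (fun g => g ^ k)) v : G) : G ⧸ ucs N U i) =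
        ((mc z v : G) : G ⧸ ucs N U i) ^ (k ^ z.length) := by
  let _ := ucs_normal N U i
  induction z with
  | nil => intro v _; simp [mc_nil]
  | cons a z ih =>
    intro v hv
    have hz' : ∀ g ∈ z, g ∈ N := fun g hg => hz g (List.mem_cons_of_mem _ hg)
    have ha : a ∈ N := hz a List.mem_cons_self
    have hIH := ih hz'
    let _ := ucs_normal N U (i + z.length)
    simp only [List.length_cons] at hv
    have hP : cm v a ∈ ucs N U (i + z.length + 1) := ((mem_ucs_succ N U _ v).1 hv).2 a ha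
    have hd : ((cm v a) ^ k)⁻¹ * cm v (a ^ k) ∈ ucs N U (i + z.length) := by
      rw [← mcq_eq N U]
      have c1 : Commute ((cm v a : G) : G ⧸ ucs N U (i + z.length)) (a : G ⧸ ucs N U (i + z.length)) :=
        mcq_comm N U (i + z.length) (cm v a) a hP ha
      have e1 : cm v (a ^ k) = (cm v a * a) ^ k * (a ^ k)⁻¹ := by
        have : cm v a * a = v * a * v⁻¹ := by simp only [cm]; group
        rw [this, conj_pow]
        rfl
      rw [e1]
      simp only [QuotientGroup.mk_mul, QuotientGroup.mk_inv, QuotientGroup.mk_pow]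
      rw [c1.mul_pow, mul_inv_cancel_right]
    have hzk : ∀ g ∈ z.map (fun g => g ^ k), g ∈ N := by
      intro g hg
      obtain ⟨b, hb, rfl⟩ := List.mem_map.1 hg
      exact Subgroup.pow_mem _ (hz' b hb) k
    have hlen : (z.map (fun g => g ^ k)).length = z.length := List.length_map ..
    rw [List.map_cons, mc_cons, mc_cons]
    have e2 : cm v (a ^ k) = (cm v a) ^ k * (((cm v a) ^ k)⁻¹ * cm v (a ^ k)) := by group
    have hm := mc_mul_gen N U hUN i (z.map (fun g => g ^ k)) hzk ((cm v a) ^ k)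
      (((cm v a) ^ k)⁻¹ * cm v (a ^ k))
      (by rw [hlen]; exact Subgroup.pow_mem _ hP k)
      (by rw [hlen]; exact ucs_mono N U hUN _ _ (Nat.le_succ _) hd)
    rw [← e2] at hm
    rw [hm]
    have e3 : ((mc (z.map (fun g => g ^ k)) (((cm v a) ^ k)⁻¹ * cm v (a ^ k)) : G) :
        G ⧸ ucs N U i) = 1 := by
      rw [QuotientGroup.eq_one_iff]
      exact mc_mem N U hUN i z.length _ hzk hlen _ hd
    rw [e3, mul_one, mc_powv_gen N U hUN i _ hzk (cm v a) (by rw [hlen]; exact hP) k,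
      hIH _ hP, ← pow_mul, List.length_cons, pow_succ]

/-- multiplicativity in `v`, modulo `U` -/
theorem mc_mul (hUN : U ≤ N) (j : ℕ) (z : List G) (hz : ∀ g ∈ z, g ∈ N) (hl : z.length = j)
    (v v' : G) (hv : v ∈ ucs N U (j + 1)) (hv' : v' ∈ ucs N U (j + 1)) :
    (mc z v * mc z v')⁻¹ * mc z (v * v') ∈ U := by
  subst hl
  have h := mc_mul_gen N U hUN 0 z hz v v' (by rwa [Nat.zero_add]) (by rwa [Nat.zero_add])
  have h2 := (mcq_eq N U 0 (mc z v * mc z v') (mc z (v * v'))).1 (by rw [h]; rfl)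
  rwa [ucs_zero] at h2

/-- powers in `z`, modulo `U` -/
theorem mc_pow (hUN : U ≤ N) (j : ℕ) (z : List G) (hz : ∀ g ∈ z, g ∈ N) (hl : z.length = j)
    (v : G) (hv : v ∈ ucs N U (j + 1)) (k : ℕ) :
    ((mc z v) ^ (k ^ j))⁻¹ * mc (z.map (fun g => g ^ k)) v ∈ U := by
  subst hl
  have h := mc_pow_gen N U hUN 0 k z hz v (by rwa [Nat.zero_add])
  have h2 := (mcq_eq N U 0 ((mc z v) ^ (k ^ z.length)) (mc (z.map (fun g => g ^ k)) v)).1
    (by rw [h]; rfl)
  rwa [ucs_zero] at h2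

/-- nondegeneracy -/
theorem mc_nondeg (hUN : U ≤ N) (j : ℕ) (v : G) (hv : v ∈ ucs N U (j + 1)) (hv' : v ∉ ucs N U j) :
    ∃ z : List G, (∀ g ∈ z, g ∈ N) ∧ z.length = j ∧ mc z v ∉ U := by
  induction j generalizing v with
  | zero =>
    refine ⟨[], by simp, rfl, ?_⟩
    rw [ucs_zero] at hv'
    exact hv'
  | succ j ih =>
    have hvN : v ∈ N := ucs_le N U hUN _ hv
    have : ∃ g ∈ N, cm v g ∉ ucs N U j := by
      by_contra hcon
      push Not at hcon
      exact hv' ((mem_ucs_succ N U j v).2 ⟨hvN, hcon⟩)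
    obtain ⟨g, hg, hg2⟩ := this
    obtain ⟨z, h1, h2, h3⟩ := ih (cm v g) (((mem_ucs_succ N U _ v).1 hv).2 g hg) hg2
    refine ⟨g :: z, ?_, by simp [h2], h3⟩
    intro a ha
    rcases List.mem_cons.1 ha with rfl | ha
    · exact hg
    · exact h1 a ha

theorem mc_conj (γ : G) (z : List G) (v : G) :
    γ * mc z v * γ⁻¹ = mc (z.map (fun g => γ * g * γ⁻¹)) (γ * v * γ⁻¹) := by
  induction z generalizing v with
  | nil => rfl
  | cons a z ih =>
    rw [mc_cons, ih, List.map_cons, mc_cons]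
    congr 1
    simp only [cm]
    group

/-! ### BSUB -/

/-- a subgroup generated by `S` is normal if the conjugates of `S` are in it -/
theorem mc_normal_of_gen (T : Subgroup G) (S : Set G) (hT : T = Subgroup.closure S)
    (h : ∀ s ∈ S, ∀ g : G, g * s * g⁻¹ ∈ T) : T.Normal := by
  refine ⟨fun a ha g => ?_⟩
  rw [hT] at ha
  induction ha using Subgroup.closure_induction with
  | mem s hs => exact h s hs g
  | one => simp
  | mul a b _ _ h1 h2 =>
    have : g * (a * b) * g⁻¹ = (g * a * g⁻¹) * (g * b * g⁻¹) := by group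
    rw [this]
    exact T.mul_mem h1 h2
  | inv a _ h1 =>
    have : g * a⁻¹ * g⁻¹ = (g * a * g⁻¹)⁻¹ := by group
    rw [this]
    exact T.inv_mem h1

theorem mc_sup_closure (S : Set G) (K : Subgroup G) :
    Subgroup.closure S ⊔ K = Subgroup.closure (S ∪ (K : Set G)) := by
  rw [Subgroup.closure_union, Subgroup.closure_eq]

theorem Bsub_normal (E : Subgroup G) (hE : E.Normal) (j : ℕ) : (Bsub N U E j).Normal := by
  refine mc_normal_of_gen _ _ (mc_sup_closure _ U) ?_
  rintro s (⟨z, hl, hz, v, hv, rfl⟩ | hs) g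
  · refine Subgroup.mem_sup_left (Subgroup.subset_closure ?_)
    refine ⟨z.map (fun a => g * a * g⁻¹), by simpa using hl, ?_, g * v * g⁻¹,
      hE.conj_mem v hv g, mc_conj g z v⟩
    intro b hb
    obtain ⟨a, ha, rfl⟩ := List.mem_map.1 hb
    exact Subgroup.Normal.conj_mem inferInstance a (hz a ha) g
  · exact Subgroup.mem_sup_right (Subgroup.Normal.conj_mem inferInstance s hs g)

theorem Bsub_le (hUN : U ≤ N) (E : Subgroup G) (j : ℕ) (hE : E ≤ ucs N U (j + 1)) :
    Bsub N U E j ≤ ucs N U 1 := by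
  refine sup_le ?_ ?_
  · rw [Subgroup.closure_le]
    rintro b ⟨z, hl, hz, v, hv, rfl⟩
    refine mc_mem N U hUN 1 j z hz hl v ?_
    rw [Nat.add_comm]
    exact hE hv
  · have := ucs_mono N U hUN 0 1 (Nat.zero_le _)
    rwa [ucs_zero] at this

theorem Bsub_ne (hUN : U ≤ N) (E : Subgroup G) (j : ℕ) (hE : E ≤ ucs N U (j + 1))
    (hne : ∃ v ∈ E, v ∉ ucs N U j) : ∃ b ∈ Bsub N U E j, b ∉ U := by
  obtain ⟨v, hv, hv'⟩ := hne
  obtain ⟨z, h1, h2, h3⟩ := mc_nondeg N U hUN j v (hE hv) hv'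
  exact ⟨mc z v, Subgroup.mem_sup_left (Subgroup.subset_closure ⟨z, h2, h1, v, hv, rfl⟩), h3⟩

theorem E1_normal (x : G) (j : ℕ) : (E1 U N x j).Normal := by
  refine mc_normal_of_gen _ _ (mc_sup_closure _ _) ?_
  rintro s (⟨δ, rfl⟩ | hs) g
  · refine Subgroup.mem_sup_left (Subgroup.subset_closure ⟨g * δ, ?_⟩)
    group
  · exact Subgroup.mem_sup_right ((ucs_normal N U j).conj_mem s hs g)

theorem E1_le (hUN : U ≤ N) (x : G) (j : ℕ) (hx : x ∈ ucs N U (j + 1)) :
    E1 U N x j ≤ ucs N U (j + 1) := by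
  refine sup_le ?_ (ucs_mono N U hUN _ _ (Nat.le_succ j))
  rw [Subgroup.closure_le]
  rintro a ⟨δ, rfl⟩
  exact (ucs_normal N U (j + 1)).conj_mem x hx δ

/-- `G/N` abelian is used here -/
theorem E2_normal (hUN : U ≤ N) (hab : ∀ a b : G, cm a b ∈ N) (x : G) (j : ℕ) :
    (E2 U N x j).Normal := by
  let _ := ucs_normal N U j
  refine mc_normal_of_gen _ _ (mc_sup_closure _ _) ?_
  rintro s (⟨v, hv, rfl⟩ | hs) g
  · have hv1 : g * v * g⁻¹ ∈ ucs N U (j + 1) := (ucs_normal N U (j + 1)).conj_mem v hv g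
    have hd : (cm x (g * v * g⁻¹))⁻¹ * (g * cm x v * g⁻¹) ∈ ucs N U j := by
      rw [← mcq_eq N U]
      have e1 : g * cm x v * g⁻¹ = x * (cm x⁻¹ g * (g * v * g⁻¹) * (cm x⁻¹ g)⁻¹) * x⁻¹ *
          (g * v * g⁻¹)⁻¹ := by
        simp only [cm]; group
      have e2 : cm x (g * v * g⁻¹) = x * (g * v * g⁻¹) * x⁻¹ * (g * v * g⁻¹)⁻¹ := rfl
      have c := mcq_comm N U j (g * v * g⁻¹) (cm x⁻¹ g) hv1 (hab _ _)
      rw [e1, e2]
      simp only [QuotientGroup.mk_mul, QuotientGroup.mk_inv] at c ⊢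
      rw [← c]
      group
    have : g * cm x v * g⁻¹ = cm x (g * v * g⁻¹) *
        ((cm x (g * v * g⁻¹))⁻¹ * (g * cm x v * g⁻¹)) := by group
    rw [this]
    exact Subgroup.mul_mem _ (Subgroup.mem_sup_left (Subgroup.subset_closure ⟨_, hv1, rfl⟩))
      (Subgroup.mem_sup_right hd)
  · exact Subgroup.mem_sup_right ((ucs_normal N U j).conj_mem s hs g)

theorem E2_le (hUN : U ≤ N) (x : G) (j : ℕ) : E2 U N x j ≤ ucs N U (j + 1) := by
  refine sup_le ?_ (ucs_mono N U hUN _ _ (Nat.le_succ j))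
  rw [Subgroup.closure_le]
  rintro a ⟨v, hv, rfl⟩
  exact Subgroup.mul_mem _ ((ucs_normal N U (j + 1)).conj_mem v hv x) (Subgroup.inv_mem _ hv)

/-- elements of `E2` are of the form `[x, v'] * (element of ucs j)` -/
theorem E2_mem (hUN : U ≤ N) (x : G) (j : ℕ) (v : G) (hv : v ∈ E2 U N x j) :
    ∃ v' ∈ ucs N U (j + 1), (cm x v')⁻¹ * v ∈ ucs N U j := by
  let _ := ucs_normal N U j
  let _ := ucs_normal N U (j + 1)
  have hcm : ∀ a ∈ ucs N U (j + 1), cm x a ∈ ucs N U (j + 1) := fun a ha =>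
    Subgroup.mul_mem _ ((ucs_normal N U (j + 1)).conj_mem a ha x) (Subgroup.inv_mem _ ha)
  have hv2 : v ∈ Subgroup.closure ({a | ∃ v ∈ ucs N U (j + 1), a = cm x v} ∪
      (ucs N U j : Set G)) := by
    rw [← mc_sup_closure]
    exact hv
  simp only [← mcq_eq N U]
  clear hv
  induction hv2 using Subgroup.closure_induction with
  | mem s hs =>
    rcases hs with ⟨a, ha, rfl⟩ | hs
    · exact ⟨a, ha, rfl⟩
    · refine ⟨1, Subgroup.one_mem _, ?_⟩
      have : cm x (1 : G) = 1 := by simp [cm]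
      rw [this]
      exact ((QuotientGroup.eq_one_iff s).2 hs).symm
  | one =>
    refine ⟨1, Subgroup.one_mem _, ?_⟩
    have : cm x (1 : G) = 1 := by simp [cm]
    rw [this]
  | mul a b _ _ h1 h2 =>
    obtain ⟨a', ha', ha2⟩ := h1
    obtain ⟨b', hb', hb2⟩ := h2
    refine ⟨a' * b', Subgroup.mul_mem _ ha' hb', ?_⟩
    have e1 : cm x (a' * b') = cm x a' * (a' * cm x b' * a'⁻¹) := by simp only [cm]; group
    have c := mcq_comm N U j (cm x b') a' (hcm b' hb') (ucs_le N U hUN _ ha')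
    rw [e1]
    simp only [QuotientGroup.mk_mul, QuotientGroup.mk_inv] at c ⊢
    rw [← c, mul_inv_cancel_right, ha2, hb2]
  | inv a _ h1 =>
    obtain ⟨a', ha', ha2⟩ := h1
    refine ⟨a'⁻¹, Subgroup.inv_mem _ ha', ?_⟩
    have e1 : cm x a'⁻¹ = a'⁻¹ * (cm x a')⁻¹ * a' := by simp only [cm]; group
    have c := mcq_comm N U j (cm x a')⁻¹ a' (Subgroup.inv_mem _ (hcm a' ha'))
      (ucs_le N U hUN _ ha')
    rw [e1]
    simp only [QuotientGroup.mk_mul, QuotientGroup.mk_inv] at c ⊢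
    rw [mul_assoc, c, inv_mul_cancel_left, ha2]

end ucs

end Pool.Agent.Polc
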