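import Pool.Agent.Polc.Defs2
import Pool.Agent.Polc.SECUCS
import Pool.Agent.Polc.MCBSUB
import Pool.Agent.Polc.DPOW
import Pool.Agent.Polc.SYX
import Pool.Agent.Polc.F0F2
import Pool.Agent.Polc.ESCPADIC

/-!
Module F1B of the proof for `MP_9e8505_al`: the final argument in case 2.
-/

set_option autoImplicit false

namespace Pool.Agent.Polc

namespace F1B

/-! ### Multiplicative maps modulo a central subgroup -/

section grp
variable {G : Type} [Group G]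

/-- `m` is multiplicative on `K` modulo `U`, and maps `K0` to `U` -/
structure MM (U K K0 : Subgroup G) (m : G → G) : Prop where
  mul : ∀ a ∈ K, ∀ b ∈ K, (m a * m b)⁻¹ * m (a * b) ∈ U
  ker : ∀ a ∈ K0, m a ∈ U
  le : K0 ≤ K

variable {U K K0 : Subgroup G} [U.Normal] {m : G → G}

theorem MM.mul' (h : MM U K K0 m) {a b : G} (ha : a ∈ K) (hb : b ∈ K) :
    ((m (a * b) : G) : G ⧸ U) = (m a : G ⧸ U) * (m b : G ⧸ U) := by
  rw [← QuotientGroup.mk_mul]
  exact (QuotientGroup.eq.2 (h.mul a ha b hb)).symm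

theorem MM.ker' (h : MM U K K0 m) {a : G} (ha : a ∈ K0) : ((m a : G) : G ⧸ U) = 1 :=
  (QuotientGroup.eq_one_iff _).2 (h.ker a ha)

theorem MM.pow' (h : MM U K K0 m) {a : G} (ha : a ∈ K) (n : ℕ) :
    ((m (a ^ n) : G) : G ⧸ U) = (m a : G ⧸ U) ^ n := by
  induction n with
  | zero => rw [pow_zero, pow_zero, h.ker' K0.one_mem]
  | succ n ih => rw [pow_succ, h.mul' (K.pow_mem ha n) ha, ih, pow_succ]

theorem MM.inv' (h : MM U K K0 m) {a : G} (ha : a ∈ K) :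
    ((m a⁻¹ : G) : G ⧸ U) = (m a : G ⧸ U)⁻¹ := by
  have h1 := h.mul' ha (K.inv_mem ha)
  rw [mul_inv_cancel, h.ker' K0.one_mem] at h1
  exact (inv_eq_of_mul_eq_one_right h1.symm).symm

theorem MM.congr' (h : MM U K K0 m) {a b : G} (ha : a ∈ K) (hb : b ∈ K) (hab : a⁻¹ * b ∈ K0) :
    ((m b : G) : G ⧸ U) = (m a : G ⧸ U) := by
  have h1 := h.mul' ha (K.mul_mem (K.inv_mem ha) hb)
  rw [mul_inv_cancel_left, h.ker' hab, mul_one] at h1
  exact h1

/-- the classes of elements of `K` mapped to `S U` -/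
def RR {V : Type} [AddCommGroup V] [DistribMulAction G V] {cl : G → V} (hsec : Sec K K0 V cl)
    (h : MM U K K0 m) (S : Subgroup G) : AddSubgroup V where
  carrier := {u | ∃ g ∈ K, cl g = u ∧ ((m g : G) : G ⧸ U) ∈ S.map (QuotientGroup.mk' U)}
  zero_mem' := by
    refine ⟨1, K.one_mem, (hsec.ker 1 K.one_mem).2 K0.one_mem, ?_⟩
    rw [h.ker' K0.one_mem]
    exact Subgroup.one_mem _
  add_mem' := by
    rintro u u' ⟨g, hg, hu, hS⟩ ⟨g', hg', hu', hS'⟩
    refine ⟨g * g', K.mul_mem hg hg', by rw [hsec.add g hg g' hg', hu, hu'], ?_⟩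
    rw [h.mul' hg hg']
    exact Subgroup.mul_mem _ hS hS'
  neg_mem' := by
    rintro u ⟨g, hg, hu, hS⟩
    refine ⟨g⁻¹, K.inv_mem hg, by rw [hsec.inv g hg, hu], ?_⟩
    rw [h.inv' hg]
    exact Subgroup.inv_mem _ hS

theorem mem_RR {V : Type} [AddCommGroup V] [DistribMulAction G V] {cl : G → V}
    (hsec : Sec K K0 V cl) (h : MM U K K0 m) (S : Subgroup G) {y : G} (hy : y ∈ K) :
    cl y ∈ RR hsec h S ↔ ((m y : G) : G ⧸ U) ∈ S.map (QuotientGroup.mk' U) := by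
  constructor
  · rintro ⟨g, hg, hgy, hS⟩
    rw [h.congr' hg hy ((hsec.eq_iff g y hg hy).1 hgy)]
    exact hS
  · intro hS
    exact ⟨y, hy, rfl, hS⟩

/-- powers kill the ambiguity modulo `U` -/
theorem pow_mem_of_map (hc : ∀ u ∈ U, ∀ g : G, g * u = u * g) (S : Subgroup G) (κ : ℕ)
    (hUS : ∀ u ∈ U, u ^ κ ∈ S) (b : G) (hb : (b : G ⧸ U) ∈ S.map (QuotientGroup.mk' U)) :
    b ^ κ ∈ S := by
  obtain ⟨g, hg, hgb⟩ := hb
  have h1 : g⁻¹ * b ∈ U := QuotientGroup.eq.1 hgb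
  have h2 : b = g * (g⁻¹ * b) := by group
  have h3 : Commute g (g⁻¹ * b) := hc _ h1 g
  rw [h2, h3.mul_pow]
  exact S.mul_mem (S.pow_mem hg κ) (hUS _ h1)

theorem cm_conj (γ a b : G) : γ * cm a b * γ⁻¹ = cm (γ * a * γ⁻¹) (γ * b * γ⁻¹) := by
  simp only [cm]; group

/-- commuting modulo a normal subgroup passes to powers -/
theorem cm_pow_mem (H : Subgroup G) (hH : H.Normal) (g y : G) (h : cm g y ∈ H) (n : ℕ) :
    cm g (y ^ n) ∈ H := by
  induction n with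
  | zero =>
    have : cm g (y ^ 0) = 1 := by simp [cm]
    rw [this]; exact H.one_mem
  | succ n ih =>
    have : cm g (y ^ (n + 1)) = cm g (y ^ n) * (y ^ n * cm g y * (y ^ n)⁻¹) := by
      simp only [cm, pow_succ]; group
    rw [this]
    exact H.mul_mem ih (hH.conj_mem _ h _)

theorem cm_mem_left (H : Subgroup G) (hH : H.Normal) (g y : G) (h : g ∈ H) : cm g y ∈ H := by
  have : cm g y = g * (y * g⁻¹ * y⁻¹) := by simp only [cm]; group
  rw [this]
  exact H.mul_mem h (hH.conj_mem _ (H.inv_mem h) y)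

theorem cm_mem_right (H : Subgroup G) (hH : H.Normal) (g y : G) (h : y ∈ H) : cm g y ∈ H := by
  have : cm g y = (g * y * g⁻¹) * y⁻¹ := by simp only [cm]
  rw [this]
  exact H.mul_mem (hH.conj_mem _ h g) (H.inv_mem h)

theorem mc_mem_normal (H : Subgroup G) (hH : H.Normal) (z : List G) (v : G) (hv : v ∈ H) :
    mc z v ∈ H := by
  induction z generalizing v with
  | nil => exact hv
  | cons g z ih => exact ih _ (cm_mem_left H hH v g hv)

/-- elements of `H` moving `q` by an element of `W` -/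
def fixS {Q : Type} [AddCommGroup Q] [DistribMulAction G Q] (H : Subgroup G) (W : AddSubgroup Q)
    (hW : Stb H W) (q : Q) : Subgroup G where
  carrier := {g | g ∈ H ∧ g • q - q ∈ W}
  one_mem' := ⟨H.one_mem, by simp⟩
  mul_mem' := by
    rintro g g' ⟨hg, h1⟩ ⟨hg', h2⟩
    refine ⟨H.mul_mem hg hg', ?_⟩
    have : (g * g') • q - q = g • (g' • q - q) + (g • q - q) := by
      rw [smul_sub, mul_smul]; abel
    rw [this]
    exact W.add_mem (hW g hg _ h2) h1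
  inv_mem' := by
    rintro g ⟨hg, h1⟩
    refine ⟨H.inv_mem hg, ?_⟩
    have : g⁻¹ • q - q = -(g⁻¹ • (g • q - q)) := by
      rw [smul_sub, inv_smul_smul]; abel
    rw [this]
    exact W.neg_mem (hW _ (H.inv_mem hg) _ h1)

end grp

/-! ### Families fixing `v` modulo null families -/

section lv
variable {G M : Type} [Group G] [AddCommGroup M] [DistribMulAction G M]
    {U N B : Subgroup G} {x : G} {w : M} {V : Type} [AddCommGroup V] [DistribMulAction G V]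

/-- `f ∈ HH` fixing the family `v` modulo null families -/
def Zv (L : Lv G M U N B x w V) (v : ∀ i, ℕ → L.Q i) (f : ℕ → ℕ → G) : Prop :=
  f ∈ L.HH ∧ L.Null (L.dl f v)

theorem HH_conj (L : Lv G M U N B x w V) (γ : G) (f : ℕ → ℕ → G) (hf : f ∈ L.HH) :
    (fun i s => γ * f i s * γ⁻¹) ∈ L.HH := by
  unfold Lv.HH at hf ⊢
  induction hf using Subgroup.closure_induction with
  | mem f hf =>
    obtain ⟨δ, rfl⟩ := hf
    refine Subgroup.subset_closure ⟨γ * δ, ?_⟩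
    funext i s
    simp only [Lv.xi]; group
  | one =>
    have : (fun i s => γ * (1 : ℕ → ℕ → G) i s * γ⁻¹) = 1 := by
      funext i s; simp
    rw [this]; exact Subgroup.one_mem _
  | mul f g _ _ h1 h2 =>
    have : (fun i s => γ * (f * g) i s * γ⁻¹) =
        (fun i s => γ * f i s * γ⁻¹) * (fun i s => γ * g i s * γ⁻¹) := by
      funext i s; simp only [Pi.mul_apply]; group
    rw [this]; exact Subgroup.mul_mem _ h1 h2
  | inv f _ h1 =>
    have : (fun i s => γ * f⁻¹ i s * γ⁻¹) = (fun i s => γ * f i s * γ⁻¹)⁻¹ := by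
      funext i s; simp only [Pi.inv_apply]; group
    rw [this]; exact Subgroup.inv_mem _ h1

theorem Zv_mul (L : Lv G M U N B x w V) (hN : N.Normal) (hab : ∀ a b : G, cm a b ∈ N)
    (hx : x • w = w) (v : ∀ i, ℕ → L.Q i) (f g : ℕ → ℕ → G) (hf : Zv L v f) (hg : Zv L v g) :
    Zv L v (f * g) := by
  refine ⟨Subgroup.mul_mem _ hf.1 hg.1, ?_⟩
  have h1 := L.null_smul hN hab hx (L.dl g v) hg.2 f (fun i s => L.HH_mem hN hab f hf.1 i s)
  have h2 := L.null_add hN _ _ h1 hf.2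
  have h3 : L.dl (f * g) v = fun i s => f i s • L.dl g v i s + L.dl f v i s := by
    funext i s
    simp only [Lv.dl, Pi.mul_apply, smul_sub, mul_smul]
    abel
  rw [h3]; exact h2

theorem Zv_inv (L : Lv G M U N B x w V) (hN : N.Normal) (hab : ∀ a b : G, cm a b ∈ N)
    (hx : x • w = w) (v : ∀ i, ℕ → L.Q i) (f : ℕ → ℕ → G) (hf : Zv L v f) :
    Zv L v f⁻¹ := by
  have hf' : f⁻¹ ∈ L.HH := Subgroup.inv_mem _ hf.1
  refine ⟨hf', ?_⟩
  have h1 := L.null_smul hN hab hx (L.dl f v) hf.2 f⁻¹ (fun i s => L.HH_mem hN hab _ hf' i s)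
  have h2 := L.null_neg _ h1
  have h3 : L.dl f⁻¹ v = fun i s => -(f⁻¹ i s • L.dl f v i s) := by
    funext i s
    simp only [Lv.dl, Pi.inv_apply, smul_sub, inv_smul_smul]
    abel
  rw [h3]; exact h2

theorem Zv_conj (L : Lv G M U N B x w V) {v : ∀ i, ℕ → L.Q i} {G3 : Subgroup G} {γ0 : G}
    (hs : L.Sym v G3 γ0) (f : ℕ → ℕ → G) (hf : Zv L v f) (γ : G) (hγ : γ ∈ G3) :
    Zv L v (fun i s => γ * f i s * γ⁻¹) :=
  ⟨HH_conj L γ f hf.1, hs.conj f hf.1 γ hγ hf.2⟩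

theorem Zv_cm_left (L : Lv G M U N B x w V) (hN : N.Normal) (hab : ∀ a b : G, cm a b ∈ N)
    (hx : x • w = w) {v : ∀ i, ℕ → L.Q i} {G3 : Subgroup G} {γ0 : G}
    (hs : L.Sym v G3 γ0) (f : ℕ → ℕ → G) (hf : Zv L v f) (γ : G) (hγ : γ ∈ G3) :
    Zv L v (fun i s => cm γ (f i s)) := by
  have h1 := Zv_mul L hN hab hx v _ _ (Zv_conj L hs f hf γ hγ) (Zv_inv L hN hab hx v f hf)
  have h2 : (fun i s => cm γ (f i s)) = (fun i s => γ * f i s * γ⁻¹) * f⁻¹ := by
    funext i s; simp only [cm, Pi.mul_apply, Pi.inv_apply]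
  rw [h2]; exact h1

theorem Zv_cm_right (L : Lv G M U N B x w V) (hN : N.Normal) (hab : ∀ a b : G, cm a b ∈ N)
    (hx : x • w = w) {v : ∀ i, ℕ → L.Q i} {G3 : Subgroup G} {γ0 : G}
    (hs : L.Sym v G3 γ0) (f : ℕ → ℕ → G) (hf : Zv L v f) (γ : G) (hγ : γ ∈ G3) :
    Zv L v (fun i s => cm (f i s) γ) := by
  have h1 := Zv_mul L hN hab hx v _ _ hf
    (Zv_conj L hs _ (Zv_inv L hN hab hx v f hf) γ hγ)
  have h2 : (fun i s => cm (f i s) γ) = f * (fun i s => γ * f⁻¹ i s * γ⁻¹) := by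
    funext i s; simp only [cm, Pi.mul_apply, Pi.inv_apply]; group
  rw [h2]; exact h1

theorem Zv_mc (L : Lv G M U N B x w V) (hN : N.Normal) (hab : ∀ a b : G, cm a b ∈ N)
    (hx : x • w = w) {v : ∀ i, ℕ → L.Q i} {G3 : Subgroup G} {γ0 : G}
    (hs : L.Sym v G3 γ0) (z : List G) (hz : ∀ g ∈ z, g ∈ G3) (f : ℕ → ℕ → G) (hf : Zv L v f) :
    Zv L v (fun i s => mc z (f i s)) := by
  induction z generalizing f with
  | nil => exact hf
  | cons g z ih =>
    have h1 := Zv_cm_right L hN hab hx hs f hf g (hz g (by simp))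
    exact ih (fun g' hg' => hz g' (by simp [hg'])) _ h1

theorem Zv_xi (L : Lv G M U N B x w V) {v : ∀ i, ℕ → L.Q i} {G3 : Subgroup G} {γ0 : G}
    (hs : L.Sym v G3 γ0) : Zv L v (L.xi γ0) :=
  ⟨Subgroup.subset_closure ⟨γ0, rfl⟩, hs.xi⟩

/-- the basic families -/
theorem Zv_basic (L : Lv G M U N B x w V) (hN : N.Normal) (hab : ∀ a b : G, cm a b ∈ N)
    (hx : x • w = w) {v : ∀ i, ℕ → L.Q i} {G3 : Subgroup G} {γ0 : G}
    (hs : L.Sym v G3 γ0) (z : List G) (hz : ∀ g ∈ z, g ∈ G3) (a : G) (ha : a ∈ G3) :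
    L.Null (L.dl (fun i s => mc z (cm a (L.xi γ0 i s))) v) :=
  (Zv_mc L hN hab hx hs z hz _ (Zv_cm_left L hN hab hx hs _ (Zv_xi L hs) a ha)).2

/-- the elements of the basic families are in `H i` -/
theorem basic_mem (L : Lv G M U N B x w V) (hN : N.Normal) (γ0 : G) (z : List G) (a : G)
    (ha : a ∈ N) (i s : ℕ) : mc z (cm a (L.xi γ0 i s)) ∈ L.H i := by
  refine mc_mem_normal _ (L.Hn i) z _ ?_
  have h1 : cm (γ0⁻¹ * a * γ0) (x ^ (L.t i * L.p i ^ s)) ∈ L.H i := by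
    rw [pow_mul]
    refine cm_pow_mem _ (L.Hn i) _ _ (L.deepN i _ ?_) _
    have := hN.conj_mem a ha γ0⁻¹
    rwa [inv_inv] at this
  have h2 : cm a (L.xi γ0 i s) =
      γ0 * cm (γ0⁻¹ * a * γ0) (x ^ (L.t i * L.p i ^ s)) * γ0⁻¹ := by
    rw [cm_conj]
    simp only [Lv.xi]
    congr 1
    group
  rw [h2]
  exact (L.Hn i).conj_mem _ h1 γ0

end lv

/-! ### The section `V` -/

section sec

theorem exists_eps {V : Type} [AddCommGroup V]
    (htf : ∀ (k : ℕ) (w : V), 0 < k → k • w = 0 → w = 0) (τ : AddMonoid.End V) (c : ℕ)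
    (hc : 0 < c) (hd : ∀ v : V, ∃ v' : V, τ v = v + c • v') :
    ∃ δ : AddMonoid.End V, ∀ v, τ v = v + c • δ v := by
  choose f hf using hd
  have hadd : ∀ a b, f (a + b) = f a + f b := by
    intro a b
    have h1 := hf (a + b)
    rw [map_add, hf a, hf b] at h1
    have h2 : c • (f (a + b) - (f a + f b)) = 0 := by
      rw [smul_sub, smul_add]
      have h3 : c • f (a + b) = c • f a + c • f b := by
        have : a + b + c • f (a + b) = a + b + (c • f a + c • f b) := by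
          rw [← h1]; abel
        exact add_left_cancel this
      rw [h3, sub_self]
    exact sub_eq_zero.1 (htf _ _ hc h2)
  exact ⟨AddMonoidHom.mk' f hadd, hf⟩

theorem core {V : Type} [AddCommGroup V] (p : ℕ) (hp : p.Prime) (τ ε : AddMonoid.End V)
    (hτ : τ = 1 + (p ^ 2) • ε) (s T : ℕ) (V' R : AddSubgroup V) (hε : ∀ v, ε v ∈ V')
    (h1 : ∀ e ∈ V', (τ ^ (p ^ s) - 1) e ∈ R) (h2 : ∀ v2, p ^ (s + T) • ((τ - 1) v2) ∈ R)
    (e : V) (he : e ∈ V') : p ^ s • ((τ - 1) e) ∈ R := by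
  obtain ⟨v1, hv1, v2, h⟩ := padic p hp τ ε hτ s T e
  rw [h]
  refine R.add_mem (h1 v1 ?_) (h2 v2)
  have hle : AddSubgroup.closure {u : V | ∃ k : ℕ, u = (ε ^ k) e} ≤ V' := by
    rw [AddSubgroup.closure_le]
    rintro u ⟨k, rfl⟩
    cases k with
    | zero => simpa using he
    | succ k =>
      have : (ε ^ (k + 1)) e = ε ((ε ^ k) e) := by rw [pow_succ']; rfl
      rw [this]; exact hε _
  exact hle hv1

variable {G : Type} [Group G] {U N : Subgroup G} [U.Normal] [N.Normal] {j : ℕ}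
  {V : Type} [AddCommGroup V] [DistribMulAction G V] {cl : G → V}

theorem V_tf (hU : U ≤ N) (utor : ∀ (g : G) (k : ℕ), 0 < k → g ^ k ∈ U → g ∈ U)
    (hsec : Sec (ucs N U (j + 1)) (ucs N U j) V cl) (k : ℕ) (v : V) (hk : 0 < k)
    (hv : k • v = 0) : v = 0 := by
  obtain ⟨a, ha, rfl⟩ := hsec.surj v
  rw [← hsec.pow a ha k, hsec.ker _ (Subgroup.pow_mem _ ha k)] at hv
  exact (hsec.ker a ha).2 (ucs_tor N U hU utor j a k hk ha hv)

theorem N_triv (hsec : Sec (ucs N U (j + 1)) (ucs N U j) V cl) (n : G) (hn : n ∈ N) (v : V) :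
    n • v = v := by
  obtain ⟨a, ha, rfl⟩ := hsec.surj v
  rw [← hsec.conj n a ha]
  have h1 : cm a n ∈ ucs N U j := ((mem_ucs_succ N U j a).1 ha).2 n hn
  have h2 : n * a * n⁻¹ ∈ ucs N U (j + 1) := (ucs_normal N U (j + 1)).conj_mem a ha n
  rw [hsec.eq_iff _ _ h2 ha]
  have h3 : (n * a * n⁻¹)⁻¹ * a = a⁻¹ * cm a n * a⁻¹⁻¹ := by
    simp only [cm]; group
  rw [h3]
  exact (ucs_normal N U j).conj_mem _ h1 a⁻¹

theorem cl_cm (hsec : Sec (ucs N U (j + 1)) (ucs N U j) V cl) (a y : G)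
    (ha : a ∈ ucs N U (j + 1)) : cm a y ∈ ucs N U (j + 1) ∧ cl (cm a y) = cl a - y • cl a := by
  have h2 : y * a⁻¹ * y⁻¹ ∈ ucs N U (j + 1) :=
    (ucs_normal N U (j + 1)).conj_mem _ (Subgroup.inv_mem _ ha) y
  have h3 : cm a y = a * (y * a⁻¹ * y⁻¹) := by simp only [cm]; group
  refine ⟨by rw [h3]; exact Subgroup.mul_mem _ ha h2, ?_⟩
  rw [h3, hsec.add _ ha _ h2, hsec.conj y _ (Subgroup.inv_mem _ ha), hsec.inv a ha, smul_neg,
    sub_eq_add_neg]

end sec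

/-! ### The main estimate -/

section main
variable {G M : Type} [Group G] [AddCommGroup M] [DistribMulAction G M]
    {U N B : Subgroup G} {x : G} {w : M} {V : Type} [AddCommGroup V] [DistribMulAction G V]

theorem null_unif (L : Lv G M U N B x w V) {ι : Type} (v : ∀ i, ℕ → L.Q i) (S0 : Finset ι)
    (g : ι → ℕ → ℕ → G) (hg : ∀ u ∈ S0, L.Null (L.dl (g u) v)) :
    ∃ Φ : Finset G, ∃ i0, ∀ i ≥ i0, ∀ C : ℕ, ∃ s0, ∀ s ≥ s0, ∀ u ∈ S0,
      L.dl (g u) v i s ∈ dpow (L.H i) (C * L.p i ^ s) (L.VF i Φ) := by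
  classical
  induction S0 using Finset.induction_on with
  | empty => exact ⟨∅, 0, fun i _ C => ⟨0, fun s _ u hu => by simp at hu⟩⟩
  | insert a S0 ha ih =>
    obtain ⟨Φ1, i1, h1⟩ := ih (fun u hu => hg u (Finset.mem_insert_of_mem hu))
    obtain ⟨Φ2, i2, h2⟩ := hg a (Finset.mem_insert_self _ _)
    refine ⟨Φ1 ∪ Φ2, max i1 i2, fun i hi C => ?_⟩
    obtain ⟨s1, hs1⟩ := h1 i (le_trans (le_max_left _ _) hi) C
    obtain ⟨s2, hs2⟩ := h2 i (le_trans (le_max_right _ _) hi) C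
    refine ⟨max s1 s2, fun s hs u hu => ?_⟩
    rcases Finset.mem_insert.1 hu with rfl | hu
    · exact dpow_mono _ _ _ _ le_rfl (L.VF_mono i _ _ Finset.subset_union_right) _
        (hs2 s (le_trans (le_max_right _ _) hs))
    · exact dpow_mono _ _ _ _ le_rfl (L.VF_mono i _ _ Finset.subset_union_left) _
        (hs1 s (le_trans (le_max_left _ _) hs) u hu)

theorem VF_stbH (L : Lv G M U N B x w V) (hN : N.Normal) (hab : ∀ a b : G, cm a b ∈ N)
    (hx : x • w = w) (i : ℕ) (Φ : Finset G) : Stb (L.H i) (L.VF i Φ) := by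
  intro h hh q hq
  exact L.VF_stb hN hab hx i Φ h (Subgroup.mem_sup_left (L.HN i hh)) q hq

/-- `ξ` acts on `V` as a power of `x` -/
theorem xi_act [U.Normal] [N.Normal] (L : Lv G M U N B x w V) (hab : ∀ a b : G, cm a b ∈ N)
    {j : ℕ} {cl : G → V} (hsec : Sec (ucs N U (j + 1)) (ucs N U j) V cl) (γ0 : G) (i s : ℕ)
    (u : V) : L.xi γ0 i s • u = x ^ (L.t i * L.p i ^ s) • u := by
  have h1 : L.xi γ0 i s = cm γ0 (x ^ (L.t i * L.p i ^ s)) * x ^ (L.t i * L.p i ^ s) := by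
    simp only [Lv.xi, cm]; group
  rw [h1, mul_smul]
  exact N_triv hsec _ (hab _ _) _

theorem PP_basic [U.Normal] [N.Normal] (h : PC G) (L : Lv G M U N B x w V) (hU : U ≤ N)
    (hc : ∀ u ∈ U, ∀ g : G, g * u = u * g) (hab : ∀ a b : G, cm a b ∈ N) (hx : x • w = w)
    (utor : ∀ (g : G) (k : ℕ), 0 < k → g ^ k ∈ U → g ∈ U)
    (j : ℕ) (hcase : Case2 U N x j)
    (cl : G → V) (hsec : Sec (ucs N U (j + 1)) (ucs N U j) V cl)
    (v : ∀ i, ℕ → L.Q i) (G3 : Subgroup G) (γ0 : G) (hs : L.Sym v G3 γ0)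
    (z : List G) (hz : ∀ g ∈ z, g ∈ N) (hl : z.length = j) (a : G) (ha : a ∈ ucs N U (j + 1)) :
    L.PP v (mc z (cm x a)) := by
  classical
  have hN : N.Normal := inferInstance
  have hKn : (ucs N U (j + 1)).Normal := ucs_normal N U (j + 1)
  have hVf : Module.Finite ℤ V := Sec.finite h hsec
  have htf : ∀ (k : ℕ) (u : V), 0 < k → k • u = 0 → u = 0 := fun k u => V_tf hU utor hsec k u
  -- powers in `G3`
  have := hs.nor
  have := hs.fi
  obtain ⟨k3, hk3, hk3'⟩ : ∃ k3, 0 < k3 ∧ ∀ g : G, g ^ k3 ∈ G3 :=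
    ⟨G3.index, Nat.pos_of_ne_zero Subgroup.FiniteIndex.index_ne_zero,
      fun g => G3.pow_index_mem g⟩
  -- the multi-commutator map
  set z' : List G := z.map (fun g => g ^ k3) with hz'
  have hz'N : ∀ g ∈ z', g ∈ N := by
    intro g hg
    obtain ⟨g0, hg0, rfl⟩ := List.mem_map.1 hg
    exact N.pow_mem (hz g0 hg0) _
  have hz'3 : ∀ g ∈ z', g ∈ G3 := by
    intro g hg
    obtain ⟨g0, hg0, rfl⟩ := List.mem_map.1 hg
    exact hk3' g0
  have hz'l : z'.length = j := by rw [hz', List.length_map, hl]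
  have hm : MM U (ucs N U (j + 1)) (ucs N U j) (mc z') := by
    refine ⟨fun a ha b hb => mc_mul N U hU j z' hz'N hz'l a b ha hb, fun a ha => ?_,
      ucs_mono N U hU _ _ (Nat.le_succ j)⟩
    have h1 := mc_mem N U hU 0 j z' hz'N hz'l a (by rwa [Nat.zero_add])
    rwa [ucs_zero] at h1
  have hmN : ∀ g ∈ ucs N U (j + 1), mc z' g ∈ N := by
    intro g hg
    exact mc_mem_normal N hN z' g (ucs_le N U hU _ hg)
  -- the subgroup `V'`
  let V' : AddSubgroup V :=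
    { carrier := {u | ∃ a ∈ ucs N U (j + 1), a ∈ G3 ∧ cl a = u}
      zero_mem' := ⟨1, Subgroup.one_mem _, G3.one_mem,
        (hsec.ker 1 (Subgroup.one_mem _)).2 (Subgroup.one_mem _)⟩
      add_mem' := by
        rintro u u' ⟨a, ha, ha3, rfl⟩ ⟨b, hb, hb3, rfl⟩
        exact ⟨a * b, Subgroup.mul_mem _ ha hb, G3.mul_mem ha3 hb3, hsec.add a ha b hb⟩
      neg_mem' := by
        rintro u ⟨a, ha, ha3, rfl⟩
        exact ⟨a⁻¹, Subgroup.inv_mem _ ha, G3.inv_mem ha3, hsec.inv a ha⟩ }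
  have hk3V : ∀ u : V, k3 • u ∈ V' := by
    intro u
    obtain ⟨a, ha, rfl⟩ := hsec.surj u
    exact ⟨a ^ k3, Subgroup.pow_mem _ ha _, hk3' a, hsec.pow a ha k3⟩
  obtain ⟨S0, hS0⟩ : ∃ S0 : Finset V, AddSubgroup.closure (S0 : Set V) = V' := by
    have hn : IsNoetherian ℤ V := isNoetherian_of_isNoetherianRing_of_finite ℤ V
    have h1 : (AddSubgroup.toIntSubmodule V').FG := hn.noetherian _
    have h2 := (Submodule.fg_iff_addSubgroup_fg _).1 h1
    obtain ⟨S0, h3⟩ := h2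
    exact ⟨S0, h3⟩
  have hau : ∀ u : V, ∃ a : G, u ∈ V' → (a ∈ ucs N U (j + 1) ∧ a ∈ G3 ∧ cl a = u) := by
    intro u
    by_cases hu : u ∈ V'
    · obtain ⟨a, ha, ha3, hau⟩ := hu
      exact ⟨a, fun _ => ⟨ha, ha3, hau⟩⟩
    · exact ⟨1, fun h => absurd h hu⟩
  choose au hau using hau
  have hS0V : ∀ u ∈ S0, u ∈ V' := by
    intro u hu
    rw [← hS0]; exact AddSubgroup.subset_closure hu
  obtain ⟨Φ1, i0, hΦ⟩ := null_unif L v S0 (fun u i s => mc z' (cm (au u) (L.xi γ0 i s)))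
    (fun u hu => Zv_basic L hN hab hx hs z' hz'3 (au u) (hau u (hS0V u hu)).2.1)
  obtain ⟨Φ2, hΦ2⟩ := hs.fam
  refine ⟨Φ1 ∪ Φ2, max i0 k3, fun i hi => ?_⟩
  have hi0 : i0 ≤ i := le_trans (le_max_left _ _) hi
  have hik : k3 ≤ i := le_trans (le_max_right _ _) hi
  set Φ := Φ1 ∪ Φ2 with hΦdef
  -- actions on `V`
  set θ : AddMonoid.End V := ac V x with hθ
  have hθt : ac V (x ^ L.t i) = θ ^ L.t i := by rw [map_pow]
  have hpp : 0 < L.p i := (L.prime i).pos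
  have hfac : 0 < i.factorial := Nat.factorial_pos i
  obtain ⟨δ, hδ⟩ := exists_eps htf (ac V (x ^ L.t i)) (L.p i ^ 2 * i.factorial * L.κ i)
    (Nat.mul_pos (Nat.mul_pos (pow_pos hpp 2) hfac) (L.κpos i)) (fun u => L.deepV i u)
  set τ : AddMonoid.End V := ac V (x ^ L.t i) with hτ
  set ε : AddMonoid.End V := (i.factorial * L.κ i) • δ with hε
  have hτε : τ = 1 + (L.p i ^ 2) • ε := by
    ext u
    have h1 := hδ u
    have h2 : (1 + (L.p i ^ 2) • ε) u = u + L.p i ^ 2 • ((i.factorial * L.κ i) • δ u) := rfl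
    rw [h1, h2, smul_smul, mul_assoc]
  have hεV : ∀ u, ε u ∈ V' := by
    intro u
    have h1 : ε u = (i.factorial * L.κ i) • δ u := rfl
    obtain ⟨d, hd⟩ : k3 ∣ i.factorial := Nat.dvd_factorial hk3 hik
    rw [h1, hd, mul_assoc, mul_smul]
    exact hk3V _
  -- injectivity of the kernel
  have hker : ∀ u : V, (θ ^ L.t i) u = u → θ u = u := by
    intro u hu
    obtain ⟨b, hb, rfl⟩ := hsec.surj u
    have h1 : x ^ L.t i • cl b = cl b := by
      rw [← hθt] at hu; exact hu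
    have h2 := (cl_cm hsec b (x ^ L.t i) hb)
    have h3 : cm b (x ^ L.t i) ∈ ucs N U j := by
      rw [← hsec.ker _ h2.1, h2.2, h1, sub_self]
    have h4 : cm (x ^ L.t i) b ∈ ucs N U j := by
      have : cm (x ^ L.t i) b = (cm b (x ^ L.t i))⁻¹ := by simp only [cm]; group
      rw [this]; exact Subgroup.inv_mem _ h3
    have h5 := hcase.ker _ (L.tpos i) b hb h4
    have h6 := cl_cm hsec b x hb
    have h7 : cm b x ∈ ucs N U j := by
      have : cm b x = (cm x b)⁻¹ := by simp only [cm]; group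
      rw [this]; exact Subgroup.inv_mem _ h5
    have h8 : cl b - x • cl b = 0 := by rw [← h6.2, hsec.ker _ h6.1]; exact h7
    exact (sub_eq_zero.1 h8).symm
  obtain ⟨k2, hk2, him⟩ := im_fi hVf htf θ (L.t i) (L.tpos i) hker
  refine ⟨k3 ^ j * (k3 * k2) * L.κ i,
    Nat.mul_pos (Nat.mul_pos (pow_pos hk3 j) (Nat.mul_pos hk3 hk2)) (L.κpos i), fun C => ?_⟩
  obtain ⟨s0, hs0⟩ := hΦ i hi0 C
  refine ⟨s0, fun s hss => ?_⟩
  have hstH := VF_stbH L hN hab hx i Φ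
  have hstd := dpow_stb (L.H i) (L.VF i Φ) hstH (C * L.p i ^ s)
  have hvΦ : v i s ∈ L.VF i Φ := L.VF_mono i _ _ Finset.subset_union_right (hΦ2 i s)
  set S : Subgroup G := fixS (L.H i) (dpow (L.H i) (C * L.p i ^ s) (L.VF i Φ)) hstd (v i s)
    with hSdef
  have hUS : ∀ u ∈ U, u ^ L.κ i ∈ S := by
    intro u hu
    have h1 : u ^ L.κ i ∈ L.H i := L.κH i u (hU hu)
    refine ⟨h1, ?_⟩
    rw [L.HU i _ ⟨U.pow_mem hu _, h1⟩, sub_self]
    exact AddSubgroup.zero_mem _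
  set R := RR hsec hm S with hR
  -- first source of elements of `R`
  have hR1 : ∀ e ∈ V', (τ ^ (L.p i ^ s) - 1) e ∈ R := by
    intro e he
    rw [← hS0] at he
    induction he using AddSubgroup.closure_induction with
    | mem u hu =>
      have hu3 := hau u (hS0V u hu)
      have h1 := cl_cm hsec (au u) (L.xi γ0 i s) hu3.1
      have h2 : cl (cm (au u) (L.xi γ0 i s)) ∈ R := by
        rw [hR, mem_RR hsec hm S h1.1]
        refine ⟨_, ⟨basic_mem L hN γ0 z' (au u) (ucs_le N U hU _ hu3.1) i s, ?_⟩, rfl⟩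
        exact dpow_mono _ _ _ _ le_rfl (L.VF_mono i _ _ Finset.subset_union_left) _
          (hs0 s hss u hu)
      rw [h1.2, xi_act L hab hsec, hu3.2.2] at h2
      have h3 : (τ ^ (L.p i ^ s) - 1) u = -(u - x ^ (L.t i * L.p i ^ s) • u) := by
        have h4 : τ ^ (L.p i ^ s) = ac V (x ^ (L.t i * L.p i ^ s)) := by
          rw [pow_mul, map_pow (ac V) (x ^ L.t i)]
        rw [h4, neg_sub]
        rfl
      rw [h3]; exact R.neg_mem h2
    | zero => rw [map_zero]; exact R.zero_mem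
    | add u u' _ _ h1 h2 => rw [map_add]; exact R.add_mem h1 h2
    | neg u _ h1 => rw [map_neg]; exact R.neg_mem h1
  -- second source
  have hR2 : ∀ v2, L.p i ^ (s + C) • ((τ - 1) v2) ∈ R := by
    intro v2
    have h1 : (τ - 1) v2 = L.κ i • ((L.p i ^ 2 * i.factorial) • δ v2) := by
      have h2 : (τ - 1) v2 = τ v2 - v2 := rfl
      rw [h2, hδ v2, add_sub_cancel_left, smul_smul, mul_comm (L.κ i)]
    obtain ⟨g, hg, hgv⟩ := hsec.surj ((L.p i ^ 2 * i.factorial) • δ v2)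
    rw [h1, ← hgv, smul_smul, ← hsec.pow g hg, hR, mem_RR hsec hm S (Subgroup.pow_mem _ hg _),
      hm.pow' hg]
    have h3 : (mc z' g) ^ (L.p i ^ (s + C) * L.κ i) ∈ S := by
      have h4 : ((mc z' g) ^ L.κ i) ∈ L.H i := L.κH i _ (hmN g hg)
      have h5 : (mc z' g) ^ (L.p i ^ (s + C) * L.κ i) =
          ((mc z' g) ^ L.κ i) ^ (L.p i ^ (s + C)) := by
        rw [← pow_mul, mul_comm]
      rw [h5]
      refine ⟨(L.H i).pow_mem h4 _, ?_⟩
      have h6 := dpow_pow (L.p i) (L.prime i) (L.char i) (L.H i) (L.VF i Φ) hstH (s + C)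
        (((mc z' g) ^ L.κ i) ^ (L.p i ^ (s + C)))
        (Subgroup.subset_closure ⟨_, h4, rfl⟩) (v i s) hvΦ
      refine dpow_anti (L.H i) (L.VF i Φ) hstH _ _ ?_ h6
      rw [pow_add, mul_comm]
      exact Nat.mul_le_mul_left _ (Nat.lt_pow_self (L.prime i).one_lt).le
    exact ⟨_, h3, by rw [map_pow]; rfl⟩
  have hR3 := core (L.p i) (L.prime i) τ ε hτε s C V' R hεV hR1 hR2
  -- the element
  have hcl := cl_cm hsec a x ha
  have hy0 : cm x a ∈ ucs N U (j + 1) := by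
    have : cm x a = (cm a x)⁻¹ := by simp only [cm]; group
    rw [this]; exact Subgroup.inv_mem _ hcl.1
  have hy0c : cl (cm x a) = θ (cl a) - cl a := by
    have h1 : cm x a = (cm a x)⁻¹ := by simp only [cm]; group
    rw [h1, hsec.inv _ hcl.1, hcl.2, neg_sub]
    rfl
  obtain ⟨v3, hv3⟩ := him (cl a)
  have hR4 : (L.p i ^ s * (k3 * k2)) • cl (cm x a) ∈ R := by
    have h1 := hR3 (k3 • v3) (hk3V v3)
    have h2 : L.p i ^ s • ((τ - 1) (k3 • v3)) = (L.p i ^ s * (k3 * k2)) • cl (cm x a) := by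
      have h3 : (τ - 1) (k3 • v3) = k3 • (τ v3 - v3) := by
        rw [map_nsmul]; rfl
      rw [h3, hθt, ← hv3, ← hy0c, smul_smul, smul_smul, mul_assoc]
    rw [← h2]; exact h1
  rw [← hsec.pow _ hy0, hR, mem_RR hsec hm S (Subgroup.pow_mem _ hy0 _), hm.pow' hy0] at hR4
  have hpow : ((mc z' (cm x a) : G) : G ⧸ U) = ((mc z (cm x a) : G) : G ⧸ U) ^ (k3 ^ j) := by
    rw [← QuotientGroup.mk_pow]
    exact (QuotientGroup.eq.2 (mc_pow N U hU j z hz hl _ hy0 k3)).symm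
  rw [hpow, ← pow_mul, ← QuotientGroup.mk_pow] at hR4
  have hfin := pow_mem_of_map hc S (L.κ i) hUS _ hR4
  have h9 : ((mc z (cm x a)) ^ (k3 ^ j * (L.p i ^ s * (k3 * k2)))) ^ L.κ i =
      (mc z (cm x a)) ^ (k3 ^ j * (k3 * k2) * L.κ i * L.p i ^ s) := by
    rw [← pow_mul]; congr 1; ring
  rw [h9] at hfin
  exact hfin

end main

end F1B

/-! ### The theorem -/

section lv
variable {G M : Type} [Group G] [AddCommGroup M] [DistribMulAction G M]
    {U N B : Subgroup G} {x : G} {w : M} {V : Type} [AddCommGroup V] [DistribMulAction G V]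

theorem Lv.final1b [U.Normal] [N.Normal] (h : PC G) (L : Lv G M U N B x w V) (hU : U ≤ N)
    (hc : ∀ u ∈ U, ∀ g : G, g * u = u * g) (hab : ∀ a b : G, cm a b ∈ N) (hx : x • w = w)
    (utor : ∀ (g : G) (k : ℕ), 0 < k → g ^ k ∈ U → g ∈ U)
    (j : ℕ) (hcase : Case2 U N x j) (hB : B = Bsub N U (E2 U N x j) j)
    (cl : G → V) (hsec : Sec (ucs N U (j + 1)) (ucs N U j) V cl)
    (v : ∀ i, ℕ → L.Q i) (G3 : Subgroup G) (γ0 : G) (hs : L.Sym v G3 γ0) :
    ∀ b ∈ B, L.PP v b := by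
  have hU1 : U ≤ ucs N U 1 := by
    have := ucs_mono N U hU 0 1 (Nat.zero_le 1)
    rwa [ucs_zero] at this
  let P : Subgroup G :=
    { carrier := {b | b ∈ ucs N U 1 ∧ L.PP v b}
      one_mem' := ⟨Subgroup.one_mem _, L.PP_U hU v 1 U.one_mem⟩
      mul_mem' := fun {a b} h1 h2 =>
        ⟨Subgroup.mul_mem _ h1.1 h2.1, L.PP_mul hU hc v a b h1.1 h2.1 h1.2 h2.2⟩
      inv_mem' := fun {a} h1 => ⟨Subgroup.inv_mem _ h1.1, L.PP_inv hU v a h1.1 h1.2⟩ }
  have hUP : U ≤ P := fun u hu => ⟨hU1 hu, L.PP_U hU v u hu⟩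
  have hBP : Bsub N U (E2 U N x j) j ≤ P := by
    refine sup_le ?_ hUP
    rw [Subgroup.closure_le]
    rintro b ⟨z, hl, hz, e, he, rfl⟩
    obtain ⟨a, ha, hr⟩ := E2_mem N U hU x j e he
    set r := (cm x a)⁻¹ * e with hrdef
    have he' : e = cm x a * r := by rw [hrdef]; group
    have hxa : cm x a ∈ ucs N U (j + 1) := by
      have h1 : cm x a = x * a * x⁻¹ * a⁻¹ := rfl
      rw [h1]
      exact Subgroup.mul_mem _ ((ucs_normal N U (j + 1)).conj_mem a ha x) (Subgroup.inv_mem _ ha)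
    have hr1 : r ∈ ucs N U (j + 1) := ucs_mono N U hU _ _ (Nat.le_succ j) hr
    have h1 : mc z (cm x a) ∈ ucs N U 1 :=
      mc_mem N U hU 1 j z hz hl _ (by rwa [Nat.add_comm])
    have h2 : mc z r ∈ U := by
      have := mc_mem N U hU 0 j z hz hl r (by rwa [Nat.zero_add])
      rwa [ucs_zero] at this
    have h3 := mc_mul N U hU j z hz hl _ _ hxa hr1
    rw [← he'] at h3
    have h4 : mc z e = mc z (cm x a) * (mc z r * ((mc z (cm x a) * mc z r)⁻¹ * mc z e)) := by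
      group
    have h5 : mc z r * ((mc z (cm x a) * mc z r)⁻¹ * mc z e) ∈ U := U.mul_mem h2 h3
    change mc z e ∈ P
    rw [h4]
    exact P.mul_mem
      ⟨h1, F1B.PP_basic h L hU hc hab hx utor j hcase cl hsec v G3 γ0 hs z hz hl a ha⟩
      (hUP h5)
  intro b hb
  rw [hB] at hb
  exact (hBP hb).2

end lv

end Pool.Agent.Polc
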