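import Pool.Agent.Polc.Defs
import Pool.Agent.Polc.NOETH

/-!
Module FL: a relative generic freeness lemma (bounded torsion with respect to a commutative
monoid of operators commuting with the group).
-/

set_option autoImplicit false

namespace Pool.Agent.Polc

section fl
variable {G M : Type} [Group G] [AddCommGroup M] [DistribMulAction G M]

namespace FL

theorem ac_apply (g : G) (m : M) : (ac M g) m = g • m := rfl

theorem emul (a b : AddMonoid.End M) (x : M) : (a * b) x = a (b x) := rfl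

theorem gspan_stb (H : Subgroup G) (F : Set M) : Stb H (gspan H F) := by
  intro h hh v hv
  unfold gspan at hv ⊢
  induction hv using AddSubgroup.closure_induction with
  | mem x hx =>
    obtain ⟨k, hk, f, hf, rfl⟩ := hx
    refine AddSubgroup.subset_closure ⟨h * k, H.mul_mem hh hk, f, hf, ?_⟩
    rw [mul_smul]
  | zero => rw [smul_zero]; exact AddSubgroup.zero_mem _
  | add x y _ _ hx hy => rw [smul_add]; exact AddSubgroup.add_mem _ hx hy
  | neg x _ hx => rw [smul_neg]; exact AddSubgroup.neg_mem _ hx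

theorem subset_gspan (H : Subgroup G) (F : Set M) (f : M) (hf : f ∈ F) : f ∈ gspan H F :=
  AddSubgroup.subset_closure ⟨1, H.one_mem, f, hf, (one_smul G f).symm⟩

theorem gspan_le (H : Subgroup G) (F : Set M) (V : AddSubgroup M) (hV : Stb H V)
    (hF : ∀ f ∈ F, f ∈ V) : gspan H F ≤ V := by
  unfold gspan
  rw [AddSubgroup.closure_le]
  rintro m ⟨h, hh, f, hf, rfl⟩
  exact hV h hh f (hF f hf)

theorem FGM_stb {H : Subgroup G} {V : AddSubgroup M} (hV : FGM H V) : Stb H V := by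
  obtain ⟨F, _, rfl⟩ := hV
  exact gspan_stb H F

theorem stb_sup {H : Subgroup G} {V W : AddSubgroup M} (hV : Stb H V) (hW : Stb H W) :
    Stb H (V ⊔ W) := by
  intro h hh x hx
  obtain ⟨v, hv, w, hw, rfl⟩ := AddSubgroup.mem_sup.1 hx
  rw [smul_add]
  exact AddSubgroup.add_mem _ (AddSubgroup.mem_sup_left (hV h hh v hv))
    (AddSubgroup.mem_sup_right (hW h hh w hw))

theorem stb_inf {H : Subgroup G} {V W : AddSubgroup M} (hV : Stb H V) (hW : Stb H W) :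
    Stb H (V ⊓ W) := fun h hh x hx => ⟨hV h hh x hx.1, hW h hh x hx.2⟩

theorem stb_mono {H K : Subgroup G} {V : AddSubgroup M} (hHK : H ≤ K) (hV : Stb K V) :
    Stb H V := fun h hh x hx => hV h (hHK hh) x hx

theorem FGM_sup {H : Subgroup G} {V W : AddSubgroup M} (hV : FGM H V) (hW : FGM H W) :
    FGM H (V ⊔ W) := by
  obtain ⟨F, hF, rfl⟩ := hV
  obtain ⟨F', hF', rfl⟩ := hW
  refine ⟨F ∪ F', hF.union hF', le_antisymm (sup_le ?_ ?_) ?_⟩
  · exact gspan_le H F _ (gspan_stb H _) fun f hf => subset_gspan H _ f (Or.inl hf)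
  · exact gspan_le H F' _ (gspan_stb H _) fun f hf => subset_gspan H _ f (Or.inr hf)
  · refine gspan_le H _ _ (stb_sup (gspan_stb H _) (gspan_stb H _)) ?_
    rintro f (hf | hf)
    · exact AddSubgroup.mem_sup_left (subset_gspan H _ f hf)
    · exact AddSubgroup.mem_sup_right (subset_gspan H _ f hf)

/-- ascending chains of `H`-stable subgroups of a finitely generated module stabilise -/
theorem chain_stab (h : PC G) (H : Subgroup G) (V : AddSubgroup M) (hV : FGM H V)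
    (C : ℕ → AddSubgroup M) (hC : Monotone C) (hs : ∀ n, Stb H (C n)) (hle : ∀ n, C n ≤ V) :
    ∃ N, ∀ n, C n ≤ C N := by
  have hmem : ∀ x, x ∈ (⨆ n, C n) ↔ ∃ n, x ∈ C n := fun x =>
    AddSubgroup.mem_iSup_of_directed (hC.directed_le)
  have hst : Stb H (⨆ n, C n) := by
    intro k hk x hx
    obtain ⟨n, hn⟩ := (hmem x).1 hx
    exact (hmem _).2 ⟨n, hs n k hk x hn⟩
  obtain ⟨F, hF, hFe⟩ := noeth h H V (⨆ n, C n) hV hst (iSup_le hle)
  have h1 : ∀ f ∈ F, ∃ n, f ∈ C n := fun f hf => (hmem f).1 (by rw [hFe]; exact subset_gspan H F f hf)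
  have h2 : ∃ N, ∀ f ∈ F, f ∈ C N := by
    clear hFe
    induction F, hF using Set.Finite.induction_on with
    | empty => exact ⟨0, by simp⟩
    | @insert a s _ _ ih =>
      obtain ⟨N, hN⟩ := ih fun f hf => h1 f (Or.inr hf)
      obtain ⟨n, hn⟩ := h1 a (Or.inl rfl)
      refine ⟨max N n, ?_⟩
      rintro f (rfl | hf)
      · exact hC (le_max_right _ _) hn
      · exact hC (le_max_left _ _) (hN f hf)
  obtain ⟨N, hN⟩ := h2
  refine ⟨N, fun n => ?_⟩
  refine (le_iSup C n).trans ?_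
  rw [hFe]
  exact gspan_le H F _ (hs N) hN

/-- torsion of a finitely generated module with respect to `T` is killed by one element -/
theorem tors_kill (h : PC G) (T : Submonoid (AddMonoid.End M))
    (hT : ∀ a ∈ T, ∀ b ∈ T, a * b = b * a)
    (hTG : ∀ a ∈ T, ∀ g : G, a * ac M g = ac M g * a) (H : Subgroup G)
    (hTs : ∀ a ∈ T, ∀ W : AddSubgroup M, Stb H W → ∀ w ∈ W, a w ∈ W)
    (V K' : AddSubgroup M) (hV : FGM H V) (hK : Stb H K') :
    ∃ c ∈ T, ∀ x ∈ V, (∃ r ∈ T, r x ∈ K') → c x ∈ K' := by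
  have hcom : ∀ a ∈ T, ∀ b ∈ T, ∀ x : M, a (b x) = b (a x) := fun a ha b hb x =>
    congrArg (fun f : AddMonoid.End M => f x) (hT a ha b hb)
  have hcomG : ∀ a ∈ T, ∀ (g : G) (x : M), a (g • x) = g • a x := fun a ha g x =>
    congrArg (fun f : AddMonoid.End M => f x) (hTG a ha g)
  let tors : AddSubgroup M :=
    { carrier := {x | x ∈ V ∧ ∃ r ∈ T, r x ∈ K'}
      zero_mem' := ⟨V.zero_mem, 1, T.one_mem, by simp⟩
      add_mem' := by
        rintro x y ⟨hx, r, hr, hrx⟩ ⟨hy, s, hs, hsy⟩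
        refine ⟨V.add_mem hx hy, r * s, T.mul_mem hr hs, ?_⟩
        have e : (r * s) (x + y) = s (r x) + r (s y) := by
          rw [FL.emul, map_add, map_add, hcom r hr s hs x]
        rw [e]
        exact K'.add_mem (hTs s hs K' hK _ hrx) (hTs r hr K' hK _ hsy)
      neg_mem' := by
        rintro x ⟨hx, r, hr, hrx⟩
        refine ⟨V.neg_mem hx, r, hr, ?_⟩
        rw [map_neg]
        exact K'.neg_mem hrx }
  have hst : Stb H tors := by
    rintro g hg x ⟨hx, r, hr, hrx⟩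
    refine ⟨FGM_stb hV g hg x hx, r, hr, ?_⟩
    rw [hcomG r hr]
    exact hK g hg _ hrx
  obtain ⟨F, hF, hFe⟩ := noeth h H V tors hV hst fun x hx => hx.1
  have h1 : ∀ f ∈ F, ∃ r ∈ T, r f ∈ K' := fun f hf => by
    have : f ∈ tors := by rw [hFe]; exact subset_gspan H F f hf
    exact this.2
  have h2 : ∃ c ∈ T, ∀ f ∈ F, c f ∈ K' := by
    clear hFe
    induction F, hF using Set.Finite.induction_on with
    | empty => exact ⟨1, T.one_mem, by simp⟩
    | @insert a s _ _ ih =>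
      obtain ⟨c, hc, hcf⟩ := ih fun f hf => h1 f (Or.inr hf)
      obtain ⟨r, hr, hra⟩ := h1 a (Or.inl rfl)
      refine ⟨r * c, T.mul_mem hr hc, ?_⟩
      rintro f (rfl | hf)
      · rw [FL.emul, hcom r hr c hc]
        exact hTs c hc K' hK _ hra
      · rw [FL.emul]
        exact hTs r hr K' hK _ (hcf f hf)
  obtain ⟨c, hc, hcf⟩ := h2
  refine ⟨c, hc, fun x hx hr => ?_⟩
  have hxt : x ∈ tors := ⟨hx, hr⟩
  rw [hFe] at hxt
  unfold gspan at hxt
  induction hxt using AddSubgroup.closure_induction with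
  | mem x hx' =>
    obtain ⟨k, hk, f, hf, rfl⟩ := hx'
    rw [hcomG c hc]
    exact hK k hk _ (hcf f hf)
  | zero => rw [map_zero]; exact K'.zero_mem
  | add x y hx1 hy1 h3 h4 =>
    have hx2 : x ∈ tors := by rw [hFe]; exact hx1
    have hy2 : y ∈ tors := by rw [hFe]; exact hy1
    rw [map_add]
    exact K'.add_mem (h3 hx2.1 hx2.2) (h4 hy2.1 hy2.2)
  | neg x hx1 h3 =>
    have hx2 : x ∈ tors := by rw [hFe]; exact hx1
    rw [map_neg]
    exact K'.neg_mem (h3 hx2.1 hx2.2)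

/-- image of an additive subgroup under a group element -/
def sm (g : G) (V : AddSubgroup M) : AddSubgroup M :=
  V.map (DistribMulAction.toAddMonoidHom M g)

theorem mem_sm {g : G} {V : AddSubgroup M} {m : M} : m ∈ sm g V ↔ g⁻¹ • m ∈ V := by
  constructor
  · rintro ⟨v, hv, rfl⟩
    have : g⁻¹ • (DistribMulAction.toAddMonoidHom M g) v = v := inv_smul_smul g v
    rw [this]; exact hv
  · intro hm
    exact ⟨g⁻¹ • m, hm, smul_inv_smul g m⟩

theorem smul_mem_sm {g : G} {V : AddSubgroup M} {m : M} (hm : m ∈ V) : g • m ∈ sm g V :=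
  ⟨m, hm, rfl⟩

/-- `a` normalises `K` -/
def Nrm (K : Subgroup G) (a : G) : Prop := ∀ h : G, h ∈ K ↔ a * h * a⁻¹ ∈ K

theorem Nrm.one (K : Subgroup G) : Nrm K 1 := fun h => by simp

theorem Nrm.mul {K : Subgroup G} {a b : G} (ha : Nrm K a) (hb : Nrm K b) : Nrm K (a * b) :=
  fun h => by
    rw [hb h, ha (b * h * b⁻¹)]
    have : a * (b * h * b⁻¹) * a⁻¹ = a * b * h * (a * b)⁻¹ := by group
    rw [this]

theorem Nrm.inv {K : Subgroup G} {a : G} (ha : Nrm K a) : Nrm K a⁻¹ := fun h => by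
  rw [ha (a⁻¹ * h * a⁻¹⁻¹)]
  have : a * (a⁻¹ * h * a⁻¹⁻¹) * a⁻¹ = h := by group
  rw [this]

theorem Nrm.pow {K : Subgroup G} {a : G} (ha : Nrm K a) (n : ℕ) : Nrm K (a ^ n) := by
  induction n with
  | zero => rw [pow_zero]; exact Nrm.one K
  | succ n ih => rw [pow_succ]; exact ih.mul ha

theorem sm_stb {K : Subgroup G} {a : G} (ha : Nrm K a) {V : AddSubgroup M} (hV : Stb K V) :
    Stb K (sm a V) := by
  intro k hk x hx
  rw [mem_sm] at hx ⊢
  have e : a⁻¹ • k • x = (a⁻¹ * k * a) • (a⁻¹ • x) := by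
    rw [smul_smul, smul_smul]; congr 1; group
  rw [e]
  have h1 : a⁻¹ * k * a ∈ K := by
    have := (ha.inv k).1 hk
    simpa using this
  exact hV _ h1 _ hx

/-- `W n = ∑_{l ≤ n} g^l Y` -/
def Wn (g : G) (Y : AddSubgroup M) : ℕ → AddSubgroup M
  | 0 => Y
  | n + 1 => Wn g Y n ⊔ sm (g ^ (n + 1)) Y

theorem Wn_mono (g : G) (Y : AddSubgroup M) : Monotone (Wn g Y) :=
  monotone_nat_of_le_succ fun _ => le_sup_left

theorem Wn_stb {K : Subgroup G} {g : G} (hg : Nrm K g) {Y : AddSubgroup M} (hY : Stb K Y) (n : ℕ) :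
    Stb K (Wn g Y n) := by
  induction n with
  | zero => exact hY
  | succ n ih => exact stb_sup ih (sm_stb (hg.pow _) hY)

theorem pow_smul_mem (g : G) (Y : AddSubgroup M) (n : ℕ) (y : M) (hy : y ∈ Y) :
    g ^ n • y ∈ Wn g Y n := by
  cases n with
  | zero => rw [pow_zero, one_smul]; exact hy
  | succ n => exact AddSubgroup.mem_sup_right (smul_mem_sm hy)

theorem smul_Wn (g : G) (Y : AddSubgroup M) (n : ℕ) (x : M) (hx : x ∈ Wn g Y n) :
    g • x ∈ Wn g Y (n + 1) := by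
  induction n generalizing x with
  | zero =>
    have := pow_smul_mem g Y 1 x hx
    rwa [pow_one] at this
  | succ n ih =>
    obtain ⟨w, hw, y, hy, rfl⟩ := AddSubgroup.mem_sup.1 hx
    rw [smul_add]
    refine AddSubgroup.add_mem _ (Wn_mono g Y (Nat.le_succ _) (ih w hw)) ?_
    obtain ⟨z, hz, rfl⟩ := hy
    have e : g • (DistribMulAction.toAddMonoidHom M (g ^ (n + 1))) z = g ^ (n + 1 + 1) • z := by
      change g • g ^ (n + 1) • z = _
      rw [smul_smul, ← pow_succ']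
    rw [e]
    exact pow_smul_mem g Y _ z hz

/-- `W = ⋃ W n` -/
def Winf (g : G) (Y : AddSubgroup M) : AddSubgroup M := ⨆ n, Wn g Y n

theorem mem_Winf {g : G} {Y : AddSubgroup M} {x : M} : x ∈ Winf g Y ↔ ∃ n, x ∈ Wn g Y n :=
  AddSubgroup.mem_iSup_of_directed (Wn_mono g Y).directed_le

theorem Winf_stb {K : Subgroup G} {g : G} (hg : Nrm K g) {Y : AddSubgroup M} (hY : Stb K Y) :
    Stb K (Winf g Y) := by
  intro k hk x hx
  obtain ⟨n, hn⟩ := mem_Winf.1 hx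
  exact mem_Winf.2 ⟨n, Wn_stb hg hY n k hk x hn⟩

theorem smul_Winf (g : G) (Y : AddSubgroup M) (x : M) (hx : x ∈ Winf g Y) :
    g • x ∈ Winf g Y := by
  obtain ⟨n, hn⟩ := mem_Winf.1 hx
  exact mem_Winf.2 ⟨n + 1, smul_Wn g Y n x hn⟩

theorem Winf_dec (g : G) (Y : AddSubgroup M) (x : M) (hx : x ∈ Winf g Y) :
    ∃ y ∈ Y, ∃ w ∈ Winf g Y, x = y + g • w := by
  obtain ⟨n, hn⟩ := mem_Winf.1 hx
  clear hx
  induction n generalizing x with
  | zero => exact ⟨x, hn, 0, AddSubgroup.zero_mem _, by simp⟩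
  | succ n ih =>
    obtain ⟨w, hw, y, hy, rfl⟩ := AddSubgroup.mem_sup.1 hn
    obtain ⟨y1, hy1, w1, hw1, rfl⟩ := ih w hw
    obtain ⟨z, hz, rfl⟩ := hy
    refine ⟨y1, hy1, w1 + g ^ n • z, AddSubgroup.add_mem _ hw1
      (mem_Winf.2 ⟨n, pow_smul_mem g Y n z hz⟩), ?_⟩
    have e : (DistribMulAction.toAddMonoidHom M (g ^ (n + 1))) z = g • g ^ n • z := by
      change g ^ (n + 1) • z = _
      rw [smul_smul, ← pow_succ']
    rw [e, smul_add, add_assoc]

/-- `U = ⋃ g^{-m} W` -/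
def Uu (g : G) (Y : AddSubgroup M) : AddSubgroup M := ⨆ m : ℕ, sm (g⁻¹ ^ m) (Winf g Y)

theorem mem_smW {g : G} {Y : AddSubgroup M} {m : ℕ} {x : M} :
    x ∈ sm (g⁻¹ ^ m) (Winf g Y) ↔ g ^ m • x ∈ Winf g Y := by
  rw [mem_sm]
  have : (g⁻¹ ^ m)⁻¹ = g ^ m := by rw [inv_pow, inv_inv]
  rw [this]

theorem smW_mono (g : G) (Y : AddSubgroup M) : Monotone fun m : ℕ => sm (g⁻¹ ^ m) (Winf g Y) :=
  monotone_nat_of_le_succ fun m x hx => by
    rw [mem_smW] at hx ⊢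
    rw [pow_succ', mul_smul]
    exact smul_Winf g Y _ hx

theorem mem_Uu {g : G} {Y : AddSubgroup M} {x : M} : x ∈ Uu g Y ↔ ∃ m : ℕ, g ^ m • x ∈ Winf g Y := by
  unfold Uu
  rw [AddSubgroup.mem_iSup_of_directed (smW_mono g Y).directed_le]
  exact exists_congr fun m => mem_smW

theorem Uu_stb {K : Subgroup G} {g : G} (hg : Nrm K g) {Y : AddSubgroup M} (hY : Stb K Y) :
    Stb (K ⊔ Subgroup.zpowers g) (Uu g Y) := by
  let S : Subgroup G :=
    { carrier := {k | (∀ u ∈ Uu g Y, k • u ∈ Uu g Y) ∧ ∀ u ∈ Uu g Y, k⁻¹ • u ∈ Uu g Y}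
      one_mem' := ⟨fun u hu => by simpa using hu, fun u hu => by simpa using hu⟩
      mul_mem' := by
        rintro a b ⟨ha, ha'⟩ ⟨hb, hb'⟩
        refine ⟨fun u hu => ?_, fun u hu => ?_⟩
        · rw [mul_smul]; exact ha _ (hb u hu)
        · rw [mul_inv_rev, mul_smul]; exact hb' _ (ha' u hu)
      inv_mem' := by
        rintro a ⟨ha, ha'⟩
        exact ⟨ha', by simpa using ha⟩ }
  have hK : ∀ k ∈ K, ∀ u ∈ Uu g Y, k • u ∈ Uu g Y := by
    intro k hk u hu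
    obtain ⟨m, hm⟩ := mem_Uu.1 hu
    refine mem_Uu.2 ⟨m, ?_⟩
    have e : g ^ m • k • u = (g ^ m * k * (g ^ m)⁻¹) • g ^ m • u := by
      rw [smul_smul, smul_smul]; congr 1; group
    rw [e]
    exact Winf_stb hg hY _ ((hg.pow m k).1 hk) _ hm
  have hle : K ⊔ Subgroup.zpowers g ≤ S := by
    refine sup_le (fun k hk => ⟨hK k hk, hK k⁻¹ (K.inv_mem hk)⟩) ?_
    rw [Subgroup.zpowers_le]
    refine ⟨fun u hu => ?_, fun u hu => ?_⟩
    · obtain ⟨m, hm⟩ := mem_Uu.1 hu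
      refine mem_Uu.2 ⟨m, ?_⟩
      have e : g ^ m • g • u = g • g ^ m • u := by
        rw [smul_smul, smul_smul, ← pow_succ, ← pow_succ']
      rw [e]
      exact smul_Winf g Y _ hm
    · obtain ⟨m, hm⟩ := mem_Uu.1 hu
      refine mem_Uu.2 ⟨m + 1, ?_⟩
      have e : g ^ (m + 1) • g⁻¹ • u = g ^ m • u := by
        rw [smul_smul]; congr 1; rw [pow_succ]; group
      rw [e]
      exact hm
  exact fun k hk u hu => (hle hk).1 u hu

/-- one cyclic step -/
theorem fl_step (h : PC G) (T : Submonoid (AddMonoid.End M))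
    (hT : ∀ a ∈ T, ∀ b ∈ T, a * b = b * a)
    (hTG : ∀ a ∈ T, ∀ g : G, a * ac M g = ac M g * a) (K : Subgroup G)
    (hTs : ∀ a ∈ T, ∀ W : AddSubgroup M, Stb K W → ∀ w ∈ W, a w ∈ W)
    (g : G) (hg : Nrm K g) (F : Set M) (hF : F.Finite) :
    ∃ c ∈ T, ∀ x ∈ gspan (K ⊔ Subgroup.zpowers g) F, (∃ r ∈ T, r x ∈ gspan K F) →
      ∃ k, (c ^ k) x ∈ gspan K F := by
  have hcom : ∀ a ∈ T, ∀ b ∈ T, ∀ x : M, a (b x) = b (a x) := fun a ha b hb x =>
    congrArg (fun f : AddMonoid.End M => f x) (hT a ha b hb)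
  have hcomG : ∀ a ∈ T, ∀ (g : G) (x : M), a (g • x) = g • a x := fun a ha g x =>
    congrArg (fun f : AddMonoid.End M => f x) (hTG a ha g)
  set Y : AddSubgroup M := gspan K F with hYdef
  have hYf : FGM K Y := ⟨F, hF, rfl⟩
  have hYs : Stb K Y := gspan_stb K F
  -- part A
  obtain ⟨c1, hc1, hA⟩ : ∃ c ∈ T, ∀ n, ∀ x ∈ Wn g Y n, (∃ r ∈ T, r x ∈ Y) → (c ^ n) x ∈ Y := by
    let C : ℕ → AddSubgroup M := fun n => Y ⊓ sm (g ^ (n + 1))⁻¹ (Wn g Y n)
    have hCmem : ∀ n x, x ∈ C n ↔ x ∈ Y ∧ g ^ (n + 1) • x ∈ Wn g Y n := fun n x => by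
      change x ∈ Y ∧ x ∈ sm (g ^ (n + 1))⁻¹ (Wn g Y n) ↔ _
      rw [mem_sm, inv_inv]
    have hCs : ∀ n, Stb K (C n) := fun n =>
      stb_inf hYs (sm_stb (hg.pow _).inv (Wn_stb hg hYs n))
    have hCm : Monotone C := monotone_nat_of_le_succ fun n x hx => by
      rw [hCmem] at hx ⊢
      refine ⟨hx.1, ?_⟩
      rw [pow_succ', mul_smul]
      exact smul_Wn g Y n _ hx.2
    obtain ⟨N, hN⟩ := chain_stab h K Y hYf C hCm hCs fun n => inf_le_left
    have hkill : ∀ N', ∃ c ∈ T, ∀ n ≤ N', ∀ x ∈ Y, (∃ r ∈ T, r x ∈ C n) → c x ∈ C n := by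
      intro N'
      induction N' with
      | zero =>
        obtain ⟨c, hc, hc'⟩ := tors_kill h T hT hTG K hTs Y (C 0) hYf (hCs 0)
        refine ⟨c, hc, fun n hn => ?_⟩
        obtain rfl : n = 0 := by omega
        exact hc'
      | succ m ih =>
        obtain ⟨c, hc, hc'⟩ := ih
        obtain ⟨d, hd, hd'⟩ := tors_kill h T hT hTG K hTs Y (C (m + 1)) hYf (hCs (m + 1))
        refine ⟨c * d, T.mul_mem hc hd, fun n hn x hx hr => ?_⟩
        rw [FL.emul]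
        rcases Nat.lt_or_ge n (m + 1) with h1 | h1
        · rw [hcom c hc d hd]
          exact hTs d hd _ (hCs n) _ (hc' n (by omega) x hx hr)
        · obtain rfl : n = m + 1 := by omega
          exact hTs c hc _ (hCs _) _ (hd' x hx hr)
    obtain ⟨c, hc, hc'⟩ := hkill N
    have hc2 : ∀ n, ∀ x ∈ Y, (∃ r ∈ T, r x ∈ C n) → c x ∈ C n := by
      intro n x hx hr
      rcases Nat.lt_or_ge N n with h1 | h1
      · obtain ⟨r, hr, hrx⟩ := hr
        exact hCm h1.le (hc' N le_rfl x hx ⟨r, hr, hN n hrx⟩)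
      · exact hc' n h1 x hx hr
    refine ⟨c, hc, fun n => ?_⟩
    induction n with
    | zero => intro x hx _; exact hx
    | succ n ih =>
      rintro x hx ⟨r, hr, hrx⟩
      obtain ⟨w, hw, y', hy', rfl⟩ := AddSubgroup.mem_sup.1 hx
      obtain ⟨y, hy, rfl⟩ := hy'
      have ey : (DistribMulAction.toAddMonoidHom M (g ^ (n + 1))) y = g ^ (n + 1) • y := rfl
      rw [ey] at hrx hx ⊢
      have h1 : g ^ (n + 1) • r y ∈ Wn g Y n := by
        rw [← hcomG r hr]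
        have e : r (g ^ (n + 1) • y) = r (w + g ^ (n + 1) • y) - r w := by
          rw [map_add]; abel
        rw [e]
        exact AddSubgroup.sub_mem _ (Wn_mono g Y (Nat.zero_le n) hrx)
          (hTs r hr _ (Wn_stb hg hYs n) _ hw)
      have h2 : c y ∈ C n := hc2 n y hy ⟨r, hr, (hCmem n _).2 ⟨hTs r hr _ hYs _ hy, h1⟩⟩
      have h3 : c (w + g ^ (n + 1) • y) ∈ Wn g Y n := by
        rw [map_add, hcomG c hc]
        exact AddSubgroup.add_mem _ (hTs c hc _ (Wn_stb hg hYs n) _ hw) ((hCmem n _).1 h2).2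
      rw [pow_succ, FL.emul]
      refine ih _ h3 ⟨r, hr, ?_⟩
      rw [hcom r hr c hc]
      exact hTs c hc _ hYs _ hrx
  -- part B
  obtain ⟨c2, hc2, hB⟩ : ∃ c ∈ T, ∀ m : ℕ, ∀ x, g ^ m • x ∈ Winf g Y →
      (∃ r ∈ T, r x ∈ Winf g Y) → (c ^ m) x ∈ Winf g Y := by
    obtain ⟨c, hc, hc'⟩ := tors_kill h T hT hTG K hTs Y (Y ⊓ sm g (Winf g Y)) hYf
      (stb_inf hYs (sm_stb hg (Winf_stb hg hYs)))
    have hWs : Stb K (Winf g Y) := Winf_stb hg hYs
    refine ⟨c, hc, fun m => ?_⟩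
    induction m with
    | zero => intro x hx _; simpa using hx
    | succ m ih =>
      rintro x hx ⟨r, hr, hrx⟩
      obtain ⟨y, hy, w, hw, hyw⟩ := Winf_dec g Y _ hx
      -- `r y ∈ g W`
      have h1 : r y ∈ sm g (Winf g Y) := by
        have e : r y = r (g ^ (m + 1) • x) - r (g • w) := by
          rw [hyw, map_add]; abel
        rw [e, hcomG r hr, hcomG r hr]
        refine AddSubgroup.sub_mem _ ?_ (smul_mem_sm (hTs r hr _ hWs _ hw))
        rw [pow_succ', mul_smul]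
        refine smul_mem_sm ?_
        have : ∀ k : ℕ, g ^ k • r x ∈ Winf g Y := by
          intro k
          induction k with
          | zero => simpa using hrx
          | succ k ihk => rw [pow_succ', mul_smul]; exact smul_Winf g Y _ ihk
        exact this m
      have h2 : g⁻¹ • c y ∈ Winf g Y :=
        mem_sm.1 (hc' y hy ⟨r, hr, hTs r hr _ hYs _ hy, h1⟩).2
      have h3 : g ^ m • c x ∈ Winf g Y := by
        have e : g ^ m • c x = g⁻¹ • c y + c w := by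
          have e1 : c (g ^ (m + 1) • x) = c y + c (g • w) := by rw [hyw, map_add]
          rw [hcomG c hc, hcomG c hc] at e1
          have e2 : g ^ m • c x = g⁻¹ • g ^ (m + 1) • c x := by
            rw [smul_smul]; congr 1; rw [pow_succ']; group
          rw [e2, e1, smul_add, inv_smul_smul]
        rw [e]
        exact AddSubgroup.add_mem _ h2 (hTs c hc _ hWs _ hw)
      rw [pow_succ, FL.emul]
      refine ih _ h3 ⟨r, hr, ?_⟩
      rw [hcom r hr c hc]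
      exact hTs c hc _ hWs _ hrx
  refine ⟨c1 * c2, T.mul_mem hc1 hc2, ?_⟩
  rintro x hx ⟨r, hr, hrx⟩
  have hxU : x ∈ Uu g Y := by
    refine gspan_le _ F (Uu g Y) (Uu_stb hg hYs) (fun f hf => ?_) hx
    refine mem_Uu.2 ⟨0, ?_⟩
    rw [pow_zero, one_smul]
    exact mem_Winf.2 ⟨0, subset_gspan K F f hf⟩
  obtain ⟨m, hm⟩ := mem_Uu.1 hxU
  have hYW : Y ≤ Winf g Y := fun y hy => mem_Winf.2 ⟨0, hy⟩
  have h1 := hB m x hm ⟨r, hr, hYW hrx⟩
  obtain ⟨n, hn⟩ := mem_Winf.1 h1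
  have hpow : ∀ a ∈ T, ∀ k : ℕ, a ^ k ∈ T := fun a ha k => T.pow_mem ha k
  have h2 := hA n _ hn ⟨r, hr, by
    rw [hcom r hr _ (hpow c2 hc2 m)]
    exact hTs _ (hpow c2 hc2 m) _ hYs _ hrx⟩
  refine ⟨m + n, ?_⟩
  have e : ((c1 * c2) ^ (m + n)) x = (c1 ^ m) ((c2 ^ n) ((c1 ^ n) ((c2 ^ m) x))) := by
    have hc12 : Commute c1 c2 := hT c1 hc1 c2 hc2
    rw [hc12.mul_pow, FL.emul, pow_add, pow_add, FL.emul,
      FL.emul]
    congr 1
    rw [hcom _ (hpow c2 hc2 n) _ (hpow c1 hc1 n)]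
    congr 1
    rw [hcom _ (hpow c2 hc2 m) _ (hpow c2 hc2 n)]
  rw [e]
  exact hTs _ (hpow c1 hc1 m) _ hYs _ (hTs _ (hpow c2 hc2 n) _ hYs _ h2)

end FL

theorem fl (h : PC G) (T : Submonoid (AddMonoid.End M)) (hT : ∀ a ∈ T, ∀ b ∈ T, a * b = b * a)
    (hTG : ∀ a ∈ T, ∀ g : G, a * ac M g = ac M g * a) (H K : Subgroup G) (hHK : CChain H K)
    (hTs : ∀ a ∈ T, ∀ W : AddSubgroup M, Stb H W → ∀ w ∈ W, a w ∈ W)
    (Y X : AddSubgroup M) (hY : FGM H Y) (hX : FGM K X) :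
    ∃ c ∈ T, ∀ x ∈ X, (∃ r ∈ T, r x ∈ Y) → ∃ k, (c ^ k) x ∈ Y := by
  have hcom : ∀ a ∈ T, ∀ b ∈ T, ∀ x : M, a (b x) = b (a x) := fun a ha b hb x =>
    congrArg (fun f : AddMonoid.End M => f x) (hT a ha b hb)
  have hHle : ∀ K' : Subgroup G, CChain H K' → H ≤ K' := by
    intro K' hK'
    induction hK' with
    | refl => exact le_rfl
    | tail _ hs ih =>
      obtain ⟨g, _, rfl⟩ := hs
      exact ih.trans le_sup_left
  induction hHK generalizing X with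
  | refl =>
    obtain ⟨c, hc, hc'⟩ := FL.tors_kill h T hT hTG H hTs (X ⊔ Y) Y (FL.FGM_sup hX hY)
      (FL.FGM_stb hY)
    exact ⟨c, hc, fun x hx hr => ⟨1, by
      rw [pow_one]; exact hc' x (AddSubgroup.mem_sup_left hx) hr⟩⟩
  | @tail K0 K1 hK0 hs ih =>
    obtain ⟨g, hg, rfl⟩ := hs
    have hHK0 := hHle K0 hK0
    obtain ⟨FY, hFY, rfl⟩ := hY
    obtain ⟨FX, hFX, rfl⟩ := hX
    have hTs0 : ∀ a ∈ T, ∀ W : AddSubgroup M, Stb K0 W → ∀ w ∈ W, a w ∈ W :=
      fun a ha W hW => hTs a ha W (FL.stb_mono hHK0 hW)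
    obtain ⟨c2, hc2, hst⟩ := FL.fl_step h T hT hTG K0 hTs0 g hg (FY ∪ FX) (hFY.union hFX)
    obtain ⟨c1, hc1, hih⟩ := ih (gspan K0 (FY ∪ FX)) ⟨_, hFY.union hFX, rfl⟩
    refine ⟨c1 * c2, T.mul_mem hc1 hc2, ?_⟩
    rintro x hx ⟨r, hr, hrx⟩
    have hx1 : x ∈ gspan (K0 ⊔ Subgroup.zpowers g) (FY ∪ FX) :=
      FL.gspan_le _ FX _ (FL.gspan_stb _ _) (fun f hf => FL.subset_gspan _ _ f (Or.inr hf)) hx
    have hY0 : gspan H FY ≤ gspan K0 (FY ∪ FX) :=
      FL.gspan_le _ FY _ (FL.stb_mono hHK0 (FL.gspan_stb _ _))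
        (fun f hf => FL.subset_gspan _ _ f (Or.inl hf))
    obtain ⟨k, hk⟩ := hst x hx1 ⟨r, hr, hY0 hrx⟩
    have hYs : Stb H (gspan H FY) := FL.gspan_stb _ _
    have hpow : ∀ a ∈ T, ∀ k : ℕ, a ^ k ∈ T := fun a ha k => T.pow_mem ha k
    obtain ⟨l, hl⟩ := hih _ hk ⟨r, hr, by
      rw [hcom r hr _ (hpow c2 hc2 k)]
      exact hTs _ (hpow c2 hc2 k) _ hYs _ hrx⟩
    refine ⟨k + l, ?_⟩
    have e : ((c1 * c2) ^ (k + l)) x = (c1 ^ k) ((c2 ^ l) ((c1 ^ l) ((c2 ^ k) x))) := by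
      have hc12 : Commute c1 c2 := hT c1 hc1 c2 hc2
      rw [hc12.mul_pow, FL.emul, pow_add, pow_add, FL.emul,
        FL.emul]
      congr 1
      rw [hcom _ (hpow c2 hc2 l) _ (hpow c1 hc1 l)]
      congr 1
      rw [hcom _ (hpow c2 hc2 k) _ (hpow c2 hc2 l)]
    rw [e]
    exact hTs _ (hpow c1 hc1 k) _ hYs _ (hTs _ (hpow c2 hc2 l) _ hYs _ hl)

end fl

end Pool.Agent.Polc
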