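import Mathlib
import Pool.Agent.Polc.Defs

/-!
Module `GOOD` for `MP_9e8505_al`: elementary closure properties of the periodicity condition.
-/

set_option autoImplicit false

namespace Pool.Agent.Polc

section mod

variable {G M : Type} [Group G] [AddCommGroup M] [DistribMulAction G M]

open Polynomial in
lemma good_aev (x : G) (n r : ℕ) :
    ((ac M (x ^ n) - 1) ^ r : AddMonoid.End M) = aeval (ac M x) ((X ^ n - 1 : ℤ[X]) ^ r) := by
  simp [map_pow]

open Polynomial in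
lemma good_aev_mem (x : G) (K : AddSubgroup M) (hK : ∀ v ∈ K, x • v ∈ K) (p : ℤ[X]) :
    ∀ v ∈ K, (aeval (ac M x) p : AddMonoid.End M) v ∈ K := by
  induction p using Polynomial.induction_on with
  | C a =>
    intro v hv
    have h1 : (aeval (ac M x) (C a) : AddMonoid.End M) v = a • v := by
      rw [aeval_C]
      simp
    rw [h1]
    exact K.zsmul_mem hv a
  | add p q hp hq =>
    intro v hv
    rw [map_add]
    exact K.add_mem (hp v hv) (hq v hv)
  | monomial n a ih =>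
    intro v hv
    have h1 : (aeval (ac M x) (C a * X ^ (n + 1)) : AddMonoid.End M) v =
        x • ((aeval (ac M x) (C a * X ^ n) : AddMonoid.End M) v) := by
      have h2 : (C a * X ^ (n + 1) : ℤ[X]) = X * (C a * X ^ n) := by ring
      rw [h2, map_mul, aeval_X]
      rfl
    rw [h1]
    exact hK _ (ih v hv)

open Polynomial in
lemma good_aev_mul (x : G) (p q : ℤ[X]) (v : M) :
    (aeval (ac M x) (p * q) : AddMonoid.End M) v =
      (aeval (ac M x) p : AddMonoid.End M) ((aeval (ac M x) q : AddMonoid.End M) v) := by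
  rw [map_mul]
  rfl

open Polynomial in
/-- transport of membership along divisibility -/
lemma good_aev_dvd (x : G) (K : AddSubgroup M) (hK : ∀ v ∈ K, x • v ∈ K) (p q : ℤ[X])
    (hpq : p ∣ q) (v : M) (hv : (aeval (ac M x) p : AddMonoid.End M) v ∈ K) :
    (aeval (ac M x) q : AddMonoid.End M) v ∈ K := by
  obtain ⟨t, rfl⟩ := hpq
  rw [mul_comm, good_aev_mul]
  exact good_aev_mem x K hK t _ hv

open Polynomial in
lemma good_dvd (a b r : ℕ) (hab : a ∣ b) : ((X ^ a - 1 : ℤ[X]) ^ r) ∣ ((X ^ b - 1 : ℤ[X]) ^ r) := by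
  apply pow_dvd_pow_of_dvd
  obtain ⟨c, rfl⟩ := hab
  have h := sub_dvd_pow_sub_pow (X ^ a : ℤ[X]) 1 c
  rwa [one_pow, ← pow_mul] at h

open Polynomial in
theorem good_ext (H : Subgroup G) (W K K0 : AddSubgroup M) (hK0 : Stb H K0)
    (h1 : GoodOn H W K) (h2 : GoodOn H K K0) (hle : K0 ≤ K) : GoodOn H W K0 := by
  obtain ⟨e1, k1, he1, h1⟩ := h1
  obtain ⟨e2, k2, he2, h2⟩ := h2
  refine ⟨e1 * e2, k1 + k2, Nat.mul_pos he1 he2, ?_⟩
  intro x hx m hm n r hn hm0
  have hst : ∀ v ∈ K0, x • v ∈ K0 := fun v hv => hK0 x hx v hv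
  have hy := h1 x hx m hm n r hn (hle hm0)
  have hy2 : ((ac M (x ^ n) - 1) ^ r : AddMonoid.End M)
      (((ac M (x ^ e1) - 1) ^ k1 : AddMonoid.End M) m) ∈ K0 := by
    rw [good_aev] at hm0 ⊢
    rw [good_aev x e1 k1, ← good_aev_mul, mul_comm, good_aev_mul]
    exact good_aev_mem x K0 hst _ _ hm0
  have hz := h2 x hx _ hy n r hn hy2
  rw [good_aev, good_aev x e1 k1, ← good_aev_mul] at hz
  rw [good_aev]
  refine good_aev_dvd x K0 hst _ _ ?_ m hz
  rw [pow_add, mul_comm]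
  exact mul_dvd_mul (good_dvd _ _ _ (Dvd.intro _ rfl)) (good_dvd _ _ _ (Dvd.intro_left _ rfl))

theorem good_sub (H H' : Subgroup G) (W W' K : AddSubgroup M) (hH : H' ≤ H) (hW : W' ≤ W)
    (h : GoodOn H W K) : GoodOn H' W' K := by
  obtain ⟨e, k, he, h⟩ := h
  exact ⟨e, k, he, fun x hx m hm n r hn hm0 => h x (hH hx) m (hW hm) n r hn hm0⟩

open Polynomial in
theorem good_fi (H0 H : Subgroup G) (hle : H0 ≤ H) (hi : H0.relIndex H ≠ 0)
    (W K : AddSubgroup M) (hK : Stb H K) (h : GoodOn H0 W K) : GoodOn H W K := by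
  obtain ⟨e, k, he, h⟩ := h
  have hf : 0 < (H0.relIndex H).factorial := Nat.factorial_pos _
  refine ⟨(H0.relIndex H).factorial * e, k, Nat.mul_pos hf he, ?_⟩
  intro x hx m hm n r hn hm0
  have hst : ∀ v ∈ K, x • v ∈ K := fun v hv => hK x hx v hv
  have hxk : x ^ (H0.relIndex H).factorial ∈ H0 := by
    obtain ⟨j, hj0, hj1, hj2⟩ := Subgroup.exists_pow_mem_of_relIndex_ne_zero hi hx
    obtain ⟨c, hc⟩ := Nat.dvd_factorial hj0 hj1
    rw [hc, pow_mul]
    exact H0.pow_mem hj2.1 c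
  have h3 := h (x ^ (H0.relIndex H).factorial) hxk m hm n r hn (by
    rw [← pow_mul, good_aev]
    rw [good_aev] at hm0
    exact good_aev_dvd x K hst _ _ (good_dvd _ _ _ (Dvd.intro_left _ rfl)) m hm0)
  rw [← pow_mul] at h3
  exact h3

theorem good_sup (H : Subgroup G) (W1 W2 : AddSubgroup M) (s1 : Stb H W1) (s2 : Stb H W2)
    (h1 : GoodOn H W1 ⊥) (h2 : GoodOn H W2 ⊥) (hd : W1 ⊓ W2 = ⊥) : GoodOn H (W1 ⊔ W2) ⊥ := by
  refine good_ext H (W1 ⊔ W2) W1 ⊥ ?_ ?_ h1 bot_le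
  · intro x _ v hv
    rw [AddSubgroup.mem_bot] at hv ⊢
    rw [hv, smul_zero]
  · obtain ⟨e, k, he, h⟩ := h2
    refine ⟨e, k, he, ?_⟩
    intro x hx m hm n r hn hm0
    have t1 : ∀ v ∈ W1, x • v ∈ W1 := fun v hv => s1 x hx v hv
    have t2 : ∀ v ∈ W2, x • v ∈ W2 := fun v hv => s2 x hx v hv
    obtain ⟨m1, hm1, m2, hm2, rfl⟩ := AddSubgroup.mem_sup.1 hm
    have h3 : ((ac M (x ^ n) - 1) ^ r : AddMonoid.End M) m2 ∈ (⊥ : AddSubgroup M) := by
      rw [← hd, AddSubgroup.mem_inf]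
      constructor
      · have h4 : ((ac M (x ^ n) - 1) ^ r : AddMonoid.End M) m2 =
            ((ac M (x ^ n) - 1) ^ r : AddMonoid.End M) (m1 + m2) -
              ((ac M (x ^ n) - 1) ^ r : AddMonoid.End M) m1 := by
          rw [map_add, add_sub_cancel_left]
        rw [h4]
        refine W1.sub_mem hm0 ?_
        rw [good_aev]
        exact good_aev_mem x W1 t1 _ _ hm1
      · rw [good_aev]
        exact good_aev_mem x W2 t2 _ _ hm2
    have h5 := h x hx m2 hm2 n r hn h3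
    rw [AddSubgroup.mem_bot] at h5
    rw [map_add, h5, add_zero, good_aev]
    exact good_aev_mem x W1 t1 _ _ hm1

lemma good_conj_aux (g x : G) (n r : ℕ) : ∀ m : M,
    ((ac M ((g * x * g⁻¹) ^ n) - 1) ^ r : AddMonoid.End M) (g • m) =
      g • (((ac M (x ^ n) - 1) ^ r : AddMonoid.End M) m) := by
  induction r with
  | zero =>
    intro m
    simp
  | succ r ih =>
    intro m
    have h1 : ((ac M ((g * x * g⁻¹) ^ n) - 1) : AddMonoid.End M) (g • m) =
        g • (((ac M (x ^ n) - 1) : AddMonoid.End M) m) := by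
      show (g * x * g⁻¹) ^ n • (g • m) - g • m = g • (x ^ n • m - m)
      rw [conj_pow, smul_sub, smul_smul, smul_smul]
      congr 2
      group
    have h2 : ((ac M ((g * x * g⁻¹) ^ n) - 1) ^ (r + 1) : AddMonoid.End M) (g • m) =
        ((ac M ((g * x * g⁻¹) ^ n) - 1) ^ r : AddMonoid.End M)
          (((ac M ((g * x * g⁻¹) ^ n) - 1) : AddMonoid.End M) (g • m)) := by
      rw [pow_succ]
      rfl
    have h3 : ((ac M (x ^ n) - 1) ^ (r + 1) : AddMonoid.End M) m =
        ((ac M (x ^ n) - 1) ^ r : AddMonoid.End M) (((ac M (x ^ n) - 1) : AddMonoid.End M) m) := by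
      rw [pow_succ]
      rfl
    rw [h2, h1, ih, h3]

theorem good_conj (H : Subgroup G) (g : G) (W K : AddSubgroup M) (h : GoodOn H W K)
    (W' K' : AddSubgroup M) (hW : ∀ m, m ∈ W ↔ g • m ∈ W') (hK : ∀ m, m ∈ K ↔ g • m ∈ K') :
    GoodOn (H.map (MulAut.conj g).toMonoidHom) W' K' := by
  obtain ⟨e, k, he, h⟩ := h
  refine ⟨e, k, he, ?_⟩
  rintro x' ⟨x, hx, rfl⟩ m' hm' n r hn hm0
  have hm : m' = g • (g⁻¹ • m') := (smul_inv_smul g m').symm
  have hx' : (MulAut.conj g).toMonoidHom x = g * x * g⁻¹ := rfl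
  rw [hx', hm, good_conj_aux, ← hK] at hm0
  rw [hx', hm, good_conj_aux, ← hK]
  refine h x hx _ ?_ n r hn hm0
  rw [hW, smul_inv_smul]
  exact hm'

end mod

end Pool.Agent.Polc
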