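import Pool.Agent.Polc.Defs
import Pool.Agent.Polc.PCB1
import Pool.Agent.Polc.HLM

/-!
Module IHM (helper38) for `MP_9e8505_al`: use of the induction hypothesis for relative modules
and for modules on which an infinite normal subgroup acts trivially.
-/

set_option autoImplicit false

namespace Pool.Agent.Polc

section mod
variable {G M : Type} [Group G] [AddCommGroup M] [DistribMulAction G M]

/-- transfer of finite generation along a surjective equivariant map -/
theorem ihm_fg {H' Q : Type} [Group H'] [AddCommGroup Q] [DistribMulAction H' Q]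
    (H : Subgroup G) (V : AddSubgroup M) (hV : Stb H V) (K : AddSubgroup M)
    (π : H → H') (f : V →+ Q) (hf : Function.Surjective f)
    (hK : ∀ v : V, (v : M) ∈ K → f v = 0)
    (hfe : ∀ (h : H) (v : V), f ⟨(h : G) • (v : M), hV h h.2 v v.2⟩ = π h • f v)
    (hKV : K ≤ V) (F : Set M) (hF : F.Finite) (hVF : V = gspan H F ⊔ K) :
    FGM (⊤ : Subgroup H') (⊤ : AddSubgroup Q) := by
  have hFV : F ⊆ V := by
    intro m hm
    rw [hVF]
    refine SetLike.le_def.1 le_sup_left ?_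
    exact AddSubgroup.subset_closure ⟨1, H.one_mem, m, hm, by simp⟩
  refine ⟨f '' {v : V | (v : M) ∈ F}, ?_, ?_⟩
  · apply Set.Finite.image
    exact Set.Finite.preimage (Subtype.val_injective.injOn) hF
  · symm
    rw [eq_top_iff]
    intro q _
    obtain ⟨v, rfl⟩ := hf q
    have hle : gspan H F ≤ V := by rw [hVF]; exact le_sup_left
    have key : ∀ m (hm : m ∈ gspan H F),
        f ⟨m, hle hm⟩ ∈ gspan (⊤ : Subgroup H') (f '' {v : V | (v : M) ∈ F}) := by
      intro m hm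
      refine AddSubgroup.closure_induction (p := fun m hm => f ⟨m, hle hm⟩ ∈
        gspan (⊤ : Subgroup H') (f '' {v : V | (v : M) ∈ F})) ?_ ?_ ?_ ?_ hm
      · rintro m ⟨h, hh, a, ha, rfl⟩
        have := hfe ⟨h, hh⟩ ⟨a, hFV ha⟩
        simp only at this
        rw [this]
        exact AddSubgroup.subset_closure ⟨_, Subgroup.mem_top _, _, ⟨⟨a, hFV ha⟩, ha, rfl⟩, rfl⟩
      · have : (⟨0, hle (AddSubgroup.zero_mem _)⟩ : V) = 0 := rfl
        rw [this, map_zero]
        exact AddSubgroup.zero_mem _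
      · intro x y hx hy h1 h2
        have : (⟨x + y, hle (AddSubgroup.add_mem _ hx hy)⟩ : V) = ⟨x, hle hx⟩ + ⟨y, hle hy⟩ := rfl
        rw [this, map_add]
        exact AddSubgroup.add_mem _ h1 h2
      · intro x hx h1
        have : (⟨-x, hle (AddSubgroup.neg_mem _ hx)⟩ : V) = -⟨x, hle hx⟩ := rfl
        rw [this, map_neg]
        exact AddSubgroup.neg_mem _ h1
    have hv : (v : M) ∈ gspan H F ⊔ K := hVF ▸ v.2
    obtain ⟨a, ha, b, hb, hab⟩ := AddSubgroup.mem_sup.1 hv
    have : v = ⟨a, hle ha⟩ + ⟨b, hKV hb⟩ := Subtype.ext hab.symm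
    rw [this, map_add, hK ⟨b, hKV hb⟩ hb, add_zero]
    exact key a ha

/-- transfer of powers of `g - 1` along an equivariant map -/
theorem ihm_pow {H' Q : Type} [Group H'] [AddCommGroup Q] [DistribMulAction H' Q]
    (H : Subgroup G) (V : AddSubgroup M) (hV : Stb H V)
    (π : H →* H') (f : V →+ Q)
    (hfe : ∀ (h : H) (v : V), f ⟨(h : G) • (v : M), hV h h.2 v v.2⟩ = π h • f v)
    (g : H) (r : ℕ) (m : M) (hm : m ∈ V) :
    ∃ h : ((ac M (g : G) - 1) ^ r) m ∈ V, f ⟨((ac M (g : G) - 1) ^ r) m, h⟩ =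
      ((ac Q (π g) - 1) ^ r) (f ⟨m, hm⟩) := by
  induction r with
  | zero => exact ⟨by simpa using hm, by simp⟩
  | succ r ih =>
    obtain ⟨h, he⟩ := ih
    have h2 : (g : G) • ((ac M (g : G) - 1) ^ r) m ∈ V := hV g g.2 _ h
    have e1 : ((ac M (g : G) - 1) ^ (r + 1)) m =
        (g : G) • (((ac M (g : G) - 1) ^ r) m) - ((ac M (g : G) - 1) ^ r) m := by
      rw [pow_succ']
      rfl
    have e2 : ((ac Q (π g) - 1) ^ (r + 1)) (f ⟨m, hm⟩) =
        (π g) • (((ac Q (π g) - 1) ^ r) (f ⟨m, hm⟩)) - ((ac Q (π g) - 1) ^ r) (f ⟨m, hm⟩) := by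
      rw [pow_succ']
      rfl
    refine ⟨by rw [e1]; exact V.sub_mem h2 h, ?_⟩
    rw [e2, ← he, ← hfe, ← map_sub]
    congr 1
    exact Subtype.ext e1

theorem ihm_good {H' Q : Type} [Group H'] [AddCommGroup Q] [DistribMulAction H' Q]
    (H : Subgroup G) (V K : AddSubgroup M) (hV : Stb H V)
    (π : H →* H') (f : V →+ Q) (hK : ∀ v : V, f v = 0 ↔ (v : M) ∈ K)
    (hfe : ∀ (h : H) (v : V), f ⟨(h : G) • (v : M), hV h h.2 v v.2⟩ = π h • f v)
    (hg : Good H' Q) : GoodOn H V K := by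
  obtain ⟨e, h, he, H1⟩ := hg
  refine ⟨e, h, he, ?_⟩
  intro x hx m hm n r hn hr
  obtain ⟨a1, b1⟩ := ihm_pow H V hV π f hfe (⟨x, hx⟩ ^ n) r m hm
  obtain ⟨a2, b2⟩ := ihm_pow H V hV π f hfe (⟨x, hx⟩ ^ e) h m hm
  have := H1 (π ⟨x, hx⟩) (Subgroup.mem_top _) (f ⟨m, hm⟩) (AddSubgroup.mem_top _) n r hn
    (by
      rw [← map_pow, ← b1, AddSubgroup.mem_bot, hK]
      exact hr)
  rw [← map_pow, ← b2, AddSubgroup.mem_bot, hK] at this
  exact this

/-- quotient of a stable subgroup by a stable subgroup -/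
theorem ihm_quot (H : Subgroup G) (V K : AddSubgroup M) (hV : Stb H V) (hK : Stb H K) :
    ∃ (Q : Type) (_ : AddCommGroup Q) (_ : DistribMulAction H Q) (f : V →+ Q),
      Function.Surjective f ∧ (∀ v : V, f v = 0 ↔ (v : M) ∈ K) ∧
      ∀ (h : H) (v : V), f ⟨(h : G) • (v : M), hV h h.2 v v.2⟩ = h • f v := by
  let φ : H →* AddMonoid.End V :=
    { toFun := fun g =>
        { toFun := fun v => ⟨(g : G) • (v : M), hV g g.2 v v.2⟩
          map_zero' := Subtype.ext (smul_zero _)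
          map_add' := fun v w => Subtype.ext (smul_add _ _ _) }
      map_one' := AddMonoidHom.ext fun v => Subtype.ext (one_smul _ _)
      map_mul' := fun a b => AddMonoidHom.ext fun v => Subtype.ext (mul_smul _ _ _) }
  have hst : ∀ g : H, K.addSubgroupOf V ≤ (K.addSubgroupOf V).comap (φ g) := by
    intro g v hv
    exact hK g g.2 _ hv
  let ψ : H →* AddMonoid.End (V ⧸ K.addSubgroupOf V) :=
    { toFun := fun g => QuotientAddGroup.map _ _ (φ g) (hst g)
      map_one' := by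
        refine AddMonoidHom.ext fun q => ?_
        obtain ⟨v, rfl⟩ := QuotientAddGroup.mk_surjective q
        change ((φ 1 v : V) : V ⧸ K.addSubgroupOf V) = _
        rw [map_one]
        rfl
      map_mul' := fun a b => by
        refine AddMonoidHom.ext fun q => ?_
        obtain ⟨v, rfl⟩ := QuotientAddGroup.mk_surjective q
        change ((φ (a * b) v : V) : V ⧸ K.addSubgroupOf V) = _
        rw [map_mul]
        rfl }
  refine ⟨V ⧸ K.addSubgroupOf V, inferInstance, DistribMulAction.compHom _ ψ,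
    QuotientAddGroup.mk' _, QuotientAddGroup.mk'_surjective _, ?_, ?_⟩
  · intro v
    rw [QuotientAddGroup.mk'_apply, QuotientAddGroup.eq_zero_iff, AddSubgroup.mem_addSubgroupOf]
  · intro h v
    rfl

theorem ih_rel {n : ℕ} (ih : IH n) (h : PC G) (H : Subgroup G) (hH : HL n H)
    (V K : AddSubgroup M) (hV : Stb H V) (hK : Stb H K) (hKV : K ≤ V)
    (hfg : ∃ F : Set M, F.Finite ∧ V = gspan H F ⊔ K) : GoodOn H V K := by
  obtain ⟨F, hF, hVF⟩ := hfg
  obtain ⟨Q, i1, i2, f, hf, hfK, hfe⟩ := ihm_quot H V K hV hK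
  have hfe' : ∀ (h : H) (v : V), f ⟨(h : G) • (v : M), hV h h.2 v v.2⟩ =
      (MonoidHom.id H) h • f v := hfe
  refine ihm_good H V K hV (MonoidHom.id H) f hfK hfe' ?_
  refine ih H (h.sub H) hH Q ?_
  exact ihm_fg H V hV K (MonoidHom.id H) f hf (fun v hv => (hfK v).2 hv)
    hfe' hKV F hF hVF

theorem ih_ker {n : ℕ} (ih : IH n) (h : PC G) (hl : HL (n + 1) G) (H : Subgroup G)
    (K0 : Subgroup G) (hK0 : K0 ≤ H) (hn : ∀ h ∈ H, ∀ k ∈ K0, h * k * h⁻¹ ∈ K0)
    (hinf : Infinite K0) (V : AddSubgroup M) (hV : Stb H V) (hfg : FGM H V)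
    (htriv : ∀ g ∈ K0, ∀ m ∈ V, g • m = m) : GoodOn H V ⊥ := by
  have hN : (K0.subgroupOf H).Normal := by
    refine ⟨fun k hk g => ?_⟩
    rw [Subgroup.mem_subgroupOf] at hk ⊢
    exact hn g g.2 k hk
  have hI : Infinite (K0.subgroupOf H) :=
    (Equiv.infinite_iff (Subgroup.subgroupOfEquivOfLe hK0).toEquiv).2 hinf
  -- the action of `H` on `V`
  let φ : H →* AddMonoid.End V :=
    { toFun := fun g =>
        { toFun := fun v => ⟨(g : G) • (v : M), hV g g.2 v v.2⟩
          map_zero' := Subtype.ext (smul_zero _)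
          map_add' := fun v w => Subtype.ext (smul_add _ _ _) }
      map_one' := AddMonoidHom.ext fun v => Subtype.ext (one_smul _ _)
      map_mul' := fun a b => AddMonoidHom.ext fun v => Subtype.ext (mul_smul _ _ _) }
  have hφ : K0.subgroupOf H ≤ φ.ker := by
    intro k hk
    rw [MonoidHom.mem_ker]
    ext v
    exact htriv k hk v v.2
  let ψ : (H ⧸ K0.subgroupOf H) →* AddMonoid.End V := QuotientGroup.lift _ φ hφ
  let _ : DistribMulAction (H ⧸ K0.subgroupOf H) V := DistribMulAction.compHom V ψ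
  have hfe : ∀ (h : H) (v : V), (AddMonoidHom.id V) ⟨(h : G) • (v : M), hV h h.2 v v.2⟩ =
      (QuotientGroup.mk' (K0.subgroupOf H)) h • (AddMonoidHom.id V) v := fun h v => rfl
  refine ihm_good H V ⊥ hV (QuotientGroup.mk' (K0.subgroupOf H)) (AddMonoidHom.id V)
    (fun v => by simp) hfe ?_
  refine ih (H ⧸ K0.subgroupOf H)
    ((h.sub H).surj (QuotientGroup.mk' _) (QuotientGroup.mk'_surjective _))
    ((HL.sub hl H).quot _ hI) V ?_
  obtain ⟨F, hF, hVF⟩ := hfg
  exact ihm_fg H V hV ⊥ (QuotientGroup.mk' (K0.subgroupOf H))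
    (AddMonoidHom.id V) (fun v => ⟨v, rfl⟩) (fun v hv => by simpa using hv) hfe bot_le F hF
    (by simpa using hVF)

end mod

end Pool.Agent.Polc
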