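import Pool.Agent.Polc.HLM

/-!
Module JEN1: torsion-free finitely generated nilpotent groups are residually unipotent over `ℚ`.

The proof uses polynomial functions `N → ℤ`: `Pol L f` says that all `L`-fold differences of `f`
(with respect to right translations) vanish.
-/

set_option autoImplicit false

open scoped commutatorElement

namespace Pool.Agent.Polc

namespace Jen

/-! ### differences and polynomial functions -/

section pol
variable {N : Type} [Group N]

/-- difference of a function in the direction `u` -/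
def Df (u : N) (f : N → ℤ) : N → ℤ := fun x => f (x * u) - f x

/-- all `L`-fold differences vanish -/
def Pol : ℕ → (N → ℤ) → Prop
  | 0, f => f = 0
  | L + 1, f => ∀ u, Pol L (Df u f)

theorem Df_zero (u : N) : Df u (0 : N → ℤ) = 0 := by
  funext x; simp [Df]

theorem Df_add (u : N) (f f' : N → ℤ) : Df u (f + f') = Df u f + Df u f' := by
  funext x; simp only [Df, Pi.add_apply]; ring

theorem Df_neg (u : N) (f : N → ℤ) : Df u (-f) = -Df u f := by
  funext x; simp only [Df, Pi.neg_apply]; ring

theorem Pol.zero_mem (L : ℕ) : Pol L (0 : N → ℤ) := by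
  induction L with
  | zero => rfl
  | succ L ih => intro u; rw [Df_zero]; exact ih

theorem Pol.add {L : ℕ} {f f' : N → ℤ} (h : Pol L f) (h' : Pol L f') : Pol L (f + f') := by
  induction L generalizing f f' with
  | zero =>
    have h1 : f = 0 := h
    have h2 : f' = 0 := h'
    rw [h1, h2, add_zero]; rfl
  | succ L ih => intro u; rw [Df_add]; exact ih (h u) (h' u)

theorem Pol.neg {L : ℕ} {f : N → ℤ} (h : Pol L f) : Pol L (-f) := by
  induction L generalizing f with
  | zero =>
    have h1 : f = 0 := h
    rw [h1, neg_zero]; rfl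
  | succ L ih => intro u; rw [Df_neg]; exact ih (h u)

theorem Pol.succ {L : ℕ} {f : N → ℤ} (h : Pol L f) : Pol (L + 1) f := by
  induction L generalizing f with
  | zero =>
    have h1 : f = 0 := h
    rw [h1]; exact Pol.zero_mem 1
  | succ L ih => intro u; exact ih (h u)

theorem Pol.rt {L : ℕ} {f : N → ℤ} (h : Pol L f) (u : N) : Pol L (fun x => f (x * u)) := by
  have e : (fun x => f (x * u)) = f + Df u f := by
    funext x; simp only [Df, Pi.add_apply]; ring
  rw [e]
  refine h.add ?_
  cases L with
  | zero =>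
    have h1 : f = 0 := h
    rw [h1, Df_zero]; rfl
  | succ L => exact (h u).succ

/-! ### the weighted filtration -/

/-- functions invariant under left translation by `g`, with a weight condition -/
inductive P (H : Subgroup N) (Γ : ℕ → Subgroup N) (g : N) : ℕ → (N → ℤ) → Prop
  | zero : P H Γ g 0 0
  | succ (k : ℕ) (f : N → ℤ) (hE : ∀ x, f (g * x) = f x)
      (h : ∀ (i : ℕ) (u : N), u ∈ H → u ∈ Γ i → P H Γ g (k - i) (Df u f)) : P H Γ g (k + 1) f

variable {H : Subgroup N} {Γ : ℕ → Subgroup N} {g : N}

theorem P.inv {k : ℕ} {f : N → ℤ} (h : P H Γ g k f) (x : N) : f (g * x) = f x := by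
  cases h with
  | zero => rfl
  | succ k f hE _ => exact hE x

theorem P.eq_zero {f : N → ℤ} (h : P H Γ g 0 f) : f = 0 := by
  cases h with
  | zero => rfl

theorem P.step {k : ℕ} {f : N → ℤ} (h : P H Γ g (k + 1) f) (i : ℕ) (u : N) (hu : u ∈ H)
    (hui : u ∈ Γ i) : P H Γ g (k - i) (Df u f) := by
  cases h with
  | succ k f _ h => exact h i u hu hui

theorem P.zero_mem (k : ℕ) : P H Γ g k 0 := by
  induction k using Nat.strong_induction_on with
  | _ k ih =>
    cases k with
    | zero => exact P.zero
    | succ k =>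
      refine P.succ k 0 (fun x => rfl) fun i u _ _ => ?_
      rw [Df_zero]
      exact ih _ (by omega)

theorem P.mono1 {k : ℕ} {f : N → ℤ} (h : P H Γ g k f) : P H Γ g (k + 1) f := by
  induction k using Nat.strong_induction_on generalizing f with
  | _ k ih =>
    cases k with
    | zero => rw [h.eq_zero]; exact P.zero_mem _
    | succ k =>
      refine P.succ _ f h.inv fun i u hu hui => ?_
      have h1 := h.step i u hu hui
      rcases Nat.lt_or_ge k i with hi | hi
      · rw [show k - i = 0 by omega] at h1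
        rw [h1.eq_zero]; exact P.zero_mem _
      · have := ih (k - i) (by omega) h1
        rwa [show k - i + 1 = k + 1 - i by omega] at this

theorem P.mono {k l : ℕ} {f : N → ℤ} (h : P H Γ g k f) (hkl : k ≤ l) : P H Γ g l f := by
  induction l, hkl using Nat.le_induction with
  | base => exact h
  | succ l _ ih => exact ih.mono1

theorem P.add {k : ℕ} {f f' : N → ℤ} (h : P H Γ g k f) (h' : P H Γ g k f') :
    P H Γ g k (f + f') := by
  induction k using Nat.strong_induction_on generalizing f f' with
  | _ k ih =>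
    cases k with
    | zero => rw [h.eq_zero, h'.eq_zero, add_zero]; exact P.zero
    | succ k =>
      refine P.succ _ _ (fun x => ?_) fun i u hu hui => ?_
      · simp only [Pi.add_apply]; rw [h.inv, h'.inv]
      · rw [Df_add]
        exact ih _ (by omega) (h.step i u hu hui) (h'.step i u hu hui)

theorem P.neg {k : ℕ} {f : N → ℤ} (h : P H Γ g k f) : P H Γ g k (-f) := by
  induction k using Nat.strong_induction_on generalizing f with
  | _ k ih =>
    cases k with
    | zero => rw [h.eq_zero, neg_zero]; exact P.zero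
    | succ k =>
      refine P.succ _ _ (fun x => ?_) fun i u hu hui => ?_
      · simp only [Pi.neg_apply]; rw [h.inv]
      · rw [Df_neg]
        exact ih _ (by omega) (h.step i u hu hui)

theorem P.rt (h0 : Γ 0 = ⊤) {k : ℕ} {f : N → ℤ} (h : P H Γ g k f) (u : N) (hu : u ∈ H) :
    P H Γ g k (fun x => f (x * u)) := by
  have e : (fun x => f (x * u)) = f + Df u f := by
    funext x; simp only [Df, Pi.add_apply]; ring
  rw [e]
  refine h.add ?_
  cases k with
  | zero => rw [h.eq_zero, Df_zero]; exact P.zero
  | succ k =>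
    have := h.step 0 u hu (by rw [h0]; trivial)
    exact this.mono (by omega)

theorem zpow_inv_left {f : N → ℤ} (h : ∀ x, f (g * x) = f x) (n : ℤ) (x : N) :
    f (g ^ n * x) = f x := by
  induction n using Int.induction_on with
  | zero => simp
  | succ n ih => rw [zpow_add, zpow_one, mul_assoc, ← ih, ← h (g ^ (n : ℤ) * x), ← mul_assoc,
      ← mul_assoc, ← zpow_one_add, ← zpow_add_one, add_comm]
  | pred n ih => rw [← ih, ← h (g ^ (-(n : ℤ) - 1) * x), ← mul_assoc, ← zpow_one_add]; congr 3; ring

variable (hN : ∀ x : N, ∃ n : ℤ, ∃ h ∈ H, x = g ^ n * h)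

include hN in
theorem P.const (h0 : Γ 0 = ⊤) {f : N → ℤ} (h : P H Γ g 1 f) (x : N) : f x = f 1 := by
  obtain ⟨n, u, hu, rfl⟩ := hN x
  rw [zpow_inv_left h.inv]
  have h1 := (h.step 0 u hu (by rw [h0]; trivial)).eq_zero
  have h2 := congrFun h1 1
  simp only [Df, one_mul, Pi.zero_apply] at h2
  omega

include hN in
/-- the element `g` lowers the weight -/
theorem P.g_step (h0 : Γ 0 = ⊤) (hH : H.Normal)
    (hΓ : ∀ (i : ℕ) (u : N), u ∈ Γ i → g⁻¹ * u * g ∈ Γ i ∧ u⁻¹ * (g⁻¹ * u * g) ∈ Γ (i + 1))
    {k : ℕ} {f : N → ℤ} (h : P H Γ g (k + 1) f) : P H Γ g k (Df g f) := by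
  induction k using Nat.strong_induction_on generalizing f with
  | _ k ih =>
    cases k with
    | zero =>
      have : Df g f = 0 := by
        funext x
        simp only [Df, Pi.zero_apply]
        rw [h.const hN h0 (x * g), h.const hN h0 x, sub_self]
      rw [this]; exact P.zero
    | succ k =>
      refine P.succ _ _ (fun x => ?_) fun i u hu hui => ?_
      · simp only [Df]
        rw [mul_assoc, h.inv, h.inv]
      · set u' : N := g⁻¹ * u * g with hu'
        have hu'H : u' ∈ H := by
          have := hH.conj_mem u hu g⁻¹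
          rwa [inv_inv] at this
        obtain ⟨g1, g2⟩ := hΓ i u hui
        have hvH : u⁻¹ * u' ∈ H := H.mul_mem (H.inv_mem hu) hu'H
        have e : Df u (Df g f) = Df g (Df u' f) + fun x => Df (u⁻¹ * u') f (x * u) := by
          funext x
          simp only [Df, Pi.add_apply]
          have e1 : x * u * g = x * g * u' := by rw [hu']; group
          have e2 : x * u * (u⁻¹ * u') = x * u' := by group
          rw [e1, e2]; ring
        rw [e]
        refine P.add ?_ ?_
        · have h1 := h.step i u' hu'H g1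
          rcases Nat.lt_or_ge k i with hi | hi
          · rw [show k + 1 - i = 0 by omega] at h1
            rw [h1.eq_zero, Df_zero]; exact P.zero_mem _
          · rw [show k + 1 - i = (k - i) + 1 by omega] at h1
            exact ih (k - i) (by omega) h1
        · have h1 := h.step (i + 1) (u⁻¹ * u') hvH g2
          rw [show k + 1 - (i + 1) = k - i by omega] at h1
          exact h1.rt h0 u hu

include hN in
/-- every element lowers the weight -/
theorem P.all_step (h0 : Γ 0 = ⊤) (hH : H.Normal)
    (hΓ : ∀ (i : ℕ) (u : N), u ∈ Γ i → g⁻¹ * u * g ∈ Γ i ∧ u⁻¹ * (g⁻¹ * u * g) ∈ Γ (i + 1))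
    (n : N) : ∀ (k : ℕ) (f : N → ℤ), P H Γ g (k + 1) f → P H Γ g k (Df n f) := by
  let S : Subgroup N :=
    { carrier := {n | ∀ (k : ℕ) (f : N → ℤ), P H Γ g (k + 1) f → P H Γ g k (Df n f)}
      one_mem' := by
        intro k f _
        have : Df (1 : N) f = 0 := by funext x; simp [Df]
        rw [this]; exact P.zero_mem _
      mul_mem' := by
        intro a b ha hb k f h
        have e : Df (a * b) f = Df a (Df b f) + Df b f + Df a f := by
          funext x
          simp only [Df, Pi.add_apply]
          rw [← mul_assoc]; ring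
        rw [e]
        have h1 := hb k f h
        refine (P.add ?_ h1).add (ha k f h)
        cases k with
        | zero => rw [h1.eq_zero, Df_zero]; exact P.zero
        | succ k => exact (ha k _ h1).mono1
      inv_mem' := by
        intro a ha k
        have e : ∀ f : N → ℤ, Df a⁻¹ f = -(Df a f) + -(Df a⁻¹ (Df a f)) := by
          intro f
          funext x
          simp only [Df, Pi.add_apply, Pi.neg_apply, inv_mul_cancel_right]
          ring
        induction k with
        | zero =>
          intro f h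
          have h1 := (ha 0 f h).eq_zero
          rw [e, h1, Df_zero]
          simpa using P.zero
        | succ k ih =>
          intro f h
          have h1 := ha (k + 1) f h
          rw [e]
          exact h1.neg.add (ih _ h1).mono1.neg }
  have hHS : ∀ u ∈ H, u ∈ S := by
    intro u hu k f h
    exact h.step 0 u hu (by rw [h0]; trivial)
  have hgS : g ∈ S := fun k f h => h.g_step hN h0 hH hΓ
  obtain ⟨m, u, hu, rfl⟩ := hN n
  exact S.mul_mem (S.zpow_mem hgS m) (hHS u hu)

include hN in
theorem P.pol (h0 : Γ 0 = ⊤) (hH : H.Normal)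
    (hΓ : ∀ (i : ℕ) (u : N), u ∈ Γ i → g⁻¹ * u * g ∈ Γ i ∧ u⁻¹ * (g⁻¹ * u * g) ∈ Γ (i + 1))
    {k : ℕ} {f : N → ℤ} (h : P H Γ g k f) : Pol k f := by
  induction k generalizing f with
  | zero => exact h.eq_zero
  | succ k ih => intro u; exact ih (P.all_step hN h0 hH hΓ u k f h)

include hN in
theorem P.init (c : ℕ) (hc : ∀ i, c < i → Γ i = ⊥) (D : ℕ) (f : N → ℤ)
    (hE : ∀ x, f (g * x) = f x) (hf : Pol D (fun h : H => f h)) : P H Γ g ((c + 1) * D) f := by
  induction D generalizing f with
  | zero =>
    have h1 : (fun h : H => f h) = 0 := hf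
    have : f = 0 := by
      funext x
      obtain ⟨n, u, hu, rfl⟩ := hN x
      rw [zpow_inv_left hE]
      exact congrFun h1 ⟨u, hu⟩
    rw [this]; exact P.zero_mem _
  | succ D ih =>
    have e : (c + 1) * (D + 1) = ((c + 1) * D + c) + 1 := by ring
    rw [e]
    refine P.succ _ f hE fun i u hu hui => ?_
    rcases Nat.lt_or_ge c i with hi | hi
    · rw [hc i hi, Subgroup.mem_bot] at hui
      have : Df u f = 0 := by rw [hui]; funext x; simp [Df]
      rw [this]; exact P.zero_mem _
    · have h1 : P H Γ g ((c + 1) * D) (Df u f) := by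
        refine ih _ (fun x => ?_) ?_
        · simp only [Df]; rw [mul_assoc, hE, hE]
        · exact hf ⟨u, hu⟩
      exact h1.mono (by omega)

end pol

/-! ### torsion-free nilpotent groups -/

section tf
variable {G : Type} [Group G]

theorem ucs_tf (htf : TF G) (i : ℕ) : ∀ (x : G) (k : ℕ), 0 < k →
    x ∈ Subgroup.upperCentralSeries G (i + 1) → x ^ k ∈ Subgroup.upperCentralSeries G i →
    x ∈ Subgroup.upperCentralSeries G i := by
  induction i with
  | zero =>
    intro x k hk _ hx
    rw [Subgroup.upperCentralSeries_zero, Subgroup.mem_bot] at hx ⊢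
    exact htf x k hk hx
  | succ i ih =>
    intro x k hk hx hxk
    rw [Subgroup.mem_upperCentralSeries_succ_iff] at hx hxk ⊢
    intro y
    refine ih _ k hk (hx y) ?_
    have hc := hx y
    rw [Subgroup.mem_upperCentralSeries_succ_iff] at hc
    set Z := Subgroup.upperCentralSeries G i with hZ
    obtain ⟨c, hcdef⟩ : ∃ c : G, c = ⁅x, y⁆ := ⟨_, rfl⟩
    have hcxy : x * y * x⁻¹ = c * y := by
      rw [hcdef, commutatorElement_def]; group
    rw [← hcdef] at hc ⊢
    have hcen : ∀ z : G, Commute (c : G ⧸ Z) (z : G ⧸ Z) := by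
      intro z
      have h1 := (QuotientGroup.eq_one_iff (N := Z) _).2 (hc z)
      rw [commutatorElement_def] at h1
      simp only [QuotientGroup.mk_mul, QuotientGroup.mk_inv] at h1
      rw [mul_inv_eq_one, mul_inv_eq_iff_eq_mul] at h1
      exact h1
    have hpow : ∀ m : ℕ, ((x ^ m * y * (x ^ m)⁻¹ : G) : G ⧸ Z) = (c : G ⧸ Z) ^ m * (y : G ⧸ Z) := by
      intro m
      induction m with
      | zero => simp
      | succ m ihm =>
        have e1 : x ^ (m + 1) * y * (x ^ (m + 1))⁻¹ = x * (x ^ m * y * (x ^ m)⁻¹) * x⁻¹ := by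
          rw [pow_succ']; group
        have e3 := ((hcen x).pow_left m).eq
        rw [e1, QuotientGroup.mk_mul, QuotientGroup.mk_mul, ihm, ← mul_assoc, ← e3, mul_assoc,
          mul_assoc, ← mul_assoc (x : G ⧸ Z) (y : G ⧸ Z), ← QuotientGroup.mk_mul,
          ← QuotientGroup.mk_mul, hcxy, QuotientGroup.mk_mul, pow_succ, mul_assoc]
    have h2 := (QuotientGroup.eq_one_iff (N := Z) _).2 (hxk y)
    rw [commutatorElement_def, QuotientGroup.mk_mul, hpow k, QuotientGroup.mk_inv,
      mul_inv_cancel_right] at h2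
    rw [← QuotientGroup.eq_one_iff, QuotientGroup.mk_pow]
    exact h2

theorem center_tf (hnil : Group.IsNilpotent G) (htf : TF G) (x : G) (k : ℕ) (hk : 0 < k)
    (hx : x ^ k ∈ Subgroup.center G) : x ∈ Subgroup.center G := by
  obtain ⟨n, hn⟩ := hnil.nilpotent
  have key : ∀ j, x ∈ Subgroup.upperCentralSeries G (j + 1) → x ∈ Subgroup.center G := by
    intro j
    induction j with
    | zero => intro h; rwa [zero_add, Subgroup.upperCentralSeries_one] at h
    | succ j ih =>
      intro h
      refine ih (ucs_tf htf (j + 1) x k hk h ?_)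
      have h1 : Subgroup.upperCentralSeries G 1 ≤ Subgroup.upperCentralSeries G (j + 1) :=
        Subgroup.upperCentralSeries_mono G (by omega)
      rw [Subgroup.upperCentralSeries_one] at h1
      exact h1 hx
  refine key n ?_
  have h1 : Subgroup.upperCentralSeries G n ≤ Subgroup.upperCentralSeries G (n + 1) :=
    Subgroup.upperCentralSeries_mono G (by omega)
  rw [hn] at h1
  exact h1 trivial

end tf

/-- abelian case -/
theorem exists_hom_comm {G : Type} [Group G] (h : PC G) (htf : TF G) (hc : Subgroup.center G = ⊤)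
    (y : G) (hy : y ≠ 1) : ∃ φ : G → ℤ, (∀ a b, φ (a * b) = φ a + φ b) ∧ ∃ y, φ y ≠ 0 := by
  let _ : CommGroup G := { (inferInstance : Group G) with
    mul_comm := fun a b => by
      have : a ∈ Subgroup.center G := by rw [hc]; trivial
      exact (Subgroup.mem_center_iff.1 this b).symm }
  have hfg : Group.FG G := Group.fg_def.2 (h.fg ⊤)
  have hfg' : AddGroup.FG (Additive G) := GroupFG.iff_add_fg.1 hfg
  have : Module.Finite ℤ (Additive G) := Module.Finite.iff_addGroup_fg.2 hfg'
  have htf' : IsAddTorsionFree (Additive G) := by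
    refine ⟨fun n hn a b hab => ?_⟩
    have h1 : n • (a - b) = 0 := by
      rw [nsmul_sub]; exact sub_eq_zero.2 hab
    have h2 : (Additive.toMul (a - b)) ^ n = 1 := h1
    exact sub_eq_zero.1 (htf _ n (Nat.pos_of_ne_zero hn) h2)
  have : Module.Free ℤ (Additive G) := inferInstance
  let b := Module.Free.chooseBasis ℤ (Additive G)
  have hy' : Additive.ofMul y ≠ 0 := hy
  have : ∃ i, b.repr (Additive.ofMul y) i ≠ 0 := by
    by_contra hcon
    push Not at hcon
    apply hy'
    apply b.repr.injective
    rw [map_zero]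
    ext i
    simpa using hcon i
  obtain ⟨i, hi⟩ := this
  refine ⟨fun a => b.repr (Additive.ofMul a) i, fun a c => ?_, y, hi⟩
  change b.repr (Additive.ofMul a + Additive.ofMul c) i = _
  rw [map_add, Finsupp.add_apply]

theorem exists_hom (G : Type) [Group G] [hnil : Group.IsNilpotent G] :
    PC G → TF G → (∃ y : G, y ≠ 1) →
      ∃ φ : G → ℤ, (∀ a b, φ (a * b) = φ a + φ b) ∧ ∃ y, φ y ≠ 0 := by
  refine Group.nilpotent_center_quotient_ind
    (P := fun G _ _ => PC G → TF G → (∃ y : G, y ≠ 1) →
      ∃ φ : G → ℤ, (∀ a b, φ (a * b) = φ a + φ b) ∧ ∃ y, φ y ≠ 0) G ?_ ?_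
  · intro G _ _ _ _ hy
    obtain ⟨y, hy⟩ := hy
    exact absurd (Subsingleton.elim y 1) hy
  · intro G _ hn ih h htf hy
    obtain ⟨y, hy⟩ := hy
    by_cases hc : Subgroup.center G = ⊤
    · exact exists_hom_comm h htf hc y hy
    · have hne : ∃ z : G, z ∉ Subgroup.center G := by
        by_contra hcon
        push Not at hcon
        exact hc (eq_top_iff.2 fun z _ => hcon z)
      obtain ⟨z, hz⟩ := hne
      obtain ⟨φ, hφ, w, hw⟩ := ih
        (h.surj (QuotientGroup.mk' (Subgroup.center G)) (QuotientGroup.mk'_surjective _))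
        (fun g n hn' hg => by
          obtain ⟨g, rfl⟩ := QuotientGroup.mk'_surjective _ g
          rw [QuotientGroup.mk'_apply] at hg ⊢
          rw [← QuotientGroup.mk_pow, QuotientGroup.eq_one_iff] at hg
          rw [QuotientGroup.eq_one_iff]
          exact center_tf hn htf g n hn' hg)
        ⟨(z : G ⧸ Subgroup.center G), fun h1 => hz ((QuotientGroup.eq_one_iff _).1 h1)⟩
      obtain ⟨w, rfl⟩ := QuotientGroup.mk'_surjective _ w
      exact ⟨fun a => φ (a : G ⧸ Subgroup.center G), fun a b => by
        simp only [QuotientGroup.mk_mul]; exact hφ _ _, w, hw⟩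

/-- normalised -/
theorem exists_hom' (G : Type) [Group G] (hnil : Group.IsNilpotent G) (h : PC G) (htf : TF G)
    (y : G) (hy : y ≠ 1) :
    ∃ φ : G → ℤ, (∀ a b, φ (a * b) = φ a + φ b) ∧ ∃ g, φ g = 1 := by
  obtain ⟨φ, hφ, w, hw⟩ := exists_hom G h htf ⟨y, hy⟩
  have hone : φ 1 = 0 := by have := hφ 1 1; rw [mul_one] at this; omega
  have hinv : ∀ a, φ a⁻¹ = -φ a := by
    intro a
    have := hφ a a⁻¹
    rw [mul_inv_cancel, hone] at this; omega
  have hzpow : ∀ (a : G) (n : ℤ), φ (a ^ n) = n * φ a := by
    intro a n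
    induction n using Int.induction_on with
    | zero => simp [hone]
    | succ n ih => rw [zpow_add_one, hφ, ih]; ring
    | pred n ih => rw [zpow_sub_one, hφ, hinv, ih]; ring
  have hex : ∃ d : ℕ, 0 < d ∧ ∃ g, φ g = d := by
    rcases lt_trichotomy (φ w) 0 with h1 | h1 | h1
    · exact ⟨(-φ w).toNat, by omega, w⁻¹, by rw [hinv]; omega⟩
    · exact absurd h1 hw
    · exact ⟨(φ w).toNat, by omega, w, by omega⟩
  obtain ⟨d, hd0, g, hg, hmin⟩ : ∃ d : ℕ, 0 < d ∧ ∃ g, φ g = d ∧
      ∀ m : ℕ, m < d → 0 < m → ∀ x, φ x ≠ m := by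
    classical
    obtain ⟨hd0, g, hg⟩ := Nat.find_spec hex
    exact ⟨Nat.find hex, hd0, g, hg, fun m hm hm0 x hx => Nat.find_min hex hm ⟨hm0, x, hx⟩⟩
  have hdvd : ∀ x, (d : ℤ) ∣ φ x := by
    intro x
    by_contra hcon
    have hr : φ (x * g ^ (-(φ x / d))) = φ x % d := by
      rw [hφ, hzpow, hg, Int.emod_def]; ring
    have h0 : 0 ≤ φ x % d := Int.emod_nonneg _ (by omega)
    have h1 : φ x % d < d := Int.emod_lt_of_pos _ (by exact_mod_cast hd0)
    have h2 : φ x % d ≠ 0 := fun h3 => hcon (Int.dvd_of_emod_eq_zero h3)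
    exact hmin (φ x % d).toNat (by omega) (by omega) _ (by rw [hr]; omega)
  refine ⟨fun x => φ x / d, fun a b => ?_, g, ?_⟩
  · simp only
    rw [hφ, Int.add_ediv_of_dvd_left (hdvd a)]
  · simp only
    rw [hg, Int.ediv_self (by omega)]

/-- torsion-free f.g. nilpotent groups are residually unipotent over Q -/
theorem exists_pol (n : ℕ) : ∀ (N : Type) [Group N], PC N → Group.IsNilpotent N → TF N → HL n N →
    ∀ y : N, y ≠ 1 → ∃ (L : ℕ) (f : N → ℤ), Pol L f ∧ f y ≠ f 1 := by
  induction n with
  | zero =>
    intro N _ _ _ htf hfin y hy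
    have : Finite N := hfin
    exact absurd (htf y (Nat.card N) Nat.card_pos (pow_card_eq_one' )) hy
  | succ n ih =>
    intro N _ h hnil htf hl y hy
    obtain ⟨φ, hφ, g, hg⟩ := exists_hom' N hnil h htf y hy
    have hone : φ 1 = 0 := by have := hφ 1 1; rw [mul_one] at this; omega
    have hinv : ∀ a, φ a⁻¹ = -φ a := by
      intro a
      have := hφ a a⁻¹
      rw [mul_inv_cancel, hone] at this; omega
    have hzpow : ∀ (a : N) (n : ℤ), φ (a ^ n) = n * φ a := by
      intro a n
      induction n using Int.induction_on with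
      | zero => simp [hone]
      | succ n ih => rw [zpow_add_one, hφ, ih]; ring
      | pred n ih => rw [zpow_sub_one, hφ, hinv, ih]; ring
    let H : Subgroup N :=
      { carrier := {x | φ x = 0}
        one_mem' := hone
        mul_mem' := by
          intro a b ha hb
          simp only [Set.mem_ofPred_eq] at ha hb ⊢
          rw [hφ]; omega
        inv_mem' := by
          intro a ha
          simp only [Set.mem_ofPred_eq] at ha ⊢
          rw [hinv]; omega }
    have hmem : ∀ x, x ∈ H ↔ φ x = 0 := fun x => Iff.rfl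
    have hH : H.Normal := ⟨fun a ha b => by
      rw [hmem] at ha ⊢
      rw [hφ, hφ, hinv]; omega⟩
    have hN : ∀ x : N, ∃ n : ℤ, ∃ u ∈ H, x = g ^ n * u := fun x =>
      ⟨φ x, g ^ (-φ x) * x, by rw [hmem, hφ, hzpow, hg]; ring, by group⟩
    by_cases hyH : y ∈ H
    · have hindex : H.index = 0 := by
        by_contra hcon
        obtain ⟨k, hk, _, hk'⟩ := Subgroup.exists_pow_mem_of_index_ne_zero hcon g
        rw [← zpow_natCast, hmem, hzpow, hg] at hk'
        omega
      have htfH : TF H := fun a k hk ha => by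
        have := htf (a : N) k hk (by rw [← Subgroup.coe_pow, ha, Subgroup.coe_one])
        exact Subtype.ext this
      obtain ⟨D, f, hf, hfy⟩ := ih H (h.sub H) inferInstance htfH (hl H hindex) ⟨y, hyH⟩
        (fun h1 => hy (congrArg Subtype.val h1))
      obtain ⟨c, hc⟩ := Subgroup.nilpotent_iff_lowerCentralSeries.1 hnil
      have hmemH : ∀ x, g ^ (-φ x) * x ∈ H := fun x => by rw [hmem, hφ, hzpow, hg]; ring
      let F : N → ℤ := fun x => f ⟨g ^ (-φ x) * x, hmemH x⟩
      have hFH : ∀ u : H, F u = f u := by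
        intro u
        simp only [F]
        congr 1
        apply Subtype.ext
        have : φ u = 0 := (hmem _).1 u.2
        simp [this]
      have hE : ∀ x, F (g * x) = F x := by
        intro x
        simp only [F]
        congr 1
        apply Subtype.ext
        simp only
        rw [hφ, hg, neg_add, zpow_add, zpow_neg_one]
        have : Commute g⁻¹ (g ^ (-φ x)) := (Commute.refl g).inv_left.zpow_right _
        rw [this.eq]; group
      set Γ : ℕ → Subgroup N := (⊤ : Subgroup N).lowerCentralSeries with hΓdef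
      have hP : P H Γ g ((c + 1) * D) F := by
        refine P.init hN c (fun i hi => ?_) D F hE ?_
        · refine le_bot_iff.1 ?_
          rw [← hc]
          exact Subgroup.lowerCentralSeries_antitone _ hi.le
        · have : (fun u : H => F u) = f := funext hFH
          rw [this]; exact hf
      have hΓ : ∀ (i : ℕ) (u : N), u ∈ Γ i →
          g⁻¹ * u * g ∈ Γ i ∧ u⁻¹ * (g⁻¹ * u * g) ∈ Γ (i + 1) := by
        intro i u hu
        constructor
        · have hn : (Γ i).Normal := by rw [hΓdef]; infer_instance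
          have := hn.conj_mem u hu g⁻¹
          rwa [inv_inv] at this
        · have h1 : ⁅u⁻¹, g⁻¹⁆ ∈ Γ (i + 1) :=
            Subgroup.commutator_mem_commutator ((Γ i).inv_mem hu) (Subgroup.mem_top _)
          rw [commutatorElement_def, inv_inv, inv_inv] at h1
          have e : u⁻¹ * (g⁻¹ * u * g) = u⁻¹ * g⁻¹ * u * g := by group
          rw [e]; exact h1
      refine ⟨_, F, hP.pol hN rfl hH hΓ, ?_⟩
      have e1 : F y = f ⟨y, hyH⟩ := hFH ⟨y, hyH⟩
      have e2 : F 1 = f 1 := hFH 1
      rw [e1, e2]; exact hfy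
    · refine ⟨2, φ, fun u v => ?_, ?_⟩
      · change Df v (Df u φ) = 0
        funext x
        simp only [Df, hφ, Pi.zero_apply]; ring
      · rw [hone]; exact fun h1 => hyH h1

end Jen

/-- torsion-free f.g. nilpotent groups are residually unipotent over Q -/
theorem jen1 {N : Type} [Group N] (h : PC N) (hnil : Group.IsNilpotent N) (htf : TF N) (y : N)
    (hy : y ≠ 1) :
    ∃ (W : Type) (_ : AddCommGroup W) (_ : DistribMulAction N W) (L : ℕ),
      (∀ (k : ℕ) (w : W), 0 < k → k • w = 0 → w = 0) ∧
      dpow (⊤ : Subgroup N) L (⊤ : AddSubgroup W) = ⊥ ∧ ∃ w : W, y • w ≠ w := by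
  obtain ⟨n, hn⟩ := h.exists_HL
  obtain ⟨L, f, hf, hfy⟩ := Jen.exists_pol n N h hnil htf hn y hy
  let W : AddSubgroup (N → ℤ) :=
    { carrier := {f | Jen.Pol L f}
      zero_mem' := Jen.Pol.zero_mem L
      add_mem' := fun ha hb => Jen.Pol.add ha hb
      neg_mem' := fun ha => Jen.Pol.neg ha }
  let act : DistribMulAction N W :=
    { smul := fun u w => ⟨fun x => (w : N → ℤ) (x * u), Jen.Pol.rt w.2 u⟩
      one_smul := fun w => by
        apply Subtype.ext
        funext x
        change (w : N → ℤ) (x * 1) = _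
        rw [mul_one]
      mul_smul := fun a b w => by
        apply Subtype.ext
        funext x
        change (w : N → ℤ) (x * (a * b)) = (w : N → ℤ) (x * a * b)
        rw [mul_assoc]
      smul_zero := fun a => rfl
      smul_add := fun a w w' => rfl }
  have hsmul : ∀ (u : N) (w : W) (x : N), ((u • w : W) : N → ℤ) x = (w : N → ℤ) (x * u) :=
    fun _ _ _ => rfl
  have hdpow : ∀ k, k ≤ L → ∀ w ∈ dpow (⊤ : Subgroup N) k (⊤ : AddSubgroup W),
      Jen.Pol (L - k) (w : N → ℤ) := by
    intro k
    induction k with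
    | zero => intro _ w _; exact w.2
    | succ k ih =>
      intro hk w hw
      refine AddSubgroup.closure_induction (p := fun (w : W) _ => Jen.Pol (L - (k + 1)) (w : N → ℤ))
        ?_ ?_ ?_ ?_ hw
      · rintro _ ⟨u, _, v, hv, rfl⟩
        have h1 := ih (by omega) v hv
        rw [show L - k = (L - (k + 1)) + 1 by omega] at h1
        exact h1 u
      · exact Jen.Pol.zero_mem _
      · intro a b _ _ ha hb; exact Jen.Pol.add ha hb
      · intro a _ ha; exact Jen.Pol.neg ha
  refine ⟨W, inferInstance, act, L, fun k w hk hw => ?_, ?_, ⟨f, hf⟩, fun h1 => ?_⟩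
  · apply Subtype.ext
    funext x
    have h1 : ((k • w : W) : N → ℤ) x = 0 := by rw [hw]; rfl
    have h2 : ((k • w : W) : N → ℤ) x = k * (w : N → ℤ) x := by
      simp
    rw [h2] at h1
    rcases mul_eq_zero.1 h1 with h3 | h3
    · omega
    · exact h3
  · rw [eq_bot_iff]
    intro w hw
    have h1 := hdpow L le_rfl w hw
    rw [Nat.sub_self] at h1
    exact Subtype.ext h1
  · have h2 := congrFun (congrArg Subtype.val h1) 1
    rw [hsmul, one_mul] at h2
    exact hfy h2

end Pool.Agent.Polc
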