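import Pool.Agent.Polc.HLM
import Pool.Agent.Polc.Defs2

set_option autoImplicit false

/-!
Module JEN2 of `MP_9e8505_al`: a canonical faithful unipotent lattice for `N / U` with a
compatible action of `G`.
-/

noncomputable section

namespace Pool.Agent.Polc

open MonoidAlgebra

/-- the statement of `jen1` (module JEN1) -/
def Jen1 : Prop :=
  ∀ (N : Type) [Group N], PC N → Group.IsNilpotent N → TF N → ∀ y : N, y ≠ 1 →
    ∃ (W : Type) (_ : AddCommGroup W) (_ : DistribMulAction N W) (L : ℕ),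
      (∀ (k : ℕ) (w : W), 0 < k → k • w = 0 → w = 0) ∧
      dpow (⊤ : Subgroup N) L (⊤ : AddSubgroup W) = ⊥ ∧ ∃ w : W, y • w ≠ w

section gr
variable (Q : Type) [Group Q]

/-- augmentation ideal as additive span of `a - 1` -/
def aug : Submodule ℤ (MonoidAlgebra ℤ Q) :=
  Submodule.span ℤ (Set.range fun a : Q => (of ℤ Q a - 1))

variable {Q}

theorem of_sub_mem_aug (a : Q) : of ℤ Q a - 1 ∈ aug Q := Submodule.subset_span ⟨a, rfl⟩

theorem of_mul_aug (a : Q) (x : MonoidAlgebra ℤ Q) (hx : x ∈ aug Q) : of ℤ Q a * x ∈ aug Q := by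
  induction hx using Submodule.span_induction with
  | mem x hx =>
    obtain ⟨b, rfl⟩ := hx
    have : of ℤ Q a * (of ℤ Q b - 1) = (of ℤ Q (a * b) - 1) - (of ℤ Q a - 1) := by
      rw [map_mul]; noncomm_ring
    simp only
    rw [this]
    exact Submodule.sub_mem _ (of_sub_mem_aug _) (of_sub_mem_aug _)
  | zero => rw [mul_zero]; exact Submodule.zero_mem _
  | add x y _ _ hx hy => rw [mul_add]; exact Submodule.add_mem _ hx hy
  | smul r x _ hx => rw [mul_smul_comm]; exact Submodule.smul_mem _ _ hx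

theorem aug_mul_of (a : Q) (x : MonoidAlgebra ℤ Q) (hx : x ∈ aug Q) : x * of ℤ Q a ∈ aug Q := by
  induction hx using Submodule.span_induction with
  | mem x hx =>
    obtain ⟨b, rfl⟩ := hx
    have : (of ℤ Q b - 1) * of ℤ Q a = (of ℤ Q (b * a) - 1) - (of ℤ Q a - 1) := by
      rw [map_mul]; noncomm_ring
    simp only
    rw [this]
    exact Submodule.sub_mem _ (of_sub_mem_aug _) (of_sub_mem_aug _)
  | zero => rw [zero_mul]; exact Submodule.zero_mem _
  | add x y _ _ hx hy => rw [add_mul]; exact Submodule.add_mem _ hx hy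
  | smul r x _ hx => rw [smul_mul_assoc]; exact Submodule.smul_mem _ _ hx

theorem mul_aug (c x : MonoidAlgebra ℤ Q) (hx : x ∈ aug Q) : c * x ∈ aug Q := by
  induction c using MonoidAlgebra.induction_on with
  | of g => exact of_mul_aug g x hx
  | add f g hf hg => rw [add_mul]; exact Submodule.add_mem _ hf hg
  | smul r f hf => rw [smul_mul_assoc]; exact Submodule.smul_mem _ _ hf

theorem aug_mul (c x : MonoidAlgebra ℤ Q) (hx : x ∈ aug Q) : x * c ∈ aug Q := by
  induction c using MonoidAlgebra.induction_on with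
  | of g => exact aug_mul_of g x hx
  | add f g hf hg => rw [mul_add]; exact Submodule.add_mem _ hf hg
  | smul r f hf => rw [mul_smul_comm]; exact Submodule.smul_mem _ _ hf

theorem mul_aug_pow (l : ℕ) (c x : MonoidAlgebra ℤ Q) (hx : x ∈ aug Q ^ (l + 1)) :
    c * x ∈ aug Q ^ (l + 1) := by
  rw [pow_succ'] at hx ⊢
  induction hx using Submodule.mul_induction_on' with
  | mem_mul_mem m hm n hn =>
    rw [← mul_assoc]; exact Submodule.mul_mem_mul (mul_aug c m hm) hn
  | add x _ y _ hx hy => rw [mul_add]; exact Submodule.add_mem _ hx hy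

theorem aug_pow_mul (l : ℕ) (c x : MonoidAlgebra ℤ Q) (hx : x ∈ aug Q ^ (l + 1)) :
    x * c ∈ aug Q ^ (l + 1) := by
  rw [pow_succ] at hx ⊢
  induction hx using Submodule.mul_induction_on' with
  | mem_mul_mem m hm n hn =>
    rw [mul_assoc]; exact Submodule.mul_mem_mul hm (aug_mul c n hn)
  | add x _ y _ hx hy => rw [add_mul]; exact Submodule.add_mem _ hx hy

theorem aug_pow_le (l : ℕ) : aug Q ^ (l + 2) ≤ aug Q ^ (l + 1) := by
  intro x hx
  rw [pow_succ'] at hx
  induction hx using Submodule.mul_induction_on' with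
  | mem_mul_mem m hm n hn => exact mul_aug_pow l m n hn
  | add x _ y _ hx hy => exact Submodule.add_mem _ hx hy

variable (Q) in
/-- the purification of the `l+1`-st power of the augmentation ideal -/
def pI (l : ℕ) : Submodule (MonoidAlgebra ℤ Q) (MonoidAlgebra ℤ Q) where
  carrier := {x | ∃ k : ℕ, 0 < k ∧ k • x ∈ aug Q ^ (l + 1)}
  zero_mem' := ⟨1, one_pos, by simp⟩
  add_mem' := by
    rintro x y ⟨k, hk, hx⟩ ⟨k', hk', hy⟩
    refine ⟨k * k', Nat.mul_pos hk hk', ?_⟩
    have : (k * k') • (x + y) = k' • (k • x) + k • (k' • y) := by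
      rw [smul_add, smul_smul, smul_smul, mul_comm k' k]
    rw [this]
    exact Submodule.add_mem _ (Submodule.smul_of_tower_mem _ _ hx)
      (Submodule.smul_of_tower_mem _ _ hy)
  smul_mem' := by
    rintro c x ⟨k, hk, hx⟩
    refine ⟨k, hk, ?_⟩
    rw [smul_eq_mul, ← mul_smul_comm]
    exact mul_aug_pow l c _ hx

theorem mem_pI (l : ℕ) (x : MonoidAlgebra ℤ Q) :
    x ∈ pI Q l ↔ ∃ k : ℕ, 0 < k ∧ k • x ∈ aug Q ^ (l + 1) := Iff.rfl

theorem aug_pow_mem_pI (l : ℕ) (x : MonoidAlgebra ℤ Q) (hx : x ∈ aug Q ^ (l + 1)) :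
    x ∈ pI Q l := ⟨1, one_pos, by simpa using hx⟩

theorem pI_mul_right (l : ℕ) (x c : MonoidAlgebra ℤ Q) (hx : x ∈ pI Q l) : x * c ∈ pI Q l := by
  obtain ⟨k, hk, hx⟩ := hx
  refine ⟨k, hk, ?_⟩
  rw [← smul_mul_assoc]
  exact aug_pow_mul l c _ hx

theorem pI_mul (a b : ℕ) (x y : MonoidAlgebra ℤ Q) (hx : x ∈ pI Q a) (hy : y ∈ pI Q b) :
    x * y ∈ pI Q (a + b + 1) := by
  obtain ⟨k, hk, hx⟩ := hx
  obtain ⟨k', hk', hy⟩ := hy
  refine ⟨k * k', Nat.mul_pos hk hk', ?_⟩
  have h1 : (k * k') • (x * y) = (k • x) * (k' • y) := by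
    rw [smul_mul_smul_comm]
  have h2 : aug Q ^ (a + b + 1 + 1) = aug Q ^ (a + 1) * aug Q ^ (b + 1) := by
    rw [← pow_add]; congr 1; omega
  rw [h1, h2]
  exact Submodule.mul_mem_mul hx hy

theorem pI_succ_le (l : ℕ) : pI Q (l + 1) ≤ pI Q l := by
  rintro x ⟨k, hk, hx⟩
  exact ⟨k, hk, aug_pow_le l hx⟩

theorem pI_anti (l m : ℕ) (h : l ≤ m) : pI Q m ≤ pI Q l := by
  induction m, h using Nat.le_induction with
  | base => exact le_rfl
  | succ m _ ih => exact (pI_succ_le m).trans ih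

theorem pI_pure (l k : ℕ) (hk : 0 < k) (x : MonoidAlgebra ℤ Q) (hx : k • x ∈ pI Q l) :
    x ∈ pI Q l := by
  obtain ⟨k', hk', hx⟩ := hx
  exact ⟨k' * k, Nat.mul_pos hk' hk, by rw [mul_smul]; exact hx⟩

variable (Q) in
/-- dimension subgroups over the rationals -/
def dimS (l : ℕ) : Subgroup Q where
  carrier := {y | of ℤ Q y - 1 ∈ pI Q l}
  one_mem' := by
    show of ℤ Q 1 - 1 ∈ pI Q l
    rw [map_one, sub_self]; exact Submodule.zero_mem _
  mul_mem' := by
    intro a b ha hb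
    show of ℤ Q (a * b) - 1 ∈ pI Q l
    have : of ℤ Q (a * b) - 1 = of ℤ Q a • (of ℤ Q b - 1) + (of ℤ Q a - 1) := by
      rw [map_mul, smul_eq_mul]; noncomm_ring
    rw [this]
    exact Submodule.add_mem _ (Submodule.smul_mem _ _ hb) ha
  inv_mem' := by
    intro a ha
    show of ℤ Q a⁻¹ - 1 ∈ pI Q l
    have : of ℤ Q a⁻¹ - 1 = (-of ℤ Q a⁻¹) • (of ℤ Q a - 1) := by
      rw [smul_eq_mul, neg_mul, mul_sub, ← map_mul, inv_mul_cancel, map_one, mul_one]; abel
    rw [this]
    exact Submodule.smul_mem _ _ ha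

theorem mem_dimS (l : ℕ) (y : Q) : y ∈ dimS Q l ↔ of ℤ Q y - 1 ∈ pI Q l := Iff.rfl

theorem dimS_anti (l m : ℕ) (h : l ≤ m) : dimS Q m ≤ dimS Q l := fun _ hy => pI_anti l m h hy

theorem dimS_tf_aux (j k : ℕ) (y : Q) (hy : y ∈ dimS Q j) :
    of ℤ Q (y ^ k) - 1 - k • (of ℤ Q y - 1) ∈ pI Q (j + 1) := by
  induction k with
  | zero => rw [pow_zero, map_one, zero_smul, sub_self, sub_zero]; exact Submodule.zero_mem _
  | succ k ih =>
    have h1 : of ℤ Q (y ^ (k + 1)) - 1 - (k + 1) • (of ℤ Q y - 1) =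
        (of ℤ Q (y ^ k) - 1) * (of ℤ Q y - 1) +
          (of ℤ Q (y ^ k) - 1 - k • (of ℤ Q y - 1)) := by
      rw [pow_succ, map_mul, add_smul, one_smul]; noncomm_ring
    rw [h1]
    refine Submodule.add_mem _ ?_ ih
    exact pI_anti _ _ (by omega) (pI_mul j j _ _ ((dimS Q j).pow_mem hy k) hy)

theorem dimS_tf (l k : ℕ) (hk : 0 < k) (y : Q) (hy : y ^ k ∈ dimS Q l) : y ∈ dimS Q l := by
  have key : ∀ j ≤ l, y ∈ dimS Q j := by
    intro j
    induction j with
    | zero =>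
      intro _
      exact aug_pow_mem_pI 0 _ (by simpa using of_sub_mem_aug y)
    | succ j ih =>
      intro hj
      have h1 := dimS_tf_aux j k y (ih (by omega))
      have h2 : of ℤ Q (y ^ k) - 1 ∈ pI Q (j + 1) := pI_anti _ _ hj hy
      have h3 := Submodule.sub_mem _ h2 h1
      rw [sub_sub_cancel] at h3
      exact pI_pure _ k hk _ h3
  exact key l le_rfl


/-! ### Finiteness -/

theorem aug_le (T : Set Q) (hT : Subgroup.closure T = ⊤) :
    aug Q ≤ Submodule.span ℤ ((fun a : Q => of ℤ Q a - 1) '' T) ⊔ aug Q ^ 2 := by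
  have key : ∀ a : Q, of ℤ Q a - 1 ∈ Submodule.span ℤ ((fun a : Q => of ℤ Q a - 1) '' T) ⊔
      aug Q ^ 2 := by
    intro a
    have ha : a ∈ Subgroup.closure T := by rw [hT]; trivial
    induction ha using Subgroup.closure_induction with
    | mem x hx => exact Submodule.mem_sup_left (Submodule.subset_span ⟨x, hx, rfl⟩)
    | one => rw [map_one, sub_self]; exact Submodule.zero_mem _
    | mul x y _ _ hx hy =>
      have h1 : of ℤ Q (x * y) - 1 = (of ℤ Q x - 1) * (of ℤ Q y - 1) + (of ℤ Q x - 1) +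
          (of ℤ Q y - 1) := by
        rw [map_mul]; noncomm_ring
      rw [h1]
      refine Submodule.add_mem _ (Submodule.add_mem _ (Submodule.mem_sup_right ?_) hx) hy
      rw [pow_two]
      exact Submodule.mul_mem_mul (of_sub_mem_aug _) (of_sub_mem_aug _)
    | inv x _ hx =>
      have h1 : of ℤ Q x⁻¹ - 1 = - (of ℤ Q x - 1) - (of ℤ Q x⁻¹ - 1) * (of ℤ Q x - 1) := by
        have h2 : of ℤ Q x⁻¹ * of ℤ Q x = 1 := by rw [← map_mul, inv_mul_cancel, map_one]
        have h3 : (of ℤ Q x⁻¹ - 1) * (of ℤ Q x - 1) =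
            of ℤ Q x⁻¹ * of ℤ Q x - of ℤ Q x⁻¹ - of ℤ Q x + 1 := by noncomm_ring
        rw [h3, h2]; abel
      rw [h1]
      refine Submodule.sub_mem _ (Submodule.neg_mem _ hx) (Submodule.mem_sup_right ?_)
      rw [pow_two]
      exact Submodule.mul_mem_mul (of_sub_mem_aug _) (of_sub_mem_aug _)
  refine Submodule.span_le.2 ?_
  rintro _ ⟨a, rfl⟩
  exact key a

theorem aug_pow_le_gen (S : Submodule ℤ (MonoidAlgebra ℤ Q)) (hS : S ≤ aug Q)
    (h : aug Q ≤ S ⊔ aug Q ^ 2) (l : ℕ) : aug Q ^ (l + 1) ≤ S ^ (l + 1) ⊔ aug Q ^ (l + 2) := by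
  induction l with
  | zero => simpa using h
  | succ l ih =>
    have hSl : S ^ (l + 1) ≤ aug Q ^ (l + 1) := by
      exact pow_le_pow_left' hS _
    calc aug Q ^ (l + 1 + 1) = aug Q ^ (l + 1) * aug Q := pow_succ _ _
      _ ≤ (S ^ (l + 1) ⊔ aug Q ^ (l + 2)) * (S ⊔ aug Q ^ 2) := mul_le_mul' ih h
      _ = S ^ (l + 2) ⊔ S ^ (l + 1) * aug Q ^ 2 ⊔
          (aug Q ^ (l + 2) * S ⊔ aug Q ^ (l + 2) * aug Q ^ 2) := by
        rw [Submodule.sup_mul, Submodule.mul_sup, Submodule.mul_sup, ← pow_succ]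
      _ ≤ S ^ (l + 1 + 1) ⊔ aug Q ^ (l + 1 + 2) := by
        refine sup_le (sup_le le_sup_left (le_trans ?_ le_sup_right))
          (le_trans (sup_le ?_ ?_) le_sup_right)
        · refine (mul_le_mul' hSl le_rfl).trans ?_
          rw [← pow_add]
        · refine (mul_le_mul' le_rfl hS).trans ?_
          rw [← pow_succ]
        · rw [← pow_add]
          exact aug_pow_le (l + 2)

theorem top_le_gen (S : Submodule ℤ (MonoidAlgebra ℤ Q)) (hS : S ≤ aug Q)
    (h : aug Q ≤ S ⊔ aug Q ^ 2) (hfg : S.FG) (l : ℕ) :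
    ∃ F : Submodule ℤ (MonoidAlgebra ℤ Q), F.FG ∧ ⊤ ≤ F ⊔ aug Q ^ (l + 1) := by
  induction l with
  | zero =>
    refine ⟨1, by rw [Submodule.one_eq_span]; exact Submodule.fg_span_singleton 1, ?_⟩
    intro x _
    rw [zero_add, pow_one]
    induction x using MonoidAlgebra.induction_on with
    | of g =>
      have : of ℤ Q g = 1 + (of ℤ Q g - 1) := by abel
      rw [this]
      exact Submodule.add_mem _ (Submodule.mem_sup_left (Submodule.one_le.1 le_rfl))
        (Submodule.mem_sup_right (of_sub_mem_aug _))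
    | add f g hf hg => exact Submodule.add_mem _ (hf trivial) (hg trivial)
    | smul r f hf => exact Submodule.smul_mem _ _ (hf trivial)
  | succ l ih =>
    obtain ⟨F, hF, hle⟩ := ih
    refine ⟨F ⊔ S ^ (l + 1), hF.sup (hfg.pow _), hle.trans ?_⟩
    rw [sup_assoc]
    exact sup_le_sup le_rfl (aug_pow_le_gen S hS h l)

theorem finite_quot (hQ : (⊤ : Subgroup Q).FG) (l : ℕ) :
    Module.Finite ℤ (MonoidAlgebra ℤ Q ⧸ pI Q l) := by
  obtain ⟨T, hT⟩ := hQ
  obtain ⟨F, hF, hle⟩ := top_le_gen (Submodule.span ℤ ((fun a : Q => of ℤ Q a - 1) '' (T : Set Q)))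
    (Submodule.span_mono (Set.image_subset_range _ _)) (aug_le _ hT)
    (Submodule.fg_span (T.finite_toSet.image _)) l
  let f : MonoidAlgebra ℤ Q →ₗ[ℤ] (MonoidAlgebra ℤ Q ⧸ pI Q l) :=
    { toFun := fun x => (pI Q l).mkQ x
      map_add' := fun x y => map_add _ _ _
      map_smul' := fun n x => by
        rw [RingHom.id_apply]; exact map_zsmul ((pI Q l).mkQ) n x }
  have hf : ∀ x, f x = (pI Q l).mkQ x := fun _ => rfl
  refine ⟨?_⟩
  have h1 : (⊤ : Submodule ℤ (MonoidAlgebra ℤ Q ⧸ pI Q l)) = Submodule.map f F := by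
    refine le_antisymm ?_ le_top
    intro y _
    obtain ⟨x, rfl⟩ := (pI Q l).mkQ_surjective y
    have hx : x ∈ F ⊔ aug Q ^ (l + 1) := hle trivial
    obtain ⟨a, ha, b, hb, rfl⟩ := Submodule.mem_sup.1 hx
    refine ⟨a, ha, ?_⟩
    rw [hf, map_add]
    have : (pI Q l).mkQ b = 0 := by
      rw [Submodule.mkQ_apply, Submodule.Quotient.mk_eq_zero]
      exact aug_pow_mem_pI l b hb
    rw [this, add_zero]
  rw [h1]
  exact hF.map f

theorem tf_quot (l k : ℕ) (hk : 0 < k) (w : MonoidAlgebra ℤ Q ⧸ pI Q l) (hw : k • w = 0) :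
    w = 0 := by
  obtain ⟨x, rfl⟩ := (pI Q l).mkQ_surjective w
  rw [← map_nsmul, Submodule.mkQ_apply, Submodule.Quotient.mk_eq_zero] at hw
  rw [Submodule.mkQ_apply, Submodule.Quotient.mk_eq_zero]
  exact pI_pure l k hk x hw

variable (Q) in
/-- the representation by left multiplication -/
def lrep (l : ℕ) : MonoidAlgebra ℤ Q →+* AddMonoid.End (MonoidAlgebra ℤ Q ⧸ pI Q l) :=
  Module.toAddMonoidEnd _ _

theorem lrep_apply (l : ℕ) (x y : MonoidAlgebra ℤ Q) :
    lrep Q l x ((pI Q l).mkQ y) = (pI Q l).mkQ (x * y) := rfl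

theorem lrep_aug (l : ℕ) (x : MonoidAlgebra ℤ Q) (hx : x ∈ aug Q ^ (l + 1)) :
    lrep Q l x = 0 := by
  ext w
  obtain ⟨y, rfl⟩ := (pI Q l).mkQ_surjective w
  rw [lrep_apply, Submodule.mkQ_apply, (Submodule.Quotient.mk_eq_zero _).2]
  · rfl
  · exact aug_pow_mem_pI l _ (aug_pow_mul l y x hx)

theorem lrep_eq_one (l : ℕ) (a : Q) : lrep Q l (of ℤ Q a) = 1 ↔ a ∈ dimS Q l := by
  constructor
  · intro h
    have h1 : lrep Q l (of ℤ Q a) ((pI Q l).mkQ 1) = (pI Q l).mkQ 1 := by rw [h]; rfl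
    rw [lrep_apply, mul_one, ← sub_eq_zero, ← map_sub, Submodule.mkQ_apply,
      Submodule.Quotient.mk_eq_zero] at h1
    exact h1
  · intro h
    ext w
    obtain ⟨y, rfl⟩ := (pI Q l).mkQ_surjective w
    rw [lrep_apply]
    show _ = (pI Q l).mkQ y
    rw [← sub_eq_zero, ← map_sub, Submodule.mkQ_apply, Submodule.Quotient.mk_eq_zero]
    have : of ℤ Q a * y - y = (of ℤ Q a - 1) * y := by noncomm_ring
    rw [this]
    exact pI_mul_right l _ y h

theorem prod_mem_aug (l : List Q) : (l.map (fun a => of ℤ Q a - 1)).prod ∈ aug Q ^ l.length := by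
  induction l with
  | nil =>
    rw [List.map_nil, List.prod_nil, List.length_nil, pow_zero]
    exact Submodule.one_le.1 (le_refl (1 : Submodule ℤ (MonoidAlgebra ℤ Q)))
  | cons a l ih =>
    rw [List.map_cons, List.prod_cons, List.length_cons, pow_succ']
    exact Submodule.mul_mem_mul (of_sub_mem_aug a) ih

/-! ### functoriality -/

/-- conjugation-like automorphisms preserve everything -/
theorem map_aug (f : Q →* Q) (x : MonoidAlgebra ℤ Q) (hx : x ∈ aug Q) :
    MonoidAlgebra.mapDomainRingHom ℤ f x ∈ aug Q := by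
  induction hx using Submodule.span_induction with
  | mem x hx =>
    obtain ⟨b, rfl⟩ := hx
    have : MonoidAlgebra.mapDomainRingHom ℤ f (of ℤ Q b - 1) = of ℤ Q (f b) - 1 := by
      rw [map_sub, map_one]; simp
    simp only
    rw [this]
    exact of_sub_mem_aug _
  | zero => rw [map_zero]; exact Submodule.zero_mem _
  | add x y _ _ hx hy => rw [map_add]; exact Submodule.add_mem _ hx hy
  | smul r x _ hx => rw [map_zsmul]; exact Submodule.smul_mem _ _ hx

theorem map_aug_pow (f : Q →* Q) (l : ℕ) (x : MonoidAlgebra ℤ Q) (hx : x ∈ aug Q ^ (l + 1)) :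
    MonoidAlgebra.mapDomainRingHom ℤ f x ∈ aug Q ^ (l + 1) := by
  induction l generalizing x with
  | zero =>
    rw [zero_add, pow_one] at hx ⊢
    exact map_aug f x hx
  | succ l ih =>
    rw [pow_succ] at hx ⊢
    induction hx using Submodule.mul_induction_on' with
    | mem_mul_mem m hm n hn =>
      rw [map_mul]; exact Submodule.mul_mem_mul (ih m hm) (map_aug f n hn)
    | add x _ y _ hx hy => rw [map_add]; exact Submodule.add_mem _ hx hy

theorem map_pI (f : Q →* Q) (l : ℕ) (x : MonoidAlgebra ℤ Q) (hx : x ∈ pI Q l) :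
    MonoidAlgebra.mapDomainRingHom ℤ f x ∈ pI Q l := by
  obtain ⟨k, hk, hx⟩ := hx
  exact ⟨k, hk, by rw [← map_nsmul]; exact map_aug_pow f l _ hx⟩

/-- the ring endomorphism induced by an endomorphism of `Q` -/
def cf (f : Q →* Q) : MonoidAlgebra ℤ Q →+* MonoidAlgebra ℤ Q := MonoidAlgebra.mapDomainRingHom ℤ f

/-- the semilinear map given by `cf` -/
def cfs (f : Q →* Q) : MonoidAlgebra ℤ Q →ₛₗ[cf f] MonoidAlgebra ℤ Q where
  toFun := cf f
  map_add' := fun x y => map_add _ _ _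
  map_smul' := fun a x => by rw [smul_eq_mul, smul_eq_mul, map_mul]

theorem cfs_le (l : ℕ) (f : Q →* Q) : pI Q l ≤ (pI Q l).comap (cfs f) := by
  intro x hx
  exact map_pI f l x hx

/-- the map induced by an endomorphism of `Q` -/
def kapA (l : ℕ) (f : Q →* Q) : AddMonoid.End (MonoidAlgebra ℤ Q ⧸ pI Q l) :=
  ((pI Q l).mapQ (pI Q l) (cfs f) (cfs_le l f)).toAddMonoidHom

theorem kapA_apply (l : ℕ) (f : Q →* Q) (y : MonoidAlgebra ℤ Q) :
    kapA l f ((pI Q l).mkQ y) = (pI Q l).mkQ (cf f y) := rfl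

theorem cf_of (f : Q →* Q) (a : Q) : cf f (of ℤ Q a) = of ℤ Q (f a) := by
  simp [cf]

theorem cf_id (y : MonoidAlgebra ℤ Q) : cf (MonoidHom.id Q) y = y := by
  simp [cf]

theorem cf_comp (f g : Q →* Q) (y : MonoidAlgebra ℤ Q) : cf (f.comp g) y = cf f (cf g y) := by
  simp [cf]

theorem kapA_one (l : ℕ) : kapA l (MonoidHom.id Q) = 1 := by
  ext w
  obtain ⟨y, rfl⟩ := (pI Q l).mkQ_surjective w
  rw [kapA_apply, cf_id]
  rfl

theorem kapA_mul (l : ℕ) (f g : Q →* Q) : kapA l (f.comp g) = kapA l f * kapA l g := by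
  ext w
  obtain ⟨y, rfl⟩ := (pI Q l).mkQ_surjective w
  rw [AddMonoid.End.coe_mul, Function.comp_apply, kapA_apply, kapA_apply, kapA_apply, cf_comp]

theorem kapA_lrep (l : ℕ) (f : Q →* Q) (a : Q) :
    kapA l f * lrep Q l (of ℤ Q a) = lrep Q l (of ℤ Q (f a)) * kapA l f := by
  ext w
  obtain ⟨y, rfl⟩ := (pI Q l).mkQ_surjective w
  rw [AddMonoid.End.coe_mul, AddMonoid.End.coe_mul, Function.comp_apply, Function.comp_apply,
    lrep_apply, kapA_apply, kapA_apply, lrep_apply, map_mul, cf_of]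

/-! ### dimension subgroups -/

theorem rho_aug {W : Type} [AddCommGroup W] [DistribMulAction Q W] (n : ℕ)
    (x : MonoidAlgebra ℤ Q) (hx : x ∈ aug Q ^ n) (w : W) :
    MonoidAlgebra.lift ℤ (AddMonoid.End W) Q (ac W) x w ∈
      dpow (⊤ : Subgroup Q) n (⊤ : AddSubgroup W) := by
  induction n generalizing x w with
  | zero => trivial
  | succ n ih =>
    rw [pow_succ'] at hx
    induction hx using Submodule.mul_induction_on' with
    | mem_mul_mem m hm k hk =>
      rw [map_mul, AddMonoid.End.coe_mul, Function.comp_apply]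
      have hv := ih k hk w
      generalize MonoidAlgebra.lift ℤ (AddMonoid.End W) Q (ac W) k w = v at hv
      induction hm using Submodule.span_induction with
      | mem x hx =>
        obtain ⟨b, rfl⟩ := hx
        refine AddSubgroup.subset_closure ⟨b, trivial, v, hv, ?_⟩
        simp only [map_sub, map_one, MonoidAlgebra.lift_of]
        rfl
      | zero => rw [map_zero]; exact AddSubgroup.zero_mem _
      | add x y _ _ hx hy =>
        rw [map_add]; exact AddSubgroup.add_mem _ hx hy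
      | smul r x _ hx =>
        rw [map_zsmul]; exact AddSubgroup.zsmul_mem _ hx r
    | add x _ y _ hx hy =>
      rw [map_add]; exact AddSubgroup.add_mem _ hx hy

theorem dimS_sep (jen1 : Jen1) (h : PC Q) (hnil : Group.IsNilpotent Q) (htf : TF Q) (y : Q) (hy : y ≠ 1) :
    ∃ l, y ∉ dimS Q l := by
  obtain ⟨W, iW, aW, L, htor, hL, w, hw⟩ := jen1 Q h hnil htf y hy
  refine ⟨L, fun hyL => hw ?_⟩
  obtain ⟨k, hk, hyk⟩ := hyL
  have h1 := rho_aug (W := W) (L + 1) _ hyk w
  have h2 : dpow (⊤ : Subgroup Q) (L + 1) (⊤ : AddSubgroup W) = ⊥ := by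
    show dmul ⊤ (dpow (⊤ : Subgroup Q) L (⊤ : AddSubgroup W)) = ⊥
    rw [hL, eq_bot_iff]
    refine (AddSubgroup.closure_le _).2 ?_
    rintro _ ⟨g, _, v, hv, rfl⟩
    rw [AddSubgroup.mem_bot] at hv
    rw [hv, smul_zero, sub_zero]
    exact AddSubgroup.zero_mem _
  rw [h2, AddSubgroup.mem_bot, map_nsmul] at h1
  have h3 := htor k _ hk h1
  simp only [map_sub, map_one, MonoidAlgebra.lift_of] at h3
  exact sub_eq_zero.1 h3

theorem dimS_bot (jen1 : Jen1) (h : PC Q) (hnil : Group.IsNilpotent Q) (htf : TF Q) :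
    ∃ l, dimS Q l = ⊥ := by
  obtain ⟨l0, hl0⟩ : ∃ l0, ∀ l, hl (dimS Q l0) ≤ hl (dimS Q l) := by
    classical
    have hex : ∃ n, ∃ l, hl (dimS Q l) = n := ⟨_, 0, rfl⟩
    obtain ⟨l0, h0⟩ := Nat.find_spec hex
    exact ⟨l0, fun l => by rw [h0]; exact Nat.find_min' hex ⟨l, rfl⟩⟩
  refine ⟨l0, ?_⟩
  rw [eq_bot_iff]
  intro y hy
  by_contra hy1
  rw [Subgroup.mem_bot] at hy1
  obtain ⟨l, hl1⟩ := dimS_sep jen1 h hnil htf y hy1
  have hy2 : y ∉ dimS Q (max l l0) := fun hc => hl1 (dimS_anti _ _ (le_max_left _ _) hc)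
  have hrel : (dimS Q (max l l0)).relIndex (dimS Q l0) = 0 := by
    by_contra hne
    obtain ⟨k, hk, _, hyk⟩ := Subgroup.exists_pow_mem_of_relIndex_ne_zero hne hy
    exact hy2 (dimS_tf _ k hk y hyk.1)
  exact absurd (PC.hl_lt h _ _ (dimS_anti _ _ (le_max_right _ _)) hrel) (not_lt.2 (hl0 _))

end gr

/-! ### assembly -/

section asm
variable {G : Type} [Group G] (N U : Subgroup G) [U.Normal] [N.Normal]

/-- conjugation by `g` on `N / U` -/
def conjQ (g : G) : (N ⧸ U.subgroupOf N) →* (N ⧸ U.subgroupOf N) :=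
  QuotientGroup.map _ _ (MulAut.conjNormal g : MulAut N).toMonoidHom (by
    intro a ha
    rw [Subgroup.mem_subgroupOf] at ha
    rw [Subgroup.mem_comap, Subgroup.mem_subgroupOf]
    simp only [MulEquiv.coe_toMonoidHom, MulAut.conjNormal_apply]
    exact Subgroup.Normal.conj_mem ‹U.Normal› _ ha g)

theorem conjQ_mk (g : G) (a b : N) (hb : (b : G) = g * a * g⁻¹) :
    conjQ N U g (QuotientGroup.mk a) = QuotientGroup.mk b := by
  have : b = MulAut.conjNormal g a := by
    apply Subtype.ext; rw [hb, MulAut.conjNormal_apply]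
  rw [this]; rfl

theorem conjQ_one : conjQ N U 1 = MonoidHom.id _ := by
  ext a
  show conjQ N U 1 (QuotientGroup.mk a) = QuotientGroup.mk a
  exact conjQ_mk N U 1 a a (by simp)

theorem conjQ_mul (g g' : G) : conjQ N U (g * g') = (conjQ N U g).comp (conjQ N U g') := by
  ext a
  show conjQ N U (g * g') (QuotientGroup.mk a) = conjQ N U g (conjQ N U g' (QuotientGroup.mk a))
  have hN : N.Normal := inferInstance
  rw [conjQ_mk N U g' a ⟨g' * a * g'⁻¹, hN.conj_mem _ a.2 _⟩ rfl]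
  rw [conjQ_mk N U g ⟨g' * a * g'⁻¹, hN.conj_mem _ a.2 _⟩
    ⟨g * (g' * a * g'⁻¹) * g⁻¹, hN.conj_mem _ (hN.conj_mem _ a.2 _) _⟩ rfl]
  exact conjQ_mk N U (g * g') a _ (by simp only; group)

end asm

theorem jen2_of (jen1 : Jen1) {G : Type} [Group G] (h : PC G) (N U : Subgroup G) [U.Normal] [N.Normal]
    (_hUN : U ≤ N) (utor : ∀ (g : G) (k : ℕ), 0 < k → g ^ k ∈ U → g ∈ U)
    (nil : ∃ j, ucs N U j = N) :
    ∃ (W : Type) (_ : AddCommGroup W) (lam : N →* AddMonoid.End W) (kap : G →* AddMonoid.End W),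
      Module.Finite ℤ W ∧ (∀ (k : ℕ) (w : W), 0 < k → k • w = 0 → w = 0) ∧
      (∀ a : N, lam a = 1 ↔ (a : G) ∈ U) ∧
      (∀ (g : G) (a b : N), (b : G) = g * a * g⁻¹ → kap g * lam a = lam b * kap g) ∧
      ∃ L, ∀ l : List N, l.length = L → (l.map (fun a => lam a - 1)).prod = 0 := by
  have hPC : PC (N ⧸ U.subgroupOf N) :=
    (h.sub N).surj (QuotientGroup.mk' _) (QuotientGroup.mk'_surjective _)
  have hTF : TF (N ⧸ U.subgroupOf N) := by
    intro g n hn hg
    obtain ⟨a, rfl⟩ := QuotientGroup.mk'_surjective (U.subgroupOf N) g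
    rw [← map_pow] at hg
    rw [QuotientGroup.mk'_apply, QuotientGroup.eq_one_iff, Subgroup.mem_subgroupOf] at hg ⊢
    exact utor a n hn (by simpa using hg)
  have hnil : Group.IsNilpotent (N ⧸ U.subgroupOf N) := by
    rw [Subgroup.nilpotent_iff_finite_ascending_central_series]
    obtain ⟨n, hn⟩ := nil
    refine ⟨n, fun j => ((ucs N U j).subgroupOf N).map (QuotientGroup.mk' (U.subgroupOf N)),
      ⟨?_, ?_⟩, ?_⟩
    · rw [eq_bot_iff]
      rintro _ ⟨a, ha, rfl⟩
      rw [Subgroup.mem_bot, QuotientGroup.mk'_apply, QuotientGroup.eq_one_iff]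
      exact ha
    · rintro x j ⟨a, ha, rfl⟩ g
      obtain ⟨b, rfl⟩ := QuotientGroup.mk'_surjective (U.subgroupOf N) g
      refine ⟨a * b * a⁻¹ * b⁻¹, ?_, by simp only [map_mul, map_inv, commutatorElement_def]⟩
      exact (show (a : G) ∈ ucs N U (j + 1) from ha).2 b b.2
    · simp only [hn]
      rw [Subgroup.subgroupOf_self]
      exact Subgroup.map_top_of_surjective _ (QuotientGroup.mk'_surjective _)
  obtain ⟨L, hL⟩ := dimS_bot jen1 hPC hnil hTF
  refine ⟨_, inferInstance,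
    ((lrep (N ⧸ U.subgroupOf N) L).toMonoidHom.comp (of ℤ (N ⧸ U.subgroupOf N))).comp
      (QuotientGroup.mk' (U.subgroupOf N)),
    { toFun := fun g => kapA L (conjQ N U g)
      map_one' := by rw [conjQ_one, kapA_one]
      map_mul' := fun g g' => by rw [conjQ_mul, kapA_mul] },
    finite_quot (hPC.fg ⊤) L, fun k w hk hw => tf_quot L k hk w hw, ?_, ?_, L + 1, ?_⟩
  · intro a
    have h1 := lrep_eq_one (Q := N ⧸ U.subgroupOf N) L (QuotientGroup.mk' _ a)
    rw [hL, Subgroup.mem_bot, QuotientGroup.mk'_apply, QuotientGroup.eq_one_iff,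
      Subgroup.mem_subgroupOf] at h1
    exact h1
  · intro g a b hb
    have h1 := kapA_lrep L (conjQ N U g) (QuotientGroup.mk a)
    rw [conjQ_mk N U g a b hb] at h1
    exact h1
  · intro l hl
    have h1 := prod_mem_aug (l.map (QuotientGroup.mk' (U.subgroupOf N)))
    rw [List.length_map, hl] at h1
    have h2 := lrep_aug L _ h1
    rw [map_list_prod, List.map_map, List.map_map] at h2
    rw [← h2]
    congr 1
    refine List.map_congr_left fun a _ => ?_
    simp only [Function.comp_apply, map_sub, map_one]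
    rfl

end Pool.Agent.Polc
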