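import Pool.Agent.Polc.JEN1
import Pool.Agent.Polc.JEN2a

set_option autoImplicit false

namespace Pool.Agent.Polc

/-- a canonical faithful unipotent lattice for `N / U`, with `G` acting compatibly -/
theorem jen2 {G : Type} [Group G] (h : PC G) (N U : Subgroup G) [U.Normal] [N.Normal]
    (hUN : U ≤ N) (utor : ∀ (g : G) (k : ℕ), 0 < k → g ^ k ∈ U → g ∈ U)
    (nil : ∃ j, ucs N U j = N) :
    ∃ (W : Type) (_ : AddCommGroup W) (lam : N →* AddMonoid.End W) (kap : G →* AddMonoid.End W),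
      Module.Finite ℤ W ∧ (∀ (k : ℕ) (w : W), 0 < k → k • w = 0 → w = 0) ∧
      (∀ a : N, lam a = 1 ↔ (a : G) ∈ U) ∧
      (∀ (g : G) (a b : N), (b : G) = g * a * g⁻¹ → kap g * lam a = lam b * kap g) ∧
      ∃ L, ∀ l : List N, l.length = L → (l.map (fun a => lam a - 1)).prod = 0 :=
  jen2_of (fun _ _ h1 h2 h3 y hy => jen1 h1 h2 h3 y hy) h N U hUN utor nil

end Pool.Agent.Polc
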