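import Mathlib
import Pool.Agent.Polc.Defs
import Pool.Agent.Polc.NOETH

/-!
# Module LAM: the group generated by the conjugates of a family is finitely generated modulo `K`

No use is made of the normal subgroup `N`: the derived series of `G` gives the chain.
-/

set_option autoImplicit false

namespace Pool.Agent.Polc

/-- pointwise conjugation on families -/
def lamCj {G : Type} [Group G] (γ : G) : (ℕ → ℕ → G) →* (ℕ → ℕ → G) where
  toFun f := fun i s => γ * f i s * γ⁻¹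
  map_one' := by funext i s; simp
  map_mul' a b := by funext i s; simp [mul_assoc]

theorem lamCj_apply {G : Type} [Group G] (γ : G) (f : ℕ → ℕ → G) (i s : ℕ) :
    lamCj γ f i s = γ * f i s * γ⁻¹ := rfl

/-- a stable group of families with a stable subgroup containing the commutators -/
structure LamD (G : Type) [Group G] where
  H : Subgroup (ℕ → ℕ → G)
  K : Subgroup (ℕ → ℕ → G)
  hHG : ∀ (γ : G), ∀ f ∈ H, lamCj γ f ∈ H
  hKG : ∀ (γ : G), ∀ f ∈ K, lamCj γ f ∈ K
  hKc : ∀ a ∈ H, ∀ b ∈ H, cm a b ∈ K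
  hKn : ∀ a ∈ H, ∀ k ∈ K, a * k * a⁻¹ ∈ K

namespace LamD

variable {G : Type} [Group G] (D : LamD G)

/-- the kernel -/
def K' : Subgroup D.H := D.K.subgroupOf D.H

theorem mem_K' (a : D.H) : a ∈ D.K' ↔ (a : ℕ → ℕ → G) ∈ D.K := Subgroup.mem_subgroupOf

instance : D.K'.Normal := ⟨fun k hk a => by
  rw [mem_K'] at hk ⊢
  exact D.hKn a a.2 k hk⟩

instance : CommGroup (D.H ⧸ D.K') :=
  { (inferInstance : Group (D.H ⧸ D.K')) with
    mul_comm := by
      intro a b
      induction a using QuotientGroup.induction_on with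
      | H a =>
        induction b using QuotientGroup.induction_on with
        | H b =>
          rw [← QuotientGroup.mk_mul, ← QuotientGroup.mk_mul, QuotientGroup.eq, mem_K']
          have h := D.hKc _ (D.H.inv_mem b.2) _ (D.H.inv_mem a.2)
          have e : (((a * b)⁻¹ * (b * a) : D.H) : ℕ → ℕ → G)
              = cm (b : ℕ → ℕ → G)⁻¹ (a : ℕ → ℕ → G)⁻¹ := by
            simp only [cm]
            push_cast
            group
          rw [e]
          exact h }

/-- the abelian section -/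
def A : Type := Additive (D.H ⧸ D.K')

instance : AddCommGroup D.A := inferInstanceAs (AddCommGroup (Additive (D.H ⧸ D.K')))

/-- conjugation on `H` -/
def hc (γ : G) : D.H →* D.H where
  toFun f := ⟨lamCj γ f, D.hHG γ f f.2⟩
  map_one' := by ext1; exact map_one _
  map_mul' a b := by ext1; exact map_mul _ _ _

/-- conjugation on the quotient -/
def act (γ : G) : D.H ⧸ D.K' →* D.H ⧸ D.K' :=
  QuotientGroup.map _ _ (D.hc γ) (fun k hk => by
    rw [mem_K'] at hk
    rw [Subgroup.mem_comap, mem_K']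
    exact D.hKG γ k hk)

theorem act_mk (γ : G) (f : D.H) :
    D.act γ (QuotientGroup.mk f) = QuotientGroup.mk (D.hc γ f) := rfl

/-- the class map -/
def cl : D.H → D.A := fun f => Additive.ofMul (QuotientGroup.mk f)

theorem cl_surj (a : D.A) : ∃ f : D.H, D.cl f = a := by
  obtain ⟨f, hf⟩ := QuotientGroup.mk_surjective (Additive.toMul a : D.H ⧸ D.K')
  exact ⟨f, hf⟩

theorem cl_mul (a b : D.H) : D.cl (a * b) = D.cl a + D.cl b := rfl

theorem cl_one : D.cl 1 = 0 := rfl

theorem cl_inv (a : D.H) : D.cl a⁻¹ = - D.cl a := rfl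

theorem cl_eq_zero (a : D.H) : D.cl a = 0 ↔ (a : ℕ → ℕ → G) ∈ D.K := by
  rw [← mem_K', ← QuotientGroup.eq_one_iff]
  exact Iff.rfl

instance : SMul G D.A := ⟨fun γ a => Additive.ofMul (D.act γ (Additive.toMul a))⟩

theorem cl_hc (γ : G) (a : D.H) : D.cl (D.hc γ a) = γ • D.cl a := rfl

theorem hc_one (a : D.H) : D.hc 1 a = a := by
  ext i s
  change 1 * a.1 i s * 1⁻¹ = a.1 i s
  simp

theorem hc_mul (γ δ : G) (a : D.H) : D.hc (γ * δ) a = D.hc γ (D.hc δ a) := by
  ext i s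
  change (γ * δ) * a.1 i s * (γ * δ)⁻¹ = γ * (δ * a.1 i s * δ⁻¹) * γ⁻¹
  group

instance : DistribMulAction G D.A where
  one_smul a := by
    obtain ⟨f, rfl⟩ := D.cl_surj a
    rw [← cl_hc, hc_one]
  mul_smul γ δ a := by
    obtain ⟨f, rfl⟩ := D.cl_surj a
    rw [← cl_hc, ← cl_hc, ← cl_hc, hc_mul]
  smul_zero γ := by
    rw [← cl_one, ← cl_hc, map_one]
  smul_add γ a b := by
    obtain ⟨f, rfl⟩ := D.cl_surj a
    obtain ⟨g, rfl⟩ := D.cl_surj b
    rw [← cl_mul, ← cl_hc, ← cl_hc, ← cl_hc, map_mul, cl_mul]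

/-- classes of the families with values in `Y` -/
def sub (Y : Subgroup G) : AddSubgroup D.A where
  carrier := {a | ∃ f : D.H, (∀ i s, f.1 i s ∈ Y) ∧ a = D.cl f}
  zero_mem' := ⟨1, fun i s => Y.one_mem, rfl⟩
  add_mem' := by
    rintro a b ⟨f, hf, rfl⟩ ⟨g, hg, rfl⟩
    exact ⟨f * g, fun i s => Y.mul_mem (hf i s) (hg i s), rfl⟩
  neg_mem' := by
    rintro a ⟨f, hf, rfl⟩
    exact ⟨f⁻¹, fun i s => Y.inv_mem (hf i s), rfl⟩

theorem mem_sub {Y : Subgroup G} {a : D.A} :
    a ∈ D.sub Y ↔ ∃ f : D.H, (∀ i s, f.1 i s ∈ Y) ∧ a = D.cl f := Iff.rfl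

theorem sub_stb (Y : Subgroup G) (hY : Y.Normal) : Stb (⊤ : Subgroup G) (D.sub Y) := by
  rintro γ _ a ⟨f, hf, rfl⟩
  exact ⟨D.hc γ f, fun i s => hY.conj_mem _ (hf i s) γ, rfl⟩

theorem sub_mono {Y Y' : Subgroup G} (h : Y ≤ Y') : D.sub Y ≤ D.sub Y' := by
  rintro a ⟨f, hf, rfl⟩
  exact ⟨f, fun i s => h (hf i s), rfl⟩

theorem sub_bot : D.sub (⊥ : Subgroup G) = ⊥ := by
  rw [eq_bot_iff]
  rintro a ⟨f, hf, rfl⟩
  have : f = 1 := by
    ext i s
    exact Subgroup.mem_bot.mp (hf i s)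
  rw [this, cl_one]
  exact AddSubgroup.zero_mem _

theorem sub_top : D.sub (⊤ : Subgroup G) = ⊤ := by
  rw [eq_top_iff]
  intro a _
  obtain ⟨f, rfl⟩ := D.cl_surj a
  exact ⟨f, fun _ _ => Subgroup.mem_top _, rfl⟩

end LamD

/-- conjugation on the abelianization of a normal subgroup, as a linear map -/
noncomputable def lamC {G : Type} [Group G] (Y : Subgroup G) [Y.Normal] (γ : G) :
    Additive (Abelianization Y) →ₗ[ℤ] Additive (Abelianization Y) :=
  (MonoidHom.toAdditive (Abelianization.map (MulAut.conjNormal γ : Y ≃* Y).toMonoidHom)).toIntLinearMap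

/-- class in the abelianization -/
def lamCls {G : Type} [Group G] {Y : Subgroup G} (y : Y) : Additive (Abelianization Y) :=
  Additive.ofMul (Abelianization.of y)

theorem lamCls_mul {G : Type} [Group G] {Y : Subgroup G} (a b : Y) :
    lamCls (a * b) = lamCls a + lamCls b := by
  unfold lamCls
  rw [map_mul, ofMul_mul]

theorem lamCls_one {G : Type} [Group G] {Y : Subgroup G} :
    lamCls (1 : Y) = 0 := by
  unfold lamCls
  rw [map_one, ofMul_one]

theorem lamCls_inv {G : Type} [Group G] {Y : Subgroup G} (a : Y) :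
    lamCls a⁻¹ = - lamCls a := by
  unfold lamCls
  rw [map_inv, ofMul_inv]

theorem lamC_cls {G : Type} [Group G] (Y : Subgroup G) [Y.Normal] (γ : G) (y : Y) :
    lamC Y γ (lamCls y) = lamCls (MulAut.conjNormal γ y) := rfl

theorem lamCls_eq {G : Type} [Group G] {Y : Subgroup G} (a b : Y) (h : lamCls a = lamCls b) :
    (a : G) * (b : G)⁻¹ ∈ ⁅Y, Y⁆ := by
  have h1 : Abelianization.of (a * b⁻¹) = 1 := by
    rw [map_mul, map_inv, mul_inv_eq_one]
    exact h
  have h2 : a * b⁻¹ ∈ commutator Y := by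
    rw [← Abelianization.ker_of]
    exact h1
  rw [← Subgroup.map_subtype_commutator]
  exact ⟨_, h2, rfl⟩

/-- finitely many conjugations span all conjugations -/
theorem lam_span {G : Type} [Group G] (h : PC G) (Y : Subgroup G) [Y.Normal] :
    ∃ L : Set G, L.Finite ∧ ∀ γ : G, lamC Y γ ∈ Submodule.span ℤ (lamC Y '' L) := by
  classical
  have h1 : Group.FG Y := (Group.fg_iff_subgroup_fg Y).mpr (h.fg Y)
  have h2 : Group.FG (Abelianization Y) :=
    Group.fg_of_surjective (f := Abelianization.of) (QuotientGroup.mk_surjective)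
  have h3 : AddGroup.FG (Additive (Abelianization Y)) := inferInstance
  have h4 : Module.Finite ℤ (Additive (Abelianization Y)) := Module.Finite.iff_addGroup_fg.mpr h3
  have h5 : IsNoetherian ℤ (Additive (Abelianization Y) →ₗ[ℤ] Additive (Abelianization Y)) :=
    inferInstance
  have h6 : (Submodule.span ℤ (Set.range (lamC Y))).FG := h5.noetherian _
  obtain ⟨s, hs, he⟩ := (Submodule.fg_span_iff_fg_span_finset_subset _).mp h6
  rw [← Set.image_univ, Finset.subset_set_image_iff] at hs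
  obtain ⟨t, _, ht⟩ := hs
  refine ⟨t, t.finite_toSet, fun γ => ?_⟩
  have : lamC Y γ ∈ Submodule.span ℤ (Set.range (lamC Y)) :=
    Submodule.subset_span ⟨γ, rfl⟩
  rw [he, ← ht] at this
  simpa using this

namespace LamD

variable {G : Type} [Group G] (D : LamD G)

/-- realising integral combinations of conjugations -/
theorem comb (Y : Subgroup G) [Y.Normal] (L : Set G) (f : D.H) (f' : ℕ → ℕ → Y)
    (hf : ∀ i s, ((f' i s : Y) : G) = f.1 i s)
    (φ : Additive (Abelianization Y) →ₗ[ℤ] Additive (Abelianization Y))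
    (hφ : φ ∈ Submodule.span ℤ (lamC Y '' L)) :
    ∃ (g : D.H) (g' : ℕ → ℕ → Y), (∀ i s, ((g' i s : Y) : G) = g.1 i s) ∧
      (∀ i s, lamCls (g' i s) = φ (lamCls (f' i s))) ∧
      D.cl g ∈ AddSubgroup.closure ((fun γ : G => γ • D.cl f) '' L) := by
  have key : φ ∈ AddSubgroup.closure (lamC Y '' L) := by
    rw [← Submodule.span_int_eq_addSubgroupClosure]
    exact hφ
  induction key using AddSubgroup.closure_induction with
  | mem x hx =>
    obtain ⟨γ, hγ, rfl⟩ := hx
    refine ⟨D.hc γ f, fun i s => MulAut.conjNormal γ (f' i s), ?_, ?_, ?_⟩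
    · intro i s
      rw [MulAut.conjNormal_apply, hf]
      rfl
    · intro i s
      rw [lamC_cls]
    · rw [cl_hc]
      exact AddSubgroup.subset_closure ⟨γ, hγ, rfl⟩
  | zero =>
    refine ⟨1, fun i s => 1, fun i s => rfl, fun i s => ?_, ?_⟩
    · rw [lamCls_one, LinearMap.zero_apply]
    · rw [cl_one]
      exact AddSubgroup.zero_mem _
  | add x y hx hy ihx ihy =>
    obtain ⟨g, g', h1, h2, h3⟩ := ihx (by
      rw [← Submodule.span_int_eq_addSubgroupClosure] at hx
      exact hx)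
    obtain ⟨k, k', h4, h5, h6⟩ := ihy (by
      rw [← Submodule.span_int_eq_addSubgroupClosure] at hy
      exact hy)
    refine ⟨g * k, fun i s => g' i s * k' i s, fun i s => ?_, fun i s => ?_, ?_⟩
    · push_cast
      rw [h1, h4]
      rfl
    · rw [lamCls_mul, h2, h5, LinearMap.add_apply]
    · rw [cl_mul]
      exact AddSubgroup.add_mem _ h3 h6
  | neg x hx ihx =>
    obtain ⟨g, g', h1, h2, h3⟩ := ihx (by
      rw [← Submodule.span_int_eq_addSubgroupClosure] at hx
      exact hx)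
    refine ⟨g⁻¹, fun i s => (g' i s)⁻¹, fun i s => ?_, fun i s => ?_, ?_⟩
    · push_cast
      rw [h1]
      rfl
    · rw [lamCls_inv, h2, LinearMap.neg_apply]
    · rw [cl_inv]
      exact AddSubgroup.neg_mem _ h3

theorem step (h : PC G) (Y Z : Subgroup G) [hY : Y.Normal] (hZ : Z = ⁅Y, Y⁆)
    (hA : FGM (⊤ : Subgroup G) (⊤ : AddSubgroup D.A)) (hfg : (D.sub Z).FG) :
    (D.sub Y).FG := by
  obtain ⟨F, hF, hFe⟩ := noeth h ⊤ ⊤ (D.sub Y) hA (D.sub_stb Y hY) le_top
  obtain ⟨L, hL, hLs⟩ := lam_span h Y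
  have hZY : Z ≤ Y := hZ ▸ Subgroup.commutator_le_self Y
  have hFs : ∀ f ∈ F, f ∈ D.sub Y := fun f hf => by
    rw [hFe]
    exact noeth_subset_gspan _ _ hf
  have main : D.sub Y = AddSubgroup.closure ((fun p : G × D.A => p.1 • p.2) '' (L ×ˢ F))
      ⊔ D.sub Z := by
    apply le_antisymm
    · rw [hFe]
      refine (AddSubgroup.closure_le _).mpr ?_
      rintro m ⟨γ, _, a, ha, rfl⟩
      obtain ⟨f, hf, rfl⟩ := hFs a ha
      obtain ⟨g, g', h1, h2, h3⟩ := D.comb Y L f (fun i s => ⟨f.1 i s, hf i s⟩)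
        (fun i s => rfl) _ (hLs γ)
      have e : γ • D.cl f = D.cl g + D.cl (D.hc γ f * g⁻¹) := by
        rw [cl_mul, cl_inv, cl_hc]
        abel
      rw [e]
      refine AddSubgroup.add_mem _ ?_ ?_
      · refine (le_sup_left : _ ≤ _ ⊔ D.sub Z) ?_
        refine (AddSubgroup.closure_mono ?_) h3
        rintro _ ⟨δ, hδ, rfl⟩
        exact ⟨(δ, D.cl f), ⟨hδ, ha⟩, rfl⟩
      · refine (le_sup_right : D.sub Z ≤ _) ?_
        refine ⟨_, fun i s => ?_, rfl⟩
        have h4 := h2 i s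
        rw [lamC_cls] at h4
        have h5 := lamCls_eq _ _ h4.symm
        rw [hZ]
        rw [MulAut.conjNormal_apply, h1] at h5
        exact h5
    · refine sup_le ?_ (D.sub_mono hZY)
      refine (AddSubgroup.closure_le _).mpr ?_
      rintro _ ⟨⟨γ, a⟩, ⟨_, ha⟩, rfl⟩
      exact D.sub_stb Y hY γ (Subgroup.mem_top _) a (hFs a ha)
  rw [main]
  refine AddSubgroup.FG.sup ?_ hfg
  exact ⟨((hL.prod hF).image fun p : G × D.A => p.1 • p.2).toFinset, by
    rw [Set.Finite.coe_toFinset]⟩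

theorem fg_all (h : PC G) (hA : FGM (⊤ : Subgroup G) (⊤ : AddSubgroup D.A)) (k : ℕ) :
    ∀ j, derivedSeries G (j + k) = ⊥ → (D.sub (derivedSeries G j)).FG := by
  induction k with
  | zero =>
    intro j hj
    rw [Nat.add_zero] at hj
    rw [hj, sub_bot]
    exact ⟨∅, by simp⟩
  | succ k ih =>
    intro j hj
    have := derivedSeries_normal G j
    refine D.step h (derivedSeries G j) (derivedSeries G (j + 1)) rfl hA (ih (j + 1) ?_)
    rw [← hj]
    congr 1
    omega

end LamD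

/-- the group generated by the conjugates of `ξ` is finitely generated modulo `K` -/
theorem lam_fg {G : Type} [Group G] (h : PC G) (N : Subgroup G) (hN : N.Normal)
    (hab : ∀ a b : G, cm a b ∈ N) (ξ : ℕ → ℕ → G) (HH : Subgroup (ℕ → ℕ → G))
    (hHH : HH = Subgroup.closure {f | ∃ γ : G, f = fun i s => γ * ξ i s * γ⁻¹})
    (K : Subgroup (ℕ → ℕ → G)) (hKc : ∀ a ∈ HH, ∀ b ∈ HH, cm a b ∈ K)
    (hKn : ∀ a ∈ HH, ∀ k ∈ K, a * k * a⁻¹ ∈ K)
    (hKG : ∀ (γ : G), ∀ k ∈ K, (fun i s => γ * k i s * γ⁻¹) ∈ K) :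
    ∃ T : Set (ℕ → ℕ → G), T.Finite ∧ T ⊆ HH ∧ HH ≤ Subgroup.closure T ⊔ K := by
  let _ := hN
  let _ := hab
  have hHG : ∀ (γ : G), ∀ f ∈ HH, lamCj γ f ∈ HH := by
    intro γ f hf
    have h1 : HH ≤ HH.comap (lamCj γ) := by
      conv_lhs => rw [hHH]
      rw [Subgroup.closure_le]
      rintro _ ⟨δ, rfl⟩
      change lamCj γ _ ∈ HH
      rw [hHH]
      refine Subgroup.subset_closure ⟨γ * δ, ?_⟩
      funext i s
      rw [lamCj_apply]
      group
    exact h1 hf
  let D : LamD G := ⟨HH, K, hHG, hKG, hKc, hKn⟩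
  have hξ : ξ ∈ HH := by
    rw [hHH]
    refine Subgroup.subset_closure ⟨1, ?_⟩
    funext i s
    simp
  have hA : FGM (⊤ : Subgroup G) (⊤ : AddSubgroup D.A) := by
    refine ⟨{D.cl ⟨ξ, hξ⟩}, Set.finite_singleton _, ?_⟩
    symm
    rw [eq_top_iff]
    intro a _
    obtain ⟨⟨f, hf⟩, rfl⟩ := D.cl_surj a
    have hf' : f ∈ Subgroup.closure {f | ∃ γ : G, f = fun i s => γ * ξ i s * γ⁻¹} := hHH ▸ hf
    -- the subgroup of good elements
    have h2 : ∀ f ∈ Subgroup.closure {f | ∃ γ : G, f = fun i s => γ * ξ i s * γ⁻¹},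
        ∀ hf : f ∈ HH, D.cl ⟨f, hf⟩ ∈ gspan (⊤ : Subgroup G) {D.cl ⟨ξ, hξ⟩} := by
      intro f hf
      induction hf using Subgroup.closure_induction with
      | mem x hx =>
        intro hx'
        obtain ⟨γ, rfl⟩ := hx
        exact AddSubgroup.subset_closure ⟨γ, Subgroup.mem_top _, _, rfl, rfl⟩
      | one =>
        intro _
        exact AddSubgroup.zero_mem _
      | mul x y hx hy ihx ihy =>
        intro _
        have hx' : x ∈ HH := hHH ▸ hx
        have hy' : y ∈ HH := hHH ▸ hy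
        exact AddSubgroup.add_mem _ (ihx hx') (ihy hy')
      | inv x hx ihx =>
        intro _
        have hx' : x ∈ HH := hHH ▸ hx
        exact AddSubgroup.neg_mem _ (ihx hx')
    exact h2 f hf' hf
  obtain ⟨n, hn⟩ := h.solv.solvable
  have hfg : (D.sub (derivedSeries G 0)).FG := D.fg_all h hA n 0 (by rw [Nat.zero_add]; exact hn)
  rw [derivedSeries_zero, D.sub_top] at hfg
  obtain ⟨S, hS⟩ := hfg
  choose r hr using D.cl_surj
  refine ⟨(fun a => (r a : ℕ → ℕ → G)) '' S, S.finite_toSet.image _, ?_, ?_⟩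
  · rintro _ ⟨a, _, rfl⟩
    exact (r a).2
  · intro f hf
    have h3 : ∀ a ∈ AddSubgroup.closure (S : Set D.A), ∃ g : D.H, D.cl g = a ∧
        (g : ℕ → ℕ → G) ∈
          Subgroup.closure ((fun a => (r a : ℕ → ℕ → G)) '' (S : Set D.A)) ⊔ K := by
      intro a ha
      induction ha using AddSubgroup.closure_induction with
      | mem x hx =>
        exact ⟨r x, hr x, (le_sup_left : _ ≤ _ ⊔ K) (Subgroup.subset_closure ⟨x, hx, rfl⟩)⟩
      | zero => exact ⟨1, rfl, Subgroup.one_mem _⟩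
      | add x y _ _ ihx ihy =>
        obtain ⟨g, hg, hg'⟩ := ihx
        obtain ⟨k, hk, hk'⟩ := ihy
        exact ⟨g * k, by rw [D.cl_mul, hg, hk], Subgroup.mul_mem _ hg' hk'⟩
      | neg x _ ihx =>
        obtain ⟨g, hg, hg'⟩ := ihx
        exact ⟨g⁻¹, by rw [D.cl_inv, hg], Subgroup.inv_mem _ hg'⟩
    obtain ⟨g, hg, hg'⟩ := h3 (D.cl ⟨f, hf⟩) (by rw [hS]; exact AddSubgroup.mem_top _)
    have h4 : D.cl (g⁻¹ * ⟨f, hf⟩) = 0 := by
      rw [D.cl_mul, D.cl_inv, hg, neg_add_cancel]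
    have h5 : ((g⁻¹ * ⟨f, hf⟩ : D.H) : ℕ → ℕ → G) ∈ K := (D.cl_eq_zero _).mp h4
    have h6 : f = g * ((g⁻¹ * ⟨f, hf⟩ : D.H) : ℕ → ℕ → G) := by
      push_cast
      group
    rw [h6]
    exact Subgroup.mul_mem _ hg' ((le_sup_right : K ≤ _) h5)

end Pool.Agent.Polc
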