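import Pool.Agent.Polc.Defs2

/-!
Auxiliary results for the module NBF (`MP_9e8505_al`): algebraic vectors, Heisenberg type
relations.
-/

set_option autoImplicit false

namespace Pool.Agent.Polc

open scoped TensorProduct

namespace NBF

/-! ### locally algebraic vectors over `ℂ` -/

section cpx

variable {V : Type} [AddCommGroup V] [Module ℂ V]

/-- locally algebraic vectors -/
def LA (c : Module.End ℂ V) : Submodule ℂ V where
  carrier := {v | ∃ F : Polynomial ℂ, F ≠ 0 ∧ Polynomial.aeval c F v = 0}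
  zero_mem' := ⟨1, one_ne_zero, by simp⟩
  add_mem' := by
    rintro v w ⟨F, hF, hv⟩ ⟨F', hF', hw⟩
    refine ⟨F * F', mul_ne_zero hF hF', ?_⟩
    have h1 : Polynomial.aeval c (F * F') v = 0 := by
      rw [mul_comm, map_mul, Module.End.mul_apply, hv, map_zero]
    have h2 : Polynomial.aeval c (F * F') w = 0 := by
      rw [map_mul, Module.End.mul_apply, hw, map_zero]
    rw [map_add, h1, h2, add_zero]
  smul_mem' := by
    rintro a v ⟨F, hF, hv⟩
    exact ⟨F, hF, by rw [map_smul, hv, smul_zero]⟩

theorem eig (c : Module.End ℂ V) (P : Submodule ℂ V) (hP : ∀ v ∈ P, c v ∈ P) :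
    ∀ (n : ℕ) (F : Polynomial ℂ), F ≠ 0 → F.natDegree ≤ n → ∀ v ∈ P, v ≠ 0 →
      Polynomial.aeval c F v = 0 → ∃ w ∈ P, w ≠ 0 ∧ ∃ μ : ℂ, c w = μ • w := by
  intro n
  induction n with
  | zero =>
    intro F hF hd v _ hv0 h
    exfalso
    have h1 := Polynomial.eq_C_of_natDegree_le_zero hd
    rw [h1] at h hF
    rw [Polynomial.aeval_C, Module.algebraMap_end_apply] at h
    rcases smul_eq_zero.1 h with h2 | h2
    · exact hF (by rw [h2]; simp)
    · exact hv0 h2
  | succ n ih =>
    intro F hF hd v hvP hv0 h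
    by_cases hdeg : F.natDegree ≤ n
    · exact ih F hF hdeg v hvP hv0 h
    have hd1 : F.natDegree = n + 1 := by omega
    obtain ⟨r, hr⟩ := IsAlgClosed.exists_root F (by
      intro h0
      have := Polynomial.natDegree_eq_zero_iff_degree_le_zero.2 (le_of_eq h0)
      omega)
    obtain ⟨F1, hF1⟩ := Polynomial.dvd_iff_isRoot.2 hr
    have hF10 : F1 ≠ 0 := by
      rintro rfl
      exact hF (by rw [hF1, mul_zero])
    have hdF1 : F1.natDegree ≤ n := by
      have := Polynomial.natDegree_mul (Polynomial.X_sub_C_ne_zero r) hF10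
      rw [← hF1, Polynomial.natDegree_X_sub_C] at this
      omega
    by_cases hv' : c v - r • v = 0
    · exact ⟨v, hvP, hv0, r, sub_eq_zero.1 hv'⟩
    · refine ih F1 hF10 hdF1 (c v - r • v) (P.sub_mem (hP v hvP) (P.smul_mem r hvP)) hv' ?_
      have h2 : (c v - r • v) = Polynomial.aeval c (Polynomial.X - Polynomial.C r) v := by
        simp
      rw [h2, ← Module.End.mul_apply, ← map_mul, mul_comm, ← hF1]
      exact h

/-- Heisenberg relations on a locally finite module force a root of unity. -/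
theorem heis (b b' u : Module.End ℂ V) (hb : Function.Injective b) (hb' : Function.Injective b')
    (hu : Function.Injective u) (h : b * b' = u * b' * b) (h1 : u * b = b * u)
    (h2 : u * b' = b' * u) (P : Submodule ℂ V) (Pb : ∀ v ∈ P, b v ∈ P) (Pu : ∀ v ∈ P, u v ∈ P)
    (lb : P ≤ LA b) (lb' : P ≤ LA b') (lu : P ≤ LA u) (v : V) (hv : v ∈ P) (hv0 : v ≠ 0) :
    ∃ d, 0 < d ∧ ∃ w : V, w ≠ 0 ∧ (u ^ d) w = w := by
  obtain ⟨F, hF, hFv⟩ := lu hv
  obtain ⟨v1, hv1, hv10, lam, hlam⟩ := eig u P Pu _ F hF le_rfl v hv hv0 hFv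
  obtain ⟨F1, hF1, hFv1⟩ := lb hv1
  obtain ⟨v2, hv2, hv20, mu, hmu⟩ := eig b (P ⊓ LinearMap.ker (u - lam • (1 : Module.End ℂ V)))
    (by
      rintro w ⟨hw, hw'⟩
      refine ⟨Pb w hw, ?_⟩
      rw [SetLike.mem_coe, LinearMap.mem_ker] at hw' ⊢
      have e1 : u w = lam • w := by
        simpa [sub_eq_zero] using hw'
      have e2 : u (b w) = b (u w) := by
        rw [← Module.End.mul_apply, h1, Module.End.mul_apply]
      simp [e2, e1]) _ F1 hF1 le_rfl v1
    ⟨hv1, by rw [SetLike.mem_coe, LinearMap.mem_ker]; simp [hlam]⟩ hv10 hFv1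
  have hul : u v2 = lam • v2 := by
    have := hv2.2
    rw [SetLike.mem_coe, LinearMap.mem_ker] at this
    simpa [sub_eq_zero] using this
  have hmu0 : mu ≠ 0 := by
    rintro rfl
    rw [zero_smul] at hmu
    exact hv20 (hb (by rw [hmu, map_zero]))
  have hlam0 : lam ≠ 0 := by
    rintro rfl
    rw [zero_smul] at hul
    exact hv20 (hu (by rw [hul, map_zero]))
  have hub : ∀ j : ℕ, u ((b' ^ j) v2) = lam • (b' ^ j) v2 := by
    intro j
    induction j with
    | zero => simpa using hul
    | succ j ih =>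
      rw [pow_succ', Module.End.mul_apply, ← Module.End.mul_apply, h2, Module.End.mul_apply, ih,
        map_smul]
  have hbb : ∀ j : ℕ, b ((b' ^ j) v2) = (lam ^ j * mu) • (b' ^ j) v2 := by
    intro j
    induction j with
    | zero => simpa using hmu
    | succ j ih =>
      rw [pow_succ', Module.End.mul_apply, ← Module.End.mul_apply b b', h, Module.End.mul_apply,
        Module.End.mul_apply, ih, map_smul, map_smul]
      have := hub (j + 1)
      rw [pow_succ', Module.End.mul_apply] at this
      rw [this, smul_smul]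
      congr 1
      ring
  have hne : ∀ j : ℕ, (b' ^ j) v2 ≠ 0 := by
    intro j
    induction j with
    | zero => simpa using hv20
    | succ j ih =>
      rw [pow_succ', Module.End.mul_apply]
      intro h0
      exact ih (hb' (by rw [h0, map_zero]))
  have hninj : ¬ Function.Injective (fun j : ℕ => lam ^ j * mu) := by
    intro hinj
    have hli := b.eigenvectors_linearIndependent' (fun j : ℕ => lam ^ j * mu) hinj
      (fun j => (b' ^ j) v2) (fun j => ⟨Module.End.mem_eigenspace_iff.2 (hbb j), hne j⟩)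
    obtain ⟨F2, hF2, hFv2⟩ := lb' hv2.1
    rw [Polynomial.aeval_endomorphism, Polynomial.sum_def] at hFv2
    apply hF2
    ext j
    by_cases hj : j ∈ F2.support
    · have := linearIndependent_iff'.1 hli F2.support (fun j => F2.coeff j) hFv2 j hj
      simpa using this
    · simpa using hj
  rw [Function.Injective] at hninj
  push Not at hninj
  obtain ⟨i, j, hij, hne'⟩ := hninj
  have key : ∀ i j : ℕ, lam ^ i * mu = lam ^ j * mu → i < j → ∃ d, 0 < d ∧ lam ^ d = 1 := by
    intro i j hij hlt
    refine ⟨j - i, by omega, ?_⟩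
    have h3 : lam ^ i = lam ^ j := mul_right_cancel₀ hmu0 hij
    have h4 : lam ^ j = lam ^ i * lam ^ (j - i) := by
      rw [← pow_add]
      congr 1
      omega
    rw [h4] at h3
    exact (mul_right_eq_self₀.1 h3.symm).resolve_right (pow_ne_zero _ hlam0)
  obtain ⟨d, hd, hd1⟩ : ∃ d, 0 < d ∧ lam ^ d = 1 := by
    rcases lt_or_gt_of_ne hne' with hlt | hlt
    · exact key i j hij hlt
    · exact key j i hij.symm hlt
  refine ⟨d, hd, v1, hv10, ?_⟩
  have hpow : ∀ k : ℕ, (u ^ k) v1 = lam ^ k • v1 := by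
    intro k
    induction k with
    | zero => simp
    | succ k ih =>
      rw [pow_succ', Module.End.mul_apply, ih, map_smul, hlam, smul_smul, pow_succ]
  rw [hpow, hd1, one_smul]

end cpx

/-! ### algebraic vectors -/

section mod

variable {G M : Type} [Group G] [AddCommGroup M] [DistribMulAction G M]

theorem aeval_ac (b : G) (f : Polynomial ℤ) (m : M) :
    (Polynomial.aeval (ac M b) f : AddMonoid.End M) m = f.sum fun i a => a • (b ^ i • m) := by
  induction f using Polynomial.induction_on' with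
  | add p q hp hq =>
    rw [map_add, Polynomial.sum_add_index]
    · rw [← hp, ← hq]
      rfl
    · intro i
      exact zero_smul _ _
    · intro i a a'
      exact add_smul _ _ _
  | monomial n a =>
    rw [Polynomial.sum_monomial_index (n := n) a (fun i a => a • (b ^ i • m)) (zero_smul _ _),
      Polynomial.aeval_monomial, ← map_pow, Algebra.algebraMap_eq_smul_one, smul_mul_assoc,
      one_mul]
    rfl

theorem alg_iff (b : G) (m : M) :
    Alg 0 b m ↔ ∃ f : Polynomial ℤ, f ≠ 0 ∧ (f.sum fun i a => a • (b ^ i • m)) = 0 := by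
  unfold Alg
  refine exists_congr fun f => ?_
  rw [aeval_ac]
  refine and_congr_left fun _ => not_congr ?_
  constructor
  · intro h
    exact (Polynomial.map_eq_zero_iff (f := Int.castRingHom (ZMod 0)) (by
      intro a b hab
      simpa using hab)).1 h
  · rintro rfl
    simp

theorem end_mul (a b : AddMonoid.End M) (m : M) : (a * b) m = a (b m) := rfl

/-- algebraic vectors form a subgroup -/
def malg (M : Type) [AddCommGroup M] [DistribMulAction G M] (B : Subgroup G) : AddSubgroup M where
  carrier := {m | ∀ b ∈ B, Alg 0 b m}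
  zero_mem' := by
    intro b _
    rw [alg_iff]
    exact ⟨1, one_ne_zero, by simp [Polynomial.sum_def]⟩
  add_mem' := by
    intro m m' h h' b hb
    obtain ⟨f, hf, hf'⟩ := h b hb
    obtain ⟨g, hg, hg'⟩ := h' b hb
    refine ⟨f * g, ?_, ?_⟩
    · rw [Polynomial.map_mul]
      exact mul_ne_zero hf hg
    · have h1 : (Polynomial.aeval (ac M b) (f * g) : AddMonoid.End M) m = 0 := by
        rw [mul_comm, map_mul, end_mul, hf', map_zero]
      have h2 : (Polynomial.aeval (ac M b) (f * g) : AddMonoid.End M) m' = 0 := by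
        rw [map_mul, end_mul, hg', map_zero]
      rw [map_add, h1, h2, add_zero]
  neg_mem' := by
    intro m h b hb
    obtain ⟨f, hf, hf'⟩ := h b hb
    exact ⟨f, hf, by rw [map_neg, hf', neg_zero]⟩

theorem malg_stb (B : Subgroup G) (hB : B.Normal) : Stb (⊤ : Subgroup G) (malg M B) := by
  intro g _ m hm b hb
  have hb' : g⁻¹ * b * g ∈ B := by
    have := hB.conj_mem b hb g⁻¹
    rwa [inv_inv] at this
  obtain ⟨f, hf, hf'⟩ := (alg_iff _ _).1 (hm _ hb')
  refine (alg_iff _ _).2 ⟨f, hf, ?_⟩
  have h1 : (f.sum fun i a => a • (b ^ i • g • m))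
      = g • (f.sum fun i a => a • ((g⁻¹ * b * g) ^ i • m)) := by
    rw [Polynomial.sum_def, Polynomial.sum_def, Finset.smul_sum]
    refine Finset.sum_congr rfl fun i _ => ?_
    have h2 : (g⁻¹ * b * g) ^ i = g⁻¹ * b ^ i * g := by
      have := conj_pow (a := g⁻¹) (b := b) (i := i)
      rw [inv_inv] at this
      exact this
    rw [h2, smul_comm g (f.coeff i), smul_smul, smul_smul]
    congr 2
    group
  rw [h1, hf', smul_zero]

/-- complexification -/
noncomputable def cx (M : Type) [AddCommGroup M] : AddMonoid.End M →+* Module.End ℂ (ℂ ⊗[ℤ] M) :=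
  (Module.End.baseChangeHom ℤ ℂ M).toRingHom.comp (addMonoidEndRingEquivInt M).toRingHom

theorem cx_apply (a : AddMonoid.End M) (m : M) (z : ℂ) : cx M a (z ⊗ₜ m) = z ⊗ₜ (a m) := rfl

theorem cx_aeval (a : AddMonoid.End M) (f : Polynomial ℤ) :
    Polynomial.aeval (cx M a) (f.map (Int.castRingHom ℂ)) = cx M (Polynomial.aeval a f) := by
  induction f using Polynomial.induction_on' with
  | add p q hp hq => rw [Polynomial.map_add, map_add, map_add, map_add, hp, hq]
  | monomial n z =>
    rw [Polynomial.map_monomial, Polynomial.aeval_monomial, Polynomial.aeval_monomial, map_mul,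
      map_pow]
    congr 1
    simp

theorem mem_LA (b : G) (m : M) (z : ℂ) (h : Alg 0 b m) :
    (z ⊗ₜ m : ℂ ⊗[ℤ] M) ∈ LA (cx M (ac M b)) := by
  obtain ⟨f, hf, hf'⟩ := h
  refine ⟨f.map (Int.castRingHom ℂ), ?_, ?_⟩
  · intro h0
    apply hf
    have : f = 0 := (Polynomial.map_eq_zero_iff (Int.cast_injective)).1 h0
    rw [this, Polynomial.map_zero]
  · rw [cx_aeval, cx_apply, hf', TensorProduct.tmul_zero]

/-- the first step: a commutator fixes a vector -/
theorem step1 (htf : ∀ (n : ℕ) (m : M), 0 < n → n • m = 0 → m = 0) (b b' : G)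
    (hc : ∀ g : G, cm b b' * g = g * cm b b') (W : AddSubgroup M) (hW : W ≠ ⊥)
    (hs : Stb (⊤ : Subgroup G) W) (hb : ∀ m ∈ W, Alg 0 b m) (hb' : ∀ m ∈ W, Alg 0 b' m)
    (hu : ∀ m ∈ W, Alg 0 (cm b b') m) :
    ∃ d, 0 < d ∧ ∃ m : M, m ≠ 0 ∧ cm b b' ^ d • m = m := by
  have hM : Module.IsTorsionFree ℤ M := by
    rw [Module.isTorsionFree_iff_smul_eq_zero]
    intro z m hzm
    by_cases hz : z = 0
    · exact Or.inl hz
    · right
      have h1 : z.natAbs • m = 0 := by
        rcases Int.natAbs_eq z with h | h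
        · rw [h] at hzm
          simpa using hzm
        · rw [h] at hzm
          simpa using hzm
      exact htf _ m (Int.natAbs_pos.2 hz) h1
  obtain ⟨m0, hm0, hm00⟩ := (AddSubgroup.bot_or_exists_ne_zero W).resolve_left hW
  have hflat : Module.Flat ℤ M := inferInstance
  have hflatC : Module.Flat ℤ ℂ := inferInstance
  -- units
  have hinj : ∀ g : G, Function.Injective (cx M (ac M g)) := by
    intro g
    have h1 : cx M (ac M g⁻¹) * cx M (ac M g) = 1 := by
      rw [← map_mul, ← map_mul, inv_mul_cancel, map_one, map_one]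
    intro x y hxy
    have h2 : ∀ x, x = (cx M (ac M g⁻¹) * cx M (ac M g)) x := by
      intro x
      rw [h1]
      rfl
    rw [h2 x, h2 y, Module.End.mul_apply, Module.End.mul_apply, hxy]
  have hcxm : ∀ g g' : G, cx M (ac M g) * cx M (ac M g') = cx M (ac M (g * g')) := by
    intro g g'
    rw [map_mul, map_mul]
  let P : Submodule ℂ (ℂ ⊗[ℤ] M) := Submodule.span ℂ {v | ∃ m ∈ W, v = 1 ⊗ₜ m}
  have hPs : ∀ g : G, ∀ v ∈ P, cx M (ac M g) v ∈ P := by
    intro g v hv
    refine Submodule.span_induction ?_ ?_ ?_ ?_ hv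
    · rintro _ ⟨m, hm, rfl⟩
      refine Submodule.subset_span ⟨g • m, hs g trivial m hm, ?_⟩
      rfl
    · rw [map_zero]
      exact P.zero_mem
    · intro x y _ _ hx hy
      rw [map_add]
      exact P.add_mem hx hy
    · intro a x _ hx
      rw [map_smul]
      exact P.smul_mem a hx
  have hPL : ∀ g : G, (∀ m ∈ W, Alg 0 g m) → P ≤ LA (cx M (ac M g)) := by
    intro g hg
    refine Submodule.span_le.2 ?_
    rintro _ ⟨m, hm, rfl⟩
    exact mem_LA g m 1 (hg m hm)
  have hι : Function.Injective (fun m : M => (1 : ℂ) ⊗ₜ[ℤ] m) := by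
    have h1 := Module.Flat.rTensor_preserves_injective_linearMap (M := M)
      (Algebra.linearMap ℤ ℂ) (by
        intro x y hxy
        simpa using hxy)
    intro x y hxy
    apply (TensorProduct.lid ℤ M).symm.injective
    apply h1
    simpa using hxy
  obtain ⟨d, hd, w, hw, hw'⟩ := heis (cx M (ac M b)) (cx M (ac M b')) (cx M (ac M (cm b b')))
    (hinj b) (hinj b') (hinj _)
    (by
      rw [hcxm, hcxm, hcxm]
      congr 2
      simp [cm])
    (by rw [hcxm, hcxm, hc]) (by rw [hcxm, hcxm, hc]) P (hPs b) (hPs _) (hPL b hb) (hPL b' hb')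
    (hPL _ hu) (1 ⊗ₜ m0) (Submodule.subset_span ⟨m0, hm0, rfl⟩)
    (fun h0 => hm00 (hι (by simpa using h0)))
  refine ⟨d, hd, ?_⟩
  by_contra hcon
  push Not at hcon
  have h1 : Function.Injective (ac M (cm b b' ^ d) - 1 : AddMonoid.End M) := by
    rw [injective_iff_map_eq_zero]
    intro m hm
    by_contra hm0
    exact hcon m hm0 (sub_eq_zero.1 hm)
  have h2 : Function.Injective (cx M (ac M (cm b b' ^ d) - 1)) :=
    Module.Flat.lTensor_preserves_injective_linearMap (M := ℂ)
      (addMonoidEndRingEquivInt M (ac M (cm b b' ^ d) - 1)) h1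
  apply hw
  apply h2
  rw [map_zero, map_sub, map_pow, map_pow, map_one, LinearMap.sub_apply, hw',
    Module.End.one_apply, sub_self]

end mod

end NBF

end Pool.Agent.Polc
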