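import Mathlib

/-!
# Uniform exponents for norms of automorphisms of finitely generated abelian groups
-/

set_option autoImplicit false

namespace Pool.Agent.Polc

namespace RootM

/-- second order expansion -/
theorem one_add_pow {R : Type*} [Ring R] (u : R) (N : ℕ) :
    ∃ q : R, (1 + u) ^ N = 1 + (N : R) * u + u ^ 2 * q := by
  induction N with
  | zero => exact ⟨0, by simp⟩
  | succ N ih =>
    obtain ⟨q, hq⟩ := ih
    refine ⟨(N : R) + q + q * u, ?_⟩
    rw [pow_succ, hq]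
    push_cast
    have h : (N : R) * u * u = u ^ 2 * (N : R) := by
      rw [mul_assoc, ← pow_two, (Nat.cast_commute N (u ^ 2)).eq]
    calc (1 + (N : R) * u + u ^ 2 * q) * (1 + u)
        = 1 + ((N : R) + 1) * u + ((N : R) * u * u + u ^ 2 * (q + q * u)) := by noncomm_ring
      _ = _ := by rw [h]; noncomm_ring

section mink

variable {B : Type} [AddCommGroup B]

/-- `φ` is divisible by `3 ^ k` pointwise -/
def Dv (k : ℕ) (φ : AddMonoid.End B) : Prop := ∀ b, ∃ b', φ b = 3 ^ k • b'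

theorem Dv.mul {k l : ℕ} {φ ψ : AddMonoid.End B} (h1 : Dv k φ) (h2 : Dv l ψ) :
    Dv (k + l) (φ * ψ) := by
  intro b
  obtain ⟨b1, hb1⟩ := h2 b
  obtain ⟨b2, hb2⟩ := h1 b1
  exact ⟨b2, by
    show φ (ψ b) = _
    rw [hb1, map_nsmul, hb2, smul_smul, pow_add, mul_comm]⟩

/-- Minkowski's argument -/
theorem mink (htf : ∀ b : B, (3 : ℕ) • b = 0 → b = 0) (N : ℕ) :
    0 < N → ∀ (u : AddMonoid.End B) (k : ℕ), 1 ≤ k → Dv k u →
      ∀ b, ((1 + u) ^ N) b = b → ∃ b', u b = 3 ^ (k + 1) • b' := by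
  induction N using Nat.strong_induction_on with
  | _ N ih =>
  intro hN u k hk hu b hb
  by_cases h3 : 3 ∣ N
  · obtain ⟨M, rfl⟩ := h3
    set v : AddMonoid.End B := 3 * u + 3 * u ^ 2 + u ^ 3 with hv
    have hv1 : (1 + u) ^ 3 = 1 + v := by rw [hv]; noncomm_ring
    have hu2 : Dv (k + k) (u ^ 2) := by rw [pow_two]; exact hu.mul hu
    have hu3 : Dv (k + (k + k)) (u ^ 3) := by rw [pow_succ']; exact hu.mul hu2
    have happ : ∀ b, v b = 3 • u b + 3 • (u ^ 2) b + (u ^ 3) b := fun b => by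
      have h3 : ∀ w : AddMonoid.End B, ((3 : AddMonoid.End B) * w) b = 3 • w b := by
        intro w
        have : ((3 : AddMonoid.End B) * w) = (3 : ℕ) • w := by
          rw [nsmul_eq_mul]; norm_num
        rw [this]; rfl
      show (3 * u : AddMonoid.End B) b + (3 * u ^ 2 : AddMonoid.End B) b + (u ^ 3) b = _
      rw [h3, h3]
    have hDv : Dv (k + 1) v := by
      intro b
      obtain ⟨b1, h1⟩ := hu b
      obtain ⟨b2, h2⟩ := hu2 b
      obtain ⟨b3, h3⟩ := hu3 b
      refine ⟨b1 + 3 ^ k • b2 + 3 ^ (2 * k - 1) • b3, ?_⟩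
      have e1 : 3 * 3 ^ k = 3 ^ (k + 1) := (pow_succ' 3 k).symm
      have e2 : 3 * 3 ^ (k + k) = 3 ^ (k + 1) * 3 ^ k := by ring
      have e3 : 3 ^ (k + (k + k)) = 3 ^ (k + 1) * 3 ^ (2 * k - 1) := by
        rw [← pow_add]; congr 1; omega
      rw [happ, h1, h2, h3, smul_add, smul_add, smul_smul, smul_smul, smul_smul, smul_smul,
        e1, e2, e3]
    have hM : 0 < M := by omega
    have h4 := ih M (by omega) hM v (k + 1) (by omega) hDv b (by
      rw [← hv1, ← pow_mul]; exact hb)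
    obtain ⟨b4, hb4⟩ := h4
    obtain ⟨b2, h2⟩ := hu2 b
    obtain ⟨b3, h3⟩ := hu3 b
    rw [happ, h2, h3] at hb4
    refine ⟨b4 - 3 ^ (k - 1) • b2 - 3 ^ (2 * k - 2) • b3, ?_⟩
    have h5 : (3 : ℕ) • (u b - 3 ^ (k + 1) • (b4 - 3 ^ (k - 1) • b2 - 3 ^ (2 * k - 2) • b3)) = 0 := by
      have e1 : (3 : ℕ) • (3 ^ (k + 1) • (b4 - 3 ^ (k - 1) • b2 - 3 ^ (2 * k - 2) • b3)) =
          3 ^ (k + 1 + 1) • b4 - 3 • 3 ^ (k + k) • b2 - 3 ^ (k + (k + k)) • b3 := by
        have e2 : 3 ^ (k + 1 + 1) * 3 ^ (k - 1) = 3 * 3 ^ (k + k) := by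
          rw [← pow_add, ← pow_succ']; congr 1; omega
        have e3 : 3 ^ (k + 1 + 1) * 3 ^ (2 * k - 2) = 3 ^ (k + (k + k)) := by
          rw [← pow_add]; congr 1; omega
        rw [smul_smul, ← pow_succ', smul_sub, smul_sub, smul_smul, smul_smul, smul_smul, e2, e3]
      rw [smul_sub, e1, ← hb4]
      abel
    exact sub_eq_zero.1 (htf _ h5)
  · obtain ⟨q, hq⟩ := one_add_pow u N
    rw [hq] at hb
    have h1 : N • u b + (u ^ 2) (q b) = 0 := by
      have h2 : (1 + (N : AddMonoid.End B) * u + u ^ 2 * q : AddMonoid.End B) b =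
          b + N • u b + (u ^ 2) (q b) := by
        have : ((N : AddMonoid.End B) * u) = N • u := by rw [nsmul_eq_mul]
        rw [this]; rfl
      rw [h2, add_assoc] at hb
      exact left_eq_add.1 hb.symm
    have hu2 : Dv (k + k) (u ^ 2) := by rw [pow_two]; exact hu.mul hu
    obtain ⟨b2, h2⟩ := hu2 (q b)
    obtain ⟨b1, hb1⟩ := hu b
    have hcop : Nat.Coprime N 3 := ((Nat.Prime.coprime_iff_not_dvd Nat.prime_three).2 h3).symm
    have hbez : (N : ℤ) * N.gcdA 3 + 3 * N.gcdB 3 = 1 := by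
      have := Nat.gcd_eq_gcd_ab N 3
      rw [hcop] at this
      exact_mod_cast this.symm
    refine ⟨N.gcdB 3 • b1 - N.gcdA 3 • 3 ^ (k - 1) • b2, ?_⟩
    have h4 : u b = (N.gcdA 3) • (N • u b) + (N.gcdB 3) • ((3 : ℕ) • u b) := by
      conv_lhs => rw [← one_smul ℤ (u b), ← hbez]
      rw [add_smul, mul_smul, mul_smul, natCast_zsmul, smul_comm (N.gcdA 3) N]
      congr 1
      rw [smul_comm (N.gcdB 3) (3 : ℕ), show (3 : ℤ) = ((3 : ℕ) : ℤ) by norm_num, natCast_zsmul]
    have h5 : N • u b = - (3 ^ (k + 1) • 3 ^ (k - 1) • b2) := by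
      rw [smul_smul, ← pow_add, show k + 1 + (k - 1) = k + k by omega, ← h2]
      exact eq_neg_of_add_eq_zero_left h1
    conv_lhs => rw [h4, h5]
    have h6 : (3 : ℕ) • u b = 3 ^ (k + 1) • b1 := by
      rw [hb1, smul_smul, ← pow_succ']
    rw [h6, smul_sub, smul_neg, smul_comm (N.gcdA 3), smul_comm (N.gcdB 3)]
    abel

/-- iterating -/
theorem mink_all (htf : ∀ b : B, (3 : ℕ) • b = 0 → b = 0) (τ : AddMonoid.End B)
    (h1 : Dv 1 (τ - 1)) (hper : ∀ b, ∃ N, 0 < N ∧ (τ ^ N) b = b) (k : ℕ) : Dv (k + 1) (τ - 1) := by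
  induction k with
  | zero => exact h1
  | succ k ih =>
    intro b
    obtain ⟨N, hN, hb⟩ := hper b
    exact mink htf N hN (τ - 1) (k + 1) (by omega) ih b (by rw [add_sub_cancel]; exact hb)

end mink

theorem int_div_zero {z : ℤ} (h : ∀ k : ℕ, (3 ^ k : ℤ) ∣ z) : z = 0 := by
  have h1 := h z.natAbs
  refine Int.eq_zero_of_abs_lt_dvd h1 ?_
  rw [Int.abs_eq_natAbs]
  exact_mod_cast Nat.lt_pow_self (by norm_num)

theorem free_div_zero {A : Type} [AddCommGroup A] [Module.Finite ℤ A] [Module.Free ℤ A] {a : A}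
    (h : ∀ k : ℕ, ∃ a' : A, a = 3 ^ k • a') : a = 0 := by
  let b := Module.finBasis ℤ A
  rw [← b.repr.map_eq_zero_iff]
  ext i
  refine int_div_zero fun k => ?_
  obtain ⟨a', ha'⟩ := h k
  refine ⟨b.repr a' i, ?_⟩
  rw [ha', map_nsmul, Finsupp.smul_apply, nsmul_eq_mul]
  push_cast; ring

theorem end_pow_apply {A : Type} [AddCommGroup A] (σ : AddMonoid.End A) (n : ℕ) (a : A) :
    (σ ^ (n + 1)) a = σ ((σ ^ n) a) := by
  rw [pow_succ']; rfl

theorem end_pow_add {A : Type} [AddCommGroup A] (σ : AddMonoid.End A) (n m : ℕ) (a : A) :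
    (σ ^ (n + m)) a = (σ ^ n) ((σ ^ m) a) := by
  rw [pow_add]; rfl

theorem end_pow_mul_fix {A : Type} [AddCommGroup A] (σ : AddMonoid.End A) (n m : ℕ) (a : A)
    (h : (σ ^ n) a = a) : (σ ^ (n * m)) a = a := by
  induction m with
  | zero => simp
  | succ m ih => rw [Nat.mul_succ, end_pow_add, h, ih]

theorem fix_free (A : Type) [AddCommGroup A] [Module.Finite ℤ A] [Module.Free ℤ A] :
    ∃ E, 0 < E ∧ ∀ σ : AddMonoid.End A, Function.Surjective σ → ∀ n, 0 < n → ∀ b,
      (σ ^ n) b = b → (σ ^ E) b = b := by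
  let A3 : AddSubgroup A := (nsmulAddMonoidHom (α := A) 3).range
  let Q := A ⧸ A3
  have hfg : AddGroup.FG A := Module.Finite.iff_addGroup_fg.1 inferInstance
  have hfgQ : AddGroup.FG Q := inferInstance
  have hQ : Finite Q := by
    refine AddCommGroup.finite_of_fg_isAddTorsion Q ?_
    intro x
    obtain ⟨a, rfl⟩ := QuotientAddGroup.mk_surjective x
    rw [isOfFinAddOrder_iff_nsmul_eq_zero]
    refine ⟨3, by norm_num, ?_⟩
    have : (3 : ℕ) • (QuotientAddGroup.mk a : Q) = QuotientAddGroup.mk ((3 : ℕ) • a) := rfl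
    rw [this, QuotientAddGroup.eq_zero_iff]
    exact ⟨a, rfl⟩
  refine ⟨Nat.card (Equiv.Perm Q), Nat.card_pos, fun σ hσ n hn b hb => ?_⟩
  set E := Nat.card (Equiv.Perm Q) with hE
  have htf : ∀ a : A, (3 : ℕ) • a = 0 → a = 0 := by
    intro a ha
    have ha' : (3 : ℤ) • a = 0 := by
      rw [show (3 : ℤ) = ((3 : ℕ) : ℤ) by norm_num, natCast_zsmul]; exact ha
    exact (smul_eq_zero.1 ha').resolve_left (by norm_num)
  -- action on the quotient
  let f : Q →+ Q := QuotientAddGroup.map A3 A3 σ (by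
    rintro _ ⟨a, rfl⟩
    exact ⟨σ a, (map_nsmul σ 3 a).symm⟩)
  have hf : ∀ a : A, f (QuotientAddGroup.mk a) = QuotientAddGroup.mk (σ a) := fun a => rfl
  have hfs : Function.Surjective f := by
    intro y
    obtain ⟨a, rfl⟩ := QuotientAddGroup.mk_surjective y
    obtain ⟨a', rfl⟩ := hσ a
    exact ⟨QuotientAddGroup.mk a', hf a'⟩
  have hfb : Function.Bijective f := ⟨Finite.injective_iff_surjective.2 hfs, hfs⟩
  let e : Equiv.Perm Q := Equiv.ofBijective f hfb
  have he : ∀ (k : ℕ) (a : A), (e ^ k) (QuotientAddGroup.mk a : Q) =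
      QuotientAddGroup.mk ((σ ^ k) a) := by
    intro k a
    induction k with
    | zero => rfl
    | succ k ih =>
      rw [pow_succ', Equiv.Perm.mul_apply, ih, end_pow_apply]
      rfl
  have hmod : ∀ a : A, ∃ a' : A, (σ ^ E) a - a = 3 • a' := by
    intro a
    have h1 := he E a
    rw [hE, pow_card_eq_one', ← hE] at h1
    have h2 : (QuotientAddGroup.mk a : Q) = QuotientAddGroup.mk ((σ ^ E) a) := h1
    rw [QuotientAddGroup.eq] at h2
    obtain ⟨a', ha'⟩ := h2
    refine ⟨a', ?_⟩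
    have h3 : (3 : ℕ) • a' = -a + (σ ^ E) a := ha'
    rw [h3]; abel
  -- periodic elements
  let P : AddSubgroup A :=
    { carrier := {b | ∃ n, 0 < n ∧ (σ ^ n) b = b}
      add_mem' := by
        rintro a b ⟨n, hn, ha⟩ ⟨m, hm, hb⟩
        refine ⟨n * m, by positivity, ?_⟩
        rw [map_add, end_pow_mul_fix σ n m a ha, mul_comm, end_pow_mul_fix σ m n b hb]
      zero_mem' := ⟨1, one_pos, map_zero _⟩
      neg_mem' := by
        rintro a ⟨n, hn, ha⟩
        exact ⟨n, hn, by rw [map_neg, ha]⟩ }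
  have hcomm : ∀ (k l : ℕ) (a : A), (σ ^ k) ((σ ^ l) a) = (σ ^ l) ((σ ^ k) a) := by
    intro k l a
    rw [← end_pow_add, ← end_pow_add, add_comm]
  have hPσ : ∀ (k : ℕ) (a : A), a ∈ P → (σ ^ k) a ∈ P := by
    rintro k a ⟨n, hn, ha⟩
    exact ⟨n, hn, by rw [hcomm, ha]⟩
  let τ : AddMonoid.End P :=
    { toFun := fun a => ⟨(σ ^ E) (a : A), hPσ E a a.2⟩
      map_zero' := Subtype.ext (map_zero _)
      map_add' := fun a b => Subtype.ext (map_add _ _ _) }
  have hτ : ∀ a : P, ((τ a : P) : A) = (σ ^ E) (a : A) := fun a => rfl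
  have hτn : ∀ (k : ℕ) (a : P), (((τ ^ k) a : P) : A) = (σ ^ (E * k)) (a : A) := by
    intro k a
    induction k with
    | zero => simp
    | succ k ih => rw [end_pow_apply, hτ, ih, Nat.mul_succ, add_comm, end_pow_add]
  have hD1 : Dv 1 (τ - 1) := by
    intro a
    obtain ⟨a', ha'⟩ := hmod a
    have ha'P : a' ∈ P := by
      obtain ⟨m, hm, h4⟩ := P.sub_mem (hPσ E a a.2) a.2
      refine ⟨m, hm, ?_⟩
      rw [ha', map_nsmul] at h4
      have h5 : (3 : ℕ) • ((σ ^ m) a' - a') = 0 := by rw [smul_sub, h4, sub_self]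
      exact sub_eq_zero.1 (htf _ h5)
    refine ⟨⟨a', ha'P⟩, Subtype.ext ?_⟩
    show (σ ^ E) (a : A) - a = _
    rw [ha', pow_one]; rfl
  have hall := mink_all (B := P)
    (fun b hb => Subtype.ext (htf b (congrArg Subtype.val hb))) τ hD1 (by
      rintro ⟨a, m, hm, ha⟩
      refine ⟨m, hm, Subtype.ext ?_⟩
      rw [hτn, mul_comm]
      exact end_pow_mul_fix σ m E a ha)
  have hz : (σ ^ E) b - b = 0 := by
    refine free_div_zero fun k => ?_
    obtain ⟨b', hb'⟩ := hall k ⟨b, n, hn, hb⟩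
    refine ⟨3 • (b' : A), ?_⟩
    have := congrArg Subtype.val hb'
    rw [smul_smul, ← pow_succ]
    exact this
  exact sub_eq_zero.1 hz

theorem sum_periodic {A : Type} [AddCommGroup A] (σ : AddMonoid.End A) (p : ℕ) (c : A)
    (h : (σ ^ p) c = c) (m : ℕ) :
    ∑ i ∈ Finset.range (p * m), (σ ^ i) c = m • ∑ i ∈ Finset.range p, (σ ^ i) c := by
  induction m with
  | zero => simp
  | succ m ih =>
    rw [Nat.mul_succ, Finset.sum_range_add, ih, add_smul, one_smul]
    congr 1
    refine Finset.sum_congr rfl fun i _ => ?_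
    rw [add_comm, end_pow_add, end_pow_mul_fix σ p m c h]

theorem rootmod (A : Type) [AddCommGroup A] (hA : AddGroup.FG A) :
    ∃ e, 0 < e ∧ ∀ σ : AddMonoid.End A, Function.Surjective σ → ∀ (c : A) (n : ℕ), 0 < n →
      ∑ i ∈ Finset.range n, (σ ^ i) c = 0 → ∑ i ∈ Finset.range e, (σ ^ i) c = 0 := by
  have : Module.Finite ℤ A := Module.Finite.iff_addGroup_fg.2 hA
  let T := Submodule.torsion ℤ A
  have hT : Finite T := by
    refine Module.finite_of_fg_torsion T ?_
    exact Submodule.torsion_isTorsion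
  obtain ⟨E0, hE0, hfix⟩ := fix_free (A ⧸ T)
  set t := Nat.card T with ht
  have htpos : 0 < t := Nat.card_pos
  have htT : ∀ a ∈ T, t • a = 0 := by
    intro a ha
    have h1 : Nat.card T • (⟨a, ha⟩ : T) = 0 := card_nsmul_eq_zero'
    exact congrArg Subtype.val h1
  have hmemT : ∀ (a : A) (n : ℕ), 0 < n → n • a = 0 → a ∈ T := by
    intro a n hn ha
    rw [Submodule.mem_torsion_iff]
    refine ⟨⟨(n : ℤ), mem_nonZeroDivisors_of_ne_zero (by exact_mod_cast hn.ne')⟩, ?_⟩
    show (n : ℤ) • a = 0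
    rw [natCast_zsmul]; exact ha
  refine ⟨E0 * t.factorial * t, by positivity, fun σ hσ c n hn hc => ?_⟩
  set E := E0 * t.factorial with hE
  -- `c` is periodic
  have hper : (σ ^ n) c = c := by
    have h1 : σ (∑ i ∈ Finset.range n, (σ ^ i) c) + c =
        (∑ i ∈ Finset.range n, (σ ^ i) c) + (σ ^ n) c := by
      rw [← Finset.sum_range_succ, Finset.sum_range_succ', map_sum]
      simp [end_pow_apply]
    rw [hc, map_zero, zero_add, zero_add] at h1
    exact h1.symm
  -- action on the quotient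
  have hσT : ∀ a ∈ T, σ a ∈ T := by
    intro a ha
    exact hmemT _ t htpos (by rw [← map_nsmul, htT a ha, map_zero])
  let σl : A →ₗ[ℤ] A := σ.toIntLinearMap
  let f : (A ⧸ T) →ₗ[ℤ] (A ⧸ T) := T.mapQ T σl hσT
  let f' : AddMonoid.End (A ⧸ T) := f.toAddMonoidHom
  have hf' : ∀ a : A, f' (Submodule.Quotient.mk a) = Submodule.Quotient.mk (σ a) := fun a => rfl
  have hf'n : ∀ (k : ℕ) (a : A), (f' ^ k) (Submodule.Quotient.mk a) =
      Submodule.Quotient.mk ((σ ^ k) a) := by
    intro k a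
    induction k with
    | zero => rfl
    | succ k ih => rw [end_pow_apply, ih, hf', end_pow_apply]
  have hf's : Function.Surjective f' := by
    intro y
    obtain ⟨a, rfl⟩ := Submodule.Quotient.mk_surjective T y
    obtain ⟨a', rfl⟩ := hσ a
    exact ⟨Submodule.Quotient.mk a', hf' a'⟩
  have h2 : ∀ k : ℕ, (σ ^ (E0 * k)) c - c ∈ T := by
    intro k
    have h3 := hfix f' hf's n hn (Submodule.Quotient.mk c) (by rw [hf'n, hper])
    have h4 := end_pow_mul_fix f' E0 k _ h3
    rw [hf'n, Submodule.Quotient.eq] at h4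
    exact h4
  -- the orbit of `c` under `σ ^ E0`
  have hEc : (σ ^ E) c = c := by
    set g : A → A := fun a => (σ ^ E0) a with hg
    have hgn : ∀ k : ℕ, g^[k] c = (σ ^ (E0 * k)) c := by
      intro k
      induction k with
      | zero => simp
      | succ k ih =>
        rw [Function.iterate_succ_apply', ih, hg, Nat.mul_succ, add_comm (E0 * k), end_pow_add]
    have hpp : Function.IsPeriodicPt g n c := by
      show g^[n] c = c
      rw [hgn, mul_comm]
      exact end_pow_mul_fix σ n E0 c hper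
    have hmp : 0 < Function.minimalPeriod g c := hpp.minimalPeriod_pos hn
    have hle : Function.minimalPeriod g c ≤ t := by
      let F : Fin (Function.minimalPeriod g c) → T := fun j =>
        ⟨g^[j] c - c, by rw [hgn]; exact h2 j⟩
      have hF : Function.Injective F := by
        intro i j hij
        have h5 : g^[i] c - c = g^[j] c - c := congrArg Subtype.val hij
        have h6 := Function.iterate_injOn_Iio_minimalPeriod (Set.mem_Iio.2 i.2)
          (Set.mem_Iio.2 j.2) (sub_left_injective h5)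
        exact Fin.ext h6
      have := Nat.card_le_card_of_injective F hF
      rwa [Nat.card_fin] at this
    have hdvd : Function.minimalPeriod g c ∣ t.factorial := Nat.dvd_factorial hmp hle
    obtain ⟨k, hk⟩ := hdvd
    have h7 : Function.IsPeriodicPt g (t.factorial) c := by
      rw [hk]
      exact (Function.isPeriodicPt_minimalPeriod g c).mul_const k
    have h8 : g^[t.factorial] c = c := h7
    rwa [hgn] at h8
  -- conclusion
  have h9 : n • ∑ i ∈ Finset.range E, (σ ^ i) c = 0 := by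
    rw [← sum_periodic σ E c hEc n, mul_comm, sum_periodic σ n c hper E, hc, smul_zero]
  have h10 : ∑ i ∈ Finset.range E, (σ ^ i) c ∈ T := hmemT _ n hn h9
  rw [sum_periodic σ E c hEc t]
  exact htT _ h10

end RootM

end Pool.Agent.Polc
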