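import Pool.Agent.Polc.PCB1
import Pool.Agent.Polc.RootMod

/-!
# Uniform exponents for roots of subgroups of polycyclic groups
-/

set_option autoImplicit false

open scoped commutatorElement

namespace Pool.Agent.Polc

namespace RootM

theorem root_aux (n : ℕ) : ∀ (G : Type) [Group G], PC G → derivedSeries G n = ⊥ →
    ∀ S : Subgroup G, ∃ d, 0 < d ∧ ∀ x : G, (∃ n, 0 < n ∧ x ^ n ∈ S) → x ^ d ∈ S := by
  induction n with
  | zero =>
    intro G _ _ h S
    refine ⟨1, one_pos, fun x _ => ?_⟩
    rw [derivedSeries_zero] at h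
    have hx : x ∈ (⊤ : Subgroup G) := Subgroup.mem_top x
    rw [h, Subgroup.mem_bot] at hx
    rw [hx, one_pow]
    exact S.one_mem
  | succ n ih =>
    intro G _ hG h S
    set C := derivedSeries G n with hC
    have hCn : C.Normal := inferInstance
    have hc : ∀ a ∈ C, ∀ b ∈ C, a * b = b * a := by
      intro a ha b hb
      have h2 : ⁅a, b⁆ ∈ derivedSeries G (n + 1) := Subgroup.commutator_mem_commutator ha hb
      rw [h, Subgroup.mem_bot] at h2
      exact commutatorElement_eq_one_iff_mul_comm.1 h2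
    obtain ⟨d1, hd1, hroot⟩ := ih (G ⧸ C) (hG.surj (QuotientGroup.mk' C)
      (QuotientGroup.mk'_surjective C)) (by
        rw [← map_derivedSeries_eq (QuotientGroup.mk'_surjective C) n, ← hC]
        rw [Subgroup.map_eq_bot_iff, QuotientGroup.ker_mk']) (S.map (QuotientGroup.mk' C))
    let _ : CommGroup C := { (inferInstance : Group C) with
      mul_comm := fun x y => Subtype.ext (hc x x.2 y y.2) }
    have hfg : Group.FG C := (Group.fg_iff_subgroup_fg C).2 (hG.fg C)
    let D : Subgroup C := S.subgroupOf C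
    have hfgQ : Group.FG (C ⧸ D) := inferInstance
    obtain ⟨e, he, hmod⟩ := rootmod (Additive (C ⧸ D)) inferInstance
    refine ⟨d1 * e, by positivity, fun x hx => ?_⟩
    obtain ⟨m, hm, hxm⟩ := hx
    have h1 : (QuotientGroup.mk' C x) ^ d1 ∈ S.map (QuotientGroup.mk' C) :=
      hroot _ ⟨m, hm, by rw [← map_pow]; exact Subgroup.mem_map_of_mem _ hxm⟩
    obtain ⟨s, hs, hsx⟩ := h1
    rw [← map_pow] at hsx
    have hcC : s⁻¹ * x ^ d1 ∈ C := by
      rw [← QuotientGroup.eq]
      exact hsx
    set c : C := ⟨s⁻¹ * x ^ d1, hcC⟩ with hcdef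
    have hy : x ^ d1 = s * (c : G) := by rw [hcdef]; group
    -- conjugation by `s⁻¹`
    let σ : C →* C :=
      { toFun := fun a => ⟨s⁻¹ * (a : G) * s, by
          have := hCn.conj_mem _ a.2 s⁻¹
          rwa [inv_inv] at this⟩
        map_one' := Subtype.ext (by simp)
        map_mul' := fun a b => Subtype.ext (by
          show s⁻¹ * ((a : G) * (b : G)) * s = (s⁻¹ * (a : G) * s) * (s⁻¹ * (b : G) * s)
          group) }
    have hσ : ∀ a : C, ((σ a : C) : G) = s⁻¹ * (a : G) * s := fun a => rfl
    have hσD : D ≤ D.comap σ := by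
      intro a ha
      show s⁻¹ * (a : G) * s ∈ S
      exact S.mul_mem (S.mul_mem (S.inv_mem hs) ha) hs
    let f : C ⧸ D →* C ⧸ D := QuotientGroup.map D D σ hσD
    have hf : ∀ a : C, f (QuotientGroup.mk a) = QuotientGroup.mk (σ a) := fun a => rfl
    have hfs : Function.Surjective f := by
      intro y
      obtain ⟨a, rfl⟩ := QuotientGroup.mk_surjective y
      refine ⟨QuotientGroup.mk ⟨s * (a : G) * s⁻¹, hCn.conj_mem _ a.2 s⟩, ?_⟩
      rw [hf]
      congr 1
      refine Subtype.ext ?_
      rw [hσ]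
      show s⁻¹ * (s * (a : G) * s⁻¹) * s = a
      group
    let f' : AddMonoid.End (Additive (C ⧸ D)) := MonoidHom.toAdditive f
    have hf' : ∀ q : C ⧸ D, f' (Additive.ofMul q) = Additive.ofMul (f q) := fun q => rfl
    have hf's : Function.Surjective f' := by
      intro y
      obtain ⟨q, hq⟩ := hfs (Additive.toMul y)
      exact ⟨Additive.ofMul q, by rw [hf', hq]; rfl⟩
    -- the products
    let P : ℕ → C := fun k => Nat.rec 1 (fun _ p => σ p * c) k
    have hP0 : P 0 = 1 := rfl
    have hPs : ∀ k, P (k + 1) = σ (P k) * c := fun k => rfl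
    have hpow : ∀ k : ℕ, (s * (c : G)) ^ k = s ^ k * (P k).1 := by
      intro k
      induction k with
      | zero => simp [hP0]
      | succ k ih =>
        rw [pow_succ, ih, hPs]
        show s ^ k * (P k).1 * (s * (c : G)) = s ^ (k + 1) * ((σ (P k)).1 * (c : G))
        rw [hσ, pow_succ]
        group
    have hsum : ∀ k : ℕ, ∑ i ∈ Finset.range k, (f' ^ i) (Additive.ofMul (QuotientGroup.mk c)) =
        Additive.ofMul (QuotientGroup.mk (P k)) := by
      intro k
      induction k with
      | zero => rfl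
      | succ k ih =>
        rw [Finset.sum_range_succ']
        have e1 : ∑ i ∈ Finset.range k, (f' ^ (i + 1)) (Additive.ofMul (QuotientGroup.mk c)) =
            f' (∑ i ∈ Finset.range k, (f' ^ i) (Additive.ofMul (QuotientGroup.mk c))) := by
          rw [map_sum]
          refine Finset.sum_congr rfl fun i _ => ?_
          rw [end_pow_apply]
        rw [e1, ih, hf', hf, hPs, pow_zero]
        rfl
    have hiff : ∀ k : ℕ, (x ^ d1) ^ k ∈ S ↔
        ∑ i ∈ Finset.range k, (f' ^ i) (Additive.ofMul (QuotientGroup.mk c)) = 0 := by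
      intro k
      rw [hsum, hy, hpow]
      have e1 : (Additive.ofMul (QuotientGroup.mk (P k)) : Additive (C ⧸ D)) = 0 ↔
          (P k).1 ∈ S := by
        have : (Additive.ofMul (QuotientGroup.mk (P k)) : Additive (C ⧸ D)) = 0 ↔
          (QuotientGroup.mk (P k) : C ⧸ D) = 1 := Iff.rfl
        rw [this, QuotientGroup.eq_one_iff]
        exact Subgroup.mem_subgroupOf
      rw [e1]
      exact Subgroup.mul_mem_cancel_left S (S.pow_mem hs k)
    rw [pow_mul, hiff]
    refine hmod f' hf's _ m hm ?_
    rw [← hiff, ← pow_mul, mul_comm, pow_mul]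
    exact S.pow_mem hxm d1

end RootM

theorem root {G : Type} [Group G] (h : PC G) (S : Subgroup G) :
    ∃ d, 0 < d ∧ ∀ x : G, (∃ n, 0 < n ∧ x ^ n ∈ S) → x ^ d ∈ S := by
  obtain ⟨n, hn⟩ := h.solv.solvable
  exact RootM.root_aux n G h hn S

end Pool.Agent.Polc
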