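import Pool.Agent.Polc.TB
import Pool.Agent.Polc.ROOT

/-! Module TB of the proof for MP_9e8505_al: `TBad.emb` from `TBad.emb_of` and ROOT. -/

set_option autoImplicit false

namespace Pool.Agent.Polc

theorem TBad.emb {G M : Type} [Group G] [AddCommGroup M] [DistribMulAction G M] {n : ℕ} (ih : IH n)
    (t : TBad n G M) (Ω : Type) [MulAction G Ω]
    (K : Ω → AddSubgroup M) (hK : ∀ (g : G) (ω : Ω) (m : M), m ∈ K ω ↔ g • m ∈ K (g • ω))
    (m0 : M) (hm0 : m0 ≠ 0) (hfin : {ω | m0 ∉ K ω}.Finite)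
    (hint : ∀ m ∈ gspan (⊤ : Subgroup G) {m0}, (∀ ω, m ∈ K ω) → m = 0) :
    ∃ ω, m0 ∉ K ω ∧ (MulAction.stabilizer G ω).FiniteIndex :=
  t.emb_of ih (fun S => root t.pc S) Ω K hK m0 hm0 hfin hint

end Pool.Agent.Polc
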