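import Pool.Agent.Polc.S3Aux
import Pool.Agent.Polc.TBEmb
set_option autoImplicit false

namespace Pool.Agent.Polc


theorem s3 {G M : Type} [Group G] [AddCommGroup M] [DistribMulAction G M] {n : ℕ} (ih : IH n)
    (t : TBad n G M) (S X : Type) [CommRing S] [IsNoetherianRing S] [AddCommGroup X] [Module S X]
    [DistribMulAction G X] (φ : G →* RingAut S)
    (hφ : ∀ (g : G) (s : S) (x : X), g • (s • x) = (φ g s) • (g • x))
    (ι : M →+ X) (hι : Function.Injective ι) (hιG : ∀ (g : G) (m : M), ι (g • m) = g • ι m) :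
    ∃ (m0 : M) (Q : Ideal S) (σ : S), m0 ≠ 0 ∧ Q.IsPrime ∧
      (∀ s : S, s • (σ • ι m0) = 0 ↔ s ∈ Q) ∧
      ∃ G3 : Subgroup G, G3.FiniteIndex ∧ G3.Normal ∧ ∀ g ∈ G3, ∀ s : S, s ∈ Q ↔ φ g s ∈ Q := by
  have := t.nz
  exact s3_of (fun Ω _ K hK m0 hm0 hfin hint => t.emb ih Ω K hK m0 hm0 hfin hint) S X φ hφ ι hι hιG

end Pool.Agent.Polc
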