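import Pool.Agent.Polc.PCB1

/-!
Basic facts on polycyclic groups (`MP_9e8505_al`, module PCB2): verbal subgroups of powers,
virtual torsion-freeness, separation.
-/

set_option autoImplicit false

namespace Pool.Agent.Polc

/-! ### Elements of `L ⊔ ⟨g⟩` -/

theorem zpowers_le_normalizer {G : Type} [Group G] (L : Subgroup G) (g : G)
    (hg : ∀ h, h ∈ L ↔ g * h * g⁻¹ ∈ L) : Subgroup.zpowers g ≤ Subgroup.normalizer (L : Set G) := by
  rw [Subgroup.zpowers_le]
  exact Subgroup.mem_normalizer_iff.2 hg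

theorem zpow_conj_mem {G : Type} [Group G] (L : Subgroup G) (g : G)
    (hg : ∀ h, h ∈ L ↔ g * h * g⁻¹ ∈ L) (i : ℤ) (x : G) (hx : x ∈ L) :
    g ^ i * x * (g ^ i)⁻¹ ∈ L := by
  have h1 := zpowers_le_normalizer L g hg (Subgroup.zpow_mem_zpowers g i)
  exact (Subgroup.mem_normalizer_iff.1 h1 x).1 hx

theorem mem_step_left {G : Type} [Group G] (L : Subgroup G) (g : G)
    (hg : ∀ h, h ∈ L ↔ g * h * g⁻¹ ∈ L) (x : G) (hx : x ∈ L ⊔ Subgroup.zpowers g) :
    ∃ l ∈ L, ∃ i : ℤ, x = l * g ^ i := by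
  have h1 : x ∈ (↑(L ⊔ Subgroup.zpowers g) : Set G) := hx
  rw [Subgroup.coe_mul_of_right_le_normalizer_left _ _ (zpowers_le_normalizer L g hg)] at h1
  obtain ⟨l, hl, y, hy, rfl⟩ := Set.mem_mul.1 h1
  obtain ⟨i, rfl⟩ := Subgroup.mem_zpowers_iff.1 hy
  exact ⟨l, hl, i, rfl⟩

theorem mem_step_right {G : Type} [Group G] (L : Subgroup G) (g : G)
    (hg : ∀ h, h ∈ L ↔ g * h * g⁻¹ ∈ L) (x : G) (hx : x ∈ L ⊔ Subgroup.zpowers g) :
    ∃ i : ℤ, ∃ l ∈ L, x = g ^ i * l := by
  obtain ⟨l, hl, i, e⟩ := mem_step_left L g hg x⁻¹ (Subgroup.inv_mem _ hx)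
  refine ⟨-i, l⁻¹, L.inv_mem hl, ?_⟩
  rw [← inv_inv x, e, mul_inv_rev, zpow_neg]

/-! ### finite covers -/

theorem fi_of_cover {G : Type} [Group G] (A B : Subgroup G) (T : Set G) (hT : T.Finite)
    (h : ∀ x ∈ B, ∃ t ∈ T, t⁻¹ * x ∈ A) : A.relIndex B ≠ 0 := by
  have hT' : Finite T := hT.to_subtype
  choose! f hf1 hf2 using h
  have h3 : Finite (B ⧸ A.subgroupOf B) := by
    refine Finite.of_injective
      (fun q : B ⧸ A.subgroupOf B => (⟨f (q.out : G), hf1 _ q.out.2⟩ : T)) ?_
    intro q q' hqq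
    have e : f (q.out : G) = f (q'.out : G) := congrArg Subtype.val hqq
    rw [← q.out_eq', ← q'.out_eq']
    refine QuotientGroup.eq.2 ?_
    rw [Subgroup.mem_subgroupOf]
    have h1 := hf2 _ q.out.2
    have h2 := hf2 _ q'.out.2
    rw [← e] at h2
    have h4 := A.mul_mem (A.inv_mem h1) h2
    have e2 : ((f (q.out : G))⁻¹ * (q.out : G))⁻¹ * ((f (q.out : G))⁻¹ * (q'.out : G))
        = (q.out : G)⁻¹ * (q'.out : G) := by group
    rw [e2] at h4
    simpa using h4
  exact Subgroup.index_ne_zero_of_finite (H := A.subgroupOf B)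

theorem cover_of_fi {G : Type} [Group G] (A B : Subgroup G) (h : A.relIndex B ≠ 0) :
    ∃ T : Set G, T.Finite ∧ T ⊆ B ∧ ∀ x ∈ B, ∃ t ∈ T, t⁻¹ * x ∈ A := by
  have h3 : Finite (B ⧸ A.subgroupOf B) := Subgroup.index_ne_zero_iff_finite.1 h
  refine ⟨Set.range (fun q : B ⧸ A.subgroupOf B => (q.out : G)), Set.finite_range _, ?_, ?_⟩
  · rintro _ ⟨q, rfl⟩
    exact q.out.2
  · intro x hx
    refine ⟨_, ⟨((⟨x, hx⟩ : B) : B ⧸ A.subgroupOf B), rfl⟩, ?_⟩
    have h1 : ((((⟨x, hx⟩ : B) : B ⧸ A.subgroupOf B).out : B) : B ⧸ A.subgroupOf B)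
        = ((⟨x, hx⟩ : B) : B ⧸ A.subgroupOf B) := Quotient.out_eq' _
    have h2 := QuotientGroup.eq.1 h1
    rw [Subgroup.mem_subgroupOf] at h2
    simpa using h2

/-! ### `pw` -/

theorem pw_le {G : Type} [Group G] (N : Subgroup G) (k : ℕ) : pw N k ≤ N := by
  rw [pw, Subgroup.closure_le]
  rintro _ ⟨v, hv, rfl⟩
  exact N.pow_mem hv k

theorem mem_pw {G : Type} [Group G] (N : Subgroup G) (k : ℕ) (v : G) (hv : v ∈ N) :
    v ^ k ∈ pw N k := Subgroup.subset_closure ⟨v, hv, rfl⟩

theorem pw_le_iff {G : Type} [Group G] (N P : Subgroup G) (k : ℕ) :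
    pw N k ≤ P ↔ ∀ v ∈ N, v ^ k ∈ P := by
  rw [pw, Subgroup.closure_le]
  constructor
  · intro h v hv
    exact h ⟨v, hv, rfl⟩
  · rintro h _ ⟨v, hv, rfl⟩
    exact h v hv

theorem pw_mul {G : Type} [Group G] (N : Subgroup G) (k l : ℕ) : pw N (k * l) ≤ pw N k := by
  rw [pw_le_iff]
  intro v hv
  rw [mul_comm, pow_mul]
  exact mem_pw N k _ (N.pow_mem hv l)

theorem pw_conj {G : Type} [Group G] (N : Subgroup G) (k : ℕ) (g : G)
    (hg : ∀ x ∈ N, g * x * g⁻¹ ∈ N) (y : G) (hy : y ∈ pw N k) : g * y * g⁻¹ ∈ pw N k := by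
  have h1 : pw N k ≤ (pw N k).comap (MulAut.conj g).toMonoidHom := by
    rw [pw_le_iff]
    intro v hv
    change g * v ^ k * g⁻¹ ∈ pw N k
    rw [← conj_pow]
    exact mem_pw N k _ (hg v hv)
  exact h1 hy

theorem pw_normal {G : Type} [Group G] (N : Subgroup G) (hN : N.Normal) (k : ℕ) :
    (pw N k).Normal := by
  refine ⟨fun n hn g => ?_⟩
  exact pw_conj N k g (fun x hx => hN.conj_mem x hx g) n hn

/-- a polycyclic group of finite exponent is finite -/
theorem PC.finite_of_exp {G : Type} [Group G] (h : PC G) (k : ℕ) (hk : 0 < k)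
    (he : ∀ g : G, g ^ k = 1) : Finite G := by
  have key : ∀ L : Subgroup G, CChain ⊥ L → (L : Set G).Finite := by
    intro L hL
    induction hL with
    | refl => simp
    | tail _ hstep ih =>
      obtain ⟨g, hg, rfl⟩ := hstep
      rw [Subgroup.coe_mul_of_right_le_normalizer_left _ _ (zpowers_le_normalizer _ g hg)]
      refine Set.Finite.mul ih ?_
      exact finite_zpowers.2 (isOfFinOrder_iff_pow_eq_one.2 ⟨k, hk, he g⟩)
  have h1 := key ⊤ (h.cchain_bot ⊤)
  rw [Subgroup.coe_top] at h1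
  exact Set.finite_univ_iff.1 h1

/-- `pw N k` has finite index in `N` -/
theorem pw_fi {G : Type} [Group G] (h : PC G) (N : Subgroup G) (k : ℕ) (hk : 0 < k) :
    (pw N k).relIndex N ≠ 0 := by
  have hn : ((pw N k).subgroupOf N).Normal := by
    refine ⟨fun n hn g => ?_⟩
    rw [Subgroup.mem_subgroupOf] at hn ⊢
    exact pw_conj N k g (fun x hx => N.mul_mem (N.mul_mem g.2 hx) (N.inv_mem g.2)) n hn
  have hQ : PC (N ⧸ (pw N k).subgroupOf N) :=
    (h.sub N).surj (QuotientGroup.mk' _) (QuotientGroup.mk'_surjective _)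
  have hf : Finite (N ⧸ (pw N k).subgroupOf N) := by
    refine hQ.finite_of_exp k hk ?_
    intro q
    obtain ⟨v, rfl⟩ := QuotientGroup.mk'_surjective _ q
    rw [← map_pow]
    refine (QuotientGroup.eq_one_iff _).2 ?_
    rw [Subgroup.mem_subgroupOf]
    exact mem_pw N k v v.2
  exact Subgroup.index_ne_zero_of_finite (H := (pw N k).subgroupOf N)

/-- every subgroup of finite index contains some `pw N k` -/
theorem fi_pw {G : Type} [Group G] (N H : Subgroup G) (hH : H.relIndex N ≠ 0) :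
    ∃ k, 0 < k ∧ pw N k ≤ H := by
  refine ⟨(H.relIndex N).factorial, Nat.factorial_pos _, ?_⟩
  rw [pw_le_iff]
  intro v hv
  exact (Subgroup.pow_mem_of_relIndex_ne_zero_of_dvd hH hv
    (fun m hm1 hm2 => Nat.dvd_factorial hm1 hm2)).1

/-- polycyclic groups are virtually torsion-free -/
theorem PC.exists_tf {G : Type} [Group G] (h : PC G) :
    ∃ G1 : Subgroup G, G1.FiniteIndex ∧ G1.Normal ∧ TF G1 := by
  have key : ∀ L : Subgroup G, CChain ⊥ L → ∃ L1 : Subgroup G, L1.relIndex L ≠ 0 ∧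
      ∀ x ∈ L1, ∀ n : ℕ, 0 < n → x ^ n = 1 → x = 1 := by
    intro L hL
    induction hL with
    | refl =>
      refine ⟨⊥, by simp, ?_⟩
      intro x hx _ _ _
      exact Subgroup.mem_bot.1 hx
    | @tail H K _ hstep ih =>
      obtain ⟨g, hg, rfl⟩ := hstep
      obtain ⟨L1, hL1, htf⟩ := ih
      obtain ⟨k, hk, hkL⟩ := fi_pw H L1 hL1
      have hPfi := pw_fi h H k hk
      have hPtf : ∀ x ∈ pw H k, ∀ n : ℕ, 0 < n → x ^ n = 1 → x = 1 :=
        fun x hx => htf x (hkL hx)
      by_cases hcase : ∃ n : ℕ, 0 < n ∧ g ^ n ∈ H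
      · obtain ⟨n, hn, hgn⟩ := hcase
        refine ⟨pw H k, ?_, hPtf⟩
        have h2 : H.relIndex (H ⊔ Subgroup.zpowers g) ≠ 0 := by
          refine fi_of_cover _ _ ((fun r : ℕ => g ^ r) '' Set.Iio n) ((Set.finite_Iio n).image _) ?_
          intro x hx
          obtain ⟨i, l, hl, rfl⟩ := mem_step_right H g hg x hx
          have hn' : (0 : ℤ) < n := by exact_mod_cast hn
          have h0 : 0 ≤ i % (n : ℤ) := Int.emod_nonneg _ (by positivity)
          have h1 : i % (n : ℤ) < n := Int.emod_lt_of_pos _ hn'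
          refine ⟨g ^ (i % (n : ℤ)).toNat, ⟨_, ?_, rfl⟩, ?_⟩
          · rw [Set.mem_Iio]
            omega
          · have e1 : (g ^ (i % (n : ℤ)).toNat : G) = g ^ (i % (n : ℤ)) := by
              rw [← zpow_natCast, Int.toNat_of_nonneg h0]
            have e2 : (g ^ (i % (n : ℤ)).toNat)⁻¹ * (g ^ i * l) = (g ^ n) ^ (i / (n : ℤ)) * l := by
              rw [e1, ← zpow_neg, ← mul_assoc, ← zpow_add, ← zpow_natCast, ← zpow_mul]
              congr 2
              have := Int.emod_add_mul_ediv i (n : ℤ)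
              linarith
            rw [e2]
            exact H.mul_mem (H.zpow_mem hgn _) hl
        rw [← Subgroup.relIndex_mul_relIndex (pw H k) H _ (pw_le H k) le_sup_left]
        exact mul_ne_zero hPfi h2
      · push Not at hcase
        have hgP : ∀ x, x ∈ pw H k ↔ g * x * g⁻¹ ∈ pw H k := by
          intro x
          constructor
          · exact pw_conj H k g (fun y hy => (hg y).1 hy) x
          · intro hx
            have h1 := pw_conj H k g⁻¹ (fun y hy => ?_) _ hx
            · have e : g⁻¹ * (g * x * g⁻¹) * g⁻¹⁻¹ = x := by group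
              rwa [e] at h1
            · rw [hg]
              have e : g * (g⁻¹ * y * g⁻¹⁻¹) * g⁻¹ = y := by group
              rwa [e]
        refine ⟨pw H k ⊔ Subgroup.zpowers g, ?_, ?_⟩
        · obtain ⟨T, hT, _, hcov⟩ := cover_of_fi _ _ hPfi
          refine fi_of_cover _ _ T hT ?_
          intro x hx
          obtain ⟨l, hl, i, rfl⟩ := mem_step_left H g hg x hx
          obtain ⟨t, ht, htl⟩ := hcov l hl
          refine ⟨t, ht, ?_⟩
          rw [← mul_assoc]
          exact Subgroup.mul_mem _ ((le_sup_left : pw H k ≤ _) htl)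
            ((le_sup_right : Subgroup.zpowers g ≤ _) (Subgroup.zpow_mem_zpowers g i))
        · intro x hx n hn hxn
          obtain ⟨p, hp, i, rfl⟩ := mem_step_left _ g hgP x hx
          have hpow : ∀ m : ℕ, (p * g ^ i) ^ m * (g ^ (i * m))⁻¹ ∈ pw H k := by
            intro m
            induction m with
            | zero => simp
            | succ m ihm =>
              have h1 := zpow_conj_mem _ g hgP (i * m) p hp
              have h2 := Subgroup.mul_mem _ ihm h1
              have e : (p * g ^ i) ^ m * (g ^ (i * (m : ℤ)))⁻¹ *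
                  (g ^ (i * (m : ℤ)) * p * (g ^ (i * (m : ℤ)))⁻¹) =
                  (p * g ^ i) ^ (m + 1) * (g ^ (i * ((m + 1 : ℕ) : ℤ)))⁻¹ := by
                have e3 : g ^ (i * ((m + 1 : ℕ) : ℤ)) = g ^ (i * (m : ℤ)) * g ^ i := by
                  rw [← zpow_add]
                  congr 1
                  push_cast
                  ring
                rw [e3, pow_succ]
                group
              rwa [e] at h2
          have h3 := hpow n
          rw [hxn, one_mul] at h3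
          have h4 : g ^ (i * (n : ℤ)) ∈ H := by
            have := H.inv_mem (pw_le H k h3)
            rwa [inv_inv] at this
          have hi : i = 0 := by
            by_contra hi
            have hne : i * (n : ℤ) ≠ 0 := mul_ne_zero hi (by exact_mod_cast hn.ne')
            have hpos : 0 < (i * (n : ℤ)).natAbs := Int.natAbs_pos.2 hne
            refine hcase _ hpos ?_
            rcases Int.natAbs_eq (i * (n : ℤ)) with he | he
            · rw [he, zpow_natCast] at h4
              exact h4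
            · rw [he, zpow_neg, zpow_natCast] at h4
              have := H.inv_mem h4
              rwa [inv_inv] at this
          subst hi
          rw [zpow_zero, mul_one] at hxn ⊢
          exact hPtf p hp n hn hxn
  obtain ⟨L1, hL1, htf⟩ := key ⊤ (h.cchain_bot ⊤)
  obtain ⟨k, hk, hkL⟩ := fi_pw ⊤ L1 hL1
  refine ⟨pw ⊤ k, ?_, pw_normal _ inferInstance k, ?_⟩
  · have := pw_fi h ⊤ k hk
    rw [Subgroup.relIndex_top_right] at this
    exact ⟨this⟩
  · intro x n hn hxn
    have h1 : (x : G) ^ n = 1 := by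
      have := congrArg Subtype.val hxn
      simpa using this
    exact Subtype.ext (htf x (hkL x.2) n hn h1)

/-- separation of a finite index subgroup of the central (or any normal) subgroup `U` -/
theorem PC.sep {G : Type} [Group G] (h : PC G) (N U : Subgroup G) (_hN : N.Normal) (hU : U.Normal)
    (_hUN : U ≤ N) (k : ℕ) (hk : 0 < k) :
    ∃ l, 0 < l ∧ pw N l ⊓ U ≤ pw U k := by
  have hn : (pw U k).Normal := pw_normal U hU k
  have hQ : PC (G ⧸ pw U k) :=
    h.surj (QuotientGroup.mk' _) (QuotientGroup.mk'_surjective _)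
  obtain ⟨G1, hG1, _, htf⟩ := hQ.exists_tf
  have hfi : (G1.comap (QuotientGroup.mk' (pw U k))).index ≠ 0 := by
    rw [Subgroup.index_comap_of_surjective _ (QuotientGroup.mk'_surjective _)]
    exact hG1.index_ne_zero
  have hfiN : (G1.comap (QuotientGroup.mk' (pw U k))).relIndex N ≠ 0 := by
    intro h0
    exact hfi (Subgroup.index_eq_zero_of_relIndex_eq_zero h0)
  obtain ⟨l, hl, hle⟩ := fi_pw N _ hfiN
  refine ⟨l, hl, ?_⟩
  intro x hx
  have hx1 : QuotientGroup.mk' (pw U k) x ∈ G1 := hle hx.1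
  obtain ⟨m, hm, _, hxm⟩ := Subgroup.exists_pow_mem_of_relIndex_ne_zero (pw_fi h U k hk) hx.2
  have h1 : (QuotientGroup.mk' (pw U k) x) ^ m = 1 := by
    rw [← map_pow]
    exact (QuotientGroup.eq_one_iff _).2 hxm.1
  have h2 : (⟨QuotientGroup.mk' (pw U k) x, hx1⟩ : G1) = 1 :=
    htf _ m hm (Subtype.ext (by simpa using h1))
  have h3 : QuotientGroup.mk' (pw U k) x = 1 := congrArg Subtype.val h2
  exact (QuotientGroup.eq_one_iff _).1 h3

end Pool.Agent.Polc
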