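import Pool.Agent.Polc.PCB1
import Pool.Agent.Polc.PCB2
import Pool.Agent.Polc.HLM
import Pool.Agent.Polc.NOETH
import Pool.Agent.Polc.GOOD
import Pool.Agent.Polc.Emb
import Pool.Agent.Polc.IHM

/-!
Module TB of the proof of `MP_9e8505_al`: totally bad modules.
-/

set_option autoImplicit false

namespace Pool.Agent.Polc

section tbm

variable {G M : Type} [Group G] [AddCommGroup M] [DistribMulAction G M]

theorem tb_sub_gspan (H : Subgroup G) (F : Set M) : F ⊆ gspan H F := by
  intro f hf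
  exact AddSubgroup.subset_closure ⟨1, H.one_mem, f, hf, (one_smul G f).symm⟩

theorem tb_gspan_stb (H : Subgroup G) (F : Set M) : Stb H (gspan H F) := by
  intro h hh v hv
  unfold gspan at hv ⊢
  induction hv using AddSubgroup.closure_induction with
  | mem x hx =>
    obtain ⟨k, hk, f, hf, rfl⟩ := hx
    exact AddSubgroup.subset_closure ⟨h * k, H.mul_mem hh hk, f, hf, by rw [mul_smul]⟩
  | zero => rw [smul_zero]; exact AddSubgroup.zero_mem _
  | add x y _ _ hx hy => rw [smul_add]; exact AddSubgroup.add_mem _ hx hy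
  | neg x _ hx => rw [smul_neg]; exact AddSubgroup.neg_mem _ hx

theorem tb_gspan_le (H : Subgroup G) (F : Set M) (V : AddSubgroup M) (hV : Stb H V)
    (hF : ∀ f ∈ F, f ∈ V) : gspan H F ≤ V := by
  refine (AddSubgroup.closure_le _).2 ?_
  rintro m ⟨h, hh, f, hf, rfl⟩
  exact hV h hh f (hF f hf)

theorem tb_exists_ne (W : AddSubgroup M) (hW : W ≠ ⊥) : ∃ w ∈ W, w ≠ 0 := by
  by_contra hcon
  push Not at hcon
  exact hW ((AddSubgroup.eq_bot_iff_forall W).2 hcon)

theorem tb_pow_map {G' M' : Type} [Group G'] [AddCommGroup M'] [DistribMulAction G' M']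
    (φ : G' →* G) (f : M' →+ M) (hfe : ∀ (g : G') (m : M'), f (g • m) = φ g • f m)
    (g : G') (r : ℕ) (m : M') :
    f (((ac M' g - 1) ^ r) m) = ((ac M (φ g) - 1) ^ r) (f m) := by
  induction r generalizing m with
  | zero => simp
  | succ r ih =>
    rw [pow_succ, pow_succ]
    show f (((ac M' g - 1) ^ r) ((ac M' g - 1) m)) = ((ac M (φ g) - 1) ^ r) ((ac M (φ g) - 1) (f m))
    rw [ih]
    congr 1
    show f (g • m - m) = φ g • f m - f m
    rw [map_sub, hfe]

theorem tb_good_down {G' M' : Type} [Group G'] [AddCommGroup M'] [DistribMulAction G' M']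
    (φ : G' →* G) (f : M' →+ M) (hfe : ∀ (g : G') (m : M'), f (g • m) = φ g • f m)
    {H' : Subgroup G'} {W' K' : AddSubgroup M'} {H : Subgroup G} {W K : AddSubgroup M}
    (hK : ∀ m, f m ∈ K ↔ m ∈ K') (h : GoodOn H W K) (hH : ∀ x ∈ H', φ x ∈ H)
    (hW : ∀ m ∈ W', f m ∈ W) : GoodOn H' W' K' := by
  obtain ⟨e, b, he, hb⟩ := h
  refine ⟨e, b, he, fun x hx m hm n r hn hr => ?_⟩
  rw [← hK, tb_pow_map φ f hfe, map_pow]
  refine hb (φ x) (hH x hx) (f m) (hW m hm) n r hn ?_
  rw [← hK, tb_pow_map φ f hfe, map_pow] at hr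
  exact hr

theorem tb_good_up {G' M' : Type} [Group G'] [AddCommGroup M'] [DistribMulAction G' M']
    (φ : G' →* G) (f : M' →+ M) (hfe : ∀ (g : G') (m : M'), f (g • m) = φ g • f m)
    {H' : Subgroup G'} {W' K' : AddSubgroup M'} {H : Subgroup G} {W K : AddSubgroup M}
    (hK : ∀ m, f m ∈ K ↔ m ∈ K') (h : GoodOn H' W' K') (hH : ∀ x ∈ H, ∃ y ∈ H', φ y = x)
    (hW : ∀ m ∈ W, ∃ m' ∈ W', f m' = m) : GoodOn H W K := by
  obtain ⟨e, b, he, hb⟩ := h
  refine ⟨e, b, he, fun x hx m hm n r hn hr => ?_⟩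
  obtain ⟨y, hy, rfl⟩ := hH x hx
  obtain ⟨m', hm', rfl⟩ := hW m hm
  rw [← map_pow, ← tb_pow_map φ f hfe, hK]
  refine hb y hy m' hm' n r hn ?_
  rw [← map_pow, ← tb_pow_map φ f hfe, hK] at hr
  exact hr

/-- action of a subgroup on a stable subgroup -/
@[instance_reducible] def tbAct (G1 : Subgroup G) (W : AddSubgroup M) (hs : Stb G1 W) : DistribMulAction G1 W where
  smul g w := ⟨(g : G) • (w : M), hs g g.2 w w.2⟩
  one_smul w := Subtype.ext (one_smul G (w : M))
  mul_smul a b w := Subtype.ext (mul_smul (a : G) (b : G) (w : M))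
  smul_zero a := Subtype.ext (smul_zero (a : G))
  smul_add a x y := Subtype.ext (smul_add (a : G) (x : M) (y : M))

theorem tb_gspan_val (G1 : Subgroup G) (W : AddSubgroup M) (_ : DistribMulAction G1 W)
    (hc : ∀ (g : G1) (w : W), ((g • w : W) : M) = (g : G) • (w : M)) (F : Set M)
    (hW : W = gspan G1 F) :
    (⊤ : AddSubgroup W) = gspan (⊤ : Subgroup G1) {w : W | (w : M) ∈ F} := by
  symm
  rw [eq_top_iff]
  rintro ⟨w, hw⟩ -
  have key : ∀ m ∈ gspan G1 F, ∃ v ∈ gspan (⊤ : Subgroup G1) {w : W | (w : M) ∈ F}, (v : M) = m := by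
    intro m hm
    unfold gspan at hm
    induction hm using AddSubgroup.closure_induction with
    | mem x hx =>
      obtain ⟨k, hk, f, hf, rfl⟩ := hx
      have hfW : f ∈ W := by rw [hW]; exact tb_sub_gspan _ _ hf
      refine ⟨(⟨k, hk⟩ : G1) • (⟨f, hfW⟩ : W), ?_, hc _ _⟩
      exact AddSubgroup.subset_closure ⟨⟨k, hk⟩, Subgroup.mem_top _, ⟨f, hfW⟩, hf, rfl⟩
    | zero => exact ⟨0, AddSubgroup.zero_mem _, rfl⟩
    | add x y _ _ hx hy =>
      obtain ⟨a, ha, rfl⟩ := hx
      obtain ⟨b, hb, rfl⟩ := hy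
      exact ⟨a + b, AddSubgroup.add_mem _ ha hb, rfl⟩
    | neg x _ hx =>
      obtain ⟨a, ha, rfl⟩ := hx
      exact ⟨-a, AddSubgroup.neg_mem _ ha, rfl⟩
  obtain ⟨v, hv, hv'⟩ := key w (hW ▸ hw)
  have : v = ⟨w, hw⟩ := Subtype.ext hv'
  rw [← this]
  exact hv

theorem TBad.restrict {n : ℕ} (t : TBad n G M) (G1 : Subgroup G) (h1 : G1.FiniteIndex)
    (W : AddSubgroup M) (hW : W ≠ ⊥) (hs : Stb G1 W) :
    ∃ (_ : DistribMulAction G1 W), (∀ (g : G1) (w : W), ((g • w : W) : M) = (g : G) • (w : M)) ∧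
      TBad n G1 W := by
  letI : DistribMulAction G1 W := tbAct G1 W hs
  have hc : ∀ (g : G1) (w : W), ((g • w : W) : M) = (g : G) • (w : M) := fun g w => rfl
  refine ⟨inferInstance, hc, ?_⟩
  have hfgt : FGM G1 (⊤ : AddSubgroup M) := by
    refine FGM.fi G1 ⊤ le_top ?_ ⊤ t.fg
    rw [Subgroup.relIndex_top_right]
    exact h1.index_ne_zero
  obtain ⟨F, hF, hWF⟩ := noeth t.pc G1 ⊤ W hfgt hs le_top
  refine ⟨t.pc.sub G1, t.hl.sub G1, ?_, ?_, ?_, ?_⟩
  · rintro ⟨g, hg⟩ k hk hgk
    have : g = 1 := t.tf g k hk (by simpa using congrArg (Subtype.val) hgk)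
    exact Subtype.ext this
  · refine ⟨{w : W | (w : M) ∈ F}, ?_, tb_gspan_val G1 W _ hc F hWF⟩
    exact Set.Finite.preimage (Subtype.val_injective.injOn) hF
  · exact (AddSubgroup.nontrivial_iff_ne_bot W).2 hW
  · intro G2 h2 W' hW' hs' hgood
    haveI := h1
    haveI := h2
    refine t.bad (G2.map G1.subtype) ?_ (W'.map W.subtype) ?_ ?_ ?_
    · constructor
      rw [Subgroup.index_map_subtype]
      exact mul_ne_zero h2.index_ne_zero h1.index_ne_zero
    · intro hb
      rw [AddSubgroup.map_eq_bot_iff_of_injective _ Subtype.val_injective] at hb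
      exact hW' hb
    · rintro h ⟨k, hk, rfl⟩ v ⟨w, hw, rfl⟩
      exact ⟨k • w, hs' k hk w hw, rfl⟩
    · refine tb_good_up G1.subtype W.subtype (fun g m => rfl) ?_ hgood ?_ ?_
      · intro m
        rw [AddSubgroup.mem_bot, AddSubgroup.mem_bot]
        exact ⟨fun h => Subtype.ext h, fun h => by rw [h]; rfl⟩
      · rintro x ⟨y, hy, rfl⟩
        exact ⟨y, hy, rfl⟩
      · rintro x ⟨y, hy, rfl⟩
        exact ⟨y, hy, rfl⟩

theorem TBad.faithful {n : ℕ} (ih : IH n) (t : TBad n G M) (G1 : Subgroup G)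
    (h1 : G1.FiniteIndex) (W : AddSubgroup M) (hW : W ≠ ⊥) (hs : Stb G1 W) (g : G) (hg : g ∈ G1)
    (htriv : ∀ w ∈ W, g • w = w) : g = 1 := by
  by_contra hne
  let K0 : Subgroup G :=
    { carrier := {k | k ∈ G1 ∧ ∀ w ∈ W, k • w = w}
      one_mem' := ⟨G1.one_mem, fun w _ => one_smul G w⟩
      mul_mem' := by
        rintro a b ⟨ha, ha'⟩ ⟨hb, hb'⟩
        exact ⟨G1.mul_mem ha hb, fun w hw => by rw [mul_smul, hb' w hw, ha' w hw]⟩
      inv_mem' := by
        rintro a ⟨ha, ha'⟩
        exact ⟨G1.inv_mem ha, fun w hw => by rw [inv_smul_eq_iff, ha' w hw]⟩ }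
  have hinf : Infinite K0 := by
    have hgK : g ∈ K0 := ⟨hg, htriv⟩
    refine Infinite.of_injective (fun i : ℕ => (⟨g ^ i, K0.pow_mem hgK i⟩ : K0)) ?_
    have key : ∀ i j : ℕ, i < j → g ^ i ≠ g ^ j := by
      intro i j hij he
      refine hne (t.tf g (j - i) (by omega) ?_)
      have : g ^ j = g ^ i * g ^ (j - i) := by rw [← pow_add]; congr 1; omega
      rw [this] at he
      exact (mul_eq_left.1 he.symm)
    intro i j hij
    have hij' : g ^ i = g ^ j := congrArg Subtype.val hij
    rcases lt_trichotomy i j with h | h | h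
    · exact absurd hij' (key i j h)
    · exact h
    · exact absurd hij'.symm (key j i h)
  obtain ⟨w, hw, hw0⟩ := tb_exists_ne W hW
  have hle : gspan G1 {w} ≤ W := tb_gspan_le G1 _ W hs (by
    intro f hf; rw [Set.mem_singleton_iff.1 hf]; exact hw)
  have hgood : GoodOn G1 (gspan G1 {w}) ⊥ := by
    refine ih_ker ih t.pc t.hl G1 K0 (fun k hk => hk.1) ?_ hinf _ (tb_gspan_stb G1 _)
      ⟨{w}, Set.finite_singleton w, rfl⟩ (fun k hk m hm => hk.2 m (hle hm))
    rintro h hh k ⟨hk, hk'⟩
    refine ⟨G1.mul_mem (G1.mul_mem hh hk) (G1.inv_mem hh), fun w hw => ?_⟩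
    rw [mul_smul, mul_smul, hk' _ (hs _ (G1.inv_mem hh) w hw), smul_inv_smul]
  refine t.bad G1 h1 (gspan G1 {w}) ?_ (tb_gspan_stb G1 _) hgood
  intro hb
  have : w ∈ gspan G1 {w} := tb_sub_gspan G1 _ rfl
  rw [hb] at this
  exact hw0 (AddSubgroup.mem_bot.1 this)

/-- `TBad.emb` with ROOT as a hypothesis (see `TBEmb.lean`) -/
theorem TBad.emb_of {n : ℕ} (ih : IH n) (t : TBad n G M)
    (hroot : ∀ S : Subgroup G, ∃ d, 0 < d ∧ ∀ x : G, (∃ n, 0 < n ∧ x ^ n ∈ S) → x ^ d ∈ S)
    (Ω : Type) [MulAction G Ω]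
    (K : Ω → AddSubgroup M) (hK : ∀ (g : G) (ω : Ω) (m : M), m ∈ K ω ↔ g • m ∈ K (g • ω))
    (m0 : M) (hm0 : m0 ≠ 0) (hfin : {ω | m0 ∉ K ω}.Finite)
    (hint : ∀ m ∈ gspan (⊤ : Subgroup G) {m0}, (∀ ω, m ∈ K ω) → m = 0) :
    ∃ ω, m0 ∉ K ω ∧ (MulAction.stabilizer G ω).FiniteIndex := by
  by_contra hcon
  push Not at hcon
  -- the module generated by `m0`
  let V : AddSubgroup M := gspan (⊤ : Subgroup G) {m0}
  have hVs : Stb (⊤ : Subgroup G) V := tb_gspan_stb _ _
  have hm0V : m0 ∈ V := tb_sub_gspan _ _ rfl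
  let act : DistribMulAction G V :=
    { smul := fun g w => ⟨g • (w : M), hVs g (Subgroup.mem_top g) w w.2⟩
      one_smul := fun w => Subtype.ext (one_smul G (w : M))
      mul_smul := fun a b w => Subtype.ext (mul_smul a b (w : M))
      smul_zero := fun a => Subtype.ext (smul_zero a)
      smul_add := fun a x y => Subtype.ext (smul_add a (x : M) (y : M)) }
  have hcoe : ∀ (g : G) (w : V), ((g • w : V) : M) = g • (w : M) := fun g w => rfl
  -- the stable set
  let Ω' : SubMulAction G Ω :=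
    { carrier := {ω | ∃ g : G, m0 ∉ K (g • ω)}
      smul_mem' := by
        rintro c ω ⟨g, hg⟩
        exact ⟨g * c⁻¹, by rw [← mul_smul, inv_mul_cancel_right]; exact hg⟩ }
  have hout : ∀ ω, ω ∉ Ω' → ∀ v ∈ V, v ∈ K ω := by
    intro ω hω v hv
    have hω' : ∀ g : G, m0 ∈ K (g • ω) := by
      intro g
      by_contra hg
      exact hω ⟨g, hg⟩
    refine (AddSubgroup.closure_le (K ω)).2 ?_ hv
    rintro x ⟨g, -, f, hf, rfl⟩
    rw [Set.mem_singleton_iff.1 hf]
    have := (hK g (g⁻¹ • ω) m0).1 (hω' g⁻¹)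
    rwa [smul_inv_smul] at this
  have hgood : Good G V := by
    refine Pool.Agent.Polc.Emb.emb_of hroot Ω' (fun ω => (K ω).addSubgroupOf V) ?_ ?_ ?_
      {ω | m0 ∉ K ω} ?_ ?_ ?_
    · intro g ω m
      rw [AddSubgroup.mem_addSubgroupOf, AddSubgroup.mem_addSubgroupOf, hcoe]
      exact hK g ω m
    · -- finiteness
      have hfin' : ∀ v ∈ V, {ω : Ω | v ∉ K ω}.Finite := by
        intro v hv
        change v ∈ AddSubgroup.closure _ at hv
        induction hv using AddSubgroup.closure_induction with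
        | mem x hx =>
          obtain ⟨g, -, f, hf, rfl⟩ := hx
          rw [Set.mem_singleton_iff.1 hf]
          refine (hfin.image (fun ω => g • ω)).subset ?_
          intro ω hω
          refine ⟨g⁻¹ • ω, ?_, smul_inv_smul g ω⟩
          intro hc
          apply hω
          have := (hK g (g⁻¹ • ω) m0).1 hc
          rwa [smul_inv_smul] at this
        | zero =>
          convert Set.finite_empty
          rw [Set.eq_empty_iff_forall_notMem]
          intro ω hω
          exact hω (AddSubgroup.zero_mem _)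
        | add x y _ _ hx hy =>
          refine (hx.union hy).subset ?_
          intro ω hω
          by_contra hc
          rw [Set.mem_union, not_or] at hc
          exact hω (AddSubgroup.add_mem _ (not_not.1 hc.1) (not_not.1 hc.2))
        | neg x _ hx =>
          refine hx.subset ?_
          intro ω hω hc
          exact hω (AddSubgroup.neg_mem _ hc)
      intro m
      refine Set.Finite.subset ((hfin' m m.2).preimage (f := fun ω : Ω' => (ω : Ω))
        Subtype.val_injective.injOn) ?_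
      intro ω hω
      exact hω
    · intro m hm
      apply Subtype.ext
      refine hint m m.2 (fun ω => ?_)
      by_cases hω : ω ∈ Ω'
      · exact hm ⟨ω, hω⟩
      · exact hout ω hω m m.2
    · exact hfin.preimage (f := fun ω : Ω' => (ω : Ω)) Subtype.val_injective.injOn
    · rintro ⟨ω, g, hg⟩
      refine ⟨g⁻¹, ⟨g • ω, 1, by rwa [one_smul]⟩, hg, ?_⟩
      apply Subtype.ext
      exact (inv_smul_smul g ω).symm
    · -- each quotient is good
      intro ρ hρ
      let S : Subgroup G := MulAction.stabilizer G ρ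
      have hSmem : ∀ g : G, g ∈ S ↔ g • (ρ : Ω) = ρ := by
        intro g
        rw [MulAction.mem_stabilizer_iff]
        exact ⟨fun h => congrArg Subtype.val h, fun h => Subtype.ext h⟩
      have hSidx : S.index = 0 := by
        by_contra h0
        refine hcon ρ hρ ⟨?_⟩
        have : S = MulAction.stabilizer G (ρ : Ω) := by
          ext g
          rw [hSmem, MulAction.mem_stabilizer_iff]
        rw [← this]
        exact h0
      have hSm : ∀ h ∈ S, ∀ m : M, m ∈ K (ρ : Ω) → h • m ∈ K (ρ : Ω) := by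
        intro h hh m hm
        have := (hK h ρ m).1 hm
        rwa [(hSmem h).1 hh] at this
      refine ih_rel ih t.pc S (t.hl S hSidx) ⊤ ((K ρ).addSubgroupOf V) ?_ ?_ le_top ?_
      · intro h _ v _
        exact AddSubgroup.mem_top _
      · intro h hh v hv
        rw [AddSubgroup.mem_addSubgroupOf] at hv ⊢
        rw [hcoe]
        exact hSm h hh _ hv
      · -- finite generation
        classical
        let B : Set Ω := {ω | m0 ∉ K ω ∧ ∃ g : G, g • ω = ρ}
        have hB : B.Finite := hfin.subset (fun ω hω => hω.1)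
        have hch : ∀ ω : Ω, ∃ g : G, ω ∈ B → g • ω = ρ := by
          intro ω
          by_cases hω : ω ∈ B
          · obtain ⟨g, hg⟩ := hω.2
            exact ⟨g, fun _ => hg⟩
          · exact ⟨1, fun h => absurd h hω⟩
        choose γ hγ using hch
        let mV : V := ⟨m0, hm0V⟩
        refine ⟨(fun ω => γ ω • mV) '' B, hB.image _, ?_⟩
        symm
        rw [eq_top_iff]
        rintro ⟨v, hv⟩ -
        have hgen : ∀ g : G, g • mV ∈ gspan S ((fun ω => γ ω • mV) '' B) ⊔
            (K ρ).addSubgroupOf V := by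
          intro g
          by_cases hg : g • m0 ∈ K (ρ : Ω)
          · exact AddSubgroup.mem_sup_right hg
          · apply AddSubgroup.mem_sup_left
            have hB' : g⁻¹ • (ρ : Ω) ∈ B := by
              refine ⟨?_, g, smul_inv_smul g _⟩
              intro hc
              apply hg
              have := (hK g (g⁻¹ • (ρ : Ω)) m0).1 hc
              rwa [smul_inv_smul] at this
            refine AddSubgroup.subset_closure ⟨g * (γ (g⁻¹ • (ρ : Ω)))⁻¹, ?_,
              γ (g⁻¹ • (ρ : Ω)) • mV, ⟨_, hB', rfl⟩, ?_⟩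
            · rw [hSmem, mul_smul]
              have h1 := hγ _ hB'
              have h2 : (γ (g⁻¹ • (ρ : Ω)))⁻¹ • (ρ : Ω) = g⁻¹ • (ρ : Ω) := by
                rw [inv_smul_eq_iff]
                exact h1.symm
              rw [h2, smul_inv_smul]
            · rw [← mul_smul, inv_mul_cancel_right]
        have key : ∀ m ∈ V, ∃ x ∈ gspan S ((fun ω => γ ω • mV) '' B) ⊔
            (K ρ).addSubgroupOf V, (x : M) = m := by
          intro m hm
          change m ∈ AddSubgroup.closure _ at hm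
          induction hm using AddSubgroup.closure_induction with
          | mem x hx =>
            obtain ⟨g, -, f, hf, rfl⟩ := hx
            rw [Set.mem_singleton_iff.1 hf]
            exact ⟨g • mV, hgen g, rfl⟩
          | zero => exact ⟨0, AddSubgroup.zero_mem _, rfl⟩
          | add x y _ _ hx hy =>
            obtain ⟨a, ha, rfl⟩ := hx
            obtain ⟨b, hb, rfl⟩ := hy
            exact ⟨a + b, AddSubgroup.add_mem _ ha hb, rfl⟩
          | neg x _ hx =>
            obtain ⟨a, ha, rfl⟩ := hx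
            exact ⟨-a, AddSubgroup.neg_mem _ ha, rfl⟩
        obtain ⟨x, hx, hx'⟩ := key v hv
        have : x = ⟨v, hv⟩ := Subtype.ext hx'
        rw [← this]
        exact hx
  refine t.bad ⊤ inferInstance V ?_ hVs ?_
  · intro hb
    have : m0 ∈ V := hm0V
    rw [hb] at this
    exact hm0 (AddSubgroup.mem_bot.1 this)
  · refine tb_good_up (MonoidHom.id G) V.subtype (fun g m => rfl) ?_ hgood ?_ ?_
    · intro m
      rw [AddSubgroup.mem_bot, AddSubgroup.mem_bot]
      exact ⟨fun h => Subtype.ext h, fun h => by rw [h]; rfl⟩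
    · intro x hx
      exact ⟨x, hx, rfl⟩
    · intro m hm
      exact ⟨⟨m, hm⟩, AddSubgroup.mem_top _, rfl⟩

/-- `M` has no nonzero good submodule -/
structure TbR0 (n : ℕ) (G M : Type) [Group G] [AddCommGroup M] [DistribMulAction G M] : Prop where
  pc : PC G
  hl : HL (n + 1) G
  tf : TF G
  fg : FGM (⊤ : Subgroup G) (⊤ : AddSubgroup M)
  nz : Nontrivial M
  bad : ∀ W : AddSubgroup M, W ≠ ⊥ → Stb (⊤ : Subgroup G) W → ¬ GoodOn (⊤ : Subgroup G) W ⊥

/-- the induced action on the quotient by a stable subgroup -/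
@[instance_reducible] def tbQuotAct (K : AddSubgroup M) (hK : Stb (⊤ : Subgroup G) K) :
    DistribMulAction G (M ⧸ K) where
  smul g := QuotientAddGroup.map K K (DistribMulAction.toAddMonoidEnd G M g)
    (fun m hm => hK g (Subgroup.mem_top g) m hm)
  one_smul w := by
    obtain ⟨m, rfl⟩ := QuotientAddGroup.mk_surjective w
    exact congrArg QuotientAddGroup.mk (one_smul G m)
  mul_smul a b w := by
    obtain ⟨m, rfl⟩ := QuotientAddGroup.mk_surjective w
    exact congrArg QuotientAddGroup.mk (mul_smul a b m)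
  smul_zero a := map_zero _
  smul_add a x y := map_add _ x y

theorem tb_stb_bot (H : Subgroup G) : Stb H (⊥ : AddSubgroup M) := by
  intro h _ v hv
  rw [AddSubgroup.mem_bot] at hv ⊢
  rw [hv, smul_zero]

theorem tb_good_bot (H : Subgroup G) : GoodOn H (⊥ : AddSubgroup M) ⊥ := by
  refine ⟨1, 0, one_pos, fun x _ m hm n r _ _ => ?_⟩
  rw [pow_zero]
  exact hm

/-- a maximal good submodule, and the quotient by it -/
theorem tb_r0 {n : ℕ} (hpc : PC G) (hhl : HL (n + 1) G) (htf : TF G)
    (hfg : FGM (⊤ : Subgroup G) (⊤ : AddSubgroup M)) (hbad : ¬ Good G M) :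
    ∃ (M' : Type) (_ : AddCommGroup M') (_ : DistribMulAction G M'), TbR0 n G M' := by
  obtain ⟨K, ⟨hKg, hKs, -⟩, hmax⟩ := noeth_max hpc (⊤ : Subgroup G) (⊤ : AddSubgroup M) hfg
    (fun W => GoodOn (⊤ : Subgroup G) W ⊥) ⟨⊥, tb_good_bot _, tb_stb_bot _, le_top⟩
  let act : DistribMulAction G (M ⧸ K) := tbQuotAct K hKs
  have hcoe : ∀ (g : G) (m : M), (QuotientAddGroup.mk' K) (g • m) =
      g • (QuotientAddGroup.mk' K m) := fun g m => rfl
  refine ⟨M ⧸ K, inferInstance, inferInstance, hpc, hhl, htf, ?_, ?_, ?_⟩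
  · obtain ⟨F, hF, hFV⟩ := hfg
    refine ⟨QuotientAddGroup.mk' K '' F, hF.image _, ?_⟩
    symm
    rw [eq_top_iff]
    rintro x -
    obtain ⟨m, rfl⟩ := QuotientAddGroup.mk'_surjective K x
    have hm : m ∈ gspan (⊤ : Subgroup G) F := by rw [← hFV]; exact AddSubgroup.mem_top m
    unfold gspan at hm
    induction hm using AddSubgroup.closure_induction with
    | mem x hx =>
      obtain ⟨g, hg, f, hf, rfl⟩ := hx
      exact AddSubgroup.subset_closure ⟨g, hg, _, ⟨f, hf, rfl⟩, hcoe g f⟩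
    | zero => rw [map_zero]; exact AddSubgroup.zero_mem _
    | add x y _ _ hx hy => rw [map_add]; exact AddSubgroup.add_mem _ hx hy
    | neg x _ hx => rw [map_neg]; exact AddSubgroup.neg_mem _ hx
  · rw [← not_subsingleton_iff_nontrivial]
    intro hsub
    apply hbad
    have : K = ⊤ := by
      rw [eq_top_iff]
      rintro m -
      rw [← QuotientAddGroup.eq_zero_iff]
      exact Subsingleton.elim _ _
    rw [this] at hKg
    exact hKg
  · intro W' hW' hs' hgood
    let W : AddSubgroup M := W'.comap (QuotientAddGroup.mk' K)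
    have hKW : K ≤ W := by
      intro m hm
      have : (QuotientAddGroup.mk' K) m = 0 := (QuotientAddGroup.eq_zero_iff m).2 hm
      rw [AddSubgroup.mem_comap, this]
      exact AddSubgroup.zero_mem _
    have hWs : Stb (⊤ : Subgroup G) W := by
      intro g hg m hm
      rw [AddSubgroup.mem_comap] at hm ⊢
      rw [hcoe]
      exact hs' g hg _ hm
    have h1 : GoodOn (⊤ : Subgroup G) W K := by
      refine tb_good_down (MonoidHom.id G) (QuotientAddGroup.mk' K) hcoe ?_ hgood
        (fun x hx => hx) (fun m hm => hm)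
      intro m
      rw [AddSubgroup.mem_bot]
      exact QuotientAddGroup.eq_zero_iff m
    have h2 : GoodOn (⊤ : Subgroup G) W ⊥ :=
      good_ext _ W K ⊥ (tb_stb_bot _) h1 hKg bot_le
    have h3 := hmax W h2 hWs le_top hKW
    apply hW'
    rw [AddSubgroup.eq_bot_iff_forall]
    intro x hx
    obtain ⟨m, rfl⟩ := QuotientAddGroup.mk'_surjective K x
    have : m ∈ W := hx
    rw [h3] at this
    exact (QuotientAddGroup.eq_zero_iff m).2 this

/-- passing to a submodule -/
theorem tb_r0_sub {n : ℕ} (t : TbR0 n G M) (V : AddSubgroup M) (hV : V ≠ ⊥)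
    (hs : Stb (⊤ : Subgroup G) V) :
    ∃ (_ : DistribMulAction G V), (∀ (g : G) (w : V), ((g • w : V) : M) = g • (w : M)) ∧
      TbR0 n G V := by
  let act : DistribMulAction G V :=
    { smul := fun g w => ⟨g • (w : M), hs g (Subgroup.mem_top g) w w.2⟩
      one_smul := fun w => Subtype.ext (one_smul G (w : M))
      mul_smul := fun a b w => Subtype.ext (mul_smul a b (w : M))
      smul_zero := fun a => Subtype.ext (smul_zero a)
      smul_add := fun a x y => Subtype.ext (smul_add a (x : M) (y : M)) }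
  have hcoe : ∀ (g : G) (w : V), ((g • w : V) : M) = g • (w : M) := fun g w => rfl
  refine ⟨act, hcoe, t.pc, t.hl, t.tf, ?_, ?_, ?_⟩
  · obtain ⟨F, hF, hFV⟩ := noeth t.pc (⊤ : Subgroup G) ⊤ V t.fg hs le_top
    refine ⟨{w : V | (w : M) ∈ F}, Set.Finite.preimage (Subtype.val_injective.injOn) hF, ?_⟩
    symm
    rw [eq_top_iff]
    rintro ⟨w, hw⟩ -
    have key : ∀ m ∈ gspan (⊤ : Subgroup G) F,
        ∃ v ∈ gspan (⊤ : Subgroup G) {w : V | (w : M) ∈ F}, (v : M) = m := by
      intro m hm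
      unfold gspan at hm
      induction hm using AddSubgroup.closure_induction with
      | mem x hx =>
        obtain ⟨k, hk, f, hf, rfl⟩ := hx
        have hfW : f ∈ V := by rw [hFV]; exact tb_sub_gspan _ _ hf
        exact ⟨k • (⟨f, hfW⟩ : V), AddSubgroup.subset_closure ⟨k, hk, ⟨f, hfW⟩, hf, rfl⟩, rfl⟩
      | zero => exact ⟨0, AddSubgroup.zero_mem _, rfl⟩
      | add x y _ _ hx hy =>
        obtain ⟨a, ha, rfl⟩ := hx
        obtain ⟨b, hb, rfl⟩ := hy
        exact ⟨a + b, AddSubgroup.add_mem _ ha hb, rfl⟩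
      | neg x _ hx =>
        obtain ⟨a, ha, rfl⟩ := hx
        exact ⟨-a, AddSubgroup.neg_mem _ ha, rfl⟩
    obtain ⟨v, hv, hv'⟩ := key w (hFV ▸ hw)
    have : v = ⟨w, hw⟩ := Subtype.ext hv'
    rw [← this]
    exact hv
  · exact (AddSubgroup.nontrivial_iff_ne_bot V).2 hV
  · intro W' hW' hs' hgood
    refine t.bad (W'.map V.subtype) ?_ ?_ ?_
    · intro hb
      rw [AddSubgroup.map_eq_bot_iff_of_injective _ Subtype.val_injective] at hb
      exact hW' hb
    · rintro h hh v ⟨w, hw, rfl⟩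
      exact ⟨h • w, hs' h hh w hw, rfl⟩
    · refine tb_good_up (MonoidHom.id G) V.subtype (fun g m => rfl) ?_ hgood ?_ ?_
      · intro m
        rw [AddSubgroup.mem_bot, AddSubgroup.mem_bot]
        exact ⟨fun h => Subtype.ext h, fun h => by rw [h]; rfl⟩
      · intro x hx
        exact ⟨x, hx, rfl⟩
      · rintro x ⟨y, hy, rfl⟩
        exact ⟨y, hy, rfl⟩

/-- reduction to a fixed characteristic -/
theorem tb_r0_char {n : ℕ} (t : TbR0 n G M) :
    ∃ (c : ℕ) (M' : Type) (_ : AddCommGroup M') (_ : DistribMulAction G M'),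
      TbR0 n G M' ∧ Char c M' := by
  by_cases h : ∃ (c : ℕ) (m : M), c.Prime ∧ m ≠ 0 ∧ c • m = 0
  · obtain ⟨c, m, hc, hm, hcm⟩ := h
    let V : AddSubgroup M :=
      { carrier := {x | c • x = 0}
        zero_mem' := smul_zero c
        add_mem' := by
          intro a b ha hb
          change c • (a + b) = 0
          rw [smul_add, show c • a = 0 from ha, show c • b = 0 from hb, add_zero]
        neg_mem' := by
          intro a ha
          change c • (-a) = 0
          rw [smul_neg, show c • a = 0 from ha, neg_zero] }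
    have hV : V ≠ ⊥ := by
      intro hb
      have : m ∈ V := hcm
      rw [hb] at this
      exact hm (AddSubgroup.mem_bot.1 this)
    have hs : Stb (⊤ : Subgroup G) V := by
      intro g _ v hv
      change c • (ac M g v) = 0
      rw [← map_nsmul, show c • v = 0 from hv, map_zero]
    obtain ⟨act, hcoe, tV⟩ := tb_r0_sub t V hV hs
    exact ⟨c, V, inferInstance, act, tV, Or.inr ⟨hc, fun v => Subtype.ext v.2⟩⟩
  · push Not at h
    refine ⟨0, M, inferInstance, inferInstance, t, Or.inl ⟨rfl, ?_⟩⟩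
    intro k
    induction k using Nat.strong_induction_on with
    | _ k ih =>
      intro m hk hkm
      by_cases h1 : k = 1
      · rw [h1, one_smul] at hkm
        exact hkm
      · obtain ⟨p, hp, l, rfl⟩ := Nat.exists_prime_and_dvd h1
        have hl : 0 < l := by
          rcases Nat.eq_zero_or_pos l with h0 | h0
          · subst h0; simp at hk
          · exact h0
        rw [mul_smul] at hkm
        have hlm : l • m = 0 := by
          by_contra hne
          exact h p (l • m) hp hne hkm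
        exact ih l (by nlinarith [hp.two_le]) m hl hlm

theorem tb_good_preimage (G1 : Subgroup G) (hn : G1.Normal) (V : AddSubgroup M)
    (hg : GoodOn G1 V ⊥) (t : G) : GoodOn G1 (V.comap (ac M t)) ⊥ := by
  have h := good_conj G1 t⁻¹ V ⊥ hg (V.comap (ac M t)) ⊥ ?_ ?_
  · convert h using 1
    ext x
    constructor
    · intro hx
      refine ⟨t * x * t⁻¹, hn.conj_mem x hx t, ?_⟩
      simp [mul_assoc]
    · rintro ⟨y, hy, rfl⟩
      exact hn.conj_mem y hy t⁻¹
  · intro m
    rw [AddSubgroup.mem_comap]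
    change m ∈ V ↔ t • t⁻¹ • m ∈ V
    rw [smul_inv_smul]
  · intro m
    rw [AddSubgroup.mem_bot, AddSubgroup.mem_bot]
    constructor
    · intro h; rw [h, smul_zero]
    · intro h
      rw [inv_smul_eq_iff, smul_zero] at h
      exact h

theorem tb_stb_preimage (G1 : Subgroup G) (hn : G1.Normal) (V : AddSubgroup M)
    (hs : Stb G1 V) (t : G) : Stb G1 (V.comap (ac M t)) := by
  intro h hh v hv
  rw [AddSubgroup.mem_comap] at hv ⊢
  change t • h • v ∈ V
  have : t • h • v = (t * h * t⁻¹) • (t • v) := by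
    rw [← mul_smul, ← mul_smul, inv_mul_cancel_right]
  rw [this]
  exact hs _ (hn.conj_mem h hh t) _ hv

theorem tb_stb_mono {H H' : Subgroup G} (hle : H' ≤ H) {V : AddSubgroup M} (hs : Stb H V) :
    Stb H' V := fun h hh v hv => hs h (hle hh) v hv

/-- the key step: no good submodule over finite index normal subgroups -/
theorem tb_step {n : ℕ} (t : TbR0 n G M) (G1 : Subgroup G) (h1 : G1.FiniteIndex)
    (hn : G1.Normal) (W : AddSubgroup M) (hW : W ≠ ⊥) (hs : Stb G1 W) : ¬ GoodOn G1 W ⊥ := by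
  intro hg
  have hri : G1.relIndex ⊤ ≠ 0 := by
    rw [Subgroup.relIndex_top_right]
    exact h1.index_ne_zero
  have hfg1 : FGM G1 (⊤ : AddSubgroup M) := FGM.fi G1 ⊤ le_top hri ⊤ t.fg
  -- maximal good `G1`-submodule
  obtain ⟨V, ⟨hVg, hVs, -⟩, hmax⟩ := noeth_max t.pc G1 (⊤ : AddSubgroup M) hfg1
    (fun W => GoodOn G1 W ⊥) ⟨⊥, tb_good_bot _, tb_stb_bot _, le_top⟩
  have hVne : V ≠ ⊥ := by
    intro hb
    apply hW
    rw [← hb]
    exact hmax W hg hs le_top (by rw [hb]; exact bot_le)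
  -- the translates are maximal too
  have hmax' : ∀ (s : G) (W' : AddSubgroup M), GoodOn G1 W' ⊥ → Stb G1 W' →
      V.comap (ac M s) ≤ W' → W' ≤ V.comap (ac M s) := by
    intro s W' hg' hs' hle
    have h2 := hmax (W'.comap (ac M s⁻¹)) (tb_good_preimage G1 hn W' hg' s⁻¹)
      (tb_stb_preimage G1 hn W' hs' s⁻¹) le_top (by
        intro v hv
        rw [AddSubgroup.mem_comap]
        apply hle
        rw [AddSubgroup.mem_comap]
        change s • s⁻¹ • v ∈ V
        rwa [smul_inv_smul])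
    intro w hw
    rw [AddSubgroup.mem_comap, ← h2, AddSubgroup.mem_comap]
    change s⁻¹ • s • w ∈ W'
    rwa [inv_smul_smul]
  -- finite intersections of translates are nonzero
  have hint : ∀ S : Finset G, ∃ X : AddSubgroup M, X ≠ ⊥ ∧ Stb G1 X ∧ GoodOn G1 X ⊥ ∧
      ∀ s ∈ S, X ≤ V.comap (ac M s) := by
    intro S
    classical
    induction S using Finset.induction_on with
    | empty => exact ⟨V, hVne, hVs, hVg, fun s hs => absurd hs (Finset.notMem_empty s)⟩
    | insert s S _ ih =>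
      obtain ⟨X, hX, hXs, hXg, hXS⟩ := ih
      refine ⟨X ⊓ V.comap (ac M s), ?_, ?_, ?_, ?_⟩
      · intro hb
        have hsup := good_sup G1 (V.comap (ac M s)) X (tb_stb_preimage G1 hn V hVs s) hXs
          (tb_good_preimage G1 hn V hVg s) hXg (by rw [inf_comm]; exact hb)
        have hsups : Stb G1 (V.comap (ac M s) ⊔ X) := by
          intro h hh v hv
          obtain ⟨a, ha, b, hb, rfl⟩ := AddSubgroup.mem_sup.1 hv
          rw [smul_add]
          exact AddSubgroup.add_mem _
            (AddSubgroup.mem_sup_left (tb_stb_preimage G1 hn V hVs s h hh a ha))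
            (AddSubgroup.mem_sup_right (hXs h hh b hb))
        have hle := hmax' s _ hsup hsups le_sup_left
        have hXle : X ≤ V.comap (ac M s) := le_sup_right.trans hle
        apply hX
        rw [inf_eq_left.2 hXle] at hb
        exact hb
      · intro h hh v hv
        exact ⟨hXs h hh v hv.1, tb_stb_preimage G1 hn V hVs s h hh v hv.2⟩
      · exact good_sub G1 G1 X _ ⊥ le_rfl inf_le_left hXg
      · intro s' hs'
        rcases Finset.mem_insert.1 hs' with rfl | h
        · exact inf_le_right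
        · exact inf_le_left.trans (hXS s' h)
  -- coset representatives
  haveI := h1
  haveI : Finite (G ⧸ G1) := Subgroup.finite_quotient_of_finiteIndex
  haveI := Fintype.ofFinite (G ⧸ G1)
  classical
  obtain ⟨X, hX, hXs, hXg, hXS⟩ := hint (Finset.univ.image (fun q : G ⧸ G1 => q.out))
  have hall : ∀ s : G, ∀ x ∈ X, s • x ∈ V := by
    intro s x hx
    have h2 : (QuotientGroup.mk s : G ⧸ G1).out ∈
        Finset.univ.image (fun q : G ⧸ G1 => q.out) :=
      Finset.mem_image.2 ⟨_, Finset.mem_univ _, rfl⟩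
    obtain ⟨h, hh⟩ := QuotientGroup.mk_out_eq_mul G1 s
    have h3 := hXS _ h2 hx
    rw [AddSubgroup.mem_comap] at h3
    change (QuotientGroup.mk s : G ⧸ G1).out • x ∈ V at h3
    rw [hh] at h3
    have h4 : s • x = (s * (h : G)⁻¹ * s⁻¹) • ((s * (h : G)) • x) := by
      rw [← mul_smul]
      congr 1
      group
    rw [h4]
    exact hVs _ (hn.conj_mem _ (G1.inv_mem h.2) s) _ h3
  have hY : gspan (⊤ : Subgroup G) (X : Set M) ≤ V := by
    refine (AddSubgroup.closure_le _).2 ?_
    rintro m ⟨g, -, x, hx, rfl⟩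
    exact hall g x hx
  refine t.bad (gspan (⊤ : Subgroup G) (X : Set M)) ?_ (tb_gspan_stb _ _) ?_
  · intro hb
    apply hX
    rw [AddSubgroup.eq_bot_iff_forall]
    intro x hx
    have : x ∈ gspan (⊤ : Subgroup G) (X : Set M) := tb_sub_gspan _ _ hx
    rw [hb] at this
    exact AddSubgroup.mem_bot.1 this
  · exact good_fi G1 ⊤ le_top hri _ ⊥ (tb_stb_bot _) (good_sub G1 G1 V _ ⊥ le_rfl hY hVg)

theorem tb_final {n : ℕ} (t : TbR0 n G M) : TBad n G M := by
  refine ⟨t.pc, t.hl, t.tf, t.fg, t.nz, ?_⟩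
  intro G1 h1 W hW hs hg
  haveI := h1
  refine tb_step t G1.normalCore inferInstance inferInstance W hW
    (tb_stb_mono (Subgroup.normalCore_le G1) hs) ?_
  exact good_sub G1 G1.normalCore W W ⊥ (Subgroup.normalCore_le G1) le_rfl hg

end tbm

theorem exists_tbad {n : ℕ} (_ih : IH n) (h : ¬ IH (n + 1)) :
    ∃ (c : ℕ) (G M : Type) (_ : Group G) (_ : AddCommGroup M) (_ : DistribMulAction G M),
      TBad n G M ∧ Char c M := by
  unfold IH at h
  push Not at h
  obtain ⟨G, iG, hpc, hhl, M, iM, iGM, hfg, hbad⟩ := h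
  obtain ⟨G1, h1, -, htf⟩ := hpc.exists_tf
  have hri : G1.relIndex ⊤ ≠ 0 := by
    rw [Subgroup.relIndex_top_right]
    exact h1.index_ne_zero
  -- `M` is finitely generated over `G1`
  have hfg1 : FGM (⊤ : Subgroup G1) (⊤ : AddSubgroup M) := by
    obtain ⟨F, hF, hFM⟩ := FGM.fi G1 ⊤ le_top hri (⊤ : AddSubgroup M) hfg
    refine ⟨F, hF, ?_⟩
    symm
    rw [eq_top_iff]
    rw [hFM]
    refine (AddSubgroup.closure_le _).2 ?_
    rintro m ⟨g, hg, f, hf, rfl⟩
    exact AddSubgroup.subset_closure ⟨⟨g, hg⟩, Subgroup.mem_top _, f, hf, rfl⟩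
  have hbad1 : ¬ Good G1 M := by
    intro hg
    apply hbad
    refine good_fi G1 ⊤ le_top hri _ ⊥ (tb_stb_bot _) ?_
    refine tb_good_up G1.subtype (AddMonoidHom.id M) (fun g m => rfl) (fun m => Iff.rfl) hg ?_ ?_
    · intro x hx
      exact ⟨⟨x, hx⟩, Subgroup.mem_top _, rfl⟩
    · intro m hm
      exact ⟨m, hm, rfl⟩
  obtain ⟨M', iM', iGM', t⟩ := tb_r0 (hpc.sub G1) (hhl.sub G1) htf hfg1 hbad1
  obtain ⟨c, M'', iM'', iGM'', t', hc⟩ := tb_r0_char t
  exact ⟨c, G1, M'', inferInstance, iM'', iGM'', tb_final t', hc⟩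

end Pool.Agent.Polc
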