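import Pool.Agent.Polc.HLM
import Pool.Agent.Polc.TB
import Pool.Agent.Polc.S3
import Pool.Agent.Polc.NBFAux

/-!
Module NBF (`MP_9e8505_al`): `B` is not algebraic on any vector.
-/

set_option autoImplicit false

namespace Pool.Agent.Polc

namespace NBF

/-- `s3` for a submodule -/
theorem s3W {G M : Type} [Group G] [AddCommGroup M] [DistribMulAction G M] {n : ℕ} (ih : IH n)
    (t : TBad n G M) (W : AddSubgroup M) (hW : W ≠ ⊥) (hs : Stb (⊤ : Subgroup G) W)
    (S : Type) [CommRing S] [IsNoetherianRing S] [Module S M] (φ : G →* RingAut S)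
    (hφ : ∀ (g : G) (s : S) (x : M), g • (s • x) = (φ g s) • (g • x)) :
    ∃ (m0 : M) (Q : Ideal S) (σ : S), m0 ∈ W ∧ Q.IsPrime ∧
      (∀ s : S, s • (σ • m0) = 0 ↔ s ∈ Q) ∧
      ∃ G3 : Subgroup G, G3.FiniteIndex ∧ ∀ g ∈ G3, ∀ s : S, s ∈ Q ↔ φ g s ∈ Q := by
  obtain ⟨inst, hcompat, t'⟩ := t.restrict ⊤ inferInstance W hW hs
  obtain ⟨m0, Q, σ, _, hQ, hann, G3, hfi, _, hst⟩ := s3 (G := (⊤ : Subgroup G)) (M := W) ih t' S M
    (φ.comp (Subgroup.subtype ⊤)) (fun g s x => hφ g s x) W.subtype
    (Subtype.coe_injective) (fun g m => hcompat g m)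
  refine ⟨m0, Q, σ, m0.2, hQ, hann, G3.map (Subgroup.subtype ⊤), ?_, ?_⟩
  · rw [Subgroup.finiteIndex_iff, Subgroup.index_map_subtype, Subgroup.index_top, mul_one]
    exact hfi.index_ne_zero
  · rintro _ ⟨g, hg, rfl⟩ s
    exact hst g hg s

/-- a criterion for finite index -/
theorem fi_of_range {Γ α : Type} [Group Γ] (H : Subgroup Γ) (f : Γ → α)
    (hfin : (Set.range f).Finite) (hf : ∀ g h : Γ, f g = f h → g⁻¹ * h ∈ H) : H.FiniteIndex := by
  have h1 : Finite (Γ ⧸ H) := by
    have : Finite (Set.range f) := hfin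
    refine Finite.of_injective (β := Set.range f) (fun q => ⟨f q.out, q.out, rfl⟩) ?_
    intro q q' hqq
    have h2 : f q.out = f q'.out := congrArg Subtype.val hqq
    rw [← Quotient.out_eq' q, ← Quotient.out_eq' q']
    exact QuotientGroup.eq.2 (hf _ _ h2)
  exact Subgroup.finiteIndex_iff.2 Subgroup.index_ne_zero_of_finite

open Polynomial in
/-- the second step, for an abelian normal subgroup -/
theorem step2 {G A M : Type} [Group G] [CommGroup A] [AddCommGroup M] [DistribMulAction G M]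
    {n : ℕ} (ih : IH n) (t : TBad n G M) (j : A →* G) (κ : G →* MulAut A)
    (hκ : ∀ g a, j (κ g a) = g * j a * g⁻¹) (hfg : Group.FG A)
    (htf : ∀ (n : ℕ) (m : M), 0 < n → n • m = 0 → m = 0)
    (W : AddSubgroup M) (hW : W ≠ ⊥) (hs : Stb (⊤ : Subgroup G) W)
    (halg : ∀ a : A, ∀ m ∈ W, Alg 0 (j a) m) :
    ∃ G4 : Subgroup G, G4.FiniteIndex ∧ ∃ MQ : AddSubgroup M, MQ ≠ ⊥ ∧ Stb G4 MQ ∧
      (∀ g ∈ G4, ∀ a : A, ∀ m ∈ MQ, cm g (j a) • m = m) ∧ ∀ a : A, ∀ m ∈ MQ, Alg 0 (j a) m := by
  classical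
  let ρ : MonoidAlgebra ℤ A →+* AddMonoid.End M :=
    (MonoidAlgebra.lift ℤ (AddMonoid.End M) A ((ac M).comp j)).toRingHom
  let _ : Module (MonoidAlgebra ℤ A) M := Module.compHom M ρ
  have hsm : ∀ (s : MonoidAlgebra ℤ A) (m : M), s • m = ρ s m := fun _ _ => rfl
  have hof : ∀ (a : A) (m : M), (MonoidAlgebra.of ℤ A a) • m = j a • m := by
    intro a m
    rw [hsm]
    have : ρ (MonoidAlgebra.of ℤ A a) = ac M (j a) := MonoidAlgebra.lift_of _ _
    rw [this]
    rfl
  have : Algebra.FiniteType ℤ (MonoidAlgebra ℤ A) := inferInstance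
  have : IsNoetherianRing (MonoidAlgebra ℤ A) := Algebra.FiniteType.isNoetherianRing ℤ _
  let φ : G →* RingAut (MonoidAlgebra ℤ A) :=
    { toFun := fun g =>
        (MonoidAlgebra.domCongrAut (R := ℤ) (A := ℤ) (κ g)).toRingEquiv
      map_one' := by rw [map_one, map_one]; rfl
      map_mul' := fun g h => by rw [map_mul, map_mul]; rfl }
  have hφof : ∀ g a, φ g (MonoidAlgebra.of ℤ A a) = MonoidAlgebra.of ℤ A (κ g a) := by
    intro g a
    simp [φ]
  have hφ : ∀ (g : G) (s : MonoidAlgebra ℤ A) (x : M), g • (s • x) = (φ g s) • (g • x) := by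
    intro g s x
    induction s using MonoidAlgebra.induction_on with
    | of a =>
      rw [hφof, hof, hof, hκ, smul_smul, smul_smul]
      congr 1
      group
    | add p q hp hq => rw [add_smul, smul_add, hp, hq, map_add, add_smul]
    | smul r p hp =>
      have h1 : ∀ (r : ℤ) (p : MonoidAlgebra ℤ A) (x : M), (r • p) • x = r • (p • x) := by
        intro r p x
        rw [hsm, hsm, map_zsmul]
        rfl
      rw [h1, smul_comm, hp, map_zsmul, h1]
  have hzs : ∀ (r : ℤ) (p : MonoidAlgebra ℤ A) (x : M), (r • p) • x = r • (p • x) := by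
    intro r p x
    rw [hsm, hsm, map_zsmul]
    rfl
  obtain ⟨m0, Q, σ, hm0, hQ, hann, G3, hG3, hst⟩ := s3W ih t W hW hs (MonoidAlgebra ℤ A) φ hφ
  have hm' : σ • m0 ≠ 0 := by
    intro h0
    apply hQ.ne_top
    rw [Ideal.eq_top_iff_one, ← hann, h0, smul_zero]
  -- evaluation of polynomials
  have hev : ∀ (a : A) (f : Polynomial ℤ) (m : M),
      (Polynomial.aeval (MonoidAlgebra.of ℤ A a) f) • m
        = (Polynomial.aeval (ac M (j a)) f : AddMonoid.End M) m := by
    intro a f m
    rw [hsm, Polynomial.aeval_def, Polynomial.hom_eval₂, Polynomial.aeval_def]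
    have e1 : ρ (MonoidAlgebra.of ℤ A a) = ac M (j a) := MonoidAlgebra.lift_of _ _
    rw [e1]
    congr 2
    exact RingHom.ext_int _ _
  -- polynomials in Q
  have hpoly : ∀ a : A, ∃ f : Polynomial ℤ, f ≠ 0 ∧
      Polynomial.aeval (MonoidAlgebra.of ℤ A a) f ∈ Q := by
    intro a
    obtain ⟨f, hf, hf'⟩ := halg a m0 hm0
    refine ⟨f, ?_, ?_⟩
    · rintro rfl
      simp at hf
    · rw [← hann, smul_comm, hev, hf', smul_zero]
  -- the domain
  have hdom : IsDomain (MonoidAlgebra ℤ A ⧸ Q) := inferInstance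
  have hchar : ∀ k : ℤ, ((k : ℤ) : MonoidAlgebra ℤ A ⧸ Q) = 0 → k = 0 := by
    intro k hk
    have h1 : (k : MonoidAlgebra ℤ A) ∈ Q := by
      rw [← Ideal.Quotient.eq_zero_iff_mem, map_intCast]
      exact hk
    rw [← hann] at h1
    have h2 : (k : MonoidAlgebra ℤ A) • (σ • m0) = k • (σ • m0) := by
      rw [← zsmul_one, hzs, one_smul]
    rw [h2] at h1
    by_contra hk0
    apply hm'
    have h3 : k.natAbs • (σ • m0) = 0 := by
      rcases Int.natAbs_eq k with h | h
      · rw [h] at h1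
        simpa using h1
      · rw [h] at h1
        simpa using h1
    exact htf _ _ (Int.natAbs_pos.2 hk0) h3
  choose f hf0 hfQ using hpoly
  -- characters
  let χ : G → A →* (MonoidAlgebra ℤ A ⧸ Q) := fun g =>
    ((Ideal.Quotient.mk Q : MonoidAlgebra ℤ A →+* MonoidAlgebra ℤ A ⧸ Q) :
      MonoidAlgebra ℤ A →* MonoidAlgebra ℤ A ⧸ Q).comp
      ((MonoidAlgebra.of ℤ A).comp (κ g).toMonoidHom)
  have hχ : ∀ g h a, χ g a = χ h a ↔
      MonoidAlgebra.of ℤ A (κ g a) - MonoidAlgebra.of ℤ A (κ h a) ∈ Q := by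
    intro g h a
    exact Ideal.Quotient.eq
  have hroot : ∀ g ∈ G3, ∀ a, χ g a ∈
      (((f a).map (Int.castRingHom (MonoidAlgebra ℤ A ⧸ Q))).roots.toFinset : Set _) := by
    intro g hg a
    rw [Finset.mem_coe, Multiset.mem_toFinset, Polynomial.mem_roots]
    · have h1 : φ g (Polynomial.aeval (MonoidAlgebra.of ℤ A a) (f a)) ∈ Q :=
        (hst g hg _).1 (hfQ a)
      have h2 : φ g (Polynomial.aeval (MonoidAlgebra.of ℤ A a) (f a))
          = Polynomial.aeval (MonoidAlgebra.of ℤ A (κ g a)) (f a) := by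
        have := Polynomial.hom_eval₂ (f a) (algebraMap ℤ (MonoidAlgebra ℤ A))
          (φ g : MonoidAlgebra ℤ A →+* MonoidAlgebra ℤ A) (MonoidAlgebra.of ℤ A a)
        rw [Polynomial.aeval_def, Polynomial.aeval_def, ← hφof]
        refine this.trans ?_
        congr 1
        exact RingHom.ext_int _ _
      rw [h2] at h1
      rw [Polynomial.IsRoot.def, Polynomial.eval_map]
      have h3 := Polynomial.hom_eval₂ (f a) (algebraMap ℤ (MonoidAlgebra ℤ A))
        (Ideal.Quotient.mk Q) (MonoidAlgebra.of ℤ A (κ g a))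
      rw [← Polynomial.aeval_def, Ideal.Quotient.eq_zero_iff_mem.2 h1] at h3
      rw [h3]
      congr 1
    · intro h0
      apply hf0 a
      refine (Polynomial.map_eq_zero_iff (f := Int.castRingHom (MonoidAlgebra ℤ A ⧸ Q)) ?_).1 h0
      rw [injective_iff_map_eq_zero]
      intro k hk
      exact hchar k hk
  -- generators
  obtain ⟨T, hT⟩ := hfg
  let G4 : Subgroup G :=
    { carrier := {g | g ∈ G3 ∧ ∀ a : A, MonoidAlgebra.of ℤ A (κ g a) - MonoidAlgebra.of ℤ A a ∈ Q}
      one_mem' := ⟨G3.one_mem, fun a => by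
        rw [map_one]
        simp⟩
      mul_mem' := by
        rintro g h ⟨hg, hg'⟩ ⟨hh, hh'⟩
        refine ⟨G3.mul_mem hg hh, fun a => ?_⟩
        rw [map_mul, MulAut.mul_apply]
        have := Q.add_mem (hg' (κ h a)) (hh' a)
        rwa [sub_add_sub_cancel] at this
      inv_mem' := by
        rintro g ⟨hg, hg'⟩
        refine ⟨G3.inv_mem hg, fun a => ?_⟩
        have h1 := hg' (κ g⁻¹ a)
        rw [← MulAut.mul_apply, ← map_mul, mul_inv_cancel, map_one, MulAut.one_apply] at h1
        have := Q.neg_mem h1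
        rwa [neg_sub] at this }
  have hle : G4 ≤ G3 := fun g hg => hg.1
  have hG4 : G4.FiniteIndex := by
    have h1 : (G4.subgroupOf G3).FiniteIndex := by
      refine fi_of_range (G4.subgroupOf G3) (fun g : G3 => fun a : T => χ g a) ?_ ?_
      · refine Set.Finite.subset (Set.Finite.pi (t := fun a : T =>
          (((f a).map (Int.castRingHom (MonoidAlgebra ℤ A ⧸ Q))).roots.toFinset : Set _))
          (fun a => Finset.finite_toSet _)) ?_
        rintro _ ⟨g, rfl⟩ a _
        exact hroot g g.2 a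
      · intro g h hgh
        have h2 : χ (g : G) = χ (h : G) := by
          refine MonoidHom.eq_of_eqOn_dense hT ?_
          intro a ha
          exact congrFun hgh ⟨a, ha⟩
        rw [Subgroup.mem_subgroupOf]
        refine ⟨G3.mul_mem (G3.inv_mem g.2) h.2, fun a => ?_⟩
        have h3 : MonoidAlgebra.of ℤ A (κ h a) - MonoidAlgebra.of ℤ A (κ g a) ∈ Q :=
          (hχ h g a).1 (by rw [h2])
        have h4 := (hst (g : G)⁻¹ (G3.inv_mem g.2) _).1 h3
        rw [map_sub, hφof, hφof, ← MulAut.mul_apply, ← MulAut.mul_apply, ← map_mul, ← map_mul,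
          inv_mul_cancel, map_one, MulAut.one_apply] at h4
        exact h4
    rw [Subgroup.finiteIndex_iff, ← Subgroup.relIndex_mul_index hle]
    exact mul_ne_zero h1.index_ne_zero hG3.index_ne_zero
  let MQ : AddSubgroup M :=
    { carrier := {m | ∀ q ∈ Q, q • m = 0}
      zero_mem' := fun q _ => smul_zero q
      add_mem' := fun {x y} hx hy q hq => by rw [smul_add, hx q hq, hy q hq, add_zero]
      neg_mem' := fun {x} hx q hq => by rw [smul_neg, hx q hq, neg_zero] }
  have hMQ : MQ ≠ ⊥ := by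
    intro h0
    apply hm'
    have : σ • m0 ∈ MQ := fun q hq => (hann q).2 hq
    rw [h0] at this
    exact this
  refine ⟨G4, hG4, MQ, hMQ, ?_, ?_, ?_⟩
  · intro g hg m hm q hq
    have h1 : φ g ((φ g)⁻¹ q) = q := (φ g).apply_symm_apply q
    have h2 : (φ g)⁻¹ q ∈ Q := (hst g hg.1 _).2 (by rw [h1]; exact hq)
    have h3 := hφ g ((φ g)⁻¹ q) m
    rw [h1, hm _ h2, smul_zero] at h3
    exact h3.symm
  · intro g hg a m hm
    have h1 : (MonoidAlgebra.of ℤ A a⁻¹) • m ∈ MQ := by
      intro q hq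
      rw [smul_comm, hm q hq, smul_zero]
    have h2 := h1 _ (hg.2 a)
    rw [sub_smul, hof, hof, hof, hκ, sub_eq_zero] at h2
    rw [map_inv] at h2
    unfold cm
    rw [mul_smul, h2, smul_smul, mul_inv_cancel, one_smul]
  · intro a m hm
    refine ⟨f a, ?_, ?_⟩
    · intro h0
      exact hf0 a ((Polynomial.map_eq_zero_iff (f := Int.castRingHom (ZMod 0)) (by
        intro a b hab
        simpa using hab)).1 h0)
    · rw [← hev]
      exact hm _ (hfQ a)

/-- compatibility of `Alg` with restriction -/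
theorem alg_restrict {G M : Type} [Group G] [AddCommGroup M] [DistribMulAction G M]
    (G1 : Subgroup G) (W : AddSubgroup M) [DistribMulAction G1 W]
    (hcompat : ∀ (g : G1) (w : W), ((g • w : W) : M) = (g : G) • (w : M)) (g : G1) (w : W)
    (h : Alg 0 (g : G) (w : M)) : Alg 0 g w := by
  rw [alg_iff] at h ⊢
  obtain ⟨f, hf, hf'⟩ := h
  refine ⟨f, hf, ?_⟩
  refine Subtype.ext ?_
  rw [ZeroMemClass.coe_zero, ← hf', Polynomial.sum_def, Polynomial.sum_def]
  rw [AddSubgroup.val_finsetSum]
  refine Finset.sum_congr rfl fun i _ => ?_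
  rw [AddSubgroup.coe_zsmul, hcompat, SubgroupClass.coe_pow]

theorem hl_sub {G : Type} [Group G] (h : PC G) (B G4 : Subgroup G) (h4 : G4.FiniteIndex) :
    hl (B.subgroupOf G4) = hl B := by
  have h1 : hl (B.subgroupOf G4) = hl (B ⊓ G4 : Subgroup G) := by
    have e := (B.subgroupOf G4).equivMapOfInjective G4.subtype G4.subtype_injective
    rw [Subgroup.subgroupOf_map_subtype] at e
    exact PC.hl_equiv e
  rw [h1]
  refine PC.hl_fi h _ _ inf_le_left ?_
  rw [Subgroup.inf_relIndex_left]
  have : (G4.subgroupOf B).FiniteIndex := inferInstance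
  exact this.index_ne_zero

end NBF

open NBF

theorem nbf {G M : Type} [Group G] [AddCommGroup M] [DistribMulAction G M] {n : ℕ} (ih : IH n)
    (U : Subgroup G) (uc : UConf n 0 G M U) (umax : UMax n 0 (hl U))
    (utor : ∀ (g : G) (k : ℕ), 0 < k → g ^ k ∈ U → g ∈ U) (B : Subgroup G) (hB : B.Normal)
    (hUB : U ≤ B) (hne : ∃ b ∈ B, b ∉ U) (hcomm : ∀ b ∈ B, ∀ b' ∈ B, cm b b' ∈ U) :
    ∀ m : M, (∀ b ∈ B, Alg 0 b m) → m = 0 := by
  intro m hm
  by_contra hm0
  have htf : ∀ (n : ℕ) (m : M), 0 < n → n • m = 0 → m = 0 := by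
    rcases uc.ch with h | h
    · exact h.2
    · exact absurd h.1 (by decide)
  have hW : malg M B ≠ ⊥ := by
    intro h0
    have : m ∈ malg M B := hm
    rw [h0] at this
    exact hm0 this
  have hWs := malg_stb (M := M) B hB
  -- step 1
  have habel : ∀ b ∈ B, ∀ b' ∈ B, b * b' = b' * b := by
    intro b hb b' hb'
    obtain ⟨d, hd, m', hm', hfix⟩ := step1 htf b b' (fun g => (uc.cen _ (hcomm b hb b' hb') g).symm)
      (malg M B) hW hWs
      (fun m hm => hm b hb) (fun m hm => hm b' hb') (fun m hm => hm _ (hUB (hcomm b hb b' hb')))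
    let W' : AddSubgroup M :=
      { carrier := {m | cm b b' ^ d • m = m}
        zero_mem' := smul_zero _
        add_mem' := fun {x y} hx hy => by
          change cm b b' ^ d • (x + y) = x + y
          change cm b b' ^ d • x = x at hx
          change cm b b' ^ d • y = y at hy
          rw [smul_add, hx, hy]
        neg_mem' := fun {x} hx => by
          change cm b b' ^ d • (-x) = -x
          change cm b b' ^ d • x = x at hx
          rw [smul_neg, hx] }
    have h1 : cm b b' ^ d = 1 := by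
      refine uc.tb.faithful ih ⊤ inferInstance W' ?_ ?_ _ trivial (fun w hw => hw)
      · intro h0
        have : m' ∈ W' := hfix
        rw [h0] at this
        exact hm' this
      · intro g _ w hw
        change cm b b' ^ d • g • w = g • w
        have hw' : cm b b' ^ d • w = w := hw
        have hc := uc.cen _ (U.pow_mem (hcomm b hb b' hb') d) g
        rw [smul_smul, ← hc, mul_smul, hw']
    have h2 := uc.tb.tf _ d hd h1
    unfold cm at h2
    have h3 : b * b' = b' * b := by
      have := congrArg (fun z => z * (b' * b)) h2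
      simpa [mul_assoc] using this
    exact h3
  -- step 2
  let _ : CommGroup B := { (inferInstance : Group B) with
    mul_comm := fun a b => Subtype.ext (habel a a.2 b b.2) }
  obtain ⟨G4, hG4, MQ, hMQ, hstb, hcm, halg⟩ := step2 ih uc.tb B.subtype MulAut.conjNormal
    (fun g a => MulAut.conjNormal_apply g a) ((Group.fg_iff_subgroup_fg B).2 (uc.tb.pc.fg B)) htf
    (malg M B) hW hWs (fun a m hm => hm a a.2)
  obtain ⟨inst, hcompat, t'⟩ := uc.tb.restrict G4 hG4 MQ hMQ hstb
  have hle := umax G4 MQ (B.subgroupOf G4)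
    { tb := t'
      ch := Or.inl ⟨rfl, fun k w hk hkw => Subtype.coe_injective
        (htf k w hk (by
          have := congrArg Subtype.val hkw
          simpa using this))⟩
      cen := by
        intro u hu g
        have h1 : cm (g : G) (u : G) = 1 := by
          refine uc.tb.faithful ih G4 hG4 MQ hMQ hstb _ ?_ (fun w hw => hcm g g.2 ⟨u, hu⟩ w hw)
          exact G4.mul_mem (G4.mul_mem (G4.mul_mem g.2 u.2) (G4.inv_mem g.2)) (G4.inv_mem u.2)
        refine Subtype.ext ?_
        unfold cm at h1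
        have := congrArg (fun z => z * ((u : G) * (g : G))) h1
        have h3 : (g : G) * (u : G) = (u : G) * (g : G) := by
          simpa [mul_assoc] using this
        exact h3
      alg := fun u hu w => alg_restrict G4 MQ hcompat u w (halg ⟨u, hu⟩ w w.2) }
  rw [hl_sub uc.tb.pc B G4 hG4] at hle
  have hlt : hl U < hl B := by
    refine PC.hl_lt uc.tb.pc U B hUB ?_
    by_contra hi
    obtain ⟨b, hb, hbU⟩ := hne
    obtain ⟨k, hk, _, hkU⟩ := Subgroup.exists_pow_mem_of_relIndex_ne_zero hi hb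
    exact hbU (utor b k hk hkU.1)
  omega

theorem nbfp {G M : Type} [Group G] [AddCommGroup M] [DistribMulAction G M] {n : ℕ} (ih : IH n)
    (t : TBad n G M) (B : Subgroup G) (hB : B.Normal) (hne : ∃ b ∈ B, b ≠ 1) :
    ∀ (m : M) (k : ℕ), 0 < k → (∀ b ∈ B, b ^ k • m = m) → m = 0 := by
  intro m k hk hm
  by_contra hm0
  obtain ⟨b, hb, hb1⟩ := hne
  let W' : AddSubgroup M :=
    { carrier := {m | ∀ b ∈ B, b ^ k • m = m}
      zero_mem' := fun b _ => smul_zero _
      add_mem' := fun {x y} hx hy b hb => by rw [smul_add, hx b hb, hy b hb]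
      neg_mem' := fun {x} hx b hb => by rw [smul_neg, hx b hb] }
  have h1 : b ^ k = 1 := by
    refine t.faithful ih ⊤ inferInstance W' ?_ ?_ _ trivial (fun w hw => hw b hb)
    · intro h0
      have : m ∈ W' := hm
      rw [h0] at this
      exact hm0 this
    · intro g _ w hw b hb
      have h2 := hw (g⁻¹ * b * g) (by
        have := hB.conj_mem b hb g⁻¹
        rwa [inv_inv] at this)
      have h3 : (g⁻¹ * b * g) ^ k = g⁻¹ * b ^ k * g := by
        have := conj_pow (a := g⁻¹) (b := b) (i := k)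
        rw [inv_inv] at this
        exact this
      rw [h3] at h2
      have h4 := congrArg (fun z => g • z) h2
      simp only [smul_smul] at h4
      rw [smul_smul]
      convert h4 using 2
      group
  exact hb1 (t.tf b k hk h1)

end Pool.Agent.Polc
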