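import Pool.Agent.Polc.Defs2

/-!
Module PG2 of the proof for `MP_9e8505_al`: congruence elements of a unipotent lattice group are
products of `q`-th powers of congruence elements.
-/

set_option autoImplicit false

namespace Pool.Agent.Polc

namespace PG2

section smul
variable {W : Type} [AddCommGroup W]

theorem sm (m : ℕ) (φ : AddMonoid.End W) : m • φ = (m : AddMonoid.End W) * φ := nsmul_eq_mul m φ

theorem sm_add (m : ℕ) (a b : AddMonoid.End W) : m • (a + b) = m • a + m • b := by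
  rw [sm, sm, sm, mul_add]

theorem sm_sub (m : ℕ) (a b : AddMonoid.End W) : m • (a - b) = m • a - m • b := by
  rw [sm, sm, sm, mul_sub]

theorem sm_neg (m : ℕ) (a : AddMonoid.End W) : m • (-a) = -(m • a) := by
  rw [sm, sm, mul_neg]

theorem sm_mul (m : ℕ) (a b : AddMonoid.End W) : (m • a) * b = m • (a * b) := by
  rw [sm, sm, mul_assoc]

theorem mul_sm (m : ℕ) (a b : AddMonoid.End W) : a * (m • b) = m • (a * b) := by
  rw [sm, sm, ← mul_assoc, ← (Nat.cast_commute m a).eq, mul_assoc]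

theorem sm_zero (m : ℕ) : m • (0 : AddMonoid.End W) = 0 := by rw [sm, mul_zero]

theorem sm_sm (m n : ℕ) (a : AddMonoid.End W) : (m * n) • a = m • n • a := by
  rw [sm, sm, sm, Nat.cast_mul, mul_assoc]

theorem sm_sum (m : ℕ) (s : Finset ℕ) (f : ℕ → AddMonoid.End W) :
    m • ∑ i ∈ s, f i = ∑ i ∈ s, m • f i := by
  rw [sm, Finset.mul_sum]
  exact Finset.sum_congr rfl fun i _ => (sm m (f i)).symm

theorem sm_succ (n : ℕ) (a : AddMonoid.End W) : (n + 1) • a = n • a + a := by
  rw [sm, sm, Nat.cast_add, Nat.cast_one, add_mul, one_mul]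

theorem zero_sm (a : AddMonoid.End W) : (0 : ℕ) • a = 0 := by
  rw [sm, Nat.cast_zero, zero_mul]

theorem sm_one (a : AddMonoid.End W) : (1 : ℕ) • a = a := by
  rw [sm, Nat.cast_one, one_mul]

end smul

section
variable {N W : Type} [Group N] [AddCommGroup W] (lam : N →* AddMonoid.End W)

/-- vectors killed by all products of `j` elements `lam a - 1` -/
def K (j : ℕ) : AddSubgroup W where
  carrier := {w | ∀ l : List N, l.length = j → (l.map (fun a => lam a - 1)).prod w = 0}
  zero_mem' := fun l _ => map_zero _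
  add_mem' := by
    intro a b ha hb l hl
    rw [map_add, ha l hl, hb l hl, add_zero]
  neg_mem' := by
    intro a ha l hl
    rw [map_neg, ha l hl, neg_zero]

theorem mem_K {j : ℕ} {w : W} :
    w ∈ K lam j ↔ ∀ l : List N, l.length = j → (l.map (fun a => lam a - 1)).prod w = 0 :=
  Iff.rfl

theorem K_zero {w : W} (h : w ∈ K lam 0) : w = 0 := by
  have := h [] rfl
  simpa using this

theorem K_succ {j : ℕ} : K lam j ≤ K lam (j + 1) := by
  intro w hw l hl
  obtain ⟨a, l', rfl⟩ : ∃ a l', l = a :: l' := by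
    cases l with
    | nil => simp at hl
    | cons a l' => exact ⟨a, l', rfl⟩
  have h1 : l'.length = j := by simpa using hl
  rw [List.map_cons, List.prod_cons]
  change (lam a - 1) ((l'.map (fun a => lam a - 1)).prod w) = 0
  rw [hw l' h1, map_zero]

theorem K_mono {i j : ℕ} (h : i ≤ j) : K lam i ≤ K lam j := by
  induction h with
  | refl => exact le_rfl
  | step _ ih => exact ih.trans (K_succ lam)

theorem K_sub_one {j : ℕ} {w : W} (hw : w ∈ K lam j) (a : N) : (lam a - 1) w ∈ K lam (j - 1) := by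
  rcases Nat.eq_zero_or_pos j with rfl | hj
  · rw [K_zero lam hw, map_zero]; exact (K lam _).zero_mem
  · intro l hl
    have h1 : (l ++ [a]).length = j := by simp [hl]; omega
    have := hw (l ++ [a]) h1
    simpa using this

theorem K_pure (htf : ∀ (k : ℕ) (w : W), 0 < k → k • w = 0 → w = 0) {j k : ℕ} (hk : 0 < k)
    {w : W} (hw : k • w ∈ K lam j) : w ∈ K lam j := by
  intro l hl
  have := hw l hl
  rw [map_nsmul] at this
  exact htf k _ hk this

/-- endomorphisms lowering the filtration by `l` -/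
def I (l : ℕ) : AddSubgroup (AddMonoid.End W) where
  carrier := {φ | ∀ j, ∀ w ∈ K lam j, φ w ∈ K lam (j - l)}
  zero_mem' := fun j w _ => (K lam _).zero_mem
  add_mem' := by
    intro a b ha hb j w hw
    exact (K lam _).add_mem (ha j w hw) (hb j w hw)
  neg_mem' := by
    intro a ha j w hw
    exact (K lam _).neg_mem (ha j w hw)

theorem I_anti {i j : ℕ} (h : i ≤ j) : I lam j ≤ I lam i := by
  intro φ hφ k w hw
  exact K_mono lam (by omega) (hφ k w hw)

theorem I_mul {i j : ℕ} {φ ψ : AddMonoid.End W} (hφ : φ ∈ I lam i) (hψ : ψ ∈ I lam j) :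
    φ * ψ ∈ I lam (i + j) := by
  intro k w hw
  have := hφ _ _ (hψ k w hw)
  rw [Nat.sub_sub, Nat.add_comm j i] at this
  exact this

theorem sub_one_mem (a : N) : lam a - 1 ∈ I lam 1 := fun _ _ hw => K_sub_one lam hw a

theorem one_mem : (1 : AddMonoid.End W) ∈ I lam 0 := fun _ _ hw => hw

theorem lam_mem (a : N) : lam a ∈ I lam 0 := by
  have h := (I lam 0).add_mem (I_anti lam (Nat.zero_le 1) (sub_one_mem lam a)) (one_mem lam)
  simpa using h

theorem I_mul_lam {i : ℕ} {φ : AddMonoid.End W} (hφ : φ ∈ I lam i) (a : N) :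
    φ * lam a ∈ I lam i := I_mul lam hφ (lam_mem lam a)

theorem lam_mul_I {i : ℕ} {φ : AddMonoid.End W} (hφ : φ ∈ I lam i) (a : N) :
    lam a * φ ∈ I lam i := by
  have := I_mul lam (lam_mem lam a) hφ
  rwa [Nat.zero_add] at this

theorem I_eq_zero {L : ℕ} (hL : ∀ l : List N, l.length = L → (l.map (fun a => lam a - 1)).prod = 0)
    {l : ℕ} (hl : L ≤ l) {φ : AddMonoid.End W} (hφ : φ ∈ I lam l) : φ = 0 := by
  ext w
  have h1 : w ∈ K lam L := by
    intro m hm
    rw [hL m hm]; rfl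
  have h2 := hφ L w h1
  rw [Nat.sub_eq_zero_of_le hl] at h2
  rw [K_zero lam h2]; rfl

theorem lam_mul_inv (a : N) : lam a * lam a⁻¹ = 1 := by rw [← map_mul, mul_inv_cancel, map_one]

theorem lam_inv_mul (a : N) : lam a⁻¹ * lam a = 1 := by rw [← map_mul, inv_mul_cancel, map_one]

/-- the filtration of the group -/
def F (l : ℕ) : Subgroup N where
  carrier := {u | lam u - 1 ∈ I lam (l + 1)}
  one_mem' := by
    change lam 1 - 1 ∈ I lam (l + 1)
    rw [map_one, sub_self]; exact (I lam _).zero_mem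
  mul_mem' := by
    intro a b ha hb
    change lam (a * b) - 1 ∈ I lam (l + 1)
    have h : lam (a * b) - 1 = (lam a - 1) * lam b + (lam b - 1) := by
      rw [map_mul, sub_mul, one_mul]; abel
    rw [h]
    exact (I lam _).add_mem (I_mul_lam lam ha b) hb
  inv_mem' := by
    intro a ha
    change lam a⁻¹ - 1 ∈ I lam (l + 1)
    have h : lam a⁻¹ - 1 = - (lam a⁻¹ * (lam a - 1)) := by
      rw [mul_sub, lam_inv_mul, mul_one]; abel
    rw [h]
    exact (I lam _).neg_mem (lam_mul_I lam ha _)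

theorem mem_F {l : ℕ} {u : N} : u ∈ F lam l ↔ lam u - 1 ∈ I lam (l + 1) := Iff.rfl

theorem F_zero : F lam 0 = ⊤ := by
  rw [eq_top_iff]
  intro u _
  exact sub_one_mem lam u

theorem F_anti (l : ℕ) : F lam (l + 1) ≤ F lam l := fun _ hu => I_anti lam (by omega) hu

theorem F_normal (l : ℕ) : (F lam l).Normal := by
  constructor
  intro u hu g
  rw [mem_F] at hu ⊢
  have h : lam (g * u * g⁻¹) - 1 = lam g * (lam u - 1) * lam g⁻¹ := by
    rw [map_mul, map_mul, mul_sub, sub_mul, mul_one, lam_mul_inv]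
  rw [h]
  exact I_mul_lam lam (lam_mul_I lam hu g) _

theorem F_comm (l : ℕ) (u : N) (hu : u ∈ F lam l) (v : N) : cm u v ∈ F lam (l + 1) := by
  rw [mem_F] at hu ⊢
  have h : lam (cm u v) - 1 =
      ((lam u - 1) * (lam v - 1) - (lam v - 1) * (lam u - 1)) * (lam u⁻¹ * lam v⁻¹) := by
    have e1 : (lam u - 1) * (lam v - 1) - (lam v - 1) * (lam u - 1)
        = lam u * lam v - lam v * lam u := by noncomm_ring
    rw [e1, sub_mul, cm, map_mul, map_mul, map_mul]
    have e2 : lam v * lam u * (lam u⁻¹ * lam v⁻¹) = 1 := by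
      rw [mul_assoc, ← mul_assoc (lam u), lam_mul_inv, one_mul, lam_mul_inv]
    rw [e2]; noncomm_ring
  rw [h]
  have h1 := I_mul lam hu (sub_one_mem lam v)
  have h2 := I_mul lam (sub_one_mem lam v) hu
  rw [Nat.add_comm 1 (l + 1)] at h2
  have h3 := (I lam _).sub_mem h1 h2
  rw [← mul_assoc]
  exact I_mul_lam lam (I_mul_lam lam h3 _) _

theorem F_ker {L : ℕ} (hL : ∀ l : List N, l.length = L → (l.map (fun a => lam a - 1)).prod = 0)
    {l : ℕ} (hl : L ≤ l) : F lam l = lam.ker := by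
  ext u
  rw [MonoidHom.mem_ker, mem_F]
  constructor
  · intro h
    exact sub_eq_zero.1 (I_eq_zero lam hL (by omega) h)
  · intro h
    rw [h, sub_self]; exact (I lam _).zero_mem

/-- congruence to `1` modulo `m` -/
def Cg (m : ℕ) (u : N) : Prop := ∃ φ : AddMonoid.End W, lam u - 1 = m • φ

theorem Cg.mul {m : ℕ} {u v : N} (hu : Cg lam m u) (hv : Cg lam m v) : Cg lam m (u * v) := by
  obtain ⟨φ, hφ⟩ := hu
  obtain ⟨ψ, hψ⟩ := hv
  refine ⟨φ * lam v + ψ, ?_⟩
  have h : lam (u * v) - 1 = (lam u - 1) * lam v + (lam v - 1) := by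
    rw [map_mul, sub_mul, one_mul]; abel
  rw [h, hφ, hψ, sm_add, sm_mul]

theorem Cg.inv {m : ℕ} {u : N} (hu : Cg lam m u) : Cg lam m u⁻¹ := by
  obtain ⟨φ, hφ⟩ := hu
  refine ⟨- (lam u⁻¹ * φ), ?_⟩
  have h : lam u⁻¹ - 1 = - (lam u⁻¹ * (lam u - 1)) := by
    rw [mul_sub, lam_inv_mul, mul_one]; abel
  rw [h, hφ, sm_neg, mul_sm]

theorem Cg.of_dvd {m m' : ℕ} (h : m ∣ m') {u : N} (hu : Cg lam m' u) : Cg lam m u := by
  obtain ⟨k, rfl⟩ := h
  obtain ⟨φ, hφ⟩ := hu
  exact ⟨k • φ, by rw [hφ, sm_sm]⟩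

/-- binomial estimate -/
theorem dvd_choose {L n k : ℕ} (hk : 0 < k) (hkL : k ≤ L) :
    n ∣ (L.factorial * n).choose k := by
  rcases Nat.eq_zero_or_pos n with rfl | hn
  · obtain ⟨k', rfl⟩ : ∃ k', k = k' + 1 := ⟨k - 1, by omega⟩
    simp
  · obtain ⟨k', rfl⟩ : ∃ k', k = k' + 1 := ⟨k - 1, by omega⟩
    obtain ⟨t, ht⟩ := Nat.dvd_factorial hk hkL
    have hpos : 0 < L.factorial * n := Nat.mul_pos (Nat.factorial_pos L) hn
    obtain ⟨s, hs⟩ : ∃ s, L.factorial * n = s + 1 := ⟨L.factorial * n - 1, by omega⟩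
    have h1 := Nat.add_one_mul_choose_eq s k'
    rw [← hs] at h1
    -- L! n * C(s, k') = C(L! n, k'+1) * (k'+1)
    refine ⟨t * s.choose k', ?_⟩
    have h2 : (k' + 1) * (n * (t * s.choose k')) = (k' + 1) * (L.factorial * n).choose (k' + 1) := by
      rw [Nat.mul_comm (k' + 1) ((L.factorial * n).choose (k' + 1)), ← h1, ht]; ring
    exact (Nat.eq_of_mul_eq_mul_left hk h2).symm

theorem pow_Cg {L : ℕ} (hL : ∀ l : List N, l.length = L → (l.map (fun a => lam a - 1)).prod = 0)
    (v : N) (n : ℕ) : Cg lam n (v ^ (L.factorial * n)) := by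
  set ν := lam v - 1 with hν
  have hnil : ν ^ L = 0 := by
    have := hL (List.replicate L v) (by simp)
    simpa using this
  have h1 : lam v = ν + 1 := by rw [hν]; abel
  have h2 : lam (v ^ (L.factorial * n)) = ∑ k ∈ Finset.range (L.factorial * n + 1),
      ν ^ k * ((L.factorial * n).choose k : AddMonoid.End W) := by
    rw [map_pow, h1, (Commute.one_right ν).add_pow]
    refine Finset.sum_congr rfl fun k _ => ?_
    rw [one_pow, mul_one]
  have h3 : ∀ k ∈ Finset.range (L.factorial * n), ∃ ψ : AddMonoid.End W,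
      ν ^ (k + 1) * ((L.factorial * n).choose (k + 1) : AddMonoid.End W) = n • ψ := by
    intro k _
    rcases Nat.lt_or_ge L (k + 1) with h | h
    · refine ⟨0, ?_⟩
      rw [pow_eq_zero_of_le (by omega) hnil, zero_mul, sm_zero]
    · obtain ⟨t, ht⟩ := dvd_choose (L := L) (n := n) (k := k + 1) (by omega) h
      refine ⟨ν ^ (k + 1) * (t : AddMonoid.End W), ?_⟩
      rw [ht, Nat.cast_mul, ← mul_assoc, ← (Nat.cast_commute n (ν ^ (k + 1))).eq, mul_assoc, sm]
  choose! ψ hψ using h3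
  refine ⟨∑ k ∈ Finset.range (L.factorial * n), ψ k, ?_⟩
  rw [h2, Finset.sum_range_succ', pow_zero, one_mul, Nat.choose_zero_right, Nat.cast_one,
    add_sub_cancel_right, sm_sum]
  exact Finset.sum_congr rfl hψ

/-- first order expansion of a power -/
theorem pow_first (l : ℕ) (v : N) (hv : v ∈ F lam l) (n : ℕ) :
    lam (v ^ n) - 1 - n • (lam v - 1) ∈ I lam (l + 2) := by
  induction n with
  | zero => rw [pow_zero, map_one, sub_self, zero_sm, sub_self]; exact (I lam _).zero_mem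
  | succ n ih =>
    have h1 : lam (v ^ (n + 1)) - 1 - (n + 1) • (lam v - 1)
        = (lam (v ^ n) - 1 - n • (lam v - 1)) + (lam (v ^ n) - 1) * (lam v - 1) := by
      rw [pow_succ, map_mul, sm_succ]
      noncomm_ring
    rw [h1]
    refine (I lam _).add_mem ih ?_
    have h2 : v ^ n ∈ F lam l := (F lam l).pow_mem hv n
    exact I_anti lam (by omega) (I_mul lam h2 hv)

/-- the subgroup `A'_l` -/
def A (l : ℕ) : AddSubgroup (AddMonoid.End W) where
  carrier := {x | ∃ v ∈ F lam l, x - (lam v - 1) ∈ I lam (l + 2)}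
  zero_mem' := ⟨1, (F lam l).one_mem, by
    rw [map_one, sub_self, sub_self]; exact (I lam _).zero_mem⟩
  add_mem' := by
    rintro a b ⟨u, hu, ha⟩ ⟨v, hv, hb⟩
    refine ⟨u * v, (F lam l).mul_mem hu hv, ?_⟩
    have h : a + b - (lam (u * v) - 1) = (a - (lam u - 1)) + (b - (lam v - 1))
        - (lam u - 1) * (lam v - 1) := by
      rw [map_mul]; noncomm_ring
    rw [h]
    exact (I lam _).sub_mem ((I lam _).add_mem ha hb) (I_anti lam (by omega) (I_mul lam hu hv))
  neg_mem' := by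
    rintro a ⟨u, hu, ha⟩
    refine ⟨u⁻¹, (F lam l).inv_mem hu, ?_⟩
    have h : -a - (lam u⁻¹ - 1) = -(a - (lam u - 1)) + (lam u⁻¹ - 1) * (lam u - 1) := by
      rw [sub_mul (lam u⁻¹), mul_sub (lam u⁻¹), lam_inv_mul]; noncomm_ring
    rw [h]
    exact (I lam _).add_mem ((I lam _).neg_mem ha)
      (I_anti lam (by omega) (I_mul lam ((F lam l).inv_mem hu) hu))

end

/-- the endomorphism ring of a lattice is a lattice -/
theorem fin_end {W : Type} [AddCommGroup W] (hW : Module.Finite ℤ W)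
    (htf : ∀ (k : ℕ) (w : W), 0 < k → k • w = 0 → w = 0) : Module.Finite ℤ (AddMonoid.End W) := by
  have h1 : Module.IsTorsionFree ℤ W := by
    rw [Module.isTorsionFree_iff_smul_eq_zero]
    intro r w h
    rcases eq_or_ne r 0 with h0 | h0
    · exact Or.inl h0
    · right
      refine htf r.natAbs w (Int.natAbs_pos.2 h0) ?_
      rcases Int.natAbs_eq r with h2 | h2
      · rw [← natCast_zsmul, ← h2, h]
      · rw [← natCast_zsmul]
        have : ((r.natAbs : ℤ)) = - r := by omega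
        rw [this, neg_smul, h, neg_zero]
  have h2 : Module.Free ℤ W := Module.free_of_finite_type_torsion_free'
  have h3 : Module.Finite ℤ (W →ₗ[ℤ] W) := inferInstance
  let g : (W →ₗ[ℤ] W) →+ AddMonoid.End W :=
    { toFun := fun f => f.toAddMonoidHom
      map_zero' := rfl
      map_add' := fun _ _ => rfl }
  exact Module.Finite.of_surjective g.toIntLinearMap (fun φ => ⟨AddMonoidHom.toIntLinearMap φ, rfl⟩)

/-- lattice lemma -/
theorem lattice {E : Type} [AddCommGroup E] (hE : Module.Finite ℤ E) (A : AddSubgroup E) :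
    ∃ e : ℕ, 0 < e ∧ ∀ (k : ℕ) (x : E), 0 < k → k • x ∈ A → e • x ∈ A := by
  let P : Submodule ℤ E :=
    { carrier := {x | ∃ k : ℕ, 0 < k ∧ k • x ∈ A}
      zero_mem' := ⟨1, one_pos, by rw [smul_zero]; exact A.zero_mem⟩
      add_mem' := by
        rintro a b ⟨k, hk, ha⟩ ⟨k', hk', hb⟩
        refine ⟨k * k', Nat.mul_pos hk hk', ?_⟩
        rw [smul_add]
        refine A.add_mem ?_ ?_
        · rw [Nat.mul_comm, mul_smul]; exact A.nsmul_mem ha k'
        · rw [mul_smul]; exact A.nsmul_mem hb k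
      smul_mem' := by
        rintro c a ⟨k, hk, ha⟩
        refine ⟨k, hk, ?_⟩
        rw [smul_comm]; exact A.zsmul_mem ha c }
  have hP : P.FG := IsNoetherian.noetherian P
  obtain ⟨S, hS⟩ := hP
  have h1 : ∀ x ∈ S, ∃ k : ℕ, 0 < k ∧ k • x ∈ A := by
    intro x hx
    have : x ∈ P := by rw [← hS]; exact Submodule.subset_span hx
    exact this
  choose! f hf using h1
  have key : ∀ x ∈ Submodule.span ℤ (S : Set E), (∏ x ∈ S, f x) • x ∈ A := by
    intro x hx
    induction hx using Submodule.span_induction with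
    | mem y hy =>
      obtain ⟨t, ht⟩ := Finset.dvd_prod_of_mem f hy
      rw [ht, Nat.mul_comm, mul_smul]
      exact A.nsmul_mem (hf y hy).2 t
    | zero => rw [smul_zero]; exact A.zero_mem
    | add a b _ _ ha hb => rw [smul_add]; exact A.add_mem ha hb
    | smul c a _ ha => rw [smul_comm]; exact A.zsmul_mem ha c
  refine ⟨∏ x ∈ S, f x, Finset.prod_pos fun x hx => (hf x hx).1, ?_⟩
  intro k x hk hx
  have hxP : x ∈ P := ⟨k, hk, hx⟩
  rw [← hS] at hxP
  exact key x hxP

end PG2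

open PG2 in
theorem pg2 {N W : Type} [Group N] [AddCommGroup W] (hW : Module.Finite ℤ W)
    (htf : ∀ (k : ℕ) (w : W), 0 < k → k • w = 0 → w = 0) (lam : N →* AddMonoid.End W)
    (hL : ∃ L, ∀ l : List N, l.length = L → (l.map (fun a => lam a - 1)).prod = 0) :
    ∃ (L : ℕ) (F : ℕ → Subgroup N), F 0 = ⊤ ∧ F L = lam.ker ∧ (∀ l, (F l).Normal) ∧
      (∀ l, F (l + 1) ≤ F l) ∧ (∀ l, ∀ u ∈ F l, ∀ v : N, cm u v ∈ F (l + 1)) ∧
      ∃ c, 0 < c ∧ ∀ l m q : ℕ, 0 < m → 0 < q → ∀ u ∈ F l,
        (∃ φ : AddMonoid.End W, lam u - 1 = (c * m * q) • φ) →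
        u ∈ Subgroup.closure {k | ∃ v ∈ F l, (∃ φ : AddMonoid.End W, lam v - 1 = m • φ) ∧
          k = v ^ q} ⊔ lam.ker := by
  obtain ⟨L, hL⟩ := hL
  have hE : Module.Finite ℤ (AddMonoid.End W) := fin_end hW htf
  refine ⟨L, PG2.F lam, F_zero lam, F_ker lam hL le_rfl, F_normal lam, F_anti lam, F_comm lam, ?_⟩
  -- descending induction
  have main : ∀ d : ℕ, ∀ l : ℕ, L ≤ l + d → ∃ c, 0 < c ∧ ∀ m q : ℕ, 0 < m → 0 < q →
      ∀ u ∈ PG2.F lam l, Cg lam (c * m * q) u →
        u ∈ Subgroup.closure {k | ∃ v ∈ PG2.F lam l, Cg lam m v ∧ k = v ^ q} ⊔ lam.ker := by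
    intro d
    induction d with
    | zero =>
      intro l hl
      refine ⟨1, one_pos, fun m q _ _ u hu _ => ?_⟩
      rw [F_ker lam hL (by omega)] at hu
      exact Subgroup.mem_sup_right hu
    | succ d ih =>
      intro l hl
      obtain ⟨c, hc, ih⟩ := ih (l + 1) (by omega)
      obtain ⟨e, he, hlat⟩ := lattice hE (PG2.A lam l)
      refine ⟨e * (L.factorial * c), Nat.mul_pos he (Nat.mul_pos (Nat.factorial_pos L) hc), ?_⟩
      intro m q hm hq u hu hcg
      obtain ⟨φ, hφ⟩ := hcg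
      have hA : (e * (L.factorial * c) * m * q) • φ ∈ PG2.A lam l := by
        refine ⟨u, hu, ?_⟩
        rw [← hφ, sub_self]; exact (I lam _).zero_mem
      have hpos : 0 < e * (L.factorial * c) * m * q := by
        have := Nat.factorial_pos L
        positivity
      obtain ⟨v1, hv1, hψ⟩ := hlat _ φ hpos hA
      set v := v1 ^ (L.factorial * (c * m)) with hv
      have hvF : v ∈ PG2.F lam l := (PG2.F lam l).pow_mem hv1 _
      have hvq : v ^ q = v1 ^ (L.factorial * (c * m * q)) := by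
        rw [hv, ← pow_mul]; congr 1; ring
      have hcgv : Cg lam (c * m * q) (v ^ q) := by
        rw [hvq]; exact pow_Cg lam hL v1 _
      have hcgv1 : Cg lam m v := (pow_Cg lam hL v1 (c * m)).of_dvd lam (Dvd.intro_left c rfl)
      have hcgu : Cg lam (c * m * q) u := by
        refine Cg.of_dvd lam ?_ ⟨φ, hφ⟩
        exact ⟨e * L.factorial, by ring⟩
      have hu' : u * (v ^ q)⁻¹ ∈ PG2.F lam (l + 1) := by
        rw [mem_F]
        have h1 : lam (u * (v ^ q)⁻¹) - 1 = (lam u - lam (v ^ q)) * lam (v ^ q)⁻¹ := by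
          rw [map_mul, sub_mul, lam_mul_inv]
        rw [h1]
        refine I_mul_lam lam ?_ _
        have h2 := pow_first lam l v1 hv1 (L.factorial * (c * m * q))
        rw [← hvq] at h2
        have h3 : lam u - lam (v ^ q) = (L.factorial * (c * m * q)) • (e • φ - (lam v1 - 1))
            - (lam (v ^ q) - 1 - (L.factorial * (c * m * q)) • (lam v1 - 1)) := by
          have h4 : lam u - 1 = (L.factorial * (c * m * q)) • (e • φ) := by
            rw [hφ, ← sm_sm]; congr 1; ring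
          rw [sm_sub, ← h4]; abel
        rw [h3]
        exact (I lam _).sub_mem ((I lam _).nsmul_mem hψ _) h2
      have h5 := ih m q hm hq _ hu' (hcgu.mul lam (hcgv.inv lam))
      have h6 : u = u * (v ^ q)⁻¹ * v ^ q := by group
      rw [h6]
      refine Subgroup.mul_mem _ ?_ ?_
      · refine (sup_le_sup_right (Subgroup.closure_mono ?_) _) h5
        rintro k ⟨w, hw, hw1, hw2⟩
        exact ⟨w, F_anti lam l hw, hw1, hw2⟩
      · exact Subgroup.mem_sup_left (Subgroup.subset_closure ⟨v, hvF, hcgv1, rfl⟩)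
  have main' : ∀ l : ℕ, ∃ c, 0 < c ∧ ∀ m q : ℕ, 0 < m → 0 < q →
      ∀ u ∈ PG2.F lam l, Cg lam (c * m * q) u →
        u ∈ Subgroup.closure {k | ∃ v ∈ PG2.F lam l, Cg lam m v ∧ k = v ^ q} ⊔ lam.ker :=
    fun l => main L l (by omega)
  choose c hc hmain using main'
  refine ⟨∏ l ∈ Finset.range L, c l, Finset.prod_pos fun l _ => hc l, ?_⟩
  intro l m q hm hq u hu hcg
  rcases Nat.lt_or_ge l L with h | h
  · refine hmain l m q hm hq u hu (Cg.of_dvd lam ?_ hcg)
    exact Nat.mul_dvd_mul_right (Nat.mul_dvd_mul_right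
      (Finset.dvd_prod_of_mem c (Finset.mem_range.2 h)) m) q
  · rw [F_ker lam hL h] at hu
    exact Subgroup.mem_sup_right hu

end Pool.Agent.Polc
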