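import Pool.Agent.Polc.PGXb
import Pool.Agent.Polc.JEN2
import Pool.Agent.Polc.PG2

/-!
# Module PGX: existence of the subgroups `H`
-/

set_option autoImplicit false

namespace Pool.Agent.Polc

theorem pg_exists {G : Type} [Group G] (h : PC G) (N U : Subgroup G) [U.Normal] [N.Normal]
    (hUN : U ≤ N) (hc : ∀ u ∈ U, ∀ g : G, g * u = u * g)
    (utor : ∀ (g : G) (k : ℕ), 0 < k → g ^ k ∈ U → g ∈ U)
    (nil : ∃ j, ucs N U j = N) (hab : ∀ a b : G, cm a b ∈ N) (p : ℕ) (hp : p.Prime) (k : ℕ)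
    (hk : 0 < k) :
    ∃ H : Subgroup G, H.Normal ∧ H ≤ pw N k ∧ H.relIndex N ≠ 0 ∧ RChain p (U ⊓ H) H ∧
      ∃ t0, 0 < t0 ∧ ∀ t, 0 < t → t0 ∣ t → ∀ (x g : G) (s : ℕ),
        cm (g * x ^ (t * p ^ s) * g⁻¹ * (x ^ (t * p ^ s))⁻¹) (x ^ (t * p ^ s)) ∈
          Subgroup.closure {k | ∃ v ∈ H, k = v ^ (p ^ (2 * s))} ⊔ (U ⊓ H) := by
  obtain ⟨W, iW, lam, kap, hW, htf, hker, hkap, hL⟩ := jen2 h N U hUN utor nil
  obtain ⟨L, F, hF0, hFL, _, hFs, hFc, c, hcp, hpg⟩ := pg2 hW htf lam hL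
  have hk2 : lam.ker.map N.subtype = U := by
    ext g
    constructor
    · rintro ⟨a, ha, rfl⟩
      exact (hker a).mp ha
    · intro hg
      exact ⟨⟨g, hUN hg⟩, (hker ⟨g, hUN hg⟩).mpr hg, rfl⟩
  refine PGX.core lam h inferInstance inferInstance hUN hc hab hW htf
    (fun a ha => (hker a).mpr ha) kap hkap L (fun l => (F l).map N.subtype) ?_ ?_ ?_ ?_ c hcp ?_
    p hp k hk
  · rw [hF0, ← MonoidHom.range_eq_map, Subgroup.range_subtype]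
  · rw [hFL, hk2]
  · intro l
    exact Subgroup.map_mono (hFs l)
  · rintro l _ ⟨u, hu, rfl⟩ v hv
    exact ⟨cm u ⟨v, hv⟩, hFc l u hu ⟨v, hv⟩, rfl⟩
  · rintro l m q hm hq _ ⟨u, hu, rfl⟩ hD
    obtain ⟨h1, h2⟩ := (PGX.mem_DG lam).mp hD
    have h3 := hpg l m q hm hq u hu h2
    have h4 := Subgroup.mem_map_of_mem N.subtype h3
    rw [Subgroup.map_sup, MonoidHom.map_closure, hk2] at h4
    refine (sup_le_sup_right (Subgroup.closure_mono ?_) U) h4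
    rintro _ ⟨_, ⟨v, hv, hv', rfl⟩, rfl⟩
    refine ⟨(v : G), ⟨v, hv, rfl⟩, (PGX.mem_DG lam).mpr ⟨v.2, hv'⟩, ?_⟩
    exact map_pow N.subtype v q

end Pool.Agent.Polc
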