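import Pool.Agent.Polc.PCB1
import Pool.Agent.Polc.FL

set_option autoImplicit false

namespace Pool.Agent.Polc

open Polynomial

/-- nilpotent groups whose center has finite exponent have finite exponent -/
theorem exp_of_center (N : Type) [Group N] [Group.IsNilpotent N] : ∀ m : ℕ, 0 < m →
    (∀ z ∈ Subgroup.center N, z ^ m = 1) → ∃ k, 0 < k ∧ ∀ x : N, x ^ k = 1 := by
  refine Group.nilpotent_center_quotient_ind (P := fun G _ _ => ∀ m : ℕ, 0 < m →
    (∀ z ∈ Subgroup.center G, z ^ m = 1) → ∃ k, 0 < k ∧ ∀ x : G, x ^ k = 1) N ?_ ?_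
  · exact fun G _ _ m hm _ => ⟨1, one_pos, fun x => Subsingleton.elim _ _⟩
  · intro G _ _ ih m hm hc
    obtain ⟨k, hk, hx⟩ := ih m hm (by
      intro z hz
      obtain ⟨x, rfl⟩ := QuotientGroup.mk_surjective z
      rw [← QuotientGroup.mk_pow, QuotientGroup.eq_one_iff, Subgroup.mem_center_iff]
      intro g
      have h1 : g⁻¹ * x * g * x⁻¹ ∈ Subgroup.center G := by
        rw [← QuotientGroup.eq_one_iff]
        rw [Subgroup.mem_center_iff] at hz
        have h2 := hz (g : G ⧸ Subgroup.center G)
        rw [QuotientGroup.mk_mul, QuotientGroup.mk_mul, QuotientGroup.mk_mul, QuotientGroup.mk_inv,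
          QuotientGroup.mk_inv, mul_assoc _ _ (g : G ⧸ Subgroup.center G), ← h2]
        group
      set y := g⁻¹ * x * g * x⁻¹ with hy
      have h3 : g⁻¹ * x * g = y * x := by rw [hy]; group
      have h4 : g⁻¹ * x ^ m * g = x ^ m := by
        have h5 : g⁻¹ * x ^ m * g = (g⁻¹ * x * g) ^ m := by
          have := conj_pow (i := m) (a := g⁻¹) (b := x)
          rw [inv_inv] at this
          exact this.symm
        rw [h5, h3]
        have hcomm : Commute y x := ((Subgroup.mem_center_iff.mp h1) x).symm
        rw [hcomm.mul_pow, hc y h1, one_mul]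
      calc g * x ^ m = g * (g⁻¹ * x ^ m * g) := by rw [h4]
        _ = x ^ m * g := by group)
    refine ⟨k * m, by positivity, fun x => ?_⟩
    rw [pow_mul]
    apply hc
    rw [← QuotientGroup.eq_one_iff, QuotientGroup.mk_pow]
    exact hx _

/-- polycyclic groups of finite exponent are finite -/
theorem finite_of_exp {G : Type} [Group G] (h : PC G) (k : ℕ) (hk : 0 < k)
    (hx : ∀ x : G, x ^ k = 1) : Finite G := by
  have key : ∀ H : Subgroup G, CChain ⊥ H → (H : Set G).Finite := by
    intro H hH
    induction hH with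
    | refl => simp
    | @tail K _ _ hstep ih =>
      obtain ⟨g, hg, rfl⟩ := hstep
      have hle : Subgroup.zpowers g ≤ Subgroup.normalizer (K : Set G) := by
        rw [Subgroup.zpowers_le, Subgroup.mem_normalizer_iff]
        exact hg
      rw [Subgroup.coe_mul_of_right_le_normalizer_left _ _ hle]
      refine ih.mul ?_
      have hfo : IsOfFinOrder g := isOfFinOrder_iff_pow_eq_one.mpr ⟨k, hk, hx g⟩
      exact hfo.finite_zpowers
  have h1 := key ⊤ (PC.cchain_bot h ⊤)
  rw [Subgroup.coe_top] at h1
  exact Set.finite_univ_iff.mp h1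

theorem aeval_comm' {R A : Type} [CommRing R] [Ring A] [Algebra R A] {a b : A}
    (hab : Commute a b) (f : R[X]) : Commute (aeval a f) b := by
  induction f using Polynomial.induction_on' with
  | add p q hp hq => rw [map_add]; exact hp.add_left hq
  | monomial n c =>
    rw [aeval_monomial]
    exact (Algebra.commute_algebraMap_left c b).mul_left (hab.pow_left n)

section
variable {N E : Type} [Group N] [AddCommGroup E] [DistribMulAction N E]

theorem center_torsion (h : PC N) (p : ℕ) [Fact p.Prime] [Module (ZMod p) E]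
    (hs : ∀ W : AddSubgroup E, Stb (⊤ : Subgroup N) W → W = ⊥ ∨ W = ⊤)
    (hf : ∀ g : N, (∀ m : E, g • m = m) → g = 1) (hnt : Nontrivial E)
    (z : N) (hz : z ∈ Subgroup.center N) : ∃ n, 0 < n ∧ z ^ n = 1 := by
  let Lg : N → Module.End (ZMod p) E := fun g =>
    AddMonoidHom.toZModLinearMap p (DistribSMul.toAddMonoidHom E g)
  have hLg : ∀ g x, Lg g x = g • x := fun g x => rfl
  set L : Module.End (ZMod p) E := Lg z with hL
  have hLpow : ∀ (i : ℕ) (x : E), (L ^ i) x = z ^ i • x := by
    intro i
    induction i with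
    | zero => intro x; simp
    | succ i ih => intro x; rw [pow_succ, Module.End.mul_apply, ih, hLg, pow_succ, mul_smul]
  have hcomm : ∀ g, Commute L (Lg g) := by
    intro g
    apply LinearMap.ext
    intro x
    rw [Module.End.mul_apply, Module.End.mul_apply, hLg, hLg, hLg, hLg, ← mul_smul, ← mul_smul,
      (Subgroup.mem_center_iff.mp hz g)]
  have hcommf : ∀ (f : (ZMod p)[X]) (g : N) (x : E), aeval L f (g • x) = g • aeval L f x := by
    intro f g x
    have := aeval_comm' (hcomm g) f
    exact LinearMap.congr_fun this x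
  -- stable subgroups are stable under polynomials in `z`
  have hstab : ∀ (f : (ZMod p)[X]) (W : AddSubgroup E), (∀ w ∈ W, z • w ∈ W) →
      ∀ w ∈ W, aeval L f w ∈ W := by
    intro f W hW w hw
    have hzi : ∀ (i : ℕ), (L ^ i) w ∈ W := by
      intro i
      induction i with
      | zero => simpa using hw
      | succ i ih => rw [pow_succ', Module.End.mul_apply]; exact hW _ ih
    induction f using Polynomial.induction_on' with
    | add p q hp hq => rw [map_add, LinearMap.add_apply]; exact W.add_mem hp hq
    | monomial n c =>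
      rw [aeval_monomial, Module.End.mul_apply, Module.algebraMap_end_apply]
      exact ZMod.smul_mem (hzi n) c
  by_cases hcase : ∃ f : (ZMod p)[X], f ≠ 0 ∧ aeval L f = 0
  · -- `L` is algebraic over the finite field: finite order
    obtain ⟨f, hf0, hfL⟩ := hcase
    have halg : IsAlgebraic (ZMod p) L := ⟨f, hf0, hfL⟩
    have hint : IsIntegral (ZMod p) L := halg.isIntegral
    have hfg : (Subalgebra.toSubmodule (Algebra.adjoin (ZMod p) {L})).FG :=
      hint.fg_adjoin_singleton
    have : Module.Finite (ZMod p) (Subalgebra.toSubmodule (Algebra.adjoin (ZMod p) {L})) :=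
      Module.Finite.iff_fg.mpr hfg
    have hfin : Finite (Subalgebra.toSubmodule (Algebra.adjoin (ZMod p) {L})) :=
      Module.finite_of_finite (ZMod p)
    let φ : ℕ → Subalgebra.toSubmodule (Algebra.adjoin (ZMod p) {L}) := fun i =>
      ⟨L ^ i, Subalgebra.pow_mem _ (Algebra.self_mem_adjoin_singleton (ZMod p) L) i⟩
    obtain ⟨i, j, hij, hφ⟩ := Finite.exists_ne_map_eq_of_infinite φ
    have hφ' : L ^ i = L ^ j := congrArg Subtype.val hφ
    wlog hlt : i < j generalizing i j
    · exact this j i hij.symm hφ.symm hφ'.symm (by omega)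
    refine ⟨j - i, by omega, hf _ fun m => ?_⟩
    have h1 := LinearMap.congr_fun hφ' m
    rw [hLpow, hLpow] at h1
    have h2 : j = i + (j - i) := by omega
    rw [h2, pow_add, mul_smul] at h1
    exact (MulAction.injective (z ^ i) h1).symm
  · exfalso
    push Not at hcase
    -- all nonzero polynomials act bijectively
    have hinj : ∀ f : (ZMod p)[X], f ≠ 0 → Function.Injective (aeval L f) := by
      intro f hf0
      have h1 := hs (LinearMap.ker (aeval L f)).toAddSubgroup (by
        intro g _ v hv
        have hv' : aeval L f v = 0 := hv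
        show aeval L f (g • v) = 0
        rw [hcommf, hv', smul_zero])
      rcases h1 with h1 | h1
      · rw [← LinearMap.ker_eq_bot]
        ext x
        have : x ∈ (LinearMap.ker (aeval L f)).toAddSubgroup ↔ x ∈ (⊥ : AddSubgroup E) := by
          rw [h1]
        simpa using this
      · exfalso
        apply hcase f hf0
        ext x
        have : x ∈ (LinearMap.ker (aeval L f)).toAddSubgroup := by rw [h1]; trivial
        simpa using this
    have hsurj : ∀ f : (ZMod p)[X], f ≠ 0 → Function.Surjective (aeval L f) := by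
      intro f hf0
      have h1 := hs (LinearMap.range (aeval L f)).toAddSubgroup (by
        rintro g _ v ⟨w, rfl⟩
        exact ⟨g • w, hcommf f g w⟩)
      rcases h1 with h1 | h1
      · exfalso
        apply hcase f hf0
        ext x
        have : aeval L f x ∈ (LinearMap.range (aeval L f)).toAddSubgroup := ⟨x, rfl⟩
        rw [h1] at this
        simpa using this
      · intro x
        have : x ∈ (LinearMap.range (aeval L f)).toAddSubgroup := by rw [h1]; trivial
        exact this
    obtain ⟨e, he⟩ := exists_ne (0 : E)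
    let H : Subgroup N := Subgroup.zpowers z
    let Y : AddSubgroup E := gspan H {e}
    have hchain : CChain H (⊤ : Subgroup N) := by
      refine PC.cchain h H ⊤ le_top ?_
      intro k _ x hx
      obtain ⟨i, rfl⟩ := Subgroup.mem_zpowers_iff.mp hx
      have hzi : z ^ i ∈ Subgroup.center N := Subgroup.zpow_mem _ hz i
      rw [Subgroup.mem_center_iff.mp hzi k]
      simpa using hx
    let T : Submonoid (AddMonoid.End E) :=
      { carrier := {a | ∃ f : (ZMod p)[X], f ≠ 0 ∧ ∀ x, a x = aeval L f x}
        one_mem' := ⟨1, one_ne_zero, fun x => by simp⟩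
        mul_mem' := by
          rintro a b ⟨f, hf0, hfa⟩ ⟨g, hg0, hgb⟩
          refine ⟨f * g, mul_ne_zero hf0 hg0, fun x => ?_⟩
          rw [map_mul, Module.End.mul_apply, ← hgb, ← hfa]
          rfl }
    have hYstab : Stb H Y := by
      intro g hg y hy
      refine AddSubgroup.closure_induction (p := fun y _ => g • y ∈ Y) ?_ ?_ ?_ ?_ hy
      · rintro m ⟨k, hk, f, hf, rfl⟩
        rw [← mul_smul]
        exact AddSubgroup.subset_closure ⟨g * k, H.mul_mem hg hk, f, hf, rfl⟩
      · rw [smul_zero]; exact Y.zero_mem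
      · intro a b _ _ ha hb; rw [smul_add]; exact Y.add_mem ha hb
      · intro a _ ha; rw [smul_neg]; exact Y.neg_mem ha
    have hXtop : (⊤ : AddSubgroup E) = gspan (⊤ : Subgroup N) {e} := by
      have h1 := hs (gspan (⊤ : Subgroup N) {e}) (by
        intro g hg y hy
        refine AddSubgroup.closure_induction
          (p := fun y _ => g • y ∈ gspan (⊤ : Subgroup N) {e}) ?_ ?_ ?_ ?_ hy
        · rintro m ⟨k, hk, f, hf, rfl⟩
          rw [← mul_smul]
          exact AddSubgroup.subset_closure ⟨g * k, trivial, f, hf, rfl⟩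
        · rw [smul_zero]; exact AddSubgroup.zero_mem _
        · intro a b _ _ ha hb; rw [smul_add]; exact AddSubgroup.add_mem _ ha hb
        · intro a _ ha; rw [smul_neg]; exact AddSubgroup.neg_mem _ ha)
      rcases h1 with h1 | h1
      · exfalso
        apply he
        have : e ∈ gspan (⊤ : Subgroup N) {e} :=
          AddSubgroup.subset_closure ⟨1, trivial, e, rfl, (one_smul N e).symm⟩
        rw [h1] at this
        simpa using this
      · exact h1.symm
    obtain ⟨c, ⟨cf, hcf0, hcf⟩, hc⟩ := fl h T
      (by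
        rintro a ⟨f, -, hfa⟩ b ⟨g, -, hgb⟩
        ext x
        show a (b x) = b (a x)
        rw [hfa, hgb, hgb, hfa, ← Module.End.mul_apply, ← Module.End.mul_apply, ← map_mul,
          ← map_mul, mul_comm])
      (by
        rintro a ⟨f, -, hfa⟩ g
        ext x
        show a (g • x) = g • a x
        rw [hfa, hfa, hcommf])
      H ⊤ hchain
      (by
        rintro a ⟨f, -, hfa⟩ W hW w hw
        rw [hfa]
        exact hstab f W (fun w hw => hW z (Subgroup.mem_zpowers z) w hw) w hw)
      Y ⊤ ⟨{e}, Set.finite_singleton e, rfl⟩ ⟨{e}, Set.finite_singleton e, hXtop⟩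
    have hcpow : ∀ (k : ℕ) (x : E), (c ^ k) x = aeval L (cf ^ k) x := by
      intro k
      induction k with
      | zero => intro x; simp
      | succ k ih =>
        intro x
        rw [pow_succ, pow_succ, map_mul, Module.End.mul_apply, ← ih, ← hcf]
        rfl
    set f : (ZMod p)[X] := 1 + X * cf with hfdef
    have hdeg : f.natDegree = cf.natDegree + 1 := by
      rw [hfdef, add_comm, Polynomial.natDegree_add_eq_left_of_natDegree_lt]
      · rw [natDegree_X_mul hcf0]
      · rw [natDegree_one, natDegree_X_mul hcf0]; omega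
    have hf0 : f ≠ 0 := by
      intro h0
      rw [h0, natDegree_zero] at hdeg
      omega
    have hcop : ∀ k, IsCoprime f (cf ^ k) := by
      intro k
      apply IsCoprime.pow_right
      refine ⟨1, -X, ?_⟩
      rw [hfdef]; ring
    have hcopX : ∀ k, IsCoprime f (X ^ k) := by
      intro k
      apply IsCoprime.pow_right
      refine ⟨1, -cf, ?_⟩
      rw [hfdef]; ring
    obtain ⟨e', he'⟩ := hsurj f hf0 e
    have heY : e ∈ Y :=
      AddSubgroup.subset_closure ⟨1, H.one_mem, e, rfl, (one_smul N e).symm⟩
    obtain ⟨k, hk⟩ := hc e' trivial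
      ⟨(aeval L f : Module.End (ZMod p) E).toAddMonoidHom, ⟨f, hf0, fun x => rfl⟩, by
        show aeval L f e' ∈ Y
        rw [he']; exact heY⟩
    rw [hcpow] at hk
    have hzY : ∀ w ∈ Y, z • w ∈ Y := fun w hw => hYstab z (Subgroup.mem_zpowers z) w hw
    have he'Y : e' ∈ Y := by
      obtain ⟨a, b, hab⟩ := hcop k
      have h1 : e' = aeval L a (aeval L f e') + aeval L b (aeval L (cf ^ k) e') := by
        rw [← Module.End.mul_apply, ← Module.End.mul_apply, ← map_mul, ← map_mul,
          ← LinearMap.add_apply, ← map_add, hab, map_one, Module.End.one_apply]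
      rw [h1]
      apply Y.add_mem
      · rw [he']; exact hstab a Y hzY e heY
      · exact hstab b Y hzY _ hk
    have hrep : ∀ y ∈ Y, ∃ (l : ℕ) (g : (ZMod p)[X]), z ^ l • y = aeval L g e := by
      intro y hy
      refine AddSubgroup.closure_induction
        (p := fun y _ => ∃ (l : ℕ) (g : (ZMod p)[X]), z ^ l • y = aeval L g e) ?_ ?_ ?_ ?_ hy
      · rintro m ⟨k', hk', e1, he1, rfl⟩
        rw [Set.mem_singleton_iff] at he1
        rw [he1]
        obtain ⟨i, rfl⟩ := Subgroup.mem_zpowers_iff.mp hk'
        refine ⟨i.natAbs, X ^ (i.natAbs + i).toNat, ?_⟩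
        rw [map_pow, aeval_X, hLpow, ← mul_smul, ← zpow_natCast, ← zpow_add, ← zpow_natCast]
        congr 2
        omega
      · exact ⟨0, 0, by simp⟩
      · rintro a b _ _ ⟨l1, g1, h1⟩ ⟨l2, g2, h2⟩
        refine ⟨l1 + l2, X ^ l2 * g1 + X ^ l1 * g2, ?_⟩
        rw [map_add, map_mul, map_mul, map_pow, map_pow, aeval_X, LinearMap.add_apply,
          Module.End.mul_apply, Module.End.mul_apply, hLpow, hLpow, ← h1, ← h2, smul_add,
          ← mul_smul, ← mul_smul, ← pow_add, ← pow_add, add_comm l2 l1]
      · rintro a _ ⟨l, g, h1⟩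
        exact ⟨l, -g, by rw [smul_neg, h1, map_neg, LinearMap.neg_apply]⟩
    obtain ⟨l, g, hlg⟩ := hrep e' he'Y
    rw [← hLpow, ← he', ← aeval_X (R := ZMod p) L, ← map_pow, ← Module.End.mul_apply,
      ← map_mul] at hlg
    have hzero : aeval L (X ^ l - g * f) e' = 0 := by
      rw [map_sub, LinearMap.sub_apply, sub_eq_zero]
      convert hlg using 3
      rw [aeval_X]
    have he'0 : e' ≠ 0 := by
      rintro rfl
      rw [map_zero] at he'
      exact he he'.symm
    have hpoly : (X : (ZMod p)[X]) ^ l - g * f = 0 := by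
      by_contra hne
      have := hinj _ hne (hzero.trans (map_zero _).symm)
      exact he'0 this
    have hdvd : f ∣ X ^ l := ⟨g, by rw [sub_eq_zero] at hpoly; rw [hpoly, mul_comm]⟩
    have hunit : IsUnit f := (hcopX l).isUnit_of_dvd' dvd_rfl hdvd
    have := natDegree_eq_zero_of_isUnit hunit
    omega

theorem ph_faithful (h : PC N) (hnil : Group.IsNilpotent N) (p : ℕ) (hp : p.Prime)
    (hE : ∀ m : E, p • m = 0)
    (hs : ∀ W : AddSubgroup E, Stb (⊤ : Subgroup N) W → W = ⊥ ∨ W = ⊤)
    (hf : ∀ g : N, (∀ m : E, g • m = m) → g = 1) (hnt : Nontrivial E) : Finite N := by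
  have := hnil
  have htor : ∀ z ∈ Subgroup.center N, ∃ n, 0 < n ∧ z ^ n = 1 :=
    have : Fact p.Prime := ⟨hp⟩
    have : Module (ZMod p) E := AddCommGroup.zmodModule hE
    center_torsion h p hs hf hnt
  have hfg : Group.FG (Subgroup.center N) := (Group.fg_iff_subgroup_fg _).mpr (h.fg _)
  have hfin : Finite (Subgroup.center N) := by
    let _ : CommGroup (Subgroup.center N) :=
      { (inferInstance : Group (Subgroup.center N)) with
        mul_comm := fun a b => Subtype.ext (Subgroup.mem_center_iff.mp b.2 a) }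
    refine @CommGroup.finite_of_fg_isMulTorsion (Subgroup.center N) _ hfg ?_
    intro z
    obtain ⟨n, hn, hzn⟩ := htor z z.2
    rw [isOfFinOrder_iff_pow_eq_one]
    exact ⟨n, hn, Subtype.ext hzn⟩
  obtain ⟨k, hk, hx⟩ := exp_of_center N (Nat.card (Subgroup.center N)) Nat.card_pos (by
    intro z hz
    have := pow_card_eq_one' (x := (⟨z, hz⟩ : Subgroup.center N))
    exact congrArg Subtype.val this)
  exact finite_of_exp h k hk hx

/-- Hall: simple modules in characteristic `p` over f.g. nilpotent groups are finite -/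
theorem ph {N E : Type} [Group N] [AddCommGroup E] [DistribMulAction N E] (h : PC N)
    (hnil : Group.IsNilpotent N) (p : ℕ) (hp : p.Prime) (hE : ∀ m : E, p • m = 0)
    (hs : ∀ W : AddSubgroup E, Stb (⊤ : Subgroup N) W → W = ⊥ ∨ W = ⊤) : Finite E := by
  rcases subsingleton_or_nontrivial E with hss | hnt
  · exact Finite.of_subsingleton
  let f : N →* (AddMonoid.End E)ˣ := MonoidHom.toHomUnits (ac E)
  let Γ : Subgroup (AddMonoid.End E)ˣ := f.range
  have hΓ : PC Γ := PC.surj h f.rangeRestrict f.rangeRestrict_surjective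
  have hnilΓ : Group.IsNilpotent Γ :=
    Group.nilpotent_of_surjective f.rangeRestrict f.rangeRestrict_surjective
  have hfinΓ : Finite Γ := by
    refine ph_faithful (E := E) hΓ hnilΓ p hp hE ?_ ?_ hnt
    · intro W hW
      apply hs
      intro g _ v hv
      exact hW ⟨f g, g, rfl⟩ trivial v hv
    · rintro ⟨g, hg⟩ hm
      apply Subtype.ext
      apply Units.ext
      ext m
      exact hm m
  obtain ⟨e, he⟩ := exists_ne (0 : E)
  have htop : (⊤ : AddSubgroup E) = AddSubgroup.closure (Set.range fun γ : Γ => γ • e) := by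
    have h1 := hs (AddSubgroup.closure (Set.range fun γ : Γ => γ • e)) (by
      intro g _ v hv
      refine AddSubgroup.closure_induction (p := fun y _ => g • y ∈
        AddSubgroup.closure (Set.range fun γ : Γ => γ • e)) ?_ ?_ ?_ ?_ hv
      · rintro m ⟨γ, rfl⟩
        exact AddSubgroup.subset_closure ⟨⟨f g, g, rfl⟩ * γ, mul_smul _ _ _⟩
      · rw [smul_zero]; exact AddSubgroup.zero_mem _
      · intro a b _ _ ha hb; rw [smul_add]; exact AddSubgroup.add_mem _ ha hb
      · intro a _ ha; rw [smul_neg]; exact AddSubgroup.neg_mem _ ha)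
    rcases h1 with h1 | h1
    · exfalso
      apply he
      have : e ∈ AddSubgroup.closure (Set.range fun γ : Γ => γ • e) :=
        AddSubgroup.subset_closure ⟨1, one_smul _ _⟩
      rw [h1] at this
      simpa using this
    · exact h1.symm
  have : AddGroup.FG E := by
    rw [AddGroup.fg_def, AddSubgroup.fg_iff]
    exact ⟨_, htop.symm, Set.finite_range _⟩
  apply AddCommGroup.finite_of_fg_isAddTorsion
  intro m
  rw [isOfFinAddOrder_iff_nsmul_eq_zero]
  exact ⟨p, hp.pos, hE m⟩

end

end Pool.Agent.Polc
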