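import Pool.Agent.Polc.RFaux
import Pool.Agent.Polc.PH
import Pool.Agent.Polc.NOETH
import Pool.Agent.Polc.PCB1

set_option autoImplicit false

/-!
# Residual finiteness (module RF)
-/

namespace Pool.Agent.Polc

theorem rf {G M : Type} [Group G] [AddCommGroup M] [DistribMulAction G M]
    (h : PC G) (p : ℕ) (hp : p.Prime) (hM : ∀ m : M, p • m = 0) (N : Subgroup G)
    (hnil : Group.IsNilpotent N) (V : AddSubgroup M) (hV : FGM N V) (m : M) (hm : m ≠ 0) :
    ∃ k, 0 < k ∧ ∀ H : Subgroup G, H ≤ pw N k →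
      (∀ E : AddSubgroup M, Stb H E → E ≤ V → ∃ c, ∀ n, dpow H (n + c) V ⊓ E ≤ dpow H n E) →
      ∃ n, m ∉ dpow H n V :=
  rf_aux (fun h hnil p hp hE hs => ph h hnil p hp hE hs)
    (fun h H V hV P hP => noeth_max h H V hV P hP) (fun h H => h.sub H)
    h p hp hM N hnil V hV m hm

end Pool.Agent.Polc
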