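import Pool.Agent.Polc.LVLAux
import Pool.Agent.Polc.NOETH
import Pool.Agent.Polc.REES
import Pool.Agent.Polc.RF
import Pool.Agent.Polc.ESCPADIC
import Pool.Agent.Polc.NBF
import Pool.Agent.Polc.ALGULP
import Pool.Agent.Polc.PGX

set_option autoImplicit false

namespace Pool.Agent.Polc

namespace LvlAux

/-- action on the quotient by a stable subgroup -/
def quotAct {G M : Type} [Group G] [AddCommGroup M] [DistribMulAction G M] (L : AddSubgroup M)
    (hL : Stb (⊤ : Subgroup G) L) : DistribMulAction G (M ⧸ L) where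
  smul g := QuotientAddGroup.map L L (DistribSMul.toAddMonoidHom M g)
    (fun m hm => hL g trivial m hm)
  one_smul := by
    intro q
    obtain ⟨m, rfl⟩ := QuotientAddGroup.mk'_surjective L q
    change QuotientAddGroup.mk' L ((1 : G) • m) = _
    rw [one_smul]
  mul_smul := by
    intro g h q
    obtain ⟨m, rfl⟩ := QuotientAddGroup.mk'_surjective L q
    change QuotientAddGroup.mk' L ((g * h) • m) = QuotientAddGroup.mk' L (g • h • m)
    rw [mul_smul]
  smul_zero := by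
    intro g
    exact map_zero (QuotientAddGroup.map L L (DistribSMul.toAddMonoidHom M g) _)
  smul_add := by
    intro g a b
    exact map_add (QuotientAddGroup.map L L (DistribSMul.toAddMonoidHom M g) _) a b

lemma exists_gquot {G M : Type} [Group G] [AddCommGroup M] [DistribMulAction G M]
    (L : AddSubgroup M) (hL : Stb (⊤ : Subgroup G) L) :
    ∃ (Q : Type) (_ : AddCommGroup Q) (_ : DistribMulAction G Q) (π : M →+ Q),
      Function.Surjective π ∧ (∀ m, π m = 0 ↔ m ∈ L) ∧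
      ∀ (g : G) (m : M), π (g • m) = g • π m := by
  letI := quotAct L hL
  exact ⟨M ⧸ L, inferInstance, inferInstance, QuotientAddGroup.mk' L,
    QuotientAddGroup.mk'_surjective L, fun m => QuotientAddGroup.eq_zero_iff m, fun g m => rfl⟩

/-- `u ∈ pw U k` acts trivially if all `u ^ k` do -/
lemma pw_triv {G Q : Type} [Group G] [AddCommGroup Q] [DistribMulAction G Q] (U : Subgroup G)
    (k : ℕ) (h : ∀ u ∈ U, ∀ q : Q, u ^ k • q = q) (u : G) (hu : u ∈ pw U k) (q : Q) :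
    u • q = q := by
  have hle : pw U k ≤ MulAction.stabilizer G q := by
    unfold pw
    rw [Subgroup.closure_le]
    rintro g ⟨v, hv, rfl⟩
    exact h v hv q
  exact hle hu

/-- one level -/
lemma level {G M : Type} [Group G] [AddCommGroup M] [DistribMulAction G M] {n c : ℕ}
    (U N : Subgroup G) [iU : U.Normal] [iN : N.Normal] (x : G) (w : M)
    (st : Stage n c G M U N x w) (B : Subgroup G) (hB : B.Normal)
    (V : Type) [AddCommGroup V] [DistribMulAction G V] (hV : Module.Finite ℤ V)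
    (p : ℕ) (hp : p.Prime) (hpc : c = 0 ∨ p = c) (i : ℕ) (e : ℕ → Finset G × M) :
    ∃ (Q : Type) (_ : AddCommGroup Q) (_ : DistribMulAction G Q) (π : M →+ Q) (H : Subgroup G)
      (t κ : ℕ),
      (∀ m, π m = 0 ↔ ∃ k, 0 < k ∧ ∀ b ∈ B, ∃ m', b ^ k • m - m = p • m') ∧
      (∀ (g : G) (m : M), π (g • m) = g • π m) ∧
      (∀ q : Q, p • q = 0) ∧ H.Normal ∧ H ≤ N ∧ H.relIndex N ≠ 0 ∧
      (∀ u ∈ U ⊓ H, ∀ q : Q, u • q = q) ∧ RChain p (U ⊓ H) H ∧ 0 < t ∧ 0 < κ ∧
      (∀ g ∈ N, g ^ κ ∈ H) ∧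
      (∀ a < i, π (e a).2 ≠ 0 → ∃ n, π (e a).2 ∉
        dpow H n (gspan N ((fun g => π (g • w)) '' ((e a).1 : Set G)))) ∧
      (∀ s (g : G), cm (g * x ^ (t * p ^ s) * g⁻¹ * (x ^ (t * p ^ s))⁻¹) (x ^ (t * p ^ s)) ∈
        Subgroup.closure {k | ∃ v ∈ H, k = v ^ (p ^ (2 * s))} ⊔ (U ⊓ H)) ∧
      (∀ k (q : Q), 0 < k → (∀ b ∈ B, b ^ k • q = q) → q = 0) ∧
      (∀ g ∈ N, cm g (x ^ t) ∈ H) ∧ (x ∈ N → x ^ t ∈ H) ∧
      ∀ v : V, ∃ v' : V, x ^ t • v = v + (p ^ 2 * i.factorial * κ) • v' := by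
  classical
  have pc := st.uc.tb.pc
  obtain ⟨L, hLm, hLs, hLn⟩ := lp pc st.uc.tb.fg B hB p hp
  obtain ⟨Q, iQ, aQ, π, hπs, hπ0, hπe⟩ := exists_gquot L hLs
  have hchar : ∀ q : Q, p • q = 0 := by
    intro q
    obtain ⟨m, rfl⟩ := hπs q
    rw [← map_nsmul, hπ0, hLm]
    refine ⟨1, one_pos, fun b _ => ⟨b • m - m, ?_⟩⟩
    rw [pow_one, smul_sub, smul_comm b p m]
  obtain ⟨k0, hk0, halgu⟩ := algu pc c st.uc.ch U st.uc.cen st.uc.alg st.uc.tb.fg p hp hpc
  have hk0Q : ∀ u ∈ U, ∀ q : Q, u ^ k0 • q = q := by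
    intro u hu q
    obtain ⟨m, rfl⟩ := hπs q
    obtain ⟨m', hm'⟩ := halgu u hu m
    have h1 := congrArg π hm'
    rw [map_sub, map_nsmul, hchar, hπe] at h1
    exact sub_eq_zero.1 h1
  obtain ⟨l, hl, hsep⟩ := PC.sep pc N U iN iU st.UN k0 hk0
  have hnil : Group.IsNilpotent N := ucs_nilp N U st.UN st.uc.cen st.nil
  have hfgV : ∀ Φ : Finset G, FGM N (gspan N ((fun g => π (g • w)) '' (Φ : Set G))) := by
    intro Φ
    exact ⟨_, (Φ.finite_toSet).image _, rfl⟩
  have hrf : ∀ a : ℕ, ∃ ka, 0 < ka ∧ (π (e a).2 ≠ 0 → ∀ H : Subgroup G, H ≤ pw N ka →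
      (∀ E : AddSubgroup Q, Stb H E →
        E ≤ gspan N ((fun g => π (g • w)) '' ((e a).1 : Set G)) →
        ∃ c, ∀ n, dpow H (n + c) (gspan N ((fun g => π (g • w)) '' ((e a).1 : Set G))) ⊓ E ≤
          dpow H n E) →
      ∃ n, π (e a).2 ∉ dpow H n (gspan N ((fun g => π (g • w)) '' ((e a).1 : Set G)))) := by
    intro a
    by_cases h : π (e a).2 = 0
    · exact ⟨1, one_pos, fun h' => absurd h h'⟩
    · obtain ⟨k, hk, hk'⟩ := rf pc p hp hchar N hnil _ (hfgV (e a).1) _ h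
      exact ⟨k, hk, fun _ => hk'⟩
  choose ka hka hka' using hrf
  set k : ℕ := l * ∏ a ∈ Finset.range i, ka a with hkdef
  have hk : 0 < k := Nat.mul_pos hl (Finset.prod_pos fun a _ => hka a)
  obtain ⟨H, hHn, hHpw, hHfi, hHch, t0, ht0, hcomm⟩ :=
    pg_exists pc N U st.UN st.uc.cen st.utor st.nil st.ab p hp k hk
  have hHN : H ≤ N := hHpw.trans (pw_le N k)
  have hHU : ∀ u ∈ U ⊓ H, ∀ q : Q, u • q = q := by
    intro u hu q
    have h1 : u ∈ pw N l := by
      have := hHpw hu.2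
      rw [hkdef] at this
      exact pw_mul N l _ this
    exact pw_triv U k0 hk0Q u (hsep ⟨h1, hu.1⟩) q
  have hrees : ReesChain p H Q := by
    obtain ⟨n', ch, h0, hn', hst⟩ := hHch
    refine ⟨n', ch, ?_, hn', hst⟩
    intro g hg m
    rw [h0] at hg
    exact hHU g hg m
  obtain ⟨κ, hκ, hκ'⟩ := pow_mem_rel N H hHn hHfi
  obtain ⟨k1, hk1, hk1'⟩ := pow_conj N H iN hHn hHfi x
  have hmpos : 0 < p ^ 2 * i.factorial * κ :=
    Nat.mul_pos (Nat.mul_pos (pow_pos hp.pos 2) (Nat.factorial_pos i)) hκ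
  obtain ⟨k2, hk2, hk2'⟩ := pow_act_mod hV x (p ^ 2 * i.factorial * κ) hmpos
  refine ⟨Q, iQ, aQ, π, H, t0 * k1 * κ * k2, κ, ?_, hπe, hchar, hHn, hHN, hHfi, hHU, hHch, ?_, hκ,
    hκ', ?_, ?_, ?_, ?_, ?_, ?_⟩
  · intro m
    rw [hπ0, hLm]
  · positivity
  · intro a ha hne
    refine hka' a hne H ?_ ?_
    · have hdvd : ka a ∣ k := by
        rw [hkdef]
        exact Dvd.dvd.mul_left (Finset.dvd_prod_of_mem ka (Finset.mem_range.2 ha)) _
      obtain ⟨d, hd⟩ := hdvd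
      rw [hd] at hHpw
      exact hHpw.trans (pw_mul N (ka a) d)
    · intro E hE hEV
      exact artin_rees p hp hchar H hrees _ E (FGM.fi H N hHN hHfi _ (hfgV (e a).1)) hE hEV
  · intro s g
    exact hcomm _ (by positivity) (by
      rw [mul_assoc, mul_assoc]; exact Dvd.intro _ rfl) x g s
  · intro k' q hk' hq
    obtain ⟨m, rfl⟩ := hπs q
    rw [hπ0]
    refine hLn m k' hk' ?_
    intro b hb
    rw [← hπ0, map_sub, hπe, hq b hb, sub_self]
  · intro g hg
    exact hk1' _ (by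
      rw [mul_assoc t0 k1 κ, mul_assoc, mul_comm k1 κ, mul_assoc]
      exact Dvd.intro (t0 * (κ * k2)) (by ring)) g hg
  · intro hx
    have : t0 * k1 * κ * k2 = κ * (t0 * k1 * k2) := by ring
    rw [this, pow_mul]
    exact Subgroup.pow_mem _ (hκ' x hx) _
  · exact hk2' _ (Dvd.intro_left _ rfl)

end LvlAux

theorem exists_lv {G M : Type} [Group G] [AddCommGroup M] [DistribMulAction G M] {n c : ℕ}
    (ih : IH n) (U N : Subgroup G) [U.Normal] [N.Normal] (x : G) (w : M)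
    (st : Stage n c G M U N x w) (B : Subgroup G) (hB : B.Normal) (hUB : U ≤ B)
    (hB1 : B ≤ ucs N U 1) (hne : ∃ b ∈ B, b ∉ U) (V : Type) [AddCommGroup V]
    [DistribMulAction G V] (hV : Module.Finite ℤ V) : Nonempty (Lv G M U N B x w V) := by
  classical
  have pc := st.uc.tb.pc
  haveI : Countable G := PC.countable pc
  haveI : Countable M := LvlAux.countable_mod w st.gen
  obtain ⟨e, he⟩ : ∃ e : ℕ → Finset G × M, Function.Surjective e := exists_surjective_nat _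
  -- the primes
  obtain ⟨p, hp, hpc, hpi⟩ : ∃ p : ℕ → ℕ, (∀ i, (p i).Prime) ∧ (∀ i, c = 0 ∨ p i = c) ∧
      (c = 0 → ∀ i, i ≤ p i) := by
    rcases st.uc.ch with ⟨h0, -⟩ | ⟨h0, -⟩
    · choose p hp using fun i => Nat.exists_infinite_primes i
      exact ⟨p, fun i => (hp i).2, fun i => Or.inl h0, fun _ i => (hp i).1⟩
    · exact ⟨fun _ => c, fun _ => h0, fun _ => Or.inr rfl, fun h => by
        rw [h] at h0; exact absurd h0 Nat.not_prime_zero⟩
  choose Q iQ aQ π H t κ hπ0 hequiv hchar hHn hHN hHfi hHU hchain ht hκ hκH hrf hcomm hnofix hdeepN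
    hdeepx hdeepV using fun i => LvlAux.level U N x w st B hB V hV (p i) (hp i) (hpc i) i e
  refine ⟨{ Q := Q, iQ := iQ, aQ := aQ, π := π, p := p, H := H, t := t, κ := κ, equiv := hequiv
            prime := hp, char := hchar, Hn := hHn, HN := hHN, Hfi := hHfi, HU := hHU
            chain := hchain, tpos := ht, κpos := hκ, κH := hκH, esc := ?_, rf := ?_
            comm := hcomm, nofix := hnofix, deepN := hdeepN, deepx := fun hx i => hdeepx i hx
            deepV := hdeepV }⟩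
  · intro m hm
    rcases st.uc.ch with ⟨h0, htf⟩ | ⟨h0, hcM⟩
    · subst h0
      have hcommB : ∀ b ∈ B, ∀ b' ∈ B, cm b b' ∈ U := by
        intro b hb b' hb'
        have h1 := ((mem_ucs_succ N U 0 b).1 (hB1 hb)).2 b'
          ((mem_ucs_succ N U 0 b').1 (hB1 hb')).1
        rwa [ucs_zero] at h1
      have h1 : ∃ b ∈ B, ¬ Alg 0 b m := by
        by_contra hcon
        push Not at hcon
        exact hm (nbf ih U st.uc st.umax st.utor B hB hUB hne hcommB m hcon)
      obtain ⟨b, hb, hbm⟩ := h1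
      obtain ⟨p0, hp0⟩ := esc pc st.uc.ch st.uc.tb.fg b
        (LvlAux.cchain_zpowers pc N U st.UN st.uc.cen b (hB1 hb)) m hbm
      refine ⟨p0, fun i hi h => ?_⟩
      obtain ⟨k, hk, hk'⟩ := (hπ0 i m).1 h
      obtain ⟨m', hm'⟩ := hk' b hb
      exact hp0 (p i) (hi.trans (hpi rfl i)) (hp i) k hk m' hm'
    · refine ⟨0, fun i _ h => hm ?_⟩
      obtain ⟨k, hk, hk'⟩ := (hπ0 i m).1 h
      have hpi' : p i = c := by
        rcases hpc i with h1 | h1
        · rw [h1] at h0; exact absurd h0 Nat.not_prime_zero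
        · exact h1
      refine nbfp ih st.uc.tb B hB ?_ m k hk ?_
      · obtain ⟨b, hb, hbU⟩ := hne
        refine ⟨b, hb, ?_⟩
        rintro rfl
        exact hbU (Subgroup.one_mem U)
      · intro b hb
        obtain ⟨m', hm'⟩ := hk' b hb
        rw [hpi', hcM] at hm'
        exact sub_eq_zero.1 hm'
  · intro Φ m
    obtain ⟨a, ha⟩ := he (Φ, m)
    refine ⟨a + 1, fun i hi hne' => ?_⟩
    have h1 := hrf i a (by omega)
    rw [ha] at h1
    exact h1 hne'

end Pool.Agent.Polc
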