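import Pool.Agent.Polc.Defs2
import Pool.Agent.Polc.PCB1
import Pool.Agent.Polc.PCB2
import Pool.Agent.Polc.SECUCS

set_option autoImplicit false

namespace Pool.Agent.Polc

namespace LvlAux

lemma countable_mod {G M : Type} [Group G] [AddCommGroup M] [DistribMulAction G M] [Countable G]
    (w : M) (gen : gspan (⊤ : Subgroup G) {w} = ⊤) : Countable M := by
  let F : List (ℤ × G) → M := fun l => (l.map (fun p => p.1 • (p.2 • w))).sum
  have hF : Function.Surjective F := by
    intro m
    have hm : m ∈ gspan (⊤ : Subgroup G) {w} := by rw [gen]; trivial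
    unfold gspan at hm
    induction hm using AddSubgroup.closure_induction with
    | mem m hm =>
      obtain ⟨h, -, f, hf, rfl⟩ := hm
      rw [Set.mem_singleton_iff] at hf
      subst hf
      exact ⟨[(1, h)], by simp [F]⟩
    | zero => exact ⟨[], by simp [F]⟩
    | add a b _ _ iha ihb =>
      obtain ⟨la, rfl⟩ := iha
      obtain ⟨lb, rfl⟩ := ihb
      exact ⟨la ++ lb, by simp [F]⟩
    | neg a _ ih =>
      obtain ⟨l, rfl⟩ := ih
      refine ⟨l.map (fun p => (-p.1, p.2)), ?_⟩
      have : ∀ l : List (ℤ × G), F (l.map (fun p => (-p.1, p.2))) = - F l := by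
        intro l
        induction l with
        | nil => simp [F]
        | cons a l ih =>
          simp only [F, List.map_cons, List.sum_cons, neg_smul] at ih ⊢
          rw [ih, neg_add]
      exact this l
  exact hF.countable

/-- a finitely generated abelian group has finite quotients `V / m V` -/
lemma finite_quot {V : Type} [AddCommGroup V] (hV : Module.Finite ℤ V) (m : ℕ) (hm : 0 < m) :
    Finite (V ⧸ (nsmulAddMonoidHom (α := V) m).range) := by
  let Q := V ⧸ (nsmulAddMonoidHom (α := V) m).range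
  have h1 : Module.Finite ℤ Q := by
    have : Function.Surjective ((QuotientAddGroup.mk' (nsmulAddMonoidHom (α := V) m).range).toIntLinearMap) :=
      QuotientAddGroup.mk'_surjective _
    exact Module.Finite.of_surjective _ this
  have h2 : Module.IsTorsion ℤ Q := by
    intro q
    obtain ⟨v, rfl⟩ := QuotientAddGroup.mk'_surjective _ q
    refine ⟨⟨(m : ℤ), mem_nonZeroDivisors_of_ne_zero (by exact_mod_cast hm.ne')⟩, ?_⟩
    change (m : ℤ) • (QuotientAddGroup.mk' (nsmulAddMonoidHom (α := V) m).range v) = 0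
    rw [← map_zsmul]
    refine (QuotientAddGroup.eq_zero_iff _).2 ?_
    exact ⟨v, by simp⟩
  exact Module.finite_of_fg_torsion Q h2

/-- powers of `x` act trivially modulo `m` -/
lemma pow_act_mod {G V : Type} [Group G] [AddCommGroup V] [DistribMulAction G V]
    (hV : Module.Finite ℤ V) (x : G) (m : ℕ) (hm : 0 < m) :
    ∃ k, 0 < k ∧ ∀ l, k ∣ l → ∀ v : V, ∃ v' : V, x ^ l • v = v + m • v' := by
  classical
  have hfin := finite_quot hV m hm
  let Q := V ⧸ (nsmulAddMonoidHom (α := V) m).range
  let mk : V → Q := fun v => QuotientAddGroup.mk v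
  have hmk : ∀ a b : V, mk a = mk b ↔ ∃ v', b = a + m • v' := by
    intro a b
    constructor
    · intro h
      have h1 := QuotientAddGroup.eq.1 h
      obtain ⟨v', hv'⟩ := h1
      refine ⟨v', ?_⟩
      simp only [nsmulAddMonoidHom_apply] at hv'
      rw [hv']; abel
    · rintro ⟨v', rfl⟩
      refine QuotientAddGroup.eq.2 ⟨v', ?_⟩
      simp only [nsmulAddMonoidHom_apply]
      abel
  let f : ℕ → (Q → Q) := fun j q => mk (x ^ j • (Quotient.out q))
  have hf : ∀ j (v : V), f j (mk v) = mk (x ^ j • v) := by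
    intro j v
    have h1 : mk (Quotient.out (mk v)) = mk v := Quotient.out_eq _
    obtain ⟨v', hv'⟩ := (hmk _ _).1 h1
    change mk (x ^ j • (Quotient.out (mk v))) = _
    rw [hmk]
    refine ⟨x ^ j • v', ?_⟩
    conv_lhs => rw [hv']
    rw [smul_add, smul_comm m (x ^ j) v']
  have hninj : ¬ Function.Injective f := not_injective_infinite_finite f
  obtain ⟨i, j, hij, hne⟩ : ∃ i j, f i = f j ∧ i ≠ j := by
    by_contra hcon
    push Not at hcon
    exact hninj fun i j h => hcon i j h
  wlog hlt : i < j generalizing i j with H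
  · exact H j i hij.symm (Ne.symm hne) (lt_of_le_of_ne (not_lt.1 hlt) (Ne.symm hne))
  have key : ∀ v : V, ∃ v' : V, x ^ (j - i) • v = v + m • v' := by
    intro v
    have h1 := congrFun hij (mk v)
    rw [hf, hf, hmk] at h1
    obtain ⟨v', hv'⟩ := h1
    refine ⟨(x ^ i)⁻¹ • v', ?_⟩
    have h2 : x ^ j = x ^ i * x ^ (j - i) := by rw [← pow_add]; congr 1; omega
    rw [h2, mul_smul] at hv'
    have h3 := congrArg (fun u => (x ^ i)⁻¹ • u) hv'
    simp only [inv_smul_smul, smul_add] at h3
    rw [h3, smul_comm]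
  refine ⟨j - i, by omega, ?_⟩
  rintro l ⟨k, rfl⟩
  induction k with
  | zero => intro v; exact ⟨0, by simp⟩
  | succ k ih =>
    intro v
    obtain ⟨v1, h1⟩ := ih v
    obtain ⟨v2, h2⟩ := key (x ^ ((j - i) * k) • v)
    refine ⟨v1 + v2, ?_⟩
    have : (j - i) * (k + 1) = (j - i) + (j - i) * k := by ring
    rw [this, pow_add, mul_smul, h2, h1, smul_add, add_assoc]

/-- uniform exponent of `N / H` -/
lemma pow_mem_rel {G : Type} [Group G] (N H : Subgroup G) (hH : H.Normal)
    (hi : H.relIndex N ≠ 0) : ∃ κ, 0 < κ ∧ ∀ g ∈ N, g ^ κ ∈ H := by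
  refine ⟨H.relIndex N, Nat.pos_of_ne_zero hi, ?_⟩
  intro g hg
  have h1 : (H.subgroupOf N).Normal := by infer_instance
  have h2 := Subgroup.pow_index_mem (H.subgroupOf N) (⟨g, hg⟩ : N)
  rw [Subgroup.mem_subgroupOf] at h2
  exact h2

/-- powers of `x` centralise `N / H` -/
lemma pow_conj {G : Type} [Group G] (N H : Subgroup G) (hN : N.Normal) (hH : H.Normal)
    (hi : H.relIndex N ≠ 0) (x : G) :
    ∃ k, 0 < k ∧ ∀ l, k ∣ l → ∀ g ∈ N, cm g (x ^ l) ∈ H := by
  let φ : G →* G ⧸ H := QuotientGroup.mk' H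
  have hφ : φ.ker = H := QuotientGroup.ker_mk' H
  have hN' : (N.map φ).Normal := hN.map φ (QuotientGroup.mk'_surjective H)
  have hfin : Finite (N.map φ) := by
    apply Nat.finite_of_card_ne_zero
    rw [← Subgroup.relIndex_ker, hφ]
    exact hi
  have hfin2 : Finite (MulAut (N.map φ)) := by infer_instance
  let c : G ⧸ H →* MulAut (N.map φ) := MulAut.conjNormal
  refine ⟨Nat.card (MulAut (N.map φ)), Nat.card_pos, ?_⟩
  rintro l ⟨k, rfl⟩ g hg
  have h1 : c (φ x) ^ (Nat.card (MulAut (N.map φ)) * k) = 1 := by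
    rw [pow_mul, pow_card_eq_one', one_pow]
  have h2 : c (φ (x ^ (Nat.card (MulAut (N.map φ)) * k))) = 1 := by
    rw [map_pow, map_pow, h1]
  set y := x ^ (Nat.card (MulAut (N.map φ)) * k) with hy
  have h3 : c (φ y) ⟨φ g, Subgroup.mem_map_of_mem φ hg⟩ = ⟨φ g, Subgroup.mem_map_of_mem φ hg⟩ := by
    rw [h2]; rfl
  have h4 := congrArg Subtype.val h3
  have h5 : φ y * φ g * (φ y)⁻¹ = φ g := by
    simpa [c] using h4
  have h6 : φ (cm g y) = 1 := by
    unfold cm
    simp only [map_mul, map_inv]
    have h7 : φ y * φ g = φ g * φ y := by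
      calc φ y * φ g = (φ y * φ g * (φ y)⁻¹) * φ y := by group
        _ = φ g * φ y := by rw [h5]
    rw [← h7]
    group
  rw [← hφ]
  exact h6

/-- chain of cyclic steps from `⟨b⟩` to the whole group -/
lemma cchain_zpowers {G : Type} [Group G] (h : PC G) (N U : Subgroup G) [U.Normal] [N.Normal]
    (hUN : U ≤ N) (hc : ∀ u ∈ U, ∀ g : G, g * u = u * g) (b : G) (hb : b ∈ ucs N U 1) :
    CChain (Subgroup.zpowers b) (⊤ : Subgroup G) := by
  have hb' := (mem_ucs_succ N U 0 b).1 hb
  rw [ucs_zero] at hb'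
  obtain ⟨hbN, hbc⟩ := hb'
  have hBN : Subgroup.zpowers b ⊔ U ≤ N := sup_le (by simpa using hbN) hUN
  have h1 : CChain (Subgroup.zpowers b) (Subgroup.zpowers b ⊔ U) := by
    apply h.cchain _ _ le_sup_left
    intro k hk y hy
    have hcomm : k * b * k⁻¹ = b := by
      have : k ∈ Subgroup.centralizer {b} := by
        have hle : Subgroup.zpowers b ⊔ U ≤ Subgroup.centralizer {b} := by
          refine sup_le ?_ ?_
          · rw [Subgroup.zpowers_le, Subgroup.mem_centralizer_singleton_iff]
          · intro u hu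
            rw [Subgroup.mem_centralizer_singleton_iff]
            exact (hc u hu b).symm
        exact hle hk
      rw [Subgroup.mem_centralizer_singleton_iff] at this
      rw [this]; group
    obtain ⟨n, rfl⟩ := Subgroup.mem_zpowers_iff.1 hy
    rw [← conj_zpow, hcomm]
    exact Subgroup.zpow_mem_zpowers b n
  have h2 : CChain (Subgroup.zpowers b ⊔ U) N := by
    apply h.cchain _ _ hBN
    intro k hk y hy
    have hgen : k * b * k⁻¹ ∈ Subgroup.zpowers b ⊔ U := by
      have e : k * b * k⁻¹ = (cm b k)⁻¹ * b := by unfold cm; group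
      rw [e]
      exact Subgroup.mul_mem _ (Subgroup.inv_mem _ (Subgroup.mem_sup_right (hbc k hk)))
        (Subgroup.mem_sup_left (Subgroup.mem_zpowers b))
    have hle : Subgroup.zpowers b ⊔ U ≤ (Subgroup.zpowers b ⊔ U).comap (MulAut.conj k).toMonoidHom := by
      refine sup_le ?_ ?_
      · rw [Subgroup.zpowers_le]
        simpa using hgen
      · intro u hu
        have : k * u * k⁻¹ ∈ U := (inferInstance : U.Normal).conj_mem u hu k
        simpa using Subgroup.mem_sup_right (S := Subgroup.zpowers b) this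
    simpa using hle hy
  have h3 : CChain N (⊤ : Subgroup G) := by
    apply h.cchain _ _ le_top
    intro k _ y hy
    exact (inferInstance : N.Normal).conj_mem y hy k
  exact (h1.trans h2).trans h3

end LvlAux

end Pool.Agent.Polc
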