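import Pool.Agent.Polc.MalFlag

/-!
# Mal'cev: polycyclic groups are virtually nilpotent-by-abelian
-/

set_option autoImplicit false

open scoped commutatorElement

namespace Pool.Agent.Polc

namespace Mal

section hom

variable {G : Type} [Group G]

/-- functions vanishing off `A` and additive on `A` -/
def HomSp (K : Type) [Field K] (A : Subgroup G) : Submodule K (G → K) where
  carrier := {φ | (∀ a ∈ A, ∀ b ∈ A, φ (a * b) = φ a + φ b) ∧ ∀ x, x ∉ A → φ x = 0}
  add_mem' := by
    rintro φ ψ ⟨h1, h2⟩ ⟨h3, h4⟩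
    refine ⟨fun a ha b hb => ?_, fun x hx => ?_⟩
    · simp only [Pi.add_apply, h1 a ha b hb, h3 a ha b hb]; ring
    · simp only [Pi.add_apply, h2 x hx, h4 x hx, add_zero]
  zero_mem' := ⟨fun a _ b _ => by simp, fun x _ => rfl⟩
  smul_mem' := by
    rintro c φ ⟨h1, h2⟩
    refine ⟨fun a ha b hb => ?_, fun x hx => ?_⟩
    · simp only [Pi.smul_apply, smul_eq_mul, h1 a ha b hb]; ring
    · simp only [Pi.smul_apply, smul_eq_mul, h2 x hx, mul_zero]

variable {K : Type} [Field K] {A : Subgroup G}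

theorem hs_mul (φ : HomSp K A) {a b : G} (ha : a ∈ A) (hb : b ∈ A) :
    φ.1 (a * b) = φ.1 a + φ.1 b := φ.2.1 a ha b hb

theorem hs_one (φ : HomSp K A) : φ.1 1 = 0 := by
  have := hs_mul φ A.one_mem A.one_mem
  rw [mul_one] at this
  exact left_eq_add.1 this

theorem hs_inv (φ : HomSp K A) {a : G} (ha : a ∈ A) : φ.1 a⁻¹ = -φ.1 a := by
  have := hs_mul φ ha (A.inv_mem ha)
  rw [mul_inv_cancel, hs_one φ] at this
  exact (neg_eq_of_add_eq_zero_right this.symm).symm

theorem hs_finite (hA : A.FG) : FiniteDimensional K (HomSp K A) := by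
  obtain ⟨S, hS⟩ := hA
  let f : HomSp K A →ₗ[K] (S → K) :=
    { toFun := fun φ s => φ.1 s
      map_add' := fun _ _ => rfl
      map_smul' := fun _ _ => rfl }
  refine Module.Finite.of_injective f ?_
  rw [← LinearMap.ker_eq_bot, LinearMap.ker_eq_bot']
  intro φ hφ
  have h0 : ∀ s ∈ S, φ.1 s = 0 := fun s hs => congrFun hφ ⟨s, hs⟩
  have hSA : ∀ s ∈ S, s ∈ A := fun s hs => hS ▸ Subgroup.subset_closure hs
  have h1 : ∀ a ∈ A, a ∈ A ∧ φ.1 a = 0 := by
    intro a ha
    have ha' : a ∈ Subgroup.closure (S : Set G) := hS.symm ▸ ha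
    induction ha' using Subgroup.closure_induction with
    | mem x hx => exact ⟨hSA x hx, h0 x hx⟩
    | one => exact ⟨A.one_mem, hs_one φ⟩
    | mul x y hx hy ihx ihy =>
      have hx' := ihx (hS ▸ hx)
      have hy' := ihy (hS ▸ hy)
      exact ⟨A.mul_mem hx'.1 hy'.1, by rw [hs_mul φ hx'.1 hy'.1, hx'.2, hy'.2, add_zero]⟩
    | inv x hx ihx =>
      have hx' := ihx (hS ▸ hx)
      exact ⟨A.inv_mem hx'.1, by rw [hs_inv φ hx'.1, hx'.2, neg_zero]⟩
  ext x
  by_cases hx : x ∈ A
  · exact (h1 x hx).2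
  · exact φ.2.2 x hx

/-- the conjugation action -/
def conjRep (K : Type) [Field K] (A : Subgroup G) (hA : A.Normal) :
    G →* Module.End K (HomSp K A) where
  toFun g :=
    { toFun := fun φ => ⟨fun x => φ.1 (g⁻¹ * x * g), by
        have hmem : ∀ x, g⁻¹ * x * g ∈ A ↔ x ∈ A := by
          intro x
          constructor
          · intro h
            have := hA.conj_mem _ h g
            have e : g * (g⁻¹ * x * g) * g⁻¹ = x := by group
            rwa [e] at this
          · intro h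
            have := hA.conj_mem _ h g⁻¹
            rwa [inv_inv] at this
        refine ⟨fun a ha b hb => ?_, fun x hx => φ.2.2 _ (fun h => hx ((hmem x).1 h))⟩
        have e : g⁻¹ * (a * b) * g = (g⁻¹ * a * g) * (g⁻¹ * b * g) := by group
        show φ.1 (g⁻¹ * (a * b) * g) = φ.1 (g⁻¹ * a * g) + φ.1 (g⁻¹ * b * g)
        rw [e]
        exact hs_mul φ ((hmem a).2 ha) ((hmem b).2 hb)⟩
      map_add' := fun _ _ => rfl
      map_smul' := fun _ _ => rfl }
  map_one' := by
    ext φ x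
    show φ.1 (1⁻¹ * x * 1) = φ.1 x
    simp
  map_mul' a b := by
    ext φ x
    show φ.1 ((a * b)⁻¹ * x * (a * b)) = φ.1 (b⁻¹ * (a⁻¹ * x * a) * b)
    group

theorem conjRep_apply (hA : A.Normal) (g : G) (φ : HomSp K A) (x : G) :
    (conjRep K A hA g φ).1 x = φ.1 (g⁻¹ * x * g) := rfl

/-- homomorphisms to a field of characteristic zero separate elements of infinite order of a
finitely generated abelian group -/
theorem exists_pow_eq_one [CharZero K] (hA : A.FG) (hc : ∀ a ∈ A, ∀ b ∈ A, a * b = b * a)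
    {a : G} (ha : a ∈ A) (h : ∀ φ : HomSp K A, φ.1 a = 0) : ∃ n : ℕ, 0 < n ∧ a ^ n = 1 := by
  let : CommGroup A := { (inferInstance : Group A) with
    mul_comm := fun x y => Subtype.ext (hc x x.2 y y.2) }
  have : Group.FG A := (Group.fg_iff_subgroup_fg A).2 hA
  have : Module.Finite ℤ (Additive A) := Module.Finite.iff_addGroup_fg.2 inferInstance
  by_contra hcon
  push Not at hcon
  let m : Additive A := Additive.ofMul ⟨a, ha⟩
  have hm : m ∉ Submodule.torsion ℤ (Additive A) := by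
    intro hm
    rw [Submodule.mem_torsion_iff] at hm
    obtain ⟨⟨z, hz⟩, hzm⟩ := hm
    have hz0 : z ≠ 0 := nonZeroDivisors.ne_zero hz
    have h1 : a ^ z = 1 := congrArg (fun x : Additive A => ((Additive.toMul x : A) : G)) hzm
    have h2 : a ^ z.natAbs = 1 := by
      rcases Int.natAbs_eq z with h3 | h3
      · rw [h3, zpow_natCast] at h1; exact h1
      · rw [h3, zpow_neg, zpow_natCast, inv_eq_one] at h1; exact h1
    exact hcon _ (Int.natAbs_pos.2 hz0) h2
  let Q := Additive A ⧸ Submodule.torsion ℤ (Additive A)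
  let b := Module.finBasis ℤ Q
  have hq : (Submodule.Quotient.mk m : Q) ≠ 0 := fun h => hm ((Submodule.Quotient.mk_eq_zero _).1 h)
  have hr : b.repr (Submodule.Quotient.mk m) ≠ 0 := fun h => hq (b.repr.map_eq_zero_iff.1 h)
  obtain ⟨i, hi⟩ := Finsupp.ne_iff.1 hr
  classical
  let φ : HomSp K A := ⟨fun x => if hx : x ∈ A then
      ((b.repr (Submodule.Quotient.mk (Additive.ofMul ⟨x, hx⟩ : Additive A)) i : ℤ) : K) else 0, by
    refine ⟨fun x hx y hy => ?_, fun x hx => dif_neg hx⟩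
    simp only [dif_pos hx, dif_pos hy, dif_pos (A.mul_mem hx hy)]
    have e : (Additive.ofMul (⟨x * y, A.mul_mem hx hy⟩ : A) : Additive A) =
      Additive.ofMul ⟨x, hx⟩ + Additive.ofMul ⟨y, hy⟩ := rfl
    rw [e, Submodule.Quotient.mk_add, map_add, Finsupp.add_apply, Int.cast_add]⟩
  have h3 := h φ
  have h4 : φ.1 a = ((b.repr (Submodule.Quotient.mk m) i : ℤ) : K) := dif_pos ha
  rw [h4] at h3
  exact hi (by exact_mod_cast h3)

end hom

/-- iterated commutators -/
def itc {G : Type} [Group G] (N X : Subgroup G) : ℕ → Subgroup G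
  | 0 => X
  | j + 1 => ⁅itc N X j, N⁆

theorem itc_mono {G : Type} [Group G] {N N' X X' : Subgroup G} (hN : N ≤ N') (hX : X ≤ X')
    (j : ℕ) : itc N X j ≤ itc N' X' j := by
  induction j with
  | zero => exact hX
  | succ j ih => exact Subgroup.commutator_mono ih hN

theorem itc_add {G : Type} [Group G] (N X : Subgroup G) (i j : ℕ) :
    itc N X (i + j) = itc N (itc N X i) j := by
  induction j with
  | zero => rfl
  | succ j ih =>
    show ⁅itc N X (i + j), N⁆ = ⁅itc N (itc N X i) j, N⁆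
    rw [ih]

theorem itc_map {G G' : Type} [Group G] [Group G'] (f : G →* G') (N X : Subgroup G) (j : ℕ) :
    (itc N X j).map f = itc (N.map f) (X.map f) j := by
  induction j with
  | zero => rfl
  | succ j ih =>
    show (⁅itc N X j, N⁆).map f = ⁅itc (N.map f) (X.map f) j, N.map f⁆
    rw [Subgroup.map_commutator, ih]

theorem itc_self {G : Type} [Group G] (N : Subgroup G) (j : ℕ) :
    itc N N j = N.lowerCentralSeries j := by
  induction j with
  | zero => rfl
  | succ j ih =>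
    show ⁅itc N N j, N⁆ = _
    rw [ih]; rfl

theorem comm_le_self {G : Type} [Group G] (N : Subgroup G) : ⁅N, N⁆ ≤ N :=
  Subgroup.commutator_le.2 fun _ ha _ hb =>
    N.mul_mem (N.mul_mem (N.mul_mem ha hb) (N.inv_mem ha)) (N.inv_mem hb)

/-- a finite index subgroup acts nilpotently on a normal abelian subgroup -/
theorem abel_step {G : Type} [Group G] (hG : PC G) (A : Subgroup G) (hA : A.Normal)
    (hc : ∀ a ∈ A, ∀ b ∈ A, a * b = b * a) :
    ∃ G1 : Subgroup G, G1.FiniteIndex ∧ ∃ r, itc ⁅G1, G1⁆ A r = ⊥ := by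
  have := hs_finite (K := ℂ) (hG.fg A)
  obtain ⟨G1, h1, d, hd⟩ := exists_flag (conjRep ℂ A hA) hG
  -- the torsion subgroup
  let T : Subgroup G :=
    { carrier := {a | a ∈ A ∧ ∃ n : ℕ, 0 < n ∧ a ^ n = 1}
      mul_mem' := by
        rintro a b ⟨ha, n, hn, han⟩ ⟨hb, k, hk, hbk⟩
        refine ⟨A.mul_mem ha hb, n * k, by positivity, ?_⟩
        rw [(show Commute a b from hc a ha b hb).mul_pow, pow_mul, han, one_pow, one_mul,
          mul_comm n k, pow_mul, hbk, one_pow]
      one_mem' := ⟨A.one_mem, 1, one_pos, one_pow 1⟩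
      inv_mem' := by
        rintro a ⟨ha, n, hn, han⟩
        exact ⟨A.inv_mem ha, n, hn, by rw [inv_pow, han, inv_one]⟩ }
  have hT : T.Normal := by
    constructor
    rintro a ⟨ha, n, hn, han⟩ g
    refine ⟨hA.conj_mem a ha g, n, hn, ?_⟩
    rw [conj_pow, han, mul_one, mul_inv_cancel]
  have hTf : Finite T := by
    let : CommGroup T := { (inferInstance : Group T) with
      mul_comm := fun x y => Subtype.ext (hc x x.2.1 y y.2.1) }
    have : Group.FG T := (Group.fg_iff_subgroup_fg T).2 (hG.fg T)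
    refine CommGroup.finite_of_fg_isMulTorsion T ?_
    intro x
    obtain ⟨-, n, hn, hxn⟩ := x.2
    rw [isOfFinOrder_iff_pow_eq_one]
    exact ⟨n, hn, Subtype.ext hxn⟩
  let C : Subgroup G := (MulAut.conjNormal (H := T)).ker
  have hC : C.FiniteIndex := Subgroup.finiteIndex_ker _
  have hTC : ⁅T, C⁆ = ⊥ := by
    rw [eq_bot_iff, Subgroup.commutator_le]
    intro t ht c hcC
    have h2 : MulAut.conjNormal (H := T) c = 1 := hcC
    have h3 : c * t * c⁻¹ = t := by
      have := congrArg (fun f : MulAut T => ((f ⟨t, ht⟩ : T) : G)) h2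
      simpa using this
    rw [Subgroup.mem_bot, commutatorElement_def]
    have h4 : c * t⁻¹ * c⁻¹ = t⁻¹ := by
      have := congrArg (fun x => x⁻¹) h3
      simpa [mul_assoc] using this
    calc t * c * t⁻¹ * c⁻¹ = t * (c * t⁻¹ * c⁻¹) := by group
      _ = 1 := by rw [h4, mul_inv_cancel]
  -- annihilators
  let B : Submodule ℂ (HomSp ℂ A) → Subgroup G := fun W =>
    { carrier := {a | a ∈ A ∧ ∀ φ ∈ W, φ.1 a = 0}
      mul_mem' := by
        rintro a b ⟨ha, ha'⟩ ⟨hb, hb'⟩
        exact ⟨A.mul_mem ha hb, fun φ hφ => by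
          rw [hs_mul φ ha hb, ha' φ hφ, hb' φ hφ, add_zero]⟩
      one_mem' := ⟨A.one_mem, fun φ _ => hs_one φ⟩
      inv_mem' := by
        rintro a ⟨ha, ha'⟩
        exact ⟨A.inv_mem ha, fun φ hφ => by rw [hs_inv φ ha, ha' φ hφ, neg_zero]⟩ }
  set N := ⁅G1, G1⁆ with hN
  have hB : ∀ j, itc N A j ≤ B ((dV (conjRep ℂ A hA) N)^[d - j] ⊤) := by
    intro j
    induction j with
    | zero =>
      intro a ha
      refine ⟨ha, fun φ hφ => ?_⟩
      rw [Nat.sub_zero, hd, Submodule.mem_bot] at hφ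
      rw [hφ]; rfl
    | succ j ih =>
      show ⁅itc N A j, N⁆ ≤ _
      rw [Subgroup.commutator_le]
      intro a ha c hcN
      obtain ⟨haA, haφ⟩ := ih ha
      have hcA : c * a * c⁻¹ ∈ A := hA.conj_mem a haA c
      have e : ⁅a, c⁆ = a * (c * a * c⁻¹)⁻¹ := by
        rw [commutatorElement_def]; group
      refine ⟨by rw [e]; exact A.mul_mem haA (A.inv_mem hcA), fun φ hφ => ?_⟩
      rw [e, hs_mul φ haA (A.inv_mem hcA), hs_inv φ hcA]
      have h2 : conjRep ℂ A hA c⁻¹ φ - φ ∈ (dV (conjRep ℂ A hA) N)^[d - j] ⊤ := by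
        by_cases hjd : j + 1 ≤ d
        · have e2 : d - j = (d - (j + 1)) + 1 := by omega
          rw [e2, Function.iterate_succ_apply']
          exact Submodule.subset_span ⟨c⁻¹, N.inv_mem hcN, φ, hφ, rfl⟩
        · have e2 : d - j = 0 := by omega
          rw [e2]; exact Submodule.mem_top
      have h3 := haφ _ h2
      have h4 : (conjRep ℂ A hA c⁻¹ φ - φ).1 a = φ.1 (c * a * c⁻¹) - φ.1 a := by
        show (conjRep ℂ A hA c⁻¹ φ).1 a - φ.1 a = _
        rw [conjRep_apply, inv_inv]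
      rw [h4] at h3
      linear_combination -h3
  have hBT : itc N A d ≤ T := by
    intro a ha
    obtain ⟨haA, haφ⟩ := hB d ha
    rw [Nat.sub_self] at haφ
    exact ⟨haA, exists_pow_eq_one (K := ℂ) (hG.fg A) hc haA fun φ => haφ φ Submodule.mem_top⟩
  refine ⟨G1 ⊓ C, inferInstance, d + 1, ?_⟩
  rw [eq_bot_iff]
  show ⁅itc ⁅G1 ⊓ C, G1 ⊓ C⁆ A d, ⁅G1 ⊓ C, G1 ⊓ C⁆⁆ ≤ ⊥
  rw [← hTC]
  refine Subgroup.commutator_mono (le_trans (itc_mono ?_ le_rfl d) hBT) ?_
  · exact Subgroup.commutator_mono inf_le_left inf_le_left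
  · exact le_trans (comm_le_self _) inf_le_right

theorem malcev_aux (n : ℕ) : ∀ (G : Type) [Group G], PC G → derivedSeries G n = ⊥ →
    ∃ G1 : Subgroup G, G1.FiniteIndex ∧ ∃ s, itc ⁅G1, G1⁆ ⁅G1, G1⁆ s = ⊥ := by
  induction n with
  | zero =>
    intro G _ _ h
    refine ⟨⊤, inferInstance, 0, ?_⟩
    rw [derivedSeries_zero] at h
    show ⁅(⊤ : Subgroup G), ⊤⁆ = ⊥
    rw [h, eq_bot_iff]
    exact comm_le_self _
  | succ n ih =>
    intro G _ hG h
    set A := derivedSeries G n with hA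
    have hAn : A.Normal := inferInstance
    have hc : ∀ a ∈ A, ∀ b ∈ A, a * b = b * a := by
      intro a ha b hb
      have h2 : ⁅a, b⁆ ∈ derivedSeries G (n + 1) := Subgroup.commutator_mem_commutator ha hb
      rw [h, Subgroup.mem_bot] at h2
      exact commutatorElement_eq_one_iff_mul_comm.1 h2
    obtain ⟨G2, h2, r, hr⟩ := abel_step hG A hAn hc
    obtain ⟨G3, h3, s, hs⟩ := ih (G ⧸ A) (hG.surj (QuotientGroup.mk' A)
      (QuotientGroup.mk'_surjective A)) (by
        rw [← map_derivedSeries_eq (QuotientGroup.mk'_surjective A) n, ← hA]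
        rw [Subgroup.map_eq_bot_iff, QuotientGroup.ker_mk'])
    let G4 := G3.comap (QuotientGroup.mk' A)
    have h4 : G4.FiniteIndex := by
      constructor
      rw [Subgroup.index_comap_of_surjective _ (QuotientGroup.mk'_surjective A)]
      exact h3.index_ne_zero
    refine ⟨G4 ⊓ G2, inferInstance, s + r, ?_⟩
    rw [itc_add, eq_bot_iff, ← hr]
    refine itc_mono (Subgroup.commutator_mono inf_le_right inf_le_right) ?_ r
    have h5 : (itc ⁅G4 ⊓ G2, G4 ⊓ G2⁆ ⁅G4 ⊓ G2, G4 ⊓ G2⁆ s).map (QuotientGroup.mk' A) ≤ ⊥ := by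
      rw [itc_map, ← hs, Subgroup.map_commutator]
      have h6 : (G4 ⊓ G2).map (QuotientGroup.mk' A) ≤ G3 :=
        le_trans (Subgroup.map_mono inf_le_left) (Subgroup.map_comap_le _ _)
      exact itc_mono (Subgroup.commutator_mono h6 h6) (Subgroup.commutator_mono h6 h6) s
    rw [le_bot_iff, Subgroup.map_eq_bot_iff, QuotientGroup.ker_mk'] at h5
    exact h5

end Mal

/-- Mal'cev: polycyclic groups are virtually nilpotent-by-abelian -/
theorem malcev {G : Type} [Group G] (h : PC G) :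
    ∃ G1 : Subgroup G, G1.FiniteIndex ∧ G1.Normal ∧ Group.IsNilpotent (commutator G1) := by
  obtain ⟨n, hn⟩ := h.solv.solvable
  obtain ⟨G1, h1, s, hs⟩ := Mal.malcev_aux n G h hn
  refine ⟨G1.normalCore, inferInstance, inferInstance, ?_⟩
  rw [Subgroup.isNilpotent_iff_lowerCentralSeries]
  refine ⟨s, ?_⟩
  have h2 : ((commutator G1.normalCore).lowerCentralSeries s).map G1.normalCore.subtype ≤ ⊥ := by
    rw [Subgroup.map_lowerCentralSeries, ← Mal.itc_self, ← hs]
    have h3 : (commutator G1.normalCore).map G1.normalCore.subtype ≤ ⁅G1, G1⁆ := by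
      rw [commutator_def, Subgroup.map_commutator]
      have h4 : (⊤ : Subgroup G1.normalCore).map G1.normalCore.subtype ≤ G1 := by
        rintro _ ⟨g, _, rfl⟩
        exact G1.normalCore_le g.2
      exact Subgroup.commutator_mono h4 h4
    exact Mal.itc_mono h3 h3 s
  rw [le_bot_iff, Subgroup.map_eq_bot_iff_of_injective _ G1.normalCore.subtype_injective] at h2
  exact h2

end Pool.Agent.Polc
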