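import Pool.Agent.Polc.Defs2
import Pool.Agent.Polc.TB

/-!
Modules STG1 and STG3 of the proof of `MP_9e8505_al`: restriction of configurations to
subgroups of finite index and to submodules, and a fixed vector of an element outside `U`.
-/

set_option autoImplicit false

namespace Pool.Agent.Polc

/-! ### STG1 -/

theorem hl_subgroupOf {G : Type} [Group G] (h : PC G) (U G1 : Subgroup G) (h1 : G1.FiniteIndex) :
    hl (U.subgroupOf G1) = hl U := by
  have e1 : (U.subgroupOf G1 : Subgroup G1) ≃* (U ⊓ G1 : Subgroup G) :=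
    (MulEquiv.subgroupCongr (Subgroup.inf_subgroupOf_right U G1).symm).trans
      (Subgroup.subgroupOfEquivOfLe inf_le_right)
  rw [PC.hl_equiv e1]
  refine h.hl_fi (U ⊓ G1) U inf_le_left ?_
  rw [Subgroup.inf_relIndex_left]
  exact Subgroup.relIndex_ne_zero_trans (K := ⊤) (by simpa using h1.index_ne_zero) (by simp)

section mod
variable {G M : Type} [Group G] [AddCommGroup M] [DistribMulAction G M]

/-- evaluation of polynomials is compatible with equivariant maps -/
theorem stg_aeval {G' M' : Type} [Group G'] [AddCommGroup M'] [DistribMulAction G' M']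
    (f : M' →+ M) (g' : G') (g : G) (hfe : ∀ m : M', f (g' • m) = g • f m) (P : Polynomial ℤ)
    (m : M') : f ((Polynomial.aeval (ac M' g') P : AddMonoid.End M') m) =
      (Polynomial.aeval (ac M g) P : AddMonoid.End M) (f m) := by
  induction P using Polynomial.induction_on' generalizing m with
  | add p q hp hq =>
    rw [map_add, map_add]
    show f ((Polynomial.aeval (ac M' g') p : AddMonoid.End M') m +
        (Polynomial.aeval (ac M' g') q : AddMonoid.End M') m) =
      (Polynomial.aeval (ac M g) p : AddMonoid.End M) (f m) +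
        (Polynomial.aeval (ac M g) q : AddMonoid.End M) (f m)
    rw [map_add, hp, hq]
  | monomial k a =>
    have hpow : ∀ (k : ℕ) (m : M'), f (((ac M' g') ^ k) m) = ((ac M g) ^ k) (f m) := by
      intro k
      induction k with
      | zero => intro m; simp
      | succ k ih =>
        intro m
        rw [pow_succ, pow_succ]
        show f (((ac M' g') ^ k) (g' • m)) = ((ac M g) ^ k) (g • f m)
        rw [ih, hfe]
    rw [Polynomial.aeval_monomial, Polynomial.aeval_monomial]
    rw [eq_intCast, eq_intCast, ← zsmul_eq_mul, ← zsmul_eq_mul]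
    show f (a • (((ac M' g') ^ k) m)) = a • (((ac M g) ^ k) (f m))
    rw [map_zsmul, hpow]

theorem stg_alg {G' M' : Type} [Group G'] [AddCommGroup M'] [DistribMulAction G' M']
    (f : M' →+ M) (hf : Function.Injective f) (g' : G') (g : G)
    (hfe : ∀ m : M', f (g' • m) = g • f m) (c : ℕ) (m : M') (h : Alg c g (f m)) :
    Alg c g' m := by
  obtain ⟨P, hP, hPm⟩ := h
  refine ⟨P, hP, hf ?_⟩
  rw [stg_aeval f g' g hfe, hPm, map_zero]

theorem stg_char (c : ℕ) (h : Char c M) (W : AddSubgroup M) : Char c W := by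
  rcases h with ⟨h0, h⟩ | ⟨hp, h⟩
  · refine Or.inl ⟨h0, fun n m hn hm => Subtype.ext ?_⟩
    exact h n m hn (by simpa using congrArg Subtype.val hm)
  · refine Or.inr ⟨hp, fun m => Subtype.ext ?_⟩
    simpa using h m

end mod

theorem UConf.restrict {n c : ℕ} {G M : Type} [Group G] [AddCommGroup M] [DistribMulAction G M]
    {U : Subgroup G} (uc : UConf n c G M U) (G1 : Subgroup G) (h1 : G1.FiniteIndex)
    (W : AddSubgroup M) (hW : W ≠ ⊥) (hs : Stb G1 W) :
    ∃ (_ : DistribMulAction G1 W), (∀ (g : G1) (w : W), ((g • w : W) : M) = (g : G) • (w : M)) ∧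
      UConf n c G1 W (U.subgroupOf G1) := by
  obtain ⟨act, hact, tb⟩ := uc.tb.restrict G1 h1 W hW hs
  refine ⟨act, hact, tb, stg_char c uc.ch W, ?_, ?_⟩
  · intro u hu g
    exact Subtype.ext (uc.cen u (Subgroup.mem_subgroupOf.1 hu) g)
  · intro u hu m
    exact stg_alg W.subtype Subtype.val_injective u (u : G) (fun w => hact u w) c m
      (uc.alg u (Subgroup.mem_subgroupOf.1 hu) m)

/-- restriction of the module only -/
theorem UConf.restrictM {n c : ℕ} {G M : Type} [Group G] [AddCommGroup M] [DistribMulAction G M]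
    {U : Subgroup G} (uc : UConf n c G M U) (W : AddSubgroup M) (hW : W ≠ ⊥)
    (hs : Stb (⊤ : Subgroup G) W) :
    ∃ (_ : DistribMulAction G W), (∀ (g : G) (w : W), ((g • w : W) : M) = (g : G) • (w : M)) ∧
      UConf n c G W U := by
  obtain ⟨act, hact, tb⟩ := uc.tb.restrict ⊤ inferInstance W hW hs
  letI act' : DistribMulAction G W := DistribMulAction.compHom W
    (Subgroup.topEquiv.symm : G ≃* (⊤ : Subgroup G)).toMonoidHom
  have hc : ∀ (g : G) (w : W), ((g • w : W) : M) = (g : G) • (w : M) := fun g w =>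
    hact ⟨g, Subgroup.mem_top g⟩ w
  have htop : ∀ (g : (⊤ : Subgroup G)) (w : W), g • w = (g : G) • w := fun g w => rfl
  refine ⟨act', hc, ?_, stg_char c uc.ch W, uc.cen, ?_⟩
  · refine ⟨uc.tb.pc, uc.tb.hl, uc.tb.tf, ?_, tb.nz, ?_⟩
    · obtain ⟨F, hF, hWF⟩ := tb.fg
      refine ⟨F, hF, ?_⟩
      rw [hWF]
      unfold gspan
      congr 1
      ext m
      constructor
      · rintro ⟨g, -, f, hf, rfl⟩
        exact ⟨(g : G), Subgroup.mem_top _, f, hf, rfl⟩
      · rintro ⟨g, -, f, hf, rfl⟩
        exact ⟨⟨g, Subgroup.mem_top _⟩, Subgroup.mem_top _, f, hf, rfl⟩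
    · intro G2 h2 W' hW' hs' hgood
      refine uc.tb.bad G2 h2 (W'.map W.subtype) ?_ ?_ ?_
      · intro hb
        rw [AddSubgroup.map_eq_bot_iff_of_injective _ Subtype.val_injective] at hb
        exact hW' hb
      · rintro k hk v ⟨w, hw, rfl⟩
        exact ⟨k • w, hs' k hk w hw, hc k w⟩
      · refine tb_good_up (MonoidHom.id G) W.subtype (fun g m => hc g m) ?_ hgood ?_ ?_
        · intro m
          rw [AddSubgroup.mem_bot, AddSubgroup.mem_bot]
          exact ⟨fun h => Subtype.ext h, fun h => by rw [h]; rfl⟩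
        · intro x hx
          exact ⟨x, hx, rfl⟩
        · rintro x ⟨y, hy, rfl⟩
          exact ⟨y, hy, rfl⟩
  · intro u hu m
    exact stg_alg W.subtype Subtype.val_injective u u (fun w => hc u w) c m (uc.alg u hu m)

/-! ### STG3 -/

theorem exists_xw {n c : ℕ} {G M : Type} [Group G] [AddCommGroup M] [DistribMulAction G M]
    (ih : IH n) {U : Subgroup G} (uc : UConf n c G M U) :
    ∃ (x : G) (w : M), x ∉ U ∧ w ≠ 0 ∧ x • w = w := by
  haveI := uc.tb.nz
  have hbad := uc.tb.bad ⊤ inferInstance ⊤ top_ne_bot (fun h _ v _ => AddSubgroup.mem_top _)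
  by_contra hcon
  push Not at hcon
  refine hbad ⟨1, 1, one_pos, fun x _ m _ k r hk hr => ?_⟩
  by_contra hx
  rw [pow_one, pow_one, AddSubgroup.mem_bot] at hx
  -- minimal exponent
  have hex : ∃ r : ℕ, ((ac M (x ^ k) - 1) ^ r) m = 0 := ⟨r, by simpa using hr⟩
  classical
  have hr0 := Nat.find_spec hex
  set r0 := Nat.find hex with hr0def
  cases hrr : r0 with
  | zero =>
    rw [hrr] at hr0
    have hm : m = 0 := by simpa using hr0
    exact hx (by rw [hm, map_zero])
  | succ r1 =>
    rw [hrr] at hr0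
    have hw : ((ac M (x ^ k) - 1) ^ r1) m ≠ 0 := Nat.find_min hex (m := r1) (by omega)
    set w := ((ac M (x ^ k) - 1) ^ r1) m with hwdef
    have hfix : x ^ k • w = w := by
      rw [pow_succ'] at hr0
      have h2 : (ac M (x ^ k) - 1) w = 0 := hr0
      have h3 : x ^ k • w - w = 0 := h2
      exact sub_eq_zero.1 h3
    have hxU : x ^ k ∈ U := by
      by_contra hxU
      exact hcon (x ^ k) w hxU hw hfix
    have hcen := uc.cen _ hxU
    have hne : gspan (⊤ : Subgroup G) {w} ≠ ⊥ := by
      intro hb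
      have hwm : w ∈ gspan (⊤ : Subgroup G) {w} := tb_sub_gspan ⊤ _ rfl
      rw [hb] at hwm
      exact hw (AddSubgroup.mem_bot.1 hwm)
    have htriv : ∀ v ∈ gspan (⊤ : Subgroup G) {w}, x ^ k • v = v := by
      intro v hv
      unfold gspan at hv
      induction hv using AddSubgroup.closure_induction with
      | mem y hy =>
        obtain ⟨g, -, f, hf, rfl⟩ := hy
        rw [Set.mem_singleton_iff] at hf
        rw [hf, smul_smul, ← hcen g, ← smul_smul, hfix]
      | zero => exact smul_zero _
      | add a b _ _ ha hb => rw [smul_add, ha, hb]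
      | neg a _ ha => rw [smul_neg, ha]
    have h1 := uc.tb.faithful ih ⊤ inferInstance _ hne (tb_gspan_stb ⊤ _) (x ^ k)
      (Subgroup.mem_top _) htriv
    have h2 := uc.tb.tf x k hk h1
    apply hx
    rw [h2, map_one, sub_self]
    rfl

end Pool.Agent.Polc
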