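import Pool.Agent.Polc.NConfDef
import Pool.Agent.Polc.HLM
import Pool.Agent.Polc.MAL
import Pool.Agent.Polc.SECUCS
import Pool.Agent.Polc.STG1STG3

/-!
# Choice of `N` (module STG4 for `MP_9e8505_al`)
-/

set_option autoImplicit false

namespace Pool.Agent.Polc

/-- the join of a nilpotent subgroup and a central subgroup is nilpotent -/
theorem nilp_sup_central {G : Type} [Group G] (K U : Subgroup G) (hK : Group.IsNilpotent K)
    (hU : U.Normal) (hc : ∀ u ∈ U, ∀ g : G, g * u = u * g) :
    Group.IsNilpotent (K ⊔ U : Subgroup G) := by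
  let _ : CommGroup U :=
    { (inferInstance : Group U) with
      mul_comm := fun a b => Subtype.ext (hc b b.2 a) }
  have : Group.IsNilpotent U := CommGroup.isNilpotent
  have := hK
  have hcomm : ∀ (a : K) (u : U),
      Commute (Subgroup.inclusion (le_sup_left : K ≤ K ⊔ U) a)
        (Subgroup.inclusion (le_sup_right : U ≤ K ⊔ U) u) := by
    intro a u
    exact Subtype.ext (hc u u.2 a)
  refine Group.nilpotent_of_surjective (MonoidHom.noncommCoprod
    (Subgroup.inclusion (le_sup_left : K ≤ K ⊔ U))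
    (Subgroup.inclusion (le_sup_right : U ≤ K ⊔ U)) hcomm) ?_
  rintro ⟨x, hx⟩
  obtain ⟨a, ha, u, hu, rfl⟩ := Subgroup.mem_sup_of_normal_right.1 hx
  exact ⟨(⟨a, ha⟩, ⟨u, hu⟩), rfl⟩

theorem exists_nconf {n c k : ℕ} {G M : Type} [Group G] [AddCommGroup M] [DistribMulAction G M]
    {U : Subgroup G} (uc : UConf n c G M U) (hk : hl U = k)
    (utor : ∀ (g : G) (k : ℕ), 0 < k → g ^ k ∈ U → g ∈ U) :
    ∃ (G' M' : Type) (_ : Group G') (_ : AddCommGroup M') (_ : DistribMulAction G' M')
      (U' N' : Subgroup G') (_ : U'.Normal) (_ : N'.Normal), NConf n c k G' M' U' N' := by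
  obtain ⟨G1, hfi, hn, hnil⟩ := malcev uc.tb.pc
  have := uc.tb.nz
  have hW : (⊤ : AddSubgroup M) ≠ ⊥ := top_ne_bot
  have hs : Stb G1 (⊤ : AddSubgroup M) := fun _ _ _ _ => AddSubgroup.mem_top _
  obtain ⟨act, hact, uc1⟩ := uc.restrict G1 hfi ⊤ hW hs
  have hUn : (U.subgroupOf G1).Normal :=
    ⟨fun u hu g => by
      have h1 : g * u * g⁻¹ = u := by rw [uc1.cen u hu g]; group
      rw [h1]; exact hu⟩
  have hNn : (commutator G1 ⊔ U.subgroupOf G1).Normal := by
    have := hUn
    exact Subgroup.sup_normal _ _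
  have hUN : U.subgroupOf G1 ≤ commutator G1 ⊔ U.subgroupOf G1 := le_sup_right
  refine ⟨G1, (⊤ : AddSubgroup M), inferInstance, inferInstance, act, U.subgroupOf G1,
    commutator G1 ⊔ U.subgroupOf G1, hUn, hNn, ?_⟩
  exact
    { uc := uc1
      hk := by rw [hl_subgroupOf uc.tb.pc U G1 hfi, hk]
      utor := fun g k hk0 hg => by
        rw [Subgroup.mem_subgroupOf] at hg ⊢
        exact utor g k hk0 (by simpa using hg)
      UN := hUN
      ab := fun a b => by
        refine (le_sup_left : commutator G1 ≤ _) ?_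
        exact Subgroup.commutator_mem_commutator (Subgroup.mem_top a) (Subgroup.mem_top b)
      nil := nilp_ucs _ _ hUN (nilp_sup_central _ _ hnil hUn uc1.cen) }

/-- `ucs` restricted to a subgroup containing `N` -/
theorem ucs_subgroupOf {G : Type} [Group G] (N U : Subgroup G) [U.Normal] [N.Normal]
    (G1 : Subgroup G) (hN : N ≤ G1) (j : ℕ) :
    ucs (N.subgroupOf G1) (U.subgroupOf G1) j = (ucs N U j).subgroupOf G1 := by
  induction j with
  | zero => rw [ucs_zero, ucs_zero]
  | succ j ih =>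
    ext x
    rw [mem_ucs_succ, Subgroup.mem_subgroupOf, Subgroup.mem_subgroupOf, mem_ucs_succ, ih]
    refine and_congr_right fun hx => ⟨fun h g hg => ?_, fun h g hg => ?_⟩
    · have h1 := h ⟨g, hN hg⟩ (by rw [Subgroup.mem_subgroupOf]; exact hg)
      rw [Subgroup.mem_subgroupOf] at h1
      exact h1
    · rw [Subgroup.mem_subgroupOf] at hg ⊢
      exact h g hg

/-- restriction to a finite index subgroup containing `N` -/
theorem NConf.restrict {n c k : ℕ} {G M : Type} [Group G] [AddCommGroup M] [DistribMulAction G M]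
    {U N : Subgroup G} [U.Normal] [N.Normal] (nc : NConf n c k G M U N) (G1 : Subgroup G)
    (h1 : G1.FiniteIndex) (hN : N ≤ G1) (W : AddSubgroup M) (hW : W ≠ ⊥) (hs : Stb G1 W) :
    ∃ (_ : DistribMulAction G1 W), (∀ (g : G1) (w : W), ((g • w : W) : M) = (g : G) • (w : M)) ∧
      NConf n c k G1 W (U.subgroupOf G1) (N.subgroupOf G1) ∧
      hl (N.subgroupOf G1) = hl N ∧
      ∀ j, ucs (N.subgroupOf G1) (U.subgroupOf G1) j = (ucs N U j).subgroupOf G1 := by
  obtain ⟨act, hact, uc1⟩ := nc.uc.restrict G1 h1 W hW hs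
  refine ⟨act, hact, ?_, hl_subgroupOf nc.uc.tb.pc N G1 h1, ucs_subgroupOf N U G1 hN⟩
  exact
    { uc := uc1
      hk := by rw [hl_subgroupOf nc.uc.tb.pc U G1 h1, nc.hk]
      utor := fun g k hk0 hg => by
        rw [Subgroup.mem_subgroupOf] at hg ⊢
        exact nc.utor g k hk0 (by simpa using hg)
      UN := fun x hx => by
        rw [Subgroup.mem_subgroupOf] at hx ⊢
        exact nc.UN hx
      ab := fun a b => by
        rw [Subgroup.mem_subgroupOf]
        exact nc.ab a b
      nil := by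
        obtain ⟨j, hj⟩ := nc.nil
        exact ⟨j, by rw [ucs_subgroupOf N U G1 hN, hj]⟩ }

end Pool.Agent.Polc
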