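import Pool.Agent.Polc.NConfDef
import Pool.Agent.Polc.HLM
import Pool.Agent.Polc.SECUCS

/-!
Module STG5 for `MP_9e8505_al`: if `N` has maximal Hirsch length then either a power of `x`
is in `N`, or some power of `x` is in case 2.
-/

set_option autoImplicit false

namespace Pool.Agent.Polc

namespace STG5

variable {G : Type} [Group G] (N U : Subgroup G) [U.Normal] [N.Normal]

theorem cm_mul_left (a b v : G) : cm (a * b) v = a * cm b v * a⁻¹ * cm a v := by
  simp only [cm]; group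

theorem cm_mul_right (a v w : G) : cm a (v * w) = cm a v * (v * cm a w * v⁻¹) := by
  simp only [cm]; group

theorem cm_inv_right (a v : G) : cm a v⁻¹ = v⁻¹ * (cm a v)⁻¹ * v⁻¹⁻¹ := by
  simp only [cm]; group

/-- powers -/
theorem cm_pow_mem (j : ℕ) (y v : G) (h : cm y v ∈ ucs N U j) (l : ℕ) :
    cm (y ^ l) v ∈ ucs N U j := by
  induction l with
  | zero => simp [cm]
  | succ l ih =>
    rw [pow_succ, cm_mul_left]
    exact Subgroup.mul_mem _ ((ucs_normal N U j).conj_mem _ h _) ih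

/-- elements of `ucs (j+1)` whose commutator with a power of `x` is in `ucs j` -/
def Kinf (x : G) (j : ℕ) : Subgroup G where
  carrier := {v | v ∈ ucs N U (j + 1) ∧ ∃ k, 0 < k ∧ cm (x ^ k) v ∈ ucs N U j}
  one_mem' := ⟨Subgroup.one_mem _, 1, one_pos, by simp [cm]⟩
  mul_mem' := by
    rintro a b ⟨ha, k, hk, ha'⟩ ⟨hb, l, hl, hb'⟩
    refine ⟨Subgroup.mul_mem _ ha hb, k * l, Nat.mul_pos hk hl, ?_⟩
    have h1 : cm (x ^ (k * l)) a ∈ ucs N U j := by
      rw [pow_mul]; exact cm_pow_mem N U j _ _ ha' l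
    have h2 : cm (x ^ (k * l)) b ∈ ucs N U j := by
      rw [mul_comm, pow_mul]; exact cm_pow_mem N U j _ _ hb' k
    rw [cm_mul_right]
    exact Subgroup.mul_mem _ h1 ((ucs_normal N U j).conj_mem _ h2 _)
  inv_mem' := by
    rintro a ⟨ha, k, hk, ha'⟩
    refine ⟨Subgroup.inv_mem _ ha, k, hk, ?_⟩
    rw [cm_inv_right]
    exact (ucs_normal N U j).conj_mem _ (Subgroup.inv_mem _ ha') _

/-- elements of `ucs (j+1)` whose commutator with `y` is in `ucs j` -/
def K1 (y : G) (j : ℕ) : Subgroup G where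
  carrier := {v | v ∈ ucs N U (j + 1) ∧ cm y v ∈ ucs N U j}
  one_mem' := ⟨Subgroup.one_mem _, by simp [cm]⟩
  mul_mem' := by
    rintro a b ⟨ha, ha'⟩ ⟨hb, hb'⟩
    refine ⟨Subgroup.mul_mem _ ha hb, ?_⟩
    rw [cm_mul_right]
    exact Subgroup.mul_mem _ ha' ((ucs_normal N U j).conj_mem _ hb' _)
  inv_mem' := by
    rintro a ⟨ha, ha'⟩
    refine ⟨Subgroup.inv_mem _ ha, ?_⟩
    rw [cm_inv_right]
    exact (ucs_normal N U j).conj_mem _ (Subgroup.inv_mem _ ha') _

/-- a uniform exponent -/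
theorem exists_unif (hfg : ∀ H : Subgroup G, H.FG) (x : G) (j : ℕ) :
    ∃ m, 0 < m ∧ ∀ v ∈ ucs N U (j + 1), ∀ k, 0 < k → cm (x ^ k) v ∈ ucs N U j →
      cm (x ^ m) v ∈ ucs N U j := by
  classical
  obtain ⟨S, hS⟩ := hfg (Kinf N U x j)
  have hmem : ∀ s ∈ S, ∃ k, 0 < k ∧ cm (x ^ k) s ∈ ucs N U j := by
    intro s hs
    have : s ∈ Kinf N U x j := by rw [← hS]; exact Subgroup.subset_closure hs
    exact this.2
  choose! f hf0 hf1 using hmem
  refine ⟨∏ s ∈ S, f s, Finset.prod_pos hf0, ?_⟩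
  have hle : Kinf N U x j ≤ K1 N U (x ^ (∏ s ∈ S, f s)) j := by
    rw [← hS, Subgroup.closure_le]
    intro s hs
    have hs' : s ∈ Kinf N U x j := by rw [← hS]; exact Subgroup.subset_closure hs
    refine ⟨hs'.1, ?_⟩
    obtain ⟨l, hl⟩ := Finset.dvd_prod_of_mem f (Finset.mem_coe.1 hs)
    rw [hl, pow_mul]
    exact cm_pow_mem N U j _ _ (hf1 s hs) l
  intro v hv k hk hvk
  exact (hle ⟨hv, k, hk, hvk⟩).2

end STG5

open STG5 in
/-- `N` of maximal Hirsch length: either a power of `x` is in `N`, or case 2 for a power of `x` -/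
theorem cases_x {n c k : ℕ} {G M : Type} [Group G] [AddCommGroup M] [DistribMulAction G M]
    {U N : Subgroup G} [U.Normal] [N.Normal] (nc : NConf n c k G M U N)
    (hmax : ∀ (N' : Subgroup G) (_ : N'.Normal), NConf n c k G M U N' → hl N' ≤ hl N)
    (x : G) (hx : x ∉ U) :
    ∃ m, 0 < m ∧ ((∃ j, x ^ m ∈ ucs N U (j + 1) ∧ x ^ m ∉ ucs N U j) ∨
      ∃ j, Case2 U N (x ^ m) j) := by
  classical
  obtain ⟨J, hJ⟩ := nc.nil
  by_cases hA : ∃ m, 0 < m ∧ x ^ m ∈ N
  · obtain ⟨m, hm, hmN⟩ := hA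
    refine ⟨m, hm, Or.inl ?_⟩
    have hex : ∃ j, x ^ m ∈ ucs N U j := ⟨J, by rw [hJ]; exact hmN⟩
    have h0 : Nat.find hex ≠ 0 := by
      intro h0
      have h1 := Nat.find_spec hex
      rw [h0, ucs_zero] at h1
      exact hx (nc.utor x m hm h1)
    obtain ⟨i, hi⟩ := Nat.exists_eq_succ_of_ne_zero h0
    refine ⟨i, ?_, ?_⟩
    · have h1 := Nat.find_spec hex
      rw [hi] at h1
      exact h1
    · exact Nat.find_min hex (by omega)
  · push Not at hA
    have hclaim : ∃ j, ∀ k, 0 < k → ∃ v ∈ ucs N U (j + 1), cm (x ^ k) v ∉ ucs N U j := by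
      by_contra hcon
      push Not at hcon
      choose f hf0 hf1 using hcon
      set m := ∏ j ∈ Finset.range J, f j with hm
      have hm0 : 0 < m := Finset.prod_pos fun j _ => hf0 j
      have hy : ∀ j, ∀ v ∈ ucs N U (j + 1), cm (x ^ m) v ∈ ucs N U j := by
        intro j v hv
        by_cases hj : j < J
        · obtain ⟨l, hl⟩ := Finset.dvd_prod_of_mem f (Finset.mem_range.2 hj)
          rw [hm, hl, pow_mul]
          exact cm_pow_mem N U j _ _ (hf1 j v hv) l
        · have h1 : ucs N U J ≤ ucs N U j := ucs_mono N U nc.UN J j (not_lt.1 hj)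
          rw [hJ] at h1
          exact h1 (nc.ab _ _)
      have hnil := ucs_adjoin N U nc.UN nc.uc.cen nc.nil (x ^ m) hy nc.ab _ rfl
      have hNN' : N ≤ N ⊔ Subgroup.zpowers (x ^ m) := le_sup_left
      have hnor : (N ⊔ Subgroup.zpowers (x ^ m)).Normal := by
        refine ⟨fun a ha g => ?_⟩
        have h1 : g * a * g⁻¹ = cm g a * a := by simp only [cm]; group
        rw [h1]
        exact Subgroup.mul_mem _ (hNN' (nc.ab g a)) ha
      have hconf : NConf n c k G M U (N ⊔ Subgroup.zpowers (x ^ m)) :=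
        { uc := nc.uc
          hk := nc.hk
          utor := nc.utor
          UN := nc.UN.trans hNN'
          ab := fun a b => hNN' (nc.ab a b)
          nil := nilp_ucs _ U (nc.UN.trans hNN') hnil }
      have h1 := hmax _ hnor hconf
      have h2 : N.relIndex (N ⊔ Subgroup.zpowers (x ^ m)) = 0 := by
        by_contra hne
        obtain ⟨l, hl, -, hl2⟩ := Subgroup.exists_pow_mem_of_relIndex_ne_zero hne
          (a := x ^ m) (Subgroup.mem_sup_right (Subgroup.mem_zpowers _))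
        rw [← pow_mul] at hl2
        exact hA (m * l) (Nat.mul_pos hm0 hl) hl2.1
      have h3 := nc.uc.tb.pc.hl_lt N _ hNN' h2
      omega
    obtain ⟨j, hj⟩ := hclaim
    obtain ⟨m, hm, hmu⟩ := exists_unif N U nc.uc.tb.pc.fg x j
    refine ⟨m, hm, Or.inr ⟨j, hj m hm, ?_⟩⟩
    intro k hk v hv hkv
    rw [← pow_mul] at hkv
    exact hmu v hv (m * k) (Nat.mul_pos hm hk) hkv

end Pool.Agent.Polc
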