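import Pool.Agent.Polc.STG2
import Pool.Agent.Polc.STG4
import Pool.Agent.Polc.STG5

/-!
Module STG of the proof for `MP_9e8505_al`: existence of the final stage.
-/

set_option autoImplicit false

namespace Pool.Agent.Polc

namespace STG

theorem exists_max (P : ℕ → Prop) (b : ℕ) (hne : ∃ a, P a) (hb : ∀ a, P a → a ≤ b) :
    ∃ a, P a ∧ ∀ a', P a' → a' ≤ a := by
  classical
  obtain ⟨a0, ha0⟩ := hne
  exact ⟨Nat.findGreatest P b, Nat.findGreatest_spec (hb a0 ha0) ha0,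
    fun a' ha' => Nat.le_findGreatest (hb a' ha') ha'⟩

theorem exists_min (P : ℕ → Prop) (hne : ∃ a, P a) :
    ∃ a, P a ∧ ∀ a', P a' → a ≤ a' := by
  classical
  exact ⟨Nat.find hne, Nat.find_spec hne, fun a' ha' => Nat.find_min' hne ha'⟩

/-- `a` is the Hirsch length of some candidate `N` -/
def PN (n c k a : ℕ) : Prop :=
  ∃ (G M : Type) (_ : Group G) (_ : AddCommGroup M) (_ : DistribMulAction G M)
      (U N : Subgroup G) (_ : U.Normal) (_ : N.Normal), NConf n c k G M U N ∧ hl N = a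

/-- data for case 1 -/
structure C1 (n c k a : ℕ) (G M : Type) [Group G] [AddCommGroup M] [DistribMulAction G M]
    (U N : Subgroup G) [U.Normal] [N.Normal] (x : G) (w : M) (j : ℕ) : Prop where
  nc : NConf n c k G M U N
  ha : hl N = a
  xw : x • w = w
  wne : w ≠ 0
  mem : x ∈ ucs N U (j + 1)
  nmem : x ∉ ucs N U j

/-- `b` is the Hirsch length of `E1` in some case 1 data -/
def P1 (n c k a b : ℕ) : Prop :=
  ∃ (G M : Type) (_ : Group G) (_ : AddCommGroup M) (_ : DistribMulAction G M)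
      (U N : Subgroup G) (_ : U.Normal) (_ : N.Normal) (x : G) (w : M) (j : ℕ),
      C1 n c k a G M U N x w j ∧ hl (E1 U N x j) = b

section
variable {G M : Type} [Group G] [AddCommGroup M] [DistribMulAction G M]

theorem gstb (H : Subgroup G) (F : Set M) : Stb H (gspan H F) := by
  intro h hh v hv
  refine AddSubgroup.closure_induction (p := fun v _ => h • v ∈ gspan H F) ?_ ?_ ?_ ?_ hv
  · rintro _ ⟨g, hg, f, hf, rfl⟩
    exact AddSubgroup.subset_closure ⟨h * g, H.mul_mem hh hg, f, hf, (mul_smul h g f).symm⟩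
  · rw [smul_zero]; exact AddSubgroup.zero_mem _
  · intro a b _ _ ha hb
    rw [smul_add]; exact AddSubgroup.add_mem _ ha hb
  · intro a _ ha
    rw [smul_neg]; exact AddSubgroup.neg_mem _ ha

theorem gmem (H : Subgroup G) (w : M) : w ∈ gspan H {w} :=
  AddSubgroup.subset_closure ⟨1, H.one_mem, w, rfl, (one_smul G w).symm⟩

theorem gne (H : Subgroup G) (w : M) (hw : w ≠ 0) : gspan H {w} ≠ ⊥ := by
  intro h
  have := gmem H w
  rw [h] at this
  exact hw (AddSubgroup.mem_bot.1 this)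

theorem ggen (w : M) (inst : DistribMulAction G (gspan (⊤ : Subgroup G) {w}))
    (hact : ∀ (g : G) (v : gspan (⊤ : Subgroup G) {w}),
      ((g • v : gspan (⊤ : Subgroup G) {w}) : M) = g • (v : M)) :
    gspan (⊤ : Subgroup G) {(⟨w, gmem ⊤ w⟩ : gspan (⊤ : Subgroup G) {w})} = ⊤ := by
  rw [eq_top_iff]
  rintro ⟨v, hv⟩ _
  have key : ∀ v : M, v ∈ gspan (⊤ : Subgroup G) {w} → ∀ hv : v ∈ gspan (⊤ : Subgroup G) {w},
      (⟨v, hv⟩ : gspan (⊤ : Subgroup G) {w}) ∈
        gspan (⊤ : Subgroup G) {(⟨w, gmem ⊤ w⟩ : gspan (⊤ : Subgroup G) {w})} := by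
    intro v hv
    refine AddSubgroup.closure_induction (p := fun v _ => ∀ hv : v ∈ gspan (⊤ : Subgroup G) {w},
      (⟨v, hv⟩ : gspan (⊤ : Subgroup G) {w}) ∈
        gspan (⊤ : Subgroup G) {(⟨w, gmem ⊤ w⟩ : gspan (⊤ : Subgroup G) {w})}) ?_ ?_ ?_ ?_ hv
    · rintro _ ⟨g, hg, f, hf, rfl⟩ hv
      rw [Set.mem_singleton_iff] at hf
      subst hf
      refine AddSubgroup.subset_closure ⟨g, hg, _, rfl, ?_⟩
      apply Subtype.ext
      rw [hact]
    · intro hv
      exact AddSubgroup.zero_mem _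
    · intro a b ha hb iha ihb hv
      have := AddSubgroup.add_mem _ (iha ha) (ihb hb)
      exact this
    · intro a ha iha hv
      exact AddSubgroup.neg_mem _ (iha ha)
  exact key v hv hv

end

theorem stage_of {n c k : ℕ} {G M : Type} [iG : Group G] [AddCommGroup M] [DistribMulAction G M]
    {U N : Subgroup G} [iU : U.Normal] [iN : N.Normal] (nc : NConf n c k G M U N)
    (umax : UMax n c k) (x : G) (w : M) (hx : x ∉ U) (hw : w ≠ 0) (hxw : x • w = w)
    (hj : ∃ j, Case1 U N x j ∨ Case2 U N x j) :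
    ∃ (c : ℕ) (G M : Type) (_ : Group G) (_ : AddCommGroup M) (_ : DistribMulAction G M)
      (U N : Subgroup G) (_ : U.Normal) (_ : N.Normal) (x : G) (w : M),
      Stage n c G M U N x w ∧ ∃ j, Case1 U N x j ∨ Case2 U N x j := by
  obtain ⟨inst, hact, uc⟩ := nc.uc.restrictM _ (gne (⊤ : Subgroup G) w hw) (gstb _ _)
  refine ⟨c, G, gspan (⊤ : Subgroup G) {w}, iG, inferInstance, inst, U, N, iU, iN, x,
    ⟨w, gmem ⊤ w⟩, ?_, hj⟩
  exact
    { uc := uc
      umax := by rw [nc.hk]; exact umax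
      utor := nc.utor
      UN := nc.UN
      ab := nc.ab
      nil := nc.nil
      xw := by
        apply Subtype.ext
        rw [hact]
        exact hxw
      wne := fun h => hw (congrArg Subtype.val h)
      gen := ggen w inst hact
      xU := hx }

/-- minimality of `hl E1` gives the last condition of case 1 -/
theorem min_of {n c k a : ℕ} {G M : Type} [iG : Group G] [iM : AddCommGroup M]
    [iA : DistribMulAction G M] {U N : Subgroup G} [iU : U.Normal] [iN : N.Normal] {x : G} {w : M}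
    {j : ℕ} (C : C1 n c k a G M U N x w j) (hmin : ∀ b, P1 n c k a b → hl (E1 U N x j) ≤ b)
    (G2 : Subgroup G) (h2 : G2.FiniteIndex) : ∃ k, 0 < k ∧ ∀ γ : G,
      (γ * x * γ⁻¹) ^ k ∈ Subgroup.closure {a | ∃ δ ∈ G2, a = δ * x * δ⁻¹} ⊔ ucs N U j := by
  have hxN : x ∈ N := ucs_le N U C.nc.UN _ C.mem
  set G1 : Subgroup G := G2 ⊔ N with hG1
  have h1 : G1.FiniteIndex := Subgroup.finiteIndex_of_le (le_sup_left : G2 ≤ G1)
  have hN1 : N ≤ G1 := le_sup_right
  obtain ⟨inst, hact, nc1, hhl, hucs⟩ := C.nc.restrict G1 h1 hN1 (gspan G1 {w})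
    (gne G1 w C.wne) (gstb _ _)
  set x1 : G1 := ⟨x, hN1 hxN⟩ with hx1
  have C' : C1 n c k a G1 (gspan G1 {w}) (U.subgroupOf G1) (N.subgroupOf G1) x1
      ⟨w, gmem G1 w⟩ j :=
    { nc := nc1
      ha := hhl.trans C.ha
      xw := by
        apply Subtype.ext
        rw [hact]
        exact C.xw
      wne := fun h => C.wne (congrArg Subtype.val h)
      mem := by
        rw [hucs, Subgroup.mem_subgroupOf]
        exact C.mem
      nmem := by
        rw [hucs, Subgroup.mem_subgroupOf]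
        exact C.nmem }
  have hb := hmin _ ⟨G1, gspan G1 {w}, inferInstance, inferInstance, inst, _, _, inferInstance,
    inferInstance, x1, _, j, C', rfl⟩
  -- the image of the new `E1` in `G`
  set F : Subgroup G := (E1 (U.subgroupOf G1) (N.subgroupOf G1) x1 j).map G1.subtype with hF
  have hFhl : hl (E1 (U.subgroupOf G1) (N.subgroupOf G1) x1 j) = hl F :=
    PC.hl_equiv (Subgroup.equivMapOfInjective _ G1.subtype (Subgroup.subtype_injective G1))
  set F2 : Subgroup G := Subgroup.closure {a | ∃ δ ∈ G2, a = δ * x * δ⁻¹} ⊔ ucs N U j with hF2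
  have hnor : (ucs N U j).Normal := ucs_normal N U j
  -- `F ≤ F2`
  have hFF2 : F ≤ F2 := by
    rw [hF, Subgroup.map_le_iff_le_comap]
    unfold E1
    refine sup_le ?_ ?_
    · rw [Subgroup.closure_le]
      rintro _ ⟨δ, rfl⟩
      obtain ⟨δ, hδ⟩ := δ
      have hδ' : δ ∈ G2 ⊔ N := hδ
      rw [← SetLike.mem_coe, Subgroup.mul_normal] at hδ'
      obtain ⟨d, hd, ν, hν, rfl⟩ := Set.mem_mul.1 hδ'
      show (d * ν) * x * (d * ν)⁻¹ ∈ F2
      have e1 : (d * ν) * x * (d * ν)⁻¹ = (d * x * d⁻¹) * (d * cm x⁻¹ ν * d⁻¹) := by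
        simp only [cm]; group
      rw [e1]
      refine Subgroup.mul_mem _ (Subgroup.mem_sup_left (Subgroup.subset_closure ⟨d, hd, rfl⟩))
        (Subgroup.mem_sup_right (hnor.conj_mem _ ?_ d))
      exact ((mem_ucs_succ N U j x⁻¹).1 (Subgroup.inv_mem _ C.mem)).2 ν hν
    · rw [hucs]
      intro y hy
      exact Subgroup.mem_sup_right (Subgroup.mem_subgroupOf.1 hy)
  -- `F ≤ E1`
  have hFE : F ≤ E1 U N x j := by
    rw [hF, Subgroup.map_le_iff_le_comap]
    unfold E1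
    refine sup_le ?_ ?_
    · rw [Subgroup.closure_le]
      rintro _ ⟨δ, rfl⟩
      exact Subgroup.mem_sup_left (Subgroup.subset_closure ⟨(δ : G), rfl⟩)
    · rw [hucs]
      intro y hy
      exact Subgroup.mem_sup_right (Subgroup.mem_subgroupOf.1 hy)
  have hrel : F.relIndex (E1 U N x j) ≠ 0 := by
    intro h0
    have := PC.hl_lt C.nc.uc.tb.pc F (E1 U N x j) hFE h0
    omega
  refine ⟨(F.relIndex (E1 U N x j)).factorial, Nat.factorial_pos _, fun γ => hFF2 ?_⟩
  have hmem : γ * x * γ⁻¹ ∈ E1 U N x j :=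
    Subgroup.mem_sup_left (Subgroup.subset_closure ⟨γ, rfl⟩)
  exact (Subgroup.pow_mem_of_relIndex_ne_zero_of_dvd hrel hmem
    (fun m hm hm' => Nat.dvd_factorial hm hm')).1

end STG

open STG in
theorem exists_stage {n : ℕ} (ih : IH n) (h : ¬ IH (n + 1)) :
    ∃ (c : ℕ) (G M : Type) (_ : Group G) (_ : AddCommGroup M) (_ : DistribMulAction G M)
      (U N : Subgroup G) (_ : U.Normal) (_ : N.Normal) (x : G) (w : M),
      Stage n c G M U N x w ∧ ∃ j, Case1 U N x j ∨ Case2 U N x j := by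
  obtain ⟨c, k, umax, G0, M0, iG0, iM0, iA0, U0, uc0, hk0, utor0⟩ := exists_uconf ih h
  obtain ⟨G1, M1, iG1, iM1, iA1, U1, N1, iU1, iN1, nc1⟩ := exists_nconf uc0 hk0 utor0
  -- maximal Hirsch length of `N`
  obtain ⟨a, hPa, hamax⟩ := exists_max (PN n c k) (n + 1)
    ⟨_, G1, M1, iG1, iM1, iA1, U1, N1, iU1, iN1, nc1, rfl⟩ (by
      rintro a ⟨G, M, iG, iM, iA, U, N, iU, iN, nc, rfl⟩
      exact hl_le (nc.uc.tb.hl.sub N))
  obtain ⟨G, M, iG, iM, iA, U, N, iU, iN, nc, hNa⟩ := hPa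
  obtain ⟨x, w, hxU, hw, hxw⟩ := exists_xw ih nc.uc
  obtain ⟨m, hm, hcase⟩ := cases_x nc (by
    intro N' iN' nc'
    rw [hNa]
    exact hamax _ ⟨G, M, iG, iM, iA, U, N', iU, iN', nc', rfl⟩) x hxU
  have hxwm : x ^ m • w = w := by
    clear hm hcase
    induction m with
    | zero => simp
    | succ m ihm => rw [pow_succ, mul_smul, hxw, ihm]
  have hxmU : x ^ m ∉ U := fun hU => hxU (nc.utor x m hm hU)
  rcases hcase with ⟨j, hj1, hj2⟩ | ⟨j, hj⟩
  · -- case 1
    obtain ⟨b, hPb, hbmin⟩ := exists_min (P1 n c k a)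
      ⟨_, G, M, iG, iM, iA, U, N, iU, iN, x ^ m, w, j, ⟨nc, hNa, hxwm, hw, hj1, hj2⟩, rfl⟩
    obtain ⟨G', M', iG', iM', iA', U', N', iU', iN', x', w', j', C, hb⟩ := hPb
    refine stage_of C.nc umax x' w' ?_ C.wne C.xw ⟨j', Or.inl ⟨C.mem, C.nmem, ?_⟩⟩
    · intro hU
      apply C.nmem
      have hU0 : x' ∈ ucs N' U' 0 := by rw [ucs_zero]; exact hU
      exact ucs_mono N' U' C.nc.UN 0 j' (Nat.zero_le _) hU0
    · intro G2 h2
      exact min_of C (fun b' hb' => by rw [hb]; exact hbmin b' hb') G2 h2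
  · -- case 2
    exact stage_of nc umax (x ^ m) w hxmU hw hxwm ⟨j, Or.inr hj⟩

end Pool.Agent.Polc
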