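import Pool.Agent.Polc.SYMBaux
import Pool.Agent.Polc.SYX
import Pool.Agent.Polc.LAM

/-! Module SYMB of the proof for MP_9e8505_al: the symbol module. -/

set_option autoImplicit false

namespace Pool.Agent.Polc


section lv
variable {G M : Type} [Group G] [AddCommGroup M] [DistribMulAction G M]
    {U N B : Subgroup G} {x : G} {w : M} {V : Type} [AddCommGroup V] [DistribMulAction G V]

/-- pointwise action of families of group elements -/
def Lv.pt (L : Lv G M U N B x w V) (f : ℕ → ℕ → G) :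
    (∀ i, ℕ → L.Q i) →+ (∀ i, ℕ → L.Q i) where
  toFun v := fun i s => f i s • v i s
  map_zero' := by
    funext i s
    exact smul_zero _
  map_add' v v' := by
    funext i s
    exact smul_add _ _ _

/-- the group of admissible families -/
def Lv.famG (L : Lv G M U N B x w V) : AddSubgroup (∀ i, ℕ → L.Q i) where
  carrier := {v | L.Fam v}
  zero_mem' := ⟨∅, fun i s => zero_mem _⟩
  add_mem' := fun {a b} ha hb => L.fam_add a b ha hb
  neg_mem' := by
    rintro a ⟨Φ, h⟩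
    exact ⟨Φ, fun i s => neg_mem (h i s)⟩

/-- the group of null families -/
def Lv.nullG (L : Lv G M U N B x w V) (hN : N.Normal) : AddSubgroup (∀ i, ℕ → L.Q i) where
  carrier := {v | L.Null v}
  zero_mem' := ⟨∅, 0, fun i _ C => ⟨0, fun s _ => zero_mem _⟩⟩
  add_mem' := fun {a b} ha hb => L.null_add hN a b ha hb
  neg_mem' := fun {a} ha => L.null_neg a ha

/-- the families of group elements acting on admissible and null families -/
def Lv.F1 (L : Lv G M U N B x w V) : Subgroup (ℕ → ℕ → G) where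
  carrier := {f | (∀ v, L.Fam v → L.Fam (L.pt f v)) ∧ (∀ v, L.Null v → L.Null (L.pt f v)) ∧
    (∀ v, L.Fam v → L.Fam (L.pt f⁻¹ v)) ∧ (∀ v, L.Null v → L.Null (L.pt f⁻¹ v))}
  one_mem' := by
    have h : ∀ v, L.pt (1 : ℕ → ℕ → G) v = v := fun v => funext fun i => funext fun s => one_smul _ _
    refine ⟨fun v hv => ?_, fun v hv => ?_, fun v hv => ?_, fun v hv => ?_⟩
    · rw [h]; exact hv
    · rw [h]; exact hv
    · rw [inv_one, h]; exact hv
    · rw [inv_one, h]; exact hv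
  mul_mem' := by
    rintro a b ⟨a1, a2, a3, a4⟩ ⟨b1, b2, b3, b4⟩
    have h : ∀ (a b : ℕ → ℕ → G) v, L.pt (a * b) v = L.pt a (L.pt b v) :=
      fun a b v => funext fun i => funext fun s => mul_smul _ _ _
    refine ⟨fun v hv => ?_, fun v hv => ?_, fun v hv => ?_, fun v hv => ?_⟩
    · rw [h]; exact a1 _ (b1 _ hv)
    · rw [h]; exact a2 _ (b2 _ hv)
    · rw [mul_inv_rev, h]; exact b3 _ (a3 _ hv)
    · rw [mul_inv_rev, h]; exact b4 _ (a4 _ hv)
  inv_mem' := by
    rintro a ⟨a1, a2, a3, a4⟩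
    exact ⟨a3, a4, by rw [inv_inv]; exact a1, by rw [inv_inv]; exact a2⟩

theorem Lv.F1_of_mem (L : Lv G M U N B x w V) (hN : N.Normal) (hab : ∀ a b : G, cm a b ∈ N)
    (hx : x • w = w) (f : ℕ → ℕ → G) (hf : ∀ i s, f i s ∈ N ⊔ Subgroup.zpowers x) :
    f ∈ L.F1 :=
  ⟨fun v hv => L.fam_smul hN hab hx v hv f hf, fun v hv => L.null_smul hN hab hx v hv f hf,
    fun v hv => L.fam_smul hN hab hx v hv f⁻¹ (fun i s => inv_mem (hf i s)),
    fun v hv => L.null_smul hN hab hx v hv f⁻¹ (fun i s => inv_mem (hf i s))⟩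

theorem Lv.F1_const (L : Lv G M U N B x w V) (hN : N.Normal) (g : G) :
    (fun _ _ => g : ℕ → ℕ → G) ∈ L.F1 :=
  ⟨fun v hv => L.fam_act hN v hv g, fun v hv => L.null_act hN v hv g,
    fun v hv => L.fam_act hN v hv g⁻¹, fun v hv => L.null_act hN v hv g⁻¹⟩

/-- the symbol module -/
abbrev Lv.SX (L : Lv G M U N B x w V) (hN : N.Normal) : Type :=
  L.famG ⧸ (L.nullG hN).addSubgroupOf L.famG

/-- the class of a family -/
def Lv.cls (L : Lv G M U N B x w V) (hN : N.Normal) : L.famG →+ L.SX hN :=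
  QuotientAddGroup.mk' _

theorem Lv.cls_surj (L : Lv G M U N B x w V) (hN : N.Normal) (y : L.SX hN) :
    ∃ v, L.cls hN v = y := QuotientAddGroup.mk'_surjective _ y

theorem Lv.cls_zero (L : Lv G M U N B x w V) (hN : N.Normal) (v : L.famG) :
    L.cls hN v = 0 ↔ L.Null v.1 := by
  change (QuotientAddGroup.mk v : L.SX hN) = 0 ↔ _
  rw [QuotientAddGroup.eq_zero_iff, AddSubgroup.mem_addSubgroupOf]
  rfl

theorem Lv.cls_eq (L : Lv G M U N B x w V) (hN : N.Normal) (v v' : L.famG) :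
    L.cls hN v = L.cls hN v' ↔ L.Null (fun i s => v.1 i s - v'.1 i s) := by
  rw [← sub_eq_zero, ← map_sub, L.cls_zero]
  rfl

/-- the restricted pointwise action -/
def Lv.ptr (L : Lv G M U N B x w V) (f : L.F1) : L.famG →+ L.famG where
  toFun v := ⟨L.pt f.1 v.1, f.2.1 v.1 v.2⟩
  map_zero' := Subtype.ext (map_zero (L.pt f.1))
  map_add' v v' := Subtype.ext (map_add (L.pt f.1) v.1 v'.1)

/-- the action on the symbol module -/
def Lv.rho (L : Lv G M U N B x w V) (hN : N.Normal) : L.F1 →* AddMonoid.End (L.SX hN) where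
  toFun f := QuotientAddGroup.map _ _ (L.ptr f) (by
    intro v hv
    rw [AddSubgroup.mem_addSubgroupOf] at hv
    rw [AddSubgroup.mem_comap, AddSubgroup.mem_addSubgroupOf]
    exact f.2.2.1 v.1 hv)
  map_one' := by
    ext y
    obtain ⟨v, rfl⟩ := L.cls_surj hN y
    change L.cls hN (L.ptr 1 v) = L.cls hN v
    congr 1
    exact Subtype.ext (funext fun i => funext fun s => one_smul _ _)
  map_mul' f g := by
    ext y
    obtain ⟨v, rfl⟩ := L.cls_surj hN y
    change L.cls hN (L.ptr (f * g) v) = L.cls hN (L.ptr f (L.ptr g v))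
    congr 1
    exact Subtype.ext (funext fun i => funext fun s => mul_smul _ _ _)

theorem Lv.rho_cls (L : Lv G M U N B x w V) (hN : N.Normal) (f : L.F1) (v : L.famG) :
    L.rho hN f (L.cls hN v) = L.cls hN (L.ptr f v) := rfl

theorem Lv.rho_fix (L : Lv G M U N B x w V) (hN : N.Normal) (f : L.F1) (v : L.famG) :
    L.rho hN f (L.cls hN v) = L.cls hN v ↔ L.Null (L.dl f.1 v.1) := by
  rw [L.rho_cls, L.cls_eq]
  rfl

theorem Lv.HH_conj (L : Lv G M U N B x w V) (γ : G) (f : ℕ → ℕ → G) (hf : f ∈ L.HH) :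
    (fun i s => γ * f i s * γ⁻¹) ∈ L.HH := by
  let θ : (ℕ → ℕ → G) →* (ℕ → ℕ → G) := (MulAut.conj (fun _ _ => γ : ℕ → ℕ → G)).toMonoidHom
  have h1 : L.HH ≤ L.HH.comap θ := by
    unfold Lv.HH
    rw [Subgroup.closure_le]
    rintro _ ⟨δ, rfl⟩
    apply Subgroup.subset_closure
    refine ⟨γ * δ, ?_⟩
    funext i s
    change γ * δ * x ^ (L.t i * L.p i ^ s) * (γ * δ)⁻¹ =
      γ * (δ * x ^ (L.t i * L.p i ^ s) * δ⁻¹) * γ⁻¹
    group
  exact h1 hf

theorem Lv.exists_sym {n : ℕ} (ih : IH n) (t : TBad n G M) (L : Lv G M U N B x w V)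
    (hN : N.Normal) (hab : ∀ a b : G, cm a b ∈ N) (hx : x • w = w)
    (gen : gspan (⊤ : Subgroup G) {w} = ⊤) :
    ∃ (v : ∀ i, ℕ → L.Q i) (G3 : Subgroup G) (γ0 : G), L.Sym v G3 γ0 := by
  classical
  have hF : ∀ f ∈ L.HH, f ∈ L.F1 := fun f hf =>
    L.F1_of_mem hN hab hx f (L.HH_mem hN hab f hf)
  -- the kernel of the action
  let K : Subgroup (ℕ → ℕ → G) := (L.rho hN).ker.map L.F1.subtype
  have hKmem : ∀ f, f ∈ K ↔ ∃ h : f ∈ L.F1, L.rho hN ⟨f, h⟩ = 1 := by
    intro f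
    constructor
    · rintro ⟨⟨g, hg⟩, hg1, rfl⟩
      exact ⟨hg, hg1⟩
    · rintro ⟨h, h1⟩
      exact ⟨⟨f, h⟩, h1, rfl⟩
  have hone : ∀ f : L.F1, (∀ v : L.famG, L.Null (L.dl f.1 v.1)) → L.rho hN f = 1 := by
    intro f hf
    ext y
    obtain ⟨v, rfl⟩ := L.cls_surj hN y
    exact (L.rho_fix hN f v).mpr (hf v)
  have hcm : ∀ (a : ℕ → ℕ → G) (ha : a ∈ L.HH) (b : ℕ → ℕ → G) (hb : b ∈ L.HH)
      (h : cm a b ∈ L.F1), L.rho hN ⟨cm a b, h⟩ = 1 := by
    intro a ha b hb h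
    apply hone
    intro v
    exact L.comm_null hN hab hx a b ha hb v.1 v.2
  have hcmF : ∀ a ∈ L.HH, ∀ b ∈ L.HH, cm a b ∈ L.F1 := by
    intro a ha b hb
    exact mul_mem (mul_mem (mul_mem (hF a ha) (hF b hb)) (inv_mem (hF a ha))) (inv_mem (hF b hb))
  let cst : G →* L.F1 :=
    { toFun := fun g => ⟨fun _ _ => g, L.F1_const hN g⟩
      map_one' := rfl
      map_mul' := fun _ _ => rfl }
  obtain ⟨T, hT, hTH, hTK⟩ := lam_fg t.pc N hN hab (fun i s => x ^ (L.t i * L.p i ^ s)) L.HH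
    (by
      unfold Lv.HH
      congr 1
      ext f
      constructor
      · rintro ⟨γ, rfl⟩; exact ⟨γ, rfl⟩
      · rintro ⟨γ, rfl⟩; exact ⟨γ, rfl⟩) K
    (fun a ha b hb => (hKmem _).mpr ⟨hcmF a ha b hb, hcm a ha b hb _⟩)
    (by
      rintro a ha k hk
      obtain ⟨hk1, hk2⟩ := (hKmem k).mp hk
      refine (hKmem _).mpr ⟨mul_mem (mul_mem (hF a ha) hk1) (inv_mem (hF a ha)), ?_⟩
      have e : (⟨a * k * a⁻¹, mul_mem (mul_mem (hF a ha) hk1) (inv_mem (hF a ha))⟩ : L.F1) =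
        ⟨a, hF a ha⟩ * ⟨k, hk1⟩ * ⟨a, hF a ha⟩⁻¹ := rfl
      rw [e, map_mul, map_mul, hk2, mul_one, ← map_mul, mul_inv_cancel, map_one])
    (by
      rintro γ k hk
      obtain ⟨hk1, hk2⟩ := (hKmem k).mp hk
      refine (hKmem _).mpr ⟨(cst γ * ⟨k, hk1⟩ * (cst γ)⁻¹).2, ?_⟩
      have e : (⟨fun i s => γ * k i s * γ⁻¹, (cst γ * ⟨k, hk1⟩ * (cst γ)⁻¹).2⟩ : L.F1) =
        cst γ * ⟨k, hk1⟩ * (cst γ)⁻¹ := rfl
      rw [e, map_mul, map_mul, hk2, mul_one, ← map_mul, mul_inv_cancel, map_one])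
  -- the embedding of M
  let ι : M →+ L.SX hN := (L.cls hN).comp
    { toFun := fun m => ⟨fun i _ => L.π i m, L.const_fam hN gen m⟩
      map_zero' := Subtype.ext (funext fun i => funext fun s => map_zero (L.π i))
      map_add' := fun m m' => Subtype.ext (funext fun i => funext fun s => map_add (L.π i) m m') }
  have hιv : ∀ m, ι m = L.cls hN ⟨fun i _ => L.π i m, L.const_fam hN gen m⟩ := fun m => rfl
  have hι : Function.Injective ι := by
    rw [injective_iff_map_eq_zero]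
    intro m hm
    rw [hιv, L.cls_zero] at hm
    exact L.const_null hN m hm
  have hιG : ∀ (g : G) (m : M), ι (g • m) = L.rho hN (cst g) (ι m) := by
    intro g m
    rw [hιv, hιv, L.rho_cls]
    congr 1
    exact Subtype.ext (funext fun i => funext fun s => L.equiv i g m)
  let ξ : ℕ → ℕ → G := fun i s => x ^ (L.t i * L.p i ^ s)
  have hξ : ξ ∈ L.HH := by
    apply Subgroup.subset_closure
    refine ⟨1, ?_⟩
    funext i s
    change 1 * x ^ (L.t i * L.p i ^ s) * 1⁻¹ = x ^ (L.t i * L.p i ^ s)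
    group
  have hxk : ∀ k : ℕ, x ^ k • w = w := by
    intro k
    induction k with
    | zero => rw [pow_zero, one_smul]
    | succ k ihk => rw [pow_succ, mul_smul, hx, ihk]
  obtain ⟨y, G3, γ0, hy, h1, h2, h3, h4⟩ := symb_abs ih t gen (L.rho hN) cst
    (L.HH.subgroupOf L.F1) (by
      rintro γ ⟨h, hh⟩ hh1
      rw [Subgroup.mem_subgroupOf] at hh1 ⊢
      exact L.HH_conj γ h hh1) (by
      rintro ⟨a, ha⟩ ha1 ⟨b, hb⟩ hb1
      rw [Subgroup.mem_subgroupOf] at ha1 hb1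
      have e : (⟨a, ha⟩ : L.F1) * ⟨b, hb⟩ = ⟨cm a b, hcmF a ha1 b hb1⟩ * (⟨b, hb⟩ * ⟨a, ha⟩) := by
        apply Subtype.ext
        change a * b = a * b * a⁻¹ * b⁻¹ * (b * a)
        group
      rw [← map_mul, ← map_mul, e, map_mul, hcm a ha1 b hb1, one_mul])
    (L.F1.subtype ⁻¹' T) (hT.preimage (Subtype.val_injective.injOn)) (by
      rintro ⟨a, ha⟩ ha1
      exact hTH ha1) (by
      rintro ⟨a, ha⟩ ha1
      have ha2 := hTK ha1
      -- a = product of an element of closure T and an element of K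
      have hTF : T ⊆ L.F1 := fun f hf => hF f (hTH hf)
      have hprod : ∀ a ∈ Subgroup.closure T ⊔ K, a ∈ L.HH → ∃ b ∈ Subgroup.closure T, ∃ k ∈ K,
          a = b * k := by
        intro a haT haH
        have hKH : ∀ b ∈ Subgroup.closure T, ∀ k ∈ K, b * k * b⁻¹ ∈ K := by
          intro b hb k hk
          have hbH : b ∈ L.HH := (Subgroup.closure_le _).mpr hTH hb
          obtain ⟨hk1, hk2⟩ := (hKmem k).mp hk
          refine (hKmem _).mpr ⟨mul_mem (mul_mem (hF b hbH) hk1) (inv_mem (hF b hbH)), ?_⟩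
          have e : (⟨b * k * b⁻¹, mul_mem (mul_mem (hF b hbH) hk1) (inv_mem (hF b hbH))⟩ : L.F1) =
            ⟨b, hF b hbH⟩ * ⟨k, hk1⟩ * ⟨b, hF b hbH⟩⁻¹ := rfl
          rw [e, map_mul, map_mul, hk2, mul_one, ← map_mul, mul_inv_cancel, map_one]
        rw [Subgroup.sup_eq_closure] at haT
        clear haH
        induction haT using Subgroup.closure_induction with
        | mem z hz =>
          rcases hz with hz | hz
          · exact ⟨z, hz, 1, one_mem _, by rw [mul_one]⟩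
          · exact ⟨1, one_mem _, z, hz, by rw [one_mul]⟩
        | one => exact ⟨1, one_mem _, 1, one_mem _, by rw [mul_one]⟩
        | mul z z' _ _ h h' =>
          obtain ⟨b, hb, k, hk, rfl⟩ := h
          obtain ⟨b', hb', k', hk', rfl⟩ := h'
          refine ⟨b * b', mul_mem hb hb', b'⁻¹ * k * b'⁻¹⁻¹ * k',
            mul_mem (hKH _ (inv_mem hb') k hk) hk', by group⟩
        | inv z _ h =>
          obtain ⟨b, hb, k, hk, rfl⟩ := h
          exact ⟨b⁻¹, inv_mem hb, b * k⁻¹ * b⁻¹, hKH b hb _ (inv_mem hk), by group⟩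
      obtain ⟨b, hb, k, hk, rfl⟩ := hprod a ha2 ha1
      have hbF : b ∈ L.F1 := (Subgroup.closure_le _).mpr hTF hb
      obtain ⟨hk1, hk2⟩ := (hKmem k).mp hk
      refine ⟨⟨b, hbF⟩, ?_, ?_⟩
      · have h5 : (Subgroup.closure T) = (Subgroup.closure (L.F1.subtype ⁻¹' T)).map L.F1.subtype := by
          rw [MonoidHom.map_closure]
          congr 1
          ext f
          constructor
          · intro hf; exact ⟨⟨f, hTF hf⟩, hf, rfl⟩
          · rintro ⟨g, hg, rfl⟩; exact hg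
        rw [h5] at hb
        obtain ⟨g, hg, hgb⟩ := hb
        have : g = ⟨b, hbF⟩ := Subtype.ext hgb
        rwa [this] at hg
      · have e : (⟨b * k, ha⟩ : L.F1) = ⟨b, hbF⟩ * ⟨k, hk1⟩ := rfl
        rw [e, map_mul, hk2, mul_one])
    ⟨ξ, hF ξ hξ⟩ hξ ι hι hιG (by
      rw [hιv, L.rho_cls]
      congr 1
      apply Subtype.ext
      funext i s
      change x ^ (L.t i * L.p i ^ s) • L.π i w = L.π i w
      rw [← L.equiv, hxk])
  obtain ⟨v, rfl⟩ := L.cls_surj hN y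
  refine ⟨v.1, G3, γ0, ⟨v.2, ?_, h1, h2, ?_, ?_⟩⟩
  · intro h
    exact hy ((L.cls_zero hN v).mpr h)
  · exact (L.rho_fix hN _ v).mp h3
  · intro g hg γ hγ hgv
    exact (L.rho_fix hN _ v).mp (h4 ⟨g, hF g hg⟩ hg γ hγ ((L.rho_fix hN _ v).mpr hgv))

end lv

end Pool.Agent.Polc
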