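import Pool.Agent.Polc.Defs2
import Pool.Agent.Polc.SECUCS
import Pool.Agent.Polc.MCBSUB
import Pool.Agent.Polc.STG
import Pool.Agent.Polc.LVL
import Pool.Agent.Polc.SYMB
import Pool.Agent.Polc.F0F2
import Pool.Agent.Polc.F1A
import Pool.Agent.Polc.F1B
import Pool.Agent.Polc.Ded

/-!
Main theorem for MP_9e8505_al: every finitely generated module over a polycyclic group satisfies
the periodicity condition `Good`.
-/

set_option autoImplicit false

namespace Pool.Agent.Polc

theorem ih_step (n : ℕ) (ih : IH n) : IH (n + 1) := by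
  by_contra hcon
  obtain ⟨c, G, M, iG, iM, iA, U, N, iU, iN, x, w, st, j, hj⟩ := exists_stage ih hcon
  have hPC : PC G := st.uc.tb.pc
  have htf := st.uc.tb
  have hEx : ∀ E : Subgroup G, E.Normal → E ≤ ucs N U (j + 1) → (∃ v ∈ E, v ∉ ucs N U j) →
      ∀ (V : Type) [AddCommGroup V] [DistribMulAction G V], Module.Finite ℤ V →
      Nonempty (Lv G M U N (Bsub N U E j) x w V) := by
    intro E hE hE1 hE2 V _ _ hV
    exact exists_lv ih U N x w st (Bsub N U E j) (Bsub_normal N U E hE j) le_sup_right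
      (Bsub_le N U st.UN E j hE1) (Bsub_ne N U st.UN E j hE1 hE2) V hV
  have hsecab : ∀ a ∈ ucs N U (j + 1), ∀ b ∈ ucs N U (j + 1), cm a b ∈ ucs N U j := by
    intro a ha b hb
    exact ((mem_ucs_succ N U j a).1 ha).2 b (ucs_le N U st.UN _ hb)
  obtain ⟨V, iV, aV, cl, hsec⟩ := exists_sec (ucs N U (j + 1)) (ucs N U j) (ucs_normal N U _)
    (ucs_normal N U _) (ucs_mono N U st.UN _ _ (Nat.le_succ j)) hsecab
  have hVf := Sec.finite hPC hsec
  rcases hj with h1 | h2
  · obtain ⟨L⟩ := hEx (E1 U N x j) (E1_normal N U x j) (E1_le N U st.UN x j h1.mem)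
      ⟨x, by
        refine Subgroup.mem_sup_left (Subgroup.subset_closure ⟨1, by simp⟩), h1.nmem⟩ V hVf
    obtain ⟨v, G3, γ0, hs⟩ := L.exists_sym ih htf iN st.ab st.xw st.gen
    exact hs.nnull (L.final2 hPC st.UN st.uc.cen
      (Bsub_le N U st.UN _ j (E1_le N U st.UN x j h1.mem)) v hs.fam
      (L.final1a hPC st.UN st.uc.cen st.ab st.xw j h1 rfl v G3 γ0 hs))
  · obtain ⟨v0, hv0, hv0'⟩ := h2.ex
    obtain ⟨L⟩ := hEx (E2 U N x j) (E2_normal N U st.UN st.ab x j) (E2_le N U st.UN x j)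
      ⟨cm x v0, Subgroup.mem_sup_left (Subgroup.subset_closure ⟨v0, hv0, rfl⟩), hv0'⟩ V hVf
    obtain ⟨v, G3, γ0, hs⟩ := L.exists_sym ih htf iN st.ab st.xw st.gen
    exact hs.nnull (L.final2 hPC st.UN st.uc.cen
      (Bsub_le N U st.UN _ j (E2_le N U st.UN x j)) v hs.fam
      (L.final1b hPC st.UN st.uc.cen st.ab st.xw st.utor j h2 rfl cl hsec v G3 γ0 hs))

/-- Main theorem: finitely generated modules over polycyclic groups are good. -/
theorem ih_all (n : ℕ) : IH n := by
  induction n with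
  | zero => exact ih_zero
  | succ n ih => exact ih_step n ih

end Pool.Agent.Polc
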