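import Pool.Agent.Polc.PCB2

/-!
# Common eigenvectors of finite index subgroups of polycyclic groups
-/

set_option autoImplicit false

namespace Pool.Agent.Polc

namespace Mal

/-- elements of `H ⊔ ⟨g⟩` if `g` normalises `H` -/
theorem mem_sup_zpowers {G : Type} [Group G] {H : Subgroup G} {g : G}
    (hn : ∀ h : G, h ∈ H ↔ g * h * g⁻¹ ∈ H) {x : G} (hx : x ∈ H ⊔ Subgroup.zpowers g) :
    ∃ h ∈ H, ∃ i : ℤ, x = h * g ^ i := by
  have hz : ∀ (i : ℤ) (h : G), h ∈ H → g ^ i * h * g ^ (-i) ∈ H := by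
    intro i
    induction i using Int.induction_on with
    | zero => intro h hh; simpa using hh
    | succ i ih =>
      intro h hh
      have := (hn _).1 (ih h hh)
      have e : g * (g ^ (i : ℤ) * h * g ^ (-(i : ℤ))) * g⁻¹ =
          g ^ ((i : ℤ) + 1) * h * g ^ (-((i : ℤ) + 1)) := by group
      rwa [e] at this
    | pred i ih =>
      intro h hh
      have e : g * (g ^ (-(i : ℤ) - 1) * h * g ^ (-(-(i : ℤ) - 1))) * g⁻¹ =
          g ^ (-(i : ℤ)) * h * g ^ (-(-(i : ℤ))) := by group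
      rw [hn, e]
      exact ih h hh
  let S : Subgroup G :=
    { carrier := {x | ∃ h ∈ H, ∃ i : ℤ, x = h * g ^ i}
      mul_mem' := by
        rintro a b ⟨h, hh, i, rfl⟩ ⟨h', hh', j, rfl⟩
        refine ⟨h * (g ^ i * h' * g ^ (-i)), H.mul_mem hh (hz i h' hh'), i + j, ?_⟩
        group
      one_mem' := ⟨1, H.one_mem, 0, by simp⟩
      inv_mem' := by
        rintro a ⟨h, hh, i, rfl⟩
        refine ⟨g ^ (-i) * h⁻¹ * g ^ (-(-i)), hz (-i) h⁻¹ (H.inv_mem hh), -i, ?_⟩
        group }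
  have hle : H ⊔ Subgroup.zpowers g ≤ S := by
    refine sup_le (fun h hh => ⟨h, hh, 0, by simp⟩) ?_
    rw [Subgroup.zpowers_le]
    exact ⟨1, H.one_mem, 1, by simp⟩
  exact hle hx

theorem zconj_mem {G : Type} [Group G] {H : Subgroup G} {g : G}
    (hn : ∀ h : G, h ∈ H ↔ g * h * g⁻¹ ∈ H) (i : ℤ) : ∀ h : G, h ∈ H → g ^ i * h * g ^ (-i) ∈ H := by
  induction i using Int.induction_on with
  | zero => intro h hh; simpa using hh
  | succ i ih =>
    intro h hh
    have := (hn _).1 (ih h hh)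
    have e : g * (g ^ (i : ℤ) * h * g ^ (-(i : ℤ))) * g⁻¹ =
        g ^ ((i : ℤ) + 1) * h * g ^ (-((i : ℤ) + 1)) := by group
    rwa [e] at this
  | pred i ih =>
    intro h hh
    have e : g * (g ^ (-(i : ℤ) - 1) * h * g ^ (-(-(i : ℤ) - 1))) * g⁻¹ =
        g ^ (-(i : ℤ)) * h * g ^ (-(-(i : ℤ))) := by group
    rw [hn, e]
    exact ih h hh

/-- finite index of `H₁⟨g ^ k⟩` in `H⟨g⟩` -/
theorem relIndex_step {G : Type} [Group G] {H H1 : Subgroup G} {g : G}
    (hn : ∀ h : G, h ∈ H ↔ g * h * g⁻¹ ∈ H) (hn1 : ∀ h : G, h ∈ H1 ↔ g * h * g⁻¹ ∈ H1)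
    (hi : H1.relIndex H ≠ 0) (k : ℕ) (hk : 0 < k) :
    (H1 ⊔ Subgroup.zpowers (g ^ k)).relIndex (H ⊔ Subgroup.zpowers g) ≠ 0 := by
  classical
  set L := H ⊔ Subgroup.zpowers g with hL
  set L1 := H1 ⊔ Subgroup.zpowers (g ^ k) with hL1
  have : (H1.subgroupOf H).FiniteIndex := ⟨hi⟩
  have : Finite (H ⧸ H1.subgroupOf H) := Subgroup.finite_quotient_of_finiteIndex
  have hmemg : g ∈ L := Subgroup.mem_sup_right (Subgroup.mem_zpowers g)
  let f : (H ⧸ H1.subgroupOf H) × Fin k → L ⧸ L1.subgroupOf L := fun p =>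
    QuotientGroup.mk ⟨(p.1.out : G) * g ^ (p.2 : ℕ),
      L.mul_mem (Subgroup.mem_sup_left p.1.out.2) (L.pow_mem hmemg _)⟩
  have hf : Function.Surjective f := by
    intro y
    obtain ⟨⟨x, hx⟩, rfl⟩ := QuotientGroup.mk_surjective y
    obtain ⟨h, hh, i, rfl⟩ := mem_sup_zpowers hn hx
    have hk' : (0 : ℤ) < k := by exact_mod_cast hk
    have hr0 : 0 ≤ i % k := Int.emod_nonneg _ hk'.ne'
    have hr1 : i % k < k := Int.emod_lt_of_pos _ hk'
    obtain ⟨r, hr⟩ := Int.eq_ofNat_of_zero_le hr0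
    have hrk : r < k := by omega
    refine ⟨(QuotientGroup.mk ⟨h, hh⟩, ⟨r, hrk⟩), ?_⟩
    simp only [f]
    rw [QuotientGroup.eq]
    obtain ⟨⟨h1, hh1⟩, he⟩ := QuotientGroup.mk_out_eq_mul (H1.subgroupOf H) ⟨h, hh⟩
    rw [Subgroup.mem_subgroupOf]
    have he' : (((QuotientGroup.mk ⟨h, hh⟩ : H ⧸ H1.subgroupOf H).out : H) : G) = h * (h1 : G) := by
      rw [he]; rfl
    show (((QuotientGroup.mk ⟨h, hh⟩ : H ⧸ H1.subgroupOf H).out : G) * g ^ r)⁻¹ * (h * g ^ i) ∈ L1
    rw [he']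
    have hi' : i = k * (i / k) + r := by rw [← hr]; exact (Int.mul_ediv_add_emod i k).symm
    have e : (h * (h1 : G) * g ^ r)⁻¹ * (h * g ^ i) =
        (g ^ (-(r : ℤ)) * (h1 : G)⁻¹ * g ^ (-(-(r : ℤ)))) * (g ^ k) ^ (i / k) := by
      rw [← zpow_natCast g k, ← zpow_mul]
      conv_lhs => rw [hi']
      rw [zpow_add, ← zpow_natCast g r]
      have hc : g ^ ((k : ℤ) * (i / k)) * g ^ (r : ℤ) = g ^ (r : ℤ) * g ^ ((k : ℤ) * (i / k)) := by
        rw [← zpow_add, ← zpow_add, add_comm]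
      rw [hc]
      group
    rw [e]
    have hh1' : (h1 : G) ∈ H1 := hh1
    exact L1.mul_mem (Subgroup.mem_sup_left (zconj_mem hn1 _ _ (H1.inv_mem hh1')))
      (Subgroup.mem_sup_right (Subgroup.zpow_mem _ (Subgroup.mem_zpowers _) _))
  have : Finite (L ⧸ L1.subgroupOf L) := Finite.of_surjective f hf
  have : (L1.subgroupOf L).FiniteIndex := Subgroup.finiteIndex_of_finite_quotient
  exact this.index_ne_zero

theorem pw_conj {G : Type} [Group G] {H : Subgroup G} {g : G}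
    (hn : ∀ h : G, h ∈ H ↔ g * h * g⁻¹ ∈ H) (k : ℕ) (h : G) :
    h ∈ pw H k ↔ g * h * g⁻¹ ∈ pw H k := by
  have key : ∀ g : G, (∀ h ∈ H, g * h * g⁻¹ ∈ H) → ∀ h ∈ pw H k, g * h * g⁻¹ ∈ pw H k := by
    intro g hg h hh
    induction hh using Subgroup.closure_induction with
    | mem x hx =>
      obtain ⟨v, hv, rfl⟩ := hx
      rw [← conj_pow]
      exact Subgroup.subset_closure ⟨_, hg v hv, rfl⟩
    | one => simp
    | mul x y _ _ hx hy =>
      have e : g * (x * y) * g⁻¹ = (g * x * g⁻¹) * (g * y * g⁻¹) := by group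
      rw [e]; exact Subgroup.mul_mem _ hx hy
    | inv x _ hx =>
      have e : g * x⁻¹ * g⁻¹ = (g * x * g⁻¹)⁻¹ := by group
      rw [e]; exact Subgroup.inv_mem _ hx
  constructor
  · exact key g (fun h hh => (hn h).1 hh) h
  · intro hh
    have := key g⁻¹ (fun h hh => by
      rw [hn]
      have e : g * (g⁻¹ * h * g⁻¹⁻¹) * g⁻¹ = h := by group
      rw [e]; exact hh) _ hh
    have e : g⁻¹ * (g * h * g⁻¹) * g⁻¹⁻¹ = h := by group
    rwa [e] at this

section eig

variable {K V : Type} [Field K] [AddCommGroup V] [Module K V]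

/-- simultaneous eigenvectors for distinct characters are independent -/
theorem indep {I X : Type} (ρ : X → Module.End K V) (χ : I → X → K) (hχ : Function.Injective χ)
    (v : I → V) (hv : ∀ i, v i ≠ 0) (he : ∀ i x, ρ x (v i) = χ i x • v i) :
    LinearIndependent K v := by
  classical
  rw [linearIndependent_iff']
  intro s
  induction s using Finset.induction_on with
  | empty => intro c _ i hi; simp at hi
  | insert a s ha ih =>
    intro c hc
    have hs : ∀ j ∈ s, c j = 0 := by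
      intro j hj
      have hne : χ j ≠ χ a := fun h => ha (hχ h ▸ hj)
      obtain ⟨x, hx⟩ := Function.ne_iff.1 hne
      have h1 : ∑ i ∈ s, (c i * (χ i x - χ a x)) • v i = 0 := by
        have h2 := congrArg (fun w => ρ x w - χ a x • w) hc
        simp only [map_zero, smul_zero, sub_zero, map_sum, map_smul, he, Finset.smul_sum] at h2
        rw [← Finset.sum_sub_distrib, Finset.sum_insert ha] at h2
        have h3 : c a • χ a x • v a - χ a x • c a • v a = 0 := by
          rw [smul_comm, sub_self]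
        rw [h3, zero_add] at h2
        rw [← h2]
        refine Finset.sum_congr rfl fun i _ => ?_
        rw [mul_sub, sub_smul, mul_smul, mul_comm, mul_smul]
      have h4 := ih _ h1 j hj
      rcases mul_eq_zero.1 h4 with h | h
      · exact h
      · exact absurd (sub_eq_zero.1 h) hx
    intro i hi
    rcases Finset.mem_insert.1 hi with rfl | hi
    · rw [Finset.sum_insert ha, Finset.sum_eq_zero (fun j hj => by rw [hs j hj, zero_smul]),
        add_zero] at hc
      exact (smul_eq_zero.1 hc).resolve_right (hv i)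
    · exact hs i hi

variable {G : Type} [Group G] (ρ : G →* Module.End K V)

/-- the stabiliser of a line -/
def lineStab (x : V) : Subgroup G where
  carrier := {g | ∃ c : K, c ≠ 0 ∧ ρ g x = c • x}
  mul_mem' := by
    rintro a b ⟨c, hc, hac⟩ ⟨d, hd, hbd⟩
    exact ⟨d * c, mul_ne_zero hd hc, by
      rw [map_mul, Module.End.mul_apply, hbd, map_smul, hac, smul_smul]⟩
  one_mem' := ⟨1, one_ne_zero, by simp⟩
  inv_mem' := by
    rintro a ⟨c, hc, hac⟩
    refine ⟨c⁻¹, inv_ne_zero hc, ?_⟩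
    have h1 : ρ a⁻¹ (ρ a x) = x := by
      rw [← Module.End.mul_apply, ← map_mul, inv_mul_cancel, map_one]; rfl
    rw [hac, map_smul] at h1
    rw [← h1, smul_smul, inv_mul_cancel₀ hc, one_smul, h1]

theorem rho_inv (g : G) (x : V) : ρ g⁻¹ (ρ g x) = x := by
  rw [← Module.End.mul_apply, ← map_mul, inv_mul_cancel, map_one]; rfl

theorem rho_ne_zero (g : G) {x : V} (hx : x ≠ 0) : ρ g x ≠ 0 := by
  intro h
  apply hx
  rw [← rho_inv ρ g x, h, map_zero]

theorem mem_lineStab_of {g : G} {x : V} (hx : x ≠ 0) {c : K} (h : ρ g x = c • x) :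
    g ∈ lineStab ρ x := by
  refine ⟨c, ?_, h⟩
  rintro rfl
  rw [zero_smul] at h
  exact rho_ne_zero ρ g hx h

theorem eig_aux [IsAlgClosed K] [FiniteDimensional K V] [Nontrivial V] (hG : PC G)
    {L : Subgroup G} (hL : CChain ⊥ L) :
    ∃ L1 : Subgroup G, L1 ≤ L ∧ L1.relIndex L ≠ 0 ∧ ∃ v : V, v ≠ 0 ∧ L1 ≤ lineStab ρ v := by
  unfold CChain at hL
  induction hL with
  | refl =>
    obtain ⟨v, hv⟩ := exists_ne (0 : V)
    exact ⟨⊥, le_rfl, by simp, v, hv, bot_le⟩
  | @tail H L _ hstep ih =>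
    obtain ⟨L1, hL1, hi, v, hv, hst⟩ := ih
    obtain ⟨g, hn, rfl⟩ := hstep
    obtain ⟨k, hk, hkL⟩ := fi_pw H L1 hi
    set H1 := pw H k with hH1
    have hi1 : H1.relIndex H ≠ 0 := pw_fi hG H k hk
    have hn1 : ∀ h : G, h ∈ H1 ↔ g * h * g⁻¹ ∈ H1 := pw_conj hn k
    have hχ : ∀ h : G, ∃ c : K, h ∈ H1 → ρ h v = c • v := by
      intro h
      by_cases hh : h ∈ H1
      · obtain ⟨c, -, hc⟩ := hst (hkL hh)
        exact ⟨c, fun _ => hc⟩
      · exact ⟨0, fun h' => absurd h' hh⟩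
    choose χ hχ using hχ
    -- the vectors `g ^ i v`
    have hw : ∀ (i : ℤ) (h : G), h ∈ H1 →
        ρ h (ρ (g ^ i) v) = χ (g ^ (-i) * h * g ^ (-(-i))) • ρ (g ^ i) v := by
      intro i h hh
      have h1 := hχ _ (zconj_mem hn1 (-i) h hh)
      rw [← map_smul, ← h1, ← Module.End.mul_apply, ← Module.End.mul_apply, ← map_mul, ← map_mul]
      congr 2
      group
    have hnotinj : ¬ Function.Injective (fun (i : ℕ) (h : H1) =>
        χ (g ^ (-(i : ℤ)) * (h : G) * g ^ (-(-(i : ℤ))))) := by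
      intro hinj
      have hli := indep (fun h : H1 => ρ (h : G))
        (fun (i : ℕ) (h : H1) => χ (g ^ (-(i : ℤ)) * (h : G) * g ^ (-(-(i : ℤ))))) hinj
        (fun i : ℕ => ρ (g ^ (i : ℤ)) v) (fun i => rho_ne_zero ρ _ hv)
        (fun i h => hw i h h.2)
      exact hli.finite_of_isNoetherian.false
    obtain ⟨i, j, hij, hlt⟩ : ∃ i j : ℕ, (∀ h ∈ H1, χ (g ^ (-(i : ℤ)) * h * g ^ (-(-(i : ℤ)))) =
        χ (g ^ (-(j : ℤ)) * h * g ^ (-(-(j : ℤ))))) ∧ i < j := by
      rw [Function.Injective] at hnotinj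
      push Not at hnotinj
      obtain ⟨i, j, hij, hne⟩ := hnotinj
      have hij' := fun (h : G) (hh : h ∈ H1) => congrFun hij ⟨h, hh⟩
      rcases lt_or_gt_of_ne hne with h | h
      · exact ⟨i, j, hij', h⟩
      · exact ⟨j, i, fun x hx => (hij' x hx).symm, h⟩
    set k0 : ℕ := j - i with hk0
    have hk0' : 0 < k0 := by omega
    have hinv : ∀ h ∈ H1, χ (g ^ (-(k0 : ℤ)) * h * g ^ (-(-(k0 : ℤ)))) = χ h := by
      intro h hh
      have h1 := hij _ (zconj_mem hn1 i h hh)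
      have e1 : g ^ (-(i : ℤ)) * (g ^ (i : ℤ) * h * g ^ (-(i : ℤ))) * g ^ (-(-(i : ℤ))) = h := by
        group
      have e2 : g ^ (-(j : ℤ)) * (g ^ (i : ℤ) * h * g ^ (-(i : ℤ))) * g ^ (-(-(j : ℤ))) =
          g ^ (-(k0 : ℤ)) * h * g ^ (-(-(k0 : ℤ))) := by
        have : (k0 : ℤ) = j - i := by omega
        rw [this]; group
      rw [e1, e2] at h1
      exact h1.symm
    -- the eigenspace
    let E : Submodule K V :=
      { carrier := {x | ∀ h ∈ H1, ρ h x = χ h • x}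
        add_mem' := by
          intro a b ha hb h hh
          rw [map_add, ha h hh, hb h hh, smul_add]
        zero_mem' := by intro h _; simp
        smul_mem' := by
          intro c a ha h hh
          rw [map_smul, ha h hh, smul_comm] }
    have hE : ∀ x ∈ E, ρ (g ^ k0) x ∈ E := by
      intro x hx h hh
      have h1 := hx _ (zconj_mem hn1 (-(k0 : ℤ)) h hh)
      rw [hinv h hh] at h1
      rw [← map_smul, ← h1, ← Module.End.mul_apply, ← Module.End.mul_apply, ← map_mul, ← map_mul]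
      congr 2
      group
    have : Nontrivial E := ⟨⟨⟨v, fun h hh => hχ h hh⟩, 0, fun h => hv (congrArg Subtype.val h)⟩⟩
    obtain ⟨μ, hμ⟩ := Module.End.exists_eigenvalue ((ρ (g ^ k0)).restrict hE)
    obtain ⟨x, hx⟩ := hμ.exists_hasEigenvector
    have hx0 : (x : V) ≠ 0 := fun h => hx.2 (Subtype.ext h)
    have hxe : ρ (g ^ k0) (x : V) = μ • (x : V) := congrArg Subtype.val hx.apply_eq_smul
    refine ⟨H1 ⊔ Subgroup.zpowers (g ^ k0), ?_, relIndex_step hn hn1 hi1 k0 hk0', x, hx0, ?_⟩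
    · refine sup_le (le_trans (pw_le H k) le_sup_left) ?_
      rw [Subgroup.zpowers_le]
      exact Subgroup.mem_sup_right (Subgroup.pow_mem _ (Subgroup.mem_zpowers g) _)
    · refine sup_le (fun h hh => mem_lineStab_of ρ hx0 (x.2 h hh)) ?_
      rw [Subgroup.zpowers_le]
      exact mem_lineStab_of ρ hx0 hxe

/-- common eigenvector of a finite index subgroup -/
theorem exists_eig [IsAlgClosed K] [FiniteDimensional K V] [Nontrivial V] (hG : PC G) :
    ∃ L1 : Subgroup G, L1.FiniteIndex ∧ ∃ v : V, v ≠ 0 ∧ L1 ≤ lineStab ρ v := by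
  obtain ⟨L1, -, hi, v, hv, hst⟩ := eig_aux ρ hG (hG.cchain_bot ⊤)
  rw [Subgroup.relIndex_top_right] at hi
  exact ⟨L1, ⟨hi⟩, v, hv, hst⟩

end eig

end Mal

end Pool.Agent.Polc
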