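import Pool.Agent.Polc.MalEig

/-!
# Flags
-/

set_option autoImplicit false

namespace Pool.Agent.Polc

namespace Mal

section flag

variable {K V : Type} [Field K] [AddCommGroup V] [Module K V] {G : Type} [Group G]
  (ρ : G →* Module.End K V)

/-- `Δ(N) W` -/
def dV (N : Subgroup G) (W : Submodule K V) : Submodule K V :=
  Submodule.span K {x | ∃ c ∈ N, ∃ w ∈ W, x = ρ c w - w}

theorem dV_mono {N N' : Subgroup G} {W W' : Submodule K V} (hN : N ≤ N') (hW : W ≤ W') :
    dV ρ N W ≤ dV ρ N' W' := by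
  refine Submodule.span_mono ?_
  rintro x ⟨c, hc, w, hw, rfl⟩
  exact ⟨c, hN hc, w, hW hw, rfl⟩

theorem dV_iter_mono {N N' : Subgroup G} {W W' : Submodule K V} (hN : N ≤ N') (hW : W ≤ W')
    (d : ℕ) : (dV ρ N)^[d] W ≤ (dV ρ N')^[d] W' := by
  induction d with
  | zero => exact hW
  | succ d ih =>
    rw [Function.iterate_succ_apply', Function.iterate_succ_apply']
    exact dV_mono ρ hN ih

theorem dV_iter_bot (N : Subgroup G) (d : ℕ) : (dV ρ N)^[d] ⊥ = ⊥ := by
  induction d with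
  | zero => rfl
  | succ d ih =>
    rw [Function.iterate_succ_apply', ih]
    rw [eq_bot_iff, dV, Submodule.span_le]
    rintro x ⟨c, _, w, hw, rfl⟩
    rw [Submodule.mem_bot] at hw
    simp [hw]

/-- the representation on the quotient -/
def quotRep (G1 : Subgroup G) (W : Submodule K V) (hW : ∀ g ∈ G1, ∀ w ∈ W, ρ g w ∈ W) :
    G1 →* Module.End K (V ⧸ W) where
  toFun g := W.mapQ W (ρ g) (fun w hw => hW g g.2 w hw)
  map_one' := by
    refine Submodule.linearMap_qext _ ?_
    ext v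
    simp
  map_mul' a b := by
    refine Submodule.linearMap_qext _ ?_
    ext v
    simp

theorem quotRep_mk (G1 : Subgroup G) (W : Submodule K V) (hW : ∀ g ∈ G1, ∀ w ∈ W, ρ g w ∈ W)
    (g : G1) (v : V) : quotRep ρ G1 W hW g (Submodule.Quotient.mk v) =
      Submodule.Quotient.mk (ρ g v) := rfl

theorem flag_step [IsAlgClosed K] [FiniteDimensional K V] (hG : PC G) (G1 : Subgroup G)
    (h1 : G1.FiniteIndex) (W : Submodule K V) (hW : ∀ g ∈ G1, ∀ w ∈ W, ρ g w ∈ W)
    (hne : W ≠ ⊤) : ∃ G2 : Subgroup G, G2.FiniteIndex ∧ G2 ≤ G1 ∧ ∃ W' : Submodule K V,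
      W < W' ∧ (∀ g ∈ G2, ∀ w ∈ W', ρ g w ∈ W') ∧ dV ρ ⁅G2, G2⁆ W' ≤ W := by
  have : Nontrivial (V ⧸ W) := Submodule.Quotient.nontrivial_iff.2 hne
  obtain ⟨L1, hL1, x, hx, hst⟩ := exists_eig (quotRep ρ G1 W hW) (hG.sub G1)
  obtain ⟨v, rfl⟩ := Submodule.Quotient.mk_surjective W x
  have hvW : v ∉ W := fun h => hx ((Submodule.Quotient.mk_eq_zero W).2 h)
  -- stabiliser of the vector
  let S : Subgroup G1 :=
    { carrier := {g | quotRep ρ G1 W hW g (Submodule.Quotient.mk v) = Submodule.Quotient.mk v}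
      mul_mem' := by
        intro a b ha hb
        show quotRep ρ G1 W hW (a * b) _ = _
        rw [map_mul, Module.End.mul_apply, hb, ha]
      one_mem' := by
        show quotRep ρ G1 W hW 1 _ = _
        rw [map_one]; rfl
      inv_mem' := by
        intro a ha
        show quotRep ρ G1 W hW a⁻¹ _ = _
        conv_lhs => rw [← show quotRep ρ G1 W hW a (Submodule.Quotient.mk v) =
          Submodule.Quotient.mk v from ha]
        exact rho_inv _ a _ }
  have hS : ⁅L1, L1⁆ ≤ S := by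
    rw [Subgroup.commutator_le]
    intro a ha b hb
    obtain ⟨α, hα, haα⟩ := hst ha
    obtain ⟨β, hβ, hbβ⟩ := hst hb
    obtain ⟨α', hα', haα'⟩ := hst (L1.inv_mem ha)
    obtain ⟨β', hβ', hbβ'⟩ := hst (L1.inv_mem hb)
    have e1 : α' * α = 1 := by
      have := rho_inv (quotRep ρ G1 W hW) a (Submodule.Quotient.mk v)
      rw [haα, map_smul, haα', smul_smul] at this
      have h2 : (α * α' - 1) • (Submodule.Quotient.mk v : V ⧸ W) = 0 := by
        rw [sub_smul, this, one_smul, sub_self]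
      have h3 := (smul_eq_zero.1 h2).resolve_right hx
      rw [mul_comm]; exact sub_eq_zero.1 h3
    have e2 : β' * β = 1 := by
      have := rho_inv (quotRep ρ G1 W hW) b (Submodule.Quotient.mk v)
      rw [hbβ, map_smul, hbβ', smul_smul] at this
      have h2 : (β * β' - 1) • (Submodule.Quotient.mk v : V ⧸ W) = 0 := by
        rw [sub_smul, this, one_smul, sub_self]
      have h3 := (smul_eq_zero.1 h2).resolve_right hx
      rw [mul_comm]; exact sub_eq_zero.1 h3
    show quotRep ρ G1 W hW (a * b * a⁻¹ * b⁻¹) _ = _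
    simp only [map_mul, Module.End.mul_apply, hbβ', map_smul, haα', hbβ, haα, smul_smul]
    have e3 : ∀ c : K, c = 1 → c • (Submodule.Quotient.mk v : V ⧸ W) =
        Submodule.Quotient.mk v := by
      rintro c rfl; rw [one_smul]
    apply e3
    linear_combination (α' * α) * e2 + e1
  set G2 := L1.map G1.subtype with hG2
  have hG21 : G2 ≤ G1 := by
    rintro _ ⟨g, _, rfl⟩
    exact g.2
  have hfi : G2.FiniteIndex := by
    constructor
    have h2 : G2.relIndex G1 ≠ 0 := by
      rw [Subgroup.relIndex, hG2, ← Subgroup.comap_subtype,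
        Subgroup.comap_map_eq_self_of_injective G1.subtype_injective]
      exact hL1.index_ne_zero
    have h3 : G1.relIndex ⊤ ≠ 0 := by
      rw [Subgroup.relIndex_top_right]; exact h1.index_ne_zero
    have h4 := Subgroup.relIndex_ne_zero_trans h2 h3
    rwa [Subgroup.relIndex_top_right] at h4
  have hcomm : ∀ c ∈ ⁅G2, G2⁆, ρ c v - v ∈ W := by
    intro c hc
    rw [hG2, ← Subgroup.map_commutator] at hc
    obtain ⟨c', hc', rfl⟩ := hc
    have h2 : quotRep ρ G1 W hW c' (Submodule.Quotient.mk v) = Submodule.Quotient.mk v := hS hc'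
    rw [quotRep_mk, Submodule.Quotient.eq] at h2
    exact h2
  refine ⟨G2, hfi, hG21, W ⊔ Submodule.span K {v}, ?_, ?_, ?_⟩
  · refine lt_of_le_of_ne le_sup_left ?_
    intro h
    apply hvW
    rw [h]
    exact Submodule.mem_sup_right (Submodule.mem_span_singleton_self v)
  · intro g hg w hw
    obtain ⟨w1, hw1, w2, hw2, rfl⟩ := Submodule.mem_sup.1 hw
    obtain ⟨a, rfl⟩ := Submodule.mem_span_singleton.1 hw2
    rw [map_add, map_smul]
    refine Submodule.add_mem _ (Submodule.mem_sup_left (hW g (hG21 hg) w1 hw1))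
      (Submodule.smul_mem _ _ ?_)
    obtain ⟨g', hg', rfl⟩ := hg
    obtain ⟨c, _, hc⟩ := hst hg'
    have h2 : ρ (g' : G) v - c • v ∈ W := by
      rw [quotRep_mk, ← Submodule.Quotient.mk_smul, Submodule.Quotient.eq] at hc
      exact hc
    have h3 : ρ (G1.subtype g') v = (ρ (g' : G) v - c • v) + c • v := by simp
    rw [h3]
    exact Submodule.add_mem _ (Submodule.mem_sup_left h2)
      (Submodule.mem_sup_right (Submodule.smul_mem _ _ (Submodule.mem_span_singleton_self v)))
  · rw [dV, Submodule.span_le]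
    rintro x ⟨c, hc, w, hw, rfl⟩
    obtain ⟨w1, hw1, w2, hw2, rfl⟩ := Submodule.mem_sup.1 hw
    obtain ⟨a, rfl⟩ := Submodule.mem_span_singleton.1 hw2
    have hc2 : c ∈ G2 := (Subgroup.commutator_le.2 fun a ha b hb =>
      G2.mul_mem (G2.mul_mem (G2.mul_mem ha hb) (G2.inv_mem ha)) (G2.inv_mem hb)) hc
    have e : ρ c (w1 + a • v) - (w1 + a • v) = (ρ c w1 - w1) + a • (ρ c v - v) := by
      rw [map_add, map_smul, smul_sub]; abel
    rw [SetLike.mem_coe, e]
    exact W.add_mem (W.sub_mem (hW c (hG21 hc2) w1 hw1) hw1) (W.smul_mem _ (hcomm c hc))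

theorem exists_flag [IsAlgClosed K] [FiniteDimensional K V] (hG : PC G) :
    ∃ G1 : Subgroup G, G1.FiniteIndex ∧ ∃ d : ℕ, (dV ρ ⁅G1, G1⁆)^[d] ⊤ = ⊥ := by
  have key : ∀ (n : ℕ) (G1 : Subgroup G) (W : Submodule K V) (d : ℕ), G1.FiniteIndex →
      (∀ g ∈ G1, ∀ w ∈ W, ρ g w ∈ W) → (dV ρ ⁅G1, G1⁆)^[d] W = ⊥ →
      Module.finrank K V - Module.finrank K W ≤ n →
      ∃ G1 : Subgroup G, G1.FiniteIndex ∧ ∃ d : ℕ, (dV ρ ⁅G1, G1⁆)^[d] ⊤ = ⊥ := by
    intro n
    induction n with
    | zero =>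
      intro G1 W d h1 hW hd hn
      have h2 : Module.finrank K W ≤ Module.finrank K V := Submodule.finrank_le W
      have h3 : W = ⊤ := Submodule.eq_top_of_finrank_eq (by omega)
      exact ⟨G1, h1, d, h3 ▸ hd⟩
    | succ n ih =>
      intro G1 W d h1 hW hd hn
      by_cases hne : W = ⊤
      · exact ⟨G1, h1, d, hne ▸ hd⟩
      obtain ⟨G2, h2, h21, W', hWW', hst', hd'⟩ := flag_step ρ hG G1 h1 W hW hne
      refine ih G2 W' (d + 1) h2 hst' ?_ ?_
      · rw [Function.iterate_succ_apply, eq_bot_iff, ← hd]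
        exact dV_iter_mono ρ (Subgroup.commutator_mono h21 h21) hd' d
      · have := Submodule.finrank_lt_finrank_of_lt hWW'
        omega
  exact key _ ⊤ ⊥ 0 inferInstance (fun g _ w hw => by
    rw [Submodule.mem_bot] at hw ⊢; rw [hw, map_zero]) rfl le_rfl

end flag

end Mal

end Pool.Agent.Polc
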