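import Pool.Agent.Polc.Defs2

/-!
The structure `NConf` (candidates for the normal subgroup `N`), shared by the modules STG4, STG5
and STG of `MP_9e8505_al`.
-/

set_option autoImplicit false

namespace Pool.Agent.Polc

/-- candidates for `N` -/
structure NConf (n c k : ℕ) (G M : Type) [Group G] [AddCommGroup M] [DistribMulAction G M]
    (U N : Subgroup G) [U.Normal] [N.Normal] : Prop where
  uc : UConf n c G M U
  hk : hl U = k
  utor : ∀ (g : G) (k : ℕ), 0 < k → g ^ k ∈ U → g ∈ U
  UN : U ≤ N
  ab : ∀ a b : G, cm a b ∈ N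
  nil : ∃ j, ucs N U j = N

end Pool.Agent.Polc
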