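import Mathlib
import Pool.Agent.Polc.Defs2
import Pool.Agent.Polc.PCB2

/-!
# Module PGX, part a: congruences in endomorphism rings
-/

set_option autoImplicit false

namespace Pool.Agent.Polc

namespace PGX

section ring

variable {A : Type} [Ring A]

/-- `a` is congruent to `1` modulo `m` -/
def cg (m : ℕ) (a : A) : Prop := ∃ φ : A, a - 1 = m • φ

theorem cg_one (m : ℕ) : cg m (1 : A) := ⟨0, by simp⟩

theorem cg_mono {m n : ℕ} (h : n ∣ m) {a : A} (ha : cg m a) : cg n a := by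
  obtain ⟨φ, hφ⟩ := ha
  obtain ⟨k, rfl⟩ := h
  exact ⟨k • φ, by rw [hφ, mul_smul]⟩

theorem cg_mul {m : ℕ} {a b : A} (ha : cg m a) (hb : cg m b) : cg m (a * b) := by
  obtain ⟨φ, hφ⟩ := ha
  obtain ⟨ψ, hψ⟩ := hb
  refine ⟨φ * b + ψ, ?_⟩
  have : a * b - 1 = (a - 1) * b + (b - 1) := by noncomm_ring
  rw [this, hφ, hψ, smul_add, smul_mul_assoc]

theorem cg_inv {m : ℕ} {a a' : A} (h : a * a' = 1) (ha : cg m a) : cg m a' := by
  obtain ⟨φ, hφ⟩ := ha
  refine ⟨-(φ * a'), ?_⟩
  have : a' - 1 = -((a - 1) * a') := by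
    rw [sub_mul, h, one_mul]; abel
  rw [this, hφ, smul_mul_assoc, smul_neg]

theorem cg_conj {m : ℕ} {a u u' : A} (h : u * u' = 1) (ha : cg m a) : cg m (u * a * u') := by
  obtain ⟨φ, hφ⟩ := ha
  refine ⟨u * φ * u', ?_⟩
  have : u * a * u' - 1 = u * (a - 1) * u' := by
    rw [mul_sub, sub_mul, mul_one, h]
  rw [this, hφ, mul_smul_comm, smul_mul_assoc]

theorem cg_comm {m n : ℕ} {a a' b b' : A} (h : a * a' = 1) (h' : b * b' = 1) (ha : cg m a)
    (hb : cg n b) : cg (m * n) (a * b * a' * b') := by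
  obtain ⟨φ, hφ⟩ := ha
  obtain ⟨ψ, hψ⟩ := hb
  refine ⟨(φ * ψ - ψ * φ) * a' * b', ?_⟩
  have h1 : a * b - b * a = (a - 1) * (b - 1) - (b - 1) * (a - 1) := by noncomm_ring
  have h2 : a * b * a' * b' - 1 = (a * b - b * a) * a' * b' := by
    have : b * a * a' * b' = 1 := by rw [mul_assoc b, h, mul_one, h']
    rw [sub_mul, sub_mul, this]
  have h3 : (m • φ) * (n • ψ) = (m * n) • (φ * ψ) := by
    rw [smul_mul_assoc, mul_smul_comm, smul_smul]
  have h4 : (n • ψ) * (m • φ) = (m * n) • (ψ * φ) := by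
    rw [smul_mul_assoc, mul_smul_comm, smul_smul, Nat.mul_comm n m]
  rw [h2, h1, hφ, hψ, h3, h4, ← smul_sub, smul_mul_assoc, smul_mul_assoc]

theorem cg_pow {m : ℕ} {a : A} (ha : cg m a) (k : ℕ) : cg m (a ^ k) := by
  induction k with
  | zero => simpa using cg_one m
  | succ k ih => rw [pow_succ]; exact cg_mul ih ha

theorem cg_pow_dvd {p m : ℕ} (hpm : p ∣ m) {a : A} (ha : cg m a) : cg (p * m) (a ^ p) := by
  have hsum : ∀ k : ℕ, ∃ ψ : A, (∑ i ∈ Finset.range k, a ^ i) = (k : A) + m • ψ := by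
    intro k
    induction k with
    | zero => exact ⟨0, by simp⟩
    | succ k ih =>
      obtain ⟨ψ, hψ⟩ := ih
      obtain ⟨θ, hθ⟩ := cg_pow ha k
      refine ⟨ψ + θ, ?_⟩
      have : a ^ k = 1 + m • θ := by rw [← hθ]; abel
      rw [Finset.sum_range_succ, hψ, this, smul_add]
      push_cast
      abel
  obtain ⟨ψ, hψ⟩ := hsum p
  obtain ⟨φ, hφ⟩ := ha
  obtain ⟨l, hl⟩ := hpm
  have h1 : a ^ p - 1 = (a - 1) * ∑ i ∈ Finset.range p, a ^ i := (mul_geom_sum a p).symm
  refine ⟨φ * (1 + l • ψ), ?_⟩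
  have h2 : (p : A) + m • ψ = p • (1 + l • ψ) := by
    rw [hl, smul_add, mul_smul, nsmul_eq_mul p (1 : A), mul_one]
  rw [h1, hφ, hψ, h2, smul_mul_assoc, mul_smul_comm, smul_smul, Nat.mul_comm m p]

theorem cg_pow_pow {p m : ℕ} (hpm : p ∣ m) {a : A} (ha : cg m a) (s : ℕ) :
    cg (p ^ s * m) (a ^ (p ^ s)) := by
  induction s with
  | zero => simpa using ha
  | succ s ih =>
    have h := cg_pow_dvd (p := p) (hpm.mul_left (p ^ s)) ih
    rw [← pow_mul, ← pow_succ] at h
    have e : p ^ (s + 1) * m = p * (p ^ s * m) := by rw [pow_succ']; ring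
    rw [e]
    exact h

end ring

section end_

variable {W : Type} [AddCommGroup W]

/-- multiples of `m` -/
def mlt (W : Type) [AddCommGroup W] (m : ℕ) : AddSubgroup W := (nsmulAddMonoidHom m).range

theorem mem_mlt {m : ℕ} {w : W} : w ∈ mlt W m ↔ ∃ v : W, w = m • v := by
  constructor
  · rintro ⟨v, hv⟩
    exact ⟨v, hv.symm⟩
  · rintro ⟨v, hv⟩
    exact ⟨v, hv.symm⟩

/-- reduction of endomorphisms modulo `m` -/
def red (m : ℕ) : AddMonoid.End W →* AddMonoid.End (W ⧸ mlt W m) where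
  toFun a := QuotientAddGroup.map (mlt W m) (mlt W m) a (by
    intro w hw
    obtain ⟨v, rfl⟩ := mem_mlt.mp hw
    refine mem_mlt.mpr ⟨a v, ?_⟩
    exact map_nsmul a m v)
  map_one' := by
    apply AddMonoidHom.ext
    intro x
    induction x using QuotientAddGroup.induction_on with
    | H w => rfl
  map_mul' a b := by
    apply AddMonoidHom.ext
    intro x
    induction x using QuotientAddGroup.induction_on with
    | H w => rfl

theorem red_eq_one (htf : ∀ (k : ℕ) (w : W), 0 < k → k • w = 0 → w = 0) {m : ℕ} (hm : 0 < m)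
    (a : AddMonoid.End W) : red m a = 1 ↔ cg m a := by
  constructor
  · intro h
    have h1 : ∀ w : W, ∃ v : W, a w - w = m • v := by
      intro w
      have h2 : red m a (w : W ⧸ mlt W m) = (w : W ⧸ mlt W m) := by rw [h]; rfl
      have h3 : ((a w : W) : W ⧸ mlt W m) = (w : W ⧸ mlt W m) := h2
      rw [QuotientAddGroup.eq] at h3
      have h4 : a w - w ∈ mlt W m := by
        have := (mlt W m).neg_mem h3
        have e : -(-(a w) + w) = a w - w := by abel
        rwa [e] at this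
      exact mem_mlt.mp h4
    choose v hv using h1
    have hinj : ∀ x y : W, m • x = m • y → x = y := by
      intro x y hxy
      have : m • (x - y) = 0 := by rw [smul_sub, hxy, sub_self]
      exact sub_eq_zero.mp (htf m _ hm this)
    refine ⟨AddMonoidHom.mk' v ?_, ?_⟩
    · intro x y
      apply hinj
      rw [← hv, smul_add, ← hv, ← hv, map_add]
      abel
    · ext w
      exact hv w
  · rintro ⟨φ, hφ⟩
    apply AddMonoidHom.ext
    intro x
    induction x using QuotientAddGroup.induction_on with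
    | H w =>
    change ((a w : W) : W ⧸ mlt W m) = (w : W ⧸ mlt W m)
    rw [QuotientAddGroup.eq]
    refine mem_mlt.mpr ⟨-(φ w), ?_⟩
    have h1 : (a - 1) w = (m • φ) w := by rw [hφ]
    have h2 : a w - w = m • φ w := h1
    have e : -(a w) + w = -(a w - w) := by abel
    rw [e, h2, smul_neg]

theorem finite_quot (hW : Module.Finite ℤ W) {m : ℕ} (hm : 0 < m) : Finite (W ⧸ mlt W m) := by
  have h1 : AddGroup.FG W := by
    rw [← Module.Finite.iff_addGroup_fg]
    exact hW
  have h2 : AddGroup.FG (W ⧸ mlt W m) := inferInstance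
  refine AddCommGroup.finite_of_fg_isAddTorsion _ ?_
  intro x
  induction x using QuotientAddGroup.induction_on with
  | H w =>
    refine isOfFinAddOrder_iff_nsmul_eq_zero.mpr ⟨m, hm, ?_⟩
    change ((m • w : W) : W ⧸ mlt W m) = 0
    rw [QuotientAddGroup.eq_zero_iff]
    exact mem_mlt.mpr ⟨w, rfl⟩

theorem finite_end {V : Type} [AddCommGroup V] (h : Finite V) : Finite (AddMonoid.End V) :=
  Finite.of_injective (fun f : AddMonoid.End V => (f : V → V)) DFunLike.coe_injective

/-- exponent of the units modulo `m` -/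
theorem exists_exp (hW : Module.Finite ℤ W)
    (htf : ∀ (k : ℕ) (w : W), 0 < k → k • w = 0 → w = 0) {m : ℕ} (hm : 0 < m) :
    ∃ t0, 0 < t0 ∧ ∀ a a' : AddMonoid.End W, a * a' = 1 → a' * a = 1 → ∀ t, t0 ∣ t →
      cg m (a ^ t) := by
  have h1 := finite_quot hW hm
  have h2 := finite_end h1
  have h3 : Finite (AddMonoid.End (W ⧸ mlt W m))ˣ := inferInstance
  refine ⟨Nat.card (AddMonoid.End (W ⧸ mlt W m))ˣ, Nat.card_pos, ?_⟩
  intro a a' h h' t ht
  rw [← red_eq_one htf hm]
  let u : (AddMonoid.End (W ⧸ mlt W m))ˣ := ⟨red m a, red m a', by rw [← map_mul, h, map_one],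
    by rw [← map_mul, h', map_one]⟩
  obtain ⟨l, rfl⟩ := ht
  have h4 : u ^ (Nat.card (AddMonoid.End (W ⧸ mlt W m))ˣ) = 1 := pow_card_eq_one'
  have h5 : (red m a) ^ (Nat.card (AddMonoid.End (W ⧸ mlt W m))ˣ) = 1 := by
    have := congrArg Units.val h4
    rw [Units.val_pow_eq_pow_val, Units.val_one] at this
    exact this
  rw [map_pow, pow_mul, h5, one_pow]

end end_

end PGX

end Pool.Agent.Polc
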