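import Mathlib
import Pool.Agent.Polc.PGXa

/-!
# Module PGX, part b: the subgroup `H`
-/

set_option autoImplicit false

namespace Pool.Agent.Polc

namespace PGX

/-! ### chains -/

section chain

variable {G : Type} [Group G]

theorem rchain_refl (p : ℕ) (H0 : Subgroup G) : RChain p H0 H0 :=
  ⟨0, fun _ => H0, rfl, rfl, fun j hj => absurd hj (Nat.not_lt_zero j)⟩

theorem rchain_append {p : ℕ} {H0 C : Subgroup G} (h : RChain p H0 C) (g : G)
    (hg : ∀ h ∈ C, cm g h ∈ Subgroup.closure {k | ∃ v ∈ C, k = v ^ p} ⊔ H0 ∧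
      cm g⁻¹ h ∈ Subgroup.closure {k | ∃ v ∈ C, k = v ^ p} ⊔ H0) :
    RChain p H0 (C ⊔ Subgroup.zpowers g) := by
  obtain ⟨n, c, h0, hn, hc⟩ := h
  refine ⟨n + 1, fun j => if j ≤ n then c j else C ⊔ Subgroup.zpowers g, ?_, ?_, ?_⟩
  · simp [h0]
  · simp
  · intro j hj
    rcases Nat.lt_or_ge j n with h1 | h1
    · obtain ⟨g', h2, h3⟩ := hc j h1
      refine ⟨g', ?_, ?_⟩
      · simp only [if_pos h1.le, if_pos (Nat.succ_le_of_lt h1)]
        exact h2
      · simp only [if_pos h1.le, if_pos (Nat.zero_le n)]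
        exact h3
    · have h2 : j = n := by omega
      subst h2
      refine ⟨g, ?_, ?_⟩
      · simp [hn]
      · simp only [if_pos le_rfl, if_pos (Nat.zero_le j), hn, h0]
        exact hg

theorem rchain_step {p : ℕ} {H0 A B : Subgroup G} (h : RChain p H0 A) (hAB : A ≤ B)
    (hB : B.FG) (hcm : ∀ g ∈ B, ∀ h ∈ B,
      cm g h ∈ Subgroup.closure {k | ∃ v ∈ A, k = v ^ p} ⊔ H0) : RChain p H0 B := by
  classical
  obtain ⟨S, hS⟩ := hB
  have key : ∀ T : Finset G, (T : Set G) ⊆ B →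
      RChain p H0 (A ⊔ Subgroup.closure (T : Set G)) := by
    intro T
    induction T using Finset.induction_on with
    | empty => intro _; simpa using h
    | insert a T _ ih =>
      intro hT
      have ha : a ∈ B := hT (by simp)
      have hT' : (T : Set G) ⊆ B := fun x hx => hT (by simp [Finset.mem_coe.mp hx])
      have h1 := ih hT'
      have h2 : A ⊔ Subgroup.closure (T : Set G) ≤ B := sup_le hAB ((Subgroup.closure_le B).mpr hT')
      have h3 : Subgroup.closure {k | ∃ v ∈ A, k = v ^ p} ⊔ H0 ≤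
          Subgroup.closure {k | ∃ v ∈ A ⊔ Subgroup.closure (T : Set G), k = v ^ p} ⊔ H0 := by
        refine sup_le_sup_right (Subgroup.closure_mono ?_) _
        rintro k ⟨v, hv, rfl⟩
        exact ⟨v, Subgroup.mem_sup_left hv, rfl⟩
      have h4 := rchain_append h1 a (fun x hx => ⟨h3 (hcm a ha x (h2 hx)),
        h3 (hcm a⁻¹ (B.inv_mem ha) x (h2 hx))⟩)
      have e : A ⊔ Subgroup.closure ((insert a T : Finset G) : Set G) =
          A ⊔ Subgroup.closure (T : Set G) ⊔ Subgroup.zpowers a := by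
        rw [Finset.coe_insert, Set.insert_eq, Subgroup.closure_union,
          Subgroup.zpowers_eq_closure, sup_comm (Subgroup.closure {a}), sup_assoc]
      rw [e]
      exact h4
  have h5 := key S (by rw [← hS]; exact Subgroup.subset_closure)
  rw [hS, sup_eq_right.mpr hAB] at h5
  exact h5

end chain

/-! ### congruence subgroups -/

section grp

variable {G : Type} [Group G] {N U : Subgroup G} {W : Type} [AddCommGroup W]
  (lam : N →* AddMonoid.End W)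

/-- congruence subgroup of `N` -/
def Dm (m : ℕ) : Subgroup N where
  carrier := {a | cg m (lam a)}
  one_mem' := by
    change cg m (lam 1)
    rw [map_one]
    exact cg_one m
  mul_mem' := by
    intro a b ha hb
    change cg m (lam (a * b))
    rw [map_mul]
    exact cg_mul ha hb
  inv_mem' := by
    intro a ha
    change cg m (lam a⁻¹)
    exact cg_inv (a := lam a) (by rw [← map_mul, mul_inv_cancel, map_one]) ha

/-- congruence subgroup, as a subgroup of `G` -/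
def DG (m : ℕ) : Subgroup G := (Dm lam m).map N.subtype

theorem mem_DG {m : ℕ} {g : G} : g ∈ DG lam m ↔ ∃ h : g ∈ N, cg m (lam ⟨g, h⟩) := by
  constructor
  · rintro ⟨a, ha, rfl⟩
    exact ⟨a.2, ha⟩
  · rintro ⟨h, hg⟩
    exact ⟨⟨g, h⟩, hg, rfl⟩

theorem DG_le (m : ℕ) : DG lam m ≤ N := fun _ hg => ((mem_DG lam).mp hg).1

theorem DG_mono {m n : ℕ} (h : n ∣ m) : DG lam m ≤ DG lam n := by
  intro g hg
  obtain ⟨h1, h2⟩ := (mem_DG lam).mp hg
  exact (mem_DG lam).mpr ⟨h1, cg_mono h h2⟩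

theorem DG_fi (hW : Module.Finite ℤ W)
    (htf : ∀ (k : ℕ) (w : W), 0 < k → k • w = 0 → w = 0) {m : ℕ} (hm : 0 < m) :
    (DG lam m).relIndex N ≠ 0 := by
  have h1 := finite_quot hW hm
  have h2 := finite_end h1
  have e : (DG lam m).subgroupOf N = ((red m).comp lam).toHomUnits.ker := by
    ext a
    rw [Subgroup.mem_subgroupOf, mem_DG, MonoidHom.mem_ker, Units.ext_iff,
      MonoidHom.coe_toHomUnits, Units.val_one, MonoidHom.comp_apply, red_eq_one htf hm]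
    constructor
    · rintro ⟨_, h⟩
      exact h
    · intro h
      exact ⟨a.2, h⟩
  unfold Subgroup.relIndex
  rw [e]
  have : Finite ((red m).comp lam).toHomUnits.range := inferInstance
  exact (Subgroup.finiteIndex_ker ((red m).comp lam).toHomUnits).index_ne_zero

theorem DG_normal (hN : N.Normal) (kap : G →* AddMonoid.End W)
    (hkap : ∀ (g : G) (a b : N), (b : G) = g * a * g⁻¹ → kap g * lam a = lam b * kap g) (m : ℕ) :
    (DG lam m).Normal := by
  refine ⟨fun a ha g => ?_⟩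
  obtain ⟨h1, h2⟩ := (mem_DG lam).mp ha
  have h3 : g * a * g⁻¹ ∈ N := hN.conj_mem a h1 g
  refine (mem_DG lam).mpr ⟨h3, ?_⟩
  have h4 := hkap g ⟨a, h1⟩ ⟨g * a * g⁻¹, h3⟩ rfl
  have h5 : kap g * kap g⁻¹ = 1 := by rw [← map_mul, mul_inv_cancel, map_one]
  have h6 : lam ⟨g * a * g⁻¹, h3⟩ = kap g * lam ⟨a, h1⟩ * kap g⁻¹ :=
    calc lam ⟨g * a * g⁻¹, h3⟩ = lam ⟨g * a * g⁻¹, h3⟩ * (kap g * kap g⁻¹) := by
          rw [h5, mul_one]
      _ = kap g * lam ⟨a, h1⟩ * kap g⁻¹ := by rw [← mul_assoc, ← h4]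
  rw [h6]
  exact cg_conj h5 h2

/-- `lam (g x^n g⁻¹ x⁻ⁿ) * kap x ^ n = (lam (g x g⁻¹ x⁻¹) * kap x)^n` -/
theorem lam_pow (hN : N.Normal) (hab : ∀ a b : G, cm a b ∈ N) (kap : G →* AddMonoid.End W)
    (hkap : ∀ (g : G) (a b : N), (b : G) = g * a * g⁻¹ → kap g * lam a = lam b * kap g)
    (g x : G) (n : ℕ) :
    lam ⟨cm g (x ^ n), hab g (x ^ n)⟩ * kap x ^ n = (lam ⟨cm g x, hab g x⟩ * kap x) ^ n := by
  induction n with
  | zero =>
    have : (⟨cm g (x ^ 0), hab g (x ^ 0)⟩ : N) = 1 := by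
      apply Subtype.ext
      simp [cm]
    rw [this]
    simp
  | succ n ih =>
    have h1 : x * cm g (x ^ n) * x⁻¹ ∈ N := hN.conj_mem _ (hab _ _) x
    have h2 := hkap x ⟨cm g (x ^ n), hab g (x ^ n)⟩ ⟨x * cm g (x ^ n) * x⁻¹, h1⟩ rfl
    have h3 : (⟨cm g (x ^ (n + 1)), hab g (x ^ (n + 1))⟩ : N) =
        ⟨cm g x, hab g x⟩ * ⟨x * cm g (x ^ n) * x⁻¹, h1⟩ := by
      apply Subtype.ext
      change cm g (x ^ (n + 1)) = cm g x * (x * cm g (x ^ n) * x⁻¹)
      simp only [cm, pow_succ']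
      group
    rw [h3, map_mul, pow_succ' (lam _ * kap x), ← ih, pow_succ', mul_assoc (lam _) (kap x),
      ← mul_assoc (kap x) (lam _), h2]
    simp only [mul_assoc]

/-! ### the core statement -/

theorem core (h : PC G) (hNn : N.Normal) (hUn : U.Normal) (hUN : U ≤ N)
    (hc : ∀ u ∈ U, ∀ g : G, g * u = u * g) (hab : ∀ a b : G, cm a b ∈ N)
    (hW : Module.Finite ℤ W) (htf : ∀ (k : ℕ) (w : W), 0 < k → k • w = 0 → w = 0)
    (hker : ∀ a : N, (a : G) ∈ U → lam a = 1) (kap : G →* AddMonoid.End W)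
    (hkap : ∀ (g : G) (a b : N), (b : G) = g * a * g⁻¹ → kap g * lam a = lam b * kap g)
    (L : ℕ) (F : ℕ → Subgroup G) (hF0 : F 0 = N) (hFL : F L = U) (hFs : ∀ l, F (l + 1) ≤ F l)
    (hFc : ∀ l, ∀ u ∈ F l, ∀ v ∈ N, cm u v ∈ F (l + 1)) (c : ℕ) (hcp : 0 < c)
    (hpg : ∀ l m q : ℕ, 0 < m → 0 < q → ∀ u ∈ F l, u ∈ DG lam (c * m * q) →
      u ∈ Subgroup.closure {k | ∃ v ∈ F l, v ∈ DG lam m ∧ k = v ^ q} ⊔ U)
    (p : ℕ) (hp : p.Prime) (k : ℕ) (hk : 0 < k) :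
    ∃ H : Subgroup G, H.Normal ∧ H ≤ pw N k ∧ H.relIndex N ≠ 0 ∧ RChain p (U ⊓ H) H ∧
      ∃ t0, 0 < t0 ∧ ∀ t, 0 < t → t0 ∣ t → ∀ (x g : G) (s : ℕ),
        cm (g * x ^ (t * p ^ s) * g⁻¹ * (x ^ (t * p ^ s))⁻¹) (x ^ (t * p ^ s)) ∈
          Subgroup.closure {k | ∃ v ∈ H, k = v ^ (p ^ (2 * s))} ⊔ (U ⊓ H) := by
  have hFanti : Antitone F := antitone_nat_of_succ_le hFs
  have hFU : ∀ l ≤ L, U ≤ F l := fun l hl => hFL ▸ hFanti hl
  have hFN : ∀ l, F l ≤ N := fun l => hF0 ▸ hFanti (Nat.zero_le l)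
  set m := c * p * c * k with hm
  have hmpos : 0 < m := by
    have := hp.pos
    positivity
  have hUD : ∀ n, U ≤ DG lam n := by
    intro n u hu
    refine (mem_DG lam).mpr ⟨hUN hu, ?_⟩
    rw [hker ⟨u, hUN hu⟩ hu]
    exact cg_one n
  have hDn := DG_normal lam hNn kap hkap m
  have hpn := pw_normal N hNn k
  set H := pw N k ⊓ DG lam m with hH
  have hHn : H.Normal := by
    rw [hH]
    exact Subgroup.normal_inf_normal _ _
  have hHN : H ≤ N := inf_le_left.trans (pw_le N k)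
  -- elements of the congruence subgroup
  have hA : ∀ v ∈ DG lam m, ∃ x ∈ H, ∃ u ∈ U, v = x * u := by
    intro v hv
    have h1 : v ∈ DG lam (c * 1 * k) := DG_mono lam (by
      rw [hm]; exact ⟨c * p, by ring⟩) hv
    have h2 := hpg 0 1 k one_pos hk v (by rw [hF0]; exact DG_le lam _ hv) h1
    have h3 : v ∈ pw N k ⊔ U := by
      refine (sup_le_sup_right ?_ U) h2
      refine (Subgroup.closure_le _).mpr ?_
      rintro y ⟨w, hw, _, rfl⟩
      exact Subgroup.subset_closure ⟨w, hFN 0 hw, rfl⟩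
    obtain ⟨a, ha, u, hu, rfl⟩ := Subgroup.mem_sup_of_normal_right.mp h3
    refine ⟨a, ⟨ha, ?_⟩, u, hu, rfl⟩
    have := (DG lam m).mul_mem hv ((DG lam m).inv_mem (hUD m hu))
    simpa using this
  -- conversion
  have hB : ∀ l ≤ L, ∀ q : ℕ, ∀ z ∈ H,
      z ∈ Subgroup.closure {k | ∃ v ∈ F l, v ∈ DG lam m ∧ k = v ^ q} ⊔ U →
      z ∈ Subgroup.closure {k | ∃ v ∈ F l ⊓ H, k = v ^ q} ⊔ (U ⊓ H) := by
    intro l hl q z hz hz'
    have h0 : Subgroup.closure {k | ∃ v ∈ F l, v ∈ DG lam m ∧ k = v ^ q} ⊔ U ≤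
        Subgroup.closure {k | ∃ v ∈ F l ⊓ H, k = v ^ q} ⊔ U := by
      refine sup_le ?_ le_sup_right
      refine (Subgroup.closure_le _).mpr ?_
      rintro y ⟨v, hv, hv', rfl⟩
      obtain ⟨x, hx, u, hu, rfl⟩ := hA v hv'
      have hxF : x ∈ F l := by
        have := (F l).mul_mem hv ((F l).inv_mem (hFU l hl hu))
        simpa using this
      have e : (x * u) ^ q = x ^ q * u ^ q := (Commute.mul_pow (hc u hu x) q)
      rw [e]
      exact Subgroup.mul_mem_sup (Subgroup.subset_closure ⟨x, ⟨hxF, hx⟩, rfl⟩)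
        (U.pow_mem hu q)
    obtain ⟨a, ha, u, hu, rfl⟩ := Subgroup.mem_sup_of_normal_right.mp (h0 hz')
    have haH : a ∈ H := by
      refine ((Subgroup.closure_le H).mpr ?_) ha
      rintro y ⟨v, hv, rfl⟩
      exact H.pow_mem hv.2 q
    have huH : u ∈ H := by
      have := H.mul_mem (H.inv_mem haH) hz
      simpa using this
    exact Subgroup.mul_mem_sup ha ⟨hu, huH⟩
  -- commutators
  have hC : ∀ l < L, ∀ g ∈ F l ⊓ H, ∀ x ∈ F l ⊓ H,
      cm g x ∈ Subgroup.closure {k | ∃ v ∈ F (l + 1) ⊓ H, k = v ^ p} ⊔ (U ⊓ H) := by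
    intro l hl g hg x hx
    have h1 : cm g x ∈ H :=
      H.mul_mem (H.mul_mem (H.mul_mem hg.2 hx.2) (H.inv_mem hg.2)) (H.inv_mem hx.2)
    refine hB (l + 1) hl p _ h1 ?_
    refine hpg (l + 1) m p hmpos hp.pos _ (hFc l g hg.1 x (hHN hx.2)) ?_
    have h2 : cm g x ∈ DG lam (m * m) := by
      obtain ⟨hgN, hg'⟩ := (mem_DG lam).mp hg.2.2
      obtain ⟨hxN, hx'⟩ := (mem_DG lam).mp hx.2.2
      refine (mem_DG lam).mpr ⟨hab g x, ?_⟩
      have e : (⟨cm g x, hab g x⟩ : N) = ⟨g, hgN⟩ * ⟨x, hxN⟩ * ⟨g, hgN⟩⁻¹ * ⟨x, hxN⟩⁻¹ := by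
        apply Subtype.ext
        rfl
      rw [e, map_mul, map_mul, map_mul]
      exact cg_comm (by rw [← map_mul, mul_inv_cancel, map_one])
        (by rw [← map_mul, mul_inv_cancel, map_one]) hg' hx'
    exact DG_mono lam (by rw [hm]; exact ⟨c * k, by ring⟩) h2
  refine ⟨H, hHn, inf_le_left, ?_, ?_, ?_⟩
  · -- finite index
    exact Subgroup.relIndex_inf_ne_zero (pw_fi h N k hk) (DG_fi lam hW htf hmpos)
  · -- the chain
    have key : ∀ i ≤ L, RChain p (U ⊓ H) (F (L - i) ⊓ H) := by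
      intro i
      induction i with
      | zero =>
        intro _
        rw [Nat.sub_zero, hFL]
        exact rchain_refl p _
      | succ i ih =>
        intro hi
        have h1 := ih (by omega)
        have e : L - i = (L - (i + 1)) + 1 := by omega
        rw [e] at h1
        refine rchain_step h1 (inf_le_inf_right H (hFs _)) (h.fg _) ?_
        exact hC (L - (i + 1)) (by omega)
    have h1 := key L le_rfl
    rw [Nat.sub_self, hF0, inf_eq_right.mpr hHN] at h1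
    exact h1
  · -- the exponent
    obtain ⟨t0, ht0, hexp⟩ := exists_exp hW htf hmpos
    refine ⟨t0, ht0, ?_⟩
    intro t _ htd x g s
    have hpm : p ∣ m := ⟨c * c * k, by rw [hm]; ring⟩
    set q := t * p ^ s with hq
    -- the two units
    have hcgb : ∀ y : G, cg (p ^ s * m) (kap y ^ q) := by
      intro y
      have h1 : kap y * kap y⁻¹ = 1 := by rw [← map_mul, mul_inv_cancel, map_one]
      have h2 : kap y⁻¹ * kap y = 1 := by rw [← map_mul, inv_mul_cancel, map_one]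
      have h3 := cg_pow_pow hpm (hexp _ _ h1 h2 t htd) s
      rw [← pow_mul] at h3
      exact h3
    have hcga : cg (p ^ s * m) ((lam ⟨cm g x, hab g x⟩ * kap x) ^ q) := by
      have h1 : (lam ⟨cm g x, hab g x⟩ * kap x) * (kap x⁻¹ * lam ⟨cm g x, hab g x⟩⁻¹) = 1 := by
        rw [mul_assoc, ← mul_assoc (kap x), ← map_mul kap, mul_inv_cancel, map_one, one_mul,
          ← map_mul, mul_inv_cancel, map_one]
      have h2 : (kap x⁻¹ * lam ⟨cm g x, hab g x⟩⁻¹) * (lam ⟨cm g x, hab g x⟩ * kap x) = 1 := by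
        rw [mul_assoc, ← mul_assoc (lam _), ← map_mul lam, inv_mul_cancel, map_one, one_mul,
          ← map_mul, inv_mul_cancel, map_one]
      have h3 := cg_pow_pow hpm (hexp _ _ h1 h2 t htd) s
      rw [← pow_mul] at h3
      exact h3
    -- the element `C`
    have hCe : cg (p ^ s * m) (lam ⟨cm g (x ^ q), hab g (x ^ q)⟩) := by
      have h1 := lam_pow lam hNn hab kap hkap g x q
      have h2 : kap x ^ q * kap x⁻¹ ^ q = 1 := by
        rw [← map_pow, ← map_pow, ← map_mul, inv_pow, mul_inv_cancel, map_one]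
      have h3 : lam ⟨cm g (x ^ q), hab g (x ^ q)⟩ =
          (lam ⟨cm g x, hab g x⟩ * kap x) ^ q * kap x⁻¹ ^ q := by
        rw [← h1, mul_assoc, h2, mul_one]
      rw [h3]
      exact cg_mul hcga (hcgb x⁻¹)
    set C := cm g (x ^ q) with hCdef
    have hCg : g * x ^ q * g⁻¹ * (x ^ q)⁻¹ = C := rfl
    rw [hCg]
    have hCN : C ∈ N := hab g (x ^ q)
    -- membership in `H`
    have h1 : cm C (x ^ q) ∈ H := by
      have h2 : C ∈ DG lam m := (mem_DG lam).mpr ⟨hCN, cg_mono ⟨p ^ s, by ring⟩ hCe⟩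
      obtain ⟨y, hy, u, hu, hyu⟩ := hA C h2
      have h3 : cm C (x ^ q) = y * (x ^ q * y⁻¹ * (x ^ q)⁻¹) := by
        rw [hyu]
        have e1 : u * x ^ q = x ^ q * u := (hc u hu _).symm
        simp only [cm, mul_inv_rev]
        calc y * u * x ^ q * (u⁻¹ * y⁻¹) * (x ^ q)⁻¹
            = y * (u * x ^ q) * u⁻¹ * y⁻¹ * (x ^ q)⁻¹ := by group
          _ = y * (x ^ q * u) * u⁻¹ * y⁻¹ * (x ^ q)⁻¹ := by rw [e1]
          _ = y * (x ^ q * y⁻¹ * (x ^ q)⁻¹) := by group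
      rw [h3]
      exact H.mul_mem hy (hHn.conj_mem _ (H.inv_mem hy) _)
    have h2 : cm C (x ^ q) ∈ DG lam ((p ^ s * m) * (p ^ s * m)) := by
      refine (mem_DG lam).mpr ⟨hab _ _, ?_⟩
      have h3 : x ^ q * C⁻¹ * (x ^ q)⁻¹ ∈ N := hNn.conj_mem _ (N.inv_mem hCN) _
      have e : (⟨cm C (x ^ q), hab _ _⟩ : N) = ⟨C, hCN⟩ * ⟨x ^ q * C⁻¹ * (x ^ q)⁻¹, h3⟩ := by
        apply Subtype.ext
        simp only [cm, Subgroup.coe_mul]
        group
      have h4 := hkap (x ^ q) ⟨C, hCN⟩⁻¹ ⟨x ^ q * C⁻¹ * (x ^ q)⁻¹, h3⟩ rfl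
      have h5 : kap (x ^ q) * kap (x ^ q)⁻¹ = 1 := by rw [← map_mul, mul_inv_cancel, map_one]
      have h6 : lam ⟨x ^ q * C⁻¹ * (x ^ q)⁻¹, h3⟩ =
          kap (x ^ q) * lam ⟨C, hCN⟩⁻¹ * kap (x ^ q)⁻¹ :=
        calc lam ⟨x ^ q * C⁻¹ * (x ^ q)⁻¹, h3⟩
            = lam ⟨x ^ q * C⁻¹ * (x ^ q)⁻¹, h3⟩ * (kap (x ^ q) * kap (x ^ q)⁻¹) := by
              rw [h5, mul_one]
          _ = kap (x ^ q) * lam ⟨C, hCN⟩⁻¹ * kap (x ^ q)⁻¹ := by rw [← mul_assoc, ← h4]
      rw [e, map_mul, h6]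
      have h7 := cg_comm (a := lam ⟨C, hCN⟩) (a' := lam ⟨C, hCN⟩⁻¹) (b := kap (x ^ q))
        (b' := kap (x ^ q)⁻¹) (by rw [← map_mul, mul_inv_cancel, map_one]) h5 hCe
        (by rw [map_pow]; exact hcgb x)
      have h8 : lam ⟨C, hCN⟩ * (kap (x ^ q) * lam ⟨C, hCN⟩⁻¹ * kap (x ^ q)⁻¹) =
          lam ⟨C, hCN⟩ * kap (x ^ q) * lam ⟨C, hCN⟩⁻¹ * kap (x ^ q)⁻¹ := by
        simp only [mul_assoc]
      rw [h8]
      exact h7
    have h3 := hpg 0 m (p ^ (2 * s)) hmpos (pow_pos hp.pos _) (cm C (x ^ q))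
      (by rw [hF0]; exact hab _ _) (DG_mono lam (by
        rw [hm]; exact ⟨p * c * k, by ring⟩) h2)
    have h4 := hB 0 (Nat.zero_le L) (p ^ (2 * s)) _ h1 h3
    rw [hF0, inf_eq_right.mpr hHN] at h4
    exact h4

end grp

end PGX

end Pool.Agent.Polc
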