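import Pool.Agent.Polc.Defs

set_option autoImplicit false

/-!
# Quotients `V / K` of stable subgroups as modules over `H`
-/

namespace Pool.Agent.Polc

section mod
variable {G M : Type} [Group G] [AddCommGroup M] [DistribMulAction G M]

theorem exists_quot (H : Subgroup G) (V K : AddSubgroup M) (hV : Stb H V) (hK : Stb H K) :
    ∃ (Q : Type) (_ : AddCommGroup Q) (_ : DistribMulAction H Q) (f : V →+ Q),
      Function.Surjective f ∧ (∀ v : V, f v = 0 ↔ (v : M) ∈ K) ∧
      ∀ (h : H) (v : V), f ⟨(h : G) • (v : M), hV h h.2 v v.2⟩ = h • f v := by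
  classical
  let φ : H → (V →+ V) := fun h =>
    { toFun := fun v => ⟨(h : G) • (v : M), hV h h.2 v v.2⟩
      map_zero' := by ext; simp
      map_add' := fun a b => by ext; simp }
  have hφ : ∀ h : H, K.addSubgroupOf V ≤ (K.addSubgroupOf V).comap (φ h) := by
    intro h v hv
    rw [AddSubgroup.mem_comap, AddSubgroup.mem_addSubgroupOf]
    rw [AddSubgroup.mem_addSubgroupOf] at hv
    exact hK h h.2 _ hv
  let Q := V ⧸ (K.addSubgroupOf V)
  let ψ : H → (Q →+ Q) := fun h => QuotientAddGroup.map _ _ (φ h) (hφ h)
  have hψ : ∀ (h : H) (v : V), ψ h (QuotientAddGroup.mk v) = QuotientAddGroup.mk (φ h v) :=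
    fun h v => rfl
  let act : DistribMulAction H Q :=
    { smul := fun h q => ψ h q
      one_smul := by
        intro q
        induction q using QuotientAddGroup.induction_on with
        | H v =>
          show ψ 1 (QuotientAddGroup.mk v) = _
          rw [hψ]
          congr 1
          ext
          show ((1 : H) : G) • (v : M) = v
          simp
      mul_smul := by
        intro a b q
        induction q using QuotientAddGroup.induction_on with
        | H v =>
          show ψ (a * b) (QuotientAddGroup.mk v) = ψ a (ψ b (QuotientAddGroup.mk v))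
          rw [hψ, hψ, hψ]
          congr 1
          ext
          show ((a * b : H) : G) • (v : M) = (a : G) • ((b : G) • (v : M))
          rw [Subgroup.coe_mul, mul_smul]
      smul_zero := fun a => (ψ a).map_zero
      smul_add := fun a x y => (ψ a).map_add x y }
  refine ⟨Q, inferInstance, act, QuotientAddGroup.mk' _, QuotientAddGroup.mk'_surjective _, ?_, ?_⟩
  · intro v
    rw [QuotientAddGroup.mk'_apply, QuotientAddGroup.eq_zero_iff, AddSubgroup.mem_addSubgroupOf]
  · intro h v
    rfl

end mod

end Pool.Agent.Polc
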