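import Pool.Agent.Polc.QUOT

set_option autoImplicit false

/-!
# Residual finiteness: `m ∉ Δ(H)^n V` for suitable `H`
-/

namespace Pool.Agent.Polc

/-- `gspan H F` is `H`-stable -/
theorem gspan_stb_aux {G M : Type} [Group G] [AddCommGroup M] [DistribMulAction G M]
    (H : Subgroup G) (F : Set M) : Stb H (gspan H F) := by
  intro h hh v hv
  unfold gspan at hv ⊢
  induction hv using AddSubgroup.closure_induction with
  | mem x hx =>
    obtain ⟨k, hk, f, hf, rfl⟩ := hx
    exact AddSubgroup.subset_closure ⟨h * k, H.mul_mem hh hk, f, hf, (mul_smul _ _ _).symm⟩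
  | zero => rw [smul_zero]; exact AddSubgroup.zero_mem _
  | add x y _ _ hx hy => rw [smul_add]; exact AddSubgroup.add_mem _ hx hy
  | neg x _ hx => rw [smul_neg]; exact AddSubgroup.neg_mem _ hx

theorem gspan_le_aux {G M : Type} [Group G] [AddCommGroup M] [DistribMulAction G M]
    {H : Subgroup G} {F : Set M} {W : AddSubgroup M} (hW : Stb H W) (hF : F ⊆ W) :
    gspan H F ≤ W := by
  unfold gspan
  rw [AddSubgroup.closure_le]
  rintro _ ⟨k, hk, f, hf, rfl⟩
  exact hW k hk f (hF hf)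

theorem mem_gspan_aux {G M : Type} [Group G] [AddCommGroup M] [DistribMulAction G M]
    {H : Subgroup G} {F : Set M} {m : M} (hm : m ∈ F) : m ∈ gspan H F := by
  unfold gspan
  exact AddSubgroup.subset_closure ⟨1, H.one_mem, m, hm, (one_smul _ _).symm⟩

/-- the statement `rf` from the statements `ph`, `noeth_max` and `PC.sub` -/
theorem rf_aux
    (hph : ∀ {N E : Type} [Group N] [AddCommGroup E] [DistribMulAction N E] (_ : PC N)
      (_ : Group.IsNilpotent N) (p : ℕ) (_ : p.Prime) (_ : ∀ m : E, p • m = 0)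
      (_ : ∀ W : AddSubgroup E, Stb (⊤ : Subgroup N) W → W = ⊥ ∨ W = ⊤), Finite E)
    (hnoeth_max : ∀ {G M : Type} [Group G] [AddCommGroup M] [DistribMulAction G M] (_ : PC G)
      (H : Subgroup G) (V : AddSubgroup M) (_ : FGM H V)
      (P : AddSubgroup M → Prop) (_ : ∃ W, P W ∧ Stb H W ∧ W ≤ V),
      ∃ W, (P W ∧ Stb H W ∧ W ≤ V) ∧ ∀ W', P W' → Stb H W' → W' ≤ V → W ≤ W' → W' = W)
    (hsub : ∀ {G : Type} [Group G] (_ : PC G) (H : Subgroup G), PC H)
    {G M : Type} [Group G] [AddCommGroup M] [DistribMulAction G M]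
    (h : PC G) (p : ℕ) (hp : p.Prime) (hM : ∀ m : M, p • m = 0) (N : Subgroup G)
    (hnil : Group.IsNilpotent N) (V : AddSubgroup M) (hV : FGM N V) (m : M) (hm : m ≠ 0) :
    ∃ k, 0 < k ∧ ∀ H : Subgroup G, H ≤ pw N k →
      (∀ E : AddSubgroup M, Stb H E → E ≤ V → ∃ c, ∀ n, dpow H (n + c) V ⊓ E ≤ dpow H n E) →
      ∃ n, m ∉ dpow H n V := by
  classical
  by_cases hmV : m ∈ V
  swap
  · exact ⟨1, one_pos, fun H _ _ => ⟨0, hmV⟩⟩
  have hVs : Stb N V := by
    obtain ⟨F, _, rfl⟩ := hV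
    exact gspan_stb_aux N F
  obtain ⟨K, ⟨hmK, hKs, hKV⟩, hKmax⟩ := hnoeth_max h N V hV (fun W => m ∉ W)
    ⟨⊥, fun hc => hm ((AddSubgroup.mem_bot).1 hc),
      fun g _ v hv => by
        rw [AddSubgroup.mem_bot] at hv ⊢
        rw [hv, smul_zero], bot_le⟩
  set E : AddSubgroup M := gspan N {m} ⊔ K with hE
  have hmE : m ∈ E := (le_sup_left : gspan N {m} ≤ E) (mem_gspan_aux rfl)
  have hKE : K ≤ E := le_sup_right
  have hEs : Stb N E := by
    intro g hg v hv
    rw [hE, AddSubgroup.mem_sup] at hv ⊢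
    obtain ⟨a, ha, b, hb, rfl⟩ := hv
    exact ⟨g • a, gspan_stb_aux N _ g hg a ha, g • b, hKs g hg b hb, (smul_add _ _ _).symm⟩
  have hEV : E ≤ V := sup_le (gspan_le_aux hVs (by simpa using hmV)) hKV
  obtain ⟨Q, iQ, aQ, f, hfs, hfk, hfe⟩ := exists_quot N E K hEs hKs
  have hfin : Finite Q := by
    refine hph (hsub h N) hnil p hp ?_ ?_
    · intro q
      obtain ⟨v, rfl⟩ := hfs q
      rw [← map_nsmul]
      have : p • v = 0 := by
        ext
        rw [AddSubgroup.coe_nsmul, hM]; rfl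
      rw [this, map_zero]
    · intro W hW
      by_cases hWb : W = ⊥
      · exact Or.inl hWb
      right
      -- the preimage of `W` in `M`
      let W' : AddSubgroup M := (W.comap f).map E.subtype
      have hW'mem : ∀ x : M, x ∈ W' ↔ ∃ hx : x ∈ E, f ⟨x, hx⟩ ∈ W := by
        intro x
        constructor
        · rintro ⟨y, hy, rfl⟩
          exact ⟨y.2, hy⟩
        · rintro ⟨hx, hx'⟩
          exact ⟨⟨x, hx⟩, hx', rfl⟩
      have hW's : Stb N W' := by
        intro g hg v hv
        rw [hW'mem] at hv ⊢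
        obtain ⟨hx, hx'⟩ := hv
        refine ⟨hEs g hg v hx, ?_⟩
        have := hfe ⟨g, hg⟩ ⟨v, hx⟩
        rw [this]
        exact hW _ (Subgroup.mem_top _) _ hx'
      have hW'E : W' ≤ E := by
        intro x hx
        rw [hW'mem] at hx
        exact hx.1
      have hKW' : K ≤ W' := by
        intro x hx
        rw [hW'mem]
        refine ⟨hKE hx, ?_⟩
        rw [(hfk ⟨x, hKE hx⟩).2 hx]
        exact W.zero_mem
      have hmW' : m ∈ W' := by
        by_contra hc
        have hWK := hKmax W' hc hW's (hW'E.trans hEV) hKW'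
        apply hWb
        rw [AddSubgroup.eq_bot_iff_forall]
        intro q hq
        obtain ⟨v, rfl⟩ := hfs q
        rw [hfk, ← hWK, hW'mem]
        exact ⟨v.2, hq⟩
      have hEW' : E ≤ W' := sup_le (gspan_le_aux hW's (by simpa using hmW')) hKW'
      rw [AddSubgroup.eq_top_iff']
      intro q
      obtain ⟨v, rfl⟩ := hfs q
      have := hEW' v.2
      rw [hW'mem] at this
      exact this.2
  refine ⟨(Nat.card Q).factorial, Nat.factorial_pos _, ?_⟩
  intro H hH hAR
  -- `pw N k` acts trivially on `E / K`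
  have hfi : Fintype Q := Fintype.ofFinite Q
  have hpow : ∀ (v : N) (q : Q), v ^ (Nat.card Q).factorial • q = q := by
    intro v q
    have h1 : (MulAction.toPermHom N Q v) ^ (Nat.card Q).factorial = 1 := by
      have := pow_card_eq_one' (x := MulAction.toPermHom N Q v)
      rwa [Nat.card_perm] at this
    rw [← map_pow] at h1
    have h2 := congrArg (fun σ : Equiv.Perm Q => σ q) h1
    simpa using h2
  have htriv : ∀ g ∈ pw N (Nat.card Q).factorial, g ∈ N ∧ ∀ x ∈ E, g • x - x ∈ K := by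
    intro g hg
    unfold pw at hg
    induction hg using Subgroup.closure_induction with
    | mem g hg =>
      obtain ⟨v, hv, rfl⟩ := hg
      refine ⟨N.pow_mem hv _, fun x hx => ?_⟩
      have hgx : v ^ (Nat.card Q).factorial • x ∈ E := hEs _ (N.pow_mem hv _) x hx
      rw [show v ^ (Nat.card Q).factorial • x - x
        = ((⟨v ^ (Nat.card Q).factorial • x, hgx⟩ - ⟨x, hx⟩ : E) : M) from rfl, ← hfk, map_sub]
      have := hfe (⟨v, hv⟩ ^ (Nat.card Q).factorial) ⟨x, hx⟩
      rw [hpow] at this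
      rw [sub_eq_zero, ← this]
      rfl
    | one => exact ⟨N.one_mem, fun x _ => by rw [one_smul, sub_self]; exact K.zero_mem⟩
    | mul a b _ _ ha hb =>
      refine ⟨N.mul_mem ha.1 hb.1, fun x hx => ?_⟩
      have h1 : (a * b) • x - x = (a • (b • x) - b • x) + (b • x - x) := by
        rw [mul_smul]; abel
      rw [h1]
      exact K.add_mem (ha.2 _ (hEs b hb.1 x hx)) (hb.2 x hx)
    | inv a _ ha =>
      refine ⟨N.inv_mem ha.1, fun x hx => ?_⟩
      have h1 : a⁻¹ • x - x = -(a • (a⁻¹ • x) - a⁻¹ • x) := by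
        rw [smul_inv_smul]; abel
      rw [h1]
      exact K.neg_mem (ha.2 _ (hEs _ (N.inv_mem ha.1) x hx))
  have hHE : Stb H E := fun g hg v hv => hEs g (htriv g (hH hg)).1 v hv
  obtain ⟨c, hc⟩ := hAR E hHE hEV
  refine ⟨1 + c, fun hcon => hmK ?_⟩
  have h1 := hc 1 ⟨hcon, hmE⟩
  have h2 : dpow H 1 E ≤ K := by
    show dmul H (dpow H 0 E) ≤ K
    unfold dmul
    rw [AddSubgroup.closure_le]
    rintro _ ⟨g, hg, v, hv, rfl⟩
    exact (htriv g (hH hg)).2 v hv
  exact h2 h1

end Pool.Agent.Polc
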