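import Pool.Agent.Polc.Defs

/-! Module S3 of the proof for MP_9e8505_al: primes of maximal rank in a noetherian coefficient
ring. `s3_of` takes the conclusion of `TBad.emb` (module TB) as a hypothesis. -/

set_option autoImplicit false

namespace Pool.Agent.Polc


universe u

theorem s3_rank_le {α : Type u} (r : α → α → Prop) [IsWellFounded α r] (f : α → α)
    (hf : ∀ a b, r a b → r (f a) (f b)) (a : α) :
    IsWellFounded.rank r a ≤ IsWellFounded.rank r (f a) := by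
  induction a using IsWellFounded.induction r with
  | ind a ih =>
    rw [IsWellFounded.rank_eq r a]
    apply Ordinal.iSup_le
    rintro ⟨b, hb⟩
    exact Order.succ_le_of_lt ((ih b hb).trans_lt (IsWellFounded.rank_lt_of_rel (hf b a hb)))

section s3

variable {G : Type} [Group G] {S : Type} [CommRing S]

/-- the action on primes -/
@[reducible] def s3act (φ : G →* RingAut S) : MulAction G (PrimeSpectrum S) where
  smul g P := ⟨P.asIdeal.comap ((φ g⁻¹ : S ≃+* S) : S →+* S), Ideal.IsPrime.comap _⟩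
  one_smul P := by
    apply PrimeSpectrum.ext
    ext s
    change φ (1 : G)⁻¹ s ∈ P.asIdeal ↔ s ∈ P.asIdeal
    simp
  mul_smul g h P := by
    apply PrimeSpectrum.ext
    ext s
    change φ (g * h)⁻¹ s ∈ P.asIdeal ↔ φ h⁻¹ (φ g⁻¹ s) ∈ P.asIdeal
    rw [mul_inv_rev, map_mul]
    rfl

theorem s3_mem (φ : G →* RingAut S) (g : G) (P : PrimeSpectrum S) (s : S) :
    s ∈ ((s3act φ).toSMul.smul g P).asIdeal ↔ φ g⁻¹ s ∈ P.asIdeal := Iff.rfl

theorem s3_phi_cancel (φ : G →* RingAut S) (g : G) (s : S) : φ g⁻¹ (φ g s) = s := by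
  have h : φ g⁻¹ * φ g = 1 := by rw [← map_mul]; simp
  exact congrArg (fun a : RingAut S => a s) h

theorem s3_phi_cancel' (φ : G →* RingAut S) (g : G) (s : S) : φ g (φ g⁻¹ s) = s := by
  have h : φ g * φ g⁻¹ = 1 := by rw [← map_mul]; simp
  exact congrArg (fun a : RingAut S => a s) h

theorem s3_wf [IsNoetherianRing S] : WellFoundedGT (PrimeSpectrum S) :=
  StrictMono.wellFoundedGT (f := PrimeSpectrum.asIdeal) (fun _ _ h => h)

/-- the rank of a prime -/
noncomputable def s3rk [IsNoetherianRing S] (P : PrimeSpectrum S) : Ordinal.{0} :=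
  have : WellFoundedGT (PrimeSpectrum S) := s3_wf
  IsWellFounded.rank (fun a b : PrimeSpectrum S => a > b) P

theorem s3rk_lt [IsNoetherianRing S] (P P' : PrimeSpectrum S) (h : P < P') :
    s3rk P' < s3rk P := by
  have : WellFoundedGT (PrimeSpectrum S) := s3_wf
  exact IsWellFounded.rank_lt_of_rel (r := fun a b : PrimeSpectrum S => a > b) h

theorem s3rk_le [IsNoetherianRing S] (P P' : PrimeSpectrum S) (h : P ≤ P') :
    s3rk P' ≤ s3rk P := by
  rcases eq_or_lt_of_le h with h | h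
  · rw [h]
  · exact (s3rk_lt P P' h).le

theorem s3rk_le_smul [IsNoetherianRing S] (φ : G →* RingAut S) (g : G) (P : PrimeSpectrum S) :
    s3rk P ≤ s3rk ((s3act φ).toSMul.smul g P) := by
  have : WellFoundedGT (PrimeSpectrum S) := s3_wf
  refine s3_rank_le (fun a b : PrimeSpectrum S => a > b) (fun P => (s3act φ).toSMul.smul g P) ?_ P
  intro a b hab
  change b < a at hab
  change (s3act φ).toSMul.smul g b < (s3act φ).toSMul.smul g a
  rw [lt_iff_le_not_ge] at hab ⊢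
  constructor
  · intro s hs
    exact hab.1 hs
  · intro h
    apply hab.2
    intro s hs
    have h2 : φ g s ∈ ((s3act φ).toSMul.smul g a).asIdeal := by
      rw [s3_mem, s3_phi_cancel]; exact hs
    have h3 := h h2
    rw [s3_mem, s3_phi_cancel] at h3
    exact h3

theorem s3rk_smul [IsNoetherianRing S] (φ : G →* RingAut S) (g : G) (P : PrimeSpectrum S) :
    s3rk ((s3act φ).toSMul.smul g P) = s3rk P := by
  apply le_antisymm _ (s3rk_le_smul φ g P)
  have h := s3rk_le_smul φ g⁻¹ ((s3act φ).toSMul.smul g P)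
  have h2 : (s3act φ).toSMul.smul g⁻¹ ((s3act φ).toSMul.smul g P) = P :=
    @inv_smul_smul G (PrimeSpectrum S) _ (s3act φ) g P
  rwa [h2] at h

variable {X : Type} [AddCommGroup X] [Module S X]

/-- annihilator of an element -/
def s3ann (S : Type) [CommRing S] {X : Type} [AddCommGroup X] [Module S X] (x : X) : Ideal S :=
  LinearMap.ker (LinearMap.toSpanSingleton S X x)

theorem s3_mem_ann (x : X) (s : S) : s ∈ s3ann S x ↔ s • x = 0 := by
  simp [s3ann]

theorem s3_exists_sigma [IsNoetherianRing S] (x : X) (Q : Ideal S)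
    (hQ : Q ∈ (s3ann S x).minimalPrimes) : ∃ σ : S, ∀ s : S, s • (σ • x) = 0 ↔ s ∈ Q := by
  have h1 : Module.annihilator S (Submodule.span S {x}) = s3ann S x := by
    ext s
    rw [s3_mem_ann]
    exact Submodule.mem_annihilator_span_singleton x s
  have h2 : Q ∈ associatedPrimes S (Submodule.span S {x}) := by
    apply Module.associatedPrimes.minimalPrimes_annihilator_subset_associatedPrimes
    rw [h1]; exact hQ
  have h3 := (isAssociatedPrime_iff.mp ((AssociatedPrimes.mem_iff).mp h2)).2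
  obtain ⟨y, hy⟩ := h3
  obtain ⟨σ, hσ⟩ := Submodule.mem_span_singleton.mp y.2
  refine ⟨σ, fun s => ?_⟩
  rw [hy, Submodule.mem_colon_singleton, Submodule.mem_bot, hσ]
  constructor
  · intro h; exact Subtype.ext (by simpa using h)
  · intro h; have := congrArg Subtype.val h; simpa using this

end s3

/-- the statement `s3`, given the conclusion of `TBad.emb` -/
theorem s3_of {G M : Type} [Group G] [AddCommGroup M] [DistribMulAction G M] [Nontrivial M]
    (hemb : ∀ (Ω : Type) [MulAction G Ω] (K : Ω → AddSubgroup M),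
      (∀ (g : G) (ω : Ω) (m : M), m ∈ K ω ↔ g • m ∈ K (g • ω)) →
      ∀ (m0 : M), m0 ≠ 0 → {ω | m0 ∉ K ω}.Finite →
      (∀ m ∈ gspan (⊤ : Subgroup G) {m0}, (∀ ω, m ∈ K ω) → m = 0) →
      ∃ ω, m0 ∉ K ω ∧ (MulAction.stabilizer G ω).FiniteIndex)
    (S X : Type) [CommRing S] [IsNoetherianRing S] [AddCommGroup X] [Module S X]
    [DistribMulAction G X] (φ : G →* RingAut S)
    (hφ : ∀ (g : G) (s : S) (x : X), g • (s • x) = (φ g s) • (g • x))
    (ι : M →+ X) (hι : Function.Injective ι) (hιG : ∀ (g : G) (m : M), ι (g • m) = g • ι m) :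
    ∃ (m0 : M) (Q : Ideal S) (σ : S), m0 ≠ 0 ∧ Q.IsPrime ∧
      (∀ s : S, s • (σ • ι m0) = 0 ↔ s ∈ Q) ∧
      ∃ G3 : Subgroup G, G3.FiniteIndex ∧ G3.Normal ∧ ∀ g ∈ G3, ∀ s : S, s ∈ Q ↔ φ g s ∈ Q := by
  classical
  -- the invariant
  let B : Ordinal.{0} → M → Prop := fun o m =>
    ∀ P : PrimeSpectrum S, s3ann S (ι m) ≤ P.asIdeal → s3rk P ≤ o
  have hex : ∃ o : Ordinal.{0}, ∃ m : M, m ≠ 0 ∧ B o m := by
    obtain ⟨m, hm⟩ := exists_ne (0 : M)
    obtain ⟨o, ho⟩ := Ordinal.bddAbove_of_small (s := Set.range (fun P : PrimeSpectrum S => s3rk P))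
    exact ⟨o, m, hm, fun P _ => ho ⟨P, rfl⟩⟩
  obtain ⟨δ, ⟨m0, hm0, hB⟩, hmin⟩ : ∃ δ : Ordinal.{0}, (∃ m : M, m ≠ 0 ∧ B δ m) ∧
      ∀ o, (∃ m : M, m ≠ 0 ∧ B o m) → δ ≤ o := by
    obtain ⟨δ, hδ, h2⟩ := WellFounded.has_min (r := ((· < ·) : Ordinal.{0} → Ordinal.{0} → Prop))
      wellFounded_lt {o | ∃ m : M, m ≠ 0 ∧ B o m} hex
    exact ⟨δ, hδ, fun o ho => not_lt.mp (h2 o ho)⟩
  have hact : ∀ (g : G) (m : M) (s : S), φ g s • ι (g • m) = g • (s • ι m) := by
    intro g m s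
    rw [hιG, hφ]
  -- Claim A
  have hspan : ∀ m ∈ gspan (⊤ : Subgroup G) {m0}, ∃ F : Finset G,
      F.inf (fun g => s3ann S (ι (g • m0))) ≤ s3ann S (ι m) := by
    intro m hm
    induction hm using AddSubgroup.closure_induction with
    | mem x hx =>
      obtain ⟨h, -, f, hf, rfl⟩ := hx
      rw [Set.mem_singleton_iff] at hf
      subst hf
      exact ⟨{h}, by simp⟩
    | zero => exact ⟨∅, by intro s _; rw [s3_mem_ann]; simp⟩
    | add x y _ _ hx hy =>
      obtain ⟨F1, h1⟩ := hx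
      obtain ⟨F2, h2⟩ := hy
      refine ⟨F1 ∪ F2, ?_⟩
      rw [Finset.inf_union]
      intro s hs
      have a1 := (s3_mem_ann _ _).mp (h1 (Submodule.mem_inf.mp hs).1)
      have a2 := (s3_mem_ann _ _).mp (h2 (Submodule.mem_inf.mp hs).2)
      rw [s3_mem_ann, map_add, smul_add, a1, a2, add_zero]
    | neg x _ hx =>
      obtain ⟨F1, h1⟩ := hx
      refine ⟨F1, fun s hs => ?_⟩
      have a1 := (s3_mem_ann _ _).mp (h1 hs)
      rw [s3_mem_ann, map_neg, smul_neg, a1, neg_zero]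
  have hA : ∀ m ∈ gspan (⊤ : Subgroup G) {m0}, B δ m := by
    intro m hm P hP
    obtain ⟨F, hF⟩ := hspan m hm
    obtain ⟨g, -, hg⟩ := (Ideal.IsPrime.inf_le' P.2).mp (hF.trans hP)
    have h1 : s3ann S (ι m0) ≤ ((s3act φ).toSMul.smul g⁻¹ P).asIdeal := by
      intro s hs
      rw [s3_mem, inv_inv]
      apply hg
      rw [s3_mem_ann, hact, (s3_mem_ann _ _).mp hs, smul_zero]
    have h2 := hB _ h1
    rwa [s3rk_smul] at h2
  -- Claim B
  have hBB : ∀ m ∈ gspan (⊤ : Subgroup G) {m0}, m ≠ 0 →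
      ∃ P : PrimeSpectrum S, s3ann S (ι m) ≤ P.asIdeal ∧ s3rk P = δ := by
    intro m hm hm1
    let T : Set (PrimeSpectrum S) := {P | P.asIdeal ∈ (s3ann S (ι m)).minimalPrimes}
    have hTf : T.Finite := by
      apply Set.Finite.preimage _ (Ideal.finite_minimalPrimes_of_isNoetherianRing S (s3ann S (ι m)))
      intro a _ b _ hab
      exact PrimeSpectrum.ext hab
    have hne : s3ann S (ι m) ≠ ⊤ := by
      intro h
      have h1 : (1 : S) ∈ s3ann S (ι m) := by rw [h]; trivial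
      rw [s3_mem_ann, one_smul] at h1
      exact hm1 (hι (by rw [h1, map_zero]))
    have hTn : T.Nonempty := by
      obtain ⟨I, hI, hI2⟩ := Ideal.exists_le_maximal _ hne
      obtain ⟨p, hp, -⟩ := @Ideal.exists_minimalPrimes_le S _ (s3ann S (ι m)) I hI.isPrime hI2
      exact ⟨⟨p, hp.1.1⟩, hp⟩
    obtain ⟨P, hP, hPmax⟩ := Set.exists_max_image T s3rk hTf hTn
    refine ⟨P, hP.1.2, le_antisymm (hA m hm P hP.1.2) ?_⟩
    apply hmin
    refine ⟨m, hm1, fun P' hP' => ?_⟩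
    obtain ⟨p, hp, hpP⟩ := @Ideal.exists_minimalPrimes_le S _ (s3ann S (ι m)) P'.asIdeal P'.2 hP'
    exact (s3rk_le ⟨p, hp.1.1⟩ P' hpP).trans (hPmax ⟨p, hp.1.1⟩ hp)
  -- the action on Ω
  let Ω := {P : PrimeSpectrum S // s3rk P = δ}
  let actΩ : MulAction G Ω :=
    { smul := fun g P => ⟨(s3act φ).toSMul.smul g P.1, by rw [s3rk_smul]; exact P.2⟩
      one_smul := fun P => Subtype.ext ((s3act φ).one_smul P.1)
      mul_smul := fun g h P => Subtype.ext ((s3act φ).mul_smul g h P.1) }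
  have hmemΩ : ∀ (g : G) (P : Ω) (s : S), s ∈ (g • P).1.asIdeal ↔ φ g⁻¹ s ∈ P.1.asIdeal :=
    fun g P s => Iff.rfl
  let K : Ω → AddSubgroup M := fun P =>
    { carrier := {m | ∃ s, s ∉ P.1.asIdeal ∧ s • ι m = 0}
      zero_mem' := ⟨1, (Ideal.ne_top_iff_one _).mp P.1.2.ne_top, by simp⟩
      add_mem' := by
        rintro a b ⟨s, hs, hs2⟩ ⟨s', hs', hs2'⟩
        refine ⟨s * s', fun h => ?_, ?_⟩
        · rcases P.1.2.mem_or_mem h with h | h
          · exact hs h
          · exact hs' h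
        · rw [map_add, smul_add, mul_smul s s' (ι b), hs2', smul_zero, add_zero, mul_comm, mul_smul,
            hs2, smul_zero]
      neg_mem' := by
        rintro a ⟨s, hs, hs2⟩
        exact ⟨s, hs, by rw [map_neg, smul_neg, hs2, neg_zero]⟩ }
  have hKmem : ∀ (P : Ω) (m : M), m ∈ K P ↔ ∃ s, s ∉ P.1.asIdeal ∧ s • ι m = 0 :=
    fun P m => Iff.rfl
  have hK1 : ∀ (g : G) (ω : Ω) (m : M), m ∈ K ω → g • m ∈ K (g • ω) := by
    rintro g ω m ⟨s, hs, hs2⟩
    refine ⟨φ g s, ?_, ?_⟩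
    · rw [hmemΩ, s3_phi_cancel]; exact hs
    · rw [hact, hs2, smul_zero]
  have hK : ∀ (g : G) (ω : Ω) (m : M), m ∈ K ω ↔ g • m ∈ K (g • ω) := by
    intro g ω m
    refine ⟨hK1 g ω m, fun h => ?_⟩
    have h2 := hK1 g⁻¹ _ _ h
    rwa [inv_smul_smul, inv_smul_smul] at h2
  have hnotK : ∀ (P : Ω) (m : M), m ∉ K P → s3ann S (ι m) ≤ P.1.asIdeal := by
    intro P m hm s hs
    by_contra hc
    exact hm ⟨s, hc, (s3_mem_ann _ _).mp hs⟩
  have hminp : ∀ P : Ω, m0 ∉ K P → P.1.asIdeal ∈ (s3ann S (ι m0)).minimalPrimes := by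
    intro P hP
    have h1 := hnotK P m0 hP
    refine ⟨⟨P.1.2, h1⟩, ?_⟩
    rintro J ⟨hJ, hJ2⟩ hJP
    by_contra hc
    have h3 : (⟨J, hJ⟩ : PrimeSpectrum S) < P.1 := lt_of_le_not_ge hJP hc
    have h4 := s3rk_lt _ _ h3
    have h5 := hB ⟨J, hJ⟩ hJ2
    rw [P.2] at h4
    exact absurd h5 (not_le.mpr h4)
  have hfin : {ω | m0 ∉ K ω}.Finite := by
    apply Set.Finite.subset (s := (fun P : Ω => P.1.asIdeal) ⁻¹' (s3ann S (ι m0)).minimalPrimes)
    · apply Set.Finite.preimage _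
        (Ideal.finite_minimalPrimes_of_isNoetherianRing S (s3ann S (ι m0)))
      intro a _ b _ hab
      exact Subtype.ext (PrimeSpectrum.ext hab)
    · intro P hP
      exact hminp P hP
  have hint : ∀ m ∈ gspan (⊤ : Subgroup G) {m0}, (∀ ω, m ∈ K ω) → m = 0 := by
    intro m hm h
    by_contra hm1
    obtain ⟨P, hP, hP2⟩ := hBB m hm hm1
    obtain ⟨s, hs, hs2⟩ := h ⟨P, hP2⟩
    exact hs (hP ((s3_mem_ann _ _).mpr hs2))
  obtain ⟨Q, hQ, hQfi⟩ := hemb Ω K hK m0 hm0 hfin hint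
  obtain ⟨σ, hσ⟩ := s3_exists_sigma (ι m0) Q.1.asIdeal (hminp Q hQ)
  refine ⟨m0, Q.1.asIdeal, σ, hm0, Q.1.2, hσ, (MulAction.stabilizer G Q).normalCore,
    inferInstance, inferInstance, ?_⟩
  intro g hg s
  have h1 : g ∈ MulAction.stabilizer G Q := Subgroup.normalCore_le _ hg
  rw [MulAction.mem_stabilizer_iff] at h1
  have h2 := hmemΩ g Q (φ g s)
  rw [h1, s3_phi_cancel] at h2
  exact h2.symm

end Pool.Agent.Polc
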