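import Pool.Agent.Polc.STG1STG3
import Pool.Agent.Polc.TB
import Pool.Agent.Polc.PCB2
import Pool.Agent.Polc.HLM

/-!
# Module STG2: choice of the central algebraic subgroup `U` of maximal Hirsch length
(`MP_9e8505_al`)
-/

set_option autoImplicit false

namespace Pool.Agent.Polc

/-- the identity is algebraic -/
theorem Alg.one {G M : Type} [Group G] [AddCommGroup M] [DistribMulAction G M] {c : ℕ}
    (hc : Char c M) (m : M) : Alg c (1 : G) m := by
  have hn : Nontrivial (ZMod c) := by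
    rcases hc with ⟨rfl, -⟩ | ⟨hp, -⟩
    · exact inferInstanceAs (Nontrivial ℤ)
    · have := Fact.mk hp.one_lt
      infer_instance
  refine ⟨Polynomial.X - Polynomial.C 1, ?_, ?_⟩
  · have hm : (Polynomial.X - Polynomial.C (1 : ℤ)).Monic := Polynomial.monic_X_sub_C 1
    exact (hm.map _).ne_zero
  · rw [map_sub, Polynomial.aeval_X, Polynomial.aeval_C, map_one, map_one, sub_self]
    rfl

/-- The Hirsch length of `U` is bounded in all configurations. -/
theorem UConf.hl_le {n c : ℕ} {G M : Type} [Group G] [AddCommGroup M] [DistribMulAction G M]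
    {U : Subgroup G} (uc : UConf n c G M U) : hl U ≤ n + 1 :=
  Pool.Agent.Polc.hl_le (HL.sub uc.tb.hl U)

/-- Passing to a subgroup `G1` of finite index such that `G1 / U` is torsion-free. -/
theorem UConf.exists_utor {n c : ℕ} {G M : Type} [Group G] [AddCommGroup M]
    [DistribMulAction G M] {U : Subgroup G} (uc : UConf n c G M U) :
    ∃ (G' M' : Type) (_ : Group G') (_ : AddCommGroup M') (_ : DistribMulAction G' M')
      (U' : Subgroup G'), UConf n c G' M' U' ∧ hl U' = hl U ∧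
        (∀ (g : G') (k : ℕ), 0 < k → g ^ k ∈ U' → g ∈ U') := by
  have hN : U.Normal := by
    refine ⟨fun u hu g => ?_⟩
    rw [uc.cen u hu g, mul_inv_cancel_right]
    exact hu
  obtain ⟨G0, hfi, -, htf⟩ :=
    (uc.tb.pc.surj (QuotientGroup.mk' U) (QuotientGroup.mk'_surjective U)).exists_tf
  have h1 : (G0.comap (QuotientGroup.mk' U)).FiniteIndex := by
    refine ⟨?_⟩
    rw [Subgroup.index_comap_of_surjective _ (QuotientGroup.mk'_surjective U)]
    exact hfi.index_ne_zero
  have hW : (⊤ : AddSubgroup M) ≠ ⊥ := by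
    have := uc.tb.nz
    exact top_ne_bot
  obtain ⟨iA, -, uc'⟩ := uc.restrict (G0.comap (QuotientGroup.mk' U)) h1 ⊤ hW
    (fun _ _ _ _ => AddSubgroup.mem_top _)
  refine ⟨G0.comap (QuotientGroup.mk' U), (⊤ : AddSubgroup M), inferInstance, inferInstance, iA,
    U.subgroupOf _, uc', hl_subgroupOf uc.tb.pc U _ h1, ?_⟩
  intro g k hk hgk
  rw [Subgroup.mem_subgroupOf] at hgk ⊢
  have h2 : (⟨QuotientGroup.mk' U g, g.2⟩ : G0) ^ k = 1 := by
    apply Subtype.ext
    have : QuotientGroup.mk' U ((g : G) ^ k) = 1 := by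
      rw [← MonoidHom.mem_ker, QuotientGroup.ker_mk']
      simpa using hgk
    simpa using this
  have h3 := congrArg Subtype.val (htf _ k hk h2)
  have h4 : QuotientGroup.mk' U (g : G) = 1 := by simpa using h3
  rwa [← MonoidHom.mem_ker, QuotientGroup.ker_mk'] at h4

theorem exists_uconf {n : ℕ} (ih : IH n) (h : ¬ IH (n + 1)) :
    ∃ (c k : ℕ), UMax n c k ∧
    ∃ (G M : Type) (_ : Group G) (_ : AddCommGroup M) (_ : DistribMulAction G M) (U : Subgroup G),
      UConf n c G M U ∧ hl U = k ∧ (∀ (g : G) (k : ℕ), 0 < k → g ^ k ∈ U → g ∈ U) := by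
  obtain ⟨c, G, M, iG, iM, iA, tb, hc⟩ := exists_tbad ih h
  have huc : UConf n c G M (⊥ : Subgroup G) := by
    refine ⟨tb, hc, ?_, ?_⟩
    · intro u hu g
      rw [Subgroup.mem_bot] at hu
      rw [hu, mul_one, one_mul]
    · intro u hu m
      rw [Subgroup.mem_bot] at hu
      rw [hu]
      exact Alg.one hc m
  classical
  set P : ℕ → Prop := fun k => ∃ (G M : Type) (_ : Group G) (_ : AddCommGroup M)
    (_ : DistribMulAction G M) (U : Subgroup G), UConf n c G M U ∧ hl U = k with hP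
  have hP0 : P (hl (⊥ : Subgroup G)) := ⟨G, M, iG, iM, iA, ⊥, huc, rfl⟩
  have hb : ∀ k, P k → k ≤ n + 1 := by
    rintro k ⟨G, M, iG, iM, iA, U, uc, rfl⟩
    exact uc.hl_le
  have hk : P (Nat.findGreatest P (n + 1)) := Nat.findGreatest_spec (hb _ hP0) hP0
  obtain ⟨G', M', iG', iM', iA', U, uc, hU⟩ := hk
  refine ⟨c, Nat.findGreatest P (n + 1), ?_, ?_⟩
  · intro G1 M1 _ _ _ U1 uc1
    have h1 : P (hl U1) := ⟨G1, M1, _, _, _, U1, uc1, rfl⟩
    exact Nat.le_findGreatest (hb _ h1) h1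
  · obtain ⟨G2, M2, iG2, iM2, iA2, U2, uc2, h2, h3⟩ := uc.exists_utor
    exact ⟨G2, M2, iG2, iM2, iA2, U2, uc2, h2.trans hU, h3⟩

end Pool.Agent.Polc
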