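import Pool.Agent.Polc.S3
import Pool.Agent.Polc.Defs2

/-! Module SYMB of the proof for MP_9e8505_al, abstract part: a noetherian commutative ring of
operators and the conclusion of `s3`. -/

set_option autoImplicit false

namespace Pool.Agent.Polc


theorem symb_unit {X : Type} [AddCommGroup X] {Γ : Type} [Group Γ] (ρ : Γ →* AddMonoid.End X)
    (g : Γ) : ρ g * ρ g⁻¹ = 1 := by rw [← map_mul]; simp

theorem symb_unit' {X : Type} [AddCommGroup X] {Γ : Type} [Group Γ] (ρ : Γ →* AddMonoid.End X)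
    (g : Γ) : ρ g⁻¹ * ρ g = 1 := by rw [← map_mul]; simp

/-- conjugation on endomorphisms -/
def symb_cj {X : Type} [AddCommGroup X] {Γ : Type} [Group Γ] (ρ : Γ →* AddMonoid.End X) (g : Γ) :
    AddMonoid.End X →+* AddMonoid.End X where
  toFun s := ρ g * s * ρ g⁻¹
  map_one' := by rw [mul_one, symb_unit]
  map_mul' a b := by
    have h := symb_unit' ρ g
    calc ρ g * (a * b) * ρ g⁻¹ = ρ g * a * 1 * b * ρ g⁻¹ := by rw [mul_one]; simp only [mul_assoc]
      _ = ρ g * a * ρ g⁻¹ * (ρ g * b * ρ g⁻¹) := by rw [← h]; simp only [mul_assoc]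
  map_zero' := by rw [mul_zero, zero_mul]
  map_add' a b := by rw [mul_add, add_mul]

theorem symb_noeth {E : Type} [Ring E] (A T : Set E) (hT : T.Finite)
    (hcomm : ∀ a ∈ A, ∀ b ∈ A, a * b = b * a) (hTA : T ⊆ A) (hAT : A ⊆ Submonoid.closure T) :
    @IsNoetherianRing (Subring.closure A)
      (Subring.closureCommRingOfComm hcomm).toRing.toSemiring := by
  let _ : CommRing (Subring.closure A) := Subring.closureCommRingOfComm hcomm
  have : Finite T := hT
  let f : MvPolynomial T ℤ →+* Subring.closure A :=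
    MvPolynomial.eval₂Hom (Int.castRingHom _)
      (fun t => ⟨t.1, Subring.subset_closure (hTA t.2)⟩)
  have hclo : Subring.closure A = Subring.closure T := by
    apply le_antisymm
    · rw [Subring.closure_le]
      intro a ha
      exact (Submonoid.closure_le (S := (Subring.closure T).toSubmonoid)).mpr
        Subring.subset_closure (hAT ha)
    · exact Subring.closure_mono hTA
  refine isNoetherianRing_of_surjective (MvPolynomial T ℤ) (Subring.closure A) f ?_
  rintro ⟨s, hs⟩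
  have hs' : s ∈ Subring.closure T := hclo ▸ hs
  have key : ∀ s ∈ Subring.closure T, ∃ p, ((f p : Subring.closure A) : E) = s := by
    intro s hs
    induction hs using Subring.closure_induction with
    | mem x hx => exact ⟨MvPolynomial.X ⟨x, hx⟩, by simp [f]⟩
    | zero => exact ⟨0, by rw [map_zero]; rfl⟩
    | one => exact ⟨1, by rw [map_one]; rfl⟩
    | add x y _ _ hx hy =>
      obtain ⟨p, hp⟩ := hx
      obtain ⟨q, hq⟩ := hy
      exact ⟨p + q, by rw [map_add, ← hp, ← hq]; rfl⟩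
    | neg x _ hx =>
      obtain ⟨p, hp⟩ := hx
      exact ⟨-p, by rw [map_neg, ← hp]; rfl⟩
    | mul x y _ _ hx hy =>
      obtain ⟨p, hp⟩ := hx
      obtain ⟨q, hq⟩ := hy
      exact ⟨p * q, by rw [map_mul, ← hp, ← hq]; rfl⟩
  obtain ⟨p, hp⟩ := key s hs'
  exact ⟨p, Subtype.ext hp⟩

theorem symb_abs {G M : Type} [Group G] [AddCommGroup M] [DistribMulAction G M] {n : ℕ}
    (ih : IH n) (t : TBad n G M) {w : M} (gen : gspan (⊤ : Subgroup G) {w} = ⊤)
    {X : Type} [AddCommGroup X] {Γ : Type} [Group Γ] (ρ : Γ →* AddMonoid.End X) (c : G →* Γ)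
    (HH : Subgroup Γ) (hconj : ∀ γ : G, ∀ h ∈ HH, c γ * h * (c γ)⁻¹ ∈ HH)
    (hcomm : ∀ a ∈ HH, ∀ b ∈ HH, ρ a * ρ b = ρ b * ρ a)
    (T : Set Γ) (hT : T.Finite) (hTH : T ⊆ HH)
    (hgen : ∀ h ∈ HH, ∃ h' ∈ Subgroup.closure T, ρ h = ρ h')
    (ξ : Γ) (hξ : ξ ∈ HH)
    (ι : M →+ X) (hι : Function.Injective ι) (hιG : ∀ (g : G) (m : M), ι (g • m) = ρ (c g) (ι m))
    (hξw : ρ ξ (ι w) = ι w) :
    ∃ (y : X) (G3 : Subgroup G) (γ0 : G), y ≠ 0 ∧ G3.FiniteIndex ∧ G3.Normal ∧
      ρ (c γ0 * ξ * (c γ0)⁻¹) y = y ∧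
      ∀ g ∈ HH, ∀ γ ∈ G3, ρ g y = y → ρ (c γ * g * (c γ)⁻¹) y = y := by
  classical
  -- the coefficient ring
  let A : Set (AddMonoid.End X) := {s | ∃ h ∈ HH, s = ρ h}
  have hA : ∀ a ∈ A, ∀ b ∈ A, a * b = b * a := by
    rintro _ ⟨a, ha, rfl⟩ _ ⟨b, hb, rfl⟩
    exact hcomm a ha b hb
  let T' : Set (AddMonoid.End X) := (ρ '' T) ∪ ((fun g => ρ g⁻¹) '' T)
  have hT' : T'.Finite := (hT.image _).union (hT.image _)
  have hTA : T' ⊆ A := by
    rintro _ (⟨g, hg, rfl⟩ | ⟨g, hg, rfl⟩)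
    · exact ⟨g, hTH hg, rfl⟩
    · exact ⟨g⁻¹, inv_mem (hTH hg), rfl⟩
  have hAT : A ⊆ Submonoid.closure T' := by
    rintro _ ⟨h, hh, rfl⟩
    obtain ⟨h', hh', he⟩ := hgen h hh
    rw [he]
    clear he
    change ρ h' ∈ Submonoid.closure T'
    induction hh' using Subgroup.closure_induction'' with
    | mem x hx => exact Submonoid.subset_closure (Or.inl ⟨x, hx, rfl⟩)
    | inv_mem x hx => exact Submonoid.subset_closure (Or.inr ⟨x, hx, rfl⟩)
    | one => rw [map_one]; exact one_mem _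
    | mul x y _ _ hx hy => rw [map_mul]; exact mul_mem hx hy
  let iS : CommRing (Subring.closure A) := Subring.closureCommRingOfComm hA
  have hnoeth : IsNoetherianRing (Subring.closure A) := symb_noeth A T' hT' hA hTA hAT
  -- conjugation on the coefficient ring
  have hcj : ∀ (g : G), ∀ s ∈ Subring.closure A, symb_cj ρ (c g) s ∈ Subring.closure A := by
    intro g s hs
    have h1 : Subring.closure A ≤ (Subring.closure A).comap (symb_cj ρ (c g)) := by
      rw [Subring.closure_le]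
      rintro _ ⟨h, hh, rfl⟩
      apply Subring.subset_closure
      refine ⟨c g * h * (c g)⁻¹, hconj g h hh, ?_⟩
      change ρ (c g) * ρ h * ρ (c g)⁻¹ = _
      rw [map_mul, map_mul]
    exact h1 hs
  have hcj1 : ∀ (g g' : G) (s : AddMonoid.End X),
      symb_cj ρ (c (g * g')) s = symb_cj ρ (c g) (symb_cj ρ (c g') s) := by
    intro g g' s
    change ρ (c (g * g')) * s * ρ (c (g * g'))⁻¹ = ρ (c g) * (ρ (c g') * s * ρ (c g')⁻¹) * ρ (c g)⁻¹
    rw [map_mul c, mul_inv_rev, map_mul, map_mul]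
    simp only [mul_assoc]
  have hcj2 : ∀ (s : AddMonoid.End X), symb_cj ρ (c 1) s = s := by
    intro s
    change ρ (c 1) * s * ρ (c 1)⁻¹ = s
    rw [map_one c, inv_one, map_one, one_mul, mul_one]
  let φ : G →* RingAut (Subring.closure A) :=
    { toFun := fun g =>
        { toFun := fun s => ⟨symb_cj ρ (c g) s.1, hcj g s.1 s.2⟩
          invFun := fun s => ⟨symb_cj ρ (c g⁻¹) s.1, hcj g⁻¹ s.1 s.2⟩
          left_inv := by
            intro s
            apply Subtype.ext
            change symb_cj ρ (c g⁻¹) (symb_cj ρ (c g) s.1) = s.1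
            rw [← hcj1, inv_mul_cancel, hcj2]
          right_inv := by
            intro s
            apply Subtype.ext
            change symb_cj ρ (c g) (symb_cj ρ (c g⁻¹) s.1) = s.1
            rw [← hcj1, mul_inv_cancel, hcj2]
          map_mul' := fun a b => Subtype.ext (map_mul (symb_cj ρ (c g)) a.1 b.1)
          map_add' := fun a b => Subtype.ext (map_add (symb_cj ρ (c g)) a.1 b.1) }
      map_one' := by
        ext s
        change symb_cj ρ (c 1) s.1 _ = s.1 _
        rw [hcj2]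
      map_mul' := by
        intro g g'
        ext s
        change symb_cj ρ (c (g * g')) s.1 _ = symb_cj ρ (c g) (symb_cj ρ (c g') s.1) _
        rw [hcj1] }
  -- module structures
  let iM : Module (Subring.closure A) X :=
    { smul := fun s x => s.1 x
      one_smul := fun x => rfl
      mul_smul := fun s s' x => rfl
      smul_zero := fun s => map_zero s.1
      smul_add := fun s x y => map_add s.1 x y
      add_smul := fun s s' x => rfl
      zero_smul := fun x => rfl }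
  let iG : DistribMulAction G X :=
    { smul := fun g x => ρ (c g) x
      one_smul := fun x => by
        change ρ (c 1) x = x
        rw [map_one, map_one]; rfl
      mul_smul := fun g g' x => by
        change ρ (c (g * g')) x = ρ (c g) (ρ (c g') x)
        rw [map_mul, map_mul]; rfl
      smul_zero := fun g => map_zero (ρ (c g))
      smul_add := fun g x y => map_add (ρ (c g)) x y }
  have hsm : ∀ (s : Subring.closure A) (y : X), s • y = s.1 y := fun s y => rfl
  have hgm : ∀ (g : G) (y : X), g • y = ρ (c g) y := fun s y => rfl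
  have hφv : ∀ (g : G) (s : Subring.closure A), (φ g s).1 = symb_cj ρ (c g) s.1 := fun g s => rfl
  have hcjv : ∀ (g : Γ) (s : AddMonoid.End X) (y : X), symb_cj ρ g s y = ρ g (s (ρ g⁻¹ y)) :=
    fun g s y => rfl
  have hinv : ∀ (g : Γ) (y : X), ρ g⁻¹ (ρ g y) = y := by
    intro g y
    exact congrArg (fun e : AddMonoid.End X => e y) (symb_unit' ρ g)
  obtain ⟨m0, Q, σ, hm0, hQ, hQs, G3, hG3, hG3n, hG3Q⟩ := s3 ih t (Subring.closure A) X φ (by
    intro g s y
    rw [hgm, hsm, hsm, hgm, hφv, hcjv, hinv]) ι hι hιG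
  -- elements of the ring attached to elements of HH
  let el : ∀ h ∈ HH, Subring.closure A := fun h hh =>
    ⟨ρ h - 1, sub_mem (Subring.subset_closure ⟨h, hh, rfl⟩) (one_mem _)⟩
  have hel : ∀ (h : Γ) (hh : h ∈ HH) (y : X), (el h hh) • y = ρ h y - y := fun h hh y => rfl
  have hξc : ∀ γ : G, c γ * ξ * (c γ)⁻¹ ∈ HH := fun γ => hconj γ ξ hξ
  -- products kill iota m
  have hprod : ∀ m : M, ∃ F : Finset G, (∏ γ ∈ F, el _ (hξc γ)) • ι m = 0 := by
    intro m
    have hm : m ∈ gspan (⊤ : Subgroup G) {w} := by rw [gen]; trivial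
    induction hm using AddSubgroup.closure_induction with
    | mem m hm =>
      obtain ⟨g, -, f, hf, rfl⟩ := hm
      rw [Set.mem_singleton_iff] at hf
      subst hf
      refine ⟨{g}, ?_⟩
      rw [Finset.prod_singleton, hel _ (hξc g), hιG, map_mul, map_mul]
      change ρ (c g) (ρ ξ (ρ (c g)⁻¹ (ρ (c g) (ι f)))) - ρ (c g) (ι f) = 0
      rw [hinv, hξw, sub_self]
    | zero => exact ⟨∅, by rw [map_zero, smul_zero]⟩
    | add m m' _ _ h h' =>
      obtain ⟨F, hF⟩ := h
      obtain ⟨F', hF'⟩ := h'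
      refine ⟨F ∪ F', ?_⟩
      obtain ⟨a, ha⟩ := Finset.prod_dvd_prod_of_subset F (F ∪ F') (fun γ => el _ (hξc γ))
        Finset.subset_union_left
      obtain ⟨a', ha'⟩ := Finset.prod_dvd_prod_of_subset F' (F ∪ F') (fun γ => el _ (hξc γ))
        Finset.subset_union_right
      rw [map_add, smul_add]
      have e1 : (∏ γ ∈ F ∪ F', el _ (hξc γ)) • ι m = 0 := by
        rw [ha, mul_comm, mul_smul, hF, smul_zero]
      have e2 : (∏ γ ∈ F ∪ F', el _ (hξc γ)) • ι m' = 0 := by
        rw [ha', mul_comm, mul_smul, hF', smul_zero]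
      rw [e1, e2, add_zero]
    | neg m _ h =>
      obtain ⟨F, hF⟩ := h
      exact ⟨F, by rw [map_neg, smul_neg, hF, neg_zero]⟩
  obtain ⟨F, hF⟩ := hprod m0
  have hFQ : (∏ γ ∈ F, el _ (hξc γ)) ∈ Q := by
    rw [← hQs, smul_smul, mul_comm, mul_smul, hF, smul_zero]
  obtain ⟨γ0, -, hγ0⟩ := (Ideal.IsPrime.prod_mem_iff (hp := hQ)).mp hFQ
  have hQel : ∀ (h : Γ) (hh : h ∈ HH), el h hh ∈ Q ↔ ρ h (σ • ι m0) = σ • ι m0 := by
    intro h hh
    rw [← hQs, hel _ hh, sub_eq_zero]
  refine ⟨σ • ι m0, G3, γ0, ?_, hG3, hG3n, (hQel _ (hξc γ0)).mp hγ0, ?_⟩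
  · intro h0
    apply hQ.ne_top
    rw [Ideal.eq_top_iff_one, ← hQs, h0, smul_zero]
  · intro g hg γ hγ hgy
    have h1 : el g hg ∈ Q := (hQel g hg).mpr hgy
    have h2 := (hG3Q γ hγ _).mp h1
    have h3 : φ γ (el g hg) = el _ (hconj γ g hg) := by
      apply Subtype.ext
      change ρ (c γ) * (ρ g - 1) * ρ (c γ)⁻¹ = ρ (c γ * g * (c γ)⁻¹) - 1
      rw [mul_sub, mul_one, sub_mul, symb_unit, map_mul, map_mul]
    rw [h3] at h2
    exact (hQel _ (hconj γ g hg)).mp h2

end Pool.Agent.Polc
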